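import Pool.Agent.P.MP_26ecb7_gt.Alex0

noncomputable section
open Set Filter Topology MeasureTheory Metric
open scoped RealInnerProductSpace ContDiff ENNReal

namespace Pool.Agent.Bor

theorem alex_alg {u v a b : E} (ha : ‖a‖ = 1) (hb : ‖b‖ = 1) (hab : ⟪a, b⟫ = 0)
    (hn : ‖cr a b‖ = 1) (h : 0 ≤ ⟪v, u⟫) (hu : |⟪u, cr a b⟫| ≤ ‖u‖ / 4)
    (hv : |⟪v, cr a b⟫| ≤ ‖v‖ / 4) {m : ℝ} (h1 : |⟪u + v, a⟫| ≤ m) (h2 : |⟪u + v, b⟫| ≤ m) :
    ‖u‖ ≤ 2 * m ∧ ‖v‖ ≤ 2 * m := by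
  have hp := parseval a b (u + v) (u + v)
  rw [hn, hab, real_inner_self_eq_norm_sq, real_inner_self_eq_norm_sq a,
    real_inner_self_eq_norm_sq b, ha, hb, norm_add_sq_real, real_inner_comm v u] at hp
  have h3 : |⟪u + v, cr a b⟫| ≤ ‖u‖ / 4 + ‖v‖ / 4 := by
    rw [inner_add_left]; exact (abs_add_le _ _).trans (add_le_add hu hv)
  have hm : 0 ≤ m := (abs_nonneg _).trans h1
  have s1 := sq_le_sq' (abs_le.1 h1).1 (abs_le.1 h1).2
  have s2 := sq_le_sq' (abs_le.1 h2).1 (abs_le.1 h2).2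
  have s3 := sq_le_sq' (abs_le.1 h3).1 (abs_le.1 h3).2
  have s4 : ‖u‖ ^ 2 + ‖v‖ ^ 2 ≤ (2 * m) ^ 2 := by
    nlinarith [sq_nonneg (‖u‖ - ‖v‖), sq_nonneg m]
  exact ⟨abs_le_of_sq_le_sq' (by linarith [sq_nonneg ‖v‖]) (by positivity) |>.2,
    abs_le_of_sq_le_sq' (by linarith [sq_nonneg ‖u‖]) (by positivity) |>.2⟩

theorem alex_anti {w : P → E} {x : P} (h0 : nv w x ≠ 0) :
    ∃ c : ℝ, 0 < c ∧ ∀ u, c * ‖u‖ ≤ ‖fderiv ℝ w x u‖ := by
  have hk : LinearMap.ker (fderiv ℝ w x : P →ₗ[ℝ] E) = ⊥ := by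
    refine LinearMap.ker_eq_bot'.2 fun u hu => ?_
    have e : u.1 • pd 0 w x + u.2 • pd 1 w x = 0 := (fderiv_eq_pd w x u).symm.trans hu
    have e1 := congrArg (fun z => cr z (pd 1 w x)) e
    have e2 := congrArg (fun z => cr (pd 0 w x) z) e
    have z1 : cr 0 (pd 1 w x) = 0 := by simpa using cr_smul_left 0 0 (pd 1 w x)
    have z2 : cr (pd 0 w x) 0 = 0 := by simpa using cr_smul_right 0 (pd 0 w x) 0
    simp only [cr_add_left, cr_add_right, cr_smul_left, cr_smul_right, cr_self, smul_zero,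
      add_zero, zero_add, z1, z2, smul_eq_zero] at e1 e2
    exact Prod.ext (e1.resolve_right h0) (e2.resolve_right h0)
  obtain ⟨K, hK, h⟩ := LinearMap.exists_antilipschitzWith _ hk
  have hK' : (0 : ℝ) < K := hK
  refine ⟨(K : ℝ)⁻¹, by positivity, fun u => ?_⟩
  rw [inv_mul_le_iff₀ hK']
  simpa using h.le_mul_dist u 0

theorem alex_loc {w N : P → E} (hw : ContDiff ℝ 1 w) (hN : Continuous N)
    (h0 : ∀ x, nv w x ≠ 0) (h1 : ∀ x, ‖N x‖ = 1) (h2 : ∀ i x, ⟪N x, pd i w x⟫ = 0)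
    (h3 : ∀ x x', 0 ≤ ⟪N x - N x', w x - w x'⟫) (x₀ : P) :
    ∃ U, IsOpen U ∧ x₀ ∈ U ∧ ∀ᵐ x, x ∈ U → DifferentiableAt ℝ N x := by
  obtain ⟨a, b, ha, hb, hab, hc⟩ := exists_frame (h1 x₀)
  obtain ⟨c, c0, hL⟩ := alex_anti (h0 x₀)
  have hs := (hw.contDiffAt (x := x₀)).hasStrictFDerivAt one_ne_zero
  have e1 := hs.isLittleO.bound (c := c / 5) (by positivity)
  rw [nhds_prod_eq] at e1
  obtain ⟨t, ht, ht'⟩ := (eventually_prod_self_iff (r := fun x x' : P =>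
    ‖w x - w x' - fderiv ℝ w x₀ (x - x')‖ ≤ c / 5 * ‖x - x'‖)).1 e1
  have e2 : N ⁻¹' ball (N x₀) (1 / 4) ∈ 𝓝 x₀ :=
    hN.continuousAt.preimage_mem_nhds (ball_mem_nhds _ (by norm_num))
  obtain ⟨U, hU, Uo, hx⟩ := _root_.mem_nhds_iff.1 (inter_mem ht e2)
  have hwc := hw.continuous
  refine ⟨U, Uo, hx, ae_diff_of_lip Uo (y := fun x => (⟪w x + N x, a⟫, ⟪w x + N x, b⟫))
    (by fun_prop) (K := 2 + 5 / (2 * c)) fun x hx x' hx' => ?_⟩
  have a1 := ht' x (hU hx).1 x' (hU hx').1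
  have a2 : 4 * c / 5 * ‖x - x'‖ ≤ ‖w x - w x'‖ := by
    have := norm_sub_norm_le (fderiv ℝ w x₀ (x - x')) (w x - w x')
    rw [norm_sub_rev (fderiv ℝ w x₀ (x - x'))] at this
    linarith [hL (x - x')]
  have a3 : |⟪w x - w x', N x₀⟫| ≤ ‖w x - w x'‖ / 4 := by
    have z : ⟪fderiv ℝ w x₀ (x - x'), N x₀⟫ = 0 := by
      rw [real_inner_comm, fderiv_eq_pd, inner_add_right, inner_smul_right, inner_smul_right,
        h2, h2, mul_zero, mul_zero, add_zero]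
    have := abs_real_inner_le_norm (w x - w x' - fderiv ℝ w x₀ (x - x')) (N x₀)
    rw [inner_sub_left (w x - w x'), z, sub_zero, h1, mul_one] at this
    linarith
  have a4 : |⟪N x - N x', N x₀⟫| ≤ ‖N x - N x'‖ / 4 := by
    have z : ⟪N x - N x', (N x₀ - N x) + (N x₀ - N x')⟫ = 2 * ⟪N x - N x', N x₀⟫ := by
      simp only [inner_add_right, inner_sub_right, inner_sub_left, real_inner_self_eq_norm_sq, h1,
        real_inner_comm (N x) (N x')]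
      ring
    have b1 : ‖N x₀ - N x‖ < 1 / 4 := mem_ball_iff_norm'.1 (hU hx).2
    have b2 : ‖N x₀ - N x'‖ < 1 / 4 := mem_ball_iff_norm'.1 (hU hx').2
    have b3 := abs_real_inner_le_norm (N x - N x') ((N x₀ - N x) + (N x₀ - N x'))
    have b4 := mul_le_mul_of_nonneg_left ((norm_add_le (N x₀ - N x) (N x₀ - N x')).trans
      (add_le_add b1.le b2.le)) (norm_nonneg (N x - N x'))
    rw [z, abs_mul, abs_two] at b3
    linarith
  have e : w x - w x' + (N x - N x') = w x + N x - (w x' + N x') := by abel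
  set m := ‖((⟪w x + N x, a⟫, ⟪w x + N x, b⟫) : P) - (⟪w x' + N x', a⟫, ⟪w x' + N x', b⟫)‖ with hm
  have m0 : 0 ≤ m := norm_nonneg _
  obtain ⟨r1, r2⟩ := alex_alg ha hb hab (hc ▸ h1 x₀) (h3 x x') (hc ▸ a3) (hc ▸ a4) (m := m)
    (by rw [e, inner_sub_left]; exact le_max_left _ _)
    (by rw [e, inner_sub_left]; exact le_max_right _ _)
  have k0 : 0 ≤ 5 / (2 * c) * m := by positivity
  refine ⟨?_, by linarith⟩
  have : ‖x - x'‖ ≤ 5 / (2 * c) * m := by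
    rw [div_mul_eq_mul_div, le_div_iff₀ (by positivity)]; linarith
  linarith

/-- Alexandrov theorem for the Gauss map of a monotone pair -/
theorem ae_diff_of_mono {w N : P → E} (hw : ContDiff ℝ 1 w) (hN : Continuous N)
    (h0 : ∀ x, nv w x ≠ 0) (h1 : ∀ x, ‖N x‖ = 1) (h2 : ∀ i x, ⟪N x, pd i w x⟫ = 0)
    (h3 : ∀ x x', 0 ≤ ⟪N x - N x', w x - w x'⟫) : ∀ᵐ x, DifferentiableAt ℝ N x := by
  refine ae_iff.2 (measure_null_of_locally_null _ fun x₀ _ => ?_)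
  obtain ⟨U, hU, hx, h⟩ := alex_loc hw hN h0 h1 h2 h3 x₀
  refine ⟨_, inter_mem_nhdsWithin _ (hU.mem_nhds hx), measure_mono_null ?_ (ae_iff.1 h)⟩
  exact fun x hx h' => hx.1 (h' hx.2)

theorem Cvx.ae_diff {X : Surf} {I : Iso X} (hI : Cvx I) (R : Rot) :
    ∀ᵐ x, DifferentiableAt ℝ (I.n R) x := by
  refine ae_diff_of_mono (I.w_c1 R) (I.continuous_n R) (fun x => ?_) (I.norm_n R) (I.n_pd R)
    fun x x' => ?_
  · rw [I.nv_w]
    exact smul_ne_zero (norm_ne_zero_iff.2 ((X.imm_psi R).2 x))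
      (norm_ne_zero_iff.1 (by rw [I.norm_n]; exact one_ne_zero))
  · have a1 : ⟪I.n R x, I.w R x' - I.w R x⟫ ≤ 0 := hI.supp _ (X.psi_mem R x) _ (X.psi_mem R x')
    have a2 : ⟪I.n R x', I.w R x - I.w R x'⟫ ≤ 0 := hI.supp _ (X.psi_mem R x') _ (X.psi_mem R x)
    rw [← neg_sub, inner_neg_right] at a1
    rw [inner_sub_left]
    linarith

end Pool.Agent.Bor
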