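import Pool.Agent.P.MP_26ecb7_gt.IsoB

noncomputable section
open Set Filter Topology MeasureTheory Metric
open scoped RealInnerProductSpace ContDiff ENNReal

namespace Pool.Agent.Bor

theorem alex0_null {C : NNReal} {f : P → P} (hf : LipschitzWith C f) {Z : Set P}
    (hZ : volume Z = 0) : volume (f '' Z) = 0 := by
  have h1 := hf.hausdorffMeasure_image_le (d := 2) (by norm_num) Z
  rw [hausdorffMeasure_prod_real, hZ, mul_zero] at h1
  exact le_antisymm h1 zero_le

theorem ae_diff_of_lip {U : Set P} (hU : IsOpen U) {y : P → P} {M : P → E} (hy : Continuous y)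
    {K : ℝ} (h : ∀ x ∈ U, ∀ x' ∈ U, ‖x - x'‖ ≤ K * ‖y x - y x'‖ ∧ ‖M x - M x'‖ ≤ K * ‖y x - y x'‖) :
    ∀ᵐ x, x ∈ U → DifferentiableAt ℝ M x := by
  have hinj : InjOn y U := by
    intro x hx x' hx' hxx
    have h1 := (h x hx x' hx').1
    rw [hxx, sub_self, norm_zero, mul_zero] at h1
    exact sub_eq_zero.1 (norm_le_zero_iff.1 h1)
  set S : P → P := Function.invFunOn y U with hS
  have hSy : ∀ x ∈ U, S (y x) = x := fun x hx => hinj.leftInvOn_invFunOn hx
  have hK : ∀ a b : P, K * ‖a - b‖ ≤ (Real.toNNReal K : ℝ) * dist a b := by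
    intro a b
    rw [dist_eq_norm]
    exact mul_le_mul_of_nonneg_right (Real.le_coe_toNNReal K) (norm_nonneg _)
  have hL1 : LipschitzOnWith (Real.toNNReal K) S (y '' U) := by
    refine LipschitzOnWith.of_dist_le_mul ?_
    rintro _ ⟨x, hx, rfl⟩ _ ⟨x', hx', rfl⟩
    rw [hSy x hx, hSy x' hx', dist_eq_norm]
    exact (h x hx x' hx').1.trans (hK _ _)
  have hL2 : LipschitzOnWith (Real.toNNReal K) (fun z => M (S z)) (y '' U) := by
    refine LipschitzOnWith.of_dist_le_mul ?_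
    rintro _ ⟨x, hx, rfl⟩ _ ⟨x', hx', rfl⟩
    rw [hSy x hx, hSy x' hx', dist_eq_norm]
    exact (h x hx x' hx').2.trans (hK _ _)
  obtain ⟨S', hS', eS⟩ := hL1.extend_finite_dimension
  obtain ⟨M', hM', eM⟩ := hL2.extend_finite_dimension
  have hS'y : ∀ x ∈ U, S' (y x) = x := fun x hx => by
    rw [← eS (mem_image_of_mem y hx), hSy x hx]
  have hM'y : ∀ x ∈ U, M' (y x) = M x := fun x hx => by
    rw [← eM (mem_image_of_mem y hx)]
    show M (S (y x)) = M x
    rw [hSy x hx]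
  have a1 : ∀ᵐ z, DifferentiableAt ℝ S' z := hS'.ae_differentiableAt
  have a2 : ∀ᵐ z, DifferentiableAt ℝ M' z := hM'.ae_differentiableAt
  have a3 : volume {z | ¬ (DifferentiableAt ℝ S' z ∧ DifferentiableAt ℝ M' z)} = 0 :=
    ae_iff.1 (a1.and a2)
  have n1 := alex0_null hS' a3
  have n2 : volume (S' '' {z | DifferentiableAt ℝ S' z ∧ (fderiv ℝ S' z).det = 0}) = 0 :=
    addHaar_image_eq_zero_of_det_fderivWithin_eq_zero volume (f' := fderiv ℝ S')
      (fun z hz => hz.1.hasFDerivAt.hasFDerivWithinAt) (fun z hz => hz.2)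
  filter_upwards [measure_eq_zero_iff_ae_notMem.1 n1, measure_eq_zero_iff_ae_notMem.1 n2]
    with x h1 h2 hx
  have d1 : DifferentiableAt ℝ S' (y x) ∧ DifferentiableAt ℝ M' (y x) := by
    by_contra hc
    exact h1 ⟨y x, hc, hS'y x hx⟩
  have d2 : (fderiv ℝ S' (y x)).det ≠ 0 := fun hc => h2 ⟨y x, ⟨d1.1, hc⟩, hS'y x hx⟩
  have hev : ∀ᶠ x' in 𝓝 x, x' ∈ U := hU.mem_nhds hx
  have d3 : HasFDerivAt y
      (((fderiv ℝ S' (y x)).toContinuousLinearEquivOfDetNeZero d2).symm : P →L[ℝ] P) x := by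
    refine HasFDerivAt.of_local_left_inverse (f := S') hy.continuousAt ?_ ?_
    · rw [ContinuousLinearMap.coe_toContinuousLinearEquivOfDetNeZero]
      exact d1.1.hasFDerivAt
    · filter_upwards [hev] with x' hx' using hS'y x' hx'
  have d4 : DifferentiableAt ℝ (fun x' => M' (y x')) x := d1.2.comp x d3.differentiableAt
  refine d4.congr_of_eventuallyEq ?_
  filter_upwards [hev] with x' hx' using (hM'y x' hx').symm


end Pool.Agent.Bor
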