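import Pool.Agent.P.MP_26ecb7_gt.Alg0

noncomputable section
open Set Filter Topology MeasureTheory Metric
open scoped RealInnerProductSpace ContDiff ENNReal

namespace Pool.Agent.Bor

theorem alg_norm_nrm {y : E} (hy : y ≠ 0) : ‖nrm y‖ = 1 := by
  rw [nrm, norm_smul, norm_inv, norm_norm, inv_mul_cancel₀ (norm_ne_zero_iff.2 hy)]

theorem alg_frame {y : E} (hy : ‖y‖ = 1) :
    ∃ a b : E, ‖a‖ = 1 ∧ ‖b‖ = 1 ∧ ⟪a, b⟫ = 0 ∧ cr a b = y := by
  have h0 : ∃ u, cr y u ≠ 0 := by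
    by_contra h
    push Not at h
    have a1 := congrArg (fun v : E => v 1) (h (ee 0))
    have a2 := congrArg (fun v : E => v 2) (h (ee 0))
    have a3 := congrArg (fun v : E => v 2) (h (ee 1))
    simp [cr, ee] at a1 a2 a3
    have : y = 0 := by
      ext k
      fin_cases k <;> simp [a1, a2, a3]
    rw [this, norm_zero] at hy
    exact zero_ne_one hy
  obtain ⟨u, hu⟩ := h0
  have ha := alg_norm_nrm hu
  have hya : ⟪y, nrm (cr y u)⟫ = 0 := by rw [nrm, inner_smul_right, inner_cr_left, mul_zero]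
  generalize nrm (cr y u) = a at ha hya
  have haa : ⟪a, a⟫ = 1 := by rw [real_inner_self_eq_norm_sq, ha, one_pow]
  have hyy : ⟪y, y⟫ = 1 := by rw [real_inner_self_eq_norm_sq, hy, one_pow]
  refine ⟨a, cr y a, ha, ?_, inner_cr_right y a, ?_⟩
  · have h := norm_cr_sq y a
    rw [haa, hyy, hya] at h
    exact (sq_eq_sq₀ (norm_nonneg _) zero_le_one).1 (by rw [h]; norm_num)
  · rw [cr_cr, haa, real_inner_comm, hya, one_smul, zero_smul, sub_zero]

/-- the linear map with prescribed columns -/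
def alg_L (a b y : E) : E →ₗ[ℝ] E where
  toFun z := z 0 • a + z 1 • b + z 2 • y
  map_add' u v := by
    simp only [PiLp.add_apply, add_smul]
    abel
  map_smul' t u := by
    simp only [PiLp.smul_apply, smul_eq_mul, mul_smul, RingHom.id_apply, smul_add]

theorem alg_L_apply (a b y z : E) : alg_L a b y z = z 0 • a + z 1 • b + z 2 • y := rfl

theorem exists_rot {y : E} (hy : ‖y‖ = 1) : ∃ R : Rot, R.R (ee 2) = y := by
  obtain ⟨a, b, ha, hb, hab, hc⟩ := alg_frame hy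
  have haa : ⟪a, a⟫ = 1 := by rw [real_inner_self_eq_norm_sq, ha, one_pow]
  have hbb : ⟪b, b⟫ = 1 := by rw [real_inner_self_eq_norm_sq, hb, one_pow]
  have hyy : ⟪y, y⟫ = 1 := by rw [real_inner_self_eq_norm_sq, hy, one_pow]
  have hba : ⟪b, a⟫ = 0 := by rw [real_inner_comm, hab]
  have hay : ⟪a, y⟫ = 0 := by rw [← hc, inner_cr_left]
  have hby : ⟪b, y⟫ = 0 := by rw [← hc, inner_cr_right]
  have hya : ⟪y, a⟫ = 0 := by rw [real_inner_comm, hay]
  have hyb : ⟪y, b⟫ = 0 := by rw [real_inner_comm, hby]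
  have c1 : cr b y = a := by rw [← hc, cr_cr, hbb, hba, one_smul, zero_smul, sub_zero]
  have c2 : cr a y = -b := by rw [← hc, cr_cr, hab, haa, one_smul, zero_smul, zero_sub]
  have c3 : cr b a = -y := by rw [cr_swap, hc]
  have c4 : cr y b = -a := by rw [cr_swap, c1]
  have c5 : cr y a = b := by rw [cr_swap, c2, neg_neg]
  have hi : ∀ u v : E, ⟪alg_L a b y u, alg_L a b y v⟫ = ⟪u, v⟫ := fun u v => by
    simp only [alg_L_apply, inner_add_left, inner_add_right, real_inner_smul_left,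
      real_inner_smul_right, haa, hbb, hyy, hab, hba, hay, hby, hya, hyb]
    rw [inner_eq]
    ring
  refine ⟨⟨((alg_L a b y).isometryOfInner hi).toLinearIsometryEquiv rfl, fun u v => ?_⟩, ?_⟩
  · show cr (alg_L a b y u) (alg_L a b y v) = alg_L a b y (cr u v)
    have e0 : cr u v 0 = u 1 * v 2 - u 2 * v 1 := by simp [cr]
    have e1 : cr u v 1 = u 2 * v 0 - u 0 * v 2 := by simp [cr]
    have e2 : cr u v 2 = u 0 * v 1 - u 1 * v 0 := by simp [cr]
    simp only [alg_L_apply, cr_add_left, cr_add_right, cr_smul_left, cr_smul_right, cr_self, hc, c1,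
      c2, c3, c4, c5, e0, e1, e2]
    module
  · show alg_L a b y (ee 2) = y
    simp [alg_L_apply, ee]
/-- positively oriented orthonormal tangent frame -/
theorem exists_frame {y : E} (hy : ‖y‖ = 1) :
    ∃ a b : E, ‖a‖ = 1 ∧ ‖b‖ = 1 ∧ ⟪a, b⟫ = 0 ∧ cr a b = y :=
  alg_frame hy
theorem norm_nrm {y : E} (hy : y ≠ 0) : ‖nrm y‖ = 1 :=
  alg_norm_nrm hy
theorem nrm_smul {t : ℝ} (ht : 0 < t) (y : E) : nrm (t • y) = nrm y := by
  rw [nrm, nrm, norm_smul, Real.norm_of_nonneg ht.le, smul_smul, mul_inv, mul_right_comm,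
    inv_mul_cancel₀ ht.ne', one_mul]
theorem nrm_unit {y : E} (hy : ‖y‖ = 1) : nrm y = y := by rw [nrm, hy, inv_one, one_smul]
theorem contDiffAt_nrm {y : E} (hy : y ≠ 0) : ContDiffAt ℝ ∞ nrm y :=
  ((contDiffAt_norm ℝ hy).inv (norm_ne_zero_iff.2 hy)).smul contDiffAt_id
theorem norm_nrm_sub {y z : E} (hy : y ≠ 0) (hz : z ≠ 0) :
    ‖nrm y - nrm z‖ ≤ 2 * ‖y - z‖ / ‖y‖ := by
  have y0 : 0 < ‖y‖ := norm_pos_iff.2 hy
  have z0 : 0 < ‖z‖ := norm_pos_iff.2 hz
  have e : nrm y - nrm z = ‖y‖⁻¹ • (y - z) + (‖y‖⁻¹ * (‖z‖ - ‖y‖)) • nrm z := by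
    have h : ‖y‖⁻¹ * (‖z‖ - ‖y‖) * ‖z‖⁻¹ = ‖y‖⁻¹ - ‖z‖⁻¹ := by field_simp
    rw [nrm, nrm, smul_smul, h]
    module
  have h1 : |‖z‖ - ‖y‖| ≤ ‖y - z‖ := by
    rw [norm_sub_rev]
    exact abs_norm_sub_norm_le z y
  rw [e]
  refine (norm_add_le _ _).trans ?_
  rw [norm_smul, norm_smul, alg_norm_nrm hz, norm_mul, norm_inv, norm_norm, Real.norm_eq_abs,
    mul_one, ← mul_add, div_eq_inv_mul]
  exact mul_le_mul_of_nonneg_left (by linarith) (inv_pos.2 y0).le

/-- derivative rules -/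
theorem pd_cr {f g : P → E} {x : P} (hf : DifferentiableAt ℝ f x) (hg : DifferentiableAt ℝ g x)
    (i : Fin 2) : pd i (fun y => cr (f y) (g y)) x = cr (pd i f x) (g x) + cr (f x) (pd i g x) := by
  obtain ⟨B, hB⟩ := exists_crL
  simp only [← hB, pd]
  rw [(B.hasFDerivAt_of_bilinear hf.hasFDerivAt hg.hasFDerivAt).fderiv]
  simp [add_comm]
theorem pd_inner {f g : P → E} {x : P} (hf : DifferentiableAt ℝ f x) (hg : DifferentiableAt ℝ g x)
    (i : Fin 2) : pd i (fun y => ⟪f y, g y⟫) x = ⟪pd i f x, g x⟫ + ⟪f x, pd i g x⟫ := by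
  simp only [pd]
  rw [fderiv_inner_apply ℝ hf hg, add_comm]
theorem contDiff_pd {Y : Type} [NormedAddCommGroup Y] [NormedSpace ℝ Y] {f : P → Y}
    (hf : ContDiff ℝ ∞ f) (i : Fin 2) : ContDiff ℝ ∞ (pd i f) :=
  (hf.fderiv_right (m := ∞) (by simp)).clm_apply contDiff_const
theorem pd_comm {Y : Type} [NormedAddCommGroup Y] [NormedSpace ℝ Y] {f : P → Y}
    (hf : ContDiff ℝ ∞ f) (i j : Fin 2) (x : P) : pd i (pd j f) x = pd j (pd i f) x := by
  have h1 : Differentiable ℝ (fderiv ℝ f) :=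
    (hf.fderiv_right (m := ∞) (by simp)).differentiable (by simp)
  have h2 : ∀ u v : P, fderiv ℝ (fun y => fderiv ℝ f y u) x v = fderiv ℝ (fderiv ℝ f) x v u :=
    fun u v => by
      rw [fderiv_clm_apply (h1 x) (differentiableAt_const u)]
      simp
  show fderiv ℝ (fun y => fderiv ℝ f y (e2 j)) x (e2 i) =
    fderiv ℝ (fun y => fderiv ℝ f y (e2 i)) x (e2 j)
  rw [h2, h2]
  exact (hf.contDiffAt.isSymmSndFDerivAt (by
    rw [minSmoothness_of_isRCLikeNormedField]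
    exact WithTop.coe_le_coe.2 (le_top : (2 : ℕ∞) ≤ ⊤))).eq _ _
theorem contDiff_cr {Z : Type} [NormedAddCommGroup Z] [NormedSpace ℝ Z] {m : WithTop ℕ∞}
    {f g : Z → E} {x : Z} (hf : ContDiffAt ℝ m f x) (hg : ContDiffAt ℝ m g x) :
    ContDiffAt ℝ m (fun y => cr (f y) (g y)) x := by
  obtain ⟨B, hB⟩ := exists_crL
  simp only [← hB]
  exact (B.contDiff.contDiffAt.comp x hf).clm_apply hg
theorem fderiv_eq_pd {Y : Type} [NormedAddCommGroup Y] [NormedSpace ℝ Y] (f : P → Y) (x u : P) :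
    fderiv ℝ f x u = u.1 • pd 0 f x + u.2 • pd 1 f x := by
  have e : u = u.1 • e2 0 + u.2 • e2 1 := by simp [e2]
  rw [pd, pd, ← map_smul, ← map_smul, ← map_add, ← e]
theorem det_fderiv {p : P → P} {x : P} (hp : DifferentiableAt ℝ p x) :
    (fderiv ℝ p x).det = jp p x := by
  have h1 : ∀ v, fderiv ℝ (fun y => (p y).1) x v = (fderiv ℝ p x v).1 := fun v => by
    rw [hp.hasFDerivAt.fst.fderiv]; rfl
  have h2 : ∀ v, fderiv ℝ (fun y => (p y).2) x v = (fderiv ℝ p x v).2 := fun v => by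
    rw [hp.hasFDerivAt.snd.fderiv]; rfl
  rw [ContinuousLinearMap.det, ← LinearMap.det_toMatrix (Module.Basis.finTwoProd ℝ),
    Matrix.det_fin_two]
  simp [jp, jac, pd, h1, h2, e2, LinearMap.toMatrix_apply, Module.Basis.coe_finTwoProd_repr]

end Pool.Agent.Bor
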