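import Pool.Agent.P.MP_26ecb7_gt.Defs

noncomputable section
open Set Filter Topology MeasureTheory Metric
open scoped RealInnerProductSpace ContDiff ENNReal

namespace Pool.Agent.Bor

theorem inner_eq (a b : E) : ⟪a, b⟫ = a 0 * b 0 + a 1 * b 1 + a 2 * b 2 := by
  simp [PiLp.inner_apply, Fin.sum_univ_three]
  ring

theorem alg0_cr0 (a b : E) : cr a b 0 = a 1 * b 2 - a 2 * b 1 := rfl
theorem alg0_cr1 (a b : E) : cr a b 1 = a 2 * b 0 - a 0 * b 2 := rfl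
theorem alg0_cr2 (a b : E) : cr a b 2 = a 0 * b 1 - a 1 * b 0 := rfl

theorem alg0_ext {a b : E} (h0 : a 0 = b 0) (h1 : a 1 = b 1) (h2 : a 2 = b 2) : a = b := by
  ext k
  fin_cases k
  · exact h0
  · exact h1
  · exact h2

theorem alg0_normsq (a : E) : ‖a‖ ^ 2 = a 0 * a 0 + a 1 * a 1 + a 2 * a 2 := by
  rw [← real_inner_self_eq_norm_sq, inner_eq]

theorem cr_add_left (a b c : E) : cr (a + b) c = cr a c + cr b c := by
  apply alg0_ext <;> simp only [PiLp.add_apply, alg0_cr0, alg0_cr1, alg0_cr2] <;> ring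
theorem cr_add_right (a b c : E) : cr a (b + c) = cr a b + cr a c := by
  apply alg0_ext <;> simp only [PiLp.add_apply, alg0_cr0, alg0_cr1, alg0_cr2] <;> ring
theorem cr_smul_left (t : ℝ) (a b : E) : cr (t • a) b = t • cr a b := by
  apply alg0_ext <;> simp only [PiLp.smul_apply, smul_eq_mul, alg0_cr0, alg0_cr1, alg0_cr2] <;> ring
theorem cr_smul_right (t : ℝ) (a b : E) : cr a (t • b) = t • cr a b := by
  apply alg0_ext <;> simp only [PiLp.smul_apply, smul_eq_mul, alg0_cr0, alg0_cr1, alg0_cr2] <;> ring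

/-- the cross product as a continuous bilinear map -/
theorem exists_crL : ∃ B : E →L[ℝ] E →L[ℝ] E, ∀ a b, B a b = cr a b := by
  let B0 : E →ₗ[ℝ] E →ₗ[ℝ] E :=
    LinearMap.mk₂ ℝ cr cr_add_left cr_smul_left cr_add_right cr_smul_right
  let B1 : E →ₗ[ℝ] (E →L[ℝ] E) :=
    (LinearMap.toContinuousLinearMap : (E →ₗ[ℝ] E) ≃ₗ[ℝ] (E →L[ℝ] E)).toLinearMap.comp B0
  exact ⟨LinearMap.toContinuousLinearMap B1, fun a b => rfl⟩

theorem cr_swap (a b : E) : cr a b = - cr b a := by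
  apply alg0_ext <;> simp only [PiLp.neg_apply, alg0_cr0, alg0_cr1, alg0_cr2] <;> ring
theorem cr_self (a : E) : cr a a = 0 := by
  apply alg0_ext <;> simp only [PiLp.zero_apply, alg0_cr0, alg0_cr1, alg0_cr2] <;> ring
theorem inner_cr_left (a b : E) : ⟪a, cr a b⟫ = 0 := by
  simp only [inner_eq, alg0_cr0, alg0_cr1, alg0_cr2]; ring
theorem inner_cr_right (a b : E) : ⟪b, cr a b⟫ = 0 := by
  simp only [inner_eq, alg0_cr0, alg0_cr1, alg0_cr2]; ring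
theorem inner_cr_cyc (a b c : E) : ⟪a, cr b c⟫ = ⟪cr a b, c⟫ := by
  simp only [inner_eq, alg0_cr0, alg0_cr1, alg0_cr2]; ring
theorem binet (a b c d : E) : ⟪cr a b, cr c d⟫ = ⟪a, c⟫ * ⟪b, d⟫ - ⟪a, d⟫ * ⟪b, c⟫ := by
  simp only [inner_eq, alg0_cr0, alg0_cr1, alg0_cr2]; ring
theorem cr_cr (a b c : E) : cr a (cr b c) = ⟪a, c⟫ • b - ⟪a, b⟫ • c := by
  apply alg0_ext <;>
    simp only [PiLp.sub_apply, PiLp.smul_apply, smul_eq_mul, inner_eq, alg0_cr0, alg0_cr1,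
      alg0_cr2] <;> ring
theorem norm_cr_sq (a b : E) : ‖cr a b‖ ^ 2 = ⟪a, a⟫ * ⟪b, b⟫ - ⟪a, b⟫ ^ 2 := by
  rw [alg0_normsq]
  simp only [inner_eq, alg0_cr0, alg0_cr1, alg0_cr2]; ring
theorem norm_cr_le (a b : E) : ‖cr a b‖ ≤ ‖a‖ * ‖b‖ := by
  refine le_of_sq_le_sq ?_ (by positivity)
  rw [norm_cr_sq, real_inner_self_eq_norm_sq, real_inner_self_eq_norm_sq, mul_pow]
  nlinarith [sq_nonneg ⟪a, b⟫]

theorem alg0_cr_sub (a b c d : E) : cr a b - cr c d = cr (a - c) b + cr c (b - d) := by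
  apply alg0_ext <;>
    simp only [PiLp.add_apply, PiLp.sub_apply, alg0_cr0, alg0_cr1, alg0_cr2] <;> ring

theorem norm_cr_sub (a b c d : E) : ‖cr a b - cr c d‖ ≤ ‖a - c‖ * ‖b‖ + ‖c‖ * ‖b - d‖ := by
  rw [alg0_cr_sub]
  exact (norm_add_le _ _).trans (add_le_add (norm_cr_le _ _) (norm_cr_le _ _))

theorem alg0_dec (a : E) : a = a 0 • ee 0 + a 1 • ee 1 + a 2 • ee 2 := by
  apply alg0_ext <;> simp [ee]

theorem alg0_map (L : E →L[ℝ] E) (a : E) :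
    L a = a 0 • L (ee 0) + a 1 • L (ee 1) + a 2 • L (ee 2) := by
  conv_lhs => rw [alg0_dec a]
  simp only [map_add, map_smul]

theorem cof_cr (L : E →L[ℝ] E) (a b : E) : cof L (cr a b) = cr (L a) (L b) := by
  rw [alg0_map L a, alg0_map L b]
  apply alg0_ext <;>
    simp only [cof, PiLp.add_apply, PiLp.smul_apply, smul_eq_mul, alg0_cr0, alg0_cr1,
      alg0_cr2] <;> ring
theorem cof_smul (L : E →L[ℝ] E) (t : ℝ) (c : E) : cof L (t • c) = t • cof L c := by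
  simp only [cof, PiLp.smul_apply, smul_eq_mul, smul_add, mul_smul]
theorem cof_smul_left (L : E →L[ℝ] E) (t : ℝ) (c : E) : cof (t • L) c = t ^ 2 • cof L c := by
  apply alg0_ext <;>
    simp only [cof, _root_.smul_apply, PiLp.add_apply, PiLp.smul_apply, smul_eq_mul,
      alg0_cr0, alg0_cr1, alg0_cr2] <;> ring
theorem cof_sub (L : E →L[ℝ] E) (c d : E) : cof L (c - d) = cof L c - cof L d := by
  simp only [cof, PiLp.sub_apply, sub_smul]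
  abel

theorem alg0_norm_ee (k : Fin 3) : ‖ee k‖ = 1 := by simp [ee]

theorem alg0_le (L : E →L[ℝ] E) (k : Fin 3) : ‖L (ee k)‖ ≤ ‖L‖ := by
  have := L.le_opNorm (ee k)
  rwa [alg0_norm_ee, mul_one] at this

theorem alg0_three (c u v w : E) {M : ℝ} (hu : ‖u‖ ≤ M) (hv : ‖v‖ ≤ M) (hw : ‖w‖ ≤ M) :
    ‖c 0 • u + c 1 • v + c 2 • w‖ ≤ 3 * M * ‖c‖ := by
  have h : ∀ (k : Fin 3) (x : E), ‖x‖ ≤ M → ‖c k • x‖ ≤ M * ‖c‖ := fun k x hx => by
    rw [norm_smul, mul_comm]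
    exact mul_le_mul hx (PiLp.norm_apply_le c k) (norm_nonneg _) ((norm_nonneg _).trans hx)
  have := norm_add₃_le (a := c 0 • u) (b := c 1 • v) (c := c 2 • w)
  linarith [h 0 u hu, h 1 v hv, h 2 w hw]

theorem norm_cof_le (L : E →L[ℝ] E) (c : E) : ‖cof L c‖ ≤ 3 * ‖L‖ ^ 2 * ‖c‖ := by
  have h : ∀ i j : Fin 3, ‖cr (L (ee i)) (L (ee j))‖ ≤ ‖L‖ ^ 2 := fun i j => by
    rw [pow_two]
    exact (norm_cr_le _ _).trans
      (mul_le_mul (alg0_le L i) (alg0_le L j) (norm_nonneg _) (norm_nonneg _))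
  exact alg0_three c _ _ _ (h 1 2) (h 2 0) (h 0 1)

theorem contDiff_cof : ContDiff ℝ ∞ (fun x : (E →L[ℝ] E) × E => cof x.1 x.2) := by
  obtain ⟨B, hB⟩ := exists_crL
  have h1 : ∀ i : Fin 3, ContDiff ℝ ∞ (fun x : (E →L[ℝ] E) × E => x.1 (ee i)) := fun i =>
    contDiff_fst.clm_apply contDiff_const
  have h2 : ∀ i j : Fin 3,
      ContDiff ℝ ∞ (fun x : (E →L[ℝ] E) × E => cr (x.1 (ee i)) (x.1 (ee j))) := fun i j => by
    simp only [← hB]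
    exact (contDiff_const.clm_apply (h1 i)).clm_apply (h1 j)
  have h3 : ∀ k : Fin 3, ContDiff ℝ ∞ (fun x : (E →L[ℝ] E) × E => x.2 k) := fun k =>
    (EuclideanSpace.proj k : E →L[ℝ] ℝ).contDiff.comp contDiff_snd
  exact (((h3 0).smul (h2 1 2)).add ((h3 1).smul (h2 2 0))).add ((h3 2).smul (h2 0 1))

theorem norm_cof_sub (L L' : E →L[ℝ] E) (c : E) :
    ‖cof L c - cof L' c‖ ≤ 3 * (‖L‖ + ‖L'‖) * ‖L - L'‖ * ‖c‖ := by
  have h : ∀ i j : Fin 3, ‖cr (L (ee i)) (L (ee j)) - cr (L' (ee i)) (L' (ee j))‖ ≤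
      (‖L‖ + ‖L'‖) * ‖L - L'‖ := fun i j => by
    refine (norm_cr_sub _ _ _ _).trans ?_
    have a1 : ‖L (ee i) - L' (ee i)‖ ≤ ‖L - L'‖ := alg0_le (L - L') i
    have a2 : ‖L (ee j) - L' (ee j)‖ ≤ ‖L - L'‖ := alg0_le (L - L') j
    have b1 := mul_le_mul a1 (alg0_le L j) (norm_nonneg _) (norm_nonneg _)
    have b2 := mul_le_mul (alg0_le L' i) a2 (norm_nonneg _) (norm_nonneg _)
    linarith
  have e : cof L c - cof L' c =
      c 0 • (cr (L (ee 1)) (L (ee 2)) - cr (L' (ee 1)) (L' (ee 2))) +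
      c 1 • (cr (L (ee 2)) (L (ee 0)) - cr (L' (ee 2)) (L' (ee 0))) +
      c 2 • (cr (L (ee 0)) (L (ee 1)) - cr (L' (ee 0)) (L' (ee 1))) := by
    simp only [cof, smul_sub]
    abel
  rw [e, mul_assoc 3]
  exact alg0_three c _ _ _ (h 1 2) (h 2 0) (h 0 1)

/-- expansion in the frame `a, b, cr a b` -/
theorem parseval (a b x y : E) :
    ‖cr a b‖ ^ 2 * ⟪x, y⟫ = ⟪x, cr a b⟫ * ⟪y, cr a b⟫ + ⟪b, b⟫ * ⟪x, a⟫ * ⟪y, a⟫
      - ⟪a, b⟫ * (⟪x, a⟫ * ⟪y, b⟫ + ⟪x, b⟫ * ⟪y, a⟫) + ⟪a, a⟫ * ⟪x, b⟫ * ⟪y, b⟫ := by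
  rw [alg0_normsq]
  simp only [inner_eq, alg0_cr0, alg0_cr1, alg0_cr2]; ring
theorem expand (a b x : E) :
    ‖cr a b‖ ^ 2 • x = ⟪x, cr a b⟫ • cr a b + (⟪b, b⟫ * ⟪x, a⟫ - ⟪a, b⟫ * ⟪x, b⟫) • a
      + (⟪a, a⟫ * ⟪x, b⟫ - ⟪a, b⟫ * ⟪x, a⟫) • b := by
  rw [alg0_normsq]
  apply alg0_ext <;>
    simp only [PiLp.add_apply, PiLp.smul_apply, smul_eq_mul, inner_eq, alg0_cr0, alg0_cr1,
      alg0_cr2] <;> ring
theorem par_of_orth {a b y : E} (h : cr a b ≠ 0) (ha : ⟪y, a⟫ = 0) (hb : ⟪y, b⟫ = 0) :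
    y = (⟪y, cr a b⟫ / ‖cr a b‖ ^ 2) • cr a b := by
  have hn : ‖cr a b‖ ^ 2 ≠ 0 := pow_ne_zero _ (norm_ne_zero_iff.2 h)
  have e := expand a b y
  simp only [ha, hb, mul_zero, sub_zero, zero_smul, add_zero] at e
  rw [div_eq_inv_mul, mul_smul, ← e, smul_smul, inv_mul_cancel₀ hn, one_smul]


end Pool.Agent.Bor
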