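import Pool.Agent.P.MP_26ecb7_gt.Green

noncomputable section
open Set Filter Topology MeasureTheory Metric
open scoped RealInnerProductSpace ContDiff ENNReal

namespace Pool.Agent.Bor

theorem cousin_mem {c x : P} {r : ℝ} :
    x ∈ sqr c r ↔ (c.1 ≤ x.1 ∧ c.2 ≤ x.2) ∧ x.1 ≤ c.1 + r ∧ x.2 ≤ c.2 + r := by
  simp only [sqr, mem_Icc, Prod.le_def]

theorem cousin_sub {c c' : P} {r r' : ℝ} (h1 : c.1 ≤ c'.1) (h2 : c.2 ≤ c'.2)
    (h3 : c'.1 + r' ≤ c.1 + r) (h4 : c'.2 + r' ≤ c.2 + r) : sqr c' r' ⊆ sqr c r := by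
  intro x hx
  rw [cousin_mem] at hx ⊢
  exact ⟨⟨h1.trans hx.1.1, h2.trans hx.1.2⟩, hx.2.1.trans h3, hx.2.2.trans h4⟩

/-- dyadic induction on squares -/
theorem cousin_ind {Pr : P → ℝ → Prop} {c0 : P} {r0 : ℝ} (hr0 : 0 < r0)
    (hstep : ∀ c r, 0 < r → sqr c r ⊆ sqr c0 r0 → Pr c (r / 2) → Pr (c.1 + r / 2, c.2) (r / 2) →
      Pr (c.1, c.2 + r / 2) (r / 2) → Pr (c.1 + r / 2, c.2 + r / 2) (r / 2) → Pr c r)
    (hpt : ∀ x ∈ sqr c0 r0, ∃ k : ℕ, ∀ c, x ∈ sqr c (r0 * (1 / 2) ^ k) →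
      sqr c (r0 * (1 / 2) ^ k) ⊆ sqr c0 r0 → Pr c (r0 * (1 / 2) ^ k)) : Pr c0 r0 := by
  by_contra hno
  have hpos : ∀ k : ℕ, 0 < r0 * (1 / 2 : ℝ) ^ k := fun k => by positivity
  have hsucc : ∀ k : ℕ, r0 * (1 / 2 : ℝ) ^ (k + 1) = r0 * (1 / 2) ^ k / 2 := fun k => by
    rw [pow_succ]; ring
  have step : ∀ (k : ℕ) (c : P), ∃ c' : P,
      (sqr c (r0 * (1 / 2) ^ k) ⊆ sqr c0 r0 ∧ ¬ Pr c (r0 * (1 / 2) ^ k)) →
      (¬ Pr c' (r0 * (1 / 2) ^ (k + 1)) ∧
        sqr c' (r0 * (1 / 2) ^ (k + 1)) ⊆ sqr c (r0 * (1 / 2) ^ k)) := by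
    intro k c
    rw [hsucc]
    have hp := hpos k
    generalize r0 * (1 / 2 : ℝ) ^ k = r at hp ⊢
    by_cases h1 : Pr c (r / 2)
    · by_cases h2 : Pr (c.1 + r / 2, c.2) (r / 2)
      · by_cases h3 : Pr (c.1, c.2 + r / 2) (r / 2)
        · refine ⟨(c.1 + r / 2, c.2 + r / 2), fun h => ⟨fun h4 => h.2 (hstep c r hp h.1 h1 h2 h3 h4), ?_⟩⟩
          apply cousin_sub <;> simp only <;> linarith
        · refine ⟨(c.1, c.2 + r / 2), fun _ => ⟨h3, ?_⟩⟩
          apply cousin_sub <;> simp only <;> linarith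
      · refine ⟨(c.1 + r / 2, c.2), fun _ => ⟨h2, ?_⟩⟩
        apply cousin_sub <;> simp only <;> linarith
    · refine ⟨c, fun _ => ⟨h1, ?_⟩⟩
      apply cousin_sub <;> linarith
  choose f hf using step
  let cs : ℕ → P := fun k => Nat.rec c0 f k
  have cs_succ : ∀ k, cs (k + 1) = f k (cs k) := fun k => rfl
  have hQ : ∀ k : ℕ, sqr (cs k) (r0 * (1 / 2) ^ k) ⊆ sqr c0 r0 ∧ ¬ Pr (cs k) (r0 * (1 / 2) ^ k) := by
    intro k
    induction k with
    | zero =>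
      have : cs 0 = c0 := rfl
      rw [this, pow_zero, mul_one]
      exact ⟨Subset.rfl, hno⟩
    | succ k ih =>
      rw [cs_succ]
      exact ⟨(hf k _ ih).2.trans ih.1, (hf k _ ih).1⟩
  obtain ⟨x, hx⟩ := IsCompact.nonempty_iInter_of_sequence_nonempty_isCompact_isClosed
    (fun k : ℕ => sqr (cs k) (r0 * (1 / 2) ^ k))
    (fun k => by rw [cs_succ]; exact (hf k _ (hQ k)).2)
    (fun k => ⟨cs k, cousin_mem.2 ⟨⟨le_rfl, le_rfl⟩, by linarith [hpos k], by linarith [hpos k]⟩⟩)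
    isCompact_Icc (fun _ => isClosed_Icc)
  rw [mem_iInter] at hx
  obtain ⟨k, hk⟩ := hpt x ((hQ 0).1 (hx 0))
  exact (hQ k).2 (hk _ (hx k) (hQ k).1)

/-- half open square -/
def cousinH (c : P) (r : ℝ) : Set P := Ico c.1 (c.1 + r) ×ˢ Ico c.2 (c.2 + r)

theorem cousin_split (ν : Measure P) [IsFiniteMeasure ν] (c : P) {r : ℝ} (hr : 0 < r) :
    ν.real (cousinH c r) = ν.real (cousinH c (r / 2)) + ν.real (cousinH (c.1 + r / 2, c.2) (r / 2))
      + ν.real (cousinH (c.1, c.2 + r / 2) (r / 2))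
      + ν.real (cousinH (c.1 + r / 2, c.2 + r / 2) (r / 2)) := by
  have hI : ∀ a : ℝ, Ico a (a + r) = Ico a (a + r / 2) ∪ Ico (a + r / 2) (a + r / 2 + r / 2) := by
    intro a
    rw [Ico_union_Ico_eq_Ico (by linarith) (by linarith)]
    congr 1; ring
  have hD : ∀ a : ℝ, Disjoint (Ico a (a + r / 2)) (Ico (a + r / 2) (a + r / 2 + r / 2)) :=
    fun a => Ico_disjoint_Ico_same
  have h1 : ∀ (a : ℝ) (B : Set ℝ), MeasurableSet B → ν.real (Ico a (a + r) ×ˢ B)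
      = ν.real (Ico a (a + r / 2) ×ˢ B) + ν.real (Ico (a + r / 2) (a + r / 2 + r / 2) ×ˢ B) := by
    intro a B hB
    rw [hI, union_prod, measureReal_union ((hD a).set_prod_left _ _) (measurableSet_Ico.prod hB)]
  have h2 : ∀ (a : ℝ) (B : Set ℝ), MeasurableSet B → ν.real (B ×ˢ Ico a (a + r))
      = ν.real (B ×ˢ Ico a (a + r / 2)) + ν.real (B ×ˢ Ico (a + r / 2) (a + r / 2 + r / 2)) := by
    intro a B hB
    rw [hI, prod_union, measureReal_union ((hD a).set_prod_right _ _) (hB.prod measurableSet_Ico)]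
  simp only [cousinH]
  rw [h1 _ _ measurableSet_Ico, h2 _ _ measurableSet_Ico, h2 _ _ measurableSet_Ico]
  ring

theorem cousin_cover {d : ℝ} (hd : 0 < d) {S : Set P} (hS : μH[d] S = 0) {r0 η : ℝ} (hr0 : 0 < r0)
    (hη : 0 < η) : ∃ (x : ℕ → P) (ρ : ℕ → ℝ), (∀ i, 0 < ρ i) ∧ (∀ i, ρ i ≤ r0) ∧
      (∀ y ∈ S, ∃ i, dist y (x i) ≤ ρ i) ∧
      ∑' i, ENNReal.ofReal (ρ i ^ d) ≤ ENNReal.ofReal η + ENNReal.ofReal η := by
  rw [Measure.hausdorffMeasure_apply] at hS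
  have hη' : (0 : ℝ≥0∞) < ENNReal.ofReal η := ENNReal.ofReal_pos.2 hη
  have h0 := (ENNReal.iSup_eq_zero.1 ((ENNReal.iSup_eq_zero.1 hS) (ENNReal.ofReal r0)))
    (ENNReal.ofReal_pos.2 hr0)
  have h1 := h0.trans_lt hη'
  simp only [iInf_lt_iff] at h1
  obtain ⟨t, hcov, hdiam, hsum⟩ := h1
  obtain ⟨ε, hε, hεs⟩ := ENNReal.exists_pos_sum_of_countable hη'.ne' ℕ
  have hfin : ∀ i, ediam (t i) ≠ ⊤ := fun i => ((hdiam i).trans_lt ENNReal.ofReal_lt_top).ne
  have hx : ∀ i, ∃ x : P, ∀ y ∈ t i, dist y x ≤ diam (t i) := by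
    intro i
    rcases (t i).eq_empty_or_nonempty with h | ⟨x, hx⟩
    · exact ⟨0, by simp [h]⟩
    · exact ⟨x, fun y hy => dist_le_diam_of_mem' (hfin i) hy hx⟩
  choose x hx using hx
  refine ⟨x, fun i => max (diam (t i)) (min r0 ((ε i : ℝ) ^ d⁻¹)), fun i => ?_, fun i => ?_,
    fun y hy => ?_, ?_⟩
  · have : (0 : ℝ) < ε i := hε i
    exact lt_max_of_lt_right (lt_min hr0 (Real.rpow_pos_of_pos this _))
  · refine max_le ?_ (min_le_left _ _)
    exact ENNReal.toReal_le_of_le_ofReal hr0.le (hdiam i)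
  · obtain ⟨i, hi⟩ := mem_iUnion.1 (hcov hy)
    exact ⟨i, (hx i y hi).trans (le_max_left _ _)⟩
  · refine le_trans ?_ (add_le_add hsum.le hεs.le)
    rw [← ENNReal.tsum_add]
    refine ENNReal.tsum_le_tsum fun i => ?_
    have he : (0 : ℝ) < ε i := hε i
    beta_reduce
    rcases le_total (diam (t i)) (min r0 ((ε i : ℝ) ^ d⁻¹)) with h | h
    · rw [max_eq_right h]
      refine le_trans ?_ le_add_self
      have : (min r0 ((ε i : ℝ) ^ d⁻¹)) ^ d ≤ ε i := by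
        calc (min r0 ((ε i : ℝ) ^ d⁻¹)) ^ d ≤ ((ε i : ℝ) ^ d⁻¹) ^ d :=
              Real.rpow_le_rpow (le_min hr0.le (Real.rpow_nonneg he.le _)) (min_le_right _ _) hd.le
          _ = ε i := Real.rpow_inv_rpow he.le hd.ne'
      calc ENNReal.ofReal _ ≤ ENNReal.ofReal (ε i) := ENNReal.ofReal_le_ofReal this
        _ = ε i := ENNReal.ofReal_coe_nnreal
    · rw [max_eq_left h]
      refine le_trans ?_ le_self_add
      rcases (t i).eq_empty_or_nonempty with h' | h'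
      · simp [h', Real.zero_rpow hd.ne']
      · rw [iSup_pos h', ← ENNReal.ofReal_rpow_of_nonneg diam_nonneg hd.le, diam,
          ENNReal.ofReal_toReal (hfin i)]

theorem cousin_vol (c : P) {r : ℝ} (hr : 0 ≤ r) :
    volume (cousinH c r) = ENNReal.ofReal (r ^ 2) := by
  rw [cousinH, Measure.volume_eq_prod, Measure.prod_prod, Real.volume_Ico, Real.volume_Ico,
    add_sub_cancel_left, add_sub_cancel_left, ← ENNReal.ofReal_mul hr, pow_two]

theorem cousin_ball (x : P) {r : ℝ} (hr : 0 ≤ r) :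
    volume (closedBall x r) = ENNReal.ofReal (4 * r ^ 2) := by
  rw [← closedBall_prod_same, Measure.volume_eq_prod, Measure.prod_prod, Real.volume_closedBall,
    Real.volume_closedBall, ← ENNReal.ofReal_mul (by linarith)]
  congr 1; ring

/-- a finite measure of small mass that dominates `C r ^ d` at a good scale around each point -/
theorem cousin_meas {d C : ℝ} (hd : 0 < d) (hC : 0 ≤ C) {S : Set P} (hS : μH[d] S = 0) {r0 η : ℝ}
    (hr0 : 0 < r0) (hη : 0 < η) : ∃ ν : Measure P, ν univ ≤ ENNReal.ofReal (128 * C * η) ∧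
      ∀ y ∈ S, ∃ k : ℕ, ∀ c, y ∈ sqr c (r0 * (1 / 2) ^ k) →
        ENNReal.ofReal (C * (r0 * (1 / 2) ^ k) ^ d) ≤ ν (cousinH c (r0 * (1 / 2) ^ k)) := by
  obtain ⟨x, ρ, hρ, hρ0, hcov, hsum⟩ := cousin_cover hd hS hr0 hη
  refine ⟨Measure.sum fun i => ENNReal.ofReal (4 * C * ρ i ^ d / ρ i ^ 2) •
    volume.restrict (closedBall (x i) (2 * ρ i)), ?_, fun y hy => ?_⟩
  · rw [Measure.sum_apply _ MeasurableSet.univ]
    have : ∀ i, (ENNReal.ofReal (4 * C * ρ i ^ d / ρ i ^ 2) •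
        volume.restrict (closedBall (x i) (2 * ρ i))) univ
        = ENNReal.ofReal (64 * C) * ENNReal.ofReal (ρ i ^ d) := by
      intro i
      have h := hρ i
      have h' : 0 < ρ i ^ d := Real.rpow_pos_of_pos h _
      rw [Measure.smul_apply, Measure.restrict_apply_univ, cousin_ball _ (by linarith), smul_eq_mul,
        ← ENNReal.ofReal_mul (by positivity), ← ENNReal.ofReal_mul (by positivity)]
      congr 1
      field_simp
      ring
    simp only [this]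
    rw [ENNReal.tsum_mul_left]
    refine (mul_le_mul_right hsum _).trans (le_of_eq ?_)
    rw [← ENNReal.ofReal_add hη.le hη.le, ← ENNReal.ofReal_mul (by positivity)]
    congr 1; ring
  · obtain ⟨i, hi⟩ := hcov y hy
    have h := hρ i
    obtain ⟨n, hn1, hn2⟩ := exists_nat_pow_near_of_lt_one (x := ρ i / r0) (y := 1 / 2)
      (div_pos h hr0) ((div_le_one hr0).2 (hρ0 i)) (by norm_num) (by norm_num)
    refine ⟨n + 1, fun c hc => ?_⟩
    have hr : 0 < r0 * (1 / 2 : ℝ) ^ (n + 1) := by positivity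
    have hlt : r0 * (1 / 2 : ℝ) ^ (n + 1) < ρ i := by
      rw [lt_div_iff₀ hr0] at hn1; linarith
    have hle : ρ i ≤ 2 * (r0 * (1 / 2 : ℝ) ^ (n + 1)) := by
      rw [div_le_iff₀ hr0] at hn2
      rw [pow_succ]; linarith
    generalize r0 * (1 / 2 : ℝ) ^ (n + 1) = r at hc hr hlt hle
    refine le_trans ?_ (Measure.le_sum _ i _)
    have hm : MeasurableSet (cousinH c r) := measurableSet_Ico.prod measurableSet_Ico
    have hsub : cousinH c r ⊆ closedBall (x i) (2 * ρ i) := by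
      intro z hz
      obtain ⟨⟨a1, a2⟩, b1, b2⟩ := hz
      rw [cousin_mem] at hc
      have : dist z y ≤ r := by
        rw [Prod.dist_eq, Real.dist_eq, Real.dist_eq]
        refine max_le (abs_le.2 ⟨?_, ?_⟩) (abs_le.2 ⟨?_, ?_⟩) <;> linarith [hc.1.1, hc.1.2, hc.2.1, hc.2.2]
      rw [mem_closedBall]
      linarith [dist_triangle z y (x i)]
    have h' : 0 < ρ i ^ d := Real.rpow_pos_of_pos h _
    rw [Measure.smul_apply, Measure.restrict_apply hm, inter_eq_left.2 hsub, cousin_vol _ hr.le,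
      smul_eq_mul, ← ENNReal.ofReal_mul (by positivity)]
    refine ENNReal.ofReal_le_ofReal ?_
    have h1 : r ^ d ≤ ρ i ^ d := Real.rpow_le_rpow hr.le hlt.le hd.le
    have h2 : ρ i ^ 2 ≤ 4 * r ^ 2 := by nlinarith
    rw [div_mul_eq_mul_div, le_div_iff₀ (by positivity)]
    calc C * r ^ d * ρ i ^ 2 ≤ C * ρ i ^ d * (4 * r ^ 2) := by gcongr
      _ = _ := by ring

/-- An additive function of squares that is `O(r^d)` and `o(r^2)` off an `H^d`-null set vanishes. -/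
theorem cousin {d C : ℝ} (hd : 0 < d) (hC : 0 ≤ C) (Ev : ℕ → P → ℝ → ℝ) {c0 : P} {r0 : ℝ}
    (hr0 : 0 < r0)
    (add : ∀ n c r, 0 < r → sqr c r ⊆ sqr c0 r0 → Ev n c r = Ev n c (r / 2)
      + Ev n (c.1 + r / 2, c.2) (r / 2) + Ev n (c.1, c.2 + r / 2) (r / 2)
      + Ev n (c.1 + r / 2, c.2 + r / 2) (r / 2))
    {S : Set P} (hS : μH[d] S = 0)
    (bad : ∀ c r, 0 < r → sqr c r ⊆ sqr c0 r0 → ∀ θ > 0, ∀ᶠ n in atTop, |Ev n c r| ≤ C * r ^ d + θ)
    (good : ∀ x ∈ sqr c0 r0, x ∉ S → ∀ η > 0, ∃ ρ > 0, ∀ c r, 0 < r → r < ρ → x ∈ sqr c r →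
      sqr c r ⊆ sqr c0 r0 → ∀ θ > 0, ∀ᶠ n in atTop, |Ev n c r| ≤ η * r ^ 2 + θ) :
    Tendsto (fun n => Ev n c0 r0) atTop (𝓝 0) := by
  have key : ∀ η > 0, ∀ θ > 0, ∀ᶠ n in atTop, |Ev n c0 r0| ≤ η * (r0 ^ 2 + 128 * C) + θ := by
    intro η hη
    obtain ⟨ν, hν, hν'⟩ := cousin_meas hd hC hS hr0 hη
    have : IsFiniteMeasure ν := ⟨hν.trans_lt ENNReal.ofReal_lt_top⟩
    have main : ∀ θ > 0, ∀ᶠ n in atTop,
        |Ev n c0 r0| ≤ η * r0 ^ 2 + ν.real (cousinH c0 r0) + θ := by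
      refine cousin_ind (Pr := fun c r => ∀ θ > 0, ∀ᶠ n in atTop,
        |Ev n c r| ≤ η * r ^ 2 + ν.real (cousinH c r) + θ) hr0 ?_ ?_
      · intro c r hr hsub h1 h2 h3 h4 θ hθ
        have hθ' : θ / 4 > 0 := by positivity
        filter_upwards [h1 _ hθ', h2 _ hθ', h3 _ hθ', h4 _ hθ'] with n a1 a2 a3 a4
        rw [add n c r hr hsub, cousin_split ν c hr]
        have e : η * r ^ 2 = 4 * (η * (r / 2) ^ 2) := by ring
        rw [abs_le] at a1 a2 a3 a4 ⊢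
        constructor <;> linarith [a1.1, a1.2, a2.1, a2.2, a3.1, a3.2, a4.1, a4.2]
      · intro x hx
        by_cases hxS : x ∈ S
        · obtain ⟨k, hk⟩ := hν' x hxS
          refine ⟨k, fun c hc hsub θ hθ => ?_⟩
          have hr : 0 < r0 * (1 / 2 : ℝ) ^ k := by positivity
          have h1 : C * (r0 * (1 / 2) ^ k) ^ d ≤ ν.real (cousinH c (r0 * (1 / 2) ^ k)) :=
            (ENNReal.ofReal_le_iff_le_toReal (measure_ne_top _ _)).1 (hk c hc)
          filter_upwards [bad c _ hr hsub θ hθ] with n hn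
          have : 0 ≤ η * (r0 * (1 / 2 : ℝ) ^ k) ^ 2 := by positivity
          linarith
        · obtain ⟨ρ, hρ, hg⟩ := good x hx hxS η hη
          obtain ⟨k, hk⟩ := exists_pow_lt_of_lt_one (div_pos hρ hr0) (by norm_num : (1 / 2 : ℝ) < 1)
          refine ⟨k, fun c hc hsub θ hθ => ?_⟩
          have hr : 0 < r0 * (1 / 2 : ℝ) ^ k := by positivity
          have hlt : r0 * (1 / 2 : ℝ) ^ k < ρ := by
            rw [lt_div_iff₀ hr0] at hk; linarith
          filter_upwards [hg c _ hr hlt hc hsub θ hθ] with n hn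
          have : 0 ≤ ν.real (cousinH c (r0 * (1 / 2) ^ k)) := measureReal_nonneg
          linarith
    intro θ hθ
    have hb : ν.real (cousinH c0 r0) ≤ 128 * C * η :=
      ENNReal.toReal_le_of_le_ofReal (by positivity) ((measure_mono (subset_univ _)).trans hν)
    filter_upwards [main θ hθ] with n hn
    linarith
  rw [Metric.tendsto_nhds]
  intro ε hε
  have hK : 0 < r0 ^ 2 + 128 * C := by positivity
  filter_upwards [key (ε / 4 / (r0 ^ 2 + 128 * C)) (by positivity) (ε / 4) (by positivity)] with n hn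
  rw [Real.dist_eq, sub_zero]
  rw [div_mul_cancel₀ _ hK.ne'] at hn
  linarith

end Pool.Agent.Bor
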