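import Pool.Agent.P.MP_26ecb7_gt.Est
import Pool.Agent.P.MP_26ecb7_gt.Cousin

noncomputable section
open Set Filter Topology MeasureTheory Metric
open scoped RealInnerProductSpace ContDiff ENNReal

namespace Pool.Agent.Bor

/-- the anomaly has density zero at `x` -/
def Van (p : ℕ → P → P) (κ : P → ℝ) (T : Set P) (x : P) : Prop :=
  ∀ φ : P → ℝ, ContDiff ℝ ∞ φ → ∀ η > 0, ∃ ρ > 0, ∀ c r, 0 < r → r < ρ → x ∈ sqr c r →
    sqr c r ⊆ T → ∀ θ > 0, ∀ᶠ n in atTop,
      |∫ y in sqr c r, φ (p n y) * (lam (p n y) * jp (p n) y - κ y)| ≤ η * r ^ 2 + θ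

/-- data on a square: smooth maps converging to a Hoelder map, with the weak Gauss equation -/
structure Dat (p : ℕ → P → P) (q : P → P) (κ : P → ℝ) (c0 : P) (r0 al : ℝ) (S : Set P) : Prop where
  r_pos : 0 < r0
  r_le : r0 ≤ 1
  al_gt : 1 / 2 < al
  al_le : al ≤ 1
  smooth : ∀ n, ContDiff ℝ ∞ (p n)
  cont : ContinuousOn q (sqr c0 r0)
  kc : Continuous κ
  unif : TendstoUniformlyOn p q atTop (sqr c0 r0)
  gauss : ∀ c r, 0 < r → sqr c r ⊆ sqr c0 r0 →
    Tendsto (fun n => ∫ x in sqr c r, (lam (p n x) * jp (p n) x - κ x)) atTop (𝓝 0)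
  hol : ∃ M, 0 ≤ M ∧ ∀ᶠ n in atTop, ∀ x ∈ sqr c0 r0, ∀ y ∈ sqr c0 r0,
    dist (p n x) (p n y) ≤ M * dist x y ^ al
  null : μH[3 * al] S = 0
  good : ∀ x ∈ sqr c0 r0, x ∉ S → GoodS p (sqr c0 r0) x ∨ Van p κ (sqr c0 r0) x

theorem anom_pd_fst {p : P → P} {x : P} (hp : DifferentiableAt ℝ p x) (i : Fin 2) :
    pd i (fun y => (p y).1) x = (fderiv ℝ p x (e2 i)).1 := by
  unfold pd
  rw [fderiv.fst hp]
  rfl

theorem anom_pd_snd {p : P → P} {x : P} (hp : DifferentiableAt ℝ p x) (i : Fin 2) :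
    pd i (fun y => (p y).2) x = (fderiv ℝ p x (e2 i)).2 := by
  unfold pd
  rw [fderiv.snd hp]
  rfl

theorem anom_pd_comp {T : P → ℝ} {p : P → P} {x : P} (hT : DifferentiableAt ℝ T (p x))
    (hp : DifferentiableAt ℝ p x) (i : Fin 2) :
    pd i (fun y => T (p y)) x = pd 0 T (p x) * pd i (fun y => (p y).1) x
      + pd 1 T (p x) * pd i (fun y => (p y).2) x := by
  rw [anom_pd_fst hp, anom_pd_snd hp]
  have h : pd i (fun y => T (p y)) x = fderiv ℝ T (p x) (fderiv ℝ p x (e2 i)) := by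
    unfold pd
    rw [fderiv_fun_comp x hT hp]
    rfl
  rw [h, fderiv_eq_pd, smul_eq_mul, smul_eq_mul]
  ring

theorem anom_jac {T : P → ℝ} {p : P → P} (hT : ContDiff ℝ ∞ T) (hp : ContDiff ℝ ∞ p) (x : P) :
    jac (fun y => T (p y)) (fun y => (p y).2) x = pd 0 T (p x) * jp p x := by
  have h1 : DifferentiableAt ℝ T (p x) := (hT.differentiable (by simp)) _
  have h2 : DifferentiableAt ℝ p x := (hp.differentiable (by simp)) _
  unfold jp jac
  rw [anom_pd_comp h1 h2 0, anom_pd_comp h1 h2 1]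
  ring

theorem anom_cont_jp {p : P → P} (hp : ContDiff ℝ ∞ p) : Continuous (jp p) := by
  have h1 : ContDiff ℝ ∞ (fun y => (p y).1) := hp.fst
  have h2 : ContDiff ℝ ∞ (fun y => (p y).2) := hp.snd
  have : jp p = fun x => pd 0 (fun y => (p y).1) x * pd 1 (fun y => (p y).2) x
      - pd 1 (fun y => (p y).1) x * pd 0 (fun y => (p y).2) x := rfl
  rw [this]
  exact ((contDiff_pd h1 0).continuous.mul (contDiff_pd h2 1).continuous).sub
    ((contDiff_pd h1 1).continuous.mul (contDiff_pd h2 0).continuous)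

theorem anom_cont_phi {T : P → ℝ} (hT : ContDiff ℝ ∞ T) :
    Continuous (fun y => pd 0 T y / lam y) :=
  (contDiff_pd hT 0).continuous.div contDiff_lam.continuous (fun y => (lam_pos y).ne')

theorem anom_le {c c0 : P} {r r0 : ℝ} (hr : 0 < r) (h : sqr c r ⊆ sqr c0 r0) : r ≤ r0 := by
  have h1 : c ∈ sqr c r := mem_sqr.2 ⟨⟨le_rfl, by linarith⟩, ⟨le_rfl, by linarith⟩⟩
  have h2 : ((c.1 + r, c.2 + r) : P) ∈ sqr c r :=
    mem_sqr.2 ⟨⟨by simp [hr.le], le_rfl⟩, ⟨by simp [hr.le], le_rfl⟩⟩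
  have h3 := (mem_sqr.1 (h h1)).1.1
  have h4 := (mem_sqr.1 (h h2)).1.2
  simp only at h4
  linarith

theorem anom_small {u : ℕ → ℝ} (hu : Tendsto u atTop (𝓝 0)) {K θ : ℝ} (hθ : 0 < θ) :
    ∀ᶠ n in atTop, K * |u n| ≤ θ := by
  have h : Tendsto (fun n => K * |u n|) atTop (𝓝 (K * |0|)) := hu.abs.const_mul K
  rw [abs_zero, mul_zero] at h
  exact h.eventually (ge_mem_nhds hθ)

theorem anom_bound {p q κ c0 r0 al S} (D : Dat p q κ c0 r0 al S) :
    ∃ ρ : ℝ, ∀ᶠ n in atTop, ∀ x ∈ sqr c0 r0, ‖p n x‖ ≤ ρ := by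
  obtain ⟨B, hB⟩ := (sqr_compact c0 r0).exists_bound_of_continuousOn D.cont
  refine ⟨B + 1, ?_⟩
  filter_upwards [Metric.tendstoUniformlyOn_iff.1 D.unif 1 one_pos] with n hn x hx
  have h1 := hn x hx
  have h2 := hB x hx
  rw [dist_eq_norm'] at h1
  have h3 := norm_sub_norm_le (p n x) (q x)
  linarith

theorem anom_ev {p q κ c0 r0 al S} (D : Dat p q κ c0 r0 al S) {T : P → ℝ} (hT : ContDiff ℝ ∞ T) :
    Tendsto (fun n => ∫ x in sqr c0 r0,
      pd 0 T (p n x) / lam (p n x) * (lam (p n x) * jp (p n) x - κ x)) atTop (𝓝 0) := by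
  obtain ⟨ρ, hρ⟩ := anom_bound D
  obtain ⟨K, hK, hest⟩ := est hT ρ
  obtain ⟨M, hM, hhol⟩ := D.hol
  obtain ⟨k0, hk0⟩ := (sqr_compact c0 r0).exists_bound_of_continuousOn D.kc.continuousOn
  have hkk : ∀ x ∈ sqr c0 r0, |κ x| ≤ max k0 0 := fun x hx =>
    le_trans (hk0 x hx) (le_max_left _ _)
  have hk : 0 ≤ max k0 0 := le_max_right _ _
  generalize max k0 0 = k at hkk hk
  have hal := D.al_gt
  have hyc := yc_pos hal
  refine cousin (d := 3 * al) (C := K * (1 + yc al) * M ^ 3 + K * k * M) (by linarith)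
    (by positivity) (fun n c r => ∫ x in sqr c r,
      pd 0 T (p n x) / lam (p n x) * (lam (p n x) * jp (p n) x - κ x)) D.r_pos ?_ D.null ?_ ?_
  · intro n c r hr _
    refine integral_sqr_split hr.le (Continuous.continuousOn ?_)
    have hc := (D.smooth n).continuous
    exact ((anom_cont_phi hT).comp hc).mul
      (((contDiff_lam.continuous.comp hc).mul (anom_cont_jp (D.smooth n))).sub D.kc)
  · intro c r hr hsub θ hθ
    have hr1 : r ≤ 1 := (anom_le hr hsub).trans D.r_le
    filter_upwards [hρ, hhol, anom_small (K := K) (D.gauss c r hr hsub) hθ] with n h1 h2 h3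
    have hpos : 0 ≤ r ^ al := Real.rpow_nonneg hr.le _
    have h := hest al (p n) κ c r (M * r ^ al) M k hal hr (by positivity) hM (D.smooth n) D.kc
      (fun x hx => hkk x (hsub hx)) (fun x hx => h1 x (hsub hx))
      (fun x hx y hy => ⟨(h2 x (hsub hx) y (hsub hy)).trans (mul_le_mul_of_nonneg_left
        (Real.rpow_le_rpow dist_nonneg (dist_le_of_sqr hx hy) (by linarith)) hM),
        h2 x (hsub hx) y (hsub hy)⟩)
    have e1 : r ^ (3 * al) = r ^ al * r ^ (2 * al) := by
      rw [← Real.rpow_add hr]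
      congr 1
      ring
    have e2 : r ^ 2 ≤ r ^ (2 * al) := by
      have h5 := Real.rpow_le_rpow_of_exponent_ge hr hr1 (show 2 * al ≤ (2 : ℝ) by
        linarith [D.al_le])
      rwa [Real.rpow_two] at h5
    have e3 : K * k * (M * r ^ al * r ^ 2) ≤ K * k * (M * r ^ al * r ^ (2 * al)) :=
      mul_le_mul_of_nonneg_left (mul_le_mul_of_nonneg_left e2 (by positivity)) (by positivity)
    rw [e1]
    refine h.trans ?_
    have e4 : (K * (1 + yc al) * M ^ 3 + K * k * M) * (r ^ al * r ^ (2 * al))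
        = K * (1 + yc al) * (M * r ^ al * M ^ 2 * r ^ (2 * al))
          + K * k * (M * r ^ al * r ^ (2 * al)) := by ring
    rw [e4]
    linarith
  · intro x hx hxS η hη
    rcases D.good x hx hxS with ⟨a, M0, ha, -, hg⟩ | hv
    swap
    · exact hv (fun y => pd 0 T y / lam y)
        ((contDiff_pd hT 0).div contDiff_lam fun y => (lam_pos y).ne') η hη
    have hya := yc_pos ha
    have hA : 0 < 4 * (K * (1 + yc a)) + K * k + 1 := by positivity
    obtain ⟨r1, hr1, hg⟩ := hg (η / (4 * (K * (1 + yc a)) + K * k + 1)) (div_pos hη hA)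
    have hη' : η = η / (4 * (K * (1 + yc a)) + K * k + 1)
        * (4 * (K * (1 + yc a)) + K * k + 1) := (div_mul_cancel₀ η hA.ne').symm
    have hε := div_pos hη hA
    generalize η / (4 * (K * (1 + yc a)) + K * k + 1) = ε at hg hη' hε
    refine ⟨r1 / 2, by positivity, ?_⟩
    intro c r hr hrr hxc hsub θ hθ
    obtain ⟨O, N, hO, hOε, hN, -, hON, hev⟩ := hg (2 * r) (by positivity) (by linarith)
    filter_upwards [hρ, hev, anom_small (K := K) (D.gauss c r hr hsub) hθ] with n h1 h2 h3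
    have hin : ∀ y ∈ sqr c r, y ∈ sqr c0 r0 ∩ ball x (2 * r) := fun y hy =>
      ⟨hsub hy, mem_ball.2 (lt_of_le_of_lt (dist_le_of_sqr hy hxc) (by linarith))⟩
    have h := hest a (p n) κ c r O N k ha hr hO hN (D.smooth n) D.kc
      (fun y hy => hkk y (hsub hy)) (fun y hy => h1 y (hsub hy))
      (fun y hy z hz => h2 y (hin y hy) z (hin z hz))
    have e1 : r ^ (2 * a) ≤ (2 * r) ^ (2 * a) :=
      Real.rpow_le_rpow hr.le (by linarith) (by linarith)
    have e2 : O * N ^ 2 * r ^ (2 * a) ≤ ε * (2 * r) ^ 2 :=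
      (mul_le_mul_of_nonneg_left e1 (by positivity)).trans hON
    have e3 : K * (1 + yc a) * (O * N ^ 2 * r ^ (2 * a)) ≤ K * (1 + yc a) * (ε * (2 * r) ^ 2) :=
      mul_le_mul_of_nonneg_left e2 (by positivity)
    have e4 : K * k * (O * r ^ 2) ≤ K * k * (ε * r ^ 2) :=
      mul_le_mul_of_nonneg_left (mul_le_mul_of_nonneg_right hOε (by positivity)) (by positivity)
    have e5 : η * r ^ 2 = K * (1 + yc a) * (ε * (2 * r) ^ 2) + K * k * (ε * r ^ 2)
        + ε * r ^ 2 := by
      rw [hη']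
      ring
    have e6 : 0 ≤ ε * r ^ 2 := by positivity
    refine h.trans ?_
    rw [e5]
    linarith

theorem anom_last {p q κ c0 r0 al S} (D : Dat p q κ c0 r0 al S) {f : P → ℝ} (hf : Continuous f) :
    Tendsto (fun n => ∫ x in sqr c0 r0, f (p n x) * κ x) atTop
      (𝓝 (∫ x in sqr c0 r0, f (q x) * κ x)) := by
  obtain ⟨ρ, hρ⟩ := anom_bound D
  obtain ⟨k0, hk0⟩ := (sqr_compact c0 r0).exists_bound_of_continuousOn D.kc.continuousOn
  obtain ⟨B, hB⟩ := (isCompact_closedBall (0 : P) ρ).exists_bound_of_continuousOn hf.continuousOn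
  have hm : MeasurableSet (sqr c0 r0) := (sqr_compact c0 r0).measurableSet
  refine tendsto_integral_filter_of_dominated_convergence (fun _ => B * k0) ?_ ?_ ?_ ?_
  · exact Eventually.of_forall fun n =>
      ((hf.comp (D.smooth n).continuous).mul D.kc).aestronglyMeasurable
  · filter_upwards [hρ] with n hn
    refine (ae_restrict_iff' hm).2 (Eventually.of_forall fun x hx => ?_)
    have h1 := hB (p n x) (mem_closedBall_zero_iff.2 (hn x hx))
    rw [norm_mul]
    exact mul_le_mul h1 (hk0 x hx) (norm_nonneg _) ((norm_nonneg _).trans h1)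
  · exact (continuous_const.continuousOn).integrableOn_compact (sqr_compact c0 r0)
  · refine (ae_restrict_iff' hm).2 (Eventually.of_forall fun x hx => ?_)
    exact ((hf.tendsto _).comp (D.unif.tendsto_at hx)).mul_const _

theorem anom_dist_swap (x y : P) : dist x.swap y.swap = dist x y := by
  rw [Prod.dist_eq, Prod.dist_eq, max_comm]
  rfl

theorem anom_pd_swap {T : P → ℝ} (hT : ContDiff ℝ ∞ T) (y : P) :
    pd 0 (fun z : P => T z.swap) y.swap = pd 1 T y := by
  have h1 : DifferentiableAt ℝ T (Prod.swap y.swap) := (hT.differentiable (by simp)) _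
  have h2 : DifferentiableAt ℝ (fun z : P => z.swap) y.swap :=
    differentiableAt_snd.prodMk differentiableAt_fst
  rw [anom_pd_comp h1 h2 0]
  have e1 : pd 0 (fun z : P => z.swap.1) y.swap = 0 := by
    show fderiv ℝ Prod.snd y.swap (e2 0) = 0
    rw [fderiv_snd]
    simp [e2]
  have e2' : pd 0 (fun z : P => z.swap.2) y.swap = 1 := by
    show fderiv ℝ Prod.fst y.swap (e2 0) = 1
    rw [fderiv_fst]
    simp [e2]
  rw [e1, e2', Prod.swap_swap]
  ring

theorem Dat.anom {p q κ c0 r0 al S} (D : Dat p q κ c0 r0 al S) {T : P → ℝ} (hT : ContDiff ℝ ∞ T) :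
    Tendsto (fun n => lp c0 r0 (fun x => T (p n x)) (fun x => (p n x).2)) atTop
      (𝓝 (∫ x in sqr c0 r0, pd 0 T (q x) / lam (q x) * κ x)) := by
  have h := (anom_ev D hT).add (anom_last D (anom_cont_phi hT))
  rw [zero_add] at h
  refine h.congr fun n => ?_
  have hc := (D.smooth n).continuous
  have hphi := (anom_cont_phi hT).comp hc
  have i1 : IntegrableOn (fun x => pd 0 T (p n x) / lam (p n x) * (lam (p n x) * jp (p n) x - κ x))
      (sqr c0 r0) :=
    (hphi.mul (((contDiff_lam.continuous.comp hc).mul (anom_cont_jp (D.smooth n))).sub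
      D.kc)).continuousOn.integrableOn_compact (sqr_compact c0 r0)
  have i2 : IntegrableOn (fun x => pd 0 T (p n x) / lam (p n x) * κ x) (sqr c0 r0) :=
    (hphi.mul D.kc).continuousOn.integrableOn_compact (sqr_compact c0 r0)
  have hg := green_jac (f := fun x => T (p n x)) (g := fun x => (p n x).2)
    ((hT.comp (D.smooth n)).of_le (by exact_mod_cast le_top)) (D.smooth n).snd c0 D.r_pos.le
  rw [← integral_add i1 i2, ← hg]
  refine integral_congr_ae (Eventually.of_forall fun x => ?_)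
  have hl := (lam_pos (p n x)).ne'
  simp only [anom_jac hT (D.smooth n)]
  field_simp
  ring

theorem Dat.swap {p q κ c0 r0 al S} (D : Dat p q κ c0 r0 al S) :
    Dat (fun n x => (p n x).swap) (fun x => (q x).swap) (fun x => - κ x) c0 r0 al S := by
  refine ⟨D.r_pos, D.r_le, D.al_gt, D.al_le, fun n => (D.smooth n).snd.prodMk (D.smooth n).fst,
    continuous_swap.comp_continuousOn D.cont, D.kc.neg,
    uniformContinuous_swap.comp_tendstoUniformlyOn D.unif, ?_, ?_, D.null, ?_⟩
  · intro c r hr hsub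
    have h := (D.gauss c r hr hsub).neg
    rw [neg_zero] at h
    refine h.congr fun n => ?_
    rw [← integral_neg]
    refine integral_congr_ae (Eventually.of_forall fun x => ?_)
    have e : jp (fun x => (p n x).swap) x = - jp (p n) x := by
      unfold jp jac
      simp only [Prod.fst_swap, Prod.snd_swap]
      ring
    simp only [lam_swap, e]
    ring
  · obtain ⟨M, hM, h⟩ := D.hol
    refine ⟨M, hM, ?_⟩
    simpa only [anom_dist_swap] using h
  · intro x hx hxS
    rcases D.good x hx hxS with h | h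
    · left
      unfold GoodS at h ⊢
      simpa only [anom_dist_swap] using h
    · right
      intro φ hφ η hη
      obtain ⟨ρ, hρ, h1⟩ := h (fun z => φ z.swap) (hφ.comp (contDiff_snd.prodMk contDiff_fst)) η hη
      refine ⟨ρ, hρ, fun c r hr hrr hxc hs θ hθ => ?_⟩
      filter_upwards [h1 c r hr hrr hxc hs θ hθ] with n hn
      rw [← abs_neg, ← integral_neg] at hn
      refine le_of_eq_of_le (congrArg abs (integral_congr_ae (Eventually.of_forall fun y => ?_))) hn
      have e : jp (fun x => (p n x).swap) y = - jp (p n) y := by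
        unfold jp jac
        simp only [Prod.fst_swap, Prod.snd_swap]
        ring
      simp only [lam_swap, e]
      ring

theorem Dat.anom' {p q κ c0 r0 al S} (D : Dat p q κ c0 r0 al S) {T : P → ℝ} (hT : ContDiff ℝ ∞ T) :
    Tendsto (fun n => lp c0 r0 (fun x => T (p n x)) (fun x => (p n x).1)) atTop
      (𝓝 (- ∫ x in sqr c0 r0, pd 1 T (q x) / lam (q x) * κ x)) := by
  have hT' : ContDiff ℝ ∞ (fun z : P => T z.swap) := hT.comp (contDiff_snd.prodMk contDiff_fst)
  have h := D.swap.anom hT'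
  simp only [Prod.swap_swap, Prod.snd_swap, anom_pd_swap hT, lam_swap, mul_neg, integral_neg] at h
  exact h

theorem Dat.hol_lim {p q κ c0 r0 al S} (D : Dat p q κ c0 r0 al S) :
    ∃ M, ∀ x ∈ sqr c0 r0, ∀ y ∈ sqr c0 r0, dist (q x) (q y) ≤ M * dist x y ^ al := by
  obtain ⟨M, -, h⟩ := D.hol
  refine ⟨M, fun x hx y hy => ?_⟩
  refine le_of_tendsto ((D.unif.tendsto_at hx).dist (D.unif.tendsto_at hy)) ?_
  filter_upwards [h] with n hn using hn x hx y hy

end Pool.Agent.Bor
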