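import Pool.Agent.P.MP_26ecb7_gt.Defs

noncomputable section
open Set Filter Topology MeasureTheory Metric
open scoped RealInnerProductSpace ContDiff ENNReal NNReal

namespace Pool.Agent.Bor

/-- average of a real function over the ball of radius `ε`, without normalisation -/
def av (ε : ℝ) (F : E → ℝ) (x : E) : ℝ := ∫ u in closedBall (0 : E) 1, F (x - ε • u)

/-- third moment of the increments at scale `ε` -/
def a3 {Y : Type} [NormedAddCommGroup Y] (H : E → Y) (ε : ℝ) (x : E) : ℝ :=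
  av ε (fun z => ‖H z - H x‖ ^ 3) x

/-- the critical Besov defect has density zero at `x` -/
def BesS {Y : Type} [NormedAddCommGroup Y] (f : E → Y) (T : Set E) (x : E) : Prop :=
  ∀ η : ℝ, 0 < η → ∀ᶠ r in 𝓝[>] (0 : ℝ), ∀ᶠ ε in 𝓝[>] (0 : ℝ),
    ∫⁻ y in T ∩ ball x r, ∫⁻ z in T ∩ ball y ε, ‖f y - f z‖ₑ ^ 3 ∂μH[2] ∂μH[2]
      ≤ ENNReal.ofReal (η * r ^ 2 * ε ^ 4)

/-- the approximations are mollifications of a global extension -/
structure Mo {X : Surf} {I : Iso X} (A : Appr I) (ε : ℕ → ℝ) (V : E → E) : Prop where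
  W_eq : ∀ n, A.W n = mol (ε n) V
  pos : ∀ n, 0 < ε n
  le : ∀ n, ε n ≤ A.tau
  lim : Tendsto ε atTop (𝓝 0)
  c1 : ContDiff ℝ 1 V
  o_not : X.o ∉ cthickening (3 * A.tau) X.S
  eq : ∀ z ∈ cthickening (3 * A.tau) X.S, V =ᶠ[𝓝 z] I.V

end Pool.Agent.Bor
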