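import Pool.Agent.P.MP_26ecb7_gt.Comm0

noncomputable section
open Set Filter Topology MeasureTheory Metric
open scoped RealInnerProductSpace ContDiff ENNReal

namespace Pool.Agent.Bor

/-- uniform convergence of the derivative of the mollification on a compact set -/
theorem comm_unif {F : Type} [NormedAddCommGroup F] [NormedSpace ℝ F] [CompleteSpace F]
    {Γ : E → F} {G K : Set E} {t : ℝ} (ht : 0 < t) (hK : IsCompact K)
    (hKG : cthickening t K ⊆ G) (hc : Continuous Γ) (hs : ∀ z ∈ G, ContDiffAt ℝ 1 Γ z) :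
    ∀ θ > 0, ∀ᶠ ε in 𝓝[>] (0 : ℝ), ∀ z ∈ K, ‖fderiv ℝ (mol ε Γ) z - fderiv ℝ Γ z‖ ≤ θ := by
  intro θ hθ
  obtain ⟨c, hc0, hcb⟩ := exists_grad_bound
  have hK' : IsCompact (cthickening t K) := hK.cthickening
  have hcont : ContinuousOn (fderiv ℝ Γ) (cthickening t K) := fun y hy =>
    ((hs y (hKG hy)).continuousAt_fderiv one_ne_zero).continuousWithinAt
  have huc := hK'.uniformContinuousOn_of_continuous hcont
  have hη : 0 < θ / (c + 1) := by positivity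
  obtain ⟨δ, hδ, hδb⟩ := Metric.uniformContinuousOn_iff_le.1 huc (θ / (c + 1)) hη
  have hev : ∀ᶠ ε in 𝓝[>] (0 : ℝ), ε ∈ Ioo (0 : ℝ) (min t δ) := Ioo_mem_nhdsGT (lt_min ht hδ)
  filter_upwards [hev] with ε hε z hz
  have hε0 : 0 < ε := hε.1
  have hεt : ε ≤ t := hε.2.le.trans (min_le_left _ _)
  have hεδ : ε ≤ δ := hε.2.le.trans (min_le_right _ _)
  have hball : closedBall z ε ⊆ cthickening t K :=
    (closedBall_subset_closedBall hεt).trans (closedBall_subset_cthickening hz t)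
  set L : E →L[ℝ] F := fderiv ℝ Γ z with hL
  have hA : ∀ w ∈ closedBall z ε, ‖(Γ w - L w) - (Γ z - L z)‖ ≤ θ / (c + 1) * ε := by
    intro w hw
    have h1 := (convex_closedBall z ε).norm_image_sub_le_of_norm_fderiv_le' (𝕜 := ℝ) (f := Γ)
      (φ := L) (C := θ / (c + 1))
      (fun y hy => (hs y (hKG (hball hy))).differentiableAt one_ne_zero)
      (fun y hy => by
        have := hδb y (hball hy) z (hball (mem_closedBall_self hε0.le))
          ((mem_closedBall.1 hy).trans hεδ)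
        rwa [dist_eq_norm] at this)
      (mem_closedBall_self hε0.le) hw
    have h2 : (Γ w - L w) - (Γ z - L z) = Γ w - Γ z - L (w - z) := by
      rw [map_sub]; abel
    rw [h2]
    refine h1.trans (mul_le_mul_of_nonneg_left ?_ hη.le)
    rw [← dist_eq_norm]; exact mem_closedBall.1 hw
  have hB := hcb F ε (fun w => Γ w - L w) z (Γ z - L z) (θ / (c + 1) * ε) hε0
    (hc.sub L.continuous) hA
  have hsub : mol ε (fun w => Γ w - L w) = fun x => mol ε Γ x - mol ε (fun w => L w) x := by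
    funext x
    exact mol_sub hc L.continuous x
  have hd1 : DifferentiableAt ℝ (mol ε Γ) z :=
    ((mol_smooth hε0 hc).differentiable (by simp)).differentiableAt
  have hd2 : DifferentiableAt ℝ (mol ε (fun w => L w)) z :=
    ((mol_smooth hε0 L.continuous).differentiable (by simp)).differentiableAt
  have hL2 : fderiv ℝ (mol ε (fun w => L w)) z = L := by
    have h3 : fderiv ℝ (fun w => L w) = fun _ => L := by
      funext w
      exact L.fderiv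
    rw [fderiv_mol hε0 (H := fun w => L w) L.contDiff, h3, mol_const]
  rw [hsub, fderiv_fun_sub hd1 hd2, hL2] at hB
  refine hB.trans ?_
  have h4 : c * (θ / (c + 1) * ε) / ε = θ * (c / (c + 1)) := by
    field_simp
  rw [h4]
  have h5 : c / (c + 1) ≤ 1 := by
    rw [div_le_one (by positivity)]; linarith
  nlinarith

/-- the metric coefficients -/
def comm_gam (V : E → E) (y : E) : Fin 3 × Fin 3 → ℝ :=
  fun p => ⟪fderiv ℝ V y (ee p.1), fderiv ℝ V y (ee p.2)⟫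

/-- evaluation of an array as a bilinear form -/
def comm_ev (b c : E) : (Fin 3 × Fin 3 → ℝ) →L[ℝ] ℝ :=
  ∑ p : Fin 3 × Fin 3, (b p.1 * c p.2) • ContinuousLinearMap.proj (R := ℝ)
    (φ := fun _ : Fin 3 × Fin 3 => ℝ) p

theorem comm_ev_apply (b c : E) (T : Fin 3 × Fin 3 → ℝ) :
    comm_ev b c T = ∑ p : Fin 3 × Fin 3, b p.1 * c p.2 * T p := by
  simp [comm_ev]

theorem comm_ev_le (b c : E) (T : Fin 3 × Fin 3 → ℝ) :
    |comm_ev b c T| ≤ 9 * ‖T‖ * ‖b‖ * ‖c‖ := by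
  rw [comm_ev_apply]
  refine (Finset.abs_sum_le_sum_abs _ _).trans ?_
  have h : ∀ p ∈ (Finset.univ : Finset (Fin 3 × Fin 3)),
      |b p.1 * c p.2 * T p| ≤ ‖T‖ * ‖b‖ * ‖c‖ := by
    intro p _
    have h1 : |b p.1| ≤ ‖b‖ := by simpa using PiLp.norm_apply_le b p.1
    have h2 : |c p.2| ≤ ‖c‖ := by simpa using PiLp.norm_apply_le c p.2
    have h3 : |T p| ≤ ‖T‖ := by simpa using norm_le_pi_norm T p
    rw [abs_mul, abs_mul]
    calc |b p.1| * |c p.2| * |T p| ≤ ‖b‖ * ‖c‖ * ‖T‖ := by gcongr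
      _ = ‖T‖ * ‖b‖ * ‖c‖ := by ring
  refine (Finset.sum_le_card_nsmul _ _ _ h).trans (le_of_eq ?_)
  simp only [Finset.card_univ, Fintype.card_prod, Fintype.card_fin, nsmul_eq_mul]
  push_cast
  ring

theorem comm_exp (b : E) : b = b 0 • ee 0 + b 1 • ee 1 + b 2 • ee 2 := by
  ext k
  fin_cases k <;> simp [ee]

theorem comm_gam_apply (V : E → E) (y b c : E) :
    comm_ev b c (comm_gam V y) = ⟪fderiv ℝ V y b, fderiv ℝ V y c⟫ := by
  rw [comm_ev_apply]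
  conv_rhs => rw [comm_exp b, comm_exp c]
  simp only [comm_gam, Fintype.sum_prod_type, Fin.sum_univ_three, map_add, map_smul,
    inner_add_left, inner_add_right, real_inner_smul_left, real_inner_smul_right]
  ring

theorem comm_gam_cd {n : WithTop ℕ∞} {V : E → E} {z : E} (h : ContDiffAt ℝ n (fderiv ℝ V) z) :
    ContDiffAt ℝ n (comm_gam V) z := by
  rw [contDiffAt_pi]
  intro p
  exact (h.clm_apply contDiffAt_const).inner ℝ (h.clm_apply contDiffAt_const)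

theorem comm_fd_apply {Γ : E → Fin 3 × Fin 3 → ℝ} {z : E} (h : DifferentiableAt ℝ Γ z)
    (b c d : E) :
    fderiv ℝ (fun y => comm_ev b c (Γ y)) z d = comm_ev b c (fderiv ℝ Γ z d) := by
  have h1 := (comm_ev b c).hasFDerivAt.comp z h.hasFDerivAt
  have h2 : (fun y => comm_ev b c (Γ y)) = comm_ev b c ∘ Γ := rfl
  rw [h2, h1.fderiv]
  rfl

theorem comm_key {V u : E → E} {G K : Set E} {t H a : ℝ} (ht : 0 < t) (hK : IsCompact K)
    (hG : IsOpen G) (hKG : cthickening t K ⊆ G) (ha : 1 / 2 < a) (hH : 0 ≤ H)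
    (hV : ContDiff ℝ 1 V) (hu : ∀ z ∈ G, ContDiffAt ℝ ∞ u z)
    (hol : ∀ y ∈ G, ∀ z ∈ G, ‖fderiv ℝ V y - fderiv ℝ V z‖ ≤ H * ‖y - z‖ ^ a)
    (iso : ∀ z ∈ G, ∀ b c, ⟪fderiv ℝ V z b, fderiv ℝ V z c⟫ = ⟪fderiv ℝ u z b, fderiv ℝ u z c⟫) :
    ∀ θ > 0, ∀ᶠ ε in 𝓝[>] (0 : ℝ), ∀ z ∈ K, ∀ b c d,
      |fderiv ℝ (fun y => ⟪fderiv ℝ (mol ε V) y b, fderiv ℝ (mol ε V) y c⟫) z d
        - fderiv ℝ (fun y => ⟪fderiv ℝ u y b, fderiv ℝ u y c⟫) z d| ≤ θ * ‖b‖ * ‖c‖ * ‖d‖ := by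
  intro θ hθ
  obtain ⟨c0, hc0, hcb⟩ := exists_comm
  have hDV : Continuous (fderiv ℝ V) := hV.continuous_fderiv one_ne_zero
  have hΓc : Continuous (comm_gam V) := by
    rw [continuous_iff_continuousAt]
    intro z
    have h0 : ContDiffAt ℝ 0 (fderiv ℝ V) z := (contDiff_zero.2 hDV).contDiffAt
    exact (comm_gam_cd h0).continuousAt
  have hΓe : ∀ z ∈ G, comm_gam V =ᶠ[𝓝 z] comm_gam u := by
    intro z hz
    filter_upwards [hG.mem_nhds hz] with y hy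
    funext p
    exact iso y hy _ _
  have hΓs : ∀ z ∈ G, ContDiffAt ℝ 1 (comm_gam V) z := by
    intro z hz
    have h1 : ContDiffAt ℝ 1 (fderiv ℝ u) z := 
      ((hu z hz).fderiv_right (m := ∞) (by simp)).of_le (by exact_mod_cast le_top)
    exact (comm_gam_cd h1).congr_of_eventuallyEq (hΓe z hz)
  have hU := comm_unif ht hK hKG hΓc hΓs (θ / 18) (by positivity)
  have hpow : Tendsto (fun ε : ℝ => c0 * H ^ 2 * ε ^ (2 * a - 1)) (𝓝[>] 0) (𝓝 0) := by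
    have h1 : ContinuousAt (fun ε : ℝ => ε ^ (2 * a - 1)) 0 :=
      Real.continuousAt_rpow_const 0 (2 * a - 1) (Or.inr (by linarith))
    have h2 : Tendsto (fun ε : ℝ => ε ^ (2 * a - 1)) (𝓝[>] 0) (𝓝 0) := by
      have h3 := h1.tendsto.mono_left (nhdsWithin_le_nhds (s := Ioi (0 : ℝ)))
      rwa [Real.zero_rpow (by linarith)] at h3
    simpa using h2.const_mul (c0 * H ^ 2)
  have hsmall : ∀ᶠ ε in 𝓝[>] (0 : ℝ), c0 * H ^ 2 * ε ^ (2 * a - 1) < θ / 2 :=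
    hpow.eventually (gt_mem_nhds (by positivity))
  have hev : ∀ᶠ ε in 𝓝[>] (0 : ℝ), ε ∈ Ioo (0 : ℝ) t := Ioo_mem_nhdsGT ht
  filter_upwards [hU, hsmall, hev] with ε hε1 hε2 hε z hz b c d
  have hε0 : 0 < ε := hε.1
  have hball : closedBall z ε ⊆ G :=
    ((closedBall_subset_closedBall hε.2.le).trans (closedBall_subset_cthickening hz t)).trans hKG
  have hzG : z ∈ G := hball (mem_closedBall_self hε0.le)
  have hcf : ∀ b : E, Continuous (fun w => fderiv ℝ V w b) := fun b =>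
    hDV.clm_apply continuous_const
  have hD : ∀ b y : E, fderiv ℝ (mol ε V) y b = mol ε (fun w => fderiv ℝ V w b) y := by
    intro b y
    rw [fderiv_mol hε0 hV]
    exact mol_clm (ContinuousLinearMap.apply ℝ E b) hDV y
  have hbd : ∀ b : E, ∀ w ∈ closedBall z ε,
      ‖fderiv ℝ V w b - fderiv ℝ V z b‖ ≤ H * ε ^ a * ‖b‖ := by
    intro b w hw
    rw [← sub_apply]
    refine (ContinuousLinearMap.le_opNorm _ _).trans (mul_le_mul_of_nonneg_right ?_ (norm_nonneg _))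
    refine (hol w (hball hw) z hzG).trans (mul_le_mul_of_nonneg_left ?_ hH)
    refine Real.rpow_le_rpow (norm_nonneg _) ?_ (by linarith)
    rw [← dist_eq_norm]; exact mem_closedBall.1 hw
  have h1 := hcb ε (fun w => fderiv ℝ V w b) (fun w => fderiv ℝ V w c) z _ _ hε0 (hcf b) (hcf c)
    (hbd b) (hbd c)
  have h1' : c0 * (H * ε ^ a * ‖b‖) * (H * ε ^ a * ‖c‖) / ε
      = c0 * H ^ 2 * ε ^ (2 * a - 1) * ‖b‖ * ‖c‖ := by
    rw [Real.rpow_sub_one hε0.ne', two_mul, Real.rpow_add hε0]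
    field_simp
  rw [h1'] at h1
  have h2 : mol ε (fun w => ⟪fderiv ℝ V w b, fderiv ℝ V w c⟫)
      = fun y => comm_ev b c (mol ε (comm_gam V) y) := by
    funext y
    have h3 := mol_clm (ε := ε) (comm_ev b c) hΓc y
    simp only [comm_gam_apply] at h3
    exact h3.symm
  have hdm : DifferentiableAt ℝ (mol ε (comm_gam V)) z :=
    ((mol_smooth hε0 hΓc).differentiable (by simp)).differentiableAt
  have h4 : fderiv ℝ (mol ε (fun w => ⟪fderiv ℝ V w b, fderiv ℝ V w c⟫)) z d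
      = comm_ev b c (fderiv ℝ (mol ε (comm_gam V)) z d) := by
    rw [h2]; exact comm_fd_apply hdm b c d
  have h5 : fderiv ℝ (fun y => ⟪fderiv ℝ u y b, fderiv ℝ u y c⟫) z d
      = comm_ev b c (fderiv ℝ (comm_gam V) z d) := by
    rw [← comm_fd_apply ((hΓs z hzG).differentiableAt one_ne_zero) b c d]
    have h6 : (fun y => ⟪fderiv ℝ u y b, fderiv ℝ u y c⟫) 
        =ᶠ[𝓝 z] fun y => comm_ev b c (comm_gam V y) := by
      filter_upwards [hG.mem_nhds hzG] with y hy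
      rw [comm_gam_apply, iso y hy]
    rw [h6.fderiv_eq]
  have h7 : (fun y => ⟪fderiv ℝ (mol ε V) y b, fderiv ℝ (mol ε V) y c⟫)
      = fun y => ⟪mol ε (fun w => fderiv ℝ V w b) y, mol ε (fun w => fderiv ℝ V w c) y⟫ := by
    funext y
    rw [hD, hD]
  rw [h7, h5]
  set X := fderiv ℝ (fun y => ⟪mol ε (fun w => fderiv ℝ V w b) y,
    mol ε (fun w => fderiv ℝ V w c) y⟫) z with hX
  set Y := fderiv ℝ (mol ε (fun w => ⟪fderiv ℝ V w b, fderiv ℝ V w c⟫)) z with hY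
  have h8 : |X d - Y d| ≤ θ / 2 * ‖b‖ * ‖c‖ * ‖d‖ := by
    rw [← sub_apply, ← Real.norm_eq_abs]
    refine (ContinuousLinearMap.le_opNorm _ _).trans (mul_le_mul_of_nonneg_right ?_ (norm_nonneg _))
    refine h1.trans ?_
    exact mul_le_mul_of_nonneg_right (mul_le_mul_of_nonneg_right hε2.le (norm_nonneg _))
      (norm_nonneg _)
  have h9 : |Y d - comm_ev b c (fderiv ℝ (comm_gam V) z d)| ≤ θ / 2 * ‖b‖ * ‖c‖ * ‖d‖ := by
    rw [h4, ← map_sub, ← sub_apply]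
    set T := fderiv ℝ (mol ε (comm_gam V)) z - fderiv ℝ (comm_gam V) z with hT
    have h12 : ‖T d‖ ≤ θ / 18 * ‖d‖ :=
      (T.le_opNorm d).trans (mul_le_mul_of_nonneg_right (hε1 z hz) (norm_nonneg _))
    calc |comm_ev b c (T d)| ≤ 9 * ‖T d‖ * ‖b‖ * ‖c‖ := comm_ev_le b c _
      _ ≤ 9 * (θ / 18 * ‖d‖) * ‖b‖ * ‖c‖ := by gcongr
      _ = θ / 2 * ‖b‖ * ‖c‖ * ‖d‖ := by ring
  calc |X d - comm_ev b c (fderiv ℝ (comm_gam V) z d)|
      ≤ |X d - Y d| + |Y d - comm_ev b c (fderiv ℝ (comm_gam V) z d)| := abs_sub_le _ _ _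
    _ ≤ θ / 2 * ‖b‖ * ‖c‖ * ‖d‖ + θ / 2 * ‖b‖ * ‖c‖ * ‖d‖ := add_le_add h8 h9
    _ = θ * ‖b‖ * ‖c‖ * ‖d‖ := by ring

/-- convergence of the Christoffel expressions: `V` is `C^1` with Hoelder derivative on an open set
`G` and has the same metric as the smooth map `u` there -/
theorem chr_conv {V u : E → E} {G K : Set E} {t H a : ℝ} (ht : 0 < t) (hK : IsCompact K)
    (hG : IsOpen G) (hKG : cthickening t K ⊆ G) (ha : 1 / 2 < a) (hH : 0 ≤ H)
    (hV : ContDiff ℝ 1 V) (hu : ∀ z ∈ G, ContDiffAt ℝ ∞ u z)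
    (hol : ∀ y ∈ G, ∀ z ∈ G, ‖fderiv ℝ V y - fderiv ℝ V z‖ ≤ H * ‖y - z‖ ^ a)
    (iso : ∀ z ∈ G, ∀ b c, ⟪fderiv ℝ V z b, fderiv ℝ V z c⟫ = ⟪fderiv ℝ u z b, fderiv ℝ u z c⟫) :
    ∀ θ > 0, ∀ᶠ ε in 𝓝[>] (0 : ℝ), ∀ z ∈ K, ∀ b c d,
      |chr (mol ε V) z b c d - chr u z b c d| ≤ θ * ‖b‖ * ‖c‖ * ‖d‖ := by
  intro θ hθ
  have hk := comm_key ht hK hG hKG ha hH hV hu hol iso (θ / 2) (by positivity)
  filter_upwards [hk, self_mem_nhdsWithin] with ε hε hε0 z hz b c d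
  have hε0' : 0 < ε := hε0
  have hzG : z ∈ G := hKG (self_subset_cthickening K hz)
  have e1 := chr_eq ((mol_smooth hε0' hV.continuous).contDiffAt (x := z)) b c d
  have e2 := chr_eq (hu z hzG) b c d
  have k1 := abs_le.1 (hε z hz c d b)
  have k2 := abs_le.1 (hε z hz b d c)
  have k3 := abs_le.1 (hε z hz b c d)
  have r1 : θ / 2 * ‖c‖ * ‖d‖ * ‖b‖ = θ / 2 * (‖b‖ * ‖c‖ * ‖d‖) := by ring
  have r2 : θ / 2 * ‖b‖ * ‖d‖ * ‖c‖ = θ / 2 * (‖b‖ * ‖c‖ * ‖d‖) := by ring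
  have r3 : θ / 2 * ‖b‖ * ‖c‖ * ‖d‖ = θ / 2 * (‖b‖ * ‖c‖ * ‖d‖) := by ring
  have r4 : θ * ‖b‖ * ‖c‖ * ‖d‖ = θ * (‖b‖ * ‖c‖ * ‖d‖) := by ring
  rw [r1] at k1
  rw [r2] at k2
  rw [r3] at k3
  rw [r4]
  have hp : 0 ≤ θ * (‖b‖ * ‖c‖ * ‖d‖) := by positivity
  rw [abs_le]
  constructor <;> linarith [k1.1, k1.2, k2.1, k2.2, k3.1, k3.2]

end Pool.Agent.Bor
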