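import Pool.Agent.P.MP_26ecb7_gt.GoodL0

noncomputable section
open Set Filter Topology MeasureTheory Metric
open scoped RealInnerProductSpace ContDiff ENNReal

namespace Pool.Agent.Bor

theorem goodl_small (A : ℝ) {e η : ℝ} (he : 0 < e) (hη : 0 < η) :
    ∃ r0 > 0, ∀ ρ : ℝ, 0 < ρ → ρ < r0 → A * ρ ^ e ≤ η := by
  have h : ContinuousAt (fun ρ : ℝ => A * ρ ^ e) 0 :=
    continuousAt_const.mul (Real.continuousAt_rpow_const 0 e (Or.inr he.le))
  have h0 : (fun ρ : ℝ => A * ρ ^ e) 0 < η := by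
    simp only [Real.zero_rpow he.ne', mul_zero]
    exact hη
  obtain ⟨r0, hr0, h1⟩ := Metric.eventually_nhds_iff.1 (h.eventually_lt continuousAt_const h0)
  refine ⟨r0, hr0, fun ρ h2 h3 => (h1 ?_).le⟩
  rwa [Real.dist_eq, sub_zero, abs_of_pos h2]

theorem goodl_min {u x y t : ℝ} (hu : 0 ≤ u) (hx : u ≤ x) (hy : u ≤ y) (h0 : 0 ≤ t) (h1 : t ≤ 1) :
    u ≤ x ^ (1 - t) * y ^ t := by
  have e : u = u ^ (1 - t) * u ^ t := by
    rw [← Real.rpow_add_of_nonneg hu (by linarith) h0, sub_add_cancel, Real.rpow_one]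
  rw [e]
  exact mul_le_mul (Real.rpow_le_rpow hu hx (by linarith)) (Real.rpow_le_rpow hu hy h0)
    (Real.rpow_nonneg hu _) (Real.rpow_nonneg (hu.trans hx) _)

theorem goodl_osc {Z Y : Type} [PseudoMetricSpace Z] [PseudoMetricSpace Y] {f : Z → Y}
    {T : Set Z} {x : Z} {c L r ρ : ℝ} (hL : 0 ≤ L) (hc : 0 ≤ c) (hρ : ρ ≤ r)
    (h2 : ∀ y ∈ T ∩ ball x r, dist (f y) (f x) ≤ L * dist y x ^ c) :
    ∀ y ∈ T ∩ ball x ρ, ∀ z ∈ T ∩ ball x ρ, dist (f y) (f z) ≤ 2 * L * ρ ^ c := by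
  have h : ∀ y ∈ T ∩ ball x ρ, dist (f y) (f x) ≤ L * ρ ^ c := fun y hy =>
    (h2 y ⟨hy.1, ball_subset_ball hρ hy.2⟩).trans (mul_le_mul_of_nonneg_left
      (Real.rpow_le_rpow dist_nonneg (mem_ball.1 hy.2).le hc) hL)
  intro y hy z hz
  have := dist_triangle_right (f y) (f z) (f x)
  linarith [h y hy, h z hz]

/-- local Hoelder exponent `b` and pointwise exponent `c` with `b < c (3 b - 1)` -/
theorem good_of_exp {Z Y : Type} [PseudoMetricSpace Z] [PseudoMetricSpace Y] {f : Z → Y}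
    {T : Set Z} {x : Z} {b c L r : ℝ} (hr : 0 < r) (hL : 0 ≤ L) (hb : 1 / 2 < b) (hb1 : b ≤ 1)
    (hc : b < c * (3 * b - 1))
    (h1 : ∀ y ∈ T ∩ ball x r, ∀ z ∈ T ∩ ball x r, dist (f y) (f z) ≤ L * dist y z ^ b)
    (h2 : ∀ y ∈ T ∩ ball x r, dist (f y) (f x) ≤ L * dist y x ^ c) :
    GoodS (fun _ => f) T x := by
  have hb0 : 0 < b := by linarith
  have hc0 : 0 < c := by
    by_contra h
    have : c * (3 * b - 1) ≤ 0 := mul_nonpos_of_nonpos_of_nonneg (not_lt.1 h) (by linarith)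
    linarith
  have hg : ContinuousAt (fun a : ℝ => c * (3 - 2 * (a / b)) + 2 * a - 2) (1 / 2) := by
    fun_prop
  have hg0 : (0 : ℝ) < (fun a : ℝ => c * (3 - 2 * (a / b)) + 2 * a - 2) (1 / 2) := by
    have e : c * (3 - 2 * (1 / 2 / b)) + 2 * (1 / 2) - 2 = (c * (3 * b - 1) - b) / b := by
      field_simp
      ring
    simp only [e]
    exact div_pos (by linarith) hb0
  have hev : ∀ᶠ a in 𝓝[>] (1 / 2 : ℝ),
      (0 < c * (3 - 2 * (a / b)) + 2 * a - 2 ∧ a < b) ∧ 1 / 2 < a :=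
    (((continuousAt_const.eventually_lt hg hg0).and (gt_mem_nhds hb)).filter_mono
      nhdsWithin_le_nhds).and self_mem_nhdsWithin
  obtain ⟨a, ⟨he, hab⟩, ha⟩ := hev.exists
  set t := a / b with ht
  set e := c * (3 - 2 * t) + 2 * a - 2 with he'
  have ht0 : 0 ≤ t := div_nonneg (by linarith) hb0.le
  have ht1 : t ≤ 1 := (div_le_one hb0).2 hab.le
  have hbt : b * t = a := by rw [ht]; field_simp
  set A := 2 * L + 1 with hA
  have hA0 : 0 < A := by linarith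
  refine ⟨a, A, ha, by linarith, fun η hη => ?_⟩
  obtain ⟨r1, hr1, k1⟩ := goodl_small A hc0 hη
  obtain ⟨r2, hr2, k2⟩ := goodl_small (A ^ 3) he hη
  refine ⟨min (min r1 r2) (min r 1), by positivity, fun ρ hρ hlt => ?_⟩
  simp only [lt_min_iff] at hlt
  refine ⟨A * ρ ^ c, A * ρ ^ (c * (1 - t)), by positivity, k1 ρ hρ hlt.1.1, by positivity,
    mul_le_of_le_one_right hA0.le (Real.rpow_le_one hρ.le hlt.2.2.le
      (mul_nonneg hc0.le (by linarith))), ?_, Eventually.of_forall fun _ y hy z hz => ?_⟩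
  · have e1 : ρ ^ c * (ρ ^ (c * (1 - t))) ^ 2 * ρ ^ (2 * a) = ρ ^ e * ρ ^ 2 := by
      rw [← Real.rpow_two, ← Real.rpow_two, ← Real.rpow_mul hρ.le, ← Real.rpow_add hρ,
        ← Real.rpow_add hρ, ← Real.rpow_add hρ]
      congr 1
      rw [he']
      ring
    calc A * ρ ^ c * (A * ρ ^ (c * (1 - t))) ^ 2 * ρ ^ (2 * a)
        = A ^ 3 * (ρ ^ c * (ρ ^ (c * (1 - t))) ^ 2 * ρ ^ (2 * a)) := by ring
      _ = A ^ 3 * ρ ^ e * ρ ^ 2 := by rw [e1, mul_assoc]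
      _ ≤ η * ρ ^ 2 := mul_le_mul_of_nonneg_right (k2 ρ hρ hlt.1.2) (by positivity)
  · have o1 : dist (f y) (f z) ≤ A * ρ ^ c :=
      (goodl_osc hL hc0.le hlt.2.1.le h2 y hy z hz).trans
        (mul_le_mul_of_nonneg_right (by linarith) (by positivity))
    have o2 : dist (f y) (f z) ≤ A * dist y z ^ b :=
      (h1 y ⟨hy.1, ball_subset_ball hlt.2.1.le hy.2⟩ z
        ⟨hz.1, ball_subset_ball hlt.2.1.le hz.2⟩).trans
        (mul_le_mul_of_nonneg_right (by linarith) (by positivity))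
    refine ⟨o1, (goodl_min dist_nonneg o1 o2 ht0 ht1).trans (le_of_eq ?_)⟩
    rw [Real.mul_rpow hA0.le (by positivity), Real.mul_rpow hA0.le (by positivity),
      ← Real.rpow_mul hρ.le, ← Real.rpow_mul dist_nonneg, hbt]
    have e2 : A ^ (1 - t) * A ^ t = A := by
      rw [← Real.rpow_add hA0, sub_add_cancel, Real.rpow_one]
    calc A ^ (1 - t) * ρ ^ (c * (1 - t)) * (A ^ t * dist y z ^ a)
        = A ^ (1 - t) * A ^ t * ρ ^ (c * (1 - t)) * dist y z ^ a := by ring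
      _ = _ := by rw [e2]

/-- local exponent `2/3` and little o at the point -/
theorem good_of_little {Z Y : Type} [PseudoMetricSpace Z] [PseudoMetricSpace Y] {f : Z → Y}
    {T : Set Z} {x : Z} {L r : ℝ} (hr : 0 < r) (hL : 0 ≤ L)
    (h1 : ∀ y ∈ T ∩ ball x r, ∀ z ∈ T ∩ ball x r, dist (f y) (f z) ≤ L * dist y z ^ (2 / 3 : ℝ))
    (h2 : ∀ η > 0, ∃ ρ > 0, ∀ y ∈ T ∩ ball x ρ, dist (f y) (f x) ≤ η * dist y x ^ (2 / 3 : ℝ)) :
    GoodS (fun _ => f) T x := by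
  refine ⟨2 / 3, L, by norm_num, by norm_num, fun η hη => ?_⟩
  have hq : 0 < L ^ 2 + 1 := by positivity
  set θ := η / (2 * (L ^ 2 + 1)) with hθ
  have hθ0 : 0 < θ := by positivity
  have hθ1 : 2 * θ * (L ^ 2 + 1) = η := by rw [hθ]; field_simp
  obtain ⟨r1, hr1, k1⟩ := h2 θ hθ0
  refine ⟨min r1 (min r 1), by positivity, fun ρ hρ hlt => ?_⟩
  simp only [lt_min_iff] at hlt
  have h3 : ρ ^ (2 / 3 : ℝ) ≤ 1 := Real.rpow_le_one hρ.le hlt.2.2.le (by norm_num)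
  have h4 : 0 ≤ ρ ^ (2 / 3 : ℝ) := by positivity
  refine ⟨2 * θ * ρ ^ (2 / 3 : ℝ), L, by positivity, ?_, hL, le_rfl, ?_,
    Eventually.of_forall fun _ y hy z hz => ⟨goodl_osc hθ0.le (by norm_num) hlt.1.le k1 y hy z hz,
      h1 y ⟨hy.1, ball_subset_ball hlt.2.1.le hy.2⟩ z ⟨hz.1, ball_subset_ball hlt.2.1.le hz.2⟩⟩⟩
  · nlinarith [mul_nonneg hθ0.le (sq_nonneg L), mul_le_mul_of_nonneg_left h3 hθ0.le]
  · have e1 : ρ ^ (2 / 3 : ℝ) * ρ ^ (2 * (2 / 3) : ℝ) = ρ ^ 2 := by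
      rw [← Real.rpow_add hρ, ← Real.rpow_two]
      norm_num
    calc 2 * θ * ρ ^ (2 / 3 : ℝ) * L ^ 2 * ρ ^ (2 * (2 / 3) : ℝ)
        = 2 * θ * L ^ 2 * (ρ ^ (2 / 3 : ℝ) * ρ ^ (2 * (2 / 3) : ℝ)) := by ring
      _ ≤ η * ρ ^ 2 := by
        rw [e1]
        exact mul_le_mul_of_nonneg_right (by nlinarith) (by positivity)

end Pool.Agent.Bor
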