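import Pool.Agent.P.MP_26ecb7_gt.IsoB
import Pool.Agent.P.MP_26ecb7_gt.Comm
import Pool.Agent.P.MP_26ecb7_gt.GoodL
import Pool.Agent.P.MP_26ecb7_gt.Bes0

noncomputable section
open Set Filter Topology MeasureTheory Metric
open scoped RealInnerProductSpace ContDiff ENNReal

namespace Pool.Agent.Bor

theorem apprE_ext {X : Surf} (I : Iso X) : ∃ (τ : ℝ) (V : E → E), 0 < τ ∧ τ ≤ 1 / 2 ∧
    X.o ∉ cthickening (3 * τ) X.S ∧ ContDiff ℝ 1 V ∧
    ∀ z ∈ cthickening (3 * τ) X.S, V =ᶠ[𝓝 z] I.V := by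
  have hne : X.S.Nonempty := X.conn.nonempty
  have hd : 0 < infDist X.o X.S := (X.cpt.isClosed.notMem_iff_infDist_pos hne).1 X.o_not
  set d := infDist X.o X.S with hdd
  have hτ : 0 < min (1 / 2 : ℝ) (d / 8) := lt_min (by norm_num) (by positivity)
  set τ := min (1 / 2 : ℝ) (d / 8) with hτd
  have hτ2 : τ ≤ d / 8 := min_le_right _ _
  have far : ∀ z ∈ cthickening (3 * τ) X.S, 2 * τ < dist z X.o := by
    intro z hz
    have h1 : z ∈ thickening (4 * τ) X.S :=
      cthickening_subset_thickening' (by positivity) (by linarith) _ hz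
    obtain ⟨q, hq, hzq⟩ := mem_thickening_iff.1 h1
    have h2 : d ≤ dist X.o q := infDist_le_dist_of_mem hq
    have h3 := dist_triangle X.o z q
    rw [dist_comm X.o z] at h3
    linarith
  let b : ContDiffBump X.o := ⟨τ, 2 * τ, hτ, by linarith⟩
  refine ⟨τ, fun z => (1 - b z) • I.V z, hτ, min_le_left _ _, ?_, ?_, ?_⟩
  · intro h
    have := far _ h
    rw [dist_self] at this
    linarith
  · rw [contDiff_iff_contDiffAt]
    intro z
    by_cases hz : z = X.o
    · have h0 : (fun z => (1 - b z) • I.V z) =ᶠ[𝓝 z] fun _ => (0 : E) := by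
        have : ball X.o τ ∈ 𝓝 z := by rw [hz]; exact ball_mem_nhds _ hτ
        filter_upwards [this] with w hw
        have : b w = 1 := b.one_of_mem_closedBall (ball_subset_closedBall hw)
        simp [this]
      exact contDiffAt_const.congr_of_eventuallyEq h0
    · exact (contDiffAt_const.sub b.contDiff.contDiffAt).smul (I.V_c1 hz)
  · intro z hz
    have ho : IsOpen {w : E | 2 * τ < dist w X.o} :=
      isOpen_lt continuous_const (continuous_id.dist continuous_const)
    filter_upwards [ho.mem_nhds (far z hz)] with w hw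
    have : b w = 0 := b.zero_of_le_dist (le_of_lt hw)
    simp [this]

theorem apprE_bound {X : Surf} {f : E → E} (hf : ∀ q ∈ X.S, ContDiffAt ℝ 1 f q) :
    ∃ B : ℝ, 0 ≤ B ∧ ∀ q ∈ X.S, ‖fderiv ℝ f q‖ ≤ B := by
  have hc : ContinuousOn (fderiv ℝ f) X.S := fun q hq =>
    ((hf q hq).continuousAt_fderiv (by simp)).continuousWithinAt
  obtain ⟨B, hB⟩ := X.cpt.exists_bound_of_continuousOn hc
  exact ⟨max B 0, le_max_right _ _, fun q hq => (hB q hq).trans (le_max_left _ _)⟩

theorem apprE_good {X : Surf} (I : Iso X) {V : E → E} {q : E} (hq : q ∈ X.S)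
    (hV : V =ᶠ[𝓝 q] I.V) (h : GoodS (fun _ => fderiv ℝ I.v) X.S q) :
    GoodS (fun _ => fderiv ℝ V) univ q := by
  have hqo := X.ne_o hq
  obtain ⟨B, hB0, hB⟩ := apprE_bound (X := X) I.c1
  have hs := X.pr_smooth q hqo
  obtain ⟨K1, t1, ht1, hK1⟩ := (hs.of_le (m := 1) (by exact_mod_cast le_top)).exists_lipschitzOnWith
  have hs2 : ContDiffAt ℝ 1 (fderiv ℝ X.pr) q :=
    (hs.fderiv_right (m := ∞) (by simp)).of_le (by exact_mod_cast le_top)
  obtain ⟨K2, t2, ht2, hK2⟩ := hs2.exists_lipschitzOnWith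
  have hall : ∀ᶠ y in 𝓝 q, y ∈ t1 ∧ y ∈ t2 ∧ y ≠ X.o ∧ fderiv ℝ V y = fderiv ℝ I.V y := by
    filter_upwards [ht1, ht2, isOpen_ne.mem_nhds hqo, hV.fderiv (𝕜 := ℝ)] with y h1 h2 h3 h4
    exact ⟨h1, h2, h3, h4⟩
  obtain ⟨ρ, hρ, hb⟩ := Metric.eventually_nhds_iff_ball.1 hall
  have hK10 : (0 : ℝ) ≤ K1 := K1.2
  have hK20 : (0 : ℝ) ≤ K2 := K2.2
  set D := ‖fderiv ℝ X.pr q‖ + K2 * ρ with hD
  have hD0 : 0 ≤ D := by positivity
  have hDb : ∀ y ∈ ball q ρ, ‖fderiv ℝ X.pr y‖ ≤ D := by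
    intro y hy
    have h1 := hK2.dist_le_mul y (hb y hy).2.1 q (hb q (mem_ball_self hρ)).2.1
    rw [dist_eq_norm] at h1
    have h2 : dist y q ≤ ρ := le_of_lt hy
    have h3 := norm_le_insert' (fderiv ℝ X.pr y) (fderiv ℝ X.pr q)
    have h4 : (K2 : ℝ) * dist y q ≤ K2 * ρ := mul_le_mul_of_nonneg_left h2 hK20
    linarith
  refine h.transfer (φ := X.pr) (K := K1 + D + B * K2) (ρ := ρ) (by positivity) hρ (X.pr_self hq)
    (fun y hy => X.pr_mem y (hb y hy.2).2.2.1) (mem_univ _) ?_ (Eventually.of_forall fun n => ?_)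
  · intro y hy z hz
    have h1 := hK1.dist_le_mul y (hb y hy.2).1 z (hb z hz.2).1
    have h2 : 0 ≤ (D + B * K2) * dist y z := by positivity
    nlinarith
  · intro y hy z hz
    obtain ⟨-, y2, y3, y4⟩ := hb y hy.2
    obtain ⟨-, z2, z3, z4⟩ := hb z hz.2
    rw [y4, z4, I.fderiv_V y3, I.fderiv_V z3, dist_eq_norm, dist_eq_norm]
    have e : (fderiv ℝ I.v (X.pr y)).comp (fderiv ℝ X.pr y)
        - (fderiv ℝ I.v (X.pr z)).comp (fderiv ℝ X.pr z)
        = (fderiv ℝ I.v (X.pr y) - fderiv ℝ I.v (X.pr z)).comp (fderiv ℝ X.pr y)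
          + (fderiv ℝ I.v (X.pr z)).comp (fderiv ℝ X.pr y - fderiv ℝ X.pr z) := by
      ext a; simp
    rw [e]
    have h1 := hK2.dist_le_mul y y2 z z2
    rw [dist_eq_norm] at h1
    have h2 := ContinuousLinearMap.opNorm_comp_le (fderiv ℝ I.v (X.pr y) - fderiv ℝ I.v (X.pr z))
      (fderiv ℝ X.pr y)
    have h3 := ContinuousLinearMap.opNorm_comp_le (fderiv ℝ I.v (X.pr z))
      (fderiv ℝ X.pr y - fderiv ℝ X.pr z)
    have h4 := hB _ (X.pr_mem z z3)
    have h5 := hDb y hy.2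
    set u := ‖fderiv ℝ I.v (X.pr y) - fderiv ℝ I.v (X.pr z)‖ with hu
    have hu0 : 0 ≤ u := norm_nonneg _
    have hd0 : 0 ≤ dist y z := dist_nonneg
    have h6 : u * ‖fderiv ℝ X.pr y‖ ≤ u * D := mul_le_mul_of_nonneg_left h5 hu0
    have h7 : ‖fderiv ℝ I.v (X.pr z)‖ * ‖fderiv ℝ X.pr y - fderiv ℝ X.pr z‖
        ≤ B * (K2 * dist y z) := mul_le_mul h4 h1 (norm_nonneg _) hB0
    refine (norm_add_le _ _).trans ?_
    have h8 : 0 ≤ (K1 + B * K2) * u := by positivity
    have h9 : 0 ≤ (K1 + D) * dist y z := by positivity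
    nlinarith

theorem apprE_sec {V : E → E} (hV : Continuous V) {ε : ℝ} (hε : 0 < ε) (q b Y : E) {k : ℝ}
    (h : ∀ z ∈ closedBall q ε, ⟪Y, V (z + b) + V (z - b) - (2 : ℝ) • V z⟫ ≤ k) :
    ⟪Y, mol ε V (q + b) + mol ε V (q - b) - (2 : ℝ) • mol ε V q⟫ ≤ k := by
  have c1 : Continuous fun z => V (z + b) := hV.comp (continuous_id.add continuous_const)
  have c2 : Continuous fun z => V (z + -b) := hV.comp (continuous_id.add continuous_const)
  have c4 : Continuous fun z => V (z + b) + V (z + -b) := c1.add c2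
  have c5 : Continuous fun z => V z + V z := hV.add hV
  have c3 : Continuous fun z => V (z + b) + V (z + -b) - (V z + V z) := c4.sub c5
  have e : mol ε V (q + b) + mol ε V (q - b) - (2 : ℝ) • mol ε V q
      = mol ε (fun z => V (z + b) + V (z + -b) - (V z + V z)) q := by
    rw [mol_sub c4 c5, mol_add c1 c2, mol_add hV hV, ← mol_shift, ← mol_shift,
      two_smul, sub_eq_add_neg q b]
  rw [e, ← innerSL_apply_apply ℝ, mol_clm _ c3]
  refine mol_le hε ((innerSL ℝ Y).continuous.comp c3) fun z hz => ?_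
  have := h z hz
  rw [two_smul, sub_eq_add_neg z b] at this
  exact this

theorem Iso.exists_mo {X : Surf} (I : Iso X) : ∃ (A : Appr I) (ε : ℕ → ℝ) (V : E → E), Mo A ε V := by
  obtain ⟨τ, V, hτ, hτ2, ho, hV, hVe⟩ := apprE_ext I
  have hK3 : IsCompact (cthickening (3 * τ) X.S) := X.cpt.cthickening
  obtain ⟨H, hH0, hH⟩ := I.hol_V hK3 ho
  have hal : 0 < I.al := by linarith [I.al_gt]
  have hDc : Continuous (fderiv ℝ V) := hV.continuous_fderiv (by simp)
  have hD : ∀ z ∈ cthickening (3 * τ) X.S, fderiv ℝ V z = fderiv ℝ I.V z :=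
    fun z hz => (hVe z hz).fderiv_eq
  have hE : ∀ z ∈ cthickening (3 * τ) X.S, V z = I.V z := fun z hz => (hVe z hz).eq_of_nhds
  have hmem : ∀ z ∈ thickening τ X.S, ∀ w, dist w z ≤ 2 * τ → w ∈ cthickening (3 * τ) X.S := by
    intro z hz w hw
    obtain ⟨q, hq, hzq⟩ := mem_thickening_iff.1 hz
    exact mem_cthickening_of_dist_le w q _ _ hq (by linarith [dist_triangle w z q])
  have hS : X.S ⊆ thickening τ X.S := self_subset_thickening hτ _
  have hself : ∀ z ∈ thickening τ X.S, z ∈ cthickening (3 * τ) X.S :=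
    fun z hz => hmem z hz z (by rw [dist_self]; positivity)
  have hne : ∀ z ∈ cthickening (3 * τ) X.S, z ≠ X.o := fun z hz h => ho (h ▸ hz)
  have hc1 : ∀ ε, 0 < ε → ε ≤ τ → ∀ z ∈ thickening τ X.S,
      ‖fderiv ℝ (mol ε V) z - fderiv ℝ I.V z‖ ≤ H * ε ^ I.al := by
    intro ε hε hετ z hz
    rw [fderiv_mol hε hV]
    refine norm_mol_sub hε hDc fun w hw => ?_
    have hw' : dist w z ≤ ε := hw
    have hwK := hmem z hz w (by linarith)
    rw [hD w hwK]
    refine (hH w hwK z (hself z hz)).trans (mul_le_mul_of_nonneg_left ?_ hH0)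
    rw [dist_eq_norm] at hw'
    exact Real.rpow_le_rpow (norm_nonneg _) hw' hal.le
  have hlim : Tendsto (fun ε : ℝ => H * ε ^ I.al) (𝓝[>] 0) (𝓝 0) := by
    have h1 : ContinuousAt (fun ε : ℝ => H * ε ^ I.al) 0 :=
      continuousAt_const.mul (Real.continuousAt_rpow_const 0 I.al (Or.inr hal.le))
    have h2 := h1.tendsto
    rw [Real.zero_rpow hal.ne', mul_zero] at h2
    exact h2.mono_left nhdsWithin_le_nhds
  obtain ⟨B, hB0, hB⟩ := apprE_bound (X := X) (f := I.V) fun q hq => I.V_c1 (X.ne_o hq)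
  have hη : 0 < min (1 : ℝ) (1 / (6 * (2 * B + 1))) := lt_min one_pos (by positivity)
  have hev : ∀ᶠ ε : ℝ in 𝓝[>] 0, H * ε ^ I.al < min (1 : ℝ) (1 / (6 * (2 * B + 1))) :=
    hlim.eventually (gt_mem_nhds hη)
  obtain ⟨e0, he0, he⟩ := (nhdsGT_basis (0 : ℝ)).eventually_iff.1 hev
  have hm : 0 < min τ (e0 / 2) := lt_min hτ (by positivity)
  set m := min τ (e0 / 2) with hmd
  let ε : ℕ → ℝ := fun n => m / ((n : ℝ) + 1)
  have hε0 : ∀ n, 0 < ε n := fun n => by positivity
  have hεm : ∀ n, ε n ≤ m := fun n =>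
    div_le_self hm.le (by linarith [(Nat.cast_nonneg n : (0 : ℝ) ≤ n)])
  have hετ : ∀ n, ε n ≤ τ := fun n => (hεm n).trans (min_le_left _ _)
  have hεe : ∀ n, ε n < e0 := fun n => by linarith [hεm n, min_le_right τ (e0 / 2)]
  have hεt0 : Tendsto ε atTop (𝓝 0) :=
    tendsto_const_nhds.div_atTop (tendsto_atTop_add_const_right _ _ tendsto_natCast_atTop_atTop)
  have hεt : Tendsto ε atTop (𝓝[>] 0) :=
    tendsto_nhdsWithin_iff.2 ⟨hεt0, Eventually.of_forall hε0⟩
  refine ⟨{
    W := fun n => mol (ε n) V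
    tau := τ
    H := H
    tau_pos := hτ
    tau_le := hτ2
    o_not := fun h => ho (cthickening_mono (by linarith) _ h)
    H_nonneg := hH0
    smooth := fun n => mol_smooth (hε0 n) hV.continuous
    c0 := ?_
    c1 := ?_
    c2 := ?_
    hol := ?_
    half := ?_
    good := ?_
    pt := ?_
    sec := ?_ }, ε, V, fun _ => rfl, hε0, hετ, hεt0, hV, ho, hVe⟩
  · rw [Metric.tendstoUniformlyOn_iff]
    intro θ hθ
    have hu := hK3.uniformContinuousOn_of_continuous hV.continuous.continuousOn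
    obtain ⟨δ, hδ, hu⟩ := Metric.uniformContinuousOn_iff.1 hu (θ / 2) (by positivity)
    filter_upwards [hεt0.eventually (gt_mem_nhds hδ)] with n hn z hz
    rw [dist_comm, dist_eq_norm]
    refine lt_of_le_of_lt (norm_mol_sub (k := θ / 2) (hε0 n) hV.continuous fun w hw => ?_)
      (by linarith)
    have hw' : dist w z ≤ ε n := hw
    have := hu w (hmem z hz w (by linarith [hετ n])) z (hself z hz) (by linarith)
    rw [← hE z (hself z hz), ← dist_eq_norm]
    exact this.le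
  · rw [Metric.tendstoUniformlyOn_iff]
    intro θ hθ
    filter_upwards [(hlim.comp hεt).eventually (gt_mem_nhds hθ)] with n hn z hz
    rw [dist_comm, dist_eq_norm]
    exact lt_of_le_of_lt (hc1 _ (hε0 n) (hετ n) z hz) hn
  · intro θ hθ
    have hG : thickening (3 * τ) X.S ⊆ cthickening (3 * τ) X.S := thickening_subset_cthickening _ _
    have hKG : cthickening τ (cthickening τ X.S) ⊆ thickening (3 * τ) X.S :=
      (cthickening_cthickening_subset hτ.le hτ.le _).trans
        (cthickening_subset_thickening' (by positivity) (by linarith) _)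
    have := chr_conv (V := V) (u := X.pr) (G := thickening (3 * τ) X.S) (K := cthickening τ X.S)
      (H := H) (a := I.al) hτ X.cpt.cthickening isOpen_thickening hKG I.al_gt hH0 hV
      (fun z hz => X.pr_smooth z (hne z (hG hz)))
      (fun y hy z hz => by rw [hD y (hG hy), hD z (hG hz)]; exact hH y (hG hy) z (hG hz))
      (fun z hz b c => by rw [hD z (hG hz)]; exact I.inner_V (hne z (hG hz)) b c) θ hθ
    filter_upwards [hεt.eventually this] with n hn z hz a b c
    exact hn z (thickening_subset_cthickening _ _ hz) a b c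
  · intro n y hy z hz
    rw [fderiv_mol (hε0 n) hV]
    refine norm_mol_sub_mol (hε0 n) hDc fun u hu => ?_
    have h1 : y - u ∈ cthickening (3 * τ) X.S :=
      hmem y hy _ (by rw [dist_eq_norm, sub_sub_cancel_left, norm_neg]; linarith [hετ n])
    have h2 : z - u ∈ cthickening (3 * τ) X.S :=
      hmem z hz _ (by rw [dist_eq_norm, sub_sub_cancel_left, norm_neg]; linarith [hετ n])
    have := hH _ h1 _ h2
    rw [sub_sub_sub_cancel_right] at this
    rw [hD _ h1, hD _ h2]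
    exact this
  · intro n q hq
    have h1 := hc1 _ (hε0 n) (hετ n) q (hS hq)
    have h2 := he (show ε n ∈ Ioo 0 e0 from ⟨hε0 n, hεe n⟩)
    have h3 := norm_cof_sub (fderiv ℝ (mol (ε n) V) q) (fderiv ℝ I.V q) (X.nu q)
    rw [← I.N_eq_cof_V hq, X.nu_unit q hq, mul_one] at h3
    have h4 := I.norm_N (X.ne_o hq)
    have h5 := norm_le_insert (cof (fderiv ℝ (mol (ε n) V) q) (X.nu q)) (I.N q)
    have h6 := hB q hq
    have h7 := norm_le_insert' (fderiv ℝ (mol (ε n) V) q) (fderiv ℝ I.V q)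
    set u := ‖fderiv ℝ (mol (ε n) V) q - fderiv ℝ I.V q‖ with hu
    have hu0 : 0 ≤ u := norm_nonneg _
    have hu1 : u ≤ 1 := by linarith [min_le_left (1 : ℝ) (1 / (6 * (2 * B + 1)))]
    have hu2 : u ≤ 1 / (6 * (2 * B + 1)) := by
      linarith [min_le_right (1 : ℝ) (1 / (6 * (2 * B + 1)))]
    rw [le_div_iff₀ (by positivity)] at hu2
    have h8 : 3 * (‖fderiv ℝ (mol (ε n) V) q‖ + ‖fderiv ℝ I.V q‖) * u ≤ 3 * (2 * B + 1) * u :=
      mul_le_mul_of_nonneg_right (by linarith) hu0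
    nlinarith
  · intro q hq hg
    refine (apprE_good I hq (hVe q (hself q (hS hq))) hg).avg one_pos fun δ hδ => ?_
    filter_upwards [hεt0.eventually (gt_mem_nhds hδ)] with n hn y _ z _ k hk
    rw [fderiv_mol (hε0 n) hV, dist_eq_norm]
    refine norm_mol_sub_mol (hε0 n) hDc fun u hu => ?_
    rw [← dist_eq_norm]
    exact hk u (by linarith)
  · intro q hq L hL
    have h1 : HasFDerivAt (fderiv ℝ V) L q :=
      hL.congr_of_eventuallyEq ((hVe q (hself q (hS hq))).fderiv (𝕜 := ℝ))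
    have h2 := (tendsto_fderiv_mol hDc h1).comp hεt
    refine h2.congr fun n => ?_
    simp only [Function.comp_apply, fderiv_mol (hε0 n) hV]
  · intro δ hδ
    filter_upwards [hεt0.eventually (gt_mem_nhds hδ)] with n hn q hq b Y k hb hk
    refine apprE_sec hV.continuous (hε0 n) q b Y fun z hz => ?_
    have hz' : dist z q ≤ ε n := hz
    have h0 : z ∈ cthickening (3 * τ) X.S := hmem q (hS hq) z (by linarith [hετ n])
    have h1 : z + b ∈ cthickening (3 * τ) X.S := hmem q (hS hq) _ (by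
      have := dist_triangle (z + b) z q
      rw [dist_eq_norm (z + b) z, add_sub_cancel_left] at this
      linarith [hετ n])
    have h2 : z - b ∈ cthickening (3 * τ) X.S := hmem q (hS hq) _ (by
      have := dist_triangle (z - b) z q
      rw [dist_eq_norm (z - b) z, sub_sub_cancel_left, norm_neg] at this
      linarith [hετ n])
    rw [hE _ h0, hE _ h1, hE _ h2]
    exact hk z (show dist z q < δ by linarith)

theorem Iso.exists_appr {X : Surf} (I : Iso X) : Nonempty (Appr I) :=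
  ⟨I.exists_mo.choose⟩

end Pool.Agent.Bor
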