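import Pool.Agent.P.MP_26ecb7_gt.Mol0

noncomputable section
open Set Filter Topology MeasureTheory Metric
open scoped RealInnerProductSpace ContDiff ENNReal

namespace Pool.Agent.Bor

variable {Y : Type} [NormedAddCommGroup Y] [NormedSpace ℝ Y] [CompleteSpace Y]

theorem mol_eta_c1 : ContDiff ℝ 1 eta := bump.contDiff_normed (n := 1)

theorem mol_eta_cs : HasCompactSupport eta := bump.hasCompactSupport_normed

theorem mol_eta_int : Integrable (fun u => ‖fderiv ℝ eta u‖) volume :=
  ((mol_eta_c1.continuous_fderiv one_ne_zero).integrable_of_hasCompactSupport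
    (mol_eta_cs.fderiv ℝ)).norm

theorem mol_eta_zero {u : E} (hu : 1 < ‖u‖) : fderiv ℝ eta u = 0 := by
  refine fderiv_of_notMem_tsupport ℝ fun h => ?_
  rw [eta, bump.tsupport_normed_eq, mem_closedBall_zero_iff] at h
  exact hu.not_ge h

omit [CompleteSpace Y] in
theorem mol_one_bound {G : E → Y} (hG : Continuous G) {x : E} {k : ℝ}
    (h : ∀ z ∈ closedBall x 1, ‖G z‖ ≤ k) :
    ‖fderiv ℝ (mol 1 G) x‖ ≤ (∫ u, ‖fderiv ℝ eta u‖) * k := by
  have h1 : mol 1 G = convolution eta G (ContinuousLinearMap.lsmul ℝ ℝ) volume := by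
    funext z
    simp only [mol, one_smul]
    rfl
  rw [h1, (mol_eta_cs.hasFDerivAt_convolution_left (ContinuousLinearMap.lsmul ℝ ℝ) mol_eta_c1
    hG.locallyIntegrable x).fderiv, convolution_def, ← integral_mul_const]
  refine norm_integral_le_of_norm_le (mol_eta_int.mul_const k) (Eventually.of_forall fun u => ?_)
  have hk : 0 ≤ k := (norm_nonneg _).trans (h x (mem_closedBall_self zero_le_one))
  rcases lt_or_ge 1 ‖u‖ with hu | hu
  · rw [mol_eta_zero hu]
    simp
  · refine ContinuousLinearMap.opNorm_le_bound _ (by positivity) fun b => ?_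
    rw [ContinuousLinearMap.precompL_apply, ContinuousLinearMap.lsmul_apply, norm_smul]
    have h2 : ‖G (x - u)‖ ≤ k := h _ (by simpa [mem_closedBall_iff_norm] using hu)
    calc ‖fderiv ℝ eta u b‖ * ‖G (x - u)‖ ≤ ‖fderiv ℝ eta u‖ * ‖b‖ * k :=
          mul_le_mul ((fderiv ℝ eta u).le_opNorm b) h2 (norm_nonneg _) (by positivity)
      _ = _ := by ring

omit [CompleteSpace Y] in
theorem mol_eps_bound {ε : ℝ} (hε : 0 < ε) {G : E → Y} (hG : Continuous G) {x : E} {k : ℝ}
    (h : ∀ z ∈ closedBall x ε, ‖G z‖ ≤ k) :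
    ‖fderiv ℝ (mol ε G) x‖ ≤ (∫ u, ‖fderiv ℝ eta u‖) * k / ε := by
  have h1 : mol ε G = fun z => mol 1 (fun w => G (ε • w)) (ε⁻¹ • z) := by
    funext z
    simp only [mol, one_smul, smul_sub, smul_inv_smul₀ hε.ne']
  have h2 := mol_one_bound (G := fun w => G (ε • w)) (hG.comp (continuous_const_smul ε))
    (x := ε⁻¹ • x) (k := k) fun z hz => h _ (by
      rw [mem_closedBall_iff_norm] at hz ⊢
      have h3 : ε • z - x = ε • (z - ε⁻¹ • x) := by rw [smul_sub, smul_inv_smul₀ hε.ne']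
      rw [h3, norm_smul, Real.norm_of_nonneg hε.le]
      exact mul_le_of_le_one_right hε.le hz)
  rw [h1, fderiv_comp_smul, norm_smul, Real.norm_of_nonneg (inv_nonneg.2 hε.le), div_eq_inv_mul]
  exact mul_le_mul_of_nonneg_left h2 (inv_nonneg.2 hε.le)

/-- gradient bound -/
theorem exists_grad_bound : ∃ c : ℝ, 0 ≤ c ∧ ∀ (Y : Type) [NormedAddCommGroup Y] [NormedSpace ℝ Y]
    [CompleteSpace Y] (ε : ℝ) (H : E → Y) (x : E) (y : Y) (k : ℝ), 0 < ε → Continuous H →
    (∀ z ∈ closedBall x ε, ‖H z - y‖ ≤ k) → ‖fderiv ℝ (mol ε H) x‖ ≤ c * k / ε := by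
  refine ⟨∫ u, ‖fderiv ℝ eta u‖, integral_nonneg fun _ => norm_nonneg _,
    fun Y _ _ _ ε H x y k hε hH h => ?_⟩
  have h1 : mol ε (fun z => H z - y) = fun z => mol ε H z - y := by
    funext z
    rw [mol_sub hH continuous_const, mol_const]
  have h2 := mol_eps_bound hε (G := fun z => H z - y) (hH.sub continuous_const) h
  rwa [h1, fderiv_sub_const] at h2

theorem tendsto_fderiv_mol {H : E → Y} (hH : Continuous H) {x : E} {L : E →L[ℝ] Y}
    (h : HasFDerivAt H L x) :
    Tendsto (fun ε => fderiv ℝ (mol ε H) x) (𝓝[>] 0) (𝓝 L) := by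
  obtain ⟨c, hc, hb⟩ := exists_grad_bound
  have hA : ContDiff ℝ 1 fun z : E => L (z - x) := L.contDiff.comp (contDiff_id.sub contDiff_const)
  have hA' : fderiv ℝ (fun z : E => L (z - x)) = fun _ => L := by
    funext z
    have h1 : HasFDerivAt (fun z : E => L (z - x)) (L.comp (ContinuousLinearMap.id ℝ E)) z :=
      L.hasFDerivAt.comp z ((hasFDerivAt_id z).sub_const x)
    rw [h1.fderiv, ContinuousLinearMap.comp_id]
  have hG : Continuous fun z => H z - L (z - x) := hH.sub hA.continuous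
  have key : ∀ ε, 0 < ε →
      fderiv ℝ (mol ε H) x - L = fderiv ℝ (mol ε fun z => H z - L (z - x)) x := by
    intro ε hε
    have h1 : (mol ε fun z => H z - L (z - x)) = mol ε H - mol ε fun z => L (z - x) := by
      funext z
      exact mol_sub hH hA.continuous z
    rw [h1, fderiv_sub ((mol_smooth hε hH).differentiable (by simp) x)
      ((mol_smooth hε hA.continuous).differentiable (by simp) x), fderiv_mol hε hA, hA', mol_const]
  rw [Metric.tendsto_nhds]
  intro θ hθ
  have hη : 0 < θ / (c + 1) := by positivity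
  obtain ⟨δ, hδ, hd⟩ := Metric.eventually_nhds_iff.1 (h.isLittleO.def hη)
  filter_upwards [Ioo_mem_nhdsGT hδ] with ε hε
  rw [dist_eq_norm, key ε hε.1]
  refine (hb Y ε _ x (H x) (θ / (c + 1) * ε) hε.1 hG fun z hz => ?_).trans_lt ?_
  · have h2 := hd (lt_of_le_of_lt (mem_closedBall.1 hz) hε.2)
    rw [sub_right_comm]
    exact h2.trans (mul_le_mul_of_nonneg_left (mem_closedBall_iff_norm.1 hz) hη.le)
  · rw [← mul_assoc, mul_div_cancel_right₀ _ hε.1.ne', ← mul_div_assoc,
      div_lt_iff₀ (by positivity)]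
    nlinarith

end Pool.Agent.Bor
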