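import Pool.Agent.P.MP_26ecb7_gt.Bes0
import Pool.Agent.P.MP_26ecb7_gt.Mol

noncomputable section
open Set Filter Topology MeasureTheory Metric
open scoped RealInnerProductSpace ContDiff ENNReal NNReal

namespace Pool.Agent.Bor

theorem besa_int {F : E → ℝ} (hF : Continuous F) (ε : ℝ) (x : E) :
    IntegrableOn (fun u => F (x - ε • u)) (closedBall (0 : E) 1) volume :=
  (hF.comp (by fun_prop : Continuous fun u : E => x - ε • u)).continuousOn.integrableOn_compact
    (isCompact_closedBall 0 1)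

theorem besa_mem {ε : ℝ} (hε : 0 < ε) (x : E) {u : E} (hu : u ∈ closedBall (0 : E) 1) :
    x - ε • u ∈ closedBall x ε := by
  rw [mem_closedBall, dist_eq_norm, sub_sub_cancel_left, norm_neg, norm_smul,
    Real.norm_of_nonneg hε.le]
  exact mul_le_of_le_one_right hε.le (mem_closedBall_zero_iff.1 hu)

theorem av_nonneg {ε : ℝ} {F : E → ℝ} (hF : ∀ z, 0 ≤ F z) (x : E) : 0 ≤ av ε F x :=
  integral_nonneg fun _ => hF _

theorem av_mono {ε : ℝ} (hε : 0 < ε) {F G : E → ℝ} (hF : Continuous F) (hG : Continuous G) {x : E}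
    (h : ∀ z ∈ closedBall x ε, F z ≤ G z) : av ε F x ≤ av ε G x :=
  setIntegral_mono_on (besa_int hF ε x) (besa_int hG ε x) measurableSet_closedBall
    fun _ hu => h _ (besa_mem hε x hu)

theorem av_mul (ε t : ℝ) (F : E → ℝ) (x : E) : av ε (fun z => t * F z) x = t * av ε F x :=
  integral_const_mul _ _

theorem av_const (ε t : ℝ) (x : E) :
    av ε (fun _ => t) x = volume.real (closedBall (0 : E) 1) * t := by
  unfold av
  rw [setIntegral_const, smul_eq_mul]

theorem a3_nonneg {Y : Type} [NormedAddCommGroup Y] (H : E → Y) (ε : ℝ) (x : E) : 0 ≤ a3 H ε x :=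
  av_nonneg (fun _ => by positivity) x

theorem continuous_a3 {Y : Type} [NormedAddCommGroup Y] {H : E → Y} (hH : Continuous H) (ε : ℝ) :
    Continuous (a3 H ε) := by
  have h : Continuous (Function.uncurry fun (x u : E) => ‖H (x - ε • u) - H x‖ ^ 3) := by
    unfold Function.uncurry
    fun_prop
  exact continuous_parametric_integral_of_continuous h (isCompact_closedBall 0 1)

/-- change of variables -/
theorem ofReal_av {ε : ℝ} (hε : 0 < ε) {F : E → ℝ} (hF : Continuous F) (h0 : ∀ z, 0 ≤ F z) (x : E) :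
    ENNReal.ofReal (ε ^ 3 * av ε F x) = ∫⁻ z in closedBall x ε, ENNReal.ofReal (F z) := by
  have hi : IntegrableOn F (closedBall x ε) volume :=
    hF.continuousOn.integrableOn_compact (isCompact_closedBall x ε)
  rw [← ofReal_integral_eq_lintegral_ofReal hi (ae_of_all _ h0)]
  congr 1
  set g : E → ℝ := (closedBall x ε).indicator F with hg
  have h1 : ∀ u : E, (closedBall (0 : E) 1).indicator (fun u => F (x - ε • u)) u
      = g (x - ε • u) := by
    intro u
    by_cases hu : u ∈ closedBall (0 : E) 1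
    · rw [indicator_of_mem hu, hg, indicator_of_mem (besa_mem hε x hu)]
    · rw [indicator_of_notMem hu, hg, indicator_of_notMem]
      intro h
      apply hu
      rw [mem_closedBall, dist_eq_norm, sub_sub_cancel_left, norm_neg, norm_smul,
        Real.norm_of_nonneg hε.le] at h
      rw [mem_closedBall_zero_iff]
      exact le_of_mul_le_mul_left (by rwa [mul_one]) hε
  have h2 := Measure.integral_comp_smul (volume : Measure E) (fun t => g (x - t)) ε
  have h3 : ∫ t, g (x - t) = ∫ t, g t := integral_sub_left_eq_self g volume x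
  have h4 : Module.finrank ℝ E = 3 := by simp
  unfold av
  rw [← integral_indicator measurableSet_closedBall, ← integral_indicator measurableSet_closedBall]
  simp only [h1]
  rw [h2, h3, h4, abs_of_pos (by positivity), smul_eq_mul, ← mul_assoc,
    mul_inv_cancel₀ (by positivity), one_mul]

theorem besa_le {Z : Type} [NormedAddCommGroup Z] [NormedSpace ℝ Z] {K : E → Z} {F : E → ℝ}
    (hF : IntegrableOn F (closedBall (0 : E) 1) volume) {c : ℝ}
    (h1 : ∀ u ∈ closedBall (0 : E) 1, ‖K u‖ ≤ c * F u)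
    (h2 : ∀ u, u ∉ closedBall (0 : E) 1 → K u = 0) :
    ‖∫ u, K u‖ ≤ c * ∫ u in closedBall (0 : E) 1, F u := by
  rw [← setIntegral_eq_integral_of_forall_compl_eq_zero h2, ← integral_const_mul]
  refine norm_integral_le_of_norm_le (hF.const_mul c) ?_
  exact (ae_restrict_iff' measurableSet_closedBall).2 (ae_of_all _ h1)

theorem besa_one {c : ℝ} (hc : ∀ u, ‖fderiv ℝ eta u‖ ≤ c) {Y : Type} [NormedAddCommGroup Y]
    [NormedSpace ℝ Y] {G : E → Y} (hG : Continuous G) (x : E) :
    ‖fderiv ℝ (mol 1 G) x‖ ≤ c * av 1 (fun z => ‖G z‖) x := by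
  have h1 : mol 1 G = convolution eta G (ContinuousLinearMap.lsmul ℝ ℝ) volume := by
    funext z
    simp only [mol, one_smul]
    rfl
  rw [h1, (mol_eta_cs.hasFDerivAt_convolution_left (ContinuousLinearMap.lsmul ℝ ℝ) mol_eta_c1
    hG.locallyIntegrable x).fderiv, convolution_def]
  refine besa_le (besa_int hG.norm 1 x) (fun u _ => ?_) fun u hu => ?_
  · have hc0 : 0 ≤ c := (norm_nonneg _).trans (hc u)
    refine ContinuousLinearMap.opNorm_le_bound _ (by positivity) fun b => ?_
    rw [ContinuousLinearMap.precompL_apply, ContinuousLinearMap.lsmul_apply, norm_smul, one_smul]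
    calc ‖fderiv ℝ eta u b‖ * ‖G (x - u)‖ ≤ c * ‖b‖ * ‖G (x - u)‖ :=
          mul_le_mul_of_nonneg_right (((fderiv ℝ eta u).le_opNorm b).trans
            (mul_le_mul_of_nonneg_right (hc u) (norm_nonneg _))) (norm_nonneg _)
      _ = _ := by ring
  · rw [mol_eta_zero (by simpa using hu)]
    simp

theorem besa_eps {c : ℝ} (hc : ∀ u, ‖fderiv ℝ eta u‖ ≤ c) {Y : Type} [NormedAddCommGroup Y]
    [NormedSpace ℝ Y] {ε : ℝ} (hε : 0 < ε) {G : E → Y} (hG : Continuous G) (x : E) :
    ‖fderiv ℝ (mol ε G) x‖ ≤ c * av ε (fun z => ‖G z‖) x / ε := by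
  have h1 : mol ε G = fun z => mol 1 (fun w => G (ε • w)) (ε⁻¹ • z) := by
    funext z
    simp only [mol, one_smul, smul_sub, smul_inv_smul₀ hε.ne']
  have h2 := besa_one hc (G := fun w => G (ε • w)) (hG.comp (continuous_const_smul ε)) (ε⁻¹ • x)
  have h3 : av 1 (fun z => ‖G (ε • z)‖) (ε⁻¹ • x) = av ε (fun z => ‖G z‖) x := by
    simp only [av, one_smul, smul_sub, smul_inv_smul₀ hε.ne']
  rw [h3] at h2
  rw [h1, fderiv_comp_smul, norm_smul, Real.norm_of_nonneg (inv_nonneg.2 hε.le), div_eq_inv_mul]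
  exact mul_le_mul_of_nonneg_left h2 (inv_nonneg.2 hε.le)

/-- averaged bounds for a mollification and its gradient -/
theorem avg_bound : ∃ c : ℝ, 0 ≤ c ∧ ∀ (Y : Type) [NormedAddCommGroup Y] [NormedSpace ℝ Y]
    [CompleteSpace Y] (ε : ℝ) (H : E → Y) (x : E) (y : Y), 0 < ε → Continuous H →
    ‖mol ε H x - y‖ ≤ c * av ε (fun z => ‖H z - y‖) x ∧
      ‖fderiv ℝ (mol ε H) x‖ ≤ c * av ε (fun z => ‖H z - y‖) x / ε := by
  obtain ⟨c1, h1⟩ := mol0_cont.bounded_above_of_compact_support mol0_cs
  obtain ⟨c2, h2⟩ := (mol_eta_c1.continuous_fderiv one_ne_zero).bounded_above_of_compact_support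
    (mol_eta_cs.fderiv ℝ)
  have hc : 0 ≤ max c1 c2 := ((norm_nonneg _).trans (h1 0)).trans (le_max_left _ _)
  refine ⟨max c1 c2, hc, fun Y _ _ _ ε H x y hε hH => ?_⟩
  have hG : Continuous fun z => H z - y := hH.sub continuous_const
  have h3 : mol ε (fun z => H z - y) = fun z => mol ε H z - y := by
    funext z
    rw [mol_sub hH continuous_const, mol_const]
  constructor
  · rw [← congrFun h3 x]
    refine besa_le (besa_int hG.norm ε x) (fun u _ => ?_) fun u hu => ?_
    · rw [norm_smul]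
      exact mul_le_mul_of_nonneg_right ((h1 u).trans (le_max_left _ _)) (norm_nonneg _)
    · have h4 : eta u = 0 := by
        by_contra h
        exact hu (mem_closedBall_zero_iff.2 (mol0_norm_lt h).le)
      rw [h4, zero_smul]
  · have h4 := besa_eps (fun u => (h2 u).trans (le_max_right c1 c2)) hε hG x
    rwa [h3, fderiv_sub_const] at h4

theorem besa_add (ε : ℝ) {F G : E → ℝ} (hF : Continuous F) (hG : Continuous G) (x : E) :
    av ε (fun z => F z + G z) x = av ε F x + av ε G x :=
  integral_add (besa_int hF ε x) (besa_int hG ε x)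

theorem besa_mono (ε : ℝ) {F G : E → ℝ} (hF : Continuous F) (hG : Continuous G) (x : E)
    (h : ∀ z, F z ≤ G z) : av ε F x ≤ av ε G x :=
  integral_mono (besa_int hF ε x) (besa_int hG ε x) fun _ => h _

theorem besa_pow (ε : ℝ) {F : E → ℝ} (x : E) {l : ℝ} (hF : Continuous F) (h0 : ∀ z, 0 ≤ F z)
    (hl : 0 < l) (h : av ε (fun z => F z ^ 3) x ≤ l ^ 3) :
    av ε F x ≤ (volume.real (closedBall (0 : E) 1) + 1) * l ∧
      av ε (fun z => F z ^ 2) x ≤ (volume.real (closedBall (0 : E) 1) + 1) * l ^ 2 := by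
  have key : ∀ (G : E → ℝ) (a b : ℝ), Continuous G → 0 ≤ b → (∀ z, G z ≤ a + b * F z ^ 3) →
      av ε G x ≤ volume.real (closedBall (0 : E) 1) * a + b * l ^ 3 := by
    intro G a b hG hb hz
    have h1 := besa_mono ε hG (G := fun z => a + b * F z ^ 3) (by fun_prop) x hz
    rw [besa_add ε continuous_const (by fun_prop), av_const, av_mul] at h1
    exact h1.trans (add_le_add_right (mul_le_mul_of_nonneg_left h hb) _)
  constructor
  · refine (key F l (l ^ 2)⁻¹ hF (by positivity) fun z => ?_).trans (le_of_eq (by field_simp))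
    have hz := h0 z
    rcases le_total (F z) l with h1 | h1
    · exact h1.trans (le_add_of_nonneg_right (by positivity))
    · have h2 : F z ≤ (l ^ 2)⁻¹ * F z ^ 3 := by
        rw [le_inv_mul_iff₀ (by positivity)]
        calc l ^ 2 * F z ≤ F z ^ 2 * F z :=
              mul_le_mul_of_nonneg_right (pow_le_pow_left₀ hl.le h1 2) hz
          _ = F z ^ 3 := by ring
      linarith
  · refine (key (fun z => F z ^ 2) (l ^ 2) l⁻¹ (by fun_prop) (by positivity) fun z => ?_).trans
      (le_of_eq (by field_simp))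
    have hz := h0 z
    rcases le_total (F z) l with h1 | h1
    · exact (pow_le_pow_left₀ hz h1 2).trans (le_add_of_nonneg_right (by positivity))
    · have h2 : F z ^ 2 ≤ l⁻¹ * F z ^ 3 := by
        rw [le_inv_mul_iff₀ hl]
        calc l * F z ^ 2 ≤ F z * F z ^ 2 := mul_le_mul_of_nonneg_right h1 (by positivity)
          _ = F z ^ 3 := by ring
      have h3 : 0 ≤ l ^ 2 := by positivity
      linarith

/-- lower moments are controlled by the third -/
theorem av_pow : ∃ c : ℝ, 0 ≤ c ∧ ∀ (ε : ℝ) (F : E → ℝ) (x : E) (l : ℝ), Continuous F →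
    (∀ z, 0 ≤ F z) → 0 ≤ l → av ε (fun z => F z ^ 3) x ≤ l ^ 3 →
    av ε F x ≤ c * l ∧ av ε (fun z => F z ^ 2) x ≤ c * l ^ 2 := by
  refine ⟨volume.real (closedBall (0 : E) 1) + 1, by positivity, fun ε F x l hF h0 hl h => ?_⟩
  have h1 : ∀ᶠ t in 𝓝[>] l, av ε F x ≤ (volume.real (closedBall (0 : E) 1) + 1) * t ∧
      av ε (fun z => F z ^ 2) x ≤ (volume.real (closedBall (0 : E) 1) + 1) * t ^ 2 := by
    filter_upwards [self_mem_nhdsWithin] with t ht
    exact besa_pow ε x hF h0 (hl.trans_lt ht) (h.trans (pow_le_pow_left₀ hl (le_of_lt ht) 3))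
  have c1 : Continuous fun t : ℝ => (volume.real (closedBall (0 : E) 1) + 1) * t := by fun_prop
  have c2 : Continuous fun t : ℝ => (volume.real (closedBall (0 : E) 1) + 1) * t ^ 2 := by
    fun_prop
  exact ⟨ge_of_tendsto ((c1.tendsto l).mono_left nhdsWithin_le_nhds) (h1.mono fun _ h => h.1),
    ge_of_tendsto ((c2.tendsto l).mono_left nhdsWithin_le_nhds) (h1.mono fun _ h => h.2)⟩

end Pool.Agent.Bor
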