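import Pool.Agent.P.MP_26ecb7_gt.Mol

noncomputable section
open Set Filter Topology MeasureTheory Metric
open scoped RealInnerProductSpace ContDiff ENNReal

namespace Pool.Agent.Bor

theorem comm0_split (ε : ℝ) {f g : E → E} (hf : Continuous f) (hg : Continuous g) (a b : E) :
    mol ε (fun z => ⟪f z, g z⟫) = fun y => mol ε (fun z => ⟪f z - a, g z - b⟫) y
      + ⟪a, mol ε g y⟫ + ⟪b, mol ε f y⟫ - ⟪a, b⟫ := by
  funext y
  have h1 : ⟪a, mol ε g y⟫ = mol ε (fun z => ⟪a, g z⟫) y := mol_clm (innerSL ℝ a) hg y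
  have h2 : ⟪b, mol ε f y⟫ = mol ε (fun z => ⟪b, f z⟫) y := mol_clm (innerSL ℝ b) hf y
  have c0 : Continuous fun z => ⟪f z - a, g z - b⟫ :=
    (hf.sub continuous_const).inner (hg.sub continuous_const)
  have c1 : Continuous fun z => ⟪a, g z⟫ := continuous_const.inner hg
  have c2 : Continuous fun z => ⟪b, f z⟫ := continuous_const.inner hf
  have c3 : Continuous fun z => ⟪f z - a, g z - b⟫ + ⟪a, g z⟫ := c0.add c1
  have c4 : Continuous fun z => ⟪f z - a, g z - b⟫ + ⟪a, g z⟫ + ⟪b, f z⟫ := c3.add c2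
  rw [h1, h2, ← mol_add c0 c1, ← mol_add c3 c2, ← mol_const (ε := ε) ⟪a, b⟫ y,
    ← mol_sub c4 continuous_const]
  congr 1
  funext z
  rw [inner_sub_left, inner_sub_right, inner_sub_right, real_inner_comm b (f z)]
  ring

/-- commutator estimate for the derivative of a product -/
theorem exists_comm : ∃ c : ℝ, 0 ≤ c ∧ ∀ (ε : ℝ) (f g : E → E) (x : E) (k l : ℝ), 0 < ε →
    Continuous f → Continuous g → (∀ z ∈ closedBall x ε, ‖f z - f x‖ ≤ k) →
    (∀ z ∈ closedBall x ε, ‖g z - g x‖ ≤ l) →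
    ‖fderiv ℝ (fun z => ⟪mol ε f z, mol ε g z⟫) x - fderiv ℝ (mol ε (fun z => ⟪f z, g z⟫)) x‖
      ≤ c * k * l / ε := by
  obtain ⟨c, hc, hb⟩ := exists_grad_bound
  refine ⟨3 * c, by positivity, fun ε f g x k l hε hf hg hk hl => ?_⟩
  have hk0 : 0 ≤ k := (norm_nonneg _).trans (hk x (mem_closedBall_self hε.le))
  have hl0 : 0 ≤ l := (norm_nonneg _).trans (hl x (mem_closedBall_self hε.le))
  have c0 : Continuous fun z => ⟪f z - f x, g z - g x⟫ :=
    (hf.sub continuous_const).inner (hg.sub continuous_const)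
  have dF : DifferentiableAt ℝ (mol ε f) x := (mol_smooth hε hf).differentiable (by simp) x
  have dG : DifferentiableAt ℝ (mol ε g) x := (mol_smooth hε hg).differentiable (by simp) x
  have dH : DifferentiableAt ℝ (mol ε fun z => ⟪f z - f x, g z - g x⟫) x :=
    (mol_smooth hε c0).differentiable (by simp) x
  have bF := hb E ε f x (f x) k hε hf hk
  have bG := hb E ε g x (g x) l hε hg hl
  have bH := hb ℝ ε _ x 0 (k * l) hε c0 fun z hz => by
    rw [sub_zero]
    exact (norm_inner_le_norm _ _).trans (mul_le_mul (hk z hz) (hl z hz) (norm_nonneg _) hk0)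
  have nF := norm_mol_sub hε hf hk
  have nG := norm_mol_sub hε hg hl
  have d1 : HasFDerivAt (fun y => ⟪f x, mol ε g y⟫)
      ((innerSL ℝ (f x)).comp (fderiv ℝ (mol ε g) x)) x :=
    (innerSL ℝ (f x)).hasFDerivAt.comp x dG.hasFDerivAt
  have d2 : HasFDerivAt (fun y => ⟪g x, mol ε f y⟫)
      ((innerSL ℝ (g x)).comp (fderiv ℝ (mol ε f) x)) x :=
    (innerSL ℝ (g x)).hasFDerivAt.comp x dF.hasFDerivAt
  have d3 := (((dH.hasFDerivAt.add d1).add d2).sub_const ⟪f x, g x⟫).fderiv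
  have e3 : fderiv ℝ (mol ε (fun z => ⟪f z, g z⟫)) x =
      fderiv ℝ (mol ε fun z => ⟪f z - f x, g z - g x⟫) x
        + (innerSL ℝ (f x)).comp (fderiv ℝ (mol ε g) x)
        + (innerSL ℝ (g x)).comp (fderiv ℝ (mol ε f) x) := by
    rw [comm0_split ε hf hg (f x) (g x)]
    exact d3
  refine ContinuousLinearMap.opNorm_le_bound _ (by positivity) fun a => ?_
  have e4 : (fderiv ℝ (fun z => ⟪mol ε f z, mol ε g z⟫) x
      - fderiv ℝ (mol ε (fun z => ⟪f z, g z⟫)) x) a =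
      ⟪mol ε f x - f x, fderiv ℝ (mol ε g) x a⟫ + ⟪mol ε g x - g x, fderiv ℝ (mol ε f) x a⟫
        - fderiv ℝ (mol ε fun z => ⟪f z - f x, g z - g x⟫) x a := by
    rw [sub_apply, fderiv_inner_apply ℝ dF dG, e3]
    simp only [add_apply, ContinuousLinearMap.comp_apply, innerSL_apply_apply,
      inner_sub_left]
    rw [real_inner_comm (mol ε g x) (fderiv ℝ (mol ε f) x a)]
    ring
  have a0 := norm_nonneg a
  have t1 : ‖⟪mol ε f x - f x, fderiv ℝ (mol ε g) x a⟫‖ ≤ k * (c * l / ε * ‖a‖) :=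
    (norm_inner_le_norm _ _).trans (mul_le_mul nF
      ((ContinuousLinearMap.le_opNorm _ _).trans (mul_le_mul_of_nonneg_right bG a0))
      (norm_nonneg _) hk0)
  have t2 : ‖⟪mol ε g x - g x, fderiv ℝ (mol ε f) x a⟫‖ ≤ l * (c * k / ε * ‖a‖) :=
    (norm_inner_le_norm _ _).trans (mul_le_mul nG
      ((ContinuousLinearMap.le_opNorm _ _).trans (mul_le_mul_of_nonneg_right bF a0))
      (norm_nonneg _) hl0)
  have t3 : ‖fderiv ℝ (mol ε fun z => ⟪f z - f x, g z - g x⟫) x a‖ ≤ c * (k * l) / ε * ‖a‖ :=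
    (ContinuousLinearMap.le_opNorm _ _).trans (mul_le_mul_of_nonneg_right bH a0)
  rw [e4]
  refine ((norm_sub_le _ _).trans (add_le_add ((norm_add_le _ _).trans (add_le_add t1 t2))
    t3)).trans (le_of_eq ?_)
  ring

theorem comm0_two : (2 : WithTop ℕ∞) ≤ ((⊤ : ℕ∞) : WithTop ℕ∞) := by
  have h : ((2 : ℕ∞) : WithTop ℕ∞) ≤ ((⊤ : ℕ∞) : WithTop ℕ∞) := WithTop.coe_le_coe.2 le_top
  exact h

theorem comm0_d {W : E → E} {z : E} (hW : ContDiffAt ℝ ∞ W z) (a b c : E) :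
    fderiv ℝ (fun y => ⟪fderiv ℝ W y b, fderiv ℝ W y c⟫) z a = chr W z a c b + chr W z a b c := by
  have h1 : DifferentiableAt ℝ (fderiv ℝ W) z :=
    (hW.fderiv_right (m := 1) comm0_two).differentiableAt (by simp)
  have h2 : ∀ v : E, HasFDerivAt (fun y => fderiv ℝ W y v)
      ((ContinuousLinearMap.apply ℝ E v).comp (fderiv ℝ (fderiv ℝ W) z)) z := fun v =>
    (ContinuousLinearMap.apply ℝ E v).hasFDerivAt.comp z h1.hasFDerivAt
  rw [fderiv_inner_apply ℝ (h2 b).differentiableAt (h2 c).differentiableAt, (h2 b).fderiv,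
    (h2 c).fderiv, real_inner_comm]
  rfl

theorem comm0_symm {W : E → E} {z : E} (hW : ContDiffAt ℝ ∞ W z) (a b c : E) :
    chr W z a b c = chr W z b a c := by
  have h : IsSymmSndFDerivAt ℝ W z :=
    hW.isSymmSndFDerivAt (by rw [minSmoothness_of_isRCLikeNormedField]; exact comm0_two)
  rw [chr, chr, h a b]

/-- Koszul formula -/
theorem chr_eq {W : E → E} {z : E} (hW : ContDiffAt ℝ ∞ W z) (a b c : E) :
    2 * chr W z a b c = fderiv ℝ (fun y => ⟪fderiv ℝ W y b, fderiv ℝ W y c⟫) z a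
      + fderiv ℝ (fun y => ⟪fderiv ℝ W y a, fderiv ℝ W y c⟫) z b
      - fderiv ℝ (fun y => ⟪fderiv ℝ W y a, fderiv ℝ W y b⟫) z c := by
  rw [comm0_d hW, comm0_d hW, comm0_d hW, comm0_symm hW b a c, comm0_symm hW c b a,
    comm0_symm hW c a b]
  ring


end Pool.Agent.Bor
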