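import Pool.Agent.P.MP_26ecb7_gt.BesA
import Pool.Agent.P.MP_26ecb7_gt.Comm0

noncomputable section
open Set Filter Topology MeasureTheory Metric
open scoped RealInnerProductSpace ContDiff ENNReal NNReal

namespace Pool.Agent.Bor

theorem besb_av {Y : Type} [NormedAddCommGroup Y] {ε k s : ℝ} (hε : 0 < ε) {H : E → Y} {y : Y}
    {F : E → ℝ} {x : E} (hH : Continuous H) (hF : Continuous F) (hk : 0 ≤ k)
    (h : ∀ z, ‖H z - y‖ ≤ k * F z) (hs : av ε F x ≤ s) :
    av ε (fun z => ‖H z - y‖) x ≤ k * s := by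
  have h1 : av ε (fun z => ‖H z - y‖) x ≤ av ε (fun z => k * F z) x :=
    av_mono hε (hH.sub continuous_const).norm (continuous_const.mul hF) fun z _ => h z
  rw [av_mul] at h1
  exact h1.trans (mul_le_mul_of_nonneg_left hs hk)

/-- averaged commutator estimate -/
theorem comm_avg : ∃ c : ℝ, 0 ≤ c ∧ ∀ (ε : ℝ) (f g : E → E) (x : E) (F : E → ℝ) (k m l : ℝ),
    0 < ε → Continuous f → Continuous g → Continuous F → (∀ z, 0 ≤ F z) → 0 ≤ k → 0 ≤ m → 0 ≤ l →
    (∀ z, ‖f z - f x‖ ≤ k * F z) → (∀ z, ‖g z - g x‖ ≤ m * F z) →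
    av ε (fun z => F z ^ 3) x ≤ l ^ 3 →
    ‖fderiv ℝ (fun z => ⟪mol ε f z, mol ε g z⟫) x - fderiv ℝ (mol ε (fun z => ⟪f z, g z⟫)) x‖
      ≤ c * k * m * l ^ 2 / ε := by
  obtain ⟨c, hc, hb⟩ := avg_bound
  obtain ⟨d, hd, hp⟩ := av_pow
  refine ⟨2 * (c * d) ^ 2 + c * d, by positivity,
    fun ε f g x F k m l hε hf hg hF h0 hk0 hm0 hl0 hk hm h3 => ?_⟩
  obtain ⟨p1, p2⟩ := hp ε F x l hF h0 hl0 h3
  have c0 : Continuous fun z => ⟪f z - f x, g z - g x⟫ :=
    (hf.sub continuous_const).inner (hg.sub continuous_const)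
  have dF : DifferentiableAt ℝ (mol ε f) x := (mol_smooth hε hf).differentiable (by simp) x
  have dG : DifferentiableAt ℝ (mol ε g) x := (mol_smooth hε hg).differentiable (by simp) x
  have dH : DifferentiableAt ℝ (mol ε fun z => ⟪f z - f x, g z - g x⟫) x :=
    (mol_smooth hε c0).differentiable (by simp) x
  have aF := mul_le_mul_of_nonneg_left (besb_av hε hf hF hk0 hk p1) hc
  have aG := mul_le_mul_of_nonneg_left (besb_av hε hg hF hm0 hm p1) hc
  have aH := mul_le_mul_of_nonneg_left (besb_av (y := 0) (k := k * m) (F := fun z => F z ^ 2) hε c0 (hF.pow 2)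
    (by positivity) (fun z => by
      rw [sub_zero]
      refine (norm_inner_le_norm _ _).trans ((mul_le_mul (hk z) (hm z) (norm_nonneg _)
        (mul_nonneg hk0 (h0 z))).trans (le_of_eq ?_))
      ring) p2) hc
  have nF := (hb E ε f x (f x) hε hf).1.trans aF
  have nG := (hb E ε g x (g x) hε hg).1.trans aG
  have bF := (hb E ε f x (f x) hε hf).2.trans (div_le_div_of_nonneg_right aF hε.le)
  have bG := (hb E ε g x (g x) hε hg).2.trans (div_le_div_of_nonneg_right aG hε.le)
  have bH := (hb ℝ ε _ x 0 hε c0).2.trans (div_le_div_of_nonneg_right aH hε.le)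
  have d1 : HasFDerivAt (fun y => ⟪f x, mol ε g y⟫)
      ((innerSL ℝ (f x)).comp (fderiv ℝ (mol ε g) x)) x :=
    (innerSL ℝ (f x)).hasFDerivAt.comp x dG.hasFDerivAt
  have d2 : HasFDerivAt (fun y => ⟪g x, mol ε f y⟫)
      ((innerSL ℝ (g x)).comp (fderiv ℝ (mol ε f) x)) x :=
    (innerSL ℝ (g x)).hasFDerivAt.comp x dF.hasFDerivAt
  have d3 := (((dH.hasFDerivAt.add d1).add d2).sub_const ⟪f x, g x⟫).fderiv
  have e3 : fderiv ℝ (mol ε (fun z => ⟪f z, g z⟫)) x =
      fderiv ℝ (mol ε fun z => ⟪f z - f x, g z - g x⟫) x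
        + (innerSL ℝ (f x)).comp (fderiv ℝ (mol ε g) x)
        + (innerSL ℝ (g x)).comp (fderiv ℝ (mol ε f) x) := by
    rw [comm0_split ε hf hg (f x) (g x)]
    exact d3
  refine ContinuousLinearMap.opNorm_le_bound _ (by positivity) fun a => ?_
  have e4 : (fderiv ℝ (fun z => ⟪mol ε f z, mol ε g z⟫) x
      - fderiv ℝ (mol ε (fun z => ⟪f z, g z⟫)) x) a =
      ⟪mol ε f x - f x, fderiv ℝ (mol ε g) x a⟫ + ⟪mol ε g x - g x, fderiv ℝ (mol ε f) x a⟫
        - fderiv ℝ (mol ε fun z => ⟪f z - f x, g z - g x⟫) x a := by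
    rw [sub_apply, fderiv_inner_apply ℝ dF dG, e3]
    simp only [add_apply, ContinuousLinearMap.comp_apply, innerSL_apply_apply,
      inner_sub_left]
    rw [real_inner_comm (mol ε g x) (fderiv ℝ (mol ε f) x a)]
    ring
  have a0 := norm_nonneg a
  have t1 : ‖⟪mol ε f x - f x, fderiv ℝ (mol ε g) x a⟫‖ ≤
      c * (k * (d * l)) * (c * (m * (d * l)) / ε * ‖a‖) :=
    (norm_inner_le_norm _ _).trans (mul_le_mul nF
      ((ContinuousLinearMap.le_opNorm _ _).trans (mul_le_mul_of_nonneg_right bG a0))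
      (norm_nonneg _) (by positivity))
  have t2 : ‖⟪mol ε g x - g x, fderiv ℝ (mol ε f) x a⟫‖ ≤
      c * (m * (d * l)) * (c * (k * (d * l)) / ε * ‖a‖) :=
    (norm_inner_le_norm _ _).trans (mul_le_mul nG
      ((ContinuousLinearMap.le_opNorm _ _).trans (mul_le_mul_of_nonneg_right bF a0))
      (norm_nonneg _) (by positivity))
  have t3 : ‖fderiv ℝ (mol ε fun z => ⟪f z - f x, g z - g x⟫) x a‖ ≤
      c * (k * m * (d * l ^ 2)) / ε * ‖a‖ :=
    (ContinuousLinearMap.le_opNorm _ _).trans (mul_le_mul_of_nonneg_right bH a0)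
  rw [e4]
  refine ((norm_sub_le _ _).trans (add_le_add ((norm_add_le _ _).trans (add_le_add t1 t2))
    t3)).trans (le_of_eq ?_)
  ring

/-- first order rate for a function that is twice differentiable near a compact set -/
theorem mol_rate {F : Type} [NormedAddCommGroup F] [NormedSpace ℝ F] [CompleteSpace F]
    {Γ : E → F} {G K : Set E} {t : ℝ} (ht : 0 < t) (hK : IsCompact K)
    (hKG : cthickening t K ⊆ G) (hc : Continuous Γ) (hs : ∀ z ∈ G, ContDiffAt ℝ 2 Γ z) :
    ∃ c : ℝ, 0 ≤ c ∧ ∀ ε, 0 < ε → ε ≤ t → ∀ z ∈ K,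
      ‖fderiv ℝ (mol ε Γ) z - fderiv ℝ Γ z‖ ≤ c * ε := by
  obtain ⟨c, hc0, hcb⟩ := exists_grad_bound
  have hK' : IsCompact (cthickening t K) := hK.cthickening
  have hloc : LocallyLipschitzOn (cthickening t K) (fderiv ℝ Γ) := fun y hy => by
    have h1 : ContDiffAt ℝ 1 (fderiv ℝ Γ) y :=
      (hs y (hKG hy)).fderiv_right (m := 1) (by norm_num)
    obtain ⟨M, s, hs1, hs2⟩ := h1.exists_lipschitzOnWith
    exact ⟨M, s, mem_nhdsWithin_of_mem_nhds hs1, hs2⟩
  obtain ⟨M, hM⟩ := hloc.exists_lipschitzOnWith_of_compact hK'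
  refine ⟨c * M, by positivity, fun ε hε0 hεt z hz => ?_⟩
  have hball : closedBall z ε ⊆ cthickening t K :=
    (closedBall_subset_closedBall hεt).trans (closedBall_subset_cthickening hz t)
  set L : E →L[ℝ] F := fderiv ℝ Γ z with hL
  have hA : ∀ w ∈ closedBall z ε, ‖(Γ w - L w) - (Γ z - L z)‖ ≤ M * ε * ε := by
    intro w hw
    have h1 := (convex_closedBall z ε).norm_image_sub_le_of_norm_fderiv_le' (𝕜 := ℝ) (f := Γ)
      (φ := L) (C := M * ε)
      (fun y hy => (hs y (hKG (hball hy))).differentiableAt (by norm_num))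
      (fun y hy => by
        have := hM.dist_le_mul y (hball hy) z (hball (mem_closedBall_self hε0.le))
        rw [dist_eq_norm] at this
        exact this.trans (mul_le_mul_of_nonneg_left (mem_closedBall.1 hy) M.coe_nonneg))
      (mem_closedBall_self hε0.le) hw
    have h2 : (Γ w - L w) - (Γ z - L z) = Γ w - Γ z - L (w - z) := by
      rw [map_sub]; abel
    rw [h2]
    refine h1.trans (mul_le_mul_of_nonneg_left ?_ (by positivity))
    rw [← dist_eq_norm]; exact mem_closedBall.1 hw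
  have hB := hcb F ε (fun w => Γ w - L w) z (Γ z - L z) (M * ε * ε) hε0
    (hc.sub L.continuous) hA
  have hsub : mol ε (fun w => Γ w - L w) = fun x => mol ε Γ x - mol ε (fun w => L w) x := by
    funext x
    exact mol_sub hc L.continuous x
  have hd1 : DifferentiableAt ℝ (mol ε Γ) z :=
    ((mol_smooth hε0 hc).differentiable (by simp)).differentiableAt
  have hd2 : DifferentiableAt ℝ (mol ε (fun w => L w)) z :=
    ((mol_smooth hε0 L.continuous).differentiable (by simp)).differentiableAt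
  have hL2 : fderiv ℝ (mol ε (fun w => L w)) z = L := by
    have h3 : fderiv ℝ (fun w => L w) = fun _ => L := by
      funext w
      exact L.fderiv
    rw [fderiv_mol hε0 (H := fun w => L w) L.contDiff, h3, mol_const]
  rw [hsub, fderiv_fun_sub hd1 hd2, hL2] at hB
  refine hB.trans (le_of_eq ?_)
  field_simp

end Pool.Agent.Bor
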