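import Pool.Agent.P.MP_26ecb7_gt.BesB
import Pool.Agent.P.MP_26ecb7_gt.Comm

noncomputable section
open Set Filter Topology MeasureTheory Metric
open scoped RealInnerProductSpace ContDiff ENNReal NNReal

namespace Pool.Agent.Bor

theorem besc_key {V u : E → E} {G K : Set E} {t : ℝ} (ht : 0 < t) (hK : IsCompact K)
    (hG : IsOpen G) (hKG : cthickening t K ⊆ G)
    (hV : ContDiff ℝ 1 V) (hu : ∀ z ∈ G, ContDiffAt ℝ ∞ u z)
    (iso : ∀ z ∈ G, ∀ b c, ⟪fderiv ℝ V z b, fderiv ℝ V z c⟫ = ⟪fderiv ℝ u z b, fderiv ℝ u z c⟫) :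
    ∃ C : ℝ, 0 ≤ C ∧ ∀ ε, 0 < ε → ε ≤ t → ∀ z ∈ K, ∀ l : ℝ, 0 ≤ l →
      a3 (fderiv ℝ V) ε z ≤ l ^ 3 → ∀ b c d,
      |fderiv ℝ (fun y => ⟪fderiv ℝ (mol ε V) y b, fderiv ℝ (mol ε V) y c⟫) z d
        - fderiv ℝ (fun y => ⟪fderiv ℝ u y b, fderiv ℝ u y c⟫) z d|
        ≤ C * (l ^ 2 / ε + ε) * ‖b‖ * ‖c‖ * ‖d‖ := by
  obtain ⟨c0, hc0, hcb⟩ := comm_avg
  have hDV : Continuous (fderiv ℝ V) := hV.continuous_fderiv one_ne_zero
  have hΓc : Continuous (comm_gam V) := by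
    rw [continuous_iff_continuousAt]
    intro z
    have h0 : ContDiffAt ℝ 0 (fderiv ℝ V) z := (contDiff_zero.2 hDV).contDiffAt
    exact (comm_gam_cd h0).continuousAt
  have hΓe : ∀ z ∈ G, comm_gam V =ᶠ[𝓝 z] comm_gam u := by
    intro z hz
    filter_upwards [hG.mem_nhds hz] with y hy
    funext p
    exact iso y hy _ _
  have hΓs : ∀ z ∈ G, ContDiffAt ℝ 2 (comm_gam V) z := by
    intro z hz
    have h1 : ContDiffAt ℝ 2 (fderiv ℝ u) z :=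
      ((hu z hz).fderiv_right (m := ∞) (by simp)).of_le comm0_two
    exact (comm_gam_cd h1).congr_of_eventuallyEq (hΓe z hz)
  obtain ⟨c1, hc1, hU⟩ := mol_rate ht hK hKG hΓc hΓs
  refine ⟨c0 + 9 * c1, by positivity, fun ε hε0 hεt z hz l hl ha b c d => ?_⟩
  have hzG : z ∈ G := hKG (self_subset_cthickening K hz)
  have hcf : ∀ b : E, Continuous (fun w => fderiv ℝ V w b) := fun b =>
    hDV.clm_apply continuous_const
  have hD : ∀ b y : E, fderiv ℝ (mol ε V) y b = mol ε (fun w => fderiv ℝ V w b) y := by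
    intro b y
    rw [fderiv_mol hε0 hV]
    exact mol_clm (ContinuousLinearMap.apply ℝ E b) hDV y
  have hbd : ∀ b w : E,
      ‖fderiv ℝ V w b - fderiv ℝ V z b‖ ≤ ‖b‖ * ‖fderiv ℝ V w - fderiv ℝ V z‖ := by
    intro b w
    rw [← sub_apply, mul_comm]
    exact ContinuousLinearMap.le_opNorm _ _
  have h1 := hcb ε (fun w => fderiv ℝ V w b) (fun w => fderiv ℝ V w c) z
    (fun w => ‖fderiv ℝ V w - fderiv ℝ V z‖) _ _ l hε0 (hcf b) (hcf c)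
    (hDV.sub continuous_const).norm (fun _ => norm_nonneg _) (norm_nonneg b) (norm_nonneg c) hl
    (hbd b) (hbd c) ha
  have h2 : mol ε (fun w => ⟪fderiv ℝ V w b, fderiv ℝ V w c⟫)
      = fun y => comm_ev b c (mol ε (comm_gam V) y) := by
    funext y
    have h3 := mol_clm (ε := ε) (comm_ev b c) hΓc y
    simp only [comm_gam_apply] at h3
    exact h3.symm
  have hdm : DifferentiableAt ℝ (mol ε (comm_gam V)) z :=
    ((mol_smooth hε0 hΓc).differentiable (by simp)).differentiableAt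
  have h4 : fderiv ℝ (mol ε (fun w => ⟪fderiv ℝ V w b, fderiv ℝ V w c⟫)) z d
      = comm_ev b c (fderiv ℝ (mol ε (comm_gam V)) z d) := by
    rw [h2]; exact comm_fd_apply hdm b c d
  have h5 : fderiv ℝ (fun y => ⟪fderiv ℝ u y b, fderiv ℝ u y c⟫) z d
      = comm_ev b c (fderiv ℝ (comm_gam V) z d) := by
    rw [← comm_fd_apply ((hΓs z hzG).differentiableAt two_ne_zero) b c d]
    have h6 : (fun y => ⟪fderiv ℝ u y b, fderiv ℝ u y c⟫)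
        =ᶠ[𝓝 z] fun y => comm_ev b c (comm_gam V y) := by
      filter_upwards [hG.mem_nhds hzG] with y hy
      rw [comm_gam_apply, iso y hy]
    rw [h6.fderiv_eq]
  have h7 : (fun y => ⟪fderiv ℝ (mol ε V) y b, fderiv ℝ (mol ε V) y c⟫)
      = fun y => ⟪mol ε (fun w => fderiv ℝ V w b) y, mol ε (fun w => fderiv ℝ V w c) y⟫ := by
    funext y
    rw [hD, hD]
  rw [h7, h5]
  set X := fderiv ℝ (fun y => ⟪mol ε (fun w => fderiv ℝ V w b) y,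
    mol ε (fun w => fderiv ℝ V w c) y⟫) z with hX
  set Y := fderiv ℝ (mol ε (fun w => ⟪fderiv ℝ V w b, fderiv ℝ V w c⟫)) z with hY
  have hq : 0 ≤ l ^ 2 / ε := by positivity
  have h8 : |X d - Y d| ≤ c0 * (l ^ 2 / ε + ε) * ‖b‖ * ‖c‖ * ‖d‖ := by
    rw [← sub_apply, ← Real.norm_eq_abs]
    refine (ContinuousLinearMap.le_opNorm _ _).trans (mul_le_mul_of_nonneg_right ?_ (norm_nonneg _))
    refine h1.trans ?_
    calc c0 * ‖b‖ * ‖c‖ * l ^ 2 / ε = c0 * (l ^ 2 / ε) * ‖b‖ * ‖c‖ := by ring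
      _ ≤ c0 * (l ^ 2 / ε + ε) * ‖b‖ * ‖c‖ := by gcongr; linarith
  have h9 : |Y d - comm_ev b c (fderiv ℝ (comm_gam V) z d)|
      ≤ 9 * c1 * (l ^ 2 / ε + ε) * ‖b‖ * ‖c‖ * ‖d‖ := by
    rw [h4, ← map_sub, ← sub_apply]
    set T := fderiv ℝ (mol ε (comm_gam V)) z - fderiv ℝ (comm_gam V) z with hT
    have h12 : ‖T d‖ ≤ c1 * ε * ‖d‖ :=
      (T.le_opNorm d).trans (mul_le_mul_of_nonneg_right (hU ε hε0 hεt z hz) (norm_nonneg _))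
    calc |comm_ev b c (T d)| ≤ 9 * ‖T d‖ * ‖b‖ * ‖c‖ := comm_ev_le b c _
      _ ≤ 9 * (c1 * ε * ‖d‖) * ‖b‖ * ‖c‖ := by gcongr
      _ ≤ 9 * (c1 * (l ^ 2 / ε + ε) * ‖d‖) * ‖b‖ * ‖c‖ := by gcongr; linarith
      _ = 9 * c1 * (l ^ 2 / ε + ε) * ‖b‖ * ‖c‖ * ‖d‖ := by ring
  calc |X d - comm_ev b c (fderiv ℝ (comm_gam V) z d)|
      ≤ |X d - Y d| + |Y d - comm_ev b c (fderiv ℝ (comm_gam V) z d)| := abs_sub_le _ _ _
    _ ≤ c0 * (l ^ 2 / ε + ε) * ‖b‖ * ‖c‖ * ‖d‖ + 9 * c1 * (l ^ 2 / ε + ε) * ‖b‖ * ‖c‖ * ‖d‖ :=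
        add_le_add h8 h9
    _ = (c0 + 9 * c1) * (l ^ 2 / ε + ε) * ‖b‖ * ‖c‖ * ‖d‖ := by ring

/-- rate of convergence of the Christoffel expressions in terms of the third moment -/
theorem chr_rate {V u : E → E} {G K : Set E} {t : ℝ} (ht : 0 < t) (hK : IsCompact K)
    (hG : IsOpen G) (hKG : cthickening t K ⊆ G)
    (hV : ContDiff ℝ 1 V) (hu : ∀ z ∈ G, ContDiffAt ℝ ∞ u z)
    (iso : ∀ z ∈ G, ∀ b c, ⟪fderiv ℝ V z b, fderiv ℝ V z c⟫ = ⟪fderiv ℝ u z b, fderiv ℝ u z c⟫) :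
    ∃ C : ℝ, 0 ≤ C ∧ ∀ ε, 0 < ε → ε ≤ t → ∀ z ∈ K, ∀ l : ℝ, 0 ≤ l →
      a3 (fderiv ℝ V) ε z ≤ l ^ 3 → ∀ b c d,
        |chr (mol ε V) z b c d - chr u z b c d| ≤ C * (l ^ 2 / ε + ε) * ‖b‖ * ‖c‖ * ‖d‖ := by
  obtain ⟨C, hC, hk⟩ := besc_key ht hK hG hKG hV hu iso
  refine ⟨2 * C, by positivity, fun ε hε0 hεt z hz l hl ha b c d => ?_⟩
  have hzG : z ∈ G := hKG (self_subset_cthickening K hz)
  have e1 := chr_eq ((mol_smooth hε0 hV.continuous).contDiffAt (x := z)) b c d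
  have e2 := chr_eq (hu z hzG) b c d
  have k1 := abs_le.1 (hk ε hε0 hεt z hz l hl ha c d b)
  have k2 := abs_le.1 (hk ε hε0 hεt z hz l hl ha b d c)
  have k3 := abs_le.1 (hk ε hε0 hεt z hz l hl ha b c d)
  have hθ : 0 ≤ C * (l ^ 2 / ε + ε) := by positivity
  rw [mul_assoc 2 C]
  generalize C * (l ^ 2 / ε + ε) = θ at k1 k2 k3 hθ
  have r1 : θ * ‖c‖ * ‖d‖ * ‖b‖ = θ * (‖b‖ * ‖c‖ * ‖d‖) := by ring
  have r2 : θ * ‖b‖ * ‖d‖ * ‖c‖ = θ * (‖b‖ * ‖c‖ * ‖d‖) := by ring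
  have r3 : θ * ‖b‖ * ‖c‖ * ‖d‖ = θ * (‖b‖ * ‖c‖ * ‖d‖) := by ring
  have r4 : 2 * θ * ‖b‖ * ‖c‖ * ‖d‖ = 2 * (θ * (‖b‖ * ‖c‖ * ‖d‖)) := by ring
  rw [r1] at k1
  rw [r2] at k2
  rw [r3] at k3
  rw [r4]
  have hp : 0 ≤ θ * (‖b‖ * ‖c‖ * ‖d‖) := by positivity
  rw [abs_le]
  constructor <;> linarith [k1.1, k1.2, k2.1, k2.2, k3.1, k3.2]

end Pool.Agent.Bor
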