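import Pool.Agent.P.MP_26ecb7_gt.CConv

noncomputable section
open Set Filter Topology MeasureTheory Metric
open scoped RealInnerProductSpace ContDiff ENNReal NNReal

namespace Pool.Agent.Bor

section
variable {Y Y' Z : Type} [NormedAddCommGroup Y] [NormedAddCommGroup Y'] [NormedAddCommGroup Z]
  {K : Set P} {H : ℕ → P → ℝ → Prop}

/-- uniformly bounded -/
def besdB (K : Set P) (f : ℕ → P → Y) (g : P → Y) : Prop :=
  ∃ C : ℝ, 0 ≤ C ∧ ∀ᶠ n in atTop, ∀ x ∈ K, ‖f n x‖ ≤ C ∧ ‖g x‖ ≤ C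

/-- close with a linear rate -/
def besdR (K : Set P) (H : ℕ → P → ℝ → Prop) (f : ℕ → P → Y) (g : P → Y) : Prop :=
  ∃ C : ℝ, 0 ≤ C ∧ ∀ᶠ n in atTop, ∀ x ∈ K, ∀ s : ℝ, 0 ≤ s → H n x s → ‖f n x - g x‖ ≤ C * s

theorem besd_of {f : ℕ → P → Y} {g : P → Y} (hK : IsCompact K)
    (hu : TendstoUniformlyOn f g atTop K) (hc : ContinuousOn g K) : besdB K f g := by
  obtain ⟨B, hB⟩ := hK.exists_bound_of_continuousOn hc
  refine ⟨|B| + 1, by positivity, ?_⟩
  filter_upwards [Metric.tendstoUniformlyOn_iff.1 hu 1 one_pos] with n hn x hx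
  have h1 := hn x hx
  rw [dist_eq_norm'] at h1
  have h2 := norm_sub_norm_le (f n x) (g x)
  have h3 := hB x hx
  have h4 := le_abs_self B
  constructor <;> linarith

theorem besd_add {f f' : ℕ → P → Y} {g g' : P → Y} (h : besdR K H f g) (h' : besdR K H f' g') :
    besdR K H (fun n x => f n x + f' n x) (fun x => g x + g' x) := by
  obtain ⟨C, hC, h⟩ := h
  obtain ⟨C', hC', h'⟩ := h'
  refine ⟨C + C', by positivity, ?_⟩
  filter_upwards [h, h'] with n h h' x hx s hs hH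
  rw [add_sub_add_comm, add_mul]
  exact (norm_add_le _ _).trans (add_le_add (h x hx s hs hH) (h' x hx s hs hH))

theorem besd_sub {f f' : ℕ → P → Y} {g g' : P → Y} (h : besdR K H f g) (h' : besdR K H f' g') :
    besdR K H (fun n x => f n x - f' n x) (fun x => g x - g' x) := by
  obtain ⟨C, hC, h⟩ := h
  obtain ⟨C', hC', h'⟩ := h'
  refine ⟨C + C', by positivity, ?_⟩
  filter_upwards [h, h'] with n h h' x hx s hs hH
  rw [sub_sub_sub_comm, add_mul]
  exact (norm_sub_le _ _).trans (add_le_add (h x hx s hs hH) (h' x hx s hs hH))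

theorem besd_bil (m : Y → Y' → Z)
    (hm : ∀ a b c d, ‖m a b - m c d‖ ≤ ‖a - c‖ * ‖b‖ + ‖c‖ * ‖b - d‖)
    {f : ℕ → P → Y} {f' : ℕ → P → Y'} {g : P → Y} {g' : P → Y'} (b : besdB K f g)
    (b' : besdB K f' g') (h : besdR K H f g) (h' : besdR K H f' g') :
    besdR K H (fun n x => m (f n x) (f' n x)) (fun x => m (g x) (g' x)) := by
  obtain ⟨C, hC, h⟩ := h
  obtain ⟨C', hC', h'⟩ := h'
  obtain ⟨B, hB, b⟩ := b
  obtain ⟨B', hB', b'⟩ := b'
  refine ⟨C * B' + B * C', by positivity, ?_⟩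
  filter_upwards [h, h', b, b'] with n h h' b b' x hx s hs hH
  have h1 := mul_le_mul (h x hx s hs hH) (b' x hx).1 (norm_nonneg _) (by positivity)
  have h2 := mul_le_mul (b x hx).2 (h' x hx s hs hH) (norm_nonneg _) hB
  refine (hm _ _ _ _).trans ((add_le_add h1 h2).trans (le_of_eq ?_))
  ring

theorem besd_norm {f : ℕ → P → Y} {g : P → Y} (h : besdR K H f g) :
    besdR K H (fun n x => ‖f n x‖) (fun x => ‖g x‖) := by
  obtain ⟨C, hC, h⟩ := h
  refine ⟨C, hC, ?_⟩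
  filter_upwards [h] with n h x hx s hs hH
  exact (abs_norm_sub_norm_le _ _).trans (h x hx s hs hH)

theorem besd_inv {f : ℕ → P → ℝ} {g : P → ℝ} (h : besdR K H f g)
    (b : besdB K (fun n x => (f n x)⁻¹) (fun x => (g x)⁻¹)) (hf : ∀ n x, f n x ≠ 0)
    (hg : ∀ x, g x ≠ 0) : besdR K H (fun n x => (f n x)⁻¹) (fun x => (g x)⁻¹) := by
  obtain ⟨C, hC, h⟩ := h
  obtain ⟨B, hB, b⟩ := b
  refine ⟨C * B * B, by positivity, ?_⟩
  filter_upwards [h, b] with n h b x hx s hs hH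
  have e : (f n x)⁻¹ - (g x)⁻¹ = -((f n x - g x) * (f n x)⁻¹ * (g x)⁻¹) := by
    have h1 := hf n x
    have h2 := hg x
    field_simp
    ring
  rw [e, norm_neg, norm_mul, norm_mul]
  have h1 := mul_le_mul (mul_le_mul (h x hx s hs hH) (b x hx).1 (norm_nonneg _) (by positivity))
    (b x hx).2 (norm_nonneg _) (by positivity)
  refine h1.trans (le_of_eq ?_)
  ring

theorem besd_mul_le (a b c d : ℝ) : ‖a * b - c * d‖ ≤ ‖a - c‖ * ‖b‖ + ‖c‖ * ‖b - d‖ := by
  rw [← norm_mul, ← norm_mul]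
  refine le_trans (le_of_eq ?_) (norm_add_le _ _)
  congr 1
  ring

theorem besd_inner_le (a b c d : E) :
    ‖⟪a, b⟫ - ⟪c, d⟫‖ ≤ ‖a - c‖ * ‖b‖ + ‖c‖ * ‖b - d‖ := by
  have e : ⟪a, b⟫ - ⟪c, d⟫ = ⟪a - c, b⟫ + ⟪c, b - d⟫ := by
    rw [inner_sub_left, inner_sub_right]
    ring
  rw [e]
  exact (norm_add_le _ _).trans (add_le_add (norm_inner_le_norm _ _) (norm_inner_le_norm _ _))

end

section
variable {X : Surf} {I : Iso X} (A : Appr I) (R : Rot) {K : Set P} (hK : IsCompact K)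

/-- the two hypotheses at a point -/
def besdH (n : ℕ) (x : P) (s : ℝ) : Prop :=
  (∀ a b c, |chr (A.W n) (X.psi R x) a b c - chr X.pr (X.psi R x) a b c|
    ≤ s * ‖a‖ * ‖b‖ * ‖c‖) ∧ ‖fderiv ℝ (A.W n) (X.psi R x) - fderiv ℝ I.V (X.psi R x)‖ ≤ s

include hK

theorem besd_appB {a : P → E} (ha : Continuous a) :
    besdB K (fun n x => fderiv ℝ (A.W n) (X.psi R x) (a x))
      (fun x => fderiv ℝ I.V (X.psi R x) (a x)) :=
  besd_of hK (A.cconv_app R hK ha) (cconv_cont I R ha).continuousOn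

theorem besd_app {a : P → E} (ha : Continuous a) :
    besdR K (besdH A R) (fun n x => fderiv ℝ (A.W n) (X.psi R x) (a x))
      (fun x => fderiv ℝ I.V (X.psi R x) (a x)) := by
  obtain ⟨B, hB⟩ := hK.exists_bound_of_continuousOn ha.continuousOn
  refine ⟨|B|, abs_nonneg _, Eventually.of_forall fun n x hx s hs hH => ?_⟩
  have h2 := (fderiv ℝ (A.W n) (X.psi R x) - fderiv ℝ I.V (X.psi R x)).le_opNorm (a x)
  rw [sub_apply] at h2
  rw [mul_comm]
  exact h2.trans (mul_le_mul hH.2 ((hB x hx).trans (le_abs_self B)) (norm_nonneg _) hs)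

theorem besd_chr {a b c : P → E} (ha : Continuous a) (hb : Continuous b) (hc : Continuous c) :
    besdR K (besdH A R) (fun n x => chr (A.W n) (X.psi R x) (a x) (b x) (c x))
      (fun x => chr X.pr (X.psi R x) (a x) (b x) (c x)) := by
  obtain ⟨B, hB⟩ := hK.exists_bound_of_continuousOn
    ((ha.norm.mul hb.norm).mul hc.norm).continuousOn
  refine ⟨|B|, abs_nonneg _, Eventually.of_forall fun n x hx s hs hH => ?_⟩
  have h3 : ‖a x‖ * ‖b x‖ * ‖c x‖ ≤ |B| := ((le_abs_self _).trans (hB x hx)).trans (le_abs_self B)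
  refine (hH.1 (a x) (b x) (c x)).trans ?_
  calc s * ‖a x‖ * ‖b x‖ * ‖c x‖ = ‖a x‖ * ‖b x‖ * ‖c x‖ * s := by ring
    _ ≤ |B| * s := mul_le_mul_of_nonneg_right h3 hs

theorem besd_gm (i j : Fin 2) :
    besdR K (besdH A R) (fun n => gm (A.w R n) i j) (gm (X.psi R) i j) := by
  have c1 : ∀ i : Fin 2, Continuous (pd i (X.psi R)) := fun i =>
    (contDiff_pd (X.sm_psi R) i).continuous
  have e1 : (fun n => gm (A.w R n) i j) = fun n x =>
      ⟪fderiv ℝ (A.W n) (X.psi R x) (pd i (X.psi R) x),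
        fderiv ℝ (A.W n) (X.psi R x) (pd j (X.psi R) x)⟫ := by
    funext n x
    rw [gm, A.pd_w, A.pd_w]
  have e2 : gm (X.psi R) i j = fun x => ⟪fderiv ℝ I.V (X.psi R x) (pd i (X.psi R) x),
      fderiv ℝ I.V (X.psi R x) (pd j (X.psi R) x)⟫ := by
    funext x
    rw [← I.gm_w, gm, I.pd_w, I.pd_w]
  rw [e1, e2]
  exact besd_bil (fun a b : E => ⟪a, b⟫) besd_inner_le (besd_appB A R hK (c1 i))
    (besd_appB A R hK (c1 j)) (besd_app A R hK (c1 i)) (besd_app A R hK (c1 j))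

theorem besd_sq : besdR K (besdH A R) (fun n => sq (A.w R n)) (sq (X.psi R)) := by
  have c1 : ∀ i : Fin 2, Continuous (pd i (X.psi R)) := fun i =>
    (contDiff_pd (X.sm_psi R) i).continuous
  have e1 : (fun n => sq (A.w R n)) = fun n x =>
      ‖cr (fderiv ℝ (A.W n) (X.psi R x) (pd 0 (X.psi R) x))
        (fderiv ℝ (A.W n) (X.psi R x) (pd 1 (X.psi R) x))‖ := by
    funext n x
    rw [sq, nv, A.pd_w, A.pd_w]
  have e2 : sq (X.psi R) = fun x => ‖cr (fderiv ℝ I.V (X.psi R x) (pd 0 (X.psi R) x))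
      (fderiv ℝ I.V (X.psi R x) (pd 1 (X.psi R) x))‖ := by
    funext x
    have h := I.nv_w R x
    rw [nv, I.pd_w, I.pd_w] at h
    rw [h, norm_smul, I.norm_n, mul_one, Real.norm_of_nonneg ((X.imm_psi R).sq_pos x).le]
  rw [e1, e2]
  exact besd_norm (besd_bil cr norm_cr_sub (besd_appB A R hK (c1 0))
    (besd_appB A R hK (c1 1)) (besd_app A R hK (c1 0)) (besd_app A R hK (c1 1)))

theorem besd_ch (i j k : Fin 2) :
    besdR K (besdH A R) (fun n => ch (A.w R n) i j k) (ch (X.psi R) i j k) := by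
  have c1 : ∀ i : Fin 2, Continuous (pd i (X.psi R)) := fun i =>
    (contDiff_pd (X.sm_psi R) i).continuous
  have c2 : Continuous (pd i (pd j (X.psi R))) :=
    (contDiff_pd (contDiff_pd (X.sm_psi R) j) i).continuous
  have e1 : (fun n => ch (A.w R n) i j k) = fun n x =>
      chr (A.W n) (X.psi R x) (pd i (X.psi R) x) (pd j (X.psi R) x) (pd k (X.psi R) x) +
        ⟪fderiv ℝ (A.W n) (X.psi R x) (pd i (pd j (X.psi R)) x),
          fderiv ℝ (A.W n) (X.psi R x) (pd k (X.psi R) x)⟫ := by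
    funext n x
    rw [ch, A.pd_pd_w, A.pd_w, inner_add_left, chr]
  have e2 := funext (cconv_ch_psi I R i j k)
  rw [e1, e2]
  exact besd_add (besd_chr A R hK (c1 i) (c1 j) (c1 k))
    (besd_bil (fun a b : E => ⟪a, b⟫) besd_inner_le (besd_appB A R hK c2)
      (besd_appB A R hK (c1 k)) (besd_app A R hK c2) (besd_app A R hK (c1 k)))

theorem besd_om (i : Fin 2) :
    besdR K (besdH A R) (fun n => om (A.w R n) i) (om (X.psi R) i) := by
  have hc : ∀ i j, ContinuousOn (gm (X.psi R) i j) K := fun i j =>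
    ((X.imm_psi R).sm_gm i j).continuous.continuousOn
  have hh : ∀ i j k, ContinuousOn (ch (X.psi R) i j k) K := fun i j k =>
    ((X.imm_psi R).sm_ch i j k).continuous.continuousOn
  have hs : ContinuousOn (sq (X.psi R)) K := (X.imm_psi R).sm_sq.continuous.continuousOn
  have hne : ∀ x, gm (X.psi R) 0 0 x * sq (X.psi R) x ≠ 0 := fun x =>
    mul_ne_zero ((X.imm_psi R).gm_pos 0 x).ne' ((X.imm_psi R).sq_pos x).ne'
  have hne' : ∀ n x, gm (A.w R n) 0 0 x * sq (A.w R n) x ≠ 0 := fun n x =>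
    mul_ne_zero ((A.imm_w R n).gm_pos 0 x).ne' ((A.imm_w R n).sq_pos x).ne'
  have hinv := tu_inv hK (tu_mul hK (A.gm_conv R hK 0 0) (A.sq_conv R hK) (hc 0 0) hs)
    ((hc 0 0).mul hs) fun x _ => hne x
  have binv := besd_of hK hinv (((hc 0 0).mul hs).inv₀ fun x _ => hne x)
  have bg := fun i j => besd_of hK (A.gm_conv R hK i j) (hc i j)
  have bh := fun i j k => besd_of hK (A.ch_conv R hK i j k) (hh i j k)
  have bs := besd_of hK (A.sq_conv R hK) hs
  have bN := besd_of hK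
    (tu_sub (tu_mul hK (A.gm_conv R hK 0 0) (A.ch_conv R hK i 0 1) (hc 0 0) (hh i 0 1))
      (tu_mul hK (A.gm_conv R hK 0 1) (A.ch_conv R hK i 0 0) (hc 0 1) (hh i 0 0)))
    (((hc 0 0).mul (hh i 0 1)).sub ((hc 0 1).mul (hh i 0 0)))
  have rN := besd_sub
    (besd_bil (fun a b : ℝ => a * b) besd_mul_le (bg 0 0) (bh i 0 1) (besd_gm A R hK 0 0)
      (besd_ch A R hK i 0 1))
    (besd_bil (fun a b : ℝ => a * b) besd_mul_le (bg 0 1) (bh i 0 0) (besd_gm A R hK 0 1)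
      (besd_ch A R hK i 0 0))
  have rD := besd_inv (besd_bil (fun a b : ℝ => a * b) besd_mul_le (bg 0 0) bs
    (besd_gm A R hK 0 0) (besd_sq A R hK)) binv hne' hne
  unfold om
  simp only [div_eq_mul_inv]
  exact besd_bil (fun a b : ℝ => a * b) besd_mul_le bN binv rN rD

end

/-- the connection forms depend in a Lipschitz way on the first derivative and on the
Christoffel expression -/
theorem Appr.om_rate {X : Surf} {I : Iso X} (A : Appr I) (R : Rot) {K : Set P} (hK : IsCompact K) :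
    ∃ C : ℝ, 0 ≤ C ∧ ∀ᶠ n in atTop, ∀ x ∈ K, ∀ s : ℝ, 0 ≤ s →
      (∀ a b c, |chr (A.W n) (X.psi R x) a b c - chr X.pr (X.psi R x) a b c|
        ≤ s * ‖a‖ * ‖b‖ * ‖c‖) →
      ‖fderiv ℝ (A.W n) (X.psi R x) - fderiv ℝ I.V (X.psi R x)‖ ≤ s →
      ∀ i, |om (A.w R n) i x - om (X.psi R) i x| ≤ C * s := by
  obtain ⟨C0, hC0, h0⟩ := besd_om A R hK 0
  obtain ⟨C1, hC1, h1⟩ := besd_om A R hK 1
  refine ⟨C0 + C1, by positivity, ?_⟩
  filter_upwards [h0, h1] with n h0 h1 x hx s hs k1 k2 i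
  have g0 := h0 x hx s hs ⟨k1, k2⟩
  have g1 := h1 x hx s hs ⟨k1, k2⟩
  have p0 := mul_nonneg hC0 hs
  have p1 := mul_nonneg hC1 hs
  rw [Real.norm_eq_abs] at g0 g1
  rw [add_mul]
  rcases Fin.exists_fin_two.1 ⟨i, rfl⟩ with rfl | rfl <;> linarith

end Pool.Agent.Bor
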