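import Pool.Agent.P.MP_26ecb7_gt.LocA0

noncomputable section
open Set Filter Topology MeasureTheory Metric
open scoped RealInnerProductSpace ContDiff ENNReal NNReal

namespace Pool.Agent.Bor

theorem bese_bd {Z Y ι : Type} [TopologicalSpace Z] [NormedAddCommGroup Y] [Fintype ι] {K : Set Z}
    (hK : IsCompact K) {f : ι → Z → Y} (hf : ∀ i, Continuous (f i)) :
    ∃ M : ℝ, 0 ≤ M ∧ ∀ x ∈ K, ∀ i, ‖f i x‖ ≤ M := by
  obtain ⟨M, hM⟩ := hK.exists_bound_of_continuousOn (f := fun x i => f i x)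
    (continuous_pi hf).continuousOn
  exact ⟨max M 0, le_max_right _ _, fun x hx i =>
    ((norm_le_pi_norm (fun i => f i x) i).trans (hM x hx)).trans (le_max_left _ _)⟩

theorem bese_un {w : P → E} (hw : Imm w) (x : P) (i : Fin 2) {G B S : ℝ}
    (hG : ∀ k l, |gi w k l x| ≤ G) (hB : ∀ k, ‖pd k w x‖ ≤ B)
    (hS : ∀ l, ‖pd i (pd l w) x‖ ≤ S) : ‖pd i (un w) x‖ ≤ 4 * G * B * S := by
  have hG0 : 0 ≤ G := (abs_nonneg _).trans (hG 0 0)
  have hS0 : 0 ≤ S := (norm_nonneg _).trans (hS 0)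
  have h1 : ∀ l, |⟪pd i (un w) x, pd l w x⟫| ≤ S := fun l => by
    have h := hw.sf_eq i l x
    rw [sf] at h
    rw [h, abs_neg]
    refine (abs_real_inner_le_norm _ _).trans ?_
    rw [hw.norm_un, one_mul]
    exact hS l
  have h2 : ∀ k l, |gi w k l x * ⟪pd i (un w) x, pd l w x⟫| ≤ G * S := fun k l => by
    rw [abs_mul]
    exact mul_le_mul (hG k l) (h1 l) (abs_nonneg _) hG0
  have h3 : ∀ k, ‖(∑ l, gi w k l x * ⟪pd i (un w) x, pd l w x⟫) • pd k w x‖ ≤ 2 * (G * S) * B :=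
    fun k => by
      rw [norm_smul, Real.norm_eq_abs, Fin.sum_univ_two]
      refine mul_le_mul ((abs_add_le _ _).trans ?_) (hB k) (norm_nonneg _) (by positivity)
      linarith [h2 k 0, h2 k 1]
  have h4 := hw.vec_exp x (pd i (un w) x)
  rw [real_inner_comm, hw.un_pd_un, zero_smul, zero_add, Fin.sum_univ_two] at h4
  have h5 := (norm_add_le _ _).trans (add_le_add (h3 0) (h3 1))
  rw [← h4] at h5
  linarith

/-- the derivative of a function of the normal is controlled by the second derivative -/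
theorem Appr.pd_rate {X : Surf} {I : Iso X} (A : Appr I) (R : Rot) {K : Set P} (hK : IsCompact K)
    {Φ : E → ℝ} (hΦ : ContDiff ℝ ∞ Φ) : ∃ C : ℝ, 0 ≤ C ∧ ∀ᶠ n in atTop, ∀ x ∈ K, ∀ i,
      |pd i (fun y => Φ (un (A.w R n) y)) x|
        ≤ C * (‖fderiv ℝ (fderiv ℝ (A.W n)) (X.psi R x)‖ + 1) := by
  obtain ⟨C, hC, hW⟩ := A.bound_W
  have sp := X.sm_psi R
  obtain ⟨M1, h1, b1⟩ := bese_bd hK fun i => (contDiff_pd sp i).continuous
  obtain ⟨M2, h2, b2⟩ := bese_bd hK (f := fun t : Fin 2 × Fin 2 => pd t.1 (pd t.2 (X.psi R)))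
    fun t => (contDiff_pd (contDiff_pd sp t.2) t.1).continuous
  obtain ⟨M3, h3, b3⟩ := bese_bd hK (f := fun t : Fin 2 × Fin 2 => gi (X.psi R) t.1 t.2)
    fun t => ((X.imm_psi R).sm_gi t.1 t.2).continuous
  obtain ⟨M4, h4, b4⟩ := bese_bd (isCompact_sphere (0 : E) 1) (f := fun _ : Unit => fderiv ℝ Φ)
    fun _ => hΦ.continuous_fderiv (by simp)
  refine ⟨M4 * (4 * (M3 + 1) * (C * M1) * (M1 * M1 + C * M2)), by positivity, ?_⟩
  filter_upwards [hW, eventually_all.2 fun t : Fin 2 × Fin 2 =>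
    Metric.tendstoUniformlyOn_iff.1 (A.gi_conv R hK t.1 t.2) 1 one_pos] with n g1 g2 x hx i
  have hw := A.imm_w R n
  have g3 := (g1 _ (A.cconv_mem R x)).2
  have hD := norm_nonneg (fderiv ℝ (fderiv ℝ (A.W n)) (X.psi R x))
  have e : pd i (fun y => Φ (un (A.w R n) y)) x =
      fderiv ℝ Φ (un (A.w R n) x) (pd i (un (A.w R n)) x) := by
    unfold pd
    rw [fderiv_fun_comp x (hΦ.differentiable (by simp) _) (hw.sm_un.differentiable (by simp) x)]
    rfl
  have k1 : ∀ k l, |gi (A.w R n) k l x| ≤ M3 + 1 := fun k l => by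
    have a1 := g2 (k, l) x hx
    have a2 := b3 x hx (k, l)
    rw [Real.dist_eq, abs_sub_comm] at a1
    rw [Real.norm_eq_abs] at a2
    have a3 := abs_sub_abs_le_abs_sub (gi (A.w R n) k l x) (gi (X.psi R) k l x)
    linarith
  have k2 : ∀ k, ‖pd k (A.w R n) x‖ ≤ C * M1 := fun k => by
    rw [A.pd_w]
    exact (ContinuousLinearMap.le_opNorm _ _).trans
      (mul_le_mul g3 (b1 x hx k) (norm_nonneg _) hC)
  have k3 : ∀ l, ‖pd i (pd l (A.w R n)) x‖ ≤
      (M1 * M1 + C * M2) * (‖fderiv ℝ (fderiv ℝ (A.W n)) (X.psi R x)‖ + 1) := fun l => by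
    rw [A.pd_pd_w]
    have a1 := (ContinuousLinearMap.le_opNorm₂ (fderiv ℝ (fderiv ℝ (A.W n)) (X.psi R x))
      (pd i (X.psi R) x) (pd l (X.psi R) x)).trans (mul_le_mul
        (mul_le_mul_of_nonneg_left (b1 x hx i) hD) (b1 x hx l) (norm_nonneg _) (by positivity))
    have a2 := (ContinuousLinearMap.le_opNorm (fderiv ℝ (A.W n) (X.psi R x))
      (pd i (pd l (X.psi R)) x)).trans (mul_le_mul g3 (b2 x hx (i, l)) (norm_nonneg _) hC)
    have a3 : 0 ≤ C * M2 * ‖fderiv ℝ (fderiv ℝ (A.W n)) (X.psi R x)‖ := by positivity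
    have a4 : 0 ≤ M1 * M1 := by positivity
    refine (norm_add_le _ _).trans ((add_le_add a1 a2).trans ?_)
    linarith
  have k4 := bese_un hw x i k1 k2 k3
  rw [e, ← Real.norm_eq_abs]
  refine ((ContinuousLinearMap.le_opNorm _ _).trans (mul_le_mul
    (b4 _ (mem_sphere_zero_iff_norm.2 (hw.norm_un x)) ()) k4 (norm_nonneg _) h4)).trans_eq ?_
  ring

theorem bese_parts {f a b : P → ℝ} (hf : ContDiff ℝ ∞ f) (ha : ContDiff ℝ ∞ a)
    (hb : ContDiff ℝ ∞ b) (c : P) {r M δ : ℝ} (hr : 0 ≤ r) (hM : ∀ x, |f x| ≤ M)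
    (h0 : ∀ x ∈ sqr c r, |a x| ≤ δ) (h1 : ∀ x ∈ sqr c r, |b x| ≤ δ) :
    |∫ x in sqr c r, f x * (pd 1 a x - pd 0 b x)| ≤
      (∫ x in sqr c r, (|pd 0 f x| * |b x| + |pd 1 f x| * |a x|)) + 4 * r * (M * δ) := by
  have hM0 : 0 ≤ M := (abs_nonneg _).trans (hM c)
  have one : ∀ {g : P → ℝ}, ContDiff ℝ ∞ g → ContDiff ℝ 1 g := fun hg =>
    hg.of_le (by exact_mod_cast le_top)
  have df : ∀ {g : P → ℝ}, ContDiff ℝ ∞ g → ∀ x, DifferentiableAt ℝ g x := fun hg x =>
    hg.differentiable (by simp) x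
  have ig : ∀ {g : P → ℝ}, Continuous g → IntegrableOn g (sqr c r) := fun hg =>
    hg.continuousOn.integrableOn_compact (sqr_compact c r)
  have c0 := green0_cont_pd (one hf) 0
  have c1 := green0_cont_pd (one hf) 1
  have e : ∀ x, f x * (pd 1 a x - pd 0 b x) = (pd 0 f x * b x - pd 1 f x * a x) -
      (pd 0 (fun y => f y * b y) x - pd 1 (fun y => f y * a y) x) := fun x => by
    rw [green0_pd_mul (df hf x) (df hb x), green0_pd_mul (df hf x) (df ha x)]
    ring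
  have i1 : IntegrableOn (fun x => pd 0 f x * b x - pd 1 f x * a x) (sqr c r) :=
    ig ((c0.mul hb.continuous).sub (c1.mul ha.continuous))
  have i2 : IntegrableOn (fun x => pd 0 (fun y => f y * b y) x - pd 1 (fun y => f y * a y) x)
      (sqr c r) :=
    ig ((green0_cont_pd (one (hf.mul hb)) 0).sub (green0_cont_pd (one (hf.mul ha)) 1))
  simp only [e]
  rw [integral_sub i1 i2, green (one (hf.mul ha)) (one (hf.mul hb)) c hr]
  refine (abs_sub _ _).trans (add_le_add ?_ (abs_loop_le hr (fun x hx => ?_) fun x hx => ?_))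
  · refine abs_integral_le_integral_abs.trans (integral_mono i1.abs
      (ig ((c0.abs.mul hb.continuous.abs).add (c1.abs.mul ha.continuous.abs))) fun x => ?_)
    exact (abs_sub _ _).trans_eq (by rw [abs_mul, abs_mul])
  · rw [abs_mul]
    exact mul_le_mul (hM x) (h0 x hx) (abs_nonneg _) hM0
  · rw [abs_mul]
    exact mul_le_mul (hM x) (h1 x hx) (abs_nonneg _) hM0

/-- integration by parts on a square -/
theorem Appr.parts {X : Surf} {I : Iso X} (A : Appr I) (R : Rot) {Φ : E → ℝ} (hΦ : ContDiff ℝ ∞ Φ)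
    (c : P) {r : ℝ} (hr : 0 < r) : ∀ θ > 0, ∀ᶠ n in atTop,
      |∫ x in sqr c r, Φ (un (A.w R n) x) * (kap (un (A.w R n)) x - X.ka R x)| ≤
        (∫ x in sqr c r, (|pd 0 (fun y => Φ (un (A.w R n) y)) x| *
            |om (A.w R n) 1 x - om (X.psi R) 1 x|
          + |pd 1 (fun y => Φ (un (A.w R n) y)) x| * |om (A.w R n) 0 x - om (X.psi R) 0 x|)) + θ := by
  intro θ hθ
  obtain ⟨M, hM, bM⟩ := bese_bd (isCompact_sphere (0 : E) 1) (f := fun _ : Unit => Φ)
    fun _ => hΦ.continuous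
  have hδ : 0 < θ / (4 * r * (M + 1)) := by positivity
  filter_upwards [Metric.tendstoUniformlyOn_iff.1 (A.om_conv R (sqr_compact c r) 0) _ hδ,
    Metric.tendstoUniformlyOn_iff.1 (A.om_conv R (sqr_compact c r) 1) _ hδ] with n h0 h1
  have hw := A.imm_w R n
  have s1 := (X.imm_psi R).sm_om
  have s2 := hw.sm_om
  have e1 : ∀ x, kap (un (A.w R n)) x - X.ka R x =
      pd 1 (fun y => om (A.w R n) 0 y - om (X.psi R) 0 y) x
        - pd 0 (fun y => om (A.w R n) 1 y - om (X.psi R) 1 y) x := fun x => by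
    rw [loca_pd_sub (s2 1) (s1 1), loca_pd_sub (s2 0) (s1 0), Surf.ka, (X.imm_psi R).gauss,
      hw.gauss]
    ring
  simp only [e1]
  have h := bese_parts (f := fun y => Φ (un (A.w R n) y)) (hΦ.comp hw.sm_un) ((s2 0).sub (s1 0))
    ((s2 1).sub (s1 1)) c (M := M + 1) (δ := θ / (4 * r * (M + 1))) hr.le
    (fun x => (bM _ (mem_sphere_zero_iff_norm.2 (hw.norm_un x)) ()).trans (by linarith))
    (fun x hx => by rw [abs_sub_comm]; exact (h0 x hx).le)
    (fun x hx => by rw [abs_sub_comm]; exact (h1 x hx).le)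
  refine h.trans_eq (congrArg _ ?_)
  field_simp

end Pool.Agent.Bor
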