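import Pool.Agent.P.MP_26ecb7_gt.Chart

noncomputable section
open Set Filter Topology MeasureTheory Metric
open scoped RealInnerProductSpace ContDiff ENNReal NNReal

namespace Pool.Agent.Bor

/-- area in a chart is bounded by Hausdorff measure -/
theorem Surf.vol_le (X : Surf) (R : Rot) {K : Set P} (hK : IsCompact K) : ∃ C : ℝ≥0,
    ∀ B ⊆ K, volume B ≤ C * μH[2] (X.psi R '' B) := by
  rcases K.eq_empty_or_nonempty with rfl | hne
  · refine ⟨0, fun B hB => ?_⟩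
    rw [subset_empty_iff.1 hB]
    simp
  have hc : Continuous (X.psi R) := (X.sm_psi R).continuous
  obtain ⟨x0, -, hx0⟩ := hK.exists_isMinOn hne
    (f := fun x => ⟪X.psi R x - X.o, R.R (ee 2)⟫) (by fun_prop)
  obtain ⟨x1, -, hx1⟩ := hK.exists_isMaxOn hne
    (f := fun x => ‖X.psi R x - X.o‖) (by fun_prop)
  set c : ℝ := ⟪X.psi R x0 - X.o, R.R (ee 2)⟫ with hcdef
  set M : ℝ := ‖X.psi R x1 - X.o‖ with hM
  have hc0 : 0 < c := X.inner_psi R x0
  have hM0 : 0 ≤ M := norm_nonneg _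
  set L : ℝ≥0 := ⟨1 / c + M / c ^ 2, by positivity⟩ with hLdef
  refine ⟨L ^ 2, fun B hB => ?_⟩
  have hL : LipschitzOnWith L (fun z => gn R (z - X.o)) (X.psi R '' B) := by
    refine LipschitzOnWith.of_dist_le_mul ?_
    rintro _ ⟨y, hy, rfl⟩ _ ⟨z, hz, rfl⟩
    have := dist_gn_le R hc0 (hx0 (hB hy)) (hx0 (hB hz)) (hx1 (hB hz))
    rw [sub_sub_sub_cancel_right] at this
    rw [dist_eq_norm (X.psi R y)]
    exact this
  have hsub : B ⊆ (fun z => gn R (z - X.o)) '' (X.psi R '' B) := fun x hx =>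
    ⟨X.psi R x, ⟨x, hx, rfl⟩, X.gn_psi R x⟩
  rw [← hausdorffMeasure_prod_real]
  refine (measure_mono hsub).trans ((hL.hausdorffMeasure_image_le (by norm_num)).trans ?_)
  rw [ENNReal.rpow_two, ENNReal.coe_pow]

theorem Surf.lint_chart (X : Surf) (R : Rot) {K : Set P} (hK : IsCompact K) : ∃ C : ℝ≥0,
    ∀ B ⊆ K, MeasurableSet B → ∀ T : Set E, (∀ x ∈ B, X.psi R x ∈ T) → ∀ h : E → ℝ≥0∞,
      ∫⁻ x in B, h (X.psi R x) ≤ C * ∫⁻ y in T, h y ∂μH[2] := by
  obtain ⟨C, hC⟩ := X.vol_le R hK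
  refine ⟨C, fun B hB hBm T hT h => ?_⟩
  have hc : Continuous (X.psi R) := (X.sm_psi R).continuous
  have hE : MeasurableEmbedding (X.psi R) := hc.measurableEmbedding (X.psi_inj R)
  have hle : (volume.restrict B).map (X.psi R) ≤ (C : ℝ≥0∞) • (μH[2] : Measure E).restrict T := by
    rw [Measure.le_iff]
    intro D hD
    rw [Measure.map_apply hc.measurable hD, Measure.restrict_apply (hc.measurable hD),
      Measure.smul_apply, Measure.restrict_apply hD, smul_eq_mul]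
    refine (hC _ (inter_subset_right.trans hB)).trans ?_
    gcongr
    rintro _ ⟨x, hx, rfl⟩
    exact ⟨hx.1, hT x hx.2⟩
  rw [← hE.lintegral_map]
  refine (lintegral_mono' hle le_rfl).trans ?_
  rw [lintegral_smul_measure, smul_eq_mul]

theorem besf_haar {Z : Type} [NormedAddCommGroup Z] [NormedSpace ℝ Z] [FiniteDimensional ℝ Z]
    [MeasurableSpace Z] [BorelSpace Z] (μ : Measure Z) [μ.IsAddHaarMeasure]
    (h3 : Module.finrank ℝ Z = 3) :
    ∃ a b : ℝ≥0, (∀ s, μ s = a * (μH[3] : Measure Z) s) ∧ ∀ s, (μH[3] : Measure Z) s = b * μ s := by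
  have hH : (μH[3] : Measure Z).IsAddHaarMeasure := by
    have := isAddHaarMeasure_hausdorffMeasure (E := Z)
    rw [h3] at this
    exact_mod_cast this
  refine ⟨Measure.addHaarScalarFactor μ μH[3], Measure.addHaarScalarFactor μH[3] μ, ?_, ?_⟩
  · intro s
    conv_lhs => rw [Measure.isAddLeftInvariant_eq_smul μ μH[3]]
    rfl
  · intro s
    conv_lhs => rw [Measure.isAddLeftInvariant_eq_smul μH[3] μ]
    rfl

/-- volume of a thin cone over a piece of a chart -/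
theorem Surf.vol_cone (X : Surf) (R : Rot) {K : Set P} (hK : IsCompact K) : ∃ C : ℝ≥0,
    ∀ B ⊆ K, ∀ δ : ℝ, 0 ≤ δ → δ ≤ 1 →
      volume {z : E | ∃ x ∈ B, ∃ s : ℝ, |s - 1| ≤ δ ∧ z = X.o + s • (X.psi R x - X.o)}
        ≤ C * ENNReal.ofReal δ * volume B := by
  obtain ⟨a, -, ha, -⟩ := besf_haar (volume : Measure E) (by simp)
  obtain ⟨-, b, -, hb⟩ := besf_haar ((volume : Measure P).prod (volume : Measure ℝ)) (by simp)
  set Φ : P × ℝ → E := fun p => X.o + p.2 • (X.psi R p.1 - X.o) with hΦ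
  have hsm : ContDiff ℝ 1 Φ := by
    have h1 : ContDiff ℝ 1 (X.psi R) := (X.sm_psi R).of_le (by exact_mod_cast le_top)
    exact contDiff_const.add (contDiff_snd.smul ((h1.comp contDiff_fst).sub contDiff_const))
  obtain ⟨L, hL⟩ := (hsm.locallyLipschitz.locallyLipschitzOn
    (s := K ×ˢ Icc (0 : ℝ) 2)).exists_lipschitzOnWith_of_compact (hK.prod isCompact_Icc)
  refine ⟨a * L ^ 3 * b * 2, fun B hB δ h0 h1 => ?_⟩
  have hsub : {z : E | ∃ x ∈ B, ∃ s : ℝ, |s - 1| ≤ δ ∧ z = X.o + s • (X.psi R x - X.o)}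
      ⊆ Φ '' (B ×ˢ Icc (1 - δ) (1 + δ)) := by
    rintro z ⟨x, hx, s, hs, rfl⟩
    rw [abs_le] at hs
    exact ⟨(x, s), ⟨hx, by linarith [hs.1], by linarith [hs.2]⟩, rfl⟩
  have hL' : LipschitzOnWith L Φ (B ×ˢ Icc (1 - δ) (1 + δ)) :=
    hL.mono (prod_mono hB (Icc_subset_Icc (by linarith) (by linarith)))
  refine (measure_mono hsub).trans ?_
  rw [ha]
  have h2 := hL'.hausdorffMeasure_image_le (d := 3) (by norm_num)
  rw [hb, Measure.prod_prod, Real.volume_Icc, show 1 + δ - (1 - δ) = 2 * δ by ring,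
    ENNReal.ofReal_mul (by norm_num), show (3 : ℝ) = ((3 : ℕ) : ℝ) by norm_num,
    ENNReal.rpow_natCast] at h2
  refine (mul_le_mul_right (by exact_mod_cast h2) _).trans (le_of_eq ?_)
  simp only [ENNReal.coe_mul, ENNReal.coe_pow, ENNReal.coe_ofNat, ENNReal.ofReal_ofNat]
  ring

end Pool.Agent.Bor
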