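import Pool.Agent.P.MP_26ecb7_gt.BesF

noncomputable section
open Set Filter Topology MeasureTheory Metric
open scoped RealInnerProductSpace ContDiff ENNReal NNReal

namespace Pool.Agent.Bor

theorem besg_geo (X : Surf) (R : Rot) (ρ : ℝ) : ∃ L t : ℝ, 0 < L ∧ 0 < t ∧ L * t ≤ 1 ∧
    ∀ x ∈ closedBall (0 : P) ρ, ∀ ε, 0 < ε → ε ≤ t → ∀ z ∈ closedBall (X.psi R x) ε,
      ∃ x' ∈ closedBall (0 : P) (ρ + 1), X.psi R x' = X.pr z ∧ dist (X.pr z) (X.psi R x) < L * ε ∧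
        ∃ s : ℝ, |s - 1| ≤ L * ε ∧ z = X.o + s • (X.psi R x' - X.o) := by
  have hc : Continuous (X.psi R) := (X.sm_psi R).continuous
  have hK := isCompact_closedBall (0 : P) (ρ + 1)
  obtain ⟨c, hc0, hc1⟩ := hK.exists_forall_le' (f := fun x => ⟪X.psi R x - X.o, R.R (ee 2)⟫)
    (by fun_prop) fun x _ => X.inner_psi R x
  obtain ⟨M, hM⟩ := hK.exists_bound_of_continuousOn (f := fun x => X.psi R x - X.o) (by fun_prop)
  obtain ⟨Lp, hLp⟩ := (X.sm_psi R).contDiffOn.exists_lipschitzOnWith (by simp)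
    (convex_closedBall (0 : P) (ρ + 1)) hK
  have he : ‖R.R (ee 2)‖ = 1 := by rw [LinearIsometryEquiv.norm_map, alg0_norm_ee]
  have hin : ∀ y : E, |⟪y, R.R (ee 2)⟫| ≤ ‖y‖ := fun y =>
    (abs_real_inner_le_norm _ _).trans_eq (by rw [he, mul_one])
  obtain ⟨L1, hL1, e1⟩ : ∃ L1 : ℝ, 0 < L1 ∧ L1 = 1 / (c / 2) + |M| / (c / 2) ^ 2 :=
    ⟨_, by positivity, rfl⟩
  have hp : (0 : ℝ) ≤ Lp := Lp.2
  obtain ⟨L2, hL2, e2⟩ : ∃ L2 : ℝ, 0 < L2 ∧ L2 = (1 + Lp * L1) / c := ⟨_, by positivity, rfl⟩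
  have hpl : 0 ≤ (Lp : ℝ) * L1 := by positivity
  have hL : 0 < L1 + Lp * L1 + L2 := by positivity
  refine ⟨L1 + Lp * L1 + L2, min (c / 2) (1 / (L1 + Lp * L1 + L2)), hL, by positivity, ?_,
    fun x hx ε hε hεt z hz => ?_⟩
  · exact (mul_le_mul_of_nonneg_left (min_le_right _ _) hL.le).trans_eq (by field_simp)
  have hx1 : x ∈ closedBall (0 : P) (ρ + 1) := closedBall_subset_closedBall (by linarith) hx
  have g1 : ε ≤ c / 2 := hεt.trans (min_le_left _ _)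
  have g2 : (L1 + Lp * L1 + L2) * ε ≤ 1 :=
    (mul_le_mul_of_nonneg_left (hεt.trans (min_le_right _ _)) hL.le).trans_eq (by field_simp)
  have g3 : ‖z - X.psi R x‖ ≤ ε := by rwa [mem_closedBall, dist_eq_norm] at hz
  have g4 : c / 2 ≤ ⟪z - X.o, R.R (ee 2)⟫ := by
    have h1 := hc1 x hx1
    have h2 := (abs_le.1 (hin (z - X.psi R x))).1
    have h3 : z - X.o = (z - X.psi R x) + (X.psi R x - X.o) := by abel
    rw [h3, inner_add_left]
    linarith
  have g5 : dist (gn R (z - X.o)) x ≤ L1 * ε := by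
    have h1 := dist_gn_le R (half_pos hc0) g4 ((half_le_self hc0.le).trans (hc1 x hx1))
      ((hM x hx1).trans (le_abs_self M))
    rw [X.gn_psi, sub_sub_sub_cancel_right, ← e1] at h1
    exact h1.trans (mul_le_mul_of_nonneg_left g3 hL1.le)
  have p1 := mul_pos hL1 hε
  have p2 := mul_pos hL2 hε
  have p3 := mul_nonneg hpl hε.le
  have g6 : gn R (z - X.o) ∈ closedBall (0 : P) (ρ + 1) := by
    have h1 := dist_triangle (gn R (z - X.o)) x 0
    rw [mem_closedBall] at hx ⊢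
    linarith
  have g7 := X.psi_gn R ((half_pos hc0).trans_le g4)
  have g8 : dist (X.pr z) (X.psi R x) ≤ Lp * L1 * ε := by
    rw [← g7, mul_assoc]
    exact (hLp.dist_le_mul _ g6 _ hx1).trans (mul_le_mul_of_nonneg_left g5 hp)
  have hzo : z ≠ X.o := fun h => by
    rw [h, sub_self, inner_zero_left] at g4
    linarith
  obtain ⟨τ, hτ, e⟩ := X.pr_ray z hzo
  have e' : z = X.o + τ⁻¹ • (X.pr z - X.o) := by
    rw [e, add_sub_cancel_left, smul_smul, inv_mul_cancel₀ hτ.ne', one_smul, add_sub_cancel]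
  refine ⟨_, g6, g7, by linarith, τ⁻¹, ?_, by rw [g7]; exact e'⟩
  have g9 : c ≤ ‖X.pr z - X.o‖ := by
    have h1 := hc1 _ g6
    rw [g7] at h1
    exact h1.trans ((le_abs_self _).trans (hin _))
  have g10 : z - X.pr z = (τ⁻¹ - 1) • (X.pr z - X.o) := by
    rw [sub_smul, one_smul, ← add_sub_cancel_left X.o (τ⁻¹ • _), ← e']
    abel
  have g11 : |τ⁻¹ - 1| * c ≤ ε + Lp * L1 * ε := by
    have h1 := dist_triangle_right z (X.pr z) (X.psi R x)
    rw [dist_eq_norm, g10, norm_smul, Real.norm_eq_abs] at h1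
    have h2 := mul_le_mul_of_nonneg_left g9 (abs_nonneg (τ⁻¹ - 1))
    rw [mem_closedBall] at hz
    linarith
  have g12 : |τ⁻¹ - 1| ≤ L2 * ε := by
    rw [e2, div_mul_eq_mul_div, le_div_iff₀ hc0]
    linarith
  linarith

/-- integrals over small balls of functions of the projection -/
theorem Surf.lint_pr (X : Surf) (R : Rot) {K : Set P} (hK : IsCompact K) :
    ∃ (C : ℝ) (t : ℝ), 0 < C ∧ 0 < t ∧ ∀ x ∈ K, ∀ ε, 0 < ε → ε ≤ t → ∀ g : E → ℝ≥0∞, Measurable g →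
      ∫⁻ z in closedBall (X.psi R x) ε, g (X.pr z) ≤
        ENNReal.ofReal (C * ε) * ∫⁻ y in X.S ∩ ball (X.psi R x) (C * ε), g y ∂μH[2] := by
  obtain ⟨ρ, hρ⟩ := hK.isBounded.subset_closedBall (0 : P)
  obtain ⟨L, t, hL, ht, hLt, h⟩ := besg_geo X R ρ
  obtain ⟨C1, h1⟩ := X.vol_cone R (isCompact_closedBall (0 : P) (ρ + 1))
  obtain ⟨C2, h2⟩ := X.vol_le R (isCompact_closedBall (0 : P) (ρ + 1))
  have hm : Measurable X.pr := measurable_of_continuousOn_compl_singleton X.o fun z hz =>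
    (X.pr_smooth z hz).continuousAt.continuousWithinAt
  have hC : (0 : ℝ) ≤ C1 * C2 := by positivity
  refine ⟨(C1 * C2 + 1) * L, t, by positivity, ht, fun x hx ε hε hεt g hg => ?_⟩
  have hLε := mul_pos hL hε
  have hle : L * ε ≤ (C1 * C2 + 1) * L * ε := by nlinarith
  rw [← lintegral_map hg hm, ← smul_eq_mul, ← lintegral_smul_measure]
  refine lintegral_mono' (Measure.le_iff.2 fun D hD => ?_) le_rfl
  rw [Measure.map_apply hm hD, Measure.restrict_apply (hm hD), Measure.smul_apply,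
    Measure.restrict_apply hD, smul_eq_mul]
  have h3 := h1 (closedBall 0 (ρ + 1) ∩ X.psi R ⁻¹' (D ∩ ball (X.psi R x) (L * ε)))
    inter_subset_left (L * ε) hLε.le ((mul_le_mul_of_nonneg_left hεt hL.le).trans hLt)
  have h4 := h2 (closedBall 0 (ρ + 1) ∩ X.psi R ⁻¹' (D ∩ ball (X.psi R x) (L * ε)))
    inter_subset_left
  have h5 : μH[2] (X.psi R '' (closedBall 0 (ρ + 1) ∩ X.psi R ⁻¹' (D ∩ ball (X.psi R x) (L * ε)))) ≤
      μH[2] (D ∩ (X.S ∩ ball (X.psi R x) ((C1 * C2 + 1) * L * ε))) := by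
    refine measure_mono ?_
    rintro _ ⟨y, ⟨-, g1, g2⟩, rfl⟩
    exact ⟨g1, X.psi_mem R y, ball_subset_ball hle g2⟩
  refine (measure_mono ?_).trans (h3.trans ?_)
  · rintro z ⟨g1, g2⟩
    obtain ⟨x', k1, k2, k3, s, k4, k5⟩ := h x (hρ hx) ε hε hεt z g2
    exact ⟨x', ⟨k1, by rw [mem_preimage, k2]; exact ⟨g1, k3⟩⟩, s, k4, k5⟩
  · refine (mul_le_mul_right (h4.trans (mul_le_mul_right h5 _)) _).trans ?_
    rw [← mul_assoc]
    refine mul_le_mul_left ?_ _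
    rw [mul_right_comm, ← ENNReal.coe_mul, ← ENNReal.ofReal_coe_nnreal,
      ← ENNReal.ofReal_mul (NNReal.coe_nonneg _)]
    refine ENNReal.ofReal_le_ofReal ?_
    push_cast
    nlinarith

end Pool.Agent.Bor
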