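import Pool.Agent.P.MP_26ecb7_gt.IsoB0

noncomputable section
open Set Filter Topology MeasureTheory Metric
open scoped RealInnerProductSpace ContDiff ENNReal

namespace Pool.Agent.Bor

theorem isob_lip {Y : Type} [NormedAddCommGroup Y] [NormedSpace ℝ Y] {f : E → Y} {K : Set E}
    (hK : IsCompact K) (hf : ∀ z ∈ K, ContDiffAt ℝ 1 f z) :
    ∃ L : ℝ, 0 ≤ L ∧ ∀ y ∈ K, ∀ z ∈ K, ‖f y - f z‖ ≤ L * ‖y - z‖ := by
  have h : LocallyLipschitzOn K f := by
    intro x hx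
    obtain ⟨L, t, ht, hL⟩ := (hf x hx).exists_lipschitzOnWith
    exact ⟨L, t, mem_nhdsWithin_of_mem_nhds ht, hL⟩
  obtain ⟨L, hL⟩ := h.exists_lipschitzOnWith_of_compact hK
  refine ⟨L, L.2, fun y hy z hz => ?_⟩
  have := hL.dist_le_mul y hy z hz
  rwa [dist_eq_norm, dist_eq_norm] at this

theorem isob_bd {Y : Type} [NormedAddCommGroup Y] {f : E → Y} {K : Set E}
    (hK : IsCompact K) (hf : ∀ z ∈ K, ContinuousAt f z) : ∃ B : ℝ, 0 ≤ B ∧ ∀ y ∈ K, ‖f y‖ ≤ B := by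
  obtain ⟨B, hB⟩ := hK.exists_bound_of_continuousOn fun z hz => (hf z hz).continuousWithinAt
  exact ⟨max B 0, le_max_right _ _, fun y hy => (hB y hy).trans (le_max_left _ _)⟩

theorem isob_pow {t D a : ℝ} (ht : 0 ≤ t) (hD : t ≤ D) (h0 : 0 < a) (h1 : a ≤ 1) :
    t ≤ D ^ (1 - a) * t ^ a := by
  rcases ht.eq_or_lt with rfl | ht'
  · rw [Real.zero_rpow h0.ne', mul_zero]
  · calc t = t ^ (1 - a) * t ^ a := by rw [← Real.rpow_add ht', sub_add_cancel, Real.rpow_one]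
      _ ≤ D ^ (1 - a) * t ^ a :=
        mul_le_mul_of_nonneg_right (Real.rpow_le_rpow ht hD (by linarith)) (by positivity)

namespace Iso
variable {X : Surf} (I : Iso X)

theorem isob_tan {q : E} (hq : q ∈ X.S) (y : E) :
    ∃ t, ⟪X.nu q, t⟫ = 0 ∧ y = ⟪y, I.N q⟫ • I.N q + fderiv ℝ I.v q t := by
  obtain ⟨a, b, ha, hb, hab, hc⟩ := exists_frame (X.nu_unit q hq)
  have h1 : ⟪X.nu q, a⟫ = 0 := by rw [← hc, real_inner_comm]; exact inner_cr_left a b
  have h2 : ⟪X.nu q, b⟫ = 0 := by rw [← hc, real_inner_comm]; exact inner_cr_right a b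
  have hN : I.N q = cr (fderiv ℝ I.v q a) (fderiv ℝ I.v q b) := by
    rw [I.N_self hq, ← hc, cof_cr]
  have h3 := expand (fderiv ℝ I.v q a) (fderiv ℝ I.v q b) y
  rw [← hN, I.norm_N (X.ne_o hq), I.inner_iso hq h1 h1, I.inner_iso hq h2 h2, I.inner_iso hq h1 h2,
    hab, real_inner_self_eq_norm_sq, real_inner_self_eq_norm_sq, ha, hb] at h3
  refine ⟨⟪y, fderiv ℝ I.v q a⟫ • a + ⟪y, fderiv ℝ I.v q b⟫ • b, ?_, ?_⟩
  · rw [inner_add_right, real_inner_smul_right, real_inner_smul_right, h1, h2]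
    ring
  · rw [map_add, map_smul, map_smul, ← add_assoc]
    simpa using h3

/-- every vector is a normal part plus a tangential part -/
theorem split {K : Set E} (hK : IsCompact K) (ho : X.o ∉ K) : ∃ C : ℝ, 0 ≤ C ∧ ∀ z ∈ K, ∀ y : E,
    ∃ c, y = ⟪y, I.N z⟫ • I.N z + fderiv ℝ I.V z c ∧ ‖c‖ ≤ C * ‖y - ⟪y, I.N z⟫ • I.N z‖ := by
  obtain ⟨C, hC, h⟩ := X.pr_right hK ho
  refine ⟨C, hC, fun z hz y => ?_⟩
  have hzo : z ≠ X.o := fun e => ho (e ▸ hz)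
  have hq := X.pr_mem z hzo
  obtain ⟨t, h1, h2⟩ := I.isob_tan hq y
  rw [I.N_pr hzo] at h2
  obtain ⟨c, h3, h4⟩ := h z hz t h1
  refine ⟨c, ?_, ?_⟩
  · rw [I.fderiv_V hzo, ContinuousLinearMap.comp_apply, h3]
    exact h2
  · rw [← eq_sub_of_add_eq' h2.symm, I.iso _ hq t h1]
    exact h4

/-- Lagrange condition at a maximum of a height function -/
theorem N_of_max {y q : E} (hy : ‖y‖ = 1) (hq : q ∈ X.S)
    (h : ∀ q' ∈ X.S, ⟪y, I.v q'⟫ ≤ ⟪y, I.v q⟫) : I.N q = y ∨ I.N q = -y := by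
  have hqo := X.ne_o hq
  have hm : IsLocalMax (fun z => innerSL ℝ y (I.V z)) q := by
    filter_upwards [isOpen_ne.mem_nhds hqo] with z hz
    rw [I.V_self hq]
    exact h _ (X.pr_mem z hz)
  have hd : HasFDerivAt (fun z => innerSL ℝ y (I.V z)) ((innerSL ℝ y).comp (fderiv ℝ I.V q)) q :=
    (innerSL ℝ y).hasFDerivAt.comp q ((I.V_c1 hqo).differentiableAt one_ne_zero).hasFDerivAt
  have h0 := hm.hasFDerivAt_eq_zero hd
  obtain ⟨t, h1, h2⟩ := I.isob_tan hq y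
  rw [← I.fderiv_V_tang hq h1] at h2
  have h3 : ⟪y, fderiv ℝ I.V q t⟫ = 0 := by
    have := congrArg (fun L : E →L[ℝ] ℝ => L t) h0
    simpa using this
  have h4 : fderiv ℝ I.V q t = 0 := by
    have h5 : ⟪⟪y, I.N q⟫ • I.N q + fderiv ℝ I.V q t, fderiv ℝ I.V q t⟫ = 0 := by
      rw [← h2]; exact h3
    rw [inner_add_left, real_inner_smul_left, I.N_orth hqo, mul_zero, zero_add] at h5
    exact inner_self_eq_zero.1 h5
  rw [h4, add_zero] at h2
  obtain ⟨s, hs⟩ : ∃ s : ℝ, y = s • I.N q := ⟨_, h2⟩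
  have h6 : |s| = 1 := by
    rw [hs, norm_smul, I.norm_N hqo, mul_one] at hy
    exact hy
  rcases (abs_eq zero_le_one).1 h6 with rfl | rfl
  · left; rw [hs, one_smul]
  · right; rw [hs, neg_smul, one_smul, neg_neg]

theorem not_flat (y : E) (hy : y ≠ 0) (h : ∀ q ∈ X.S, ∀ q' ∈ X.S, ⟪y, I.v q⟫ = ⟪y, I.v q'⟫) :
    ∀ q ∈ X.S, I.N q = nrm y ∨ I.N q = - nrm y := fun q hq =>
  I.N_of_max (norm_nrm hy) hq fun q' hq' => by
    rw [nrm, real_inner_smul_left, real_inner_smul_left, h q' hq' q hq]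

theorem hol_V {K : Set E} (hK : IsCompact K) (ho : X.o ∉ K) : ∃ H : ℝ, 0 ≤ H ∧ ∀ y ∈ K, ∀ z ∈ K,
    ‖fderiv ℝ I.V y - fderiv ℝ I.V z‖ ≤ H * ‖y - z‖ ^ I.al := by
  have hne : ∀ z ∈ K, z ≠ X.o := fun z hz e => ho (e ▸ hz)
  have ha : 0 < I.al := by linarith [I.al_gt]
  obtain ⟨L1, hL1, h1⟩ := isob_lip (f := X.pr) hK fun z hz =>
    (X.pr_smooth z (hne z hz)).of_le (by exact_mod_cast le_top)
  obtain ⟨L2, hL2, h2⟩ := isob_lip (f := fderiv ℝ X.pr) hK fun z hz =>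
    (X.pr_smooth z (hne z hz)).fderiv_right (m := 1)
      (WithTop.coe_le_coe.2 (le_top : (1 + 1 : ℕ∞) ≤ ⊤))
  obtain ⟨B1, hB1, h3⟩ := isob_bd (f := fderiv ℝ X.pr) hK fun z hz =>
    (X.pr_smooth z (hne z hz)).continuousAt_fderiv (by simp)
  obtain ⟨B2, hB2, h4⟩ := isob_bd (f := fderiv ℝ I.v) X.cpt fun z hz =>
    (I.c1 z hz).continuousAt_fderiv one_ne_zero
  obtain ⟨B3, hB3, h5⟩ := isob_bd (f := fun z : E => z) hK fun z hz => continuousAt_id
  have hC := I.C_nonneg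
  refine ⟨I.C * L1 ^ I.al * B1 + B2 * L2 * (B3 + B3) ^ (1 - I.al), by positivity,
    fun y hy z hz => ?_⟩
  have hy' := X.pr_mem y (hne y hy)
  have hz' := X.pr_mem z (hne z hz)
  have e : fderiv ℝ I.V y - fderiv ℝ I.V z =
      (fderiv ℝ I.v (X.pr y) - fderiv ℝ I.v (X.pr z)).comp (fderiv ℝ X.pr y) +
        (fderiv ℝ I.v (X.pr z)).comp (fderiv ℝ X.pr y - fderiv ℝ X.pr z) := by
    rw [I.fderiv_V (hne y hy), I.fderiv_V (hne z hz), ContinuousLinearMap.sub_comp,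
      ContinuousLinearMap.comp_sub, sub_add_sub_cancel]
  have k1 : ‖fderiv ℝ I.v (X.pr y) - fderiv ℝ I.v (X.pr z)‖ ≤
      I.C * L1 ^ I.al * ‖y - z‖ ^ I.al := by
    refine (I.hol _ hy' _ hz').trans ?_
    rw [mul_assoc, ← Real.mul_rpow hL1 (norm_nonneg _)]
    exact mul_le_mul_of_nonneg_left
      (Real.rpow_le_rpow (norm_nonneg _) (h1 y hy z hz) ha.le) hC
  have k2 : ‖fderiv ℝ X.pr y - fderiv ℝ X.pr z‖ ≤
      L2 * ((B3 + B3) ^ (1 - I.al) * ‖y - z‖ ^ I.al) :=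
    (h2 y hy z hz).trans (mul_le_mul_of_nonneg_left (isob_pow (norm_nonneg _)
      ((norm_sub_le _ _).trans (add_le_add (h5 y hy) (h5 z hz))) ha I.al_le) hL2)
  rw [e]
  refine (norm_add_le _ _).trans ((add_le_add (ContinuousLinearMap.opNorm_comp_le _ _)
    (ContinuousLinearMap.opNorm_comp_le _ _)).trans ?_)
  refine (add_le_add (mul_le_mul k1 (h3 y hy) (norm_nonneg _) (by positivity))
    (mul_le_mul (h4 _ hz') k2 (norm_nonneg _) hB2)).trans_eq ?_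
  ring

theorem w_c1 (R : Rot) : ContDiff ℝ 1 (I.w R) := contDiff_iff_contDiffAt.2 fun x =>
  (I.c1 _ (X.psi_mem R x)).comp x
    (((X.sm_psi R).of_le (by exact_mod_cast le_top)).contDiffAt (x := x))

theorem pd_w (R : Rot) (i : Fin 2) (x : P) :
    pd i (I.w R) x = fderiv ℝ I.V (X.psi R x) (pd i (X.psi R) x) := by
  rw [I.fderiv_V_tang (X.psi_mem R x) (X.tang_psi R i x)]
  have h := fderiv_comp x ((I.c1 _ (X.psi_mem R x)).differentiableAt one_ne_zero)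
    ((X.sm_psi R).differentiable (by simp) x)
  show fderiv ℝ (I.v ∘ X.psi R) x (e2 i) = _
  rw [h]
  rfl

theorem gm_w (R : Rot) (i j : Fin 2) (x : P) : gm (I.w R) i j x = gm (X.psi R) i j x := by
  have hq := X.psi_mem R x
  rw [gm, gm, I.pd_w, I.pd_w, I.fderiv_V_tang hq (X.tang_psi R i x),
    I.fderiv_V_tang hq (X.tang_psi R j x), I.inner_iso hq (X.tang_psi R i x) (X.tang_psi R j x)]

theorem nv_w (R : Rot) (x : P) : nv (I.w R) x = sq (X.psi R) x • I.n R x := by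
  rw [nv, I.pd_w, I.pd_w, ← cof_cr, Iso.n, I.N_eq_cof_V (X.psi_mem R x), ← cof_smul,
    ← X.un_psi, ← (X.imm_psi R).nv_eq, nv]

theorem continuous_n (R : Rot) : Continuous (I.n R) := continuous_iff_continuousAt.2 fun x =>
  (I.continuousAt_N (X.ne_o (X.psi_mem R x))).comp (X.sm_psi R).continuous.continuousAt

theorem norm_n (R : Rot) (x : P) : ‖I.n R x‖ = 1 := I.norm_N (X.ne_o (X.psi_mem R x))

theorem n_pd (R : Rot) (i : Fin 2) (x : P) : ⟪I.n R x, pd i (I.w R) x⟫ = 0 := by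
  rw [I.pd_w]
  exact I.N_orth (X.ne_o (X.psi_mem R x)) _

/-- reflected and translated immersion -/
theorem exists_shift (s : ℝ) (hs : s = 1 ∨ s = -1) (c : E) : ∃ J : Iso X,
    (∀ z, J.v z = s • (I.v z - c)) ∧ J.N = I.N := by
  have hd : ∀ q, fderiv ℝ (fun z => s • (I.v z - c)) q = s • fderiv ℝ I.v q := by
    intro q
    have h := congrFun (fderiv_const_smul_field (𝕜 := ℝ) (f := fun z => I.v z - c) s) q
    rw [Pi.smul_apply, fderiv_sub_const] at h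
    exact h
  have h1 : ‖s‖ = 1 := by rcases hs with rfl | rfl <;> simp
  have h2 : s ^ 2 = 1 := by rcases hs with rfl | rfl <;> simp
  refine ⟨⟨fun z => s • (I.v z - c), I.al, I.C, I.al_gt, I.al_le, I.C_nonneg,
    fun q hq => ((I.c1 q hq).sub contDiffAt_const).const_smul s, fun q hq q' hq' => ?_,
    fun q hq a ha => ?_⟩, fun _ => rfl, funext fun z => ?_⟩
  · rw [hd, hd, ← smul_sub s (fderiv ℝ I.v q) (fderiv ℝ I.v q'), norm_smul, h1, one_mul]
    exact I.hol q hq q' hq'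
  · rw [hd, smul_apply, norm_smul, h1, one_mul]
    exact I.iso q hq a ha
  · show cof (fderiv ℝ (fun z => s • (I.v z - c)) (X.pr z)) (X.nu (X.pr z)) = _
    rw [hd, cof_smul_left, h2, one_smul]
    rfl

end Iso

end Pool.Agent.Bor
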