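import Pool.Agent.P.MP_26ecb7_gt.BesG
import Pool.Agent.P.MP_26ecb7_gt.BesA
import Pool.Agent.P.MP_26ecb7_gt.IsoB

noncomputable section
open Set Filter Topology MeasureTheory Metric
open scoped RealInnerProductSpace ContDiff ENNReal NNReal

namespace Pool.Agent.Bor

variable {X : Surf} {I : Iso X} {A : Appr I} {ε : ℕ → ℝ} {V : E → E}

/-- increments of the extension in terms of increments on the surface -/
theorem Mo.incr (M : Mo A ε V) : ∃ C : ℝ, 0 ≤ C ∧ ∀ q ∈ X.S, ∀ z ∈ closedBall q A.tau,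
    ‖fderiv ℝ V z - fderiv ℝ V q‖ ≤ C * (‖fderiv ℝ I.v q - fderiv ℝ I.v (X.pr z)‖ + ‖z - q‖) := by
  have hK : IsCompact (cthickening (3 * A.tau) X.S) := X.cpt.cthickening
  have hne : ∀ z ∈ cthickening (3 * A.tau) X.S, z ≠ X.o := fun z hz e => M.o_not (e ▸ hz)
  obtain ⟨L, hL, h2⟩ := isob_lip (f := fderiv ℝ X.pr) hK fun z hz =>
    (X.pr_smooth z (hne z hz)).fderiv_right (m := 1)
      (WithTop.coe_le_coe.2 (le_top : (1 + 1 : ℕ∞) ≤ ⊤))
  obtain ⟨B1, hB1, h3⟩ := isob_bd (f := fderiv ℝ X.pr) hK fun z hz =>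
    (X.pr_smooth z (hne z hz)).continuousAt_fderiv (by simp)
  obtain ⟨B2, hB2, h4⟩ := isob_bd (f := fderiv ℝ I.v) X.cpt fun z hz =>
    (I.c1 z hz).continuousAt_fderiv one_ne_zero
  refine ⟨B1 + B2 * L, by positivity, fun q hq z hz => ?_⟩
  have hq' : q ∈ cthickening (3 * A.tau) X.S := self_subset_cthickening _ hq
  have hz' : z ∈ cthickening (3 * A.tau) X.S :=
    mem_cthickening_of_dist_le z q _ _ hq (by linarith [mem_closedBall.1 hz, A.tau_pos])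
  have e : fderiv ℝ V z - fderiv ℝ V q =
      (fderiv ℝ I.v (X.pr z) - fderiv ℝ I.v q).comp (fderiv ℝ X.pr z) +
        (fderiv ℝ I.v q).comp (fderiv ℝ X.pr z - fderiv ℝ X.pr q) := by
    rw [(M.eq z hz').fderiv_eq, (M.eq q hq').fderiv_eq, I.fderiv_V (hne z hz'),
      I.fderiv_V (hne q hq'), X.pr_self hq, ContinuousLinearMap.sub_comp,
      ContinuousLinearMap.comp_sub, sub_add_sub_cancel]
  rw [e]
  refine (norm_add_le _ _).trans ((add_le_add (ContinuousLinearMap.opNorm_comp_le _ _)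
    (ContinuousLinearMap.opNorm_comp_le _ _)).trans ?_)
  refine (add_le_add (mul_le_mul_of_nonneg_left (h3 z hz') (norm_nonneg _))
    (mul_le_mul (h4 q hq) (h2 z hz' q hq') (norm_nonneg _) hB2)).trans ?_
  rw [norm_sub_rev (fderiv ℝ I.v (X.pr z))]
  have k1 := mul_nonneg hB1 (norm_nonneg (z - q))
  have k2 := mul_nonneg (mul_nonneg hB2 hL) (norm_nonneg (fderiv ℝ I.v q - fderiv ℝ I.v (X.pr z)))
  linarith

theorem besh_cube {a C s t e : ℝ} (ha : 0 ≤ a) (hC : 0 ≤ C) (hs : 0 ≤ s) (ht : 0 ≤ t) (he : t ≤ e)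
    (h : a ≤ C * (s + t)) : a ^ 3 ≤ 4 * C ^ 3 * s ^ 3 + 4 * C ^ 3 * e ^ 3 := by
  have h1 : a ≤ C * (s + e) := h.trans (mul_le_mul_of_nonneg_left (by linarith) hC)
  have h2 := pow_le_pow_left₀ ha h1 3
  have h3 : (s + e) ^ 3 ≤ 4 * s ^ 3 + 4 * e ^ 3 := by
    nlinarith [mul_nonneg (add_nonneg hs (ht.trans he)) (sq_nonneg (s - e))]
  rw [mul_pow] at h2
  nlinarith [mul_le_mul_of_nonneg_left h3 (pow_nonneg hC 3)]

/-- pointwise bound for the third moment -/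
theorem Mo.a3_le (M : Mo A ε V) (R : Rot) {K : Set P} (hK : IsCompact K) :
    ∃ C : ℝ, 0 < C ∧ ∀ᶠ n in atTop, ∀ x ∈ K,
      ENNReal.ofReal (a3 (fderiv ℝ V) (ε n) (X.psi R x) / ε n ^ 2) ≤
        ENNReal.ofReal (C / ε n ^ 4) * (∫⁻ z in X.S ∩ ball (X.psi R x) (C * ε n),
          ‖fderiv ℝ I.v (X.psi R x) - fderiv ℝ I.v z‖ₑ ^ 3 ∂μH[2]) + ENNReal.ofReal (C * ε n) := by
  obtain ⟨C0, hC0, h0⟩ := M.incr
  obtain ⟨C1, t, hC1, ht, h1⟩ := X.lint_pr R hK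
  obtain ⟨v, hv0, hv⟩ : ∃ v : ℝ, 0 ≤ v ∧ volume (ball (0 : E) 1) = ENNReal.ofReal v :=
    ⟨_, measureReal_nonneg, (ofReal_measureReal measure_ball_lt_top.ne).symm⟩
  have hc : Continuous (fderiv ℝ V) := M.c1.continuous_fderiv one_ne_zero
  have p1 : 0 ≤ 4 * C0 ^ 3 * C1 := by positivity
  have p2 : 0 ≤ 4 * C0 ^ 3 * v := by positivity
  refine ⟨C1 + 4 * C0 ^ 3 * C1 + 4 * C0 ^ 3 * v, by positivity, ?_⟩
  filter_upwards [M.lim.eventually (eventually_le_nhds ht)] with n hn x hx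
  have he := M.pos n
  have hτ := M.le n
  have hq := X.psi_mem R x
  have h2 := h1 x hx (ε n) he hn (fun y => ‖fderiv ℝ I.v (X.psi R x) - fderiv ℝ I.v y‖ₑ ^ 3)
    ((measurable_const.sub (measurable_fderiv ℝ I.v)).enorm.pow_const 3)
  generalize ε n = e at he hτ h2 ⊢
  generalize X.psi R x = q at hq h2 ⊢
  have h3 := ofReal_av he (F := fun z => ‖fderiv ℝ V z - fderiv ℝ V q‖ ^ 3) (by fun_prop)
    (fun z => by positivity) q
  have h4 : ∫⁻ z in closedBall q e, ENNReal.ofReal (‖fderiv ℝ V z - fderiv ℝ V q‖ ^ 3) ≤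
      ∫⁻ z in closedBall q e, (ENNReal.ofReal (4 * C0 ^ 3) *
        ‖fderiv ℝ I.v q - fderiv ℝ I.v (X.pr z)‖ₑ ^ 3 + ENNReal.ofReal (4 * C0 ^ 3 * e ^ 3)) := by
    refine setLIntegral_mono' measurableSet_closedBall fun z hz => ?_
    rw [← ofReal_norm, ← ENNReal.ofReal_pow (norm_nonneg _),
      ← ENNReal.ofReal_mul (by positivity), ← ENNReal.ofReal_add (by positivity) (by positivity)]
    exact ENNReal.ofReal_le_ofReal (besh_cube (norm_nonneg _) hC0 (norm_nonneg _) (norm_nonneg _)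
      (mem_closedBall_iff_norm.1 hz) (h0 q hq z (closedBall_subset_closedBall hτ hz)))
  rw [lintegral_add_right _ measurable_const, lintegral_const_mul' _ _ ENNReal.ofReal_ne_top,
    setLIntegral_const, Measure.addHaar_closedBall _ _ he.le, hv, finrank_euclideanSpace_fin,
    ← h3] at h4
  have h5 := h4.trans (add_le_add (mul_le_mul' le_rfl h2) le_rfl)
  have h6 : ∫⁻ y in X.S ∩ ball q (C1 * e), ‖fderiv ℝ I.v q - fderiv ℝ I.v y‖ₑ ^ 3 ∂μH[2] ≤
      ∫⁻ y in X.S ∩ ball q ((C1 + 4 * C0 ^ 3 * C1 + 4 * C0 ^ 3 * v) * e),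
        ‖fderiv ℝ I.v q - fderiv ℝ I.v y‖ₑ ^ 3 ∂μH[2] :=
    lintegral_mono_set (inter_subset_inter_right _ (ball_subset_ball
      (mul_le_mul_of_nonneg_right (by linarith) he.le)))
  have e1 : a3 (fderiv ℝ V) e q / e ^ 2 =
      1 / e ^ 5 * (e ^ 3 * av e (fun z => ‖fderiv ℝ V z - fderiv ℝ V q‖ ^ 3) q) := by
    rw [a3]
    field_simp
  rw [e1, ENNReal.ofReal_mul (by positivity)]
  refine (mul_le_mul' le_rfl h5).trans ?_
  rw [mul_add, ← mul_assoc, ← mul_assoc, ← ENNReal.ofReal_mul (by positivity),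
    ← ENNReal.ofReal_mul (by positivity), ← ENNReal.ofReal_mul (by positivity),
    ← ENNReal.ofReal_mul (by positivity), ← ENNReal.ofReal_mul (by positivity)]
  refine add_le_add (mul_le_mul' (ENNReal.ofReal_le_ofReal ?_) h6) (ENNReal.ofReal_le_ofReal ?_)
  · rw [show 1 / e ^ 5 * (4 * C0 ^ 3) * (C1 * e) = 4 * C0 ^ 3 * C1 / e ^ 4 by field_simp]
    exact div_le_div_of_nonneg_right (by linarith) (by positivity)
  · rw [show 1 / e ^ 5 * (4 * C0 ^ 3 * e ^ 3 * (e ^ 3 * v)) = 4 * C0 ^ 3 * v * e by field_simp]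
    exact mul_le_mul_of_nonneg_right (by linarith) he.le

end Pool.Agent.Bor
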