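import Pool.Agent.P.MP_26ecb7_gt.BesH

noncomputable section
open Set Filter Topology MeasureTheory Metric
open scoped RealInnerProductSpace ContDiff ENNReal NNReal

namespace Pool.Agent.Bor

variable {X : Surf} {I : Iso X} {A : Appr I} {ε : ℕ → ℝ} {V : E → E}

theorem besh2_mul {a : ℝ} (ha : 0 < a) : Tendsto (fun r : ℝ => a * r) (𝓝[>] 0) (𝓝[>] 0) := by
  refine tendsto_nhdsWithin_iff.2 ⟨?_, ?_⟩
  · have : Tendsto (fun r : ℝ => a * r) (𝓝 0) (𝓝 (a * 0)) := tendsto_id.const_mul a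
    rw [mul_zero] at this
    exact this.mono_left nhdsWithin_le_nhds
  · filter_upwards [self_mem_nhdsWithin] with r hr using mul_pos ha hr

/-- the third moments have density zero -/
theorem Mo.a3_lim (M : Mo A ε V) (R : Rot) {x : P} (h : BesS (fderiv ℝ I.v) X.S (X.psi R x)) :
    ∀ η > 0, ∃ ρ > 0, ∀ r, 0 < r → r < ρ → ∀ θ > 0, ∀ᶠ n in atTop,
      ∫ y in closedBall x r, a3 (fderiv ℝ V) (ε n) (X.psi R y) / ε n ^ 2 ≤ η * r ^ 2 + θ := by
  intro η hη
  have hK : IsCompact (closedBall x 1) := isCompact_closedBall x 1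
  obtain ⟨L, hL⟩ := LocallyLipschitzOn.exists_lipschitzOnWith_of_compact hK
    ((X.sm_psi R).of_le (m := 1) (by exact_mod_cast le_top)).locallyLipschitz.locallyLipschitzOn
  obtain ⟨C, C0, hC⟩ := M.a3_le R hK
  obtain ⟨C1, hC1⟩ := X.lint_chart R hK
  have a0 : (0 : ℝ) < L + 1 := by positivity
  have D0 : (0 : ℝ) < C1 * C ^ 5 * (L + 1) ^ 2 + 1 := by positivity
  have hb := (besh2_mul a0).eventually (h (η / (C1 * C ^ 5 * (L + 1) ^ 2 + 1)) (by positivity))
  obtain ⟨ρ, ρ0, hρ⟩ := mem_nhdsGT_iff_exists_Ioo_subset.1 hb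
  refine ⟨min ρ 1, lt_min ρ0 one_pos, fun r r0 hr θ θ0 => ?_⟩
  have hε : Tendsto ε atTop (𝓝[>] 0) :=
    tendsto_nhdsWithin_iff.2 ⟨M.lim, Eventually.of_forall M.pos⟩
  have h1 := ((besh2_mul C0).comp hε).eventually (hρ ⟨r0, hr.trans_le (min_le_left _ _)⟩)
  have h2 : ∀ᶠ n in atTop, C * ε n * volume.real (closedBall x r) < θ := by
    have := (M.lim.const_mul C).mul_const (volume.real (closedBall x r))
    rw [mul_zero, zero_mul] at this
    exact this.eventually (gt_mem_nhds θ0)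
  have sub : closedBall x r ⊆ closedBall x 1 :=
    closedBall_subset_closedBall (hr.le.trans (min_le_right _ _))
  filter_upwards [hC, h1, h2] with n b1 b2 b3
  have e0 := M.pos n
  have cont : Continuous fun y => a3 (fderiv ℝ V) (ε n) (X.psi R y) / ε n ^ 2 :=
    ((continuous_a3 (M.c1.continuous_fderiv (by norm_num)) (ε n)).comp
      (X.sm_psi R).continuous).div_const _
  rw [← ENNReal.ofReal_le_ofReal_iff (by positivity), ofReal_integral_eq_lintegral_ofReal
    (cont.continuousOn.integrableOn_compact (isCompact_closedBall x r))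
    (Eventually.of_forall fun y => div_nonneg (a3_nonneg _ _ _) (sq_nonneg _))]
  refine (setLIntegral_mono' measurableSet_closedBall fun y hy => b1 y (sub hy)).trans ?_
  rw [lintegral_add_right _ measurable_const, lintegral_const_mul' _ _ ENNReal.ofReal_ne_top,
    setLIntegral_const, ENNReal.ofReal_add (by positivity) θ0.le]
  refine add_le_add ?_ ?_
  · have b4 := hC1 _ sub measurableSet_closedBall (X.S ∩ ball (X.psi R x) ((L + 1) * r))
      (fun y hy => ⟨X.psi_mem R y, by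
        have c1 := hL.dist_le_mul y (sub hy) x (mem_closedBall_self zero_le_one)
        have c2 : (L : ℝ) * dist y x ≤ L * r := mul_le_mul_of_nonneg_left hy L.2
        rw [mem_ball]
        linarith⟩)
      (fun y => ∫⁻ z in X.S ∩ ball y (C * ε n), ‖fderiv ℝ I.v y - fderiv ℝ I.v z‖ₑ ^ 3 ∂μH[2])
    refine (mul_le_mul_right (b4.trans (mul_le_mul_right b2 _)) _).trans ?_
    rw [← ENNReal.ofReal_coe_nnreal, ← ENNReal.ofReal_mul C1.coe_nonneg,
      ← ENNReal.ofReal_mul (by positivity)]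
    refine ENNReal.ofReal_le_ofReal ?_
    have e : C / ε n ^ 4 * (C1 * (η / (C1 * C ^ 5 * (L + 1) ^ 2 + 1) * ((L + 1) * r) ^ 2 *
        (C * ε n) ^ 4)) = η * r ^ 2 * (C1 * C ^ 5 * (L + 1) ^ 2 / (C1 * C ^ 5 * (L + 1) ^ 2 + 1)) := by
      field_simp
    refine e.trans_le (mul_le_of_le_one_right (by positivity) ?_)
    rw [div_le_one D0]
    linarith
  · rw [← ofReal_measureReal measure_closedBall_lt_top.ne, ← ENNReal.ofReal_mul (by positivity)]
    exact ENNReal.ofReal_le_ofReal b3.le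

/-- a bounded first moment gives the Besov condition -/
theorem BesS.of_bv {Y : Type} [NormedAddCommGroup Y] {f : E → Y} {T : Set E} {x : E}
    {a C M r : ℝ} (hT : MeasurableSet T) (ha : 1 / 2 < a) (hC : 0 ≤ C) (hr : 0 < r)
    (hol : ∀ y ∈ T, ∀ z ∈ T, ‖f y - f z‖ ≤ C * ‖y - z‖ ^ a)
    (h : ∀ᶠ ε in 𝓝[>] (0 : ℝ), ∫⁻ y in T ∩ ball x r, ∫⁻ z in T ∩ ball y ε, ‖f y - f z‖ₑ
      ∂μH[2] ∂μH[2] ≤ ENNReal.ofReal (M * ε ^ 3)) : BesS f T x := by
  intro η hη
  filter_upwards [Ioo_mem_nhdsGT hr] with ρ hρ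
  have ρ0 := hρ.1
  have h1 : ∀ᶠ e in 𝓝[>] (0 : ℝ), C ^ 2 * max M 0 * e ^ (2 * a - 1) < η * ρ ^ 2 := by
    have c : ContinuousAt (fun e : ℝ => C ^ 2 * max M 0 * e ^ (2 * a - 1)) 0 :=
      continuousAt_const.mul (Real.continuousAt_rpow_const 0 _ (Or.inr (by linarith)))
    have c2 := c.tendsto
    rw [Real.zero_rpow (by linarith), mul_zero] at c2
    exact (c2.mono_left nhdsWithin_le_nhds).eventually (gt_mem_nhds (by positivity))
  filter_upwards [h, h1, self_mem_nhdsWithin] with e b1 b2 e0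
  have e0 : 0 < e := e0
  have b3 : ∀ y ∈ T ∩ ball x ρ, ∫⁻ z in T ∩ ball y e, ‖f y - f z‖ₑ ^ 3 ∂μH[2] ≤
      ENNReal.ofReal ((C * e ^ a) ^ 2) * ∫⁻ z in T ∩ ball y e, ‖f y - f z‖ₑ ∂μH[2] := by
    intro y hy
    rw [← lintegral_const_mul' _ _ ENNReal.ofReal_ne_top]
    refine setLIntegral_mono' (hT.inter measurableSet_ball) fun z hz => ?_
    rw [pow_succ, ENNReal.ofReal_pow (by positivity)]
    refine mul_le_mul_left (pow_le_pow_left' ?_ 2) _
    rw [← ofReal_norm_eq_enorm]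
    refine ENNReal.ofReal_le_ofReal ((hol y hy.1 z hz.1).trans ?_)
    refine mul_le_mul_of_nonneg_left (Real.rpow_le_rpow (norm_nonneg _) ?_ (by linarith)) hC
    rw [← dist_eq_norm, dist_comm]
    exact (mem_ball.1 hz.2).le
  refine (setLIntegral_mono' (hT.inter measurableSet_ball) b3).trans ?_
  rw [lintegral_const_mul' _ _ ENNReal.ofReal_ne_top]
  refine (mul_le_mul_right ((lintegral_mono_set
    (inter_subset_inter_right T (ball_subset_ball hρ.2.le))).trans b1) _).trans ?_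
  rw [← ENNReal.ofReal_mul (by positivity)]
  refine ENNReal.ofReal_le_ofReal ?_
  have e1 : (e ^ a) ^ 2 = e ^ (2 * a - 1) * e := by
    rw [← Real.rpow_add_one e0.ne', ← Real.rpow_natCast, ← Real.rpow_mul e0.le]
    congr 1
    push_cast
    ring
  calc (C * e ^ a) ^ 2 * (M * e ^ 3) ≤ (C * e ^ a) ^ 2 * (max M 0 * e ^ 3) := by
        gcongr
        exact le_max_left _ _
    _ = C ^ 2 * max M 0 * e ^ (2 * a - 1) * e ^ 4 := by rw [mul_pow, e1]; ring
    _ ≤ η * ρ ^ 2 * e ^ 4 := mul_le_mul_of_nonneg_right b2.le (by positivity)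

end Pool.Agent.Bor
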