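import Pool.Agent.P.MP_26ecb7_gt.BesI0
import Pool.Agent.P.MP_26ecb7_gt.BesH2

noncomputable section
open Set Filter Topology MeasureTheory Metric
open scoped RealInnerProductSpace ContDiff ENNReal NNReal

namespace Pool.Agent.Bor

variable {X : Surf} {I : Iso X} {A : Appr I} {ε : ℕ → ℝ} {V : E → E}

/-- the Besov condition kills the anomaly density -/
theorem Mo.van (M : Mo A ε V) (R R' : Rot) {c : P} {r : ℝ}
    (hc : ∀ x ∈ sqr c r, 1 / 2 < ⟪I.n R x, R'.R (ee 2)⟫) {x : P}
    (h : BesS (fderiv ℝ I.v) X.S (X.psi R x)) :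
    Van (fun n y => locaG R' (un (A.w R n) y)) (X.ka R) (sqr c r) x := by
  intro φ hφ η hη
  have hΦ : ContDiff ℝ ∞ fun z : E => φ (locaG R' z) := hφ.comp (loca_G_smooth R')
  obtain ⟨C, hC, h1⟩ := M.prod_le R (isCompact_closedBall x 1) hΦ
  obtain ⟨ρ, hρ, h2⟩ := M.a3_lim R h (η / (2 * C + 1)) (by positivity)
  refine ⟨min ρ 1, by positivity, fun c' r' hr' hlt hx hs θ hθ => ?_⟩
  have hr1 : r' ≤ 1 := (hlt.trans_le (min_le_right _ _)).le
  have hsub : sqr c' r' ⊆ closedBall x r' := fun y hy => dist_le_of_sqr hy hx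
  have hms := (sqr_compact c' r').measurableSet
  filter_upwards [h1 (θ / 8) (by positivity), A.parts R hΦ c' hr' (θ / 2) (by positivity),
    h2 r' hr' (hlt.trans_le (min_le_left _ _)) (θ / (4 * (2 * C + 1))) (by positivity),
    loca_ev A R R' hc] with n a1 a2 a3' a4
  have e1 : ∫ y in sqr c' r', φ (locaG R' (un (A.w R n) y)) *
      (lam (locaG R' (un (A.w R n) y)) * jp (fun y => locaG R' (un (A.w R n) y)) y - X.ka R y) =
      ∫ y in sqr c' r', φ (locaG R' (un (A.w R n) y)) * (kap (un (A.w R n)) y - X.ka R y) := by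
    refine setIntegral_congr_fun hms fun y hy => ?_
    simp only [loca_kap R' (A.imm_w R n) (a4 y (hs hy))]
  rw [e1]
  refine a2.trans ?_
  have hw := A.imm_w R n
  have cp : ∀ i, Continuous (pd i fun y => φ (locaG R' (un (A.w R n) y))) := fun i =>
    (contDiff_pd (hΦ.comp hw.sm_un) i).continuous
  have co : ∀ j, Continuous fun y => om (A.w R n) j y - om (X.psi R) j y := fun j =>
    (hw.sm_om j).continuous.sub ((X.imm_psi R).sm_om j).continuous
  have cg : Continuous fun y => a3 (fderiv ℝ V) (ε n) (X.psi R y) / ε n ^ 2 :=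
    ((continuous_a3 (M.c1.continuous_fderiv (by norm_num)) (ε n)).comp
      (X.sm_psi R).continuous).div_const _
  have g0 : ∀ y, 0 ≤ a3 (fderiv ℝ V) (ε n) (X.psi R y) / ε n ^ 2 := fun y =>
    div_nonneg (a3_nonneg _ _ _) (sq_nonneg _)
  have i1 := cg.continuousOn.integrableOn_compact (μ := volume) (sqr_compact c' r')
  have i2 : IntegrableOn (fun _ : P => θ / 4) (sqr c' r') :=
    continuousOn_const.integrableOn_compact (sqr_compact c' r')
  have b1 : (∫ y in sqr c' r', (|pd 0 (fun y => φ (locaG R' (un (A.w R n) y))) y| *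
        |om (A.w R n) 1 y - om (X.psi R) 1 y| +
      |pd 1 (fun y => φ (locaG R' (un (A.w R n) y))) y| *
        |om (A.w R n) 0 y - om (X.psi R) 0 y|)) ≤
      ∫ y in sqr c' r', (2 * C * (a3 (fderiv ℝ V) (ε n) (X.psi R y) / ε n ^ 2) + θ / 4) := by
    refine setIntegral_mono_on ((((cp 0).abs.mul (co 1).abs).add
      ((cp 1).abs.mul (co 0).abs)).continuousOn.integrableOn_compact (sqr_compact c' r'))
      ((i1.const_mul _).add i2) hms fun y hy => ?_
    have hy1 : y ∈ closedBall x 1 := closedBall_subset_closedBall hr1 (hsub hy)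
    have := a1 y hy1 0 1
    have := a1 y hy1 1 0
    linarith
  rw [integral_add (i1.const_mul _) i2, integral_const_mul, setIntegral_const, Measure.real,
    volume_sqr c' hr'.le, ENNReal.toReal_ofReal (by positivity), smul_eq_mul] at b1
  have b2 : ∫ y in sqr c' r', a3 (fderiv ℝ V) (ε n) (X.psi R y) / ε n ^ 2 ≤
      ∫ y in closedBall x r', a3 (fderiv ℝ V) (ε n) (X.psi R y) / ε n ^ 2 :=
    setIntegral_mono_set (cg.continuousOn.integrableOn_compact (isCompact_closedBall x r'))
      (Eventually.of_forall g0) hsub.eventuallyLE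
  have b0 : 0 ≤ ∫ y in sqr c' r', a3 (fderiv ℝ V) (ε n) (X.psi R y) / ε n ^ 2 :=
    integral_nonneg g0
  have b3 := mul_le_mul_of_nonneg_left (b2.trans a3') (show 0 ≤ 2 * C + 1 by positivity)
  have e2 : (2 * C + 1) * (η / (2 * C + 1) * r' ^ 2 + θ / (4 * (2 * C + 1))) =
      η * r' ^ 2 + θ / 4 := by
    field_simp
  have b4 : r' ^ 2 * (θ / 4) ≤ θ / 4 :=
    mul_le_of_le_one_left (by positivity) (pow_le_one₀ hr'.le hr1)
  rw [e2] at b3
  linarith

end Pool.Agent.Bor
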