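import Pool.Agent.P.MP_26ecb7_gt.BesC
import Pool.Agent.P.MP_26ecb7_gt.BesD
import Pool.Agent.P.MP_26ecb7_gt.BesE

noncomputable section
open Set Filter Topology MeasureTheory Metric
open scoped RealInnerProductSpace ContDiff ENNReal NNReal

namespace Pool.Agent.Bor

variable {X : Surf} {I : Iso X} {A : Appr I} {ε : ℕ → ℝ} {V : E → E}

theorem besi0_alg {C1 C2 C3 k l m e p o : ℝ} (h1 : 0 ≤ C1) (h2 : 0 ≤ C2) (h3 : 0 ≤ C3)
    (hk : 0 ≤ k) (hl : 0 ≤ l) (he : 0 < e) (hm : l ≤ m) (ho0 : 0 ≤ o)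
    (hp : p ≤ C1 * (k * l / e + 1)) (ho : o ≤ C2 * (C3 * (l ^ 2 / e + e) + k * l)) :
    p * o ≤ C1 * C2 * k * C3 * (l ^ 3 / e ^ 2)
      + C1 * C2 * ((k * C3 + k) * m + (k ^ 2 + C3) * (m ^ 2 / e) + C3 * e) := by
  have a1 : p * o ≤ C1 * (k * l / e + 1) * (C2 * (C3 * (l ^ 2 / e + e) + k * l)) :=
    mul_le_mul hp ho ho0 (by positivity)
  have a2 : C1 * (k * l / e + 1) * (C2 * (C3 * (l ^ 2 / e + e) + k * l)) =
      C1 * C2 * k * C3 * (l ^ 3 / e ^ 2)
      + C1 * C2 * ((k * C3 + k) * l + (k ^ 2 + C3) * (l ^ 2 / e) + C3 * e) := by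
    field_simp
    ring
  rw [a2] at a1
  refine a1.trans (add_le_add le_rfl (mul_le_mul_of_nonneg_left ?_ (by positivity)))
  gcongr

theorem besi0_lim {a b c B al : ℝ} (hal : 1 / 2 < al) {ε : ℕ → ℝ} (hp : ∀ n, 0 < ε n)
    (hε : Tendsto ε atTop (𝓝 0)) :
    Tendsto (fun n => a * (B * ε n ^ al) + b * ((B * ε n ^ al) ^ 2 / ε n) + c * ε n) atTop
      (𝓝 0) := by
  have h : ∀ t : ℝ, 0 < t → Tendsto (fun n => ε n ^ t) atTop (𝓝 0) := fun t ht => by
    have h2 := (Real.continuousAt_rpow_const 0 t (Or.inr ht.le)).tendsto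
    rw [Real.zero_rpow ht.ne'] at h2
    exact h2.comp hε
  have e : ∀ n, (B * ε n ^ al) ^ 2 / ε n = B ^ 2 * ε n ^ (2 * al - 1) := fun n => by
    rw [Real.rpow_sub_one (hp n).ne', mul_comm 2 al, Real.rpow_mul (hp n).le, Real.rpow_two]
    ring
  simp only [e]
  have h1 := ((((h al (by linarith)).const_mul B).const_mul a).add
    (((h (2 * al - 1) (by linarith)).const_mul (B ^ 2)).const_mul b)).add (hε.const_mul c)
  simpa using h1

/-- pointwise bound for the anomaly density -/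
theorem Mo.prod_le (M : Mo A ε V) (R : Rot) {K : Set P} (hK : IsCompact K) {Φ : E → ℝ}
    (hΦ : ContDiff ℝ ∞ Φ) : ∃ C : ℝ, 0 ≤ C ∧ ∀ θ > 0, ∀ᶠ n in atTop, ∀ x ∈ K, ∀ i j,
      |pd i (fun y => Φ (un (A.w R n) y)) x| * |om (A.w R n) j x - om (X.psi R) j x|
        ≤ C * (a3 (fderiv ℝ V) (ε n) (X.psi R x) / ε n ^ 2) + θ := by
  have hτ := A.tau_pos
  have hK3 : IsCompact (cthickening (3 * A.tau) X.S) := X.cpt.cthickening
  obtain ⟨H, hH0, hH⟩ := I.hol_V hK3 M.o_not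
  have hal : 0 < I.al := by linarith [I.al_gt]
  have hDc : Continuous (fderiv ℝ V) := M.c1.continuous_fderiv (by simp)
  have hD : ∀ z ∈ cthickening (3 * A.tau) X.S, fderiv ℝ V z = fderiv ℝ I.V z :=
    fun z hz => (M.eq z hz).fderiv_eq
  have hne : ∀ z ∈ cthickening (3 * A.tau) X.S, z ≠ X.o := fun z hz h => M.o_not (h ▸ hz)
  have hG : thickening (3 * A.tau) X.S ⊆ cthickening (3 * A.tau) X.S :=
    thickening_subset_cthickening _ _
  obtain ⟨C3, h3, hchr⟩ := chr_rate (V := V) (u := X.pr) (G := thickening (3 * A.tau) X.S)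
    (K := X.S) hτ X.cpt isOpen_thickening
    (cthickening_subset_thickening' (by positivity) (by linarith) _) M.c1
    (fun z hz => X.pr_smooth z (hne z (hG hz)))
    (fun z hz b c => by rw [hD z (hG hz)]; exact I.inner_V (hne z (hG hz)) b c)
  obtain ⟨C2, h2, hom⟩ := A.om_rate R hK
  obtain ⟨C1, h1, hpd⟩ := A.pd_rate R hK hΦ
  obtain ⟨c1, hc1, havg⟩ := avg_bound
  obtain ⟨c2, hc2, hpow⟩ := av_pow
  set v1 : ℝ := volume.real (closedBall (0 : E) 1) with hv1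
  have hv : 0 ≤ v1 := measureReal_nonneg
  refine ⟨C1 * C2 * (c1 * c2) * C3, by positivity, fun θ hθ => ?_⟩
  have hlim := (besi0_lim (a := c1 * c2 * C3 + c1 * c2) (b := (c1 * c2) ^ 2 + C3) (c := C3)
    (B := (v1 + 1) * H) I.al_gt M.pos M.lim).const_mul (C1 * C2)
  rw [mul_zero] at hlim
  filter_upwards [hom, hpd, hlim.eventually (gt_mem_nhds hθ)] with n hn1 hn2 hn3 x hx i j
  set q := X.psi R x with hq
  have hqS : q ∈ X.S := X.psi_mem R x
  have hqK : q ∈ cthickening (3 * A.tau) X.S := self_subset_cthickening _ hqS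
  have he := M.pos n
  have ha0 : 0 ≤ a3 (fderiv ℝ V) (ε n) q := a3_nonneg _ _ _
  obtain ⟨l, hl, hl3⟩ : ∃ l : ℝ, 0 ≤ l ∧ l ^ 3 = a3 (fderiv ℝ V) (ε n) q :=
    ⟨a3 (fderiv ℝ V) (ε n) q ^ ((3 : ℕ) : ℝ)⁻¹, Real.rpow_nonneg ha0 _,
      Real.rpow_inv_natCast_pow ha0 (by norm_num)⟩
  have hFc : Continuous fun z => ‖fderiv ℝ V z - fderiv ℝ V q‖ := (hDc.sub continuous_const).norm
  have hm : l ≤ (v1 + 1) * H * ε n ^ I.al := by
    have hm0 : 0 ≤ H * ε n ^ I.al := mul_nonneg hH0 (Real.rpow_nonneg he.le _)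
    have b1 : a3 (fderiv ℝ V) (ε n) q ≤ av (ε n) (fun _ => (H * ε n ^ I.al) ^ 3) q := by
      refine av_mono he (hFc.pow 3) continuous_const fun z hz => ?_
      have hz' : dist z q ≤ ε n := hz
      have hzK : z ∈ cthickening (3 * A.tau) X.S :=
        mem_cthickening_of_dist_le z q _ _ hqS (by linarith [M.le n])
      refine pow_le_pow_left₀ (norm_nonneg _) ?_ 3
      rw [hD z hzK, hD q hqK]
      refine (hH z hzK q hqK).trans (mul_le_mul_of_nonneg_left ?_ hH0)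
      rw [dist_eq_norm] at hz'
      exact Real.rpow_le_rpow (norm_nonneg _) hz' hal.le
    rw [av_const, ← hv1, ← hl3] at b1
    have b2 : v1 ≤ (v1 + 1) ^ 3 := by nlinarith [sq_nonneg v1, mul_nonneg hv (sq_nonneg v1)]
    refine le_of_pow_le_pow_left₀ (n := 3) (by norm_num) (by positivity) (b1.trans ?_)
    rw [mul_assoc, mul_pow (v1 + 1)]
    exact mul_le_mul_of_nonneg_right b2 (by positivity)
  have hav : av (ε n) (fun z => ‖fderiv ℝ V z - fderiv ℝ V q‖) q ≤ c2 * l :=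
    (hpow (ε n) _ q l hFc (fun _ => norm_nonneg _) hl hl3.ge).1
  obtain ⟨g1, g2⟩ := havg _ (ε n) (fderiv ℝ V) q (fderiv ℝ V q) he hDc
  have hW : fderiv ℝ (A.W n) = mol (ε n) (fderiv ℝ V) := by rw [M.W_eq, fderiv_mol he M.c1]
  have g3 : c1 * av (ε n) (fun z => ‖fderiv ℝ V z - fderiv ℝ V q‖) q ≤ c1 * c2 * l := by
    rw [mul_assoc]; exact mul_le_mul_of_nonneg_left hav hc1
  have s0 : 0 ≤ C3 * (l ^ 2 / ε n + ε n) := by positivity
  have s1 : 0 ≤ c1 * c2 * l := by positivity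
  have ho := hn1 x hx (C3 * (l ^ 2 / ε n + ε n) + c1 * c2 * l) (by positivity)
    (fun a b c => by
      rw [M.W_eq]
      refine (hchr (ε n) he (M.le n) q hqS l hl hl3.ge a b c).trans ?_
      gcongr
      linarith)
    (by rw [hW, ← hD q hqK]; linarith) j
  have hp : |pd i (fun y => Φ (un (A.w R n) y)) x| ≤ C1 * (c1 * c2 * l / ε n + 1) := by
    refine (hn2 x hx i).trans (mul_le_mul_of_nonneg_left (add_le_add ?_ le_rfl) h1)
    rw [hW]
    exact g2.trans (div_le_div_of_nonneg_right g3 he.le)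
  have := besi0_alg h1 h2 h3 (mul_nonneg hc1 hc2) hl he hm (abs_nonneg _) hp ho
  rw [hl3] at this
  linarith

end Pool.Agent.Bor
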