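import Pool.Agent.P.MP_26ecb7_gt.CConv0

noncomputable section
open Set Filter Topology MeasureTheory Metric
open scoped RealInnerProductSpace ContDiff ENNReal

namespace Pool.Agent.Bor

theorem cconv_sqrt {K : Set P} {f : ℕ → P → ℝ} {f0 : P → ℝ} (h : ∀ n x, 0 ≤ f n x)
    (h0 : ∀ x, 0 ≤ f0 x)
    (hf : TendstoUniformlyOn (fun n x => f n x ^ 2) (fun x => f0 x ^ 2) atTop K) :
    TendstoUniformlyOn f f0 atTop K := by
  rw [Metric.tendstoUniformlyOn_iff] at hf ⊢
  intro ε hε
  filter_upwards [hf (ε ^ 2) (by positivity)] with n hn x hx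
  have h1 := hn x hx
  rw [Real.dist_eq] at h1 ⊢
  have a := h n x
  have b := h0 x
  have h2 := abs_lt.1 h1
  rw [abs_lt]
  constructor
  · by_contra hc
    have : ε ≤ f n x - f0 x := by linarith
    nlinarith
  · by_contra hc
    have : ε ≤ f0 x - f n x := by linarith
    nlinarith

/-- second order chain rule -/
theorem cconv_chain {W : E → E} {g a : P → E} {x : P} (hW : ContDiffAt ℝ ∞ W (g x))
    (hg : DifferentiableAt ℝ g x) (ha : DifferentiableAt ℝ a x) (i : Fin 2) :
    pd i (fun y => fderiv ℝ W (g y) (a y)) x =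
      fderiv ℝ (fderiv ℝ W) (g x) (pd i g x) (a x) + fderiv ℝ W (g x) (pd i a x) := by
  have h1 : DifferentiableAt ℝ (fderiv ℝ W) (g x) :=
    (hW.fderiv_right (m := ∞) (by simp)).differentiableAt (by simp)
  have h2 : HasFDerivAt (fun y => fderiv ℝ W (g y))
      ((fderiv ℝ (fderiv ℝ W) (g x)).comp (fderiv ℝ g x)) x :=
    h1.hasFDerivAt.comp x hg.hasFDerivAt
  have h3 := (h2.clm_apply ha.hasFDerivAt).fderiv
  unfold pd
  rw [h3]
  simp [add_comm]

theorem cconv_ch_psi {X : Surf} (I : Iso X) (R : Rot) (i j k : Fin 2) (x : P) :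
    ch (X.psi R) i j k x =
      chr X.pr (X.psi R x) (pd i (X.psi R) x) (pd j (X.psi R) x) (pd k (X.psi R) x) +
        ⟪fderiv ℝ I.V (X.psi R x) (pd i (pd j (X.psi R)) x),
          fderiv ℝ I.V (X.psi R x) (pd k (X.psi R) x)⟫ := by
  have e : ∀ (j : Fin 2) (y : P), fderiv ℝ X.pr (X.psi R y) (pd j (X.psi R) y) =
      pd j (X.psi R) y := fun j y => X.fderiv_pr (X.psi_mem R y) (X.tang_psi R j y)
  have h := cconv_chain (W := X.pr) (g := X.psi R) (a := pd j (X.psi R)) (x := x)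
    (X.pr_smooth _ (X.ne_o (X.psi_mem R x))) ((X.sm_psi R).differentiable (by simp) x)
    ((contDiff_pd (X.sm_psi R) j).differentiable (by simp) x) i
  have e2 : (fun y => fderiv ℝ X.pr (X.psi R y) (pd j (X.psi R) y)) = pd j (X.psi R) :=
    funext (e j)
  rw [e2] at h
  rw [I.inner_V (X.ne_o (X.psi_mem R x)), chr, ← inner_add_left, ← h, e k x, ch]

theorem cconv_cont {X : Surf} (I : Iso X) (R : Rot) {a : P → E} (ha : Continuous a) :
    Continuous fun x => fderiv ℝ I.V (X.psi R x) (a x) := by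
  refine Continuous.clm_apply (continuous_iff_continuousAt.2 fun x => ?_) ha
  have h1 : ContinuousAt (fderiv ℝ I.V) (X.psi R x) :=
    ((I.V_c1 (X.ne_o (X.psi_mem R x))).fderiv_right (m := 0) (by simp)).continuousAt
  exact h1.comp (X.sm_psi R).continuous.continuousAt

namespace Appr
variable {X : Surf} {I : Iso X} (A : Appr I)

variable (R : Rot) {K : Set P} (hK : IsCompact K)

theorem cconv_mem (x : P) : X.psi R x ∈ thickening A.tau X.S :=
  self_subset_thickening A.tau_pos _ (X.psi_mem R x)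

include hK

theorem cconv_app {a : P → E} (ha : Continuous a) :
    TendstoUniformlyOn (fun n x => fderiv ℝ (A.W n) (X.psi R x) (a x))
      (fun x => fderiv ℝ I.V (X.psi R x) (a x)) atTop K := by
  obtain ⟨B, hB⟩ := hK.exists_bound_of_continuousOn ha.continuousOn
  have hc := Metric.tendstoUniformlyOn_iff.1 A.c1
  rw [Metric.tendstoUniformlyOn_iff]
  intro ε hε
  have hB1 : 0 < |B| + 1 := by positivity
  filter_upwards [hc (ε / (|B| + 1)) (by positivity)] with n hn x hx
  have h1 := hn _ (A.cconv_mem R x)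
  rw [dist_eq_norm] at h1 ⊢
  rw [lt_div_iff₀ hB1] at h1
  have h2 := (fderiv ℝ I.V (X.psi R x) - fderiv ℝ (A.W n) (X.psi R x)).le_opNorm (a x)
  rw [sub_apply] at h2
  have h3 : ‖a x‖ ≤ |B| + 1 := by linarith [hB x hx, le_abs_self B]
  exact (h2.trans (mul_le_mul_of_nonneg_left h3 (norm_nonneg _))).trans_lt h1

theorem cconv_chr {a b c : P → E} (ha : Continuous a) (hb : Continuous b) (hc : Continuous c) :
    TendstoUniformlyOn (fun n x => chr (A.W n) (X.psi R x) (a x) (b x) (c x))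
      (fun x => chr X.pr (X.psi R x) (a x) (b x) (c x)) atTop K := by
  obtain ⟨B, hB⟩ := hK.exists_bound_of_continuousOn
    ((ha.norm.mul hb.norm).mul hc.norm).continuousOn
  rw [Metric.tendstoUniformlyOn_iff]
  intro ε hε
  have hB1 : 0 < |B| + 1 := by positivity
  filter_upwards [A.c2 (ε / (|B| + 1)) (by positivity)] with n hn x hx
  have h1 := hn _ (A.cconv_mem R x) (a x) (b x) (c x)
  have h2 : ‖a x‖ * ‖b x‖ * ‖c x‖ < |B| + 1 := by
    have h3 : ‖a x‖ * ‖b x‖ * ‖c x‖ ≤ B := (le_abs_self _).trans (hB x hx)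
    linarith [le_abs_self B]
  rw [Real.dist_eq, abs_sub_comm]
  refine h1.trans_lt ?_
  calc ε / (|B| + 1) * ‖a x‖ * ‖b x‖ * ‖c x‖ = ε / (|B| + 1) * (‖a x‖ * ‖b x‖ * ‖c x‖) := by ring
    _ < ε / (|B| + 1) * (|B| + 1) := mul_lt_mul_of_pos_left h2 (by positivity)
    _ = ε := div_mul_cancel₀ _ hB1.ne'

theorem pd_conv (i : Fin 2) :
    TendstoUniformlyOn (fun n => pd i (A.w R n)) (pd i (I.w R)) atTop K := by
  have e1 : (fun n => pd i (A.w R n)) =
      fun n x => fderiv ℝ (A.W n) (X.psi R x) (pd i (X.psi R) x) :=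
    funext fun n => funext fun x => A.pd_w R n i x
  have e2 : pd i (I.w R) = fun x => fderiv ℝ I.V (X.psi R x) (pd i (X.psi R) x) :=
    funext fun x => I.pd_w R i x
  rw [e1, e2]
  exact A.cconv_app R hK (contDiff_pd (X.sm_psi R) i).continuous

theorem gm_conv (i j : Fin 2) :
    TendstoUniformlyOn (fun n => gm (A.w R n) i j) (gm (X.psi R) i j) atTop K := by
  have hc : ∀ i : Fin 2, Continuous (pd i (I.w R)) := fun i => by
    have e2 : pd i (I.w R) = fun x => fderiv ℝ I.V (X.psi R x) (pd i (X.psi R) x) :=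
      funext fun x => I.pd_w R i x
    rw [e2]
    exact cconv_cont I R (contDiff_pd (X.sm_psi R) i).continuous
  have e : gm (X.psi R) i j = gm (I.w R) i j := funext fun x => (I.gm_w R i j x).symm
  rw [e]
  exact tu_inner hK (A.pd_conv R hK i) (A.pd_conv R hK j) (hc i).continuousOn (hc j).continuousOn

theorem sq_conv : TendstoUniformlyOn (fun n => sq (A.w R n)) (sq (X.psi R)) atTop K := by
  have hc : ∀ i j, ContinuousOn (gm (X.psi R) i j) K := fun i j =>
    ((X.imm_psi R).sm_gm i j).continuous.continuousOn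
  refine cconv_sqrt (fun _ _ => norm_nonneg _) (fun _ => norm_nonneg _) ?_
  simp only [sq_sq]
  simp only [pow_two]
  exact tu_sub (tu_mul hK (A.gm_conv R hK 0 0) (A.gm_conv R hK 1 1) (hc 0 0) (hc 1 1))
    (tu_mul hK (A.gm_conv R hK 0 1) (A.gm_conv R hK 0 1) (hc 0 1) (hc 0 1))

theorem gi_conv (i j : Fin 2) :
    TendstoUniformlyOn (fun n => gi (A.w R n) i j) (gi (X.psi R) i j) atTop K := by
  have hc : ∀ i j, ContinuousOn (gm (X.psi R) i j) K := fun i j =>
    ((X.imm_psi R).sm_gm i j).continuous.continuousOn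
  have hs : ContinuousOn (sq (X.psi R)) K := (X.imm_psi R).sm_sq.continuous.continuousOn
  have hne : ∀ x ∈ K, sq (X.psi R) x * sq (X.psi R) x ≠ 0 := fun x _ =>
    mul_ne_zero ((X.imm_psi R).sq_pos x).ne' ((X.imm_psi R).sq_pos x).ne'
  have hinv := tu_inv hK (tu_mul hK (A.sq_conv R hK) (A.sq_conv R hK) hs hs) (hs.mul hs) hne
  have cinv := (hs.mul hs).inv₀ hne
  unfold gi
  simp only [pow_two, div_eq_mul_inv]
  by_cases hij : i = j
  · simp only [if_pos hij]
    exact tu_mul hK (A.gm_conv R hK _ _) hinv (hc _ _) cinv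
  · simp only [if_neg hij]
    exact tu_mul hK (A.gm_conv R hK 0 1).neg hinv (hc 0 1).neg cinv

theorem ch_conv (i j k : Fin 2) :
    TendstoUniformlyOn (fun n => ch (A.w R n) i j k) (ch (X.psi R) i j k) atTop K := by
  have c1 : ∀ i : Fin 2, Continuous (pd i (X.psi R)) := fun i =>
    (contDiff_pd (X.sm_psi R) i).continuous
  have c2 : Continuous (pd i (pd j (X.psi R))) :=
    (contDiff_pd (contDiff_pd (X.sm_psi R) j) i).continuous
  have e1 : (fun n => ch (A.w R n) i j k) = fun n x =>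
      chr (A.W n) (X.psi R x) (pd i (X.psi R) x) (pd j (X.psi R) x) (pd k (X.psi R) x) +
        ⟪fderiv ℝ (A.W n) (X.psi R x) (pd i (pd j (X.psi R)) x),
          fderiv ℝ (A.W n) (X.psi R x) (pd k (X.psi R) x)⟫ := by
    funext n x
    rw [ch, A.pd_pd_w, A.pd_w, inner_add_left, chr]
  have e2 := funext (cconv_ch_psi I R i j k)
  rw [e1, e2]
  exact tu_add (A.cconv_chr R hK (c1 i) (c1 j) (c1 k))
    (tu_inner hK (A.cconv_app R hK c2) (A.cconv_app R hK (c1 k))
      (cconv_cont I R c2).continuousOn (cconv_cont I R (c1 k)).continuousOn)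

theorem om_conv (i : Fin 2) :
    TendstoUniformlyOn (fun n => om (A.w R n) i) (om (X.psi R) i) atTop K := by
  have hc : ∀ i j, ContinuousOn (gm (X.psi R) i j) K := fun i j =>
    ((X.imm_psi R).sm_gm i j).continuous.continuousOn
  have hh : ∀ i j k, ContinuousOn (ch (X.psi R) i j k) K := fun i j k =>
    ((X.imm_psi R).sm_ch i j k).continuous.continuousOn
  have hs : ContinuousOn (sq (X.psi R)) K := (X.imm_psi R).sm_sq.continuous.continuousOn
  have hne : ∀ x ∈ K, gm (X.psi R) 0 0 x * sq (X.psi R) x ≠ 0 := fun x _ =>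
    mul_ne_zero ((X.imm_psi R).gm_pos 0 x).ne' ((X.imm_psi R).sq_pos x).ne'
  have hinv := tu_inv hK (tu_mul hK (A.gm_conv R hK 0 0) (A.sq_conv R hK) (hc 0 0) hs)
    ((hc 0 0).mul hs) hne
  have cinv := ((hc 0 0).mul hs).inv₀ hne
  unfold om
  simp only [div_eq_mul_inv]
  exact tu_mul hK
    (tu_sub (tu_mul hK (A.gm_conv R hK 0 0) (A.ch_conv R hK i 0 1) (hc 0 0) (hh i 0 1))
      (tu_mul hK (A.gm_conv R hK 0 1) (A.ch_conv R hK i 0 0) (hc 0 1) (hh i 0 0)))
    hinv (((hc 0 0).mul (hh i 0 1)).sub ((hc 0 1).mul (hh i 0 0))) cinv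

end Appr


end Pool.Agent.Bor
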