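import Pool.Agent.P.MP_26ecb7_gt.Mat0

noncomputable section
open Set Filter Topology MeasureTheory Metric
open scoped RealInnerProductSpace ContDiff ENNReal

namespace Pool.Agent.Bor

/-- Fatou type lemmas -/
theorem fatou_ge {Ω : Type} [MeasurableSpace Ω] {m : Measure Ω} {f : ℕ → Ω → ℝ} {g g0 : Ω → ℝ}
    (hf : ∀ n, Integrable (f n) m) (h0 : ∀ᶠ n in atTop, ∀ᵐ x ∂m, 0 ≤ f n x)
    (hl : ∀ᵐ x ∂m, Tendsto (fun n => f n x) atTop (𝓝 (g x))) (hg : ∀ᵐ x ∂m, g0 x ≤ g x)
    (i0 : Integrable g0 m) : ∀ η > 0, ∀ᶠ n in atTop, ∫ x, g0 x ∂m - η ≤ ∫ x, f n x ∂m := by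
  intro η hη
  have hi : ∀ n, Integrable (fun x => min (f n x) (g0 x)) m := fun n => (hf n).inf i0
  have ht : Tendsto (fun n => ∫ x, min (f n x) (g0 x) ∂m) atTop (𝓝 (∫ x, g0 x ∂m)) := by
    refine tendsto_integral_filter_of_dominated_convergence (fun x => |g0 x|)
      (Eventually.of_forall fun n => (hi n).aestronglyMeasurable) ?_ i0.abs ?_
    · filter_upwards [h0] with n hn
      filter_upwards [hn] with x hx
      rw [Real.norm_eq_abs, abs_le]
      refine ⟨le_min (by linarith [abs_nonneg (g0 x)]) (neg_abs_le _), ?_⟩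
      exact (min_le_right _ _).trans (le_abs_self _)
    · filter_upwards [hl, hg] with x h1 h2
      have := h1.min (tendsto_const_nhds (x := g0 x))
      rwa [min_eq_right h2] at this
  filter_upwards [ht.eventually (lt_mem_nhds (sub_lt_self _ hη))] with n hn
  exact hn.le.trans (integral_mono (hi n) (hf n) fun x => min_le_left _ _)

theorem fatou_eq {Ω : Type} [MeasurableSpace Ω] {m : Measure Ω} {f : ℕ → Ω → ℝ} {g g0 : Ω → ℝ}
    (hf : ∀ n, Integrable (f n) m) (h0 : ∀ᶠ n in atTop, ∀ᵐ x ∂m, 0 ≤ f n x)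
    (hl : ∀ᵐ x ∂m, Tendsto (fun n => f n x) atTop (𝓝 (g x))) (hg : ∀ᵐ x ∂m, g0 x ≤ g x)
    (i0 : Integrable g0 m) (hI : Tendsto (fun n => ∫ x, f n x ∂m) atTop (𝓝 (∫ x, g0 x ∂m))) :
    ∀ᵐ x ∂m, g x = g0 x := by
  have hm : AEStronglyMeasurable g m :=
    aestronglyMeasurable_of_tendsto_ae atTop (fun n => (hf n).aestronglyMeasurable) hl
  have key : ∀ N, ∀ᵐ x ∂m, min (g x) (max (g0 x) (f N x)) = g0 x := by
    intro N
    have i1 : Integrable (fun x => max (g0 x) (f N x)) m := i0.sup (hf N)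
    have lo : ∀ᵐ x ∂m, g0 x ≤ min (g x) (max (g0 x) (f N x)) := by
      filter_upwards [hg] with x hx
      exact le_min hx (le_max_left _ _)
    have i2 : Integrable (fun x => min (g x) (max (g0 x) (f N x))) m := by
      refine Integrable.mono' (i0.abs.add i1.abs) (hm.inf i1.aestronglyMeasurable) ?_
      filter_upwards [lo] with x hx
      rw [Real.norm_eq_abs, abs_le]
      have a1 := neg_abs_le (g0 x)
      have a2 := le_abs_self (max (g0 x) (f N x))
      have a3 := abs_nonneg (g0 x)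
      have a4 := abs_nonneg (max (g0 x) (f N x))
      have a5 := min_le_right (g x) (max (g0 x) (f N x))
      simp only [Pi.add_apply]
      constructor <;> linarith
    have le1 : ∫ x, min (g x) (max (g0 x) (f N x)) ∂m ≤ ∫ x, g0 x ∂m := by
      refine le_of_forall_pos_le_add fun η hη => ?_
      have := ge_of_tendsto hI (fatou_ge hf h0 hl
        (Eventually.of_forall fun x => min_le_left (g x) (max (g0 x) (f N x))) i2 η hη)
      linarith
    have e := (integral_eq_iff_of_ae_le i0 i2 lo).1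
      (le_antisymm (integral_mono_ae i0 i2 lo) le1)
    filter_upwards [e] with x hx
    exact hx.symm
  filter_upwards [ae_all_iff.2 key, hl, hg] with x h1 h2 h3
  have t1 := (tendsto_const_nhds (x := g x)).min ((tendsto_const_nhds (x := g0 x)).max h2)
  rw [max_eq_right h3, min_self] at t1
  exact tendsto_nhds_unique t1 (tendsto_const_nhds.congr fun N => (h1 N).symm)

theorem fatou_dom {Ω : Type} [MeasurableSpace Ω] {m : Measure Ω} {f e : ℕ → Ω → ℝ} {g : Ω → ℝ}
    (hf : ∀ n, Integrable (f n) m) (he : ∀ n, Integrable (e n) m)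
    (h0 : ∀ᶠ n in atTop, ∀ᵐ x ∂m, 0 ≤ e n x ∧ e n x ≤ f n x)
    (hl : ∀ᵐ x ∂m, Tendsto (fun n => f n x) atTop (𝓝 (g x))) (ig : Integrable g m)
    (hI : Tendsto (fun n => ∫ x, f n x ∂m) atTop (𝓝 (∫ x, g x ∂m)))
    (hz : ∀ᵐ x ∂m, Tendsto (fun n => e n x) atTop (𝓝 0)) :
    Tendsto (fun n => ∫ x, e n x ∂m) atTop (𝓝 0) := by
  have k := fatou_ge (f := fun n x => f n x - e n x) (g := g) (g0 := g)
    (fun n => (hf n).sub (he n))
    (by
      filter_upwards [h0] with n hn
      filter_upwards [hn] with x hx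
      linarith [hx.2])
    (by
      filter_upwards [hl, hz] with x h1 h2
      simpa using h1.sub h2)
    (Eventually.of_forall fun x => le_rfl) ig
  refine tendsto_order.2 ⟨fun a ha => ?_, fun a ha => ?_⟩
  · filter_upwards [h0] with n hn
    refine ha.trans_le (integral_nonneg_of_ae ?_)
    filter_upwards [hn] with x hx
    exact hx.1
  · have h2 : (0 : ℝ) < a / 2 := by linarith
    filter_upwards [k (a / 2) h2, hI.eventually (gt_mem_nhds (lt_add_of_pos_right _ h2))]
      with n h3 h4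
    rw [integral_sub (hf n) (he n)] at h3
    linarith

theorem tendsto_of_sum {k : ℕ} {u : ℕ → Fin k → ℝ} {c : Fin k → ℝ}
    (h : ∀ a, ∀ η > 0, ∀ᶠ n in atTop, c a - η ≤ u n a)
    (hs : Tendsto (fun n => ∑ a, u n a) atTop (𝓝 (∑ a, c a))) (a : Fin k) :
    Tendsto (fun n => u n a) atTop (𝓝 (c a)) := by
  refine tendsto_order.2 ⟨fun b hb => ?_, fun b hb => ?_⟩
  · filter_upwards [h a ((c a - b) / 2) (by linarith)] with n hn
    linarith
  · have hk : (0 : ℝ) < k + 1 := by positivity
    have hη : 0 < (b - c a) / (k + 1) := div_pos (by linarith) hk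
    set η := (b - c a) / (k + 1) with hd
    have e : η * (k + 1) = b - c a := by rw [hd]; field_simp
    filter_upwards [eventually_all.2 fun i => h i η hη,
      hs.eventually (gt_mem_nhds (lt_add_of_pos_right _ hη))] with n h1 h2
    have h3 : u n a - (c a - η) ≤ ∑ i, (u n i - (c i - η)) :=
      Finset.single_le_sum (f := fun i => u n i - (c i - η))
        (fun i _ => sub_nonneg.2 (h1 i)) (Finset.mem_univ a)
    simp only [Finset.sum_sub_distrib, Finset.sum_const, Finset.card_univ, Fintype.card_fin,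
      nsmul_eq_mul] at h3
    nlinarith

end Pool.Agent.Bor
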