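import Pool.Agent.P.MP_26ecb7_gt.IsoB
import Pool.Agent.P.MP_26ecb7_gt.Mat

noncomputable section
open Set Filter Topology MeasureTheory Metric
open scoped RealInnerProductSpace ContDiff ENNReal

namespace Pool.Agent.Bor

theorem cconv0_bound {X : Surf} (I : Iso X) {K : Set E} (hK : IsCompact K) (ho : X.o ∉ K) :
    ∃ C : ℝ, 0 ≤ C ∧ ∀ z ∈ K, ‖I.V z‖ ≤ C ∧ ‖fderiv ℝ I.V z‖ ≤ C := by
  have hne : ∀ z ∈ K, z ≠ X.o := fun z hz h => ho (h ▸ hz)
  obtain ⟨C1, h1⟩ := hK.exists_bound_of_continuousOn (f := I.V)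
    fun z hz => (I.V_c1 (hne z hz)).continuousAt.continuousWithinAt
  obtain ⟨C2, h2⟩ := hK.exists_bound_of_continuousOn (f := fderiv ℝ I.V)
    fun z hz => ((I.V_c1 (hne z hz)).fderiv_right (m := 0) (by simp)).continuousAt.continuousWithinAt
  exact ⟨max 0 (max C1 C2), le_max_left _ _, fun z hz =>
    ⟨(h1 z hz).trans ((le_max_left _ _).trans (le_max_right _ _)),
      (h2 z hz).trans ((le_max_right _ _).trans (le_max_right _ _))⟩⟩

namespace Appr
variable {X : Surf} {I : Iso X} (A : Appr I)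

theorem cconv0_ne (n : ℕ) {q : E} (hq : q ∈ X.S) : cof (fderiv ℝ (A.W n) q) (X.nu q) ≠ 0 := by
  intro h
  have := A.half n q hq
  rw [h, norm_zero] at this
  norm_num at this

theorem cconv0_D (n : ℕ) : ContDiff ℝ ∞ (fderiv ℝ (A.W n)) :=
  (A.smooth n).fderiv_right (m := ∞) (by simp)

theorem cconv0_sub : X.S ⊆ thickening A.tau X.S := self_subset_thickening A.tau_pos _

theorem sm_W (n : ℕ) : X.Sm (A.W n) := fun _ _ => (A.smooth n).contDiffAt

theorem sm_NW (n : ℕ) : X.Sm (X.NW (A.W n)) := by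
  intro q hq
  have h1 : ContDiffAt ℝ ∞ (fun z => cof (fderiv ℝ (A.W n) z) (X.nu z)) q :=
    contDiff_cof.contDiffAt.comp q ((A.cconv0_D n).contDiffAt.prodMk (X.nu_smooth q hq))
  exact (contDiffAt_nrm (A.cconv0_ne n hq)).comp q h1

theorem pd_w (R : Rot) (n : ℕ) (i : Fin 2) (x : P) :
    pd i (A.w R n) x = fderiv ℝ (A.W n) (X.psi R x) (pd i (X.psi R) x) := by
  have h1 : HasFDerivAt (A.w R n) ((fderiv ℝ (A.W n) (X.psi R x)).comp (fderiv ℝ (X.psi R) x)) x :=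
    ((A.smooth n).differentiable (by simp) _).hasFDerivAt.comp x
      ((X.sm_psi R).differentiable (by simp) x).hasFDerivAt
  unfold pd
  rw [h1.fderiv]
  rfl

theorem pd_pd_w (R : Rot) (n : ℕ) (i j : Fin 2) (x : P) :
    pd i (pd j (A.w R n)) x =
      fderiv ℝ (fderiv ℝ (A.W n)) (X.psi R x) (pd i (X.psi R) x) (pd j (X.psi R) x)
        + fderiv ℝ (A.W n) (X.psi R x) (pd i (pd j (X.psi R)) x) := by
  have e : pd j (A.w R n) = fun y => fderiv ℝ (A.W n) (X.psi R y) (pd j (X.psi R) y) :=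
    funext (A.pd_w R n j)
  have h1 : HasFDerivAt (fun y => fderiv ℝ (A.W n) (X.psi R y))
      ((fderiv ℝ (fderiv ℝ (A.W n)) (X.psi R x)).comp (fderiv ℝ (X.psi R) x)) x :=
    ((A.cconv0_D n).differentiable (by simp) _).hasFDerivAt.comp x
      ((X.sm_psi R).differentiable (by simp) x).hasFDerivAt
  have h2 : HasFDerivAt (pd j (X.psi R)) (fderiv ℝ (pd j (X.psi R)) x) x :=
    ((contDiff_pd (X.sm_psi R) j).differentiable (by simp) x).hasFDerivAt
  have h3 := (h1.clm_apply h2).fderiv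
  rw [e, add_comm]
  change fderiv ℝ (fun y => fderiv ℝ (A.W n) (X.psi R y) (pd j (X.psi R) y)) x (e2 i) = _
  rw [h3]
  rfl

theorem cconv0_nv (R : Rot) (n : ℕ) (x : P) : nv (A.w R n) x =
    sq (X.psi R) x • cof (fderiv ℝ (A.W n) (X.psi R x)) (X.nu (X.psi R x)) := by
  have h1 : cr (pd 0 (X.psi R) x) (pd 1 (X.psi R) x) = sq (X.psi R) x • X.nu (X.psi R x) := by
    rw [← X.un_psi]
    exact (X.imm_psi R).nv_eq x
  unfold nv
  rw [A.pd_w, A.pd_w, ← cof_cr, h1, cof_smul]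

theorem imm_w (R : Rot) (n : ℕ) : Imm (A.w R n) := by
  refine ⟨(A.smooth n).comp (X.sm_psi R), fun x => ?_⟩
  rw [A.cconv0_nv]
  exact smul_ne_zero ((X.imm_psi R).sq_pos x).ne' (A.cconv0_ne n (X.psi_mem R x))

theorem un_w (R : Rot) (n : ℕ) (x : P) : un (A.w R n) x = X.NW (A.W n) (X.psi R x) := by
  unfold un Surf.NW
  rw [A.cconv0_nv, nrm_smul ((X.imm_psi R).sq_pos x)]

theorem NW_conv : TendstoUniformlyOn (fun n => X.NW (A.W n)) I.N atTop X.S := by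
  obtain ⟨C, hC, hb⟩ := cconv0_bound I X.cpt X.o_not
  rw [Metric.tendstoUniformlyOn_iff]
  intro ε hε
  have hp : 0 < 6 * (2 * C + 1) + 1 := by positivity
  have hδ : 0 < ε / (6 * (2 * C + 1) + 1) := div_pos hε hp
  filter_upwards [Metric.tendstoUniformlyOn_iff.1 A.c1 _ (lt_min hδ one_pos)] with n hn q hq
  have h1 := hn q (A.cconv0_sub hq)
  rw [dist_eq_norm, lt_min_iff] at h1
  have hN := I.norm_N (X.ne_o hq)
  have hN0 : I.N q ≠ 0 := by
    intro h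
    rw [h, norm_zero] at hN
    exact zero_ne_one hN
  have h2 := norm_nrm_sub hN0 (A.cconv0_ne n hq)
  rw [nrm_unit hN, hN, div_one] at h2
  have h3 := norm_cof_sub (fderiv ℝ I.V q) (fderiv ℝ (A.W n) q) (X.nu q)
  rw [← I.N_eq_cof_V hq, X.nu_unit q hq, mul_one] at h3
  have h4 : ‖fderiv ℝ (A.W n) q‖ ≤ C + 1 := by
    have h5 := norm_sub_norm_le (fderiv ℝ (A.W n) q) (fderiv ℝ I.V q)
    rw [norm_sub_rev] at h5
    linarith [(hb q hq).2, h1.2]
  have h6 := (lt_div_iff₀ hp).1 h1.1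
  have h7 : 3 * (‖fderiv ℝ I.V q‖ + ‖fderiv ℝ (A.W n) q‖) *
      ‖fderiv ℝ I.V q - fderiv ℝ (A.W n) q‖ ≤
      3 * (2 * C + 1) * ‖fderiv ℝ I.V q - fderiv ℝ (A.W n) q‖ :=
    mul_le_mul_of_nonneg_right (by linarith [(hb q hq).2]) (norm_nonneg _)
  rw [dist_eq_norm]
  change ‖I.N q - nrm (cof (fderiv ℝ (A.W n) q) (X.nu q))‖ < ε
  nlinarith [norm_nonneg (fderiv ℝ I.V q - fderiv ℝ (A.W n) q)]

theorem bound_W : ∃ C : ℝ, 0 ≤ C ∧ ∀ᶠ n in atTop, ∀ z ∈ thickening A.tau X.S,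
    ‖A.W n z‖ ≤ C ∧ ‖fderiv ℝ (A.W n) z‖ ≤ C := by
  obtain ⟨C, hC, hb⟩ := cconv0_bound I (X.cpt.cthickening (r := A.tau)) A.o_not
  refine ⟨C + 1, by positivity, ?_⟩
  filter_upwards [Metric.tendstoUniformlyOn_iff.1 A.c0 1 one_pos,
    Metric.tendstoUniformlyOn_iff.1 A.c1 1 one_pos] with n h0 h1 z hz
  have g0 := h0 z hz
  have g1 := h1 z hz
  rw [dist_comm, dist_eq_norm] at g0 g1
  have g := hb z (thickening_subset_cthickening _ _ hz)
  have k0 := norm_sub_norm_le (A.W n z) (I.V z)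
  have k1 := norm_sub_norm_le (fderiv ℝ (A.W n) z) (fderiv ℝ I.V z)
  exact ⟨by linarith [g.1], by linarith [g.2]⟩

theorem w_conv (R : Rot) : TendstoUniformly (A.w R) (I.w R) atTop := by
  rw [Metric.tendstoUniformly_iff]
  intro ε hε
  filter_upwards [Metric.tendstoUniformlyOn_iff.1 A.c0 ε hε] with n hn x
  have h := hn _ (A.cconv0_sub (X.psi_mem R x))
  rw [I.V_self (X.psi_mem R x)] at h
  exact h

theorem un_conv (R : Rot) : TendstoUniformly (fun n => un (A.w R n)) (I.n R) atTop := by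
  rw [Metric.tendstoUniformly_iff]
  intro ε hε
  filter_upwards [Metric.tendstoUniformlyOn_iff.1 A.NW_conv ε hε] with n hn x
  rw [A.un_w]
  exact hn _ (X.psi_mem R x)

end Appr

end Pool.Agent.Bor
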