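import Pool.Agent.P.MP_26ecb7_gt.Chart0

noncomputable section
open Set Filter Topology MeasureTheory Metric
open scoped RealInnerProductSpace ContDiff ENNReal

namespace Pool.Agent.Bor

namespace Surf
variable (X : Surf)

theorem chart_sf (R : Rot) (i j : Fin 2) (x : P) :
    sf (X.psi R) i j x =
      ⟪fderiv ℝ X.nu (X.psi R x) (pd i (X.psi R) x), pd j (X.psi R) x⟫ := by
  have h1 : un (X.psi R) = X.nu ∘ X.psi R := funext fun y => X.un_psi R y
  have h2 : DifferentiableAt ℝ X.nu (X.psi R x) :=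
    (X.nu_smooth _ (X.psi_mem R x)).differentiableAt (by simp)
  have h3 : DifferentiableAt ℝ (X.psi R) x := ((X.sm_psi R).differentiable (by simp)) x
  unfold sf
  rw [h1]
  unfold pd
  rw [fderiv_comp x h2 h3]
  rfl

theorem qf_pos (R : Rot) (x : P) {a b : ℝ} (h : a ≠ 0 ∨ b ≠ 0) :
    0 < qf (at2 (sf (X.psi R)) x) a b := by
  have hn : cr (pd 0 (X.psi R) x) (pd 1 (X.psi R) x) ≠ 0 := (X.imm_psi R).2 x
  have h0 : a • pd 0 (X.psi R) x + b • pd 1 (X.psi R) x ≠ 0 := by
    intro h0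
    have e1 : cr (a • pd 0 (X.psi R) x + b • pd 1 (X.psi R) x) (pd 1 (X.psi R) x)
        = a • cr (pd 0 (X.psi R) x) (pd 1 (X.psi R) x) := by
      rw [cr_add_left, cr_smul_left, cr_smul_left, cr_self, smul_zero, add_zero]
    have e2 : cr (pd 0 (X.psi R) x) (a • pd 0 (X.psi R) x + b • pd 1 (X.psi R) x)
        = b • cr (pd 0 (X.psi R) x) (pd 1 (X.psi R) x) := by
      rw [cr_add_right, cr_smul_right, cr_smul_right, cr_self, smul_zero, zero_add]
    have z1 : ∀ c : E, cr 0 c = 0 := fun c => by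
      have := cr_smul_left 0 c c
      rwa [zero_smul, zero_smul] at this
    have z2 : ∀ c : E, cr c 0 = 0 := fun c => by
      have := cr_smul_right 0 c c
      rwa [zero_smul, zero_smul] at this
    rw [h0, z1] at e1
    rw [h0, z2] at e2
    rcases h with h | h
    · exact smul_ne_zero h hn e1.symm
    · exact smul_ne_zero h hn e2.symm
  have ht : ⟪X.nu (X.psi R x), a • pd 0 (X.psi R) x + b • pd 1 (X.psi R) x⟫ = 0 := by
    rw [inner_add_right, inner_smul_right, inner_smul_right, X.tang_psi, X.tang_psi]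
    simp
  have hc := X.curv _ (X.psi_mem R x) _ ht h0
  refine lt_of_lt_of_eq hc ?_
  simp only [qf, at2, chart_sf, map_add, map_smul, inner_add_left, inner_add_right,
    real_inner_smul_left, real_inner_smul_right]
  ring

theorem dt_pos (R : Rot) (x : P) : 0 < dt (at2 (sf (X.psi R)) x) := by
  have hs : at2 (sf (X.psi R)) x 1 0 = at2 (sf (X.psi R)) x 0 1 := (X.imm_psi R).sf_symm 1 0 x
  have h0 := X.qf_pos R x (a := 1) (b := 0) (Or.inl one_ne_zero)
  have h00 : 0 < at2 (sf (X.psi R)) x 0 0 := by simpa [qf] using h0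
  have h1 := X.qf_pos R x (a := at2 (sf (X.psi R)) x 0 1) (b := - at2 (sf (X.psi R)) x 0 0)
    (Or.inr (neg_ne_zero.2 h00.ne'))
  have e : qf (at2 (sf (X.psi R)) x) (at2 (sf (X.psi R)) x 0 1) (- at2 (sf (X.psi R)) x 0 0)
      = at2 (sf (X.psi R)) x 0 0 * dt (at2 (sf (X.psi R)) x) := by
    simp only [qf, dt, hs]; ring
  rw [e] at h1
  exact (mul_pos_iff_of_pos_left h00).1 h1

theorem ka_pos (R : Rot) (x : P) : 0 < X.ka R x := by
  unfold Surf.ka
  rw [(X.imm_psi R).kap_eq]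
  exact div_pos (X.dt_pos R x) ((X.imm_psi R).sq_pos x)

theorem continuous_ka (R : Rot) : Continuous (X.ka R) := (X.imm_psi R).sm_kap.continuous

theorem Sm.comp {X : Surf} {f : E → E} (hf : X.Sm f) (R : Rot) :
    ContDiff ℝ ∞ (fun x => f (X.psi R x)) :=
  contDiff_iff_contDiffAt.2 fun x => (hf _ (X.psi_mem R x)).comp x (X.sm_psi R).contDiffAt

/-- a function on the surface that is locally constant in every chart is constant -/
theorem const_of_chart {Y : Type} {f : E → Y}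
    (h : ∀ q ∈ X.S, ∃ R x, X.psi R x = q ∧ ∀ᶠ y in 𝓝 x, f (X.psi R y) = f q) :
    ∀ q ∈ X.S, ∀ q' ∈ X.S, f q = f q' := by
  intro q hq q' hq'
  haveI : PreconnectedSpace X.S := Subtype.preconnectedSpace X.conn.isPreconnected
  have hl : IsLocallyConstant (fun z : X.S => f z) := by
    rw [IsLocallyConstant.iff_eventually_eq]
    intro z
    obtain ⟨R, x, hx, hev⟩ := h z z.2
    have h1 := X.psi_nhds R x hev
    rw [hx] at h1
    have h2 : ∀ᶠ y in 𝓝[X.S] (z : E), f y = f z := by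
      filter_upwards [h1] with y hy
      obtain ⟨u, hu, rfl⟩ := hy
      exact hu
    rw [nhdsWithin_eq_map_subtype_coe z.2] at h2
    exact h2
  exact hl.apply_eq_of_preconnectedSpace ⟨q, hq⟩ ⟨q', hq'⟩

/-- the inverse of a chart is Lipschitz on compact pieces, so null sets pull back to null sets -/
theorem null_preimage (R : Rot) {d : ℝ} (hd : 0 ≤ d) {B : Set E} (hB : μH[d] B = 0) {K : Set P}
    (hK : IsCompact K) : μH[d] (K ∩ X.psi R ⁻¹' B) = 0 := by
  rcases K.eq_empty_or_nonempty with rfl | hne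
  · simp
  have hc : Continuous (X.psi R) := (X.sm_psi R).continuous
  obtain ⟨x0, -, hx0⟩ := hK.exists_isMinOn hne
    (f := fun x => ⟪X.psi R x - X.o, R.R (ee 2)⟫) (by fun_prop)
  obtain ⟨x1, -, hx1⟩ := hK.exists_isMaxOn hne
    (f := fun x => ‖X.psi R x - X.o‖) (by fun_prop)
  set c : ℝ := ⟪X.psi R x0 - X.o, R.R (ee 2)⟫ with hcdef
  set M : ℝ := ‖X.psi R x1 - X.o‖ with hM
  have hc0 : 0 < c := X.inner_psi R x0
  have hM0 : 0 ≤ M := norm_nonneg _
  have hL : LipschitzOnWith ⟨1 / c + M / c ^ 2, by positivity⟩ (fun z => gn R (z - X.o))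
      (X.psi R '' K ∩ B) := by
    refine LipschitzOnWith.of_dist_le_mul ?_
    rintro _ ⟨⟨y, hy, rfl⟩, -⟩ _ ⟨⟨z, hz, rfl⟩, -⟩
    have := dist_gn_le R hc0 (hx0 hy) (hx0 hz) (hx1 hz)
    rw [sub_sub_sub_cancel_right] at this
    rw [dist_eq_norm (X.psi R y)]
    exact this
  have hsub : K ∩ X.psi R ⁻¹' B ⊆ (fun z => gn R (z - X.o)) '' (X.psi R '' K ∩ B) := by
    rintro x ⟨hx, hxB⟩
    exact ⟨X.psi R x, ⟨⟨x, hx, rfl⟩, hxB⟩, X.gn_psi R x⟩
  refine measure_mono_null hsub (le_antisymm ?_ (zero_le))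
  refine (hL.hausdorffMeasure_image_le hd).trans ?_
  rw [measure_mono_null inter_subset_right hB, mul_zero]

end Surf

end Pool.Agent.Bor
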