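import Pool.Agent.P.MP_26ecb7_gt.Gauss

noncomputable section
open Set Filter Topology MeasureTheory Metric
open scoped RealInnerProductSpace ContDiff ENNReal

namespace Pool.Agent.Bor

theorem chart0_cr : cr (ee 0) (ee 1) = ee 2 := by
  ext k
  fin_cases k <;> simp [cr, ee]

theorem chart0_lift_zero (R : Rot) : lift R 0 = R.R (ee 2) := by
  unfold lift
  congr 1
  ext k
  fin_cases k <;> simp [ee]

namespace Surf
variable (X : Surf)

theorem ne_o {q : E} (hq : q ∈ X.S) : q ≠ X.o := fun h => X.o_not (h ▸ hq)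

theorem pr_self {q : E} (hq : q ∈ X.S) : X.pr q = q := by
  simpa using X.pr_fix q hq 1 one_pos

theorem chart0_cone {z : E} (hz : z ≠ X.o) {t : ℝ} (ht : 0 < t) :
    X.pr (X.o + t • (z - X.o)) = X.pr z := by
  obtain ⟨s, hs, e⟩ := X.pr_ray z hz
  have h := X.pr_fix _ (X.pr_mem z hz) (t / s) (div_pos ht hs)
  rw [← h]
  congr 2
  rw [e, add_sub_cancel_left, smul_smul, div_mul_cancel₀ _ hs.ne']

/-- the derivative of the radial projection -/
theorem chart0_der {z : E} (hz : z ≠ X.o) : ∃ τ : ℝ, 0 < τ ∧ X.pr z - X.o = τ • (z - X.o) ∧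
    ∀ a, ∃ s : ℝ, fderiv ℝ X.pr z a = τ • a + s • (z - X.o) := by
  have hn : ⟪z - X.o, z - X.o⟫ ≠ 0 := by simpa [sub_eq_zero] using hz
  have hp : DifferentiableAt ℝ X.pr z := (X.pr_smooth z hz).differentiableAt (by simp)
  have h1 : DifferentiableAt ℝ (fun y : E => ⟪y - X.o, z - X.o⟫) z :=
    (differentiableAt_id.sub_const _).inner ℝ (differentiableAt_const _)
  have h2 : DifferentiableAt ℝ (fun y : E => ⟪X.pr y - X.o, z - X.o⟫) z :=
    (hp.sub_const _).inner ℝ (differentiableAt_const _)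
  set T : E → ℝ := fun y => ⟪X.pr y - X.o, z - X.o⟫ * ⟪y - X.o, z - X.o⟫⁻¹ with hT
  have hd : DifferentiableAt ℝ T z := h2.mul (h1.inv hn)
  have key : ∀ y, ⟪y - X.o, z - X.o⟫ ≠ 0 → 0 < T y ∧ X.pr y = X.o + T y • (y - X.o) := by
    intro y hy
    obtain ⟨s, hs, e⟩ := X.pr_ray y (by rintro rfl; simp at hy)
    have : T y = s := by
      simp only [hT]
      rw [e, add_sub_cancel_left, real_inner_smul_left, mul_inv_cancel_right₀ hy]
    rw [this]
    exact ⟨hs, e⟩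
  have hev : X.pr =ᶠ[𝓝 z] fun y => X.o + T y • (y - X.o) := by
    filter_upwards [h1.continuousAt.eventually_ne hn] with y hy using (key y hy).2
  have hf := ((hd.hasFDerivAt.smul ((hasFDerivAt_id z).sub_const X.o)).const_add X.o)
  refine ⟨T z, (key z hn).1, by rw [sub_eq_iff_eq_add']; exact (key z hn).2, fun a =>
    ⟨fderiv ℝ T z a, ?_⟩⟩
  rw [hev.fderiv_eq]
  exact (congrArg (fun L : E →L[ℝ] E => L a) hf.fderiv).trans (by simp)

theorem chart0_der' {z : E} (hz : z ≠ X.o) : ∃ τ : ℝ, 0 < τ ∧ X.pr z - X.o = τ • (z - X.o) ∧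
    ∀ a, ⟪X.nu (X.pr z), a⟫ = 0 → fderiv ℝ X.pr z a = τ • a := by
  obtain ⟨τ, hτ, e, h⟩ := X.chart0_der hz
  refine ⟨τ, hτ, e, fun a ha => ?_⟩
  obtain ⟨s, hs⟩ := h a
  have h1 := X.tang z hz a
  have h2 := X.pos _ (X.pr_mem z hz)
  rw [e, real_inner_smul_right] at h2
  rw [hs, inner_add_right, real_inner_smul_right, real_inner_smul_right, ha, mul_zero,
    zero_add, mul_eq_zero] at h1
  rcases h1 with h1 | h1
  · rw [hs, h1, zero_smul, add_zero]
  · rw [h1, mul_zero] at h2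
    exact absurd h2 (lt_irrefl _)

theorem fderiv_pr {q : E} (hq : q ∈ X.S) {a : E} (ha : ⟪X.nu q, a⟫ = 0) : fderiv ℝ X.pr q a = a := by
  obtain ⟨τ, -, e, h⟩ := X.chart0_der' (X.ne_o hq)
  rw [X.pr_self hq] at e h
  have h1 : τ = 1 := smul_left_injective ℝ (sub_ne_zero.2 (X.ne_o hq))
    (show τ • (q - X.o) = (1 : ℝ) • (q - X.o) by rw [one_smul]; exact e.symm)
  rw [h a ha, h1, one_smul]

/-- bounded right inverse of the derivative of the projection -/
theorem pr_right {K : Set E} (hK : IsCompact K) (ho : X.o ∉ K) : ∃ C : ℝ, 0 ≤ C ∧ ∀ z ∈ K, ∀ a,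
    ⟪X.nu (X.pr z), a⟫ = 0 → ∃ c, fderiv ℝ X.pr z c = a ∧ ‖c‖ ≤ C * ‖a‖ := by
  have hne : ∀ z ∈ K, z ≠ X.o := fun z hz h => ho (h ▸ hz)
  have hc : ContinuousOn (fun z => ‖z - X.o‖ / ‖X.pr z - X.o‖) K := fun z hz =>
    ((continuousAt_id.sub continuousAt_const).norm.div
      ((X.pr_smooth z (hne z hz)).continuousAt.sub continuousAt_const).norm
      (norm_ne_zero_iff.2 (sub_ne_zero.2 (X.ne_o (X.pr_mem z (hne z hz)))))).continuousWithinAt
  obtain ⟨C, hC⟩ := hK.exists_bound_of_continuousOn hc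
  refine ⟨max C 0, le_max_right _ _, fun z hz a ha => ?_⟩
  obtain ⟨τ, hτ, e, h⟩ := X.chart0_der' (hne z hz)
  refine ⟨τ⁻¹ • a, ?_, ?_⟩
  · rw [map_smul, h a ha, smul_smul, inv_mul_cancel₀ hτ.ne', one_smul]
  · have h1 := hC z hz
    have h2 : ‖z - X.o‖ ≠ 0 := norm_ne_zero_iff.2 (sub_ne_zero.2 (hne z hz))
    rw [e, norm_smul, Real.norm_of_nonneg hτ.le, div_mul_cancel_right₀ h2] at h1
    rw [norm_smul]
    exact mul_le_mul_of_nonneg_right (h1.trans (le_max_left _ _)) (norm_nonneg _)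

theorem chart0_ne (R : Rot) (x : P) : X.o + lift R x ≠ X.o := by
  intro h
  have h1 := inner_lift R x
  rw [add_eq_left.1 h] at h1
  simp at h1

theorem psi_mem (R : Rot) (x : P) : X.psi R x ∈ X.S := X.pr_mem _ (X.chart0_ne R x)

theorem sm_psi (R : Rot) : ContDiff ℝ ∞ (X.psi R) :=
  contDiff_iff_contDiffAt.2 fun x => (X.pr_smooth _ (X.chart0_ne R x)).comp x
    (contDiff_const.add (contDiff_lift R)).contDiffAt

theorem chart0_pd (R : Rot) (i : Fin 2) (x : P) :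
    pd i (X.psi R) x = fderiv ℝ X.pr (X.o + lift R x) (pd i (lift R) x) := by
  have h1 := ((X.pr_smooth _ (X.chart0_ne R x)).differentiableAt (by simp)).hasFDerivAt
  have h2 := (((contDiff_lift R).differentiable (by simp)) x).hasFDerivAt.const_add X.o
  exact congrArg (fun L : P →L[ℝ] E => L (e2 i)) (h1.comp x h2).fderiv

theorem chart0_psi (R : Rot) (x : P) : ∃ τ : ℝ, 0 < τ ∧ X.psi R x - X.o = τ • lift R x ∧
    ⟪lift R x, nv (X.psi R) x⟫ = τ ^ 2 := by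
  obtain ⟨τ, hτ, e, h⟩ := X.chart0_der (X.chart0_ne R x)
  rw [add_sub_cancel_left] at e h
  refine ⟨τ, hτ, e, ?_⟩
  obtain ⟨s₀, h₀⟩ := h (R.R (ee 0))
  obtain ⟨s₁, h₁⟩ := h (R.R (ee 1))
  rw [nv, chart0_pd, chart0_pd, (pd_lift R x).1, (pd_lift R x).2, h₀, h₁]
  simp only [cr_add_left, cr_add_right, cr_smul_left, cr_smul_right, inner_add_right,
    real_inner_smul_right, inner_cr_left, inner_cr_right, R.cr_eq, chart0_cr, inner_lift]
  ring

theorem inner_psi (R : Rot) (x : P) : 0 < ⟪X.psi R x - X.o, R.R (ee 2)⟫ := by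
  obtain ⟨τ, hτ, e, -⟩ := X.chart0_psi R x
  rwa [e, real_inner_smul_left, inner_lift, mul_one]

theorem gn_psi (R : Rot) (x : P) : gn R (X.psi R x - X.o) = x := by
  obtain ⟨τ, hτ, e, -⟩ := X.chart0_psi R x
  rw [e, gn_smul R hτ.ne', gn_lift]

theorem psi_gn (R : Rot) {z : E} (hz : 0 < ⟪z - X.o, R.R (ee 2)⟫) :
    X.psi R (gn R (z - X.o)) = X.pr z := by
  have h1 : z ≠ X.o := by
    rintro rfl
    simp at hz
  have h2 : lift R (gn R (z - X.o)) = ⟪z - X.o, R.R (ee 2)⟫⁻¹ • (z - X.o) :=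
    (eq_inv_smul_iff₀ hz.ne').2 (lift_gn R hz.ne')
  rw [psi, h2, X.chart0_cone h1 (inv_pos.2 hz)]

theorem psi_inj (R : Rot) : Function.Injective (X.psi R) := fun x y h => by
  rw [← X.gn_psi R x, h, X.gn_psi R y]

theorem exists_chart {q : E} (hq : q ∈ X.S) : ∃ R : Rot, X.psi R 0 = q := by
  have h1 : q - X.o ≠ 0 := sub_ne_zero.2 (X.ne_o hq)
  obtain ⟨R, hR⟩ := exists_rot (norm_nrm h1)
  refine ⟨R, ?_⟩
  rw [psi, chart0_lift_zero, hR]
  exact X.pr_fix q hq _ (inv_pos.2 (norm_pos_iff.2 h1))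

theorem psi_nhds (R : Rot) (x : P) {U : Set P} (hU : U ∈ 𝓝 x) :
    X.psi R '' U ∈ 𝓝[X.S] (X.psi R x) := by
  have h1 : ContinuousAt (fun z => gn R (z - X.o)) (X.psi R x) :=
    ContinuousAt.comp (f := fun z => z - X.o) (contDiffAt_gn R (X.inner_psi R x).ne').continuousAt
      (continuousAt_id.sub continuousAt_const)
  have h2 : ∀ᶠ z in 𝓝 (X.psi R x), gn R (z - X.o) ∈ U :=
    h1.eventually (by simp only [X.gn_psi]; exact hU)
  have h3 : ∀ᶠ z in 𝓝 (X.psi R x), 0 < ⟪z - X.o, R.R (ee 2)⟫ :=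
    ContinuousAt.eventually_lt continuousAt_const
      ((continuousAt_id.sub continuousAt_const).inner continuousAt_const) (X.inner_psi R x)
  filter_upwards [nhdsWithin_le_nhds h2, nhdsWithin_le_nhds h3, self_mem_nhdsWithin]
    with z a b c using ⟨_, a, (X.psi_gn R b).trans (X.pr_self c)⟩

theorem tang_psi (R : Rot) (i : Fin 2) (x : P) : ⟪X.nu (X.psi R x), pd i (X.psi R) x⟫ = 0 := by
  rw [chart0_pd]
  exact X.tang _ (X.chart0_ne R x) _

theorem imm_psi (R : Rot) : Imm (X.psi R) := by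
  refine ⟨X.sm_psi R, fun x h => ?_⟩
  obtain ⟨τ, hτ, -, e⟩ := X.chart0_psi R x
  rw [h, inner_zero_right] at e
  exact (pow_pos hτ 2).ne e

theorem un_psi (R : Rot) (x : P) : un (X.psi R) x = X.nu (X.psi R x) := by
  obtain ⟨τ, hτ, e, h⟩ := X.chart0_psi R x
  obtain ⟨s, hs⟩ : ∃ s : ℝ, X.nu (X.psi R x) = s • nv (X.psi R) x :=
    ⟨_, par_of_orth ((X.imm_psi R).2 x) (X.tang_psi R 0 x) (X.tang_psi R 1 x)⟩
  have h1 := X.pos _ (X.psi_mem R x)
  rw [hs, e, real_inner_smul_left, real_inner_smul_right, real_inner_comm, h] at h1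
  have h2 : 0 < s := (mul_pos_iff_of_pos_right (by positivity)).1 h1
  rw [← nrm_unit (X.nu_unit _ (X.psi_mem R x)), hs, nrm_smul h2, un]

end Surf

end Pool.Agent.Bor
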