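import Pool.Agent.P.MP_26ecb7_gt.Young0

noncomputable section
open Set Filter Topology MeasureTheory Metric
open scoped RealInnerProductSpace ContDiff ENNReal NNReal

namespace Pool.Agent.Bor

lemma young_dim_vert (u : ℝ) : dimH (range fun t : ℝ => ((u, t) : P)) ≤ 1 := by
  have h : LipschitzWith 1 (fun t : ℝ => ((u, t) : P)) := LipschitzWith.prodMk_left u
  exact h.dimH_range_le.trans Real.dimH_univ.le

lemma young_dim_hor (u : ℝ) : dimH (range fun t : ℝ => ((t, u) : P)) ≤ 1 := by
  have h : LipschitzWith 1 (fun t : ℝ => ((t, u) : P)) := LipschitzWith.prodMk_right u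
  exact h.dimH_range_le.trans Real.dimH_univ.le

lemma young_sqr_eq (c : P) (r : ℝ) : sqr c r = Icc c.1 (c.1 + r) ×ˢ Icc c.2 (c.2 + r) := by
  unfold sqr
  rw [Icc_prod_eq]

lemma young_closed (c : P) (r : ℝ) : IsClosed (sqr c r) := by
  rw [young_sqr_eq]
  exact isClosed_Icc.prod isClosed_Icc

lemma young_dim_frontier (c : P) {r : ℝ} (hr : 0 < r) : dimH (frontier (sqr c r)) ≤ 1 := by
  have hsub : frontier (sqr c r) ⊆
      ((range fun t : ℝ => ((t, c.2) : P)) ∪ (range fun t : ℝ => ((t, c.2 + r) : P))) ∪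
      ((range fun t : ℝ => ((c.1, t) : P)) ∪ (range fun t : ℝ => ((c.1 + r, t) : P))) := by
    rw [young_sqr_eq, frontier_prod_eq, frontier_Icc (by linarith), frontier_Icc (by linarith)]
    rintro ⟨x, y⟩ (⟨-, h⟩ | ⟨h, -⟩)
    · rcases h with h | h
      · exact Or.inl (Or.inl ⟨x, by simp only at h; rw [h]⟩)
      · exact Or.inl (Or.inr ⟨x, by simp only [mem_singleton_iff] at h; rw [h]⟩)
    · rcases h with h | h
      · exact Or.inr (Or.inl ⟨y, by simp only at h; rw [h]⟩)
      · exact Or.inr (Or.inr ⟨y, by simp only [mem_singleton_iff] at h; rw [h]⟩)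
  refine (dimH_mono hsub).trans ?_
  rw [dimH_union, dimH_union, dimH_union]
  exact max_le (max_le (young_dim_hor _) (young_dim_hor _))
    (max_le (young_dim_vert _) (young_dim_vert _))

/-- Hoelder images of boundaries of squares are null -/
theorem null_frontier {p : P → P} {c : P} {r M a : ℝ} (hr : 0 < r) (ha : 1 / 2 < a)
    (h : ∀ x ∈ sqr c r, ∀ y ∈ sqr c r, dist (p x) (p y) ≤ M * dist x y ^ a) :
    volume (p '' frontier (sqr c r)) = 0 := by
  have ha0 : 0 < a := by linarith
  set A : ℝ≥0 := ⟨a, ha0.le⟩ with hA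
  set C : ℝ≥0 := ⟨max M 0, le_max_right _ _⟩ with hC
  have hAa : (A : ℝ) = a := rfl
  have hCM : (C : ℝ) = max M 0 := rfl
  have hsub : frontier (sqr c r) ⊆ sqr c r := (young_closed c r).frontier_subset
  have hH : HolderOnWith C A p (frontier (sqr c r)) := by
    intro x hx y hy
    have h1 := h x (hsub hx) y (hsub hy)
    have h2 : dist (p x) (p y) ≤ (C : ℝ) * dist x y ^ a :=
      h1.trans (mul_le_mul_of_nonneg_right (by rw [hCM]; exact le_max_left _ _)
        (Real.rpow_nonneg dist_nonneg _))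
    rw [edist_dist, edist_dist, hAa, ENNReal.ofReal_rpow_of_nonneg dist_nonneg ha0.le,
      ← ENNReal.ofReal_coe_nnreal, ← ENNReal.ofReal_mul C.coe_nonneg]
    exact ENNReal.ofReal_le_ofReal h2
  have hApos : 0 < A := by
    rw [← NNReal.coe_lt_coe]; exact ha0
  have hd := hH.dimH_image_le hApos
  have hlt : dimH (p '' frontier (sqr c r)) < ((2 : ℝ≥0) : ℝ≥0∞) := by
    refine lt_of_le_of_lt (hd.trans (ENNReal.div_le_div_right (young_dim_frontier c hr) _)) ?_
    rw [ENNReal.div_lt_iff (Or.inl (by exact_mod_cast hApos.ne')) (Or.inl ENNReal.coe_ne_top)]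
    have : (1 : ℝ≥0) < 2 * A := by
      rw [← NNReal.coe_lt_coe]
      push_cast
      rw [hAa]; linarith
    exact_mod_cast this
  have h0 := hausdorffMeasure_of_dimH_lt hlt
  rw [← hausdorffMeasure_prod_real]
  simpa using h0

end Pool.Agent.Bor
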