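import Pool.Agent.P.MP_26ecb7_gt.Green
import Pool.Agent.P.MP_26ecb7_gt.Young

noncomputable section
open Set Filter Topology MeasureTheory Metric
open scoped RealInnerProductSpace ContDiff ENNReal

namespace Pool.Agent.Bor

theorem est_pos (y : P) : 0 < 1 + y.1 ^ 2 + y.2 ^ 2 := by positivity

theorem lam_pos (y : P) : 0 < lam y :=
  inv_pos.2 (mul_pos (est_pos y) (Real.sqrt_pos.2 (est_pos y)))
theorem lam_le_one (y : P) : lam y ≤ 1 := by
  have h : 1 ≤ 1 + y.1 ^ 2 + y.2 ^ 2 := by nlinarith [sq_nonneg y.1, sq_nonneg y.2]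
  exact inv_le_one_of_one_le₀ (one_le_mul_of_one_le_of_one_le h (Real.one_le_sqrt.2 h))
theorem lam_zero : lam 0 = 1 := by simp [lam]
theorem lam_swap (y : P) : lam y.swap = lam y := by
  simp only [lam, Prod.fst_swap, Prod.snd_swap, add_right_comm 1 (y.2 ^ 2)]

theorem est_sqrt : ContDiff ℝ ∞ fun y : P => √(1 + y.1 ^ 2 + y.2 ^ 2) :=
  ContDiff.sqrt (by fun_prop) fun y => (est_pos y).ne'

theorem contDiff_lam : ContDiff ℝ ∞ lam :=
  (ContDiff.mul (by fun_prop) est_sqrt).inv fun y =>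
    (mul_pos (est_pos y) (Real.sqrt_pos.2 (est_pos y))).ne'

theorem est_line {g : P → ℝ} {γ : ℝ → P} {i : Fin 2} {s : ℝ} (hg : DifferentiableAt ℝ g (γ s))
    (hγ : HasDerivAt γ (e2 i) s) : HasDerivAt (fun s => g (γ s)) (pd i g (γ s)) s :=
  hg.hasFDerivAt.comp_hasDerivAt s hγ

theorem est_h0 (t s : ℝ) : HasDerivAt (fun s : ℝ => ((s, t) : P)) (e2 0) s :=
  (hasDerivAt_id s).prodMk (hasDerivAt_const s t)

theorem est_h1 (t s : ℝ) : HasDerivAt (fun s : ℝ => ((t, s) : P)) (e2 1) s :=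
  (hasDerivAt_const s t).prodMk (hasDerivAt_id s)

theorem exists_Lam : ∃ L : P → ℝ, ContDiff ℝ ∞ L ∧ ∀ y, pd 0 L y = lam y := by
  have hL : ContDiff ℝ ∞ fun y : P => y.1 / ((1 + y.2 ^ 2) * √(1 + y.1 ^ 2 + y.2 ^ 2)) :=
    contDiff_fst.div (ContDiff.mul (by fun_prop) est_sqrt) fun y =>
      (mul_pos (by positivity) (Real.sqrt_pos.2 (est_pos y))).ne'
  refine ⟨_, hL, fun y => ?_⟩
  have h1 := est_line (γ := fun s => (s, y.2)) (hL.differentiable (by simp) _) (est_h0 y.2 y.1)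
  have hp := est_pos y
  have hs := Real.sqrt_pos.2 hp
  have h2 : HasDerivAt (fun s : ℝ => 1 + s ^ 2 + y.2 ^ 2) (2 * y.1) y.1 := by
    simpa using (((hasDerivAt_id y.1).pow 2).const_add 1).add_const (y.2 ^ 2)
  have h3 := (hasDerivAt_id y.1).div ((h2.sqrt hp.ne').const_mul (1 + y.2 ^ 2))
    (mul_pos (by positivity) hs).ne'
  rw [h1.unique h3, lam]
  have h4 := Real.sq_sqrt hp.le
  have h5 : (0 : ℝ) < 1 + y.2 ^ 2 := by positivity
  generalize √(1 + y.1 ^ 2 + y.2 ^ 2) = w at hs h4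
  rw [← h4]
  simp only [id]
  field_simp
  linarith

theorem est_lip {Y : Type} [NormedAddCommGroup Y] [NormedSpace ℝ Y] {f : P → Y}
    (hf : ContDiff ℝ ∞ f) (ρ : ℝ) : ∃ Λ : ℝ, 0 ≤ Λ ∧ ∀ y ∈ closedBall (0 : P) ρ,
      ∀ y' ∈ closedBall (0 : P) ρ, ‖f y - f y'‖ ≤ Λ * ‖y - y'‖ := by
  obtain ⟨C, hC⟩ := (isCompact_closedBall (0 : P) ρ).exists_bound_of_continuousOn
    (hf.continuous_fderiv (by simp)).continuousOn
  exact ⟨max C 0, le_max_right _ _, fun y hy y' hy' =>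
    (convex_closedBall _ _).norm_image_sub_le_of_norm_fderiv_le
      (fun x _ => hf.differentiable (by simp) x) (fun x hx => (hC x hx).trans (le_max_left _ _))
      hy' hy⟩

theorem est_edge {f g : P → ℝ} (hf : Continuous f) (hg : ContDiff ℝ ∞ g) {a r Mf Mg F0 u : ℝ}
    {c : P} (ha : 1 / 2 < a) (hr : 0 < r) (hMf : 0 ≤ Mf) (hMg : 0 ≤ Mg)
    (hf1 : ∀ x ∈ sqr c r, ∀ y ∈ sqr c r, |f x - f y| ≤ Mf * dist x y ^ a)
    (hg1 : ∀ x ∈ sqr c r, ∀ y ∈ sqr c r, |g x - g y| ≤ Mg * dist x y ^ a)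
    (hf0 : ∀ x ∈ sqr c r, |f x| ≤ F0) {γ : ℝ → P} {i : Fin 2} (hγ : ∀ s, HasDerivAt γ (e2 i) s)
    (hm : ∀ s ∈ Icc u (u + r), γ s ∈ sqr c r) (hd : ∀ s s', dist (γ s) (γ s') = |s - s'|) :
    |∫ s in u..u + r, f (γ s) * pd i g (γ s)| ≤
      yc a * Mf * Mg * r ^ (2 * a) + F0 * (Mg * r ^ a) := by
  have hc : Continuous γ := continuous_iff_continuousAt.2 fun s => (hγ s).continuousAt
  have h := young_real ha (f := fun s => f (γ s)) (g := fun s => g (γ s))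
    (g' := fun s => pd i g (γ s)) (show u ≤ u + r by linarith) hMf hMg (hf.comp hc).continuousOn
    (fun s _ => est_line (hg.differentiable (by simp) _) (hγ s))
    ((contDiff_pd hg i).continuous.comp hc).continuousOn
    (fun x hx y hy => hd x y ▸ hf1 _ (hm x hx) _ (hm y hy))
    (fun x hx y hy => hd x y ▸ hg1 _ (hm x hx) _ (hm y hy))
  rw [add_sub_cancel_left] at h
  refine h.trans (add_le_add le_rfl (mul_le_mul_of_nonneg_right (hf0 _ (hm u ⟨le_rfl, ?_⟩)) ?_))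
  · linarith
  · positivity

theorem est_lp {f g : P → ℝ} (hf : Continuous f) (hg : ContDiff ℝ ∞ g) {a r Mf Mg F0 : ℝ}
    {c : P} (ha : 1 / 2 < a) (hr : 0 < r) (hMf : 0 ≤ Mf) (hMg : 0 ≤ Mg)
    (hf1 : ∀ x ∈ sqr c r, ∀ y ∈ sqr c r, |f x - f y| ≤ Mf * dist x y ^ a)
    (hg1 : ∀ x ∈ sqr c r, ∀ y ∈ sqr c r, |g x - g y| ≤ Mg * dist x y ^ a)
    (hf0 : ∀ x ∈ sqr c r, |f x| ≤ F0) :
    |lp c r f g| ≤ 4 * (yc a * Mf * Mg * r ^ (2 * a) + F0 * (Mg * r ^ a)) := by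
  have d0 : ∀ t s s' : ℝ, dist ((s, t) : P) (s', t) = |s - s'| := fun t s s' => by
    simp [Prod.dist_eq, Real.dist_eq]
  have d1 : ∀ t s s' : ℝ, dist ((t, s) : P) (t, s') = |s - s'| := fun t s s' => by
    simp [Prod.dist_eq, Real.dist_eq]
  have l1 : c.1 ≤ c.1 + r := by linarith
  have l2 : c.2 ≤ c.2 + r := by linarith
  have h1 := est_edge hf hg ha hr hMf hMg hf1 hg1 hf0 (u := c.1) (est_h0 c.2)
    (fun s hs => mem_sqr.2 ⟨hs, le_rfl, l2⟩) (d0 _)
  have h2 := est_edge hf hg ha hr hMf hMg hf1 hg1 hf0 (u := c.2) (est_h1 (c.1 + r))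
    (fun s hs => mem_sqr.2 ⟨⟨l1, le_rfl⟩, hs⟩) (d1 _)
  have h3 := est_edge hf hg ha hr hMf hMg hf1 hg1 hf0 (u := c.1) (est_h0 (c.2 + r))
    (fun s hs => mem_sqr.2 ⟨hs, l2, le_rfl⟩) (d0 _)
  have h4 := est_edge hf hg ha hr hMf hMg hf1 hg1 hf0 (u := c.2) (est_h1 c.1)
    (fun s hs => mem_sqr.2 ⟨⟨le_rfl, l1⟩, hs⟩) (d1 _)
  rw [abs_le] at h1 h2 h3 h4 ⊢
  simp only [lp, loop]
  constructor <;> linarith [h1.1, h1.2, h2.1, h2.2, h3.1, h3.2, h4.1, h4.2]

theorem est_jac {F : P → ℝ} {p : P → P} {x : P} (hF : DifferentiableAt ℝ F (p x))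
    (hp : DifferentiableAt ℝ p x) :
    jac (fun y => F (p y)) (fun y => (p y).2) x = pd 0 F (p x) * jp p x := by
  have h1 : ∀ i, pd i (fun y => (p y).1) x = (pd i p x).1 := fun i => by
    simp only [pd]; rw [hp.hasFDerivAt.fst.fderiv]; rfl
  have h2 : ∀ i, pd i (fun y => (p y).2) x = (pd i p x).2 := fun i => by
    simp only [pd]; rw [hp.hasFDerivAt.snd.fderiv]; rfl
  have h3 : ∀ i, pd i (fun y => F (p y)) x =
      (pd i p x).1 * pd 0 F (p x) + (pd i p x).2 * pd 1 F (p x) := fun i => by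
    have := fderiv_eq_pd F (p x) (pd i p x)
    simp only [smul_eq_mul] at this
    rw [← this]
    exact congrArg (fun L : P →L[ℝ] ℝ => L (e2 i)) (fderiv_comp x hF hp)
  simp only [jp, jac, h1, h2, h3]
  ring

theorem est_norm_e2 (i : Fin 2) : ‖e2 i‖ = 1 := by fin_cases i <;> simp [e2]

/-- the function `U y - U (y0.1, y.2)` is quadratically small near `y0` -/
theorem est_F {U : P → ℝ} (hU : ContDiff ℝ ∞ U) {ρ Λ O : ℝ} {y0 : P} (hΛ : 0 ≤ Λ)
    (hl : ∀ y ∈ closedBall (0 : P) ρ, ∀ y' ∈ closedBall (0 : P) ρ,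
      ‖fderiv ℝ U y - fderiv ℝ U y'‖ ≤ Λ * ‖y - y'‖) (h0 : pd 0 U y0 = 0)
    (hy0 : y0 ∈ closedBall (0 : P) ρ) :
    ∃ F : P → ℝ, ContDiff ℝ ∞ F ∧ (∀ y, pd 0 F y = pd 0 U y) ∧ F y0 = 0 ∧
      ∀ y ∈ closedBall y0 O ∩ closedBall 0 ρ, ∀ y' ∈ closedBall y0 O ∩ closedBall 0 ρ,
        |F y - F y'| ≤ 2 * Λ * O * dist y y' := by
  have hd := hU.differentiable (by simp)
  have hF : ContDiff ℝ ∞ fun y : P => U y - U (y0.1, y.2) := hU.sub (hU.comp (by fun_prop))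
  have e0 : ∀ y : P, pd 0 (fun y : P => U y - U (y0.1, y.2)) y = pd 0 U y := fun y => by
    refine (est_line (γ := fun s => (s, y.2)) (hF.differentiable (by simp) _)
      (est_h0 y.2 y.1)).unique ?_
    exact (est_line (γ := fun s => (s, y.2)) (hd _) (est_h0 y.2 y.1)).sub_const (U (y0.1, y.2))
  have e1 : ∀ y : P, pd 1 (fun y : P => U y - U (y0.1, y.2)) y =
      pd 1 U y - pd 1 U (y0.1, y.2) := fun y => by
    refine (est_line (γ := fun s => (y.1, s)) (hF.differentiable (by simp) _)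
      (est_h1 y.1 y.2)).unique ?_
    exact (est_line (γ := fun s => (y.1, s)) (hd _) (est_h1 y.1 y.2)).sub
      (est_line (γ := fun s => (y0.1, s)) (hd _) (est_h1 y0.1 y.2))
  have hp : ∀ i, ∀ y ∈ closedBall (0 : P) ρ, ∀ y' ∈ closedBall (0 : P) ρ, dist y y' ≤ O →
      |pd i U y - pd i U y'| ≤ Λ * O := fun i y hy y' hy' h => by
    have := (fderiv ℝ U y - fderiv ℝ U y').le_opNorm (e2 i)
    rw [est_norm_e2, mul_one] at this
    rw [dist_eq_norm] at h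
    exact this.trans ((hl y hy y' hy').trans (mul_le_mul_of_nonneg_left h hΛ))
  refine ⟨_, hF, e0, sub_self _, fun y hy y' hy' => ?_⟩
  rw [dist_eq_norm]
  refine ((convex_closedBall _ _).inter (convex_closedBall _ _)).norm_image_sub_le_of_norm_fderiv_le
    (fun x _ => hF.differentiable (by simp) x) (fun x hx => ?_) hy' hy
  have hO : 0 ≤ O := dist_nonneg.trans hx.1
  refine ContinuousLinearMap.opNorm_le_bound _ (by positivity) fun u => ?_
  have h1 := hp 0 x hx.2 y0 hy0 hx.1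
  have h2 := hp 1 x hx.2 (y0.1, x.2) (by
    rw [mem_closedBall_zero_iff] at hy0 ⊢
    exact max_le ((norm_fst_le y0).trans hy0)
      ((norm_snd_le x).trans (mem_closedBall_zero_iff.1 hx.2))) (by
    refine le_trans ?_ hx.1
    rw [Prod.dist_eq, Prod.dist_eq, dist_self]
    exact max_le_max le_rfl dist_nonneg)
  rw [h0, sub_zero] at h1
  rw [fderiv_eq_pd, e0, e1]
  refine (norm_add_le _ _).trans ?_
  rw [norm_smul, norm_smul]
  have h3 := mul_le_mul (norm_fst_le u) h1 (abs_nonneg _) (norm_nonneg _)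
  have h4 := mul_le_mul (norm_snd_le u) h2 (abs_nonneg _) (norm_nonneg _)
  simp only [Real.norm_eq_abs] at h3 h4 ⊢
  linarith

/-- the anomaly on one square is cubic in the oscillation -/
theorem est {T : P → ℝ} (hT : ContDiff ℝ ∞ T) (ρ : ℝ) : ∃ K : ℝ, 0 ≤ K ∧
    ∀ (a : ℝ) (p : P → P) (κ : P → ℝ) (c : P) (r O M Kκ : ℝ), 1 / 2 < a → 0 < r → 0 ≤ O → 0 ≤ M →
      ContDiff ℝ ∞ p → Continuous κ → (∀ x ∈ sqr c r, |κ x| ≤ Kκ) → (∀ x ∈ sqr c r, ‖p x‖ ≤ ρ) →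
      (∀ x ∈ sqr c r, ∀ y ∈ sqr c r, dist (p x) (p y) ≤ O ∧ dist (p x) (p y) ≤ M * dist x y ^ a) →
      |∫ x in sqr c r, pd 0 T (p x) / lam (p x) * (lam (p x) * jp p x - κ x)| ≤
        K * |∫ x in sqr c r, (lam (p x) * jp p x - κ x)|
          + K * (1 + yc a) * (O * M ^ 2 * r ^ (2 * a)) + K * Kκ * (O * r ^ 2) := by
  obtain ⟨L, hL, hL0⟩ := exists_Lam
  have hφ : ContDiff ℝ ∞ fun y => pd 0 T y / lam y :=
    (contDiff_pd hT 0).div contDiff_lam fun y => (lam_pos y).ne'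
  obtain ⟨Λ₁, h1, l1⟩ := est_lip (hT.fderiv_right (m := ∞) (by simp)) ρ
  obtain ⟨Λ₂, h2, l2⟩ := est_lip (hL.fderiv_right (m := ∞) (by simp)) ρ
  obtain ⟨Λ₃, h3, l3⟩ := est_lip hφ ρ
  obtain ⟨S₀, hS₀⟩ := (isCompact_closedBall (0 : P) ρ).exists_bound_of_continuousOn
    hφ.continuous.continuousOn
  obtain ⟨S, hS, lS⟩ : ∃ S : ℝ, 0 ≤ S ∧ ∀ y ∈ closedBall (0 : P) ρ, |pd 0 T y / lam y| ≤ S :=
    ⟨max S₀ 0, le_max_right _ _, fun y hy => (hS₀ y hy).trans (le_max_left _ _)⟩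
  refine ⟨S + 8 * (Λ₁ + S * Λ₂) + Λ₃, by positivity,
    fun a p κ c r O M Kκ ha hr hO hM hp hκ hK hρ hh => ?_⟩
  have hc : c ∈ sqr c r := mem_sqr.2 ⟨⟨le_rfl, by linarith⟩, le_rfl, by linarith⟩
  have hB : ∀ x ∈ sqr c r, p x ∈ closedBall (0 : P) ρ := fun x hx =>
    mem_closedBall_zero_iff.2 (hρ x hx)
  have hK0 : 0 ≤ Kκ := (abs_nonneg _).trans (hK c hc)
  have hy := yc_pos ha
  generalize hΛ : Λ₁ + S * Λ₂ = Λ
  have hΛ0 : 0 ≤ Λ := by rw [← hΛ]; positivity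
  set φ0 := pd 0 T (p c) / lam (p c) with hφ0
  have hf : ∀ y, fderiv ℝ (fun y => T y - φ0 * L y) y = fderiv ℝ T y - φ0 • fderiv ℝ L y :=
    fun y => ((hT.differentiable (by simp) y).hasFDerivAt.sub
      ((hL.differentiable (by simp) y).hasFDerivAt.const_mul φ0)).fderiv
  have hU0 : ∀ y, pd 0 (fun y => T y - φ0 * L y) y = (pd 0 T y / lam y - φ0) * lam y := fun y => by
    rw [sub_mul, div_mul_cancel₀ _ (lam_pos y).ne', ← hL0, pd, hf]; rfl
  obtain ⟨F, hF, hF0, hF1, hF2⟩ := est_F (O := min O (M * r ^ a)) (y0 := p c)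
    (hT.sub (contDiff_const.mul hL)) hΛ0 (fun y hy y' hy' => by
      rw [hf, hf, sub_sub_sub_comm, ← smul_sub φ0 (fderiv ℝ L y) (fderiv ℝ L y')]
      refine (norm_sub_le _ _).trans ?_
      rw [norm_smul, ← hΛ, add_mul, mul_assoc]
      exact add_le_add (l1 y hy y' hy')
        (mul_le_mul (lS _ (hB c hc)) (l2 y hy y' hy') (norm_nonneg _) hS))
    (by rw [hU0, sub_self, zero_mul]) (hB c hc)
  generalize hO' : min O (M * r ^ a) = O' at hF2
  have o1 : O' ≤ O := hO' ▸ min_le_left _ _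
  have o2 : O' ≤ M * r ^ a := hO' ▸ min_le_right _ _
  have o0 : 0 ≤ O' := hO' ▸ le_min hO (by positivity)
  have hD : ∀ x ∈ sqr c r, p x ∈ closedBall (p c) O' ∩ closedBall 0 ρ := fun x hx =>
    ⟨hO' ▸ le_min (hh x hx c hc).1 ((hh x hx c hc).2.trans (mul_le_mul_of_nonneg_left
      (Real.rpow_le_rpow dist_nonneg (dist_le_of_sqr hx hc) (by linarith)) hM)), hB x hx⟩
  have hp2 : ContDiff ℝ ∞ fun y => (p y).2 := hp.snd
  have b2 := est_lp (f := fun y => F (p y)) (Mf := 2 * Λ * O' * M) (F0 := 2 * Λ * O' * O')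
    (hF.continuous.comp hp.continuous) hp2 ha hr (by positivity) hM
    (fun x hx y hy => (hF2 _ (hD x hx) _ (hD y hy)).trans (by
      rw [mul_assoc _ M]; exact mul_le_mul_of_nonneg_left (hh x hx y hy).2 (by positivity)))
    (fun x hx y hy => le_trans (le_max_right _ _ : _ ≤ dist (p x) (p y)) (hh x hx y hy).2)
    (fun x hx => by
      have := hF2 _ (hD x hx) _ (hD c hc)
      rw [hF1, sub_zero] at this
      exact this.trans (mul_le_mul_of_nonneg_left (hD x hx).1 (by positivity)))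
  rw [← green_jac (f := fun y => F (p y)) ((hF.comp hp).of_le (by exact_mod_cast le_top)) hp2 c
    hr.le] at b2
  have b3 : ‖∫ x in sqr c r, (pd 0 T (p x) / lam (p x) - φ0) * κ x‖ ≤
      Λ₃ * O * Kκ * volume.real (sqr c r) :=
    norm_setIntegral_le_of_norm_le_const (sqr_compact c r).measure_lt_top fun x hx => by
      rw [norm_mul]
      refine mul_le_mul ((l3 _ (hB x hx) _ (hB c hc)).trans (mul_le_mul_of_nonneg_left ?_ h3))
        (hK x hx) (norm_nonneg _) (by positivity)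
      rw [← dist_eq_norm]; exact (hh x hx c hc).1
  rw [Measure.real, volume_sqr c hr.le, ENNReal.toReal_ofReal (by positivity),
    Real.norm_eq_abs] at b3
  have cj : ∀ {f g : P → ℝ}, ContDiff ℝ ∞ f → ContDiff ℝ ∞ g → Continuous (jac f g) :=
    fun hf hg => ((contDiff_pd hf 0).continuous.mul (contDiff_pd hg 1).continuous).sub
      ((contDiff_pd hf 1).continuous.mul (contDiff_pd hg 0).continuous)
  have i1 : IntegrableOn (fun x => φ0 * (lam (p x) * jp p x - κ x)) (sqr c r) :=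
    (continuous_const.mul (((contDiff_lam.continuous.comp hp.continuous).mul
      (cj hp.fst hp2)).sub hκ)).continuousOn.integrableOn_compact (sqr_compact c r)
  have i2 : IntegrableOn (jac (fun y => F (p y)) fun y => (p y).2) (sqr c r) :=
    (cj (hF.comp hp) hp2).continuousOn.integrableOn_compact (sqr_compact c r)
  have i3 : IntegrableOn (fun x => (pd 0 T (p x) / lam (p x) - φ0) * κ x) (sqr c r) :=
    (((hφ.continuous.comp hp.continuous).sub continuous_const).mul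
      hκ).continuousOn.integrableOn_compact (sqr_compact c r)
  have e : ∫ x in sqr c r, pd 0 T (p x) / lam (p x) * (lam (p x) * jp p x - κ x) =
      φ0 * (∫ x in sqr c r, (lam (p x) * jp p x - κ x))
        + (∫ x in sqr c r, jac (fun y => F (p y)) (fun y => (p y).2) x)
        - ∫ x in sqr c r, (pd 0 T (p x) / lam (p x) - φ0) * κ x := by
    rw [← integral_const_mul, ← integral_add i1 i2]
    refine Eq.trans ?_ (integral_sub (i1.add i2) i3)
    refine integral_congr_ae (Eventually.of_forall fun x => ?_)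
    beta_reduce
    rw [est_jac (hF.differentiable (by simp) _) (hp.differentiable (by simp) _), hF0, hU0]
    ring
  have b1 : |φ0 * ∫ x in sqr c r, (lam (p x) * jp p x - κ x)| ≤
      S * |∫ x in sqr c r, (lam (p x) * jp p x - κ x)| := by
    rw [abs_mul]; exact mul_le_mul_of_nonneg_right (lS _ (hB c hc)) (abs_nonneg _)
  have r2 : r ^ (2 * a) = r ^ a * r ^ a := by rw [two_mul, Real.rpow_add hr]
  have ra : 0 < r ^ a := by positivity
  have b4 : 4 * (yc a * (2 * Λ * O' * M) * M * r ^ (2 * a) + 2 * Λ * O' * O' * (M * r ^ a)) ≤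
      8 * Λ * (1 + yc a) * (O * M ^ 2 * r ^ (2 * a)) := by
    have t1 : O' * (yc a * Λ * M ^ 2 * r ^ (2 * a)) ≤ O * (yc a * Λ * M ^ 2 * r ^ (2 * a)) :=
      mul_le_mul_of_nonneg_right o1 (by positivity)
    have t2 : O' * O' * (Λ * (M * r ^ a)) ≤ O * (M * r ^ a) * (Λ * (M * r ^ a)) :=
      mul_le_mul_of_nonneg_right (mul_le_mul o1 o2 o0 hO) (by positivity)
    rw [r2] at t1 ⊢
    nlinarith
  rw [e]
  generalize (∫ x in sqr c r, (lam (p x) * jp p x - κ x)) = I at b1 ⊢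
  have n1 := abs_nonneg I
  have n2 : 0 ≤ (1 + yc a) * (O * M ^ 2 * r ^ (2 * a)) := by positivity
  have n3 : 0 ≤ Kκ * (O * r ^ 2) := by positivity
  refine (abs_sub _ _).trans ((add_le_add (abs_add_le _ _) le_rfl).trans ?_)
  have m1 := mul_nonneg (add_nonneg (mul_nonneg (by norm_num : (0 : ℝ) ≤ 8) hΛ0) h3) n1
  have m2 := mul_nonneg (add_nonneg hS h3) n2
  have m3 := mul_nonneg (add_nonneg hS (mul_nonneg (by norm_num : (0 : ℝ) ≤ 8) hΛ0)) n3
  nlinarith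

end Pool.Agent.Bor
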