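import Pool.Agent.P.MP_26ecb7_gt.Gauss
import Pool.Agent.P.MP_26ecb7_gt.Est

noncomputable section
open Set Filter Topology MeasureTheory Metric
open scoped RealInnerProductSpace ContDiff ENNReal

namespace Pool.Agent.Bor

theorem cone_meas : Measurable nrm := by
  unfold nrm
  exact (measurable_norm.inv).smul measurable_id

theorem cone_apply {B : Set E} (hB : MeasurableSet B) :
    sig B = 3 * volume (nrm ⁻¹' B ∩ ball (0 : E) 1) := by
  unfold sig
  rw [Measure.smul_apply, Measure.map_apply cone_meas hB, Measure.restrict_apply (cone_meas hB),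
    smul_eq_mul]

instance : IsFiniteMeasure sig := by
  refine ⟨?_⟩
  rw [cone_apply MeasurableSet.univ]
  refine ENNReal.mul_lt_top (by simp) ?_
  exact lt_of_le_of_lt (measure_mono inter_subset_right) measure_ball_lt_top

theorem measurable_nrm : Measurable nrm := cone_meas

theorem sig_compl_sphere : sig (sphere (0 : E) 1)ᶜ = 0 := by
  rw [cone_apply isClosed_sphere.measurableSet.compl]
  have h : nrm ⁻¹' (sphere (0 : E) 1)ᶜ ∩ ball (0 : E) 1 ⊆ {0} := by
    intro y hy
    by_contra h0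
    exact hy.1 (by simpa using norm_nrm h0)
  rw [measure_mono_null h (measure_singleton _), mul_zero]

theorem sig_neg {B : Set E} (hB : MeasurableSet B) : sig ((fun y => -y) ⁻¹' B) = sig B := by
  rw [cone_apply hB, cone_apply (measurable_neg hB)]
  congr 1
  have h : nrm ⁻¹' ((fun y => -y) ⁻¹' B) ∩ ball (0 : E) 1
      = (fun y => -y) ⁻¹' (nrm ⁻¹' B ∩ ball (0 : E) 1) := by
    ext y
    simp [nrm]
  rw [h]
  exact (Measure.measurePreserving_neg (volume : Measure E)).measure_preimage
    ((cone_meas hB).inter measurableSet_ball).nullMeasurableSet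

theorem sig_pos {U : Set E} (hU : IsOpen U) {y : E} (hy : y ∈ U) (h1 : ‖y‖ = 1) : sig U ≠ 0 := by
  rw [cone_apply hU.measurableSet]
  refine mul_ne_zero (by simp) ?_
  have hy0 : y ≠ 0 := by
    intro h
    rw [h] at h1
    simp at h1
  have h2 : (1 / 2 : ℝ) • y ≠ 0 := smul_ne_zero (by norm_num) hy0
  have h3 : nrm ((1 / 2 : ℝ) • y) = y := by rw [nrm_smul (by norm_num), nrm_unit h1]
  have h4 : nrm ⁻¹' U ∈ 𝓝 ((1 / 2 : ℝ) • y) :=
    (contDiffAt_nrm h2).continuousAt.preimage_mem_nhds (by rw [h3]; exact hU.mem_nhds hy)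
  have h5 : ball (0 : E) 1 ∈ 𝓝 ((1 / 2 : ℝ) • y) := by
    refine isOpen_ball.mem_nhds ?_
    rw [mem_ball_zero_iff, norm_smul, h1]
    norm_num
  exact (Measure.measure_pos_of_mem_nhds volume (inter_mem h4 h5)).ne'

theorem cone_det (L : E →L[ℝ] E) : L.det = ⟪L (ee 2), cr (L (ee 0)) (L (ee 1))⟫ := by
  rw [ContinuousLinearMap.det, ← LinearMap.det_toMatrix (EuclideanSpace.basisFun (Fin 3) ℝ).toBasis,
    Matrix.det_fin_three, inner_eq]
  simp [LinearMap.toMatrix_apply, cr, ee]
  ring

/-- projection to the first two coordinates -/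
def conePr : E →L[ℝ] P :=
  (EuclideanSpace.proj (0 : Fin 3) : E →L[ℝ] ℝ).prod (EuclideanSpace.proj (1 : Fin 3))

theorem conePr_apply (z : E) : conePr z = (z 0, z 1) := rfl

theorem cone_mp : MeasurePreserving (fun z : E => (z 2, conePr z)) volume
    ((volume : Measure ℝ).prod (volume : Measure P)) := by
  have h1 := PiLp.volume_preserving_ofLp (Fin 3)
  have h2 := volume_preserving_piFinSuccAbove (fun _ : Fin 3 => ℝ) 2
  have h3 := (MeasurePreserving.id (volume : Measure ℝ)).prod (volume_preserving_finTwoArrow ℝ)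
  have h4 := h3.comp (h2.comp h1)
  have h5 : (fun z : E => (z 2, conePr z)) = (Prod.map id ⇑(MeasurableEquiv.finTwoArrow (α := ℝ))) ∘
      (⇑(MeasurableEquiv.piFinSuccAbove (fun _ : Fin 3 => ℝ) 2) ∘ WithLp.ofLp) := by
    funext z
    rfl
  rw [h5]
  exact h4

theorem cone_kap_meas {M : P → E} (hM : Differentiable ℝ M) : Measurable (kap M) := by
  have h0 : ∀ i, Measurable (pd i M) := fun i => measurable_fderiv_apply_const ℝ M (e2 i)
  obtain ⟨B, hB⟩ := exists_crL
  have h1 : Continuous (fun p : E × E × E => ⟪p.1, B p.2.1 p.2.2⟫) := by fun_prop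
  have h2 : kap M = (fun p : E × E × E => ⟪p.1, B p.2.1 p.2.2⟫) ∘
      fun x => (M x, pd 0 M x, pd 1 M x) := by
    funext x
    simp [kap, hB]
  rw [h2]
  exact h1.measurable.comp (hM.continuous.measurable.prodMk ((h0 0).prodMk (h0 1)))

theorem cone_third : ∫⁻ t in Ioo (0 : ℝ) 1, ENNReal.ofReal (t ^ 2) = 3⁻¹ := by
  rw [← ofReal_integral_eq_lintegral_ofReal]
  · rw [← integral_Ioc_eq_integral_Ioo, ← intervalIntegral.integral_of_le zero_le_one, integral_pow]
    rw [show ((1 : ℝ) ^ (2 + 1) - 0 ^ (2 + 1)) / (((2 : ℕ) : ℝ) + 1) = (3 : ℝ)⁻¹ by norm_num,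
      ENNReal.ofReal_inv_of_pos (by norm_num)]
    simp
  · exact ((continuous_pow 2).integrableOn_Icc (a := (0 : ℝ)) (b := 1)).mono_set Ioo_subset_Icc_self
  · exact Eventually.of_forall fun t => sq_nonneg t

/-- area formula on the sphere -/
theorem sig_image {M : P → E} (hM : Differentiable ℝ M) (h1 : ∀ x, ‖M x‖ = 1) {A : Set P}
    (hA : MeasurableSet A) (hi : InjOn M A) :
    sig (M '' A) = ∫⁻ x in A, ENNReal.ofReal |kap M x| := by
  have hMA : MeasurableSet (M '' A) :=
    hA.image_of_continuousOn_injOn hM.continuous.continuousOn hi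
  rw [cone_apply hMA]
  set Φ : E → E := fun z => z 2 • M (conePr z) with hΦ
  set D : Set E := (fun z : E => (z 2, conePr z)) ⁻¹' (Ioo (0 : ℝ) 1 ×ˢ A) with hD
  have hDm : MeasurableSet D := cone_mp.measurable (measurableSet_Ioo.prod hA)
  have hn : ∀ z ∈ D, ‖Φ z‖ = z 2 := by
    intro z hz
    have : 0 < z 2 := hz.1.1
    simp [hΦ, norm_smul, h1, abs_of_pos this]
  have hr : ∀ z ∈ D, nrm (Φ z) = M (conePr z) := by
    intro z hz
    have : 0 < z 2 := hz.1.1
    simp only [hΦ]
    rw [nrm_smul this, nrm_unit (h1 _)]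
  have him : nrm ⁻¹' (M '' A) ∩ ball (0 : E) 1 = Φ '' D := by
    ext y
    constructor
    · rintro ⟨⟨x, hx, hxy⟩, hy⟩
      have hy0 : y ≠ 0 := by
        intro h
        have := h1 x
        rw [hxy, h] at this
        simp [nrm] at this
      have hp : conePr (!₂[x.1, x.2, ‖y‖] : E) = x := by
        rw [conePr_apply]; simp
      refine ⟨!₂[x.1, x.2, ‖y‖], ⟨⟨?_, ?_⟩, ?_⟩, ?_⟩
      · simpa using hy0
      · simpa using hy
      · show conePr _ ∈ A
        rw [hp]; exact hx
      · simp only [hΦ]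
        rw [hp, hxy]
        have : ‖y‖ ≠ 0 := norm_ne_zero_iff.2 hy0
        simp [nrm, smul_smul, this]
    · rintro ⟨z, hz, rfl⟩
      refine ⟨⟨conePr z, hz.2, (hr z hz).symm⟩, ?_⟩
      rw [mem_ball_zero_iff, hn z hz]
      exact hz.1.2
  have hinj : InjOn Φ D := by
    intro z hz w hw hzw
    have e1 : z 2 = w 2 := by rw [← hn z hz, ← hn w hw, hzw]
    have e2 : conePr z = conePr w := hi hz.2 hw.2 (by rw [← hr z hz, ← hr w hw, hzw])
    rw [conePr_apply, conePr_apply, Prod.mk.injEq] at e2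
    ext k
    fin_cases k
    · exact e2.1
    · exact e2.2
    · exact e1
  let F : E → E →L[ℝ] E := fun z => z 2 • ((fderiv ℝ M (conePr z)).comp conePr)
    + (EuclideanSpace.proj (2 : Fin 3) : E →L[ℝ] ℝ).smulRight (M (conePr z))
  have hF : ∀ z, HasFDerivAt Φ (F z) z := by
    intro z
    have a1 : HasFDerivAt (fun z : E => z 2) (EuclideanSpace.proj (2 : Fin 3) : E →L[ℝ] ℝ) z :=
      (EuclideanSpace.proj (2 : Fin 3) : E →L[ℝ] ℝ).hasFDerivAt
    have a2 : HasFDerivAt (fun z : E => M (conePr z)) ((fderiv ℝ M (conePr z)).comp conePr) z :=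
      (hM _).hasFDerivAt.comp z conePr.hasFDerivAt
    exact a1.smul a2
  have hdet : ∀ z, (F z).det = z 2 ^ 2 * kap M (conePr z) := by
    intro z
    have b0 : F z (ee 0) = z 2 • pd 0 M (conePr z) := by
      simp [F, ee, conePr_apply, pd, e2]
    have b1 : F z (ee 1) = z 2 • pd 1 M (conePr z) := by
      simp [F, ee, conePr_apply, pd, e2]
    have b2 : F z (ee 2) = M (conePr z) := by
      have : conePr (ee 2) = 0 := by
        rw [conePr_apply]; simp [ee]
      simp only [F, ContinuousLinearMap.add_apply, ContinuousLinearMap.smul_apply,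
        ContinuousLinearMap.comp_apply, this, map_zero, smul_zero, zero_add,
        ContinuousLinearMap.smulRight_apply]
      simp [ee]
    rw [cone_det, b0, b1, b2, cr_smul_left, cr_smul_right, inner_smul_right, inner_smul_right, kap]
    ring
  rw [him, ← lintegral_abs_det_fderiv_eq_addHaar_image volume hDm
    (fun z _ => (hF z).hasFDerivWithinAt) hinj]
  have hk := cone_kap_meas hM
  have hg : Measurable (fun p : ℝ × P => ENNReal.ofReal (p.1 ^ 2) * ENNReal.ofReal |kap M p.2|) :=
    ((measurable_fst.pow_const 2).ennreal_ofReal).mul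
      ((hk.comp measurable_snd).abs.ennreal_ofReal)
  have e1 : (fun z : E => ENNReal.ofReal |(F z).det|) = fun z : E =>
      (fun p : ℝ × P => ENNReal.ofReal (p.1 ^ 2) * ENNReal.ofReal |kap M p.2|) (z 2, conePr z) := by
    funext z
    rw [hdet, abs_mul, abs_of_nonneg (sq_nonneg _), ENNReal.ofReal_mul (sq_nonneg _)]
  rw [e1, hD, cone_mp.setLIntegral_comp_preimage (measurableSet_Ioo.prod hA) hg,
    ← Measure.prod_restrict,
    lintegral_prod_mul (f := fun t : ℝ => ENNReal.ofReal (t ^ 2))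
      (g := fun x : P => ENNReal.ofReal |kap M x|)
      ((measurable_id.pow_const 2).ennreal_ofReal).aemeasurable
      (hk.abs.ennreal_ofReal).aemeasurable,
    cone_third, ← mul_assoc, ENNReal.mul_inv_cancel (by simp) (by simp), one_mul]

/-- gnomonic formula -/
theorem sig_gn (R : Rot) {B : Set P} (hB : MeasurableSet B) :
    sig {y | 0 < ⟪y, R.R (ee 2)⟫ ∧ gn R y ∈ B} = ∫⁻ x in B, ENNReal.ofReal (lam x) := by
  have hl0 : ∀ x, lift R x ≠ 0 := by
    intro x h
    have := inner_lift R x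
    rw [h] at this
    simp at this
  set M : P → E := fun x => nrm (lift R x) with hM
  have hMd : Differentiable ℝ M := fun x =>
    ((contDiffAt_nrm (hl0 x)).differentiableAt (by simp)).comp x
      (((contDiff_lift R).differentiable (by simp)) x)
  have h1 : ∀ x, ‖M x‖ = 1 := fun x => norm_nrm (hl0 x)
  have hg : ∀ x, gn R (M x) = x := by
    intro x
    simp only [hM, nrm]
    rw [gn_smul R (inv_ne_zero (norm_ne_zero_iff.2 (hl0 x))), gn_lift]
  have h2 : ∀ x, 0 < ⟪M x, R.R (ee 2)⟫ := by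
    intro x
    simp only [hM, nrm]
    rw [real_inner_smul_left, inner_lift, mul_one]
    exact inv_pos.2 (norm_pos_iff.2 (hl0 x))
  have hi : InjOn M B := fun x _ y _ h => by rw [← hg x, ← hg y, h]
  have hk : ∀ x, |kap M x| = lam x := by
    intro x
    rw [kap_gn R (hMd x) (h1 x) (h2 x), hg]
    have e : (fun y => gn R (M y)) = fun y => y := funext hg
    have e' : jp (fun y : P => y) x = 1 := by
      rw [← det_fderiv differentiableAt_fun_id, fderiv_fun_id]
      simp [ContinuousLinearMap.det]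
    rw [e, e', mul_one, abs_of_pos (lam_pos x)]
  have hs : {y | 0 < ⟪y, R.R (ee 2)⟫ ∧ gn R y ∈ B} ∩ sphere (0 : E) 1 = M '' B := by
    ext y
    constructor
    · rintro ⟨⟨hy1, hy2⟩, hy3⟩
      refine ⟨gn R y, hy2, ?_⟩
      have := lift_gn R hy1.ne'
      simp only [hM]
      rw [← nrm_smul hy1, this, nrm_unit (by simpa using hy3)]
    · rintro ⟨x, hx, rfl⟩
      exact ⟨⟨h2 x, by rw [hg]; exact hx⟩, by simpa using h1 x⟩
  rw [← measure_inter_conull (μ := sig) sig_compl_sphere, hs, sig_image hMd h1 hB hi]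
  simp only [hk]

end Pool.Agent.Bor
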