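import Pool.Agent.P.MP_26ecb7_gt.Defs

noncomputable section
open Set Filter Topology MeasureTheory Metric
open scoped RealInnerProductSpace ContDiff ENNReal

namespace Pool.Agent.Bor

/-- hypotheses on the defining function -/
structure Lev (F : E → ℝ) : Prop where
  smooth : ContDiff ℝ ∞ F
  cpt : IsCompact (F ⁻¹' {0})
  conn : IsConnected (F ⁻¹' {0})
  reg : ∀ x ∈ F ⁻¹' {0}, fderiv ℝ F x ≠ 0
  curv : ∀ x ∈ F ⁻¹' {0}, ∀ w : E, fderiv ℝ F x w = 0 → w ≠ 0 → 0 < fderiv ℝ (fderiv ℝ F) x w w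

theorem conv_line {F : E → ℝ} (hF : ContDiff ℝ ∞ F) (z d : E) (t : ℝ) :
    HasDerivAt (fun s : ℝ => F (z + s • d)) (fderiv ℝ F (z + t • d) d) t := by
  have h1 : HasDerivAt (fun s : ℝ => z + s • d) d t := by
    simpa using ((hasDerivAt_id t).smul_const d).const_add z
  exact ((hF.differentiable (by simp)) (z + t • d)).hasFDerivAt.comp_hasDerivAt t h1

theorem conv_line2 {F : E → ℝ} (hF : ContDiff ℝ ∞ F) (z d : E) :
    HasDerivAt (fun s : ℝ => fderiv ℝ F (z + s • d) d) (fderiv ℝ (fderiv ℝ F) z d d) 0 := by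
  have h1 : HasDerivAt (fun s : ℝ => z + s • d) d 0 := by
    simpa using ((hasDerivAt_id (0 : ℝ)).smul_const d).const_add z
  have h2 : ContDiff ℝ ∞ (fderiv ℝ F) := hF.fderiv_right (m := ∞) (by simp)
  have h3 : HasFDerivAt (fderiv ℝ F) (fderiv ℝ (fderiv ℝ F) z) (z + (0 : ℝ) • d) := by
    simpa using ((h2.differentiable (by simp)) z).hasFDerivAt
  have h4 := h3.comp_hasDerivAt (0 : ℝ) h1
  have h5 := h4.clm_apply (hasDerivAt_const (0 : ℝ) d)
  simpa using h5

theorem conv_pos_right {g : ℝ → ℝ} {c : ℝ} (hg : HasDerivAt g c 0) (h0 : g 0 = 0) (hc : 0 < c) :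
    ∀ᶠ t in 𝓝[>] (0 : ℝ), 0 < g t := by
  have h1 := hg.tendsto_slope_zero_right
  have h2 := h1.eventually (lt_mem_nhds hc)
  filter_upwards [h2, self_mem_nhdsWithin] with t ht ht0
  have ht1 : (0 : ℝ) < t := ht0
  simp only [zero_add, h0, sub_zero, smul_eq_mul] at ht
  exact (mul_pos_iff_of_pos_left (inv_pos.mpr ht1)).mp ht

theorem conv_neg {F : E → ℝ} (h : Lev F) {z d : E} (hz : F z = 0) (hd : d ≠ 0)
    (hle : ∀ᶠ t in 𝓝[>] (0 : ℝ), F (z + t • d) ≤ 0) : fderiv ℝ F z d < 0 := by
  by_contra hc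
  have hc' : 0 ≤ fderiv ℝ F z d := not_lt.mp hc
  have key : ∀ᶠ t in 𝓝[>] (0 : ℝ), 0 < F (z + t • d) := by
    rcases hc'.lt_or_eq with hp | he
    · have h1 := conv_line h.smooth z d 0
      simp only [zero_smul, add_zero] at h1
      exact conv_pos_right h1 (by simpa using hz) hp
    · have h1 := conv_pos_right (conv_line2 h.smooth z d) (by simpa using he.symm)
        (h.curv z hz d he.symm hd)
      obtain ⟨ε, hε, hsub⟩ := mem_nhdsGT_iff_exists_Ioo_subset.mp h1
      have hε0 : (0 : ℝ) < ε := hε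
      have hmono : StrictMonoOn (fun s : ℝ => F (z + s • d)) (Icc 0 ε) := by
        apply strictMonoOn_of_deriv_pos (convex_Icc 0 ε)
        · exact fun s _ => (conv_line h.smooth z d s).continuousAt.continuousWithinAt
        · intro s hs
          rw [interior_Icc] at hs
          rw [(conv_line h.smooth z d s).deriv]
          exact hsub hs
      filter_upwards [Ioo_mem_nhdsGT hε0] with t ht
      have h2 := hmono ⟨le_rfl, hε0.le⟩ ⟨ht.1.le, ht.2.le⟩ ht.1
      simpa [hz] using h2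
  obtain ⟨t, h1, h2⟩ := (key.and hle).exists
  exact absurd h1 (not_lt.mpr h2)

theorem conv_seg_lt {F : E → ℝ} (h : Lev F) {x y : E} (hx : F x < 0) (hy : F y < 0)
    (hle : ∀ t ∈ Icc (0 : ℝ) 1, F (x + t • (y - x)) ≤ 0) :
    ∀ t ∈ Icc (0 : ℝ) 1, F (x + t • (y - x)) < 0 := by
  intro s hs
  rcases (hle s hs).lt_or_eq with h1 | h1
  · exact h1
  exfalso
  have hs0 : 0 < s := by
    rcases hs.1.lt_or_eq with h2 | h2
    · exact h2
    · rw [← h2] at h1; simp at h1; linarith
  have hs1 : s < 1 := by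
    rcases hs.2.lt_or_eq with h2 | h2
    · exact h2
    · rw [h2] at h1; simp at h1; linarith
  have hd : y - x ≠ 0 := by
    intro h2
    rw [h2] at h1; simp at h1; linarith
  have ha : fderiv ℝ F (x + s • (y - x)) (y - x) < 0 := by
    apply conv_neg h h1 hd
    filter_upwards [Ioo_mem_nhdsGT (sub_pos.mpr hs1)] with t ht
    have h2 := hle (s + t) ⟨by linarith [ht.1], by linarith [ht.2]⟩
    rwa [add_smul, ← add_assoc] at h2
  have hb : fderiv ℝ F (x + s • (y - x)) (-(y - x)) < 0 := by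
    apply conv_neg h h1 (neg_ne_zero.mpr hd)
    filter_upwards [Ioo_mem_nhdsGT hs0] with t ht
    have h2 := hle (s - t) ⟨by linarith [ht.2], by linarith [ht.1]⟩
    rwa [sub_smul, ← add_sub_assoc, sub_eq_add_neg (x + s • (y - x)), ← smul_neg] at h2
  rw [map_neg] at hb
  linarith

theorem conv_pre {F : E → ℝ} (h : Lev F) {U : Set E} (hU : IsPreconnected U)
    (hN : ∀ x ∈ U, F x < 0) {x y : E} (hx : x ∈ U) (hy : y ∈ U) :
    ∀ t ∈ Icc (0 : ℝ) 1, F (x + t • (y - x)) < 0 := by
  have hc : Continuous F := h.smooth.continuous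
  have hA : IsOpen {w : E | ∀ t ∈ Icc (0 : ℝ) 1, F (x + t • (w - x)) < 0} := by
    rw [isOpen_iff_mem_nhds]
    intro w hw
    apply (isCompact_Icc (a := (0 : ℝ)) (b := 1)).eventually_forall_of_forall_eventually
      (P := fun (w : E) (t : ℝ) => F (x + t • (w - x)) < 0)
    intro t ht
    have h1 : Continuous (fun p : E × ℝ => F (x + p.2 • (p.1 - x))) := by fun_prop
    exact h1.continuousAt.eventually (gt_mem_nhds (hw t ht))
  have hB : IsClosed {w : E | ∀ t ∈ Icc (0 : ℝ) 1, F (x + t • (w - x)) ≤ 0} := by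
    have h1 : {w : E | ∀ t ∈ Icc (0 : ℝ) 1, F (x + t • (w - x)) ≤ 0}
        = ⋂ t ∈ Icc (0 : ℝ) 1, {w : E | F (x + t • (w - x)) ≤ 0} := by
      ext w; simp
    rw [h1]
    exact isClosed_biInter fun t _ => isClosed_le (by fun_prop) continuous_const
  have hsub := hU.subset_left_of_subset_union hA hB.isOpen_compl
    (by
      rw [Set.disjoint_left]
      intro w hw hw'
      exact hw' fun t ht => (hw t ht).le)
    (by
      intro w hw
      by_cases h1 : ∀ t ∈ Icc (0 : ℝ) 1, F (x + t • (w - x)) ≤ 0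
      · exact Or.inl (conv_seg_lt h (hN x hx) (hN w hw) h1)
      · exact Or.inr h1)
    ⟨x, hx, fun t _ => by simpa using hN x hx⟩
  exact hsub hy

theorem conv_loc {F : E → ℝ} (h : Lev F) {q : E} (hq : F q = 0) :
    ∃ r > 0, ∃ p, F p < 0 ∧ ∀ x ∈ ball q r, F x ≤ 0 →
      x ∈ closure (connectedComponentIn {y | F y < 0} p) ∧
      (F x < 0 → x ∈ connectedComponentIn {y | F y < 0} p) := by
  have hc : Continuous F := h.smooth.continuous
  obtain ⟨v, hv⟩ : ∃ v, fderiv ℝ F q v < 0 := by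
    by_contra hcon
    push Not at hcon
    apply h.reg q hq
    ext v
    have h1 := hcon v
    have h2 := hcon (-v)
    rw [map_neg] at h2
    simp only [zero_apply]
    linarith
  have hcd : Continuous (fun p : E × ℝ => fderiv ℝ F (p.1 + p.2 • v) v) := by
    have h2 : Continuous (fderiv ℝ F) := h.smooth.continuous_fderiv (by simp)
    fun_prop
  have hev : ∀ᶠ p : E × ℝ in 𝓝 (q, 0), fderiv ℝ F (p.1 + p.2 • v) v < 0 :=
    hcd.continuousAt.eventually (gt_mem_nhds (by simpa using hv))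
  obtain ⟨ρ, hρ, hball⟩ := Metric.eventually_nhds_iff.mp hev
  have hdec : ∀ x ∈ ball q ρ, ∀ t ∈ Ioc (0 : ℝ) (ρ / 2), F (x + t • v) < F x := by
    intro x hx t ht
    have hanti : StrictAntiOn (fun s : ℝ => F (x + s • v)) (Icc 0 (ρ / 2)) := by
      apply strictAntiOn_of_deriv_neg (convex_Icc _ _)
      · exact fun s _ => (conv_line h.smooth x v s).continuousAt.continuousWithinAt
      · intro s hs
        rw [interior_Icc] at hs
        rw [(conv_line h.smooth x v s).deriv]
        apply hball (y := (x, s))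
        rw [Prod.dist_eq, max_lt_iff]
        refine ⟨hx, ?_⟩
        rw [Real.dist_eq, sub_zero, abs_of_pos hs.1]
        linarith [hs.2]
    have h2 := hanti ⟨le_rfl, by linarith⟩ ⟨ht.1.le, ht.2⟩ ht.1
    simpa using h2
  have hp : F (q + (ρ / 2) • v) < 0 := by
    have h1 := hdec q (mem_ball_self hρ) (ρ / 2) ⟨by linarith, le_rfl⟩
    rwa [hq] at h1
  obtain ⟨r1, hr1, hb1⟩ := Metric.eventually_nhds_iff.mp
    (hc.continuousAt.eventually (gt_mem_nhds hp))
  refine ⟨min ρ r1, lt_min hρ hr1, q + (ρ / 2) • v, hp, fun x hx hx0 => ?_⟩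
  have hxρ : x ∈ ball q ρ := ball_subset_ball (min_le_left _ _) hx
  have hxr : dist x q < r1 := lt_of_lt_of_le hx (min_le_right _ _)
  have h1 : x + (ρ / 2) • v ∈ connectedComponentIn {y | F y < 0} (q + (ρ / 2) • v) := by
    apply (convex_ball (q + (ρ / 2) • v) r1).isPreconnected.subset_connectedComponentIn
      (mem_ball_self hr1) (fun y hy => hb1 hy)
    simpa [mem_ball] using hxr
  have hcx : Continuous (fun s : ℝ => x + s • v) := by fun_prop
  have h2 : (fun s : ℝ => x + s • v) '' Ioc 0 (ρ / 2) ⊆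
      connectedComponentIn {y | F y < 0} (q + (ρ / 2) • v) := by
    rw [connectedComponentIn_eq h1]
    apply (isPreconnected_Ioc.image _ hcx.continuousOn).subset_connectedComponentIn
      ⟨ρ / 2, ⟨by linarith, le_rfl⟩, rfl⟩
    rintro _ ⟨s, hs, rfl⟩
    exact lt_of_lt_of_le (hdec x hxρ s hs) hx0
  constructor
  · apply closure_mono h2
    apply image_closure_subset_closure_image hcx
    refine ⟨0, ?_, by simp⟩
    rw [closure_Ioc (by linarith)]
    exact ⟨le_rfl, by linarith⟩
  · intro hx1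
    rw [connectedComponentIn_eq h1]
    have h3 : (fun s : ℝ => x + s • v) '' Icc 0 (ρ / 2) ⊆
        connectedComponentIn {y | F y < 0} (x + (ρ / 2) • v) := by
      apply (isPreconnected_Icc.image _ hcx.continuousOn).subset_connectedComponentIn
        ⟨ρ / 2, ⟨by linarith, le_rfl⟩, rfl⟩
      rintro _ ⟨s, hs, rfl⟩
      rcases hs.1.lt_or_eq with h4 | h4
      · exact lt_of_lt_of_le (hdec x hxρ s ⟨h4, hs.2⟩) hx0
      · rw [← h4]; simpa using hx1
    exact h3 ⟨0, ⟨le_rfl, by linarith⟩, by simp⟩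

theorem conv_comp {F : E → ℝ} (h : Lev F) :
    ∃ o, F o < 0 ∧ F ⁻¹' {0} ⊆ closure (connectedComponentIn {y | F y < 0} o) := by
  obtain ⟨q0, hq0⟩ := h.conn.nonempty
  obtain ⟨r0, hr0, o, ho, h0⟩ := conv_loc h hq0
  refine ⟨o, ho, ?_⟩
  by_contra hcon
  obtain ⟨q1, hq1, hq1'⟩ := not_subset.mp hcon
  have hkey := h.conn.isPreconnected
    (interior {y | F y ≤ 0 → y ∈ closure (connectedComponentIn {y | F y < 0} o)})
    (closure (connectedComponentIn {y | F y < 0} o))ᶜ isOpen_interior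
    isClosed_closure.isOpen_compl
    (by
      intro q hq
      by_cases h1 : q ∈ closure (connectedComponentIn {y | F y < 0} o)
      · left
        obtain ⟨r, hr, p, _, h2⟩ := conv_loc h hq
        obtain ⟨x, hx, hxq⟩ := Metric.mem_closure_iff.mp h1 r hr
        have hx0 : F x < 0 := connectedComponentIn_subset {y | F y < 0} o hx
        have hx1 := (h2 x (by rw [mem_ball, dist_comm]; exact hxq) hx0.le).2 hx0
        have heq : connectedComponentIn {y | F y < 0} p = connectedComponentIn {y | F y < 0} o :=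
          (connectedComponentIn_eq hx1).trans (connectedComponentIn_eq hx).symm
        rw [mem_interior_iff_mem_nhds]
        filter_upwards [ball_mem_nhds q hr] with y hy hy0
        rw [← heq]
        exact (h2 y hy hy0).1
      · exact Or.inr h1)
    ⟨q0, hq0, by
      rw [mem_interior_iff_mem_nhds]
      filter_upwards [ball_mem_nhds q0 hr0] with y hy hy0
      exact (h0 y hy hy0).1⟩
    ⟨q1, hq1, hq1'⟩
  obtain ⟨x, hx, hx1, hx2⟩ := hkey
  have hx0 : F x = 0 := hx
  exact hx2 (interior_subset hx1 hx0.le)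

/-- Hadamard: the level set bounds a strictly convex body -/
theorem Lev.convex {F : E → ℝ} (h : Lev F) : ∃ o : E,
    (∀ q ∈ F ⁻¹' {0}, 0 < fderiv ℝ F q (q - o)) ∧
    (∀ q ∈ F ⁻¹' {0}, ∀ q' ∈ F ⁻¹' {0}, q ≠ q' → fderiv ℝ F q (q' - q) < 0) ∧
    (∀ d : E, d ≠ 0 → ∃ t : ℝ, 0 < t ∧ F (o + t • d) = 0) := by
  have hc : Continuous F := h.smooth.continuous
  obtain ⟨o, ho, hS⟩ := conv_comp h
  set U := connectedComponentIn {y | F y < 0} o with hUdef
  have hU : IsPreconnected U := isPreconnected_connectedComponentIn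
  have hN : ∀ x ∈ U, F x < 0 := fun x hx => connectedComponentIn_subset {y | F y < 0} o hx
  have hoU : o ∈ U := mem_connectedComponentIn ho
  have hcl : ∀ x ∈ closure U, ∀ y ∈ closure U, ∀ t ∈ Icc (0 : ℝ) 1,
      F (x + t • (y - x)) ≤ 0 := by
    intro x hx y hy t ht
    have h1 : IsClosed {p : E × E | F (p.1 + t • (p.2 - p.1)) ≤ 0} :=
      isClosed_le (by fun_prop) continuous_const
    have h2 : (x, y) ∈ closure (U ×ˢ U) := by
      rw [closure_prod_eq]; exact ⟨hx, hy⟩
    exact h1.closure_subset_iff.mpr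
      (fun p hp => (conv_pre h hU hN hp.1 hp.2 t ht).le) h2
  have hmain : ∀ q ∈ F ⁻¹' {0}, ∀ y ∈ closure U, q ≠ y → fderiv ℝ F q (y - q) < 0 := by
    intro q hq y hy hne
    apply conv_neg h hq (sub_ne_zero.mpr hne.symm)
    filter_upwards [Ioo_mem_nhdsGT (zero_lt_one' ℝ)] with t ht
    exact hcl q (hS hq) y hy t ⟨ht.1.le, ht.2.le⟩
  have hne : ∀ q ∈ F ⁻¹' {0}, q ≠ o := by
    intro q hq he
    have hq0 : F q = 0 := hq
    rw [he] at hq0
    linarith
  refine ⟨o, fun q hq => ?_, fun q hq q' hq' hqq => hmain q hq q' (hS hq') hqq, fun d hd => ?_⟩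
  · have h1 := hmain q hq o (subset_closure hoU) (hne q hq)
    rw [← neg_sub, map_neg] at h1
    linarith
  obtain ⟨R, hR, hsub⟩ := h.cpt.isBounded.subset_ball_lt 0 o
  have hsph : ∀ x ∈ sphere o R, F x ≠ 0 := by
    intro x hx h0
    have h1 : dist x o < R := hsub (show x ∈ F ⁻¹' {0} from h0)
    have h2 : dist x o = R := hx
    linarith
  have hconn : IsPreconnected (sphere o R) := by
    apply (isConnected_sphere _ o hR.le).isPreconnected
    rw [← Module.finrank_eq_rank]
    simp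
  have hmem : ∀ (u : E) (s : ℝ), u ≠ 0 → |s| = R / ‖u‖ → o + s • u ∈ sphere o R := by
    intro u s hu hs
    have h1 : 0 < ‖u‖ := norm_pos_iff.mpr hu
    rw [mem_sphere, dist_eq_norm, add_sub_cancel_left, norm_smul, Real.norm_eq_abs, hs]
    field_simp
  have hdn : 0 < ‖d‖ := norm_pos_iff.mpr hd
  have hT : 0 < R / ‖d‖ := div_pos hR hdn
  have hpos : 0 < F (o + (R / ‖d‖) • d) := by
    have hm := hmem d (R / ‖d‖) hd (abs_of_pos hT)
    rcases lt_or_gt_of_ne (hsph _ hm) with hlt | hgt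
    · exfalso
      have hall : ∀ x ∈ sphere o R, F x < 0 := by
        intro x hx
        by_contra hcon
        obtain ⟨y, hy, hy0⟩ := hconn.intermediate_value hm hx hc.continuousOn
          ⟨hlt.le, not_lt.mp hcon⟩
        exact hsph y hy hy0
      obtain ⟨q, hq⟩ := h.conn.nonempty
      have hu : q - o ≠ 0 := sub_ne_zero.mpr (hne q hq)
      have hun : 0 < ‖q - o‖ := norm_pos_iff.mpr hu
      have hlt2 : ‖q - o‖ < R := by
        have h1 : dist q o < R := hsub hq
        rwa [dist_eq_norm] at h1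
      set s := R / ‖q - o‖ with hsdef
      have hs1 : 1 < s := (one_lt_div hun).mpr hlt2
      have hs0 : 0 < s := by linarith
      have h1 := conv_pre h hconn hall (hmem (q - o) (-s) hu (by rw [abs_neg, abs_of_pos hs0]))
        (hmem (q - o) s hu (abs_of_pos hs0)) ((s + 1) / (2 * s))
        ⟨by positivity, (div_le_one (by positivity)).mpr (by linarith)⟩
      have h2 : o + (-s) • (q - o) + ((s + 1) / (2 * s)) • (o + s • (q - o) - (o + (-s) • (q - o)))
          = q := by
        have h3 : o + s • (q - o) - (o + (-s) • (q - o)) = (2 * s) • (q - o) := by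
          module
        rw [h3, smul_smul, div_mul_cancel₀ _ (by positivity)]
        module
      rw [h2] at h1
      have hq0 : F q = 0 := hq
      linarith
    · exact hgt
  have hcg : ContinuousOn (fun s : ℝ => F (o + s • d)) (Icc 0 (R / ‖d‖)) := by fun_prop
  obtain ⟨t, ht, ht0⟩ := intermediate_value_Icc hT.le hcg
    (show (0 : ℝ) ∈ Icc _ _ from ⟨by simpa using ho.le, hpos.le⟩)
  refine ⟨t, ?_, ht0⟩
  rcases ht.1.lt_or_eq with h1 | h1
  · exact h1
  · exfalso
    rw [← h1] at ht0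
    simp at ht0
    linarith

end Pool.Agent.Bor
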