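import Pool.Agent.P.MP_26ecb7_gt.Cone
import Pool.Agent.P.MP_26ecb7_gt.Chart

noncomputable section
open Set Filter Topology MeasureTheory Metric
open scoped RealInnerProductSpace ContDiff ENNReal

namespace Pool.Agent.Bor

namespace Surf
variable (X : Surf)

theorem mu_emb : MeasurableEmbedding (fun q : X.S => X.nu q) := by
  have : CompactSpace X.S := isCompact_iff_compactSpace.1 X.cpt
  have hc : Continuous (fun q : X.S => X.nu q) :=
    continuousOn_iff_continuous_domRestrict.1
      fun q hq => (X.nu_smooth q hq).continuousAt.continuousWithinAt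
  exact (hc.isClosedEmbedding fun q q' h => Subtype.ext (X.inj q.2 q'.2 h)).measurableEmbedding

theorem mu_app0 {A : Set E} (hA : MeasurableSet A) : X.mu A = sig (X.nu '' (X.S ∩ A)) := by
  rw [Surf.mu, Measure.map_apply measurable_subtype_coe hA, X.mu_emb.comap_apply]
  congr 1
  ext y
  constructor
  · rintro ⟨q, hq, rfl⟩
    exact ⟨q, ⟨q.2, hq⟩, rfl⟩
  · rintro ⟨q, hq, rfl⟩
    exact ⟨⟨q, hq.1⟩, hq.2, rfl⟩

instance : IsFiniteMeasure X.mu :=
  ⟨by rw [X.mu_app0 MeasurableSet.univ]; exact measure_lt_top _ _⟩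
theorem mu_apply {A : Set E} (hA : MeasurableSet A) : X.mu A = sig (X.nu '' (X.S ∩ A)) :=
  X.mu_app0 hA
theorem mu_univ : X.mu univ = sig univ := by
  have h : X.nu '' X.S = sphere (0 : E) 1 := by
    refine Subset.antisymm ?_ X.surj
    rintro _ ⟨q, hq, rfl⟩
    exact mem_sphere_zero_iff_norm.2 (X.nu_unit q hq)
  rw [X.mu_apply MeasurableSet.univ, inter_univ, h]
  exact measure_congr (ae_eq_univ.2 sig_compl_sphere)
theorem mu_compl : X.mu X.Sᶜ = 0 := by
  rw [X.mu_apply X.cpt.isClosed.measurableSet.compl, inter_compl_self, image_empty, measure_empty]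
theorem measurableSet_image_psi (R : Rot) {A : Set P} (hA : MeasurableSet A) :
    MeasurableSet (X.psi R '' A) :=
  hA.image_of_continuousOn_injOn (X.sm_psi R).continuous.continuousOn (X.psi_inj R).injOn
theorem mu_image (R : Rot) {A : Set P} (hA : MeasurableSet A) :
    X.mu (X.psi R '' A) = ∫⁻ x in A, ENNReal.ofReal (X.ka R x) := by
  have h1 : X.S ∩ X.psi R '' A = X.psi R '' A :=
    inter_eq_right.2 (by rintro _ ⟨x, -, rfl⟩; exact X.psi_mem R x)
  have h2 : X.nu '' (X.psi R '' A) = un (X.psi R) '' A := by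
    rw [image_image]
    exact image_congr fun x _ => (X.un_psi R x).symm
  have h3 : InjOn (un (X.psi R)) A := fun x _ y _ h => by
    rw [X.un_psi, X.un_psi] at h
    exact X.psi_inj R (X.inj (X.psi_mem R x) (X.psi_mem R y) h)
  rw [X.mu_apply (X.measurableSet_image_psi R hA), h1, h2,
    sig_image ((X.imm_psi R).sm_un.differentiable (by simp)) (X.imm_psi R).norm_un hA h3]
  refine lintegral_congr fun x => ?_
  rw [show kap (un (X.psi R)) x = X.ka R x from rfl, abs_of_pos (X.ka_pos R x)]
theorem mu_pos {q : E} (hq : q ∈ X.S) {U : Set E} (hU : U ∈ 𝓝 q) : X.mu U ≠ 0 := by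
  obtain ⟨R, rfl⟩ := X.exists_chart hq
  obtain ⟨V, hV, hVo, hV0⟩ :=
    _root_.mem_nhds_iff.1 ((X.sm_psi R).continuous.continuousAt.preimage_mem_nhds hU)
  have h1 : 0 < X.mu (X.psi R '' V) := by
    rw [X.mu_image R hVo.measurableSet,
      setLIntegral_pos_iff (X.continuous_ka R).measurable.ennreal_ofReal]
    have h2 : Function.support (fun x => ENNReal.ofReal (X.ka R x)) = univ :=
      eq_univ_of_forall fun x => (ENNReal.ofReal_pos.2 (X.ka_pos R x)).ne'
    rw [h2, univ_inter]
    exact hVo.measure_pos _ ⟨0, hV0⟩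
  exact (h1.trans_le (measure_mono (image_subset_iff.2 hV))).ne'

theorem mu_ae : ∀ᵐ q ∂X.mu, q ∈ X.S := mem_ae_iff.2 X.mu_compl

theorem mu_restrict (R : Rot) : X.mu.restrict (range (X.psi R)) =
    (volume.withDensity fun x => ENNReal.ofReal (X.ka R x)).map (X.psi R) := by
  have hm : Measurable (X.psi R) := (X.sm_psi R).continuous.measurable
  ext B hB
  rw [Measure.restrict_apply hB, ← image_preimage_eq_inter_range, X.mu_image R (hm hB),
    Measure.map_apply hm hB, withDensity_apply _ (hm hB)]

/-- integration of a function that lives in one chart -/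
theorem integral_mu (R : Rot) {f : E → ℝ} (hf : ContinuousOn f X.S)
    (h0 : ∀ q ∈ X.S, q ∉ range (X.psi R) → f q = 0) :
    ∫ q, f q ∂X.mu = ∫ x, f (X.psi R x) * X.ka R x := by
  have he : MeasurableEmbedding (X.psi R) :=
    (X.sm_psi R).continuous.measurableEmbedding (X.psi_inj R)
  rw [← setIntegral_eq_integral_of_ae_compl_eq_zero (s := range (X.psi R))
    (X.mu_ae.mono fun q hq => h0 q hq), X.mu_restrict R, he.integral_map,
    integral_withDensity_eq_integral_toReal_smul (X.continuous_ka R).measurable.ennreal_ofReal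
      (Eventually.of_forall fun _ => ENNReal.ofReal_lt_top)]
  refine integral_congr_ae (Eventually.of_forall fun x => ?_)
  show (ENNReal.ofReal (X.ka R x)).toReal • f (X.psi R x) = _
  rw [ENNReal.toReal_ofReal (X.ka_pos R x).le, smul_eq_mul, mul_comm]
theorem integrable_mu {f : E → ℝ} (hf : ContinuousOn f X.S) : Integrable f X.mu := by
  have h : IntegrableOn f X.S X.mu := hf.integrableOn_compact X.cpt
  rwa [IntegrableOn, Measure.restrict_eq_self_of_ae_mem X.mu_ae] at h

end Surf

end Pool.Agent.Bor
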