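import Pool.Agent.P.MP_26ecb7_gt.IsoB
import Pool.Agent.P.MP_26ecb7_gt.Mu

noncomputable section
open Set Filter Topology MeasureTheory Metric
open scoped RealInnerProductSpace ContDiff ENNReal

namespace Pool.Agent.Bor

/-- local lower bounds globalise -/
theorem loc_glob {m s : Measure E} {O : Set E} {k : ℝ≥0∞}
    (h : ∀ y ∈ O, ∃ δ > 0, ∀ B, MeasurableSet B → B ⊆ ball y δ → k * s B ≤ m B) :
    ∃ G : Set E, IsOpen G ∧ O ⊆ G ∧ ∀ B, MeasurableSet B → B ⊆ G → k * s B ≤ m B := by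
  choose! δ hδ h using h
  refine ⟨⋃ y : O, ball y.1 (δ y), isOpen_iUnion fun _ => isOpen_ball,
    fun y hy => mem_iUnion.2 ⟨⟨y, hy⟩, mem_ball_self (hδ y hy)⟩, fun B hB hBG => ?_⟩
  obtain ⟨T, hT, hTG⟩ := TopologicalSpace.isOpen_iUnion_countable
    (fun y : O => ball y.1 (δ y)) fun _ => isOpen_ball
  rw [← hTG] at hBG
  rcases T.eq_empty_or_nonempty with rfl | hne
  · have : B = ∅ := by simpa using hBG
    simp [this]
  obtain ⟨f, rfl⟩ := hT.exists_eq_range hne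
  rw [biUnion_range, ← iUnion_disjointed] at hBG
  have hm : ∀ n, MeasurableSet (B ∩ disjointed (fun n => ball (f n).1 (δ (f n))) n) := fun n =>
    hB.inter (MeasurableSet.disjointed (fun _ => measurableSet_ball) n)
  have hd : Pairwise (Function.onFun Disjoint
      fun n => B ∩ disjointed (fun n => ball (f n).1 (δ (f n))) n) := fun i j hij =>
    (disjoint_disjointed _ hij).mono inter_subset_right inter_subset_right
  rw [← inter_eq_left.2 hBG, inter_iUnion, measure_iUnion hd hm, measure_iUnion hd hm,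
    ← ENNReal.tsum_mul_left]
  exact ENNReal.tsum_le_tsum fun n => h _ (f n).2 _ (hm n)
    (inter_subset_right.trans (disjointed_subset _ n))

theorem count_single (y : E) : sig {y} = 0 := by
  have h1 : nrm ⁻¹' {y} ⊆ (Submodule.span ℝ {y} : Submodule ℝ E) := by
    intro z hz
    have hz' : ‖z‖⁻¹ • z = y := hz
    refine Submodule.mem_span_singleton.2 ⟨‖z‖, ?_⟩
    by_cases h0 : z = 0
    · simp [h0]
    · rw [← hz', smul_smul, mul_inv_cancel₀ (norm_ne_zero_iff.2 h0), one_smul]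
  have h2 : (Submodule.span ℝ {y} : Submodule ℝ E) ≠ ⊤ := by
    intro h
    have := finrank_span_le_card (R := ℝ) ({y} : Set E)
    rw [h] at this
    simp at this
  rw [sig, Measure.smul_apply, Measure.map_apply measurable_nrm (measurableSet_singleton y),
    measure_mono_null h1 (nonpos_iff_eq_zero.1 ((Measure.restrict_apply_le _ _).trans
      (Measure.addHaar_submodule _ _ h2).le)), smul_zero]

theorem count_max {X : Surf} (I : Iso X) (y : E) :
    ∃ q ∈ X.S, ∀ q' ∈ X.S, ⟪y, I.v q'⟫ ≤ ⟪y, I.v q⟫ :=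
  X.cpt.exists_isMaxOn X.conn.nonempty (f := fun q => ⟪y, I.v q⟫) fun q hq =>
    (continuousAt_const.inner (I.c1 q hq).continuousAt).continuousWithinAt

/-- the symmetric form of the local bound -/
theorem count_sym {X : Surf} {I : Iso X} (h : LP I) : ∃ Z : Set E, MeasurableSet Z ∧ sig Z = 0 ∧
    ∀ y ∉ Z, ∀ q ∈ X.S, I.N q = y ∨ I.N q = -y → ∀ U ∈ 𝓝 q, ∀ᶠ δ in 𝓝[>] (0 : ℝ),
      ∀ B : Set E, MeasurableSet B → B ⊆ ball y δ →
        sig B ≤ X.mu (U ∩ (I.N ⁻¹' B ∪ (fun q => -I.N q) ⁻¹' B)) := by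
  obtain ⟨Z, hZ, hZ0, h⟩ := h
  refine ⟨Z ∪ (fun y => -y) ⁻¹' Z, hZ.union (measurable_neg hZ),
    measure_union_null hZ0 ((sig_neg hZ).trans hZ0), fun y hy q hq hN U hU => ?_⟩
  rcases hN with hN | hN
  · obtain ⟨δ, hδ, h⟩ := h q hq (fun hz => hy (Or.inl (hN ▸ hz))) U hU
    filter_upwards [Ioo_mem_nhdsGT hδ] with ε hε B hB hBy
    exact (h B hB (hN ▸ hBy.trans (ball_subset_ball hε.2.le))).trans
      (measure_mono (inter_subset_inter_right _ subset_union_left))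
  · obtain ⟨δ, hδ, h⟩ := h q hq (fun hz => hy (Or.inr (show -y ∈ Z from hN ▸ hz))) U hU
    filter_upwards [Ioo_mem_nhdsGT hδ] with ε hε B hB hBy
    rw [← sig_neg hB]
    refine (h _ (measurable_neg hB) fun z hz => ?_).trans
      (measure_mono (inter_subset_inter_right _ subset_union_right))
    have := hBy hz
    rw [mem_ball, dist_neg] at this
    rw [hN]
    exact this.trans hε.2

theorem count_fin {X : Surf} (I : Iso X) {y : E} (T : Finset E)
    (h : ∀ q ∈ T, ∀ U ∈ 𝓝 q, ∀ᶠ δ in 𝓝[>] (0 : ℝ), ∀ B : Set E, MeasurableSet B → B ⊆ ball y δ →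
      sig B ≤ X.mu (U ∩ (I.N ⁻¹' B ∪ (fun q => -I.N q) ⁻¹' B))) :
    ∃ δ > 0, ∀ B, MeasurableSet B → B ⊆ ball y δ →
      T.card * sig B ≤ (X.mu.map I.N + X.mu.map fun q => -I.N q) B := by
  obtain ⟨U, hU, hd⟩ := T.finite_toSet.t2_separation
  obtain ⟨δ, h1, hδ⟩ := (((eventually_all_finset T).2 fun q hq =>
    h q hq (U q) ((hU q).2.mem_nhds (hU q).1)).and self_mem_nhdsWithin).exists
  refine ⟨δ, hδ, fun B hB hBy => ?_⟩
  have hW : MeasurableSet (I.N ⁻¹' B ∪ (fun q => -I.N q) ⁻¹' B) :=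
    (I.measurable_N hB).union (I.measurable_N.neg hB)
  rw [Measure.add_apply, Measure.map_apply I.measurable_N hB,
    Measure.map_apply I.measurable_N.fun_neg hB, ← nsmul_eq_mul]
  refine (Finset.card_nsmul_le_sum T _ _ fun q hq => h1 q hq B hB hBy).trans ?_
  rw [← measure_biUnion_finset (fun a ha b hb hab =>
    (hd ha hb hab).mono inter_subset_left inter_subset_left)
    fun q _ => (hU q).2.measurableSet.inter hW]
  exact (measure_mono (iUnion₂_subset fun _ _ => inter_subset_right)).trans (measure_union_le _ _)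

theorem count_excess {m : Measure E} {G : Set E} (hG : MeasurableSet G) (h0 : sig Gᶜ = 0)
    (h : ∀ B, MeasurableSet B → B ⊆ G → 2 * sig B ≤ m B) (hm : m univ = 2 * sig univ) {A : Set E}
    (hA : MeasurableSet A) : m A ≤ 2 * sig A := by
  have h1 : sig Aᶜ = sig (Aᶜ ∩ G) := (measure_inter_conull h0).symm
  have h2 : 2 * sig Aᶜ ≤ m Aᶜ :=
    h1 ▸ (h _ (hA.compl.inter hG) inter_subset_right).trans (measure_mono inter_subset_left)
  have h3 : m A + 2 * sig Aᶜ ≤ 2 * sig A + 2 * sig Aᶜ := by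
    rw [← mul_add, measure_add_measure_compl hA, ← hm, ← measure_add_measure_compl hA]
    gcongr
  exact (ENNReal.add_le_add_iff_right (ENNReal.mul_ne_top (by simp) (measure_ne_top _ _))).1 h3

/-- every tangent plane is a supporting plane -/
theorem LP.support {X : Surf} {I : Iso X} (h : LP I) :
    (∀ q ∈ X.S, (∀ q' ∈ X.S, ⟪I.N q, I.v q' - I.v q⟫ ≤ 0) ∨ (∀ q' ∈ X.S, 0 ≤ ⟪I.N q, I.v q' - I.v q⟫))
      ∧ ∀ y : E, y ≠ 0 → ∃ q ∈ X.S, ∃ q' ∈ X.S, ⟪y, I.v q⟫ ≠ ⟪y, I.v q'⟫ := by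
  obtain ⟨Z, hZ, hZ0, h⟩ := count_sym h
  have hO : sig (sphere (0 : E) 1 \ Z)ᶜ = 0 := by
    rw [sdiff_eq, compl_inter, compl_compl]
    exact measure_union_null sig_compl_sphere hZ0
  have two : ∀ y : E, y ≠ 0 → ∃ q ∈ X.S, ∃ q' ∈ X.S, ⟪y, I.v q⟫ ≠ ⟪y, I.v q'⟫ := by
    intro y hy
    by_contra! hc
    have h1 := I.not_flat y hy hc
    obtain ⟨u, hu, huZ⟩ : (sphere (0 : E) 1 \ Z).Nonempty := by
      by_contra hn
      rw [not_nonempty_iff_eq_empty.1 hn, compl_empty] at hO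
      exact sig_pos isOpen_univ (mem_univ (ee 0)) (by simp [ee]) hO
    rw [mem_sphere_zero_iff_norm] at hu
    obtain ⟨q, hq, hm⟩ := count_max I u
    obtain ⟨δ, h2, hδ⟩ :=
      ((h u huZ q hq (I.N_of_max hu hq hm) univ univ_mem).and self_mem_nhdsWithin).exists
    have h3 : sig ({nrm y} ∪ {-nrm y}) = 0 := measure_union_null (count_single _) (count_single _)
    have h4 := h2 (ball u δ \ ({nrm y} ∪ {-nrm y})) (measurableSet_ball.diff
      ((measurableSet_singleton _).union (measurableSet_singleton _))) sdiff_subset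
    rw [measure_sdiff_null h3] at h4
    refine sig_pos isOpen_ball (mem_ball_self hδ) hu (nonpos_iff_eq_zero.1 (h4.trans ?_))
    refine (measure_mono fun z hz hzS => ?_).trans X.mu_compl.le
    rcases hz.2 with k | k <;> rcases h1 z hzS with e | e
    · exact k.2 (Or.inl e)
    · exact k.2 (Or.inr e)
    · exact k.2 (Or.inr (neg_eq_iff_eq_neg.2 (e.trans (neg_neg _).symm)))
    · exact k.2 (Or.inl (neg_eq_iff_eq_neg.2 e))
  refine ⟨?_, two⟩
  have ext : ∀ y : E, ‖y‖ = 1 → ∃ q₁ ∈ X.S, ∃ q₂ ∈ X.S, q₁ ≠ q₂ ∧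
      (∀ q' ∈ X.S, ⟪y, I.v q'⟫ ≤ ⟪y, I.v q₁⟫) ∧ (∀ q' ∈ X.S, ⟪y, I.v q₂⟫ ≤ ⟪y, I.v q'⟫) ∧
      (I.N q₁ = y ∨ I.N q₁ = -y) ∧ (I.N q₂ = y ∨ I.N q₂ = -y) := by
    intro y hy
    obtain ⟨q₁, h1, m1⟩ := count_max I y
    obtain ⟨q₂, h2, m2⟩ := count_max I (-y)
    have n2 := I.N_of_max (by rwa [norm_neg]) h2 m2
    simp only [inner_neg_left, neg_le_neg_iff, neg_neg] at m2 n2
    refine ⟨q₁, h1, q₂, h2, ?_, m1, m2, I.N_of_max hy h1 m1, n2.symm⟩
    rintro rfl
    obtain ⟨a, ha, b, hb, hab⟩ := two y (by rintro rfl; simp at hy)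
    exact hab (((m1 a ha).antisymm (m2 a ha)).trans ((m1 b hb).antisymm (m2 b hb)).symm)
  classical
  obtain ⟨G, hG, hOG, hG2⟩ := loc_glob (m := X.mu.map I.N + X.mu.map fun q => -I.N q) (s := sig)
    (O := sphere (0 : E) 1 \ Z) (k := 2) (fun y hy => by
      obtain ⟨q₁, h1, q₂, h2, hne, -, -, n1, n2⟩ := ext y (mem_sphere_zero_iff_norm.1 hy.1)
      have := count_fin I (y := y) {q₁, q₂} (by
        simp only [Finset.mem_insert, Finset.mem_singleton, forall_eq_or_imp, forall_eq]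
        exact ⟨h y hy.2 q₁ h1 n1, h y hy.2 q₂ h2 n2⟩)
      rwa [Finset.card_pair hne] at this)
  have up : ∀ A, MeasurableSet A → (X.mu.map I.N + X.mu.map fun q => -I.N q) A ≤ 2 * sig A :=
    fun A hA => count_excess hG.measurableSet (measure_mono_null (compl_subset_compl.2 hOG) hO) hG2
      (by rw [Measure.add_apply, Measure.map_apply I.measurable_N .univ,
        Measure.map_apply I.measurable_N.fun_neg .univ, preimage_univ, preimage_univ, X.mu_univ,
        two_mul]) hA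
  have good : ∀ q ∈ X.S, I.N q ∉ Z → (∀ q' ∈ X.S, ⟪I.N q, I.v q' - I.v q⟫ ≤ 0) ∨
      ∀ q' ∈ X.S, 0 ≤ ⟪I.N q, I.v q' - I.v q⟫ := by
    intro q hq hqZ
    have hn := I.norm_N (X.ne_o hq)
    obtain ⟨q₁, h1, q₂, h2, hne, m1, m2, n1, n2⟩ := ext _ hn
    simp only [inner_sub_right, sub_nonpos, sub_nonneg]
    by_cases e1 : q = q₁
    · exact Or.inl (e1 ▸ m1)
    by_cases e2 : q = q₂
    · exact Or.inr (e2 ▸ m2)
    exfalso
    obtain ⟨δ, hδ, h3⟩ := count_fin I (y := I.N q) {q, q₁, q₂} (by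
      simp only [Finset.mem_insert, Finset.mem_singleton, forall_eq_or_imp, forall_eq]
      exact ⟨h _ hqZ q hq (Or.inl rfl), h _ hqZ q₁ h1 n1, h _ hqZ q₂ h2 n2⟩)
    rw [Finset.card_eq_three.2 ⟨q, q₁, q₂, e1, e2, hne, rfl⟩] at h3
    have h4 := (h3 _ measurableSet_ball Subset.rfl).trans (up _ measurableSet_ball)
    have h5 := (ENNReal.mul_le_mul_iff_left (sig_pos isOpen_ball (mem_ball_self hδ) hn)
      (measure_ne_top _ _)).1 h4
    norm_num at h5
  have hnull : X.mu (X.Sᶜ ∪ I.N ⁻¹' Z) = 0 := by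
    refine measure_union_null X.mu_compl ?_
    have := up Z hZ
    rw [hZ0, mul_zero, Measure.add_apply, Measure.map_apply I.measurable_N hZ] at this
    exact nonpos_iff_eq_zero.1 (le_self_add.trans this)
  intro q hq
  by_contra! hc
  obtain ⟨⟨a, ha, ha'⟩, b, hb, hb'⟩ := hc
  have hcont : ∀ c, ContinuousAt (fun z => ⟪I.N z, I.v c - I.v z⟫) q := fun c =>
    (I.continuousAt_N (X.ne_o hq)).inner (continuousAt_const.sub (I.c1 q hq).continuousAt)
  refine X.mu_pos hq (((hcont a).eventually (lt_mem_nhds ha')).and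
    ((hcont b).eventually (gt_mem_nhds hb'))) (measure_mono_null (fun z hz => ?_) hnull)
  by_contra hz'
  rw [mem_union, not_or, notMem_compl_iff] at hz'
  rcases good z hz'.1 hz'.2 with k | k
  · exact (k a ha).not_gt hz.1
  · exact (k b hb).not_gt hz.2

end Pool.Agent.Bor
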