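import Pool.Agent.P.MP_26ecb7_gt.Count

noncomputable section
open Set Filter Topology MeasureTheory Metric
open scoped RealInnerProductSpace ContDiff ENNReal

namespace Pool.Agent.Bor

/-- a set that lies in no plane has a point strictly inside all its supporting half spaces -/
theorem count2_centre {A : Set E} (h : ∀ y : E, y ≠ 0 → ∃ a ∈ A, ∃ b ∈ A, ⟪y, a⟫ ≠ ⟪y, b⟫) :
    ∃ c : E, ∀ y p : E, ‖y‖ = 1 → (∀ a ∈ A, ⟪y, a - p⟫ ≤ 0) → ⟪y, c - p⟫ < 0 := by
  have hne : A.Nonempty := by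
    obtain ⟨a, ha, -⟩ := h (ee 0) (by simp [ee])
    exact ⟨a, ha⟩
  have h1 : vectorSpan ℝ A = ⊤ := by
    rw [← Submodule.orthogonal_eq_bot_iff, Submodule.eq_bot_iff]
    intro y hy
    by_contra h0
    obtain ⟨a, ha, b, hb, hab⟩ := h y h0
    have h2 := Submodule.inner_left_of_mem_orthogonal (vsub_mem_vectorSpan ℝ ha hb) hy
    rw [vsub_eq_sub, inner_sub_right] at h2
    exact hab (sub_eq_zero.1 h2)
  obtain ⟨c, hc⟩ := interior_convexHull_nonempty_iff_affineSpan_eq_top.2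
    ((AffineSubspace.affineSpan_eq_top_iff_vectorSpan_eq_top_of_nonempty ℝ E E hne).2 h1)
  refine ⟨c, fun y p hy hA => ?_⟩
  have h2 : convexHull ℝ A ⊆ {z | ⟪y, z⟫ ≤ ⟪y, p⟫} :=
    convexHull_min (fun a ha => by
        have := hA a ha
        rw [inner_sub_right] at this
        exact sub_nonpos.1 this)
      (convex_halfSpace_le (innerₛₗ ℝ y).isLinear _)
  obtain ⟨ε, hε, h3⟩ := Metric.mem_nhds_iff.1 (mem_interior_iff_mem_nhds.1 hc)
  have h4 : c + (ε / 2) • y ∈ ball c ε := by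
    rw [mem_ball, dist_eq_norm, add_sub_cancel_left, norm_smul, hy, mul_one,
      Real.norm_of_nonneg (by positivity)]
    linarith
  have h5 : ⟪y, c + (ε / 2) • y⟫ ≤ ⟪y, p⟫ := h2 (h3 h4)
  rw [inner_add_right, real_inner_smul_right, real_inner_self_eq_norm_sq, hy] at h5
  rw [inner_sub_right]
  linarith

theorem count2_cont {X : Surf} (I : Iso X) : ContinuousOn I.v X.S :=
  fun q hq => (I.c1 q hq).continuousAt.continuousWithinAt

theorem count2_push {X : Surf} {J : Iso X} (h : LP J)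
    (hs : ∀ q ∈ X.S, ∀ q' ∈ X.S, ⟪J.N q, J.v q' - J.v q⟫ ≤ 0) {B : Set E} (hB : MeasurableSet B) :
    X.mu (J.N ⁻¹' B) = sig B := by
  have h2 := h.support.2
  obtain ⟨Z, -, hZ, hL⟩ := h
  have h1 : ∀ y ∈ sphere (0 : E) 1 \ Z, ∃ δ > 0, ∀ B, MeasurableSet B → B ⊆ ball y δ →
      1 * sig B ≤ X.mu.map J.N B := by
    intro y hy
    have hy1 : ‖y‖ = 1 := mem_sphere_zero_iff_norm.1 hy.1
    obtain ⟨q, hq, hm⟩ := X.cpt.exists_isMaxOn X.conn.nonempty
      (f := fun q => ⟪y, J.v q⟫) (ContinuousOn.inner (𝕜 := ℝ) continuousOn_const (count2_cont J))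
    have hN : J.N q = y := by
      refine (J.N_of_max hy1 hq fun q' hq' => hm hq').resolve_right fun e => ?_
      obtain ⟨a, ha, b, hb, hab⟩ := h2 y (norm_ne_zero_iff.1 (by rw [hy1]; exact one_ne_zero))
      have h3 : ∀ a ∈ X.S, ⟪y, J.v a⟫ = ⟪y, J.v q⟫ := fun a ha => by
        have h4 := hs q hq a ha
        rw [e, inner_neg_left, inner_sub_right] at h4
        exact le_antisymm (hm ha) (by linarith)
      exact hab ((h3 a ha).trans (h3 b hb).symm)
    obtain ⟨δ, hδ, h3⟩ := hL q hq (hN ▸ hy.2) univ univ_mem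
    refine ⟨δ, hδ, fun B hB hBy => ?_⟩
    rw [one_mul, Measure.map_apply J.measurable_N hB, ← univ_inter (J.N ⁻¹' B)]
    exact h3 B hB (hN ▸ hBy)
  obtain ⟨G, hG, hOG, h3⟩ := loc_glob h1
  have h4 : sig Gᶜ = 0 := by
    refine measure_mono_null (fun y hy => ?_) (measure_union_null sig_compl_sphere hZ)
    by_contra h5
    rw [mem_union, not_or, notMem_compl_iff] at h5
    exact hy (hOG h5)
  have h5 : sig ≤ X.mu.map J.N := Measure.le_iff.2 fun B hB => by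
    rw [← measure_inter_conull h4]
    have h6 := h3 (B ∩ G) (hB.inter hG.measurableSet) inter_subset_right
    rw [one_mul] at h6
    exact h6.trans (measure_mono inter_subset_left)
  have h6 : sig = X.mu.map J.N := Measure.eq_of_le_of_measure_univ_eq h5 (by
    rw [Measure.map_apply J.measurable_N MeasurableSet.univ, preimage_univ, X.mu_univ])
  rw [h6, Measure.map_apply J.measurable_N hB]

theorem LP.cvx {X : Surf} {I : Iso X} (h : LP I) : ∃ (J : Iso X) (s : ℝ) (c : E),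
    (s = 1 ∨ s = -1) ∧ (∀ z, J.v z = s • (I.v z - c)) ∧ Cvx J := by
  obtain ⟨h1, h2⟩ := h.support
  obtain ⟨c, hc⟩ := count2_centre (A := I.v '' X.S) fun y hy => by
    obtain ⟨q, hq, q', hq', e⟩ := h2 y hy
    exact ⟨_, mem_image_of_mem _ hq, _, mem_image_of_mem _ hq', e⟩
  have hN : ∀ q ∈ X.S, ‖I.N q‖ = 1 := fun q hq => I.norm_N (X.ne_o hq)
  have h3 : ∀ q ∈ X.S, (∀ q' ∈ X.S, ⟪I.N q, I.v q' - I.v q⟫ ≤ 0) → 0 < ⟪I.N q, I.v q - c⟫ := by
    intro q hq hs
    have h4 := hc (I.N q) (I.v q) (hN q hq) (by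
      rintro _ ⟨q', hq', rfl⟩
      exact hs q' hq')
    rw [inner_sub_right] at h4 ⊢
    linarith
  have h4 : ∀ q ∈ X.S, (∀ q' ∈ X.S, 0 ≤ ⟪I.N q, I.v q' - I.v q⟫) → ⟪I.N q, I.v q - c⟫ < 0 := by
    intro q hq hs
    have h5 := hc (-I.N q) (I.v q) (by rw [norm_neg, hN q hq]) (by
      rintro _ ⟨q', hq', rfl⟩
      rw [inner_neg_left]
      exact neg_nonpos.2 (hs q' hq'))
    rw [inner_neg_left, inner_sub_right] at h5
    rw [inner_sub_right]
    linarith
  have hcont : ContinuousOn (fun q => ⟪I.N q, I.v q - c⟫) X.S :=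
    ContinuousOn.inner (𝕜 := ℝ) (fun q hq => (I.continuousAt_N (X.ne_o hq)).continuousWithinAt)
      ((count2_cont I).sub continuousOn_const)
  have h5 : ∃ s : ℝ, (s = 1 ∨ s = -1) ∧ ∀ q ∈ X.S,
      (∀ q' ∈ X.S, s * ⟪I.N q, I.v q' - I.v q⟫ ≤ 0) ∧ 0 < s * ⟪I.N q, I.v q - c⟫ := by
    rcases X.conn.isPreconnected.mapsTo_Ioi_or_Iio (b := 0) hcont (fun q hq =>
      (h1 q hq).elim (fun e => (h3 q hq e).ne') fun e => (h4 q hq e).ne) with h6 | h6
    · refine ⟨1, Or.inl rfl, fun q hq => ⟨fun q' hq' => ?_, by rw [one_mul]; exact h6 hq⟩⟩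
      rw [one_mul]
      exact ((h1 q hq).resolve_right fun e => lt_asymm (h4 q hq e) (h6 hq)) q' hq'
    · refine ⟨-1, Or.inr rfl, fun q hq => ⟨fun q' hq' => ?_,
        by rw [neg_one_mul]; exact neg_pos.2 (h6 hq)⟩⟩
      rw [neg_one_mul]
      exact neg_nonpos.2 (((h1 q hq).resolve_left fun e => lt_asymm (h3 q hq e) (h6 hq)) q' hq')
  obtain ⟨s, hs, h6⟩ := h5
  obtain ⟨J, hJ, hJN⟩ := I.exists_shift s hs c
  have h7 : ∀ q ∈ X.S, ∀ q' ∈ X.S, ⟪J.N q, J.v q' - J.v q⟫ ≤ 0 := fun q hq q' hq' => by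
    rw [hJN, hJ, hJ, ← smul_sub, sub_sub_sub_cancel_right, real_inner_smul_right]
    exact (h6 q hq).1 q' hq'
  have hL : LP J := by
    unfold LP at h ⊢
    rw [hJN]
    exact h
  refine ⟨J, s, c, hs, hJ, h7, fun q hq => ?_, fun B hB => count2_push hL h7 hB⟩
  rw [hJN, hJ, real_inner_smul_right]
  exact (h6 q hq).2

end Pool.Agent.Bor
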