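import Mathlib

/-! Definitions for the removable singular set theorem for Hoelder isometric immersions. -/

noncomputable section
open Set Filter Topology MeasureTheory Metric
open scoped RealInnerProductSpace ContDiff ENNReal

namespace Pool.Agent.Bor

abbrev E := EuclideanSpace ℝ (Fin 3)
abbrev P := ℝ × ℝ

/-- standard basis of space -/
def ee (k : Fin 3) : E := EuclideanSpace.single k 1
/-- cross product -/
def cr (a b : E) : E := !₂[a 1 * b 2 - a 2 * b 1, a 2 * b 0 - a 0 * b 2, a 0 * b 1 - a 1 * b 0]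
/-- cofactor action, `cof L (cr a b) = cr (L a) (L b)` -/
def cof (L : E →L[ℝ] E) (c : E) : E :=
  c 0 • cr (L (ee 1)) (L (ee 2)) + c 1 • cr (L (ee 2)) (L (ee 0)) + c 2 • cr (L (ee 0)) (L (ee 1))
def nrm (y : E) : E := ‖y‖⁻¹ • y

/-- rotations -/
structure Rot where
  R : E ≃ₗᵢ[ℝ] E
  cr_eq : ∀ a b, cr (R a) (R b) = R (cr a b)

def lift (R : Rot) (x : P) : E := R.R !₂[x.1, x.2, 1]
/-- gnomonic coordinates -/
def gn (R : Rot) (y : E) : P :=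
  (⟪y, R.R (ee 0)⟫ / ⟪y, R.R (ee 2)⟫, ⟪y, R.R (ee 1)⟫ / ⟪y, R.R (ee 2)⟫)
def lam (y : P) : ℝ := ((1 + y.1 ^ 2 + y.2 ^ 2) * √(1 + y.1 ^ 2 + y.2 ^ 2))⁻¹

/-- coordinate vectors of the plane and coordinate derivatives -/
def e2 (i : Fin 2) : P := ![((1 : ℝ), (0 : ℝ)), ((0 : ℝ), (1 : ℝ))] i
def pd {Y : Type} [NormedAddCommGroup Y] [NormedSpace ℝ Y] (i : Fin 2) (f : P → Y) (x : P) : Y :=
  fderiv ℝ f x (e2 i)

def jac (f g : P → ℝ) (x : P) : ℝ := pd 0 f x * pd 1 g x - pd 1 f x * pd 0 g x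
def jp (p : P → P) (x : P) : ℝ := jac (fun y => (p y).1) (fun y => (p y).2) x
def JJ (X Y : P → E) (x : P) : ℝ := ⟪pd 0 X x, pd 1 Y x⟫ - ⟪pd 1 X x, pd 0 Y x⟫
def kap (N : P → E) (x : P) : ℝ := ⟪N x, cr (pd 0 N x) (pd 1 N x)⟫

/-- first fundamental form, normal, area density, unit normal, second form, Christoffel symbols -/
def gm (w : P → E) (i j : Fin 2) (x : P) : ℝ := ⟪pd i w x, pd j w x⟫
def nv (w : P → E) (x : P) : E := cr (pd 0 w x) (pd 1 w x)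
def sq (w : P → E) (x : P) : ℝ := ‖nv w x‖
def un (w : P → E) (x : P) : E := nrm (nv w x)
def sf (w : P → E) (i j : Fin 2) (x : P) : ℝ := ⟪pd i (un w) x, pd j w x⟫
def ch (w : P → E) (i j k : Fin 2) (x : P) : ℝ := ⟪pd i (pd j w) x, pd k w x⟫
/-- connection form -/
def om (w : P → E) (i : Fin 2) (x : P) : ℝ :=
  (gm w 0 0 x * ch w i 0 1 x - gm w 0 1 x * ch w i 0 0 x) / (gm w 0 0 x * sq w x)
/-- inverse metric -/
def gi (w : P → E) (i j : Fin 2) (x : P) : ℝ :=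
  (if i = j then gm w (1 - i) (1 - i) x else - gm w 0 1 x) / sq w x ^ 2
def Imm (w : P → E) : Prop := ContDiff ℝ ∞ w ∧ ∀ x, nv w x ≠ 0

/-- twice the mixed determinant of two 2 x 2 arrays, determinant, quadratic form -/
def mx (T B : Fin 2 → Fin 2 → ℝ) : ℝ := T 0 0 * B 1 1 + T 1 1 * B 0 0 - T 0 1 * B 1 0 - T 1 0 * B 0 1
def dt (B : Fin 2 → Fin 2 → ℝ) : ℝ := B 0 0 * B 1 1 - B 0 1 * B 1 0
def qf (B : Fin 2 → Fin 2 → ℝ) (a b : ℝ) : ℝ :=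
  B 0 0 * a ^ 2 + (B 0 1 + B 1 0) * a * b + B 1 1 * b ^ 2
def ab (B : Fin 2 → Fin 2 → ℝ) : ℝ := |B 0 0| + |B 0 1| + |B 1 0| + |B 1 1|
/-- the array of values at a point -/
def at2 (B : Fin 2 → Fin 2 → P → ℝ) (x : P) : Fin 2 → Fin 2 → ℝ := fun i j => B i j x

/-- closed square with lower left corner `c` and side `r` -/
def sqr (c : P) (r : ℝ) : Set P := Icc c (c.1 + r, c.2 + r)
/-- counterclockwise integral of `a dx + b dy` over the boundary of the square -/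
def loop (c : P) (r : ℝ) (a b : P → ℝ) : ℝ :=
  (∫ s in c.1..c.1 + r, a (s, c.2)) + (∫ t in c.2..c.2 + r, b (c.1 + r, t))
    - (∫ s in c.1..c.1 + r, a (s, c.2 + r)) - ∫ t in c.2..c.2 + r, b (c.1, t)
/-- integral of `f dg` over the boundary of the square -/
def lp (c : P) (r : ℝ) (f g : P → ℝ) : ℝ :=
  loop c r (fun x => f x * pd 0 g x) (fun x => f x * pd 1 g x)

/-- constant in the Young inequality -/
def yc (a : ℝ) : ℝ := 1 / ((2 : ℝ) ^ (2 * a) - 2)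

/-- scale condition at a good point, for a sequence of maps on a set `T` -/
def GoodS {Z Y : Type} [PseudoMetricSpace Z] [PseudoMetricSpace Y] (f : ℕ → Z → Y) (T : Set Z)
    (x : Z) : Prop :=
  ∃ a M0 : ℝ, 1 / 2 < a ∧ a ≤ 1 ∧ ∀ η > 0, ∃ r0 > 0, ∀ r, 0 < r → r < r0 →
    ∃ O M : ℝ, 0 ≤ O ∧ O ≤ η ∧ 0 ≤ M ∧ M ≤ M0 ∧ O * M ^ 2 * r ^ (2 * a) ≤ η * r ^ 2 ∧
      ∀ᶠ n in atTop, ∀ y ∈ T ∩ ball x r, ∀ z ∈ T ∩ ball x r,
        dist (f n y) (f n z) ≤ O ∧ dist (f n y) (f n z) ≤ M * dist y z ^ a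

/-- a smooth strictly convex closed surface with unit normal and radial projection -/
structure Surf where
  S : Set E
  o : E
  nu : E → E
  pr : E → E
  cpt : IsCompact S
  conn : IsConnected S
  o_not : o ∉ S
  nu_smooth : ∀ q ∈ S, ContDiffAt ℝ ∞ nu q
  nu_unit : ∀ q ∈ S, ‖nu q‖ = 1
  pr_smooth : ∀ z, z ≠ o → ContDiffAt ℝ ∞ pr z
  pr_mem : ∀ z, z ≠ o → pr z ∈ S
  pr_ray : ∀ z, z ≠ o → ∃ t : ℝ, 0 < t ∧ pr z = o + t • (z - o)
  pr_fix : ∀ q ∈ S, ∀ t : ℝ, 0 < t → pr (o + t • (q - o)) = q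
  tang : ∀ z, z ≠ o → ∀ a, ⟪nu (pr z), fderiv ℝ pr z a⟫ = 0
  pos : ∀ q ∈ S, 0 < ⟪nu q, q - o⟫
  curv : ∀ q ∈ S, ∀ a, ⟪nu q, a⟫ = 0 → a ≠ 0 → 0 < ⟪fderiv ℝ nu q a, a⟫
  inj : InjOn nu S
  surj : sphere (0 : E) 1 ⊆ nu '' S

/-- chart attached to a rotation -/
def Surf.psi (X : Surf) (R : Rot) (x : P) : E := X.pr (X.o + lift R x)
/-- curvature density in the chart -/
def Surf.ka (X : Surf) (R : Rot) (x : P) : ℝ := kap (un (X.psi R)) x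
/-- smooth near the surface -/
def Surf.Sm (X : Surf) (f : E → E) : Prop := ∀ q ∈ X.S, ContDiffAt ℝ ∞ f q

/-- finite partition of unity subordinate to charts -/
structure Pou (X : Surf) where
  k : ℕ
  R : Fin k → Rot
  chi : Fin k → E → ℝ
  rho : ℝ
  smooth : ∀ a, ContDiff ℝ ∞ (chi a)
  nonneg : ∀ a q, 0 ≤ chi a q
  sum_eq : ∀ q ∈ X.S, ∑ a, chi a q = 1
  supp : ∀ a, ∀ q ∈ X.S, chi a q ≠ 0 → ∃ x ∈ closedBall (0 : P) rho, q = X.psi (R a) x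

/-- global integral of a family of chart densities -/
def Pou.II {X : Surf} (U : Pou X) (f : Fin U.k → P → ℝ) : ℝ :=
  ∑ a, ∫ x, U.chi a (X.psi (U.R a) x) * f a x

/-- area measure of the unit sphere -/
def sig : Measure E := (3 : ℝ≥0∞) • (volume.restrict (ball (0 : E) 1)).map nrm
/-- curvature measure of the surface -/
def Surf.mu (X : Surf) : Measure E :=
  (sig.comap (fun q : X.S => X.nu q)).map Subtype.val

/-- a Hoelder isometric immersion -/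
structure Iso (X : Surf) where
  v : E → E
  al : ℝ
  C : ℝ
  al_gt : 1 / 2 < al
  al_le : al ≤ 1
  C_nonneg : 0 ≤ C
  c1 : ∀ q ∈ X.S, ContDiffAt ℝ 1 v q
  hol : ∀ q ∈ X.S, ∀ q' ∈ X.S, ‖fderiv ℝ v q - fderiv ℝ v q'‖ ≤ C * ‖q - q'‖ ^ al
  iso : ∀ q ∈ X.S, ∀ a, ⟪X.nu q, a⟫ = 0 → ‖fderiv ℝ v q a‖ = ‖a‖

def Iso.V {X : Surf} (I : Iso X) (z : E) : E := I.v (X.pr z)
/-- Gauss map of the immersion -/
def Iso.N {X : Surf} (I : Iso X) (z : E) : E := cof (fderiv ℝ I.v (X.pr z)) (X.nu (X.pr z))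
def Iso.w {X : Surf} (I : Iso X) (R : Rot) (x : P) : E := I.v (X.psi R x)
def Iso.n {X : Surf} (I : Iso X) (R : Rot) (x : P) : E := I.N (X.psi R x)

/-- spatial Christoffel expression -/
def chr (W : E → E) (z a b c : E) : ℝ := ⟪fderiv ℝ (fderiv ℝ W) z a b, fderiv ℝ W z c⟫
/-- unit normal of a smooth approximation -/
def Surf.NW (X : Surf) (W : E → E) (q : E) : E := nrm (cof (fderiv ℝ W q) (X.nu q))

/-- smooth approximations on a neighbourhood of the surface -/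
structure Appr {X : Surf} (I : Iso X) where
  W : ℕ → E → E
  tau : ℝ
  H : ℝ
  tau_pos : 0 < tau
  tau_le : tau ≤ 1 / 2
  o_not : X.o ∉ cthickening tau X.S
  H_nonneg : 0 ≤ H
  smooth : ∀ n, ContDiff ℝ ∞ (W n)
  c0 : TendstoUniformlyOn W I.V atTop (thickening tau X.S)
  c1 : TendstoUniformlyOn (fun n => fderiv ℝ (W n)) (fderiv ℝ I.V) atTop (thickening tau X.S)
  c2 : ∀ θ > 0, ∀ᶠ n in atTop, ∀ z ∈ thickening tau X.S, ∀ a b c,
    |chr (W n) z a b c - chr X.pr z a b c| ≤ θ * ‖a‖ * ‖b‖ * ‖c‖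
  hol : ∀ n, ∀ y ∈ thickening tau X.S, ∀ z ∈ thickening tau X.S,
    ‖fderiv ℝ (W n) y - fderiv ℝ (W n) z‖ ≤ H * ‖y - z‖ ^ I.al
  half : ∀ n, ∀ q ∈ X.S, 1 / 2 ≤ ‖cof (fderiv ℝ (W n) q) (X.nu q)‖
  good : ∀ q ∈ X.S, GoodS (fun _ => fderiv ℝ I.v) X.S q → GoodS (fun n => fderiv ℝ (W n)) univ q
  pt : ∀ q ∈ X.S, ∀ L, HasFDerivAt (fderiv ℝ I.V) L q →
    Tendsto (fun n => fderiv ℝ (fderiv ℝ (W n)) q) atTop (𝓝 L)
  sec : ∀ δ > 0, ∀ᶠ n in atTop, ∀ q ∈ X.S, ∀ b Y : E, ∀ k : ℝ, ‖b‖ < tau →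
    (∀ z ∈ ball q δ, ⟪Y, I.V (z + b) + I.V (z - b) - (2 : ℝ) • I.V z⟫ ≤ k) →
    ⟪Y, W n (q + b) + W n (q - b) - (2 : ℝ) • W n q⟫ ≤ k

def Appr.w {X : Surf} {I : Iso X} (A : Appr I) (R : Rot) (n : ℕ) (x : P) : E := A.W n (X.psi R x)

/-- local lower bound for the push forward of the curvature measure under the Gauss map -/
def LP {X : Surf} (I : Iso X) : Prop :=
  ∃ Z : Set E, MeasurableSet Z ∧ sig Z = 0 ∧ ∀ q ∈ X.S, I.N q ∉ Z → ∀ U ∈ 𝓝 q, ∃ δ > 0,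
    ∀ B : Set E, MeasurableSet B → B ⊆ ball (I.N q) δ → sig B ≤ X.mu (U ∩ I.N ⁻¹' B)

/-- convex position with outer normal -/
structure Cvx {X : Surf} (I : Iso X) : Prop where
  supp : ∀ q ∈ X.S, ∀ q' ∈ X.S, ⟪I.N q, I.v q' - I.v q⟫ ≤ 0
  pos : ∀ q ∈ X.S, 0 < ⟪I.N q, I.v q⟫
  push : ∀ B : Set E, MeasurableSet B → X.mu (I.N ⁻¹' B) = sig B

/-- angular kernel -/
def kk (δ s : ℝ) : ℝ := Real.smoothTransition (2 * (s / δ ^ 2) - 1) / (2 * Real.pi * s)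
def th (δ : ℝ) (y : P) : ℝ :=
  2 * deriv Real.smoothTransition (2 * ((y.1 ^ 2 + y.2 ^ 2) / δ ^ 2) - 1) / (Real.pi * δ ^ 2)

/-- mollifier with a fixed kernel supported in the unit ball -/
def bump : ContDiffBump (0 : E) := ⟨1 / 2, 1, by norm_num, by norm_num⟩
def eta : E → ℝ := bump.normed volume
def mol {Y : Type} [NormedAddCommGroup Y] [NormedSpace ℝ Y] (ε : ℝ) (H : E → Y) (x : E) : Y :=
  ∫ u, eta u • H (x - ε • u)

end Pool.Agent.Bor
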