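import Pool.Agent.P.MP_26ecb7_gt.Defs

noncomputable section
open Set Filter Topology MeasureTheory Metric
open scoped RealInnerProductSpace ContDiff ENNReal

namespace Pool.Agent.Bor

theorem kern_smooth : ContDiff ℝ 1 Real.smoothTransition := Real.smoothTransition.contDiff

theorem kern_zero {t : ℝ} (ht : 1 ≤ t) : deriv Real.smoothTransition t = 0 := by
  refine IsLocalMax.deriv_eq_zero (Eventually.of_forall fun s => ?_)
  rw [Real.smoothTransition.one_of_one_le ht]
  exact Real.smoothTransition.le_one s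

theorem th_nonneg {δ : ℝ} (hδ : 0 < δ) (y : P) : 0 ≤ th δ y :=
  div_nonneg (mul_nonneg zero_le_two Real.smoothTransition.monotone.deriv_nonneg)
    (mul_nonneg Real.pi_pos.le (pow_pos hδ 2).le)

theorem continuous_th (δ : ℝ) : Continuous (th δ) := by
  have h : Continuous (deriv Real.smoothTransition) := kern_smooth.continuous_deriv le_rfl
  unfold th
  fun_prop

theorem th_eq_zero {δ : ℝ} (hδ : 0 < δ) {y : P} (hy : δ ≤ ‖y‖) : th δ y = 0 := by
  have h1 : δ ^ 2 ≤ y.1 ^ 2 + y.2 ^ 2 := by
    rw [Prod.norm_def, le_max_iff, Real.norm_eq_abs, Real.norm_eq_abs] at hy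
    rcases hy with h | h
    · have := pow_le_pow_left₀ hδ.le h 2
      rw [sq_abs] at this
      linarith [sq_nonneg y.2]
    · have := pow_le_pow_left₀ hδ.le h 2
      rw [sq_abs] at this
      linarith [sq_nonneg y.1]
  have h2 : 1 ≤ (y.1 ^ 2 + y.2 ^ 2) / δ ^ 2 := (one_le_div (pow_pos hδ 2)).2 h1
  unfold th
  rw [kern_zero (by linarith), mul_zero, zero_div]

theorem kern_rad {δ : ℝ} (hδ : 0 < δ) : ∫ r in Ioi (0 : ℝ),
    r * (2 * deriv Real.smoothTransition (2 * (r ^ 2 / δ ^ 2) - 1) / (Real.pi * δ ^ 2)) =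
      1 / (2 * Real.pi) := by
  have hp := Real.pi_pos
  have hd : ∀ r ∈ Ici (0 : ℝ), HasDerivAt
      (fun r : ℝ => Real.smoothTransition (2 * (r ^ 2 / δ ^ 2) - 1) / (2 * Real.pi))
      (r * (2 * deriv Real.smoothTransition (2 * (r ^ 2 / δ ^ 2) - 1) / (Real.pi * δ ^ 2))) r := by
    intro r _
    have h1 : HasDerivAt (fun r : ℝ => 2 * (r ^ 2 / δ ^ 2) - 1) (2 * (2 * r / δ ^ 2)) r := by
      have h0 : HasDerivAt (fun r : ℝ => r ^ 2) (2 * r) r := by
        simpa using hasDerivAt_pow 2 r
      exact ((h0.div_const (δ ^ 2)).const_mul 2).sub_const 1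
    have h2 := ((kern_smooth.differentiable one_ne_zero
      (2 * (r ^ 2 / δ ^ 2) - 1)).hasDerivAt.comp r h1).div_const (2 * Real.pi)
    have e : r * (2 * deriv Real.smoothTransition (2 * (r ^ 2 / δ ^ 2) - 1) / (Real.pi * δ ^ 2)) =
        deriv Real.smoothTransition (2 * (r ^ 2 / δ ^ 2) - 1) * (2 * (2 * r / δ ^ 2)) /
          (2 * Real.pi) := by
      field_simp
    rw [e]
    exact h2
  have hl : Tendsto (fun r : ℝ => Real.smoothTransition (2 * (r ^ 2 / δ ^ 2) - 1) / (2 * Real.pi))
      atTop (𝓝 (1 / (2 * Real.pi))) := by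
    refine tendsto_const_nhds.congr' ?_
    filter_upwards [eventually_ge_atTop δ] with r hr
    have h2 : 1 ≤ r ^ 2 / δ ^ 2 := (one_le_div (pow_pos hδ 2)).2 (pow_le_pow_left₀ hδ.le hr 2)
    rw [Real.smoothTransition.one_of_one_le (by linarith)]
  rw [integral_Ioi_of_hasDerivAt_of_nonneg' hd (fun r hr => mul_nonneg (le_of_lt hr)
    (div_nonneg (mul_nonneg zero_le_two Real.smoothTransition.monotone.deriv_nonneg)
      (mul_nonneg hp.le (pow_pos hδ 2).le))) hl,
    Real.smoothTransition.zero_of_nonpos (by norm_num), zero_div, sub_zero]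

theorem integral_th {δ : ℝ} (hδ : 0 < δ) : ∫ y, th δ y = 1 := by
  have hp := Real.pi_pos
  rw [← integral_comp_polarCoord_symm, polarCoord_target]
  have e : ∀ p : ℝ × ℝ, p.1 • th δ (polarCoord.symm p) = (p.1 *
      (2 * deriv Real.smoothTransition (2 * (p.1 ^ 2 / δ ^ 2) - 1) / (Real.pi * δ ^ 2))) *
        (1 : ℝ) := by
    intro p
    have h : (p.1 * Real.cos p.2) ^ 2 + (p.1 * Real.sin p.2) ^ 2 = p.1 ^ 2 := by
      rw [mul_pow, mul_pow, ← mul_add, Real.cos_sq_add_sin_sq, mul_one]
    simp only [th, polarCoord_symm_apply, h, smul_eq_mul, mul_one]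
  simp only [e]
  rw [Measure.volume_eq_prod, setIntegral_prod_mul (fun r : ℝ => r *
      (2 * deriv Real.smoothTransition (2 * (r ^ 2 / δ ^ 2) - 1) / (Real.pi * δ ^ 2)))
      (fun _ : ℝ => (1 : ℝ)), kern_rad hδ, setIntegral_const, Real.volume_real_Ioo_of_le (by linarith),
    smul_eq_mul]
  field_simp
  ring

theorem kern_int {δ : ℝ} (hδ : 0 < δ) (μ : Measure P) [IsFiniteMeasureOnCompacts μ] (z : P) :
    Integrable (fun y => th δ (y - z)) μ := by
  refine Continuous.integrable_of_hasCompactSupport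
    ((continuous_th δ).comp (continuous_id.sub continuous_const)) ?_
  refine HasCompactSupport.intro (isCompact_closedBall z δ) fun y hy => th_eq_zero hδ ?_
  rw [mem_closedBall, dist_eq_norm, not_le] at hy
  exact hy.le

theorem kern_one {δ : ℝ} (hδ : 0 < δ) (y : P) : ∫⁻ z, ENNReal.ofReal (th δ (y - z)) = 1 := by
  rw [lintegral_sub_left_eq_self (fun z => ENNReal.ofReal (th δ z)) y,
    ← ofReal_integral_eq_lintegral_ofReal (by simpa using kern_int hδ volume 0)
      (Eventually.of_forall (th_nonneg hδ)), integral_th hδ, ENNReal.ofReal_one]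

theorem kern_swap {ν : Measure P} [IsFiniteMeasure ν] {δ m : ℝ} (hδ : 0 < δ) {K : Set P}
    (hK : MeasurableSet K) (h : ∀ z ∈ K, ∫ y, th δ (y - z) ∂ν = m) :
    ENNReal.ofReal m * volume K = ∫⁻ y, (∫⁻ z in K, ENNReal.ofReal (th δ (y - z))) ∂ν := by
  have hm : Measurable (Function.uncurry fun z y : P => ENNReal.ofReal (th δ (y - z))) :=
    ENNReal.measurable_ofReal.comp
      ((continuous_th δ).comp (continuous_snd.sub continuous_fst)).measurable
  rw [← lintegral_lintegral_swap hm.aemeasurable, ← setLIntegral_const]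
  refine setLIntegral_congr_fun hK fun z hz => ?_
  rw [← ofReal_integral_eq_lintegral_ofReal (kern_int hδ ν z)
    (Eventually.of_forall fun y => th_nonneg hδ _), h z hz]

theorem kern_up {ν : Measure P} [IsFiniteMeasure ν] {δ m : ℝ} (hδ : 0 < δ) {K : Set P}
    (hK : MeasurableSet K) (h : ∀ z ∈ K, ∫ y, th δ (y - z) ∂ν = m) :
    ENNReal.ofReal m * volume K ≤ ν (cthickening δ K) := by
  rw [kern_swap hδ hK h, ← lintegral_indicator_one isClosed_cthickening.measurableSet]
  refine lintegral_mono fun y => ?_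
  by_cases hy : y ∈ cthickening δ K
  · rw [indicator_of_mem hy, Pi.one_apply, ← kern_one hδ y]
    exact setLIntegral_le_lintegral K _
  · rw [indicator_of_notMem hy]
    refine le_of_eq ((setLIntegral_congr_fun hK fun z hz => ?_).trans (lintegral_zero))
    have h1 : δ ≤ ‖y - z‖ := by
      by_contra h2
      exact hy (mem_cthickening_of_dist_le y z δ K hz (by rw [dist_eq_norm]; exact (not_le.1 h2).le))
    simp only [th_eq_zero hδ h1, ENNReal.ofReal_zero]

/-- a measure whose regularisations are a constant `m` on a ball dominates `m` times volume there,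
and `m` is positive if the measure charges a small ball -/
theorem le_of_kernel {ν : Measure P} [IsFiniteMeasure ν] {y0 : P} {ρ m : ℝ} (hρ : 0 < ρ)
    (h : ∀ δ, 0 < δ → δ < ρ → ∀ z ∈ ball y0 ρ, ∫ y, th δ (y - z) ∂ν = m) :
    (ν (ball y0 (ρ / 4)) ≠ 0 → 0 < m) ∧
      ∀ B : Set P, MeasurableSet B → B ⊆ ball y0 (ρ / 2) → ENNReal.ofReal m * volume B ≤ ν B := by
  have hsub : ball y0 (ρ / 2) ⊆ ball y0 ρ := ball_subset_ball (by linarith)
  constructor
  · intro h0
    by_contra hm
    have hδ : 0 < ρ / 4 := by linarith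
    have h1 := kern_swap (ν := ν) hδ (measurableSet_ball (x := y0) (ε := ρ / 2))
      fun z hz => h (ρ / 4) hδ (by linarith) z (hsub hz)
    rw [ENNReal.ofReal_of_nonpos (not_lt.1 hm), zero_mul] at h1
    refine h0 (le_antisymm ?_ zero_le)
    rw [h1, ← lintegral_indicator_one measurableSet_ball]
    refine lintegral_mono fun y => ?_
    by_cases hy : y ∈ ball y0 (ρ / 4)
    · rw [indicator_of_mem hy, Pi.one_apply, ← kern_one hδ y]
      refine le_of_eq (setLIntegral_eq_of_support_subset fun z hz => ?_).symm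
      by_contra h2
      have h3 : ρ / 4 ≤ ‖y - z‖ := by
        rw [mem_ball, not_lt] at h2
        have h4 := dist_triangle z y y0
        rw [mem_ball] at hy
        rw [← dist_eq_norm, dist_comm]
        linarith
      exact hz (by simp only [th_eq_zero hδ h3, ENNReal.ofReal_zero])
    · rw [indicator_of_notMem hy]
      exact zero_le
  · intro B hB hBs
    rw [hB.measure_eq_iSup_isCompact volume]
    simp only [ENNReal.mul_iSup]
    refine iSup_le fun K => iSup_le fun hKB => iSup_le fun hK => ?_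
    refine le_trans ?_ (measure_mono hKB)
    refine ge_of_tendsto ((tendsto_measure_cthickening_of_isCompact (μ := ν) hK).mono_left
      (nhdsWithin_le_nhds (s := Ioi 0))) ?_
    filter_upwards [Ioo_mem_nhdsGT hρ] with δ hδ
    exact kern_up hδ.1 hK.measurableSet fun z hz => h δ hδ.1 hδ.2 z (hsub (hBs (hKB hz)))

end Pool.Agent.Bor
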