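import Pool.Agent.P.MP_26ecb7_gt.Wind0

noncomputable section
open Set Filter Topology MeasureTheory Metric
open scoped RealInnerProductSpace ContDiff ENNReal

namespace Pool.Agent.Bor

theorem wind_sq {δ : ℝ} (hδ : 0 < δ) {y z : P} (h : δ ≤ dist y z) :
    δ ^ 2 ≤ (y.1 - z.1) ^ 2 + (y.2 - z.2) ^ 2 := by
  rw [Prod.dist_eq, Real.dist_eq, Real.dist_eq, le_max_iff] at h
  rcases h with h | h
  · have := pow_le_pow_left₀ hδ.le h 2
    rw [sq_abs] at this
    linarith [sq_nonneg (y.2 - z.2)]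
  · have := pow_le_pow_left₀ hδ.le h 2
    rw [sq_abs] at this
    linarith [sq_nonneg (y.1 - z.1)]

theorem wind_kk {δ : ℝ} (hδ : 0 < δ) {y z : P} (h : δ ≤ dist y z) :
    kk δ ((y.1 - z.1) ^ 2 + (y.2 - z.2) ^ 2) =
      1 / (2 * Real.pi * ((y.1 - z.1) ^ 2 + (y.2 - z.2) ^ 2)) := by
  have h1 := (one_le_div (pow_pos hδ 2)).2 (wind_sq hδ h)
  rw [kk, Real.smoothTransition.one_of_one_le (by linarith)]

theorem wind_exp {γ γ' : ℝ → ℂ} (hd : ∀ t, HasDerivAt γ (γ' t) t) (hc : Continuous γ') {a b : ℝ}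
    (hab : a ≤ b) (h0 : ∀ t ∈ Icc a b, γ t ≠ 0) :
    IntervalIntegrable (fun t => γ' t / γ t) volume a b ∧
      Complex.exp (∫ t in a..b, γ' t / γ t) * γ a = γ b := by
  have hγ : Continuous γ := continuous_iff_continuousAt.2 fun t => (hd t).continuousAt
  have hU : IsOpen {t | γ t ≠ 0} := isOpen_ne_fun hγ continuous_const
  have hg : ContinuousOn (fun t => γ' t / γ t) {t | γ t ≠ 0} :=
    hc.continuousOn.div hγ.continuousOn fun _ ht => ht
  have hi : ∀ t ∈ Icc a b, IntervalIntegrable (fun t => γ' t / γ t) volume a t := fun t ht =>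
    (hg.mono fun s hs => h0 s ⟨hs.1, hs.2.trans ht.2⟩).intervalIntegrable_of_Icc ht.1
  have hF : ∀ t ∈ Icc a b, HasDerivAt (fun u => γ u * Complex.exp (-∫ s in a..u, γ' s / γ s)) 0 t :=
    fun t ht => by
      have h1 := intervalIntegral.integral_hasDerivAt_right (hi t ht)
        (hg.stronglyMeasurableAtFilter hU t (h0 t ht)) (hg.continuousAt (hU.mem_nhds (h0 t ht)))
      refine ((hd t).mul h1.neg.cexp).congr_deriv ?_
      have := h0 t ht
      field_simp
      ring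
  have h2 := constant_of_has_deriv_right_zero
    (fun t ht => (hF t ht).continuousAt.continuousWithinAt)
    (fun t ht => (hF t (Ico_subset_Icc_self ht)).hasDerivWithinAt) b (right_mem_Icc.2 hab)
  simp only [intervalIntegral.integral_same, neg_zero, Complex.exp_zero, mul_one] at h2
  refine ⟨hi b (right_mem_Icc.2 hab), ?_⟩
  rw [← h2, mul_left_comm, ← Complex.exp_add, add_neg_cancel, Complex.exp_zero, mul_one]

/-- the complex number attached to a point -/
def windC (z y : P) : ℂ := ⟨y.1 - z.1, y.2 - z.2⟩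

theorem windC_ne {δ : ℝ} (hδ : 0 < δ) {y z : P} (h : δ ≤ dist y z) : windC z y ≠ 0 := fun e => by
  have h1 := wind_sq hδ h
  rw [show y.1 - z.1 = 0 from congrArg Complex.re e,
    show y.2 - z.2 = 0 from congrArg Complex.im e] at h1
  nlinarith [pow_pos hδ 2]

theorem wind_edge {δ : ℝ} (hδ : 0 < δ) {z : P} {p : P → P} (hp : ContDiff ℝ ∞ p) (i : Fin 2)
    {l : ℝ → P} (hl : ∀ t, HasDerivAt l (e2 i) t) {a b : ℝ} (hab : a ≤ b)
    (h : ∀ t ∈ Icc a b, δ ≤ dist (p (l t)) z) :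
    ∃ J : ℂ, Complex.exp J * windC z (p (l a)) = windC z (p (l b)) ∧
      (∫ t in a..b, t1 δ z (p (l t)) * pd i (fun x => (p x).2) (l t)) +
        ∫ t in a..b, t2 δ z (p (l t)) * pd i (fun x => (p x).1) (l t) = J.im / (2 * Real.pi) := by
  have cl : Continuous l := continuous_iff_continuousAt.2 fun t => (hl t).continuousAt
  have c1 : Continuous fun t => pd i (fun x => (p x).1) (l t) :=
    (contDiff_pd hp.fst i).continuous.comp cl
  have c2 : Continuous fun t => pd i (fun x => (p x).2) (l t) :=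
    (contDiff_pd hp.snd i).continuous.comp cl
  have d1 : ∀ t, HasDerivAt (fun t => (p (l t)).1) (pd i (fun x => (p x).1) (l t)) t := fun t =>
    (hp.fst.differentiable (by simp) (l t)).hasFDerivAt.comp_hasDerivAt t (hl t)
  have d2 : ∀ t, HasDerivAt (fun t => (p (l t)).2) (pd i (fun x => (p x).2) (l t)) t := fun t =>
    (hp.snd.differentiable (by simp) (l t)).hasFDerivAt.comp_hasDerivAt t (hl t)
  have hd : ∀ t, HasDerivAt (fun t => windC z (p (l t)))
      ((pd i (fun x => (p x).1) (l t) : ℝ) + (pd i (fun x => (p x).2) (l t) : ℝ) * Complex.I) t :=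
    fun t => by
      simp only [windC, Complex.mk_eq_add_mul_I]
      exact ((d1 t).sub_const z.1).ofReal_comp.add
        (((d2 t).sub_const z.2).ofReal_comp.mul_const Complex.I)
  obtain ⟨hi, he⟩ := wind_exp hd (by fun_prop) hab fun t ht => windC_ne hδ (h t ht)
  refine ⟨_, he, ?_⟩
  have cp : Continuous fun t => p (l t) := hp.continuous.comp cl
  have c3 : Continuous fun t => t1 δ z (p (l t)) * pd i (fun x => (p x).2) (l t) :=
    ((contDiff_t1 hδ z).continuous.comp cp).mul c2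
  have c4 : Continuous fun t => t2 δ z (p (l t)) * pd i (fun x => (p x).1) (l t) :=
    ((contDiff_t2 hδ z).continuous.comp cp).mul c1
  rw [← intervalIntegral.integral_add (c3.intervalIntegrable a b) (c4.intervalIntegrable a b),
    ← Complex.imCLM_apply, ← Complex.imCLM.intervalIntegral_comp_comm hi,
    ← intervalIntegral.integral_div]
  refine intervalIntegral.integral_congr fun t ht => ?_
  rw [uIcc_of_le hab] at ht
  have h1 := (pow_pos hδ 2).trans_le (wind_sq hδ (h t ht))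
  have h2 : Complex.normSq (windC z (p (l t))) =
      ((p (l t)).1 - z.1) ^ 2 + ((p (l t)).2 - z.2) ^ 2 := by
    rw [windC, Complex.normSq_mk]
    ring
  simp only [t1, t2, wind_kk hδ (h t ht), Complex.imCLM_apply, Complex.div_im, h2]
  simp only [windC, Complex.add_im, Complex.add_re, Complex.ofReal_im, Complex.ofReal_re,
    Complex.mul_im, Complex.mul_re, Complex.I_re, Complex.I_im]
  field_simp
  ring

theorem wind_int {δ : ℝ} (hδ : 0 < δ) {z c : P} {r : ℝ} (hr : 0 < r) {p : P → P}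
    (hp : ContDiff ℝ ∞ p) (h : ∀ x ∈ frontier (sqr c r), δ ≤ dist (p x) z) :
    ∃ m : ℤ, wind δ z c r p = m := by
  have l0 : ∀ y t : ℝ, HasDerivAt (fun s : ℝ => ((s, y) : P)) (e2 0) t := fun y t =>
    (hasDerivAt_id t).prodMk (hasDerivAt_const t y)
  have l1 : ∀ y t : ℝ, HasDerivAt (fun s : ℝ => ((y, s) : P)) (e2 1) t := fun y t =>
    (hasDerivAt_const t y).prodMk (hasDerivAt_id t)
  have a1 : c.1 ≤ c.1 + r := by linarith
  have a2 : c.2 ≤ c.2 + r := by linarith
  obtain ⟨J1, e1, f1⟩ := wind_edge hδ hp 0 (l0 c.2) a1 fun t ht =>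
    h _ (edge_mem_frontier (mem_sqr.2 ⟨ht, le_rfl, a2⟩) (by simp))
  obtain ⟨J2, e2', f2⟩ := wind_edge hδ hp 1 (l1 (c.1 + r)) a2 fun t ht =>
    h _ (edge_mem_frontier (mem_sqr.2 ⟨⟨a1, le_rfl⟩, ht⟩) (by simp))
  obtain ⟨J3, e3, f3⟩ := wind_edge hδ hp 0 (l0 (c.2 + r)) a1 fun t ht =>
    h _ (edge_mem_frontier (mem_sqr.2 ⟨ht, a2, le_rfl⟩) (by simp))
  obtain ⟨J4, e4, f4⟩ := wind_edge hδ hp 1 (l1 c.1) a2 fun t ht =>
    h _ (edge_mem_frontier (mem_sqr.2 ⟨⟨le_rfl, a1⟩, ht⟩) (by simp))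
  have h0 : windC z (p (c.1, c.2)) ≠ 0 :=
    windC_ne hδ (h _ (edge_mem_frontier (mem_sqr.2 ⟨⟨le_rfl, a1⟩, le_rfl, a2⟩) (by simp)))
  have h1 : Complex.exp (J1 + J2) = Complex.exp (J3 + J4) := by
    refine mul_right_cancel₀ h0 ?_
    rw [Complex.exp_add, Complex.exp_add, mul_assoc (Complex.exp J3), e4, e3, ← e2', ← e1]
    ring
  obtain ⟨n, hn⟩ := Complex.exp_eq_exp_iff_exists_int.1 h1
  have h2 : J1.im + J2.im = J3.im + J4.im + n * (2 * Real.pi) := by
    simpa using congrArg Complex.im hn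
  have h3 : J1.im / (2 * Real.pi) + J2.im / (2 * Real.pi) - J3.im / (2 * Real.pi) -
      J4.im / (2 * Real.pi) = n := by
    field_simp
    linarith
  refine ⟨n, ?_⟩
  rw [← h3, ← f1, ← f2, ← f3, ← f4]
  simp only [wind, lp, loop]
  ring

theorem wind_indep {δ δ' : ℝ} (hδ : 0 < δ) (hδ' : 0 < δ') {z c : P} {r : ℝ} (hr : 0 < r) {p : P → P}
    (h : ∀ x ∈ frontier (sqr c r), δ ≤ dist (p x) z)
    (h' : ∀ x ∈ frontier (sqr c r), δ' ≤ dist (p x) z) : wind δ z c r p = wind δ' z c r p := by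
  have h1 : ∀ x ∈ frontier (sqr c r), t1 δ z (p x) = t1 δ' z (p x) := fun x hx => by
    rw [t1, t1, wind_kk hδ (h x hx), wind_kk hδ' (h' x hx)]
  have h2 : ∀ x ∈ frontier (sqr c r), t2 δ z (p x) = t2 δ' z (p x) := fun x hx => by
    rw [t2, t2, wind_kk hδ (h x hx), wind_kk hδ' (h' x hx)]
  exact congrArg₂ (· + ·)
    (loop_congr hr.le (fun x hx => congrArg (· * _) (h1 x hx)) fun x hx => congrArg (· * _) (h1 x hx))
    (loop_congr hr.le (fun x hx => congrArg (· * _) (h2 x hx)) fun x hx => congrArg (· * _) (h2 x hx))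

end Pool.Agent.Bor
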