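import Pool.Agent.P.MP_26ecb7_gt.Anom
import Pool.Agent.P.MP_26ecb7_gt.Wind
import Pool.Agent.P.MP_26ecb7_gt.Kern

noncomputable section
open Set Filter Topology MeasureTheory Metric
open scoped RealInnerProductSpace ContDiff ENNReal

namespace Pool.Agent.Bor

theorem dens_pd {T : P → ℝ} (hT : ContDiff ℝ ∞ T) (i : Fin 2) : Continuous (pd i T) :=
  (hT.continuous_fderiv (by simp)).clm_apply continuous_const

theorem dens_tend {p q κ c0 r0 al S} (D : Dat p q κ c0 r0 al S) {δ : ℝ} (hδ : 0 < δ) (z : P) :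
    Tendsto (fun n => wind δ z c0 r0 (p n)) atTop
      (𝓝 (∫ x in sqr c0 r0, κ x / lam (q x) * th δ (q x - z))) := by
  have h1 := D.anom (contDiff_t1 hδ z)
  have h2 := D.anom' (contDiff_t2 hδ z)
  have hi : ∀ {T : P → ℝ}, ContDiff ℝ ∞ T → ∀ i,
      IntegrableOn (fun x => pd i T (q x) / lam (q x) * κ x) (sqr c0 r0) := fun hT i =>
    ContinuousOn.integrableOn_compact (sqr_compact c0 r0)
      ((((dens_pd hT i).comp_continuousOn D.cont).div
        (contDiff_lam.continuous.comp_continuousOn D.cont) fun x _ => (lam_pos _).ne').mul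
        D.kc.continuousOn)
  have h3 := h1.add h2
  rw [← sub_eq_add_neg, ← integral_sub (hi (contDiff_t1 hδ z) 0) (hi (contDiff_t2 hδ z) 1)] at h3
  have e : (fun x => pd 0 (t1 δ z) (q x) / lam (q x) * κ x - pd 1 (t2 δ z) (q x) / lam (q x) * κ x)
      = fun x => κ x / lam (q x) * th δ (q x - z) := by
    funext x
    rw [← div_t hδ z (q x)]
    ring
  rw [e] at h3
  exact h3

theorem dens_bdd {δ : ℝ} (hδ : 0 < δ) : ∃ C, ∀ y, ‖th δ y‖ ≤ C :=
  (continuous_th δ).bounded_above_of_compact_support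
    (HasCompactSupport.intro (isCompact_closedBall (0 : P) δ) fun y hy =>
      th_eq_zero hδ (by rw [mem_closedBall_zero_iff, not_le] at hy; exact hy.le))

theorem dens_cont {ν : Measure P} [IsFiniteMeasure ν] {δ : ℝ} (hδ : 0 < δ) :
    Continuous fun z => ∫ y, th δ (y - z) ∂ν := by
  obtain ⟨C, hC⟩ := dens_bdd hδ
  exact continuous_of_dominated (bound := fun _ => C)
    (fun z => ((continuous_th δ).comp (continuous_id.sub continuous_const)).aestronglyMeasurable)
    (fun z => Eventually.of_forall fun y => hC _) (integrable_const C)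
    (Eventually.of_forall fun y => (continuous_th δ).comp (continuous_const.sub continuous_id))

/-- the push forward of the curvature measure has density at least one near a value -/
theorem Dat.dens {p q κ c0 r0 al S} (D : Dat p q κ c0 r0 al S) (hκ : ∀ x, 0 < κ x) {x0 : P}
    (hx : x0 ∈ interior (sqr c0 r0)) (hy : q x0 ∉ q '' frontier (sqr c0 r0)) :
    ∃ δ > 0, ∀ B : Set P, MeasurableSet B → B ⊆ ball (q x0) δ →
      ∫⁻ y in B, ENNReal.ofReal (lam y) ≤ ∫⁻ x in sqr c0 r0 ∩ q ⁻¹' B, ENNReal.ofReal (κ x) := by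
  set Q := sqr c0 r0 with hQ
  have hc : IsCompact Q := sqr_compact c0 r0
  have hm : MeasurableSet Q := hc.measurableSet
  have hfQ : frontier Q ⊆ Q := hc.isClosed.frontier_subset
  have hcl : IsClosed (q '' frontier Q) :=
    ((hc.of_isClosed_subset isClosed_frontier hfQ).image_of_continuousOn
      (D.cont.mono hfQ)).isClosed
  obtain ⟨ρ0, hρ0, hb⟩ := Metric.isOpen_iff.1 hcl.isOpen_compl _ hy
  have hfar : ∀ x ∈ frontier Q, ρ0 ≤ dist (q x) (q x0) := fun x hx' =>
    not_lt.1 fun h => hb (mem_ball.2 h) ⟨x, hx', rfl⟩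
  set ρ := ρ0 / 4 with hρ
  have hρp : 0 < ρ := by positivity
  -- the measure
  have hq : AEMeasurable q (volume.restrict Q) := D.cont.aemeasurable hm
  have hfc : ContinuousOn (fun x => κ x / lam (q x)) Q :=
    D.kc.continuousOn.div (contDiff_lam.continuous.comp_continuousOn D.cont)
      fun x _ => (lam_pos _).ne'
  have hfp : ∀ x, 0 < κ x / lam (q x) := fun x => div_pos (hκ x) (lam_pos _)
  have hf : AEMeasurable (fun x => ENNReal.ofReal (κ x / lam (q x))) (volume.restrict Q) :=
    (hfc.aemeasurable hm).ennreal_ofReal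
  set μ : Measure P :=
    (volume.restrict Q).withDensity fun x => ENNReal.ofReal (κ x / lam (q x)) with hμ
  have hμf : IsFiniteMeasure μ :=
    isFiniteMeasure_withDensity_ofReal (hfc.integrableOn_compact hc).2
  have hq' : AEMeasurable q μ := hq.mono_ac (withDensity_absolutelyContinuous _ _)
  set ν : Measure P := μ.map q with hν
  have hint : ∀ δ z, ∫ y, th δ (y - z) ∂ν = ∫ x in Q, κ x / lam (q x) * th δ (q x - z) := by
    intro δ z
    have hct : Continuous fun y => th δ (y - z) :=
      (continuous_th δ).comp (continuous_id.sub continuous_const)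
    rw [hν, integral_map hq' hct.aestronglyMeasurable, hμ,
      integral_withDensity_eq_integral_toReal_smul₀ hf
        (Eventually.of_forall fun x => ENNReal.ofReal_lt_top)]
    refine integral_congr_ae (Eventually.of_forall fun x => ?_)
    simp only [ENNReal.toReal_ofReal (hfp x).le, smul_eq_mul]
  have hev : ∀ z ∈ ball (q x0) ρ, ∀ᶠ n in atTop, ∀ x ∈ frontier Q, ρ ≤ dist (p n x) z := by
    intro z hz
    filter_upwards [Metric.tendstoUniformlyOn_iff.1 D.unif ρ hρp] with n hn x hx'
    have a1 := hn x (hfQ hx')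
    have a2 := hfar x hx'
    have a3 := dist_triangle4 (q x) (p n x) z (q x0)
    have a4 := mem_ball.1 hz
    linarith
  have hZ : ∀ δ, 0 < δ → δ ≤ ρ → ∀ z ∈ ball (q x0) ρ,
      ∫ y, th δ (y - z) ∂ν ∈ range ((↑) : ℤ → ℝ) := by
    intro δ hδ hδ' z hz
    rw [hint]
    refine Int.isClosedEmbedding_coe_real.isClosed_range.mem_of_tendsto (dens_tend D hδ z) ?_
    filter_upwards [hev z hz] with n hn
    obtain ⟨m, hm⟩ := wind_int hδ D.r_pos (D.smooth n) fun x hx' => hδ'.trans (hn x hx')
    exact ⟨m, hm.symm⟩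
  have hI : ∀ δ, 0 < δ → δ ≤ ρ → ∀ z ∈ ball (q x0) ρ,
      ∫ y, th δ (y - z) ∂ν = ∫ y, th ρ (y - z) ∂ν := by
    intro δ hδ hδ' z hz
    rw [hint, hint]
    refine tendsto_nhds_unique_of_eventuallyEq (dens_tend D hδ z) (dens_tend D hρp z) ?_
    filter_upwards [hev z hz] with n hn
    exact wind_indep hδ hρp D.r_pos (fun x hx' => hδ'.trans (hn x hx')) hn
  obtain ⟨m, hm0⟩ := hZ ρ hρp le_rfl _ (mem_ball_self hρp)
  have hconst : ∀ δ, 0 < δ → δ < ρ → ∀ z ∈ ball (q x0) ρ, ∫ y, th δ (y - z) ∂ν = m := by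
    intro δ hδ hδ' z hz
    rw [hI δ hδ hδ'.le z hz, hm0]
    exact (convex_ball (q x0) ρ).isPreconnected.constant_of_mapsTo
      Int.isClosedEmbedding_coe_real.isInducing.isDiscrete_range (dens_cont hρp).continuousOn
      (fun z hz => hZ ρ hρp le_rfl z hz) hz (mem_ball_self hρp)
  obtain ⟨k1, k2⟩ := le_of_kernel hρp hconst
  have hpos : (0 : ℝ) < m := by
    refine k1 fun h0 => ?_
    rw [hν, Measure.map_apply_of_aemeasurable hq' measurableSet_ball] at h0
    have h1 := withDensity_absolutelyContinuous' hf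
      (Eventually.of_forall fun x => (ENNReal.ofReal_pos.2 (hfp x)).ne') h0
    rw [Measure.restrict_apply' hm] at h1
    have hQn : Q ∈ 𝓝 x0 := mem_interior_iff_mem_nhds.1 hx
    have h2 : q ⁻¹' ball (q x0) (ρ / 4) ∈ 𝓝 x0 :=
      (D.cont.continuousAt hQn).preimage_mem_nhds (ball_mem_nhds _ (by positivity))
    exact (Measure.measure_pos_of_mem_nhds volume (inter_mem h2 hQn)).ne' h1
  have hone : (1 : ℝ) ≤ m := by
    have : 0 < m := by exact_mod_cast hpos
    exact_mod_cast this
  refine ⟨ρ / 2, by positivity, fun B hB hBs => ?_⟩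
  have hle : volume.restrict B ≤ ν.restrict B := by
    refine Measure.le_iff.2 fun s hs => ?_
    rw [Measure.restrict_apply hs, Measure.restrict_apply hs]
    refine le_trans ?_ (k2 _ (hs.inter hB) (inter_subset_right.trans hBs))
    exact le_mul_of_one_le_left zero_le (ENNReal.one_le_ofReal.2 hone)
  have hl : Measurable fun y => ENNReal.ofReal (lam y) :=
    contDiff_lam.continuous.measurable.ennreal_ofReal
  refine (lintegral_mono' hle le_rfl).trans (le_of_eq ?_)
  have hg : AEMeasurable (fun a => B.indicator (fun y => ENNReal.ofReal (lam y)) (q a))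
      (volume.restrict Q) := (hl.indicator hB).comp_aemeasurable hq
  rw [← lintegral_indicator hB, hν, lintegral_map' (hl.indicator hB).aemeasurable hq', hμ,
    lintegral_withDensity_eq_lintegral_mul₀ hf hg,
    inter_comm, ← Measure.restrict_restrict' hm,
    ← lintegral_indicator₀ (hq.nullMeasurableSet_preimage hB)]
  refine lintegral_congr fun x => ?_
  by_cases h : q x ∈ B
  · rw [indicator_of_mem (show x ∈ q ⁻¹' B from h), Pi.mul_apply,
      indicator_of_mem h, ← ENNReal.ofReal_mul (hfp x).le, div_mul_cancel₀ _ (lam_pos _).ne']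
  · rw [indicator_of_notMem (show x ∉ q ⁻¹' B from h), Pi.mul_apply,
      indicator_of_notMem h, mul_zero]

end Pool.Agent.Bor
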