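import Pool.Agent.P.MP_26ecb7_gt.Green0

noncomputable section
open Set Filter Topology MeasureTheory Metric
open scoped RealInnerProductSpace ContDiff ENNReal

namespace Pool.Agent.Bor

theorem green_aux_cont {Y : Type} [NormedAddCommGroup Y] [NormedSpace ℝ Y] {f : P → Y}
    (hf : ContDiff ℝ 1 f) (i : Fin 2) : Continuous (pd i f) :=
  (hf.continuous_fderiv (by norm_num)).clm_apply continuous_const

theorem green_aux_supp {Y : Type} [NormedAddCommGroup Y] [NormedSpace ℝ Y] {f : P → Y}
    (hc : HasCompactSupport f) (i : Fin 2) : HasCompactSupport (pd i f) :=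
  HasCompactSupport.fderiv_apply ℝ hc (e2 i)

theorem green_aux_parts {f a : P → ℝ} (hf : ContDiff ℝ 1 f) (hc : HasCompactSupport f)
    (ha : ContDiff ℝ 1 a) (i : Fin 2) :
    ∫ x, f x * pd i a x = - ∫ x, pd i f x * a x := by
  refine integral_mul_fderiv_eq_neg_fderiv_mul_of_integrable ?_ ?_ ?_ ?_ ?_
  · exact ((green_aux_cont hf i).mul ha.continuous).integrable_of_hasCompactSupport
      (green_aux_supp hc i).mul_right
  · exact (hf.continuous.mul (green_aux_cont ha i)).integrable_of_hasCompactSupport hc.mul_right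
  · exact (hf.continuous.mul ha.continuous).integrable_of_hasCompactSupport hc.mul_right
  · exact fun x _ => (hf.differentiable (by norm_num)) x
  · exact fun x _ => (ha.differentiable (by norm_num)) x

/-- integration by parts against a compactly supported function -/
theorem by_parts {f a b : P → ℝ} (hf : ContDiff ℝ 1 f) (hc : HasCompactSupport f)
    (ha : ContDiff ℝ 1 a) (hb : ContDiff ℝ 1 b) :
    ∫ x, f x * (pd 1 a x - pd 0 b x) = ∫ x, (pd 0 f x * b x - pd 1 f x * a x) := by
  have h1 : Integrable (fun x => f x * pd 1 a x) :=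
    (hf.continuous.mul (green_aux_cont ha 1)).integrable_of_hasCompactSupport hc.mul_right
  have h2 : Integrable (fun x => f x * pd 0 b x) :=
    (hf.continuous.mul (green_aux_cont hb 0)).integrable_of_hasCompactSupport hc.mul_right
  have h3 : Integrable (fun x => pd 0 f x * b x) :=
    ((green_aux_cont hf 0).mul hb.continuous).integrable_of_hasCompactSupport
      (green_aux_supp hc 0).mul_right
  have h4 : Integrable (fun x => pd 1 f x * a x) :=
    ((green_aux_cont hf 1).mul ha.continuous).integrable_of_hasCompactSupport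
      (green_aux_supp hc 1).mul_right
  simp only [mul_sub]
  rw [integral_sub h1 h2, integral_sub h3 h4, green_aux_parts hf hc ha 1,
    green_aux_parts hf hc hb 0]
  ring

theorem green_aux_zero {f : P → ℝ} (hf : ContDiff ℝ 1 f) (hc : HasCompactSupport f) (i : Fin 2) :
    ∫ x, pd i f x = 0 := by
  have h := green_aux_parts hf hc (contDiff_const (c := (1 : ℝ))) i
  have h0 : ∀ x, pd i (fun _ : P => (1 : ℝ)) x = 0 := fun x => by simp [pd]
  simp only [h0, mul_zero, integral_zero, mul_one] at h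
  linarith

theorem integral_JJ {X Y : P → E} (hX : ContDiff ℝ ∞ X) (hc : HasCompactSupport X)
    (hY : ContDiff ℝ ∞ Y) : ∫ x, JJ X Y x = 0 := by
  have hs : ∀ j : Fin 2, ContDiff ℝ 1 (fun y => ⟪X y, pd j Y y⟫) := fun j =>
    (hX.inner ℝ (contDiff_pd hY j)).of_le (by exact_mod_cast le_top)
  have hcs : ∀ j : Fin 2, HasCompactSupport (fun y => ⟪X y, pd j Y y⟫) := fun j =>
    hc.mono fun y hy h0 => hy (by simp only [h0, inner_zero_left])
  have he : ∀ x, JJ X Y x = pd 0 (fun y => ⟪X y, pd 1 Y y⟫) x - pd 1 (fun y => ⟪X y, pd 0 Y y⟫) x := by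
    intro x
    have hXd : DifferentiableAt ℝ X x := hX.differentiable (by simp) x
    have hYd : ∀ j, DifferentiableAt ℝ (pd j Y) x := fun j =>
      (contDiff_pd hY j).differentiable (by simp) x
    rw [pd_inner hXd (hYd 1), pd_inner hXd (hYd 0), pd_comm hY 0 1 x, JJ]
    ring
  have hi : ∀ i j : Fin 2, Integrable (pd i (fun y => ⟪X y, pd j Y y⟫)) := fun i j =>
    (green_aux_cont (hs j) i).integrable_of_hasCompactSupport (green_aux_supp (hcs j) i)
  simp only [he]
  rw [integral_sub (hi 0 1) (hi 1 0), green_aux_zero (hs 1) (hcs 1), green_aux_zero (hs 0) (hcs 0),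
    sub_zero]

/-- one direction, in abstract form -/
theorem green_aux_dir {Y : Type} [NormedAddCommGroup Y] [NormedSpace ℝ Y] [CompleteSpace Y]
    {F D : ℕ → P → Y} {G : P → Y} {a b r : ℝ} (hr : 0 < r) (hF : ∀ n, Continuous (F n))
    (hD : ∀ n, Continuous (D n))
    (hd : ∀ n s t, HasDerivAt (fun u => F n (s, u)) (D n (s, t)) t)
    (hu : TendstoUniformlyOn F G atTop (Icc a (a + r) ×ˢ Icc b (b + r)))
    (h : Tendsto (fun n => ∫ x in Icc a (a + r) ×ˢ Icc b (b + r), ‖D n x‖) atTop (𝓝 0))
    {s t t' : ℝ} (hs : s ∈ Icc a (a + r)) (ht : t ∈ Icc b (b + r)) (ht' : t' ∈ Icc b (b + r)) :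
    G (s, t) = G (s, t') := by
  have hab : a ≤ a + r := by linarith
  have hbb : b ≤ b + r := by linarith
  have hGc : ContinuousOn G (Icc a (a + r) ×ˢ Icc b (b + r)) :=
    hu.continuousOn (Frequently.of_forall fun n => (hF n).continuousOn)
  have hsl : ∀ τ ∈ Icc b (b + r), TendstoUniformlyOn (fun n σ => F n (σ, τ)) (fun σ => G (σ, τ))
      atTop (Icc a (a + r)) := fun τ hτ =>
    (hu.comp (fun σ : ℝ => (σ, τ))).mono fun σ hσ => ⟨hσ, hτ⟩
  have hφ : TendstoUniformlyOn (fun n σ => ‖F n (σ, t) - F n (σ, t')‖)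
      (fun σ => ‖G (σ, t) - G (σ, t')‖) atTop (Icc a (a + r)) :=
    uniformContinuous_norm.comp_tendstoUniformlyOn ((hsl t ht).sub (hsl t' ht'))
  have hφc : ∀ n, Continuous (fun σ : ℝ => ‖F n (σ, t) - F n (σ, t')‖) := fun n => by
    have := hF n
    fun_prop
  have hGφ : ContinuousOn (fun σ : ℝ => ‖G (σ, t) - G (σ, t')‖) (Icc a (a + r)) :=
    hφ.continuousOn (Frequently.of_forall fun n => (hφc n).continuousOn)
  have hlim : Tendsto (fun n => ∫ σ in a..a + r, ‖F n (σ, t) - F n (σ, t')‖) atTop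
      (𝓝 (∫ σ in a..a + r, ‖G (σ, t) - G (σ, t')‖)) := by
    apply TendstoUniformlyOn.tendsto_intervalIntegral_of_continuousOn
    · exact Eventually.of_forall fun n => (hφc n).continuousOn
    · rwa [uIcc_of_le hab]
  have hle : ∀ n, (∫ σ in a..a + r, ‖F n (σ, t) - F n (σ, t')‖)
      ≤ ∫ x in Icc a (a + r) ×ˢ Icc b (b + r), ‖D n x‖ := by
    intro n
    have hint : IntegrableOn (fun x => ‖D n x‖) (Icc a (a + r) ×ˢ Icc b (b + r))
        ((volume : Measure ℝ).prod (volume : Measure ℝ)) :=
      (hD n).norm.continuousOn.integrableOn_compact (isCompact_Icc.prod isCompact_Icc)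
    have hfub := setIntegral_prod (fun x => ‖D n x‖) hint
    have hint2 : IntegrableOn (fun σ => ∫ τ in Icc b (b + r), ‖D n (σ, τ)‖) (Icc a (a + r)) := by
      have h1 := hint
      rw [IntegrableOn, ← Measure.prod_restrict] at h1
      exact h1.integral_prod_left
    rw [Measure.volume_eq_prod, hfub, intervalIntegral.integral_of_le hab,
      ← integral_Icc_eq_integral_Ioc]
    refine setIntegral_mono_on (hφc n).continuousOn.integrableOn_Icc hint2 measurableSet_Icc
      fun σ _ => ?_
    have hDc : Continuous (fun τ : ℝ => D n (σ, τ)) := by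
      have := hD n
      fun_prop
    have hftc := intervalIntegral.integral_eq_sub_of_hasDerivAt (a := t') (b := t)
      (fun τ _ => hd n σ τ) (hDc.intervalIntegrable _ _)
    rw [← hftc]
    refine (intervalIntegral.norm_integral_le_integral_norm_uIoc).trans ?_
    refine setIntegral_mono_set hDc.norm.continuousOn.integrableOn_Icc
      (Eventually.of_forall fun τ => norm_nonneg _) (LE.le.eventuallyLE ?_)
    exact uIoc_subset_uIcc.trans (uIcc_subset_Icc ht' ht)
  have h0 : (∫ σ in a..a + r, ‖G (σ, t) - G (σ, t')‖) = 0 :=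
    le_antisymm (le_of_tendsto_of_tendsto' hlim h hle)
      (intervalIntegral.integral_nonneg hab fun σ _ => norm_nonneg _)
  rw [intervalIntegral.integral_of_le hab, ← integral_Icc_eq_integral_Ioc,
    setIntegral_eq_zero_iff_of_nonneg_ae (Eventually.of_forall fun σ => norm_nonneg _)
      hGφ.integrableOn_Icc] at h0
  have h1 := Measure.eqOn_Icc_of_ae_eq volume (by linarith : a ≠ a + r) h0 hGφ continuousOn_const hs
  exact sub_eq_zero.1 (norm_eq_zero.1 h1)

theorem green_aux_d1 {Y : Type} [NormedAddCommGroup Y] [NormedSpace ℝ Y] {f : P → Y}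
    (hf : ContDiff ℝ 1 f) (s t : ℝ) : HasDerivAt (fun u => f (s, u)) (pd 1 f (s, t)) t := by
  have h1 : HasDerivAt (fun u : ℝ => ((s, u) : P)) (e2 1) t :=
    (hasDerivAt_const t s).prodMk (hasDerivAt_id t)
  exact ((hf.differentiable (by norm_num)) (s, t)).hasFDerivAt.comp_hasDerivAt t h1

theorem green_aux_d0 {Y : Type} [NormedAddCommGroup Y] [NormedSpace ℝ Y] {f : P → Y}
    (hf : ContDiff ℝ 1 f) (s t : ℝ) : HasDerivAt (fun u => f (u, s)) (pd 0 f (t, s)) t := by
  have h1 : HasDerivAt (fun u : ℝ => ((u, s) : P)) (e2 0) t :=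
    (hasDerivAt_id t).prodMk (hasDerivAt_const t s)
  exact ((hf.differentiable (by norm_num)) (t, s)).hasFDerivAt.comp_hasDerivAt t h1

/-- a uniform limit of functions whose gradients tend to zero in the mean is constant -/
theorem const_of_grad {Y : Type} [NormedAddCommGroup Y] [NormedSpace ℝ Y] [CompleteSpace Y]
    {f : ℕ → P → Y} {g : P → Y} {c : P} {r : ℝ} (hr : 0 < r) (hf : ∀ n, ContDiff ℝ 1 (f n))
    (hu : TendstoUniformlyOn f g atTop (sqr c r))
    (h : ∀ i, Tendsto (fun n => ∫ x in sqr c r, ‖pd i (f n) x‖) atTop (𝓝 0)) :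
    ∀ x ∈ sqr c r, ∀ y ∈ sqr c r, g x = g y := by
  have hsq : sqr c r = Icc c.1 (c.1 + r) ×ˢ Icc c.2 (c.2 + r) := by
    rw [sqr, Icc_prod_eq]
  rw [hsq] at hu h ⊢
  rintro ⟨x1, x2⟩ ⟨hx1, hx2⟩ ⟨y1, y2⟩ ⟨hy1, hy2⟩
  have hA : g (x1, x2) = g (x1, y2) :=
    green_aux_dir hr (fun n => (hf n).continuous) (fun n => green_aux_cont (hf n) 1)
      (fun n s t => green_aux_d1 (hf n) s t) hu (h 1) hx1 hx2 hy2
  have hB : g (x1, y2) = g (y1, y2) := by
    refine green_aux_dir (F := fun n x => f n x.swap) (D := fun n x => pd 0 (f n) x.swap)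
      (G := fun x => g x.swap) (a := c.2) (b := c.1) hr
      (fun n => (hf n).continuous.comp continuous_swap)
      (fun n => (green_aux_cont (hf n) 0).comp continuous_swap)
      (fun n s t => green_aux_d0 (hf n) s t)
      ((hu.comp Prod.swap).mono fun x hx => ⟨hx.2, hx.1⟩) ?_ hy2 hx1 hy1
    refine (h 0).congr fun n => ?_
    rw [Measure.volume_eq_prod]
    exact (setIntegral_prod_swap _ _ (fun x => ‖pd 0 (f n) x‖)).symm
  exact hA.trans hB

end Pool.Agent.Bor
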