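import Pool.Agent.P.MP_26ecb7_gt.IsoB
import Pool.Agent.P.MP_26ecb7_gt.Mu
import Pool.Agent.P.MP_26ecb7_gt.Green

noncomputable section
open Set Filter Topology MeasureTheory Metric
open scoped RealInnerProductSpace ContDiff ENNReal

namespace Pool.Agent.Bor

open scoped Pointwise in
theorem vol_image_le {p : P → P} {x : P} (hp : DifferentiableAt ℝ p x) {η : ℝ} (hη : 0 < η) :
    ∀ᶠ r in 𝓝[>] (0 : ℝ), volume (p '' closedBall x r) ≤
      ENNReal.ofReal (|jp p x| + η) * volume (closedBall x r) := by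
  set A := fderiv ℝ p x with hA
  have HC : IsCompact (A '' closedBall 0 1) := (isCompact_closedBall _ _).image A.continuous
  have L0 : Tendsto (fun ε => volume (cthickening ε (A '' closedBall 0 1))) (𝓝[>] 0)
      (𝓝 (volume (A '' closedBall 0 1))) :=
    (tendsto_measure_cthickening_of_isCompact HC).mono_left nhdsWithin_le_nhds
  have I : volume (A '' closedBall 0 1) <
      ENNReal.ofReal (|jp p x| + η) * volume (closedBall (0 : P) 1) := by
    have hdet : LinearMap.det (A : P →ₗ[ℝ] P) = jp p x := det_fderiv hp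
    rw [Measure.addHaar_image_continuousLinearMap, hdet]
    refine ENNReal.mul_lt_mul_left (measure_closedBall_pos volume _ zero_lt_one).ne'
      measure_closedBall_lt_top.ne ?_
    exact (ENNReal.ofReal_lt_ofReal_iff (by positivity)).2 (by linarith)
  obtain ⟨ε, hε, εpos⟩ := (((tendsto_order.1 L0).2 _ I).and self_mem_nhdsWithin).exists
  have εpos' : (0 : ℝ) < ε := εpos
  have hd := (hasFDerivAt_iff_isLittleO.1 hp.hasFDerivAt).bound εpos'
  obtain ⟨δ, δpos, hδ⟩ := Metric.eventually_nhds_iff.1 hd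
  filter_upwards [Ioo_mem_nhdsGT δpos] with r hr
  have K : p '' closedBall x r ⊆ p x +ᵥ r • cthickening ε (A '' closedBall 0 1) := by
    rintro _ ⟨z, hz, rfl⟩
    have hz' : ‖z - x‖ ≤ r := mem_closedBall_iff_norm.1 hz
    refine ⟨p z - p x, ⟨r⁻¹ • (p z - p x), ?_, smul_inv_smul₀ hr.1.ne' _⟩, by simp⟩
    refine mem_cthickening_of_dist_le _ (A (r⁻¹ • (z - x))) _ _ (mem_image_of_mem _ ?_) ?_
    · rw [mem_closedBall_zero_iff, norm_smul, norm_inv, Real.norm_eq_abs, abs_of_pos hr.1]
      exact inv_mul_le_one_of_le₀ hz' hr.1.le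
    · have h1 := hδ (lt_of_le_of_lt hz hr.2)
      rw [dist_eq_norm, map_smul, ← smul_sub, norm_smul, norm_inv, Real.norm_eq_abs,
        abs_of_pos hr.1, inv_mul_le_iff₀ hr.1]
      calc ‖p z - p x - A (z - x)‖ ≤ ε * ‖z - x‖ := h1
        _ ≤ ε * r := by gcongr
        _ = r * ε := mul_comm _ _
  calc volume (p '' closedBall x r)
      ≤ volume (p x +ᵥ r • cthickening ε (A '' closedBall 0 1)) := measure_mono K
    _ = ENNReal.ofReal |r ^ Module.finrank ℝ P| * volume (cthickening ε (A '' closedBall 0 1)) := by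
      rw [measure_vadd, Measure.addHaar_smul]
    _ ≤ ENNReal.ofReal |r ^ Module.finrank ℝ P| *
        (ENNReal.ofReal (|jp p x| + η) * volume (closedBall (0 : P) 1)) := by
      gcongr
    _ = ENNReal.ofReal (|jp p x| + η) * volume (closedBall x r) := by
      rw [Measure.addHaar_closedBall' volume x hr.1.le, abs_of_pos (pow_pos hr.1 _), mul_left_comm]

theorem det_measurable_gn (R : Rot) : Measurable (gn R) := by
  have h : ∀ k, Measurable fun y : E => ⟪y, R.R (ee k)⟫ := fun k =>
    (continuous_id.inner continuous_const).measurable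
  exact ((h 0).div (h 2)).prodMk ((h 1).div (h 2))

/-- lower bound for the Jacobian of the Gauss map -/
theorem Cvx.ka_le {X : Surf} {I : Iso X} (hI : Cvx I) (R : Rot) {x : P}
    (hx : DifferentiableAt ℝ (I.n R) x) : X.ka R x ≤ |kap (I.n R) x| := by
  obtain ⟨R', hR'⟩ := exists_rot (I.norm_n R x)
  have h1 : ⟪I.n R x, R'.R (ee 2)⟫ = 1 := by
    rw [hR', real_inner_self_eq_norm_sq, I.norm_n, one_pow]
  set p : P → P := fun y => gn R' (I.n R y) with hp
  have hpd : DifferentiableAt ℝ p x :=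
    ((contDiffAt_gn R' (by rw [h1]; exact one_ne_zero)).differentiableAt (by simp)).comp x hx
  have hk : kap (I.n R) x = jp p x := by
    rw [kap_gn R' hx (I.norm_n R x) (by rw [h1]; exact one_pos), ← hR', gn_pole, lam_zero, one_mul]
  rw [hk]
  refine le_of_forall_pos_le_add fun η hη => ?_
  have hη2 : 0 < η / 2 := half_pos hη
  have c1 : ∀ᶠ y in 𝓝 x, X.ka R x - η / 2 < X.ka R y :=
    (X.continuous_ka R).continuousAt.eventually (lt_mem_nhds (by linarith))
  have hc : Continuous fun y => ⟪I.n R y, R'.R (ee 2)⟫ :=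
    (I.continuous_n R).inner continuous_const
  have c2 : ∀ᶠ y in 𝓝 x, 0 < ⟪I.n R y, R'.R (ee 2)⟫ :=
    hc.continuousAt.eventually (lt_mem_nhds (lt_of_lt_of_eq one_pos h1.symm))
  obtain ⟨δ, δpos, hδ⟩ := Metric.eventually_nhds_iff.1 (c1.and c2)
  obtain ⟨r, hv, hr⟩ := ((vol_image_le hpd hη2).and (Ioo_mem_nhdsGT δpos)).exists
  have hB : ∀ y ∈ closedBall x r, X.ka R x - η / 2 < X.ka R y ∧ 0 < ⟪I.n R y, R'.R (ee 2)⟫ :=
    fun y hy => hδ (lt_of_le_of_lt hy hr.2)
  have hpc : ContinuousOn p (closedBall x r) := fun y hy =>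
    (ContinuousAt.comp (f := I.n R) (contDiffAt_gn R' (hB y hy).2.ne').continuousAt
      (I.continuous_n R).continuousAt).continuousWithinAt
  have hm : MeasurableSet (p '' closedBall x r) :=
    ((isCompact_closedBall x r).image_of_continuousOn hpc).measurableSet
  have hG0 : MeasurableSet {y : E | 0 < ⟪y, R'.R (ee 2)⟫} :=
    measurableSet_lt measurable_const (continuous_id.inner continuous_const).measurable
  have hG : MeasurableSet {y : E | 0 < ⟪y, R'.R (ee 2)⟫ ∧ gn R' y ∈ p '' closedBall x r} :=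
    hG0.inter (det_measurable_gn R' hm)
  have key : ENNReal.ofReal (X.ka R x - η / 2) * volume (closedBall x r) ≤
      ENNReal.ofReal (|jp p x| + η / 2) * volume (closedBall x r) :=
    calc ENNReal.ofReal (X.ka R x - η / 2) * volume (closedBall x r)
        = ∫⁻ _ in closedBall x r, ENNReal.ofReal (X.ka R x - η / 2) := by
          rw [setLIntegral_const]
      _ ≤ ∫⁻ y in closedBall x r, ENNReal.ofReal (X.ka R y) :=
          setLIntegral_mono' measurableSet_closedBall fun y hy =>
            ENNReal.ofReal_le_ofReal (hB y hy).1.le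
      _ = X.mu (X.psi R '' closedBall x r) := (X.mu_image R measurableSet_closedBall).symm
      _ ≤ X.mu (I.N ⁻¹' {y : E | 0 < ⟪y, R'.R (ee 2)⟫ ∧ gn R' y ∈ p '' closedBall x r}) := by
          refine measure_mono ?_
          rintro _ ⟨y, hy, rfl⟩
          exact ⟨(hB y hy).2, mem_image_of_mem p hy⟩
      _ = ∫⁻ y in p '' closedBall x r, ENNReal.ofReal (lam y) := by
          rw [hI.push _ hG, sig_gn R' hm]
      _ ≤ ∫⁻ _ in p '' closedBall x r, 1 :=
          lintegral_mono fun y => ENNReal.ofReal_le_one.2 (lam_le_one y)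
      _ = volume (p '' closedBall x r) := by rw [setLIntegral_const, one_mul]
      _ ≤ _ := hv
  have h2 := (ENNReal.mul_le_mul_iff_left (measure_closedBall_pos volume x hr.1).ne'
    measure_closedBall_lt_top.ne).1 key
  have h3 := (ENNReal.ofReal_le_ofReal_iff (by positivity)).1 h2
  linarith

theorem Cvx.dt_le {X : Surf} {I : Iso X} (hI : Cvx I) (R : Rot) {x : P}
    (hx : DifferentiableAt ℝ (I.n R) x) :
    dt (at2 (sf (X.psi R)) x) ≤ |dt (fun i j => ⟪pd i (I.n R) x, pd j (I.w R) x⟫)| := by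
  have hs := (X.imm_psi R).sq_pos x
  have hv : cr (pd 0 (I.w R) x) (pd 1 (I.w R) x) = sq (X.psi R) x • I.n R x := I.nv_w R x
  have hn : ‖cr (pd 0 (I.w R) x) (pd 1 (I.w R) x)‖ = sq (X.psi R) x := by
    rw [hv, norm_smul, I.norm_n, mul_one, Real.norm_eq_abs, abs_of_pos hs]
  have h0 : cr (pd 0 (I.w R) x) (pd 1 (I.w R) x) ≠ 0 := by
    rw [← norm_pos_iff, hn]
    exact hs
  have hN : I.n R x = nrm (cr (pd 0 (I.w R) x) (pd 1 (I.w R) x)) := by
    rw [hv, nrm_smul hs, nrm_unit (I.norm_n R x)]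
  have h := hI.ka_le R hx
  rw [Surf.ka, (X.imm_psi R).kap_eq, kap_eq_of h0 hN, hn, abs_div, abs_of_pos hs,
    div_le_div_iff_of_pos_right hs] at h
  exact h

end Pool.Agent.Bor
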