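import Pool.Agent.P.MP_26ecb7_gt.Defs

noncomputable section
open Set Filter Topology MeasureTheory Metric
open scoped RealInnerProductSpace ContDiff ENNReal

namespace Pool.Agent.Bor

/-- the power two thirds -/
def tw (r : ℝ) : ℝ := r ^ (2 / 3 : ℝ)

/-- Hoelder bound with exponent two thirds on a set -/
def Ho {X : Type} [PseudoMetricSpace X] (u : X → ℝ) (S : Set X) (M : ℝ) : Prop :=
  ∀ x ∈ S, ∀ y ∈ S, |u x - u y| ≤ M * tw (dist x y)

/-- bounded and Hoelder -/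
def Hb {X : Type} [PseudoMetricSpace X] (u : X → ℝ) : Prop :=
  ∃ M, 0 ≤ M ∧ (∀ x, |u x| ≤ M) ∧ Ho u univ M

/-- `I` is a primitive of `f dg` on the interval from `a` to `b` -/
def Prim (f g I : ℝ → ℝ) (a b : ℝ) : Prop :=
  ∃ K, ∀ s t, a ≤ s → s ≤ t → t ≤ b → |I t - I s - f s * (g t - g s)| ≤ K * tw (t - s) ^ 2

def prim (f g : ℝ → ℝ) : ℝ → ℝ := Classical.epsilon fun I => ∀ a b, Prim f g I a b

/-- Young integral of `f dg` -/
def yi (f g : ℝ → ℝ) (a b : ℝ) : ℝ := prim f g b - prim f g a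

/-- Young integral of `f dg` around a square -/
def yl (c : P) (r : ℝ) (f g : P → ℝ) : ℝ :=
  yi (fun s => f (s, c.2)) (fun s => g (s, c.2)) c.1 (c.1 + r)
    + yi (fun t => f (c.1 + r, t)) (fun t => g (c.1 + r, t)) c.2 (c.2 + r)
    - yi (fun s => f (s, c.2 + r)) (fun s => g (s, c.2 + r)) c.1 (c.1 + r)
    - yi (fun t => f (c.1, t)) (fun t => g (c.1, t)) c.2 (c.2 + r)

/-- an edge of a square -/
def Edge (c : P) (r : ℝ) (γ : ℝ → P) (a : ℝ) : Prop :=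
  Isometry γ ∧ ∀ s ∈ Icc a (a + r), γ s ∈ frontier (sqr c r) ∧ γ s ∈ sqr c r

/-- dyadic subsquares of the unit square -/
inductive Dy : P → ℝ → Prop
  | base : Dy 0 1
  | c00 {c r} : Dy c r → Dy c (r / 2)
  | c10 {c r} : Dy c r → Dy (c.1 + r / 2, c.2) (r / 2)
  | c01 {c r} : Dy c r → Dy (c.1, c.2 + r / 2) (r / 2)
  | c11 {c r} : Dy c r → Dy (c.1 + r / 2, c.2 + r / 2) (r / 2)

/-- additivity over the four children -/
def Add4 (R : P → ℝ → ℝ) (c : P) (r : ℝ) : Prop :=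
  R c r = R c (r / 2) + R (c.1 + r / 2, c.2) (r / 2) + R (c.1, c.2 + r / 2) (r / 2)
    + R (c.1 + r / 2, c.2 + r / 2) (r / 2)

/-- a map with zero area and constant anomaly -/
structure Nd (q1 q2 : P → ℝ) (A : ℝ) : Prop where
  h1 : Hb q1
  h2 : Hb q2
  pos : 0 < A
  z0 : ∀ c r, 0 < r → sqr c r ⊆ sqr 0 1 → yl c r q2 q1 = 0
  z1 : ∀ c r, Dy c r → yl c r (fun x => q1 x * q2 x) q1 = -A * r ^ 2
  z2 : ∀ c r, Dy c r → yl c r (fun x => q2 x * q2 x) q1 = 0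

/-- the same with its lift to the Heisenberg group -/
structure Ld (q1 q2 w : P → ℝ) (A C : ℝ) : Prop extends Nd q1 q2 A where
  hw : Hb w
  C_nonneg : 0 ≤ C
  lift : ∀ x ∈ sqr 0 1, ∀ y ∈ sqr 0 1,
    |w y - w x + q2 x * (q1 y - q1 x)| ≤ C * tw (dist x y) ^ 2

/-- a map with constant positive Jacobian and no anomaly -/
structure Jd (a b : P → ℝ) (A : ℝ) : Prop where
  ha : Hb a
  hb : Hb b
  pos : 0 < A
  j0 : ∀ T : P → ℝ, ContDiff ℝ ∞ T → ∀ c r, Dy c r →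
    yl c r (fun x => T (a x, b x)) b = A * ∫ x in sqr c r, pd 0 T (a x, b x)
  j1 : ∀ T : P → ℝ, ContDiff ℝ ∞ T → ∀ c r, Dy c r →
    yl c r (fun x => T (a x, b x)) a = -A * ∫ x in sqr c r, pd 1 T (a x, b x)

end Pool.Agent.Bor
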