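import Pool.Agent.P.MP_26ecb7_gt.EndYl
import Pool.Agent.P.MP_26ecb7_gt.Est

noncomputable section
open Set Filter Topology MeasureTheory Metric
open scoped RealInnerProductSpace ContDiff ENNReal

namespace Pool.Agent.Bor

theorem endac_ftc {T : P → ℝ} (hT : ContDiff ℝ ∞ T) (y y' z : ℝ) :
    T (y, z) - T (y', z) = ∫ s in y'..y, pd 0 T (s, z) := by
  have hc : Continuous fun s : ℝ => pd 0 T (s, z) :=
    (contDiff_pd hT 0).continuous.comp (by fun_prop)
  exact (intervalIntegral.integral_eq_sub_of_hasDerivAt (f := fun s => T (s, z))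
    (fun s _ => est_line (γ := fun s => (s, z)) (hT.differentiable (by simp) _) (est_h0 z s))
    (hc.intervalIntegrable _ _)).symm

theorem endac_rect1 {T : P → ℝ} (hT : ContDiff ℝ ∞ T) (h1 : ∀ y, |pd 0 T y| ≤ 1)
    (u u' y y' : ℝ) : |∫ z in u..u', (T (y, z) - T (y', z))| ≤ |y - y'| * |u' - u| := by
  rw [← Real.norm_eq_abs]
  refine intervalIntegral.norm_integral_le_of_norm_le_const (C := |y - y'|) fun z _ => ?_
  rw [endac_ftc hT]
  have := intervalIntegral.norm_integral_le_of_norm_le_const (a := y') (b := y) (C := 1)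
    (f := fun s => pd 0 T (s, z)) fun s _ => h1 _
  simpa using this

theorem endac_rect2 {T : P → ℝ} (hT : ContDiff ℝ ∞ T) (hi : Integrable (pd 0 T))
    (u u' y y' : ℝ) : |∫ z in u..u', (T (y, z) - T (y', z))| ≤ ∫ x, |pd 0 T x| := by
  have hi' : Integrable (pd 0 T) ((volume : Measure ℝ).prod (volume : Measure ℝ)) := hi
  have hH : Integrable fun z : ℝ => ∫ s : ℝ, ‖pd 0 T (s, z)‖ := hi'.integral_norm_prod_right
  have h0 : ∀ z : ℝ, 0 ≤ ∫ s : ℝ, ‖pd 0 T (s, z)‖ := fun z => integral_nonneg fun s => norm_nonneg _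
  have hae : ∀ᵐ z : ℝ, ‖T (y, z) - T (y', z)‖ ≤ ∫ s : ℝ, ‖pd 0 T (s, z)‖ := by
    filter_upwards [hi'.prod_left_ae] with z hz
    rw [endac_ftc hT]
    exact intervalIntegral.norm_integral_le_integral_norm_uIoc.trans
      (setIntegral_le_integral hz.norm (Eventually.of_forall fun s => norm_nonneg _))
  have e : ∫ x, |pd 0 T x| = ∫ z : ℝ, ∫ s : ℝ, ‖pd 0 T (s, z)‖ :=
    integral_prod_symm (fun x : ℝ × ℝ => ‖pd 0 T x‖) hi'.norm
  rw [e]
  calc |∫ z in u..u', (T (y, z) - T (y', z))|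
      ≤ ∫ z in uIoc u u', ‖T (y, z) - T (y', z)‖ := by
        rw [← Real.norm_eq_abs]
        exact intervalIntegral.norm_integral_le_integral_norm_uIoc
    _ ≤ ∫ z in uIoc u u', ∫ s : ℝ, ‖pd 0 T (s, z)‖ :=
        integral_mono_of_nonneg (Eventually.of_forall fun z => norm_nonneg _) hH.integrableOn
          (ae_restrict_of_ae hae)
    _ ≤ ∫ z : ℝ, ∫ s : ℝ, ‖pd 0 T (s, z)‖ :=
        setIntegral_le_integral hH (Eventually.of_forall h0)

theorem endac_ii {T : P → ℝ} (hT : ContDiff ℝ ∞ T) (y u u' : ℝ) :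
    IntervalIntegrable (fun z => T (y, z)) volume u u' :=
  (hT.continuous.comp (by fun_prop : Continuous fun z : ℝ => ((y, z) : P))).intervalIntegrable _ _

theorem endac_ho {f : ℝ → ℝ} {M : ℝ} (hM : 0 ≤ M) (hf : Ho f univ M) {s t l : ℝ} (hst : s ≤ t)
    (hl : t - s ≤ l) : |f t - f s| ≤ M * tw l := by
  have h := hf t (mem_univ _) s (mem_univ _)
  rw [Real.dist_eq, abs_of_nonneg (sub_nonneg.2 hst)] at h
  exact h.trans (mul_le_mul_of_nonneg_left (tw_mono (sub_nonneg.2 hst) hl) hM)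

/-- one edge -/
theorem yi_ac {f g : ℝ → ℝ} (hf : Hb f) (hg : Hb g) (l : ℝ) {θ : ℝ} (hθ : 0 < θ) : ∃ ε > 0,
    ∀ T : P → ℝ, ContDiff ℝ ∞ T → (∀ y, |pd 0 T y| ≤ 1) → Integrable (pd 0 T) →
      ∫ y, |pd 0 T y| ≤ ε → ∀ a b, a ≤ b → b - a ≤ l →
      |yi (fun s => T (f s, g s)) g a b - ∫ z in g a..g b, T (0, z)| ≤ θ := by
  obtain ⟨M, hM, hf0, hg0, hf1, hg1⟩ := hf.two hg
  obtain ⟨ε, hε, hs⟩ := sew_small (5 * (M * M)) l (half_pos hθ)
  refine ⟨min ε (θ / 2), lt_min hε (half_pos hθ), fun T hT h1 hi hI a b hab hl => ?_⟩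
  have hF : Hb fun s => T (f s, g s) := Hb.comp2 hT hf hg
  set I := prim (fun s => T (f s, g s)) g with hIdef
  set R : ℝ → ℝ → ℝ := fun s t => I t - I s - ∫ z in g s..g t, T (f t, z) with hR
  have hdef : ∀ s m t, R s t - R s m - R m t =
      - ∫ z in g s..g m, (T (f t, z) - T (f m, z)) := by
    intro s m t
    have e1 := intervalIntegral.integral_add_adjacent_intervals
      (endac_ii hT (f t) (g s) (g m)) (endac_ii hT (f t) (g m) (g t))
    rw [intervalIntegral.integral_sub (endac_ii hT _ _ _) (endac_ii hT _ _ _)]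
    simp only [hR]
    linarith
  have hpri : ∃ K', ∀ s t, a ≤ s → s ≤ t → t ≤ b → |R s t| ≤ K' * tw (t - s) ^ 2 := by
    obtain ⟨K, hK⟩ := prim_prim hF hg a b
    obtain ⟨Λ, hΛ, hL⟩ := est_lip hT M
    refine ⟨K + Λ * (M * M), fun s t h2 h3 h4 => ?_⟩
    have k1 := hK s t h2 h3 h4
    have k2 := endac_ho hM hf1 h3 le_rfl
    have k3 := endac_ho hM hg1 h3 le_rfl
    have ht : 0 ≤ tw (t - s) := tw_nonneg (sub_nonneg.2 h3)
    have k4 : |∫ z in g s..g t, (T (f t, z) - T (f s, g s))| ≤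
        Λ * (M * tw (t - s)) * |g t - g s| := by
      rw [← Real.norm_eq_abs]
      refine intervalIntegral.norm_integral_le_of_norm_le_const fun z hz => ?_
      have hz1 : |z - g s| ≤ |g t - g s| := abs_sub_left_of_mem_uIcc (uIoc_subset_uIcc hz)
      have hz2 : |z| ≤ M := by
        have q1 := abs_le.1 (hg0 s)
        have q2 := abs_le.1 (hg0 t)
        rcases mem_uIcc.1 (uIoc_subset_uIcc hz) with q | q <;> exact abs_le.2 ⟨by linarith, by linarith⟩
      have m1 : ((f t, z) : P) ∈ closedBall (0 : P) M := by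
        rw [mem_closedBall_zero_iff, Prod.norm_def]
        exact max_le (hf0 t) hz2
      have m2 : ((f s, g s) : P) ∈ closedBall (0 : P) M := by
        rw [mem_closedBall_zero_iff, Prod.norm_def]
        exact max_le (hf0 s) (hg0 s)
      refine (hL _ m1 _ m2).trans (mul_le_mul_of_nonneg_left ?_ hΛ)
      rw [Prod.norm_def]
      exact max_le k2 (hz1.trans k3)
    rw [intervalIntegral.integral_sub (endac_ii hT _ _ _) intervalIntegrable_const,
      intervalIntegral.integral_const, smul_eq_mul] at k4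
    have k5 : Λ * (M * tw (t - s)) * |g t - g s| ≤ Λ * (M * tw (t - s)) * (M * tw (t - s)) :=
      mul_le_mul_of_nonneg_left k3 (by positivity)
    have k6 := abs_le.1 k1
    have k7 := abs_le.1 (k4.trans k5)
    simp only [hR]
    refine abs_le.2 ⟨?_, ?_⟩ <;> nlinarith [k6.1, k6.2, k7.1, k7.2]
  have hsew := sew (R := R) (a := a) (b := b) (K := M * M) (mul_nonneg hM hM) (by
    intro s t _ h3 _
    rw [hdef, abs_neg]
    have ht : 0 ≤ tw (t - s) := tw_nonneg (sub_nonneg.2 h3)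
    have k2 := endac_ho hM hf1 (s := (s + t) / 2) (t := t) (l := t - s) (by linarith) (by linarith)
    have k3 := endac_ho hM hg1 (s := s) (t := (s + t) / 2) (l := t - s) (by linarith) (by linarith)
    refine (endac_rect1 hT h1 _ _ _ _).trans
      ((mul_le_mul k2 k3 (abs_nonneg _) (by positivity)).trans (le_of_eq (by ring)))) hpri
  have hfin := hs R a b hab hl (by
    intro s t _ _ _
    rw [hdef, abs_neg]
    exact (endac_rect2 hT hi _ _ _ _).trans (hI.trans (min_le_left _ _))) hsew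
  have k8 := (endac_rect2 hT hi (g a) (g b) (f b) 0).trans (hI.trans (min_le_right _ _))
  rw [intervalIntegral.integral_sub (endac_ii hT _ _ _) (endac_ii hT _ _ _)] at k8
  have k9 := abs_le.1 hfin
  have k10 := abs_le.1 k8
  simp only [hR] at k9
  unfold yi
  refine abs_le.2 ⟨?_, ?_⟩ <;> linarith [k9.1, k9.2, k10.1, k10.2]

/-- absolute continuity of the area swept by a Hoelder loop -/
theorem yl_ac {a b : P → ℝ} (ha : Hb a) (hb : Hb b) (c : P) {r : ℝ} (hr : 0 < r) {θ : ℝ}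
    (hθ : 0 < θ) : ∃ ε > 0, ∀ T : P → ℝ, ContDiff ℝ ∞ T → (∀ y, |pd 0 T y| ≤ 1) →
      Integrable (pd 0 T) → ∫ y, |pd 0 T y| ≤ ε → |yl c r (fun x => T (a x, b x)) b| ≤ θ := by
  have h4 : 0 < θ / 4 := by linarith
  obtain ⟨ε1, p1, q1⟩ := yi_ac (ha.iso (edge_b c hr.le).1) (hb.iso (edge_b c hr.le).1) r h4
  obtain ⟨ε2, p2, q2⟩ := yi_ac (ha.iso (edge_r c hr.le).1) (hb.iso (edge_r c hr.le).1) r h4
  obtain ⟨ε3, p3, q3⟩ := yi_ac (ha.iso (edge_t c hr.le).1) (hb.iso (edge_t c hr.le).1) r h4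
  obtain ⟨ε4, p4, q4⟩ := yi_ac (ha.iso (edge_l c hr.le).1) (hb.iso (edge_l c hr.le).1) r h4
  refine ⟨min (min ε1 ε2) (min ε3 ε4), lt_min (lt_min p1 p2) (lt_min p3 p4),
    fun T hT h1 hi hI => ?_⟩
  have r1 := abs_le.1 (q1 T hT h1 hi (hI.trans ((min_le_left _ _).trans (min_le_left _ _)))
    c.1 (c.1 + r) (by linarith) (by linarith))
  have r2 := abs_le.1 (q2 T hT h1 hi (hI.trans ((min_le_left _ _).trans (min_le_right _ _)))
    c.2 (c.2 + r) (by linarith) (by linarith))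
  have r3 := abs_le.1 (q3 T hT h1 hi (hI.trans ((min_le_right _ _).trans (min_le_left _ _)))
    c.1 (c.1 + r) (by linarith) (by linarith))
  have r4 := abs_le.1 (q4 T hT h1 hi (hI.trans ((min_le_right _ _).trans (min_le_right _ _)))
    c.2 (c.2 + r) (by linarith) (by linarith))
  have e1 := intervalIntegral.integral_add_adjacent_intervals
    (endac_ii hT 0 (b (c.1, c.2)) (b (c.1 + r, c.2)))
    (endac_ii hT 0 (b (c.1 + r, c.2)) (b (c.1 + r, c.2 + r)))
  have e2 := intervalIntegral.integral_add_adjacent_intervals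
    (endac_ii hT 0 (b (c.1, c.2)) (b (c.1, c.2 + r)))
    (endac_ii hT 0 (b (c.1, c.2 + r)) (b (c.1 + r, c.2 + r)))
  unfold yl
  refine abs_le.2 ⟨?_, ?_⟩ <;> linarith [r1.1, r1.2, r2.1, r2.2, r3.1, r3.2, r4.1, r4.2]

end Pool.Agent.Bor
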