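import Pool.Agent.P.MP_26ecb7_gt.EndYs

noncomputable section
open Set Filter Topology MeasureTheory Metric
open scoped RealInnerProductSpace ContDiff ENNReal

namespace Pool.Agent.Bor

/-- the rescaled function -/
def rs (u : P → ℝ) (c : P) (r : ℝ) (x : P) : ℝ := (tw r)⁻¹ * (u (c + r • x) - u c)

variable {u v : P → ℝ} {c c' : P} {r r' M : ℝ}

theorem rs_zero : rs u c r 0 = 0 := by simp [rs]
theorem rs_hb (hu : Hb u) (hr : 0 < r) : Hb (rs u c r) := ((hu.affine c hr).sub (Hb.const (u c))).const_mul _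
theorem rs_ho (hu : Ho u univ M) (hr : 0 < r) : Ho (rs u c r) univ M := by
  intro x _ y _
  have ht := tw_pos hr
  have h := hu (c + r • x) (mem_univ _) (c + r • y) (mem_univ _)
  rw [dist_add_left, dist_smul₀, Real.norm_eq_abs, abs_of_pos hr, tw_mul hr.le dist_nonneg] at h
  have e : rs u c r x - rs u c r y = (tw r)⁻¹ * (u (c + r • x) - u (c + r • y)) := by
    unfold rs; ring
  rw [e, abs_mul, abs_of_pos (inv_pos.2 ht), inv_mul_le_iff₀ ht]
  linarith
theorem rs_sub (hr : 0 < r) (hr' : 0 < r') (h : sqr c' r' ⊆ sqr 0 1) :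
    sqr (c + r • c') (r * r') ⊆ sqr c r := by
  have h1 := mem_sqr.1 (h (corner_mem hr'.le))
  have h2 := mem_sqr.1 (h (show ((c'.1 + r', c'.2 + r') : P) ∈ sqr c' r' from
    mem_sqr.2 ⟨⟨by linarith, le_rfl⟩, by linarith, le_rfl⟩))
  simp only [Prod.fst_zero, Prod.snd_zero, zero_add] at h1 h2
  intro x hx
  rw [mem_sqr] at hx ⊢
  simp only [Prod.fst_add, Prod.snd_add, Prod.smul_fst, Prod.smul_snd, smul_eq_mul] at hx
  obtain ⟨⟨a1, a2⟩, a3, a4⟩ := hx
  refine ⟨⟨?_, ?_⟩, ?_, ?_⟩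
  · nlinarith [mul_nonneg hr.le h1.1.1]
  · nlinarith [mul_le_mul_of_nonneg_left h2.1.2 hr.le]
  · nlinarith [mul_nonneg hr.le h1.2.1]
  · nlinarith [mul_le_mul_of_nonneg_left h2.2.2 hr.le]
theorem yl_rs (hu : Hb u) (hv : Hb v) (hr : 0 < r) (hr' : 0 < r') :
    yl c' r' (rs v c r) (rs u c r) = (tw r ^ 2)⁻¹ * yl (c + r • c') (r * r') v u := by
  have a1 := hu.affine c hr
  have a2 := hv.affine c hr
  have e1 := yl_right (c := c') (tw r)⁻¹ (u c) (rs_hb (c := c) hv hr) a1 hr'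
  have e2 := yl_mul (c := c') (tw r)⁻¹ (a2.sub (Hb.const (v c))) a1 hr'
  have e3 := yl_sub (c := c') a2 (Hb.const (v c)) a1 hr'
  have e4 := yl_const (c := c') (v c) a1 hr'
  have e5 := yl_scale (c := c') hv hu hr' c hr
  calc yl c' r' (rs v c r) (rs u c r)
      = (tw r)⁻¹ * yl c' r' (rs v c r) (fun x => u (c + r • x)) := e1
    _ = (tw r)⁻¹ * ((tw r)⁻¹ * yl c' r' (fun x => v (c + r • x) - v c)
          (fun x => u (c + r • x))) := congrArg _ e2
    _ = _ := by rw [e3, e4, e5]; ring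
theorem yl_rs3 {g : P → ℝ} (hu : Hb u) (hv : Hb v) (hg : Hb g) (hr : 0 < r) (hr' : 0 < r') :
    yl c' r' (fun x => (rs u c r x - rs u c r c') * (rs v c r x - rs v c r c')) (rs g c r)
      = (r ^ 2)⁻¹ * yl (c + r • c') (r * r')
        (fun x => (u x - u (c + r • c')) * (v x - v (c + r • c'))) g := by
  have hf : Hb fun x => (u x - u (c + r • c')) * (v x - v (c + r • c')) :=
    (hu.sub (Hb.const _)).mul (hv.sub (Hb.const _))
  have a1 := hg.affine c hr
  have a2 := hf.affine c hr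
  have e0 : (fun x => (rs u c r x - rs u c r c') * (rs v c r x - rs v c r c')) =
      fun x => (tw r ^ 2)⁻¹ *
        ((u (c + r • x) - u (c + r • c')) * (v (c + r • x) - v (c + r • c'))) := by
    funext x; unfold rs; ring
  have e1 := yl_right (c := c') (tw r)⁻¹ (g c) (a2.const_mul (tw r ^ 2)⁻¹) a1 hr'
  have e2 := yl_mul (c := c') (tw r ^ 2)⁻¹ a2 a1 hr'
  have e5 := yl_scale (c := c') hf hg hr' c hr
  rw [e0]
  refine e1.trans ?_
  rw [e2, e5, ← tw_cube hr.le]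
  ring
theorem yl_tendsto3 {U V G : ℕ → P → ℝ} {g : P → ℝ} (hr' : 0 < r') (h : sqr c' r' ⊆ sqr 0 1)
    (hM : 0 ≤ M) (hU : ∀ n, Hb (U n)) (hV : ∀ n, Hb (V n)) (hG : ∀ n, Hb (G n)) (hu : Hb u)
    (hv : Hb v) (hg : Hb g) (h1 : TendstoUniformlyOn U u atTop (sqr 0 1))
    (h2 : TendstoUniformlyOn V v atTop (sqr 0 1)) (h3 : TendstoUniformlyOn G g atTop (sqr 0 1))
    (k1 : ∀ n, Ho (U n) univ M) (k2 : ∀ n, Ho (V n) univ M) (k3 : ∀ n, Ho (G n) univ M) :
    Tendsto (fun n => yl c' r' (fun x => (U n x - U n c') * (V n x - V n c')) (G n)) atTop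
      (𝓝 (yl c' r' (fun x => (u x - u c') * (v x - v c')) g)) := by
  have hc : c' ∈ sqr c' r' := corner_mem hr'.le
  have hr1 : r' ≤ 1 := by
    have h2 : ((c'.1 + r', c'.2 + r') : P) ∈ sqr c' r' :=
      mem_sqr.2 ⟨⟨by linarith, le_rfl⟩, by linarith, le_rfl⟩
    have h3 := mem_sqr.1 (h hc)
    have h4 := mem_sqr.1 (h h2)
    simp only [Prod.fst_zero, Prod.snd_zero, zero_add] at h3 h4
    linarith [h3.1.1, h4.1.2]
  have ht : M * tw r' ≤ M := mul_le_of_le_one_right hM (tw_le_one hr'.le hr1)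
  have l1 : ∀ n, Ho (U n) (sqr c' r') M := fun n => (k1 n).mono (subset_univ _) le_rfl
  have l2 : ∀ n, Ho (V n) (sqr c' r') M := fun n => (k2 n).mono (subset_univ _) le_rfl
  have l3 : Ho v (sqr c' r') M :=
    Ho.of_tendsto (Eventually.of_forall l2) fun x hx => h2.tendsto_at (h hx)
  have b1 : ∀ n, ∀ x ∈ sqr c' r', |U n x - U n c'| ≤ M := fun n x hx =>
    ((l1 n).osc hM hx hc).trans ht
  have b2 : ∀ n, ∀ x ∈ sqr c' r', |V n x - V n c'| ≤ M := fun n x hx =>
    ((l2 n).osc hM hx hc).trans ht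
  have b3 : ∀ x ∈ sqr c' r', |v x - v c'| ≤ M := fun x hx => (l3.osc hM hx hc).trans ht
  have hMM : 0 ≤ M * M := mul_nonneg hM hM
  refine yl_tendsto (M := M * M + M * M + M) hr'
    (fun n => ((hU n).sub (Hb.const _)).mul ((hV n).sub (Hb.const _))) hG
    ((hu.sub (Hb.const _)).mul (hv.sub (Hb.const _))) hg ?_ (h3.mono h)
    (Eventually.of_forall fun n => ⟨?_, (k3 n).mono (subset_univ _) (by linarith)⟩)
  · rw [Metric.tendstoUniformlyOn_iff] at h1 h2 ⊢
    intro ε hε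
    have hδ : 0 < ε / (4 * M + 1) := by positivity
    filter_upwards [h1 _ hδ, h2 _ hδ] with n p1 p2 x hx
    have q1 := p1 x (h hx)
    have q2 := p1 c' (h hc)
    have q3 := p2 x (h hx)
    have q4 := p2 c' (h hc)
    rw [Real.dist_eq] at q1 q2 q3 q4 ⊢
    have e : (u x - u c') * (v x - v c') - (U n x - U n c') * (V n x - V n c') =
        ((u x - U n x) - (u c' - U n c')) * (v x - v c') +
          (U n x - U n c') * ((v x - V n x) - (v c' - V n c')) := by ring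
    have s1 : |(u x - U n x) - (u c' - U n c')| ≤ 2 * (ε / (4 * M + 1)) :=
      (abs_sub _ _).trans (by linarith)
    have s2 : |(v x - V n x) - (v c' - V n c')| ≤ 2 * (ε / (4 * M + 1)) :=
      (abs_sub _ _).trans (by linarith)
    have s3 : ε / (4 * M + 1) * (4 * M + 1) = ε := div_mul_cancel₀ _ (by positivity)
    rw [e]
    refine (abs_add_le _ _).trans_lt ?_
    rw [abs_mul, abs_mul]
    have t1 := mul_le_mul s1 (b3 x hx) (abs_nonneg _) (by positivity)
    have t2 := mul_le_mul (b1 n x hx) s2 (abs_nonneg _) hM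
    nlinarith
  · exact (((l1 n).sub_const _).mul ((l2 n).sub_const _) (b1 n) (b2 n)).mono subset_rfl
      (by linarith)

end Pool.Agent.Bor
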