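import Pool.Agent.P.MP_26ecb7_gt.EndNorm
import Pool.Agent.P.MP_26ecb7_gt.EndRs

noncomputable section
open Set Filter Topology MeasureTheory Metric
open scoped RealInnerProductSpace ContDiff ENNReal

namespace Pool.Agent.Bor

/-- first component of the anomaly -/
def endblow_D1 (q1 q2 : P → ℝ) (c : P) (r : ℝ) : ℝ :=
  yl c r (fun x => (q1 x - q1 c) * (q2 x - q2 c)) q1

/-- second component of the anomaly -/
def endblow_D2 (q1 q2 : P → ℝ) (c : P) (r : ℝ) : ℝ :=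
  yl c r (fun x => (q2 x - q2 c) * (q2 x - q2 c)) q1

/-- normalised size of the anomaly -/
def endblow_N (q1 q2 : P → ℝ) (c : P) (r : ℝ) : ℝ :=
  √(endblow_D1 q1 q2 c r ^ 2 + endblow_D2 q1 q2 c r ^ 2) / r ^ 2

theorem endblow_nonneg (q1 q2 : P → ℝ) (c : P) (r : ℝ) : 0 ≤ endblow_N q1 q2 c r :=
  div_nonneg (Real.sqrt_nonneg _) (sq_nonneg _)

theorem endblow_sq (q1 q2 : P → ℝ) (c : P) {r r' : ℝ} (hr : 0 < r) (hr' : 0 < r') :
    ((r ^ 2)⁻¹ * endblow_D1 q1 q2 c (r * r')) ^ 2 + ((r ^ 2)⁻¹ * endblow_D2 q1 q2 c (r * r')) ^ 2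
      = (endblow_N q1 q2 c (r * r') * r' ^ 2) ^ 2 := by
  unfold endblow_N
  rw [mul_pow (_ / _), div_pow, Real.sq_sqrt (by positivity)]
  field_simp

theorem endblow_core {q1 q2 : P → ℝ} (h1 : Hb q1) (h2 : Hb q2) {c0 : P} {r0 C : ℝ}
    (h : ∀ c r, 0 < r → sqr c r ⊆ sqr c0 r0 → |yl c r q2 q1| ≤ C * r ^ 2)
    {M A : ℝ} (hM : 0 ≤ M) (k1 : Ho q1 univ M) (k2 : Ho q2 univ M) (hA : 0 < A)
    {c : ℕ → P} {r : ℕ → ℝ} (hr : ∀ k, 0 < r k) (hs : ∀ k, sqr (c k) (r k) ⊆ sqr c0 r0)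
    (hr0 : Tendsto r atTop (𝓝 0))
    (hN : Tendsto (fun k => endblow_N q1 q2 (c k) (r k)) atTop (𝓝 A))
    (hsup : ∀ ε > 0, ∃ ρ > 0, ∀ c r, (0 < r ∧ sqr c r ⊆ sqr c0 r0) → r < ρ →
      endblow_N q1 q2 c r ≤ A + ε)
    {u1 u2 : P → ℝ} (g1 : Hb u1) (g2 : Hb u2)
    (t1 : TendstoUniformlyOn (fun k => rs q1 (c k) (r k)) u1 atTop (sqr 0 1))
    (t2 : TendstoUniformlyOn (fun k => rs q2 (c k) (r k)) u2 atTop (sqr 0 1)) : False := by
  have b1 : ∀ k, Hb (rs q1 (c k) (r k)) := fun k => rs_hb h1 (hr k)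
  have b2 : ∀ k, Hb (rs q2 (c k) (r k)) := fun k => rs_hb h2 (hr k)
  have o1 : ∀ k, Ho (rs q1 (c k) (r k)) univ M := fun k => rs_ho k1 (hr k)
  have o2 : ∀ k, Ho (rs q2 (c k) (r k)) univ M := fun k => rs_ho k2 (hr k)
  have z0 : ∀ c' r', 0 < r' → sqr c' r' ⊆ sqr 0 1 → yl c' r' u2 u1 = 0 := by
    intro c' r' hr' hsub
    have a1 := yl_tendsto (M := M) hr' b2 b1 g2 g1 (t2.mono hsub) (t1.mono hsub)
      (Eventually.of_forall fun n =>
        ⟨(o2 n).mono (subset_univ _) le_rfl, (o1 n).mono (subset_univ _) le_rfl⟩)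
    have a2 : Tendsto (fun n => C * r' ^ 2 * tw (r n)) atTop (𝓝 0) := by
      have := ((continuous_tw.tendsto 0).comp hr0).const_mul (C * r' ^ 2)
      simpa [tw_zero] using this
    refine tendsto_nhds_unique a1 (squeeze_zero_norm (fun n => ?_) a2)
    have ht := tw_pos (hr n)
    have a3 := h _ _ (mul_pos (hr n) hr') ((rs_sub (hr n) hr' hsub).trans (hs n))
    rw [yl_rs h1 h2 (hr n) hr', Real.norm_eq_abs, abs_mul, abs_of_pos (by positivity),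
      inv_mul_le_iff₀ (by positivity)]
    refine a3.trans (le_of_eq ?_)
    rw [mul_pow, ← tw_cube (hr n).le]
    ring
  have key : ∀ c' r', 0 < r' → sqr c' r' ⊆ sqr 0 1 →
      Tendsto (fun n => (endblow_N q1 q2 (c n + r n • c') (r n * r') * r' ^ 2) ^ 2) atTop
        (𝓝 (yl c' r' (fun x => u1 x * u2 x) u1 ^ 2 + yl c' r' (fun x => u2 x * u2 x) u1 ^ 2)) := by
    intro c' r' hr' hsub
    have a1 := yl_tendsto3 hr' hsub hM b1 b2 b1 g1 g2 g1 t1 t2 t1 o1 o2 o1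
    have a2 := yl_tendsto3 hr' hsub hM b2 b2 b1 g2 g2 g1 t2 t2 t1 o2 o2 o1
    obtain ⟨e1, e2⟩ := yl_centre g2 g1 hr' (z0 c' r' hr' hsub) (u1 c') (u2 c')
    rw [e1] at a1
    rw [e2] at a2
    refine ((a1.pow 2).add (a2.pow 2)).congr fun n => ?_
    rw [yl_rs3 h1 h2 h1 (hr n) hr', yl_rs3 h2 h2 h1 (hr n) hr']
    exact endblow_sq q1 q2 _ (hr n) hr'
  have hb : ∀ c' r', Dy c' r' →
      yl c' r' (fun x => u1 x * u2 x) u1 ^ 2 + yl c' r' (fun x => u2 x * u2 x) u1 ^ 2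
        ≤ (A * r' ^ 2) ^ 2 := by
    intro c' r' hd
    have hr' := hd.pos
    have a1 : Tendsto (fun ε : ℝ => ((A + ε) * r' ^ 2) ^ 2) (𝓝[>] 0) (𝓝 ((A * r' ^ 2) ^ 2)) := by
      have : Continuous fun ε : ℝ => ((A + ε) * r' ^ 2) ^ 2 := by fun_prop
      simpa using (this.tendsto 0).mono_left nhdsWithin_le_nhds
    refine ge_of_tendsto a1 (eventually_mem_nhdsWithin.mono fun ε hε => ?_)
    obtain ⟨ρ, hρ, hρ'⟩ := hsup ε hε
    refine le_of_tendsto (key c' r' hr' hd.sub) ?_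
    filter_upwards [hr0.eventually (gt_mem_nhds hρ)] with n hn
    have a2 := hρ' _ _ ⟨mul_pos (hr n) hr', (rs_sub (hr n) hr' hd.sub).trans (hs n)⟩
      ((mul_le_of_le_one_right (hr n).le hd.le_one).trans_lt hn)
    exact pow_le_pow_left₀ (mul_nonneg (endblow_nonneg _ _ _ _) (sq_nonneg _))
      (mul_le_mul_of_nonneg_right a2 (sq_nonneg _)) 2
  have he : yl 0 1 (fun x => u1 x * u2 x) u1 ^ 2 + yl 0 1 (fun x => u2 x * u2 x) u1 ^ 2
      = A ^ 2 := by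
    have a1 := key 0 1 one_pos subset_rfl
    simp only [smul_zero, add_zero, mul_one, one_pow] at a1
    exact tendsto_nhds_unique a1 (hN.pow 2)
  have hc := const_of_ext (E := fun c r => yl c r (fun x => u1 x * u2 x) u1)
    (F := fun c r => yl c r (fun x => u2 x * u2 x) u1) (fun c r _ => yl_split _ _ c r)
    (fun c r _ => yl_split _ _ c r) hb he
  obtain ⟨d1, d2⟩ := no_const g1 g2 z0 (fun c r hd => (hc c r hd).1) (fun c r hd => (hc c r hd).2)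
  rw [d1, d2] at he
  nlinarith

/-- the anomaly has density zero, uniformly -/
theorem anom_zero {q1 q2 : P → ℝ} (h1 : Hb q1) (h2 : Hb q2) {c0 : P} {r0 C : ℝ}
    (h : ∀ c r, 0 < r → sqr c r ⊆ sqr c0 r0 → |yl c r q2 q1| ≤ C * r ^ 2) :
    ∀ η > 0, ∃ ρ > 0, ∀ c r, 0 < r → r < ρ → sqr c r ⊆ sqr c0 r0 →
      |yl c r (fun x => (q1 x - q1 c) * (q2 x - q2 c)) q1| ≤ η * r ^ 2 ∧
      |yl c r (fun x => (q2 x - q2 c) * (q2 x - q2 c)) q1| ≤ η * r ^ 2 := by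
  intro η hη
  by_contra hcon
  obtain ⟨C1, hC1, a1⟩ := yl_cubic h1 h2 h1
  obtain ⟨C2, hC2, a2⟩ := yl_cubic h2 h2 h1
  have hB : ∀ c r, (0 < r ∧ sqr c r ⊆ sqr c0 r0) → endblow_N q1 q2 c r ≤ C1 + C2 := by
    intro c r hr
    have b1 : |endblow_D1 q1 q2 c r| ≤ C1 * r ^ 2 := a1 c r hr.1
    have b2 : |endblow_D2 q1 q2 c r| ≤ C2 * r ^ 2 := a2 c r hr.1
    have hr2 : 0 < r ^ 2 := pow_pos hr.1 2
    unfold endblow_N
    rw [div_le_iff₀ hr2]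
    refine Real.sqrt_le_iff.2 ⟨by positivity, ?_⟩
    have c1 := pow_le_pow_left₀ (abs_nonneg _) b1 2
    have c2 := pow_le_pow_left₀ (abs_nonneg _) b2 2
    rw [sq_abs] at c1 c2
    have c3 : 0 ≤ (C1 * r ^ 2) * (C2 * r ^ 2) := by positivity
    nlinarith
  have hn : ∀ ρ > 0, ∃ c r, (0 < r ∧ sqr c r ⊆ sqr c0 r0) ∧ r < ρ ∧ η < endblow_N q1 q2 c r := by
    intro ρ hρ
    by_contra hno
    refine hcon ⟨ρ, hρ, fun c r hr hrρ hsub => ?_⟩
    have b1 : endblow_N q1 q2 c r ≤ η := not_lt.1 fun hlt => hno ⟨c, r, ⟨hr, hsub⟩, hrρ, hlt⟩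
    unfold endblow_N at b1
    rw [div_le_iff₀ (pow_pos hr 2)] at b1
    exact ⟨(Real.abs_le_sqrt (le_add_of_nonneg_right (sq_nonneg _))).trans b1,
      (Real.abs_le_sqrt (le_add_of_nonneg_left (sq_nonneg _))).trans b1⟩
  obtain ⟨A, hA, c, r, had, hr0, hN, hsup⟩ :=
    exists_extremal (N := endblow_N q1 q2) (Ad := fun c r => 0 < r ∧ sqr c r ⊆ sqr c0 r0) hη
      (fun c r hr => hr.1) hB hn
  obtain ⟨M, hM, -, -, k1, k2⟩ := Hb.two h1 h2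
  obtain ⟨φ, hφ, u1, g1, t1⟩ := exists_lim (u := fun k => rs q1 (c k) (r k)) hM
    (fun k => rs_zero) fun k => rs_ho k1 (had k).1
  obtain ⟨ψ, hψ, u2, g2, t2⟩ := exists_lim (u := fun k => rs q2 (c (φ k)) (r (φ k))) hM
    (fun k => rs_zero) fun k => rs_ho k2 (had _).1
  have hχ : Tendsto (fun k => φ (ψ k)) atTop atTop := (hφ.comp hψ).tendsto_atTop
  exact endblow_core h1 h2 h hM k1 k2 hA (c := fun k => c (φ (ψ k))) (r := fun k => r (φ (ψ k)))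
    (fun k => (had _).1) (fun k => (had _).2) (hr0.comp hχ) (hN.comp hχ) hsup g1 g2
    (fun s hs => hψ.tendsto_atTop.eventually (t1 s hs)) t2

end Pool.Agent.Bor
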