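import Pool.Agent.P.MP_26ecb7_gt.EndTw

noncomputable section
open Set Filter Topology MeasureTheory Metric
open scoped RealInnerProductSpace ContDiff ENNReal

namespace Pool.Agent.Bor

open scoped Convolution

/-- mollification of a Hoelder function -/
theorem exists_moll {X : Type} [NormedAddCommGroup X] [NormedSpace ℝ X] [FiniteDimensional ℝ X]
    {u : X → ℝ} {M : ℝ} (hM : 0 ≤ M) (hu : Ho u univ M) : ∃ U : ℕ → X → ℝ,
    (∀ n, ContDiff ℝ ∞ (U n)) ∧ (∀ n, Ho (U n) univ M) ∧ TendstoUniformly U u atTop := by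
  borelize X
  obtain ⟨μ, hμ⟩ : ∃ μ : Measure X, μ.IsAddHaarMeasure := ⟨Measure.addHaar, inferInstance⟩
  have hc : Continuous u := continuousOn_univ.1 hu.continuousOn
  obtain ⟨φ, hφ⟩ : ∃ φ : ℕ → ContDiffBump (0 : X), ∀ n, (φ n).rOut = 1 / ((n : ℝ) + 1) :=
    ⟨fun n => ⟨1 / ((n : ℝ) + 1) / 2, 1 / ((n : ℝ) + 1), by positivity,
      half_lt_self (by positivity)⟩, fun _ => rfl⟩
  refine ⟨fun n => (φ n).normed μ ⋆[ContinuousLinearMap.lsmul ℝ ℝ, μ] u, fun n => ?_,
    fun n x _ y _ => ?_, ?_⟩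
  · exact (φ n).hasCompactSupport_normed.contDiff_convolution_left _ (φ n).contDiff_normed
      hc.locallyIntegrable
  · have hi := ((φ n).hasCompactSupport_normed (μ := μ)).convolutionExists_left
      (ContinuousLinearMap.lsmul ℝ ℝ) (φ n).continuous_normed (hc.locallyIntegrable (μ := μ))
    beta_reduce
    rw [convolution_def, convolution_def, ← integral_sub (hi x) (hi y), ← Real.norm_eq_abs]
    refine (norm_integral_le_of_norm_le
      (((φ n).integrable_normed (μ := μ)).mul_const (M * tw (dist x y)))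
      (Eventually.of_forall fun t => ?_)).trans_eq ?_
    · have h := hu (x - t) trivial (y - t) trivial
      rw [dist_sub_right] at h
      rw [← map_sub, ContinuousLinearMap.lsmul_apply, smul_eq_mul, Real.norm_eq_abs, abs_mul,
        abs_of_nonneg ((φ n).nonneg_normed t)]
      exact mul_le_mul_of_nonneg_left h ((φ n).nonneg_normed t)
    · rw [integral_mul_const, (φ n).integral_normed, one_mul]
  · refine Metric.tendstoUniformly_iff.2 fun ε hε => ?_
    obtain ⟨ρ, hρ, h⟩ := tw_small (show 0 < ε / 2 / (M + 1) by positivity)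
    filter_upwards [(tendsto_one_div_add_atTop_nhds_zero_nat (𝕜 := ℝ)).eventually
      (gt_mem_nhds hρ)] with n hn x
    rw [dist_comm]
    refine ((φ n).dist_normed_convolution_le (ε := ε / 2) hc.aestronglyMeasurable
      fun y hy => ?_).trans_lt (half_lt_self hε)
    rw [mem_ball, hφ] at hy
    have h1 := h _ dist_nonneg (hy.trans hn)
    rw [lt_div_iff₀ (by positivity)] at h1
    have h2 := tw_nonneg (dist_nonneg (x := y) (y := x))
    rw [Real.dist_eq]
    refine (hu y trivial x trivial).trans ?_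
    nlinarith

/-- smooth primitive in the first variable -/
theorem exists_pd0 {φ : P → ℝ} (hφ : ContDiff ℝ ∞ φ) (hc : HasCompactSupport φ) :
    ∃ T : P → ℝ, ContDiff ℝ ∞ T ∧ ∀ y, pd 0 T y = φ y := by
  have hk : IsCompact (Prod.fst '' tsupport φ) := hc.isCompact.image continuous_fst
  have hz : ∀ (z x : ℝ), x ∉ Prod.fst '' tsupport φ → φ (x, z) = 0 := fun z x hx =>
    image_eq_zero_of_notMem_tsupport fun h => hx ⟨_, h, rfl⟩
  have hT : ContDiff ℝ ∞ fun y : P => ((Ioi (0 : ℝ)).indicator (fun _ => (1 : ℝ))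
      ⋆[ContinuousLinearMap.lsmul ℝ ℝ, volume] fun s => φ (s, y.2)) y.1 := by
    rw [← contDiffOn_univ]
    exact contDiffOn_convolution_right_with_param_comp (n := ⊤) (ContinuousLinearMap.lsmul ℝ ℝ)
      (g := fun (y : P) (s : ℝ) => φ (s, y.2)) contDiff_fst.contDiffOn isOpen_univ hk
      (fun p x _ hx => hz p.2 x hx)
      ((locallyIntegrable_const (1 : ℝ)).indicator measurableSet_Ioi)
      (hφ.comp (contDiff_snd.prodMk contDiff_fst.snd)).contDiffOn
  have e : (fun y : P => ((Ioi (0 : ℝ)).indicator (fun _ => (1 : ℝ))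
      ⋆[ContinuousLinearMap.lsmul ℝ ℝ, volume] fun s => φ (s, y.2)) y.1) =
      fun y : P => ∫ s in Iic y.1, φ (s, y.2) := funext fun y => by
    rw [convolution_eq_swap, integral_Iic_eq_integral_Iio, ← integral_indicator measurableSet_Iio]
    refine congrArg _ (funext fun t => ?_)
    by_cases h : t < y.1 <;> simp [indicator, h]
  rw [e] at hT
  refine ⟨_, hT, fun y => ?_⟩
  have c1 : Continuous fun s : ℝ => φ (s, y.2) :=
    hφ.continuous.comp (continuous_id.prodMk continuous_const)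
  have i1 : Integrable fun s : ℝ => φ (s, y.2) :=
    c1.integrable_of_hasCompactSupport (HasCompactSupport.intro hk (hz y.2))
  have d1 := (hT.differentiable (by simp) (y.1, y.2)).hasFDerivAt.comp_hasDerivAt y.1
    ((hasDerivAt_id y.1).prodMk (hasDerivAt_const y.1 y.2))
  have d2 : HasDerivAt (fun u : ℝ => ∫ s in Iic u, φ (s, y.2)) (φ (y.1, y.2)) y.1 := by
    have e2 : (fun u : ℝ => ∫ s in Iic u, φ (s, y.2)) =
        fun u => (∫ s in (0 : ℝ)..u, φ (s, y.2)) + ∫ s in Iic 0, φ (s, y.2) := funext fun u => by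
      rw [← intervalIntegral.integral_Iic_sub_Iic i1.integrableOn i1.integrableOn, sub_add_cancel]
    rw [e2]
    exact (c1.integral_hasStrictDerivAt 0 y.1).hasDerivAt.add_const _
  exact d1.unique d2

/-- a smooth function equal to one on a null compact set, with small integral -/
theorem exists_thin {K : Set P} (hK : IsCompact K) (h0 : volume K = 0) {ε : ℝ} (hε : 0 < ε) :
    ∃ φ : P → ℝ, ContDiff ℝ ∞ φ ∧ HasCompactSupport φ ∧ (∀ y, 0 ≤ φ y ∧ φ y ≤ 1) ∧
      (∀ y ∈ K, φ y = 1) ∧ ∫ y, φ y ≤ ε := by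
  obtain ⟨U, hKU, hU, hv⟩ := K.exists_isOpen_lt_of_lt (μ := volume) (ENNReal.ofReal ε)
    (by rw [h0]; exact ENNReal.ofReal_pos.2 hε)
  obtain ⟨L, hL, h1, h2⟩ := exists_compact_between hK hU hKU
  obtain ⟨f, f1, f0, fb⟩ := exists_contMDiffMap_one_nhds_of_subset_interior
    (modelWithCornersSelf ℝ P) (n := ⊤) hK.isClosed h1
  refine ⟨f, contMDiff_iff_contDiff.1 f.contMDiff, HasCompactSupport.intro hL f0, fb,
    f1.self_of_nhdsSet, ?_⟩
  rw [← setIntegral_eq_integral_of_forall_compl_eq_zero f0]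
  refine (Real.le_norm_self _).trans ((norm_setIntegral_le_of_norm_le_const (C := 1) hL.measure_lt_top
    fun x _ => ?_).trans ?_)
  · rw [Real.norm_eq_abs, abs_of_nonneg (fb x).1]
    exact (fb x).2
  · rw [one_mul]
    exact ENNReal.toReal_le_of_le_ofReal hε.le ((measure_mono h2).trans hv.le)

end Pool.Agent.Bor
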