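import Pool.Agent.P.MP_26ecb7_gt.EndTw

noncomputable section
open Set Filter Topology MeasureTheory Metric
open scoped RealInnerProductSpace ContDiff ENNReal

namespace Pool.Agent.Bor

/-- the sewing induction -/
theorem sew_k {R : ℝ → ℝ → ℝ} {a b K K' ε : ℝ} (hK : 0 ≤ K) (hK' : 0 ≤ K') (hε : 0 ≤ ε)
    (h1 : ∀ s t, a ≤ s → s ≤ t → t ≤ b →
      |R s t - R s ((s + t) / 2) - R ((s + t) / 2) t| ≤ K * tw (t - s) ^ 2 + ε)
    (h2 : ∀ s t, a ≤ s → s ≤ t → t ≤ b → |R s t| ≤ K' * tw (t - s) ^ 2) (k : ℕ) :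
    ∀ s t, a ≤ s → s ≤ t → t ≤ b →
      |R s t| ≤ (5 * K + K' * (4 / 5) ^ k) * tw (t - s) ^ 2 + (2 ^ k - 1) * ε := by
  induction k with
  | zero =>
    intro s t hs hst ht
    have h := h2 s t hs hst ht
    have h0 : 0 ≤ K * tw (t - s) ^ 2 := mul_nonneg hK (sq_nonneg _)
    simp only [pow_zero, mul_one, sub_self, zero_mul, add_zero]
    nlinarith
  | succ k ih =>
    intro s t hs hst ht
    have hd := h1 s t hs hst ht
    have hl := ih s ((s + t) / 2) hs (by linarith) (by linarith)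
    have hr := ih ((s + t) / 2) t (by linarith) (by linarith) ht
    rw [show (s + t) / 2 - s = (t - s) / 2 by ring] at hl
    rw [show t - (s + t) / 2 = (t - s) / 2 by ring] at hr
    have hh := tw_half (r := t - s) (by linarith)
    have hc : 0 ≤ 5 * K + K' * (4 / 5) ^ k := by positivity
    have hm := mul_le_mul_of_nonneg_left hh hc
    have htri : |R s t| ≤ |R s t - R s ((s + t) / 2) - R ((s + t) / 2) t| + |R s ((s + t) / 2)|
        + |R ((s + t) / 2) t| := by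
      have e : R s t = (R s t - R s ((s + t) / 2) - R ((s + t) / 2) t) + R s ((s + t) / 2)
          + R ((s + t) / 2) t := by ring
      calc |R s t| = |(R s t - R s ((s + t) / 2) - R ((s + t) / 2) t) + R s ((s + t) / 2)
          + R ((s + t) / 2) t| := by rw [← e]
        _ ≤ _ := abs_add_three _ _ _
    have e2 : (5 * K + K' * (4 / 5) ^ (k + 1)) * tw (t - s) ^ 2 + (2 ^ (k + 1) - 1) * ε =
        K * tw (t - s) ^ 2 + ε + (5 * K + K' * (4 / 5) ^ k) * (4 / 5 * tw (t - s) ^ 2)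
          + 2 * ((2 ^ k - 1) * ε) := by ring
    rw [e2]
    linarith

theorem sew {R : ℝ → ℝ → ℝ} {a b K : ℝ} (hK : 0 ≤ K)
    (h1 : ∀ s t, a ≤ s → s ≤ t → t ≤ b →
      |R s t - R s ((s + t) / 2) - R ((s + t) / 2) t| ≤ K * tw (t - s) ^ 2)
    (h2 : ∃ K', ∀ s t, a ≤ s → s ≤ t → t ≤ b → |R s t| ≤ K' * tw (t - s) ^ 2) :
    ∀ s t, a ≤ s → s ≤ t → t ≤ b → |R s t| ≤ 5 * K * tw (t - s) ^ 2 := by
  obtain ⟨K', hK'⟩ := h2
  intro s t hs hst ht
  have h2' : ∀ s t, a ≤ s → s ≤ t → t ≤ b → |R s t| ≤ max K' 0 * tw (t - s) ^ 2 :=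
    fun s t hs hst ht => (hK' s t hs hst ht).trans
      (mul_le_mul_of_nonneg_right (le_max_left _ _) (sq_nonneg _))
  have hk : ∀ k : ℕ, |R s t| ≤ (5 * K + max K' 0 * (4 / 5) ^ k) * tw (t - s) ^ 2 := fun k => by
    have := sew_k (ε := 0) hK (le_max_right K' 0) le_rfl
      (fun s t hs hst ht => by simpa using h1 s t hs hst ht) h2' k s t hs hst ht
    simpa using this
  have hp : Tendsto (fun k : ℕ => (4 / 5 : ℝ) ^ k) atTop (𝓝 0) :=
    tendsto_pow_atTop_nhds_zero_of_lt_one (by norm_num) (by norm_num)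
  have hl : Tendsto (fun k : ℕ => (5 * K + max K' 0 * (4 / 5) ^ k) * tw (t - s) ^ 2) atTop
      (𝓝 ((5 * K + max K' 0 * 0) * tw (t - s) ^ 2)) :=
    ((hp.const_mul _).const_add _).mul_const _
  have := ge_of_tendsto' hl hk
  simpa using this

theorem sew_small (K l : ℝ) {θ : ℝ} (hθ : 0 < θ) : ∃ ε > 0, ∀ (R : ℝ → ℝ → ℝ) (a b : ℝ), a ≤ b →
    b - a ≤ l → (∀ s t, a ≤ s → s ≤ t → t ≤ b →
      |R s t - R s ((s + t) / 2) - R ((s + t) / 2) t| ≤ ε) →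
    (∀ s t, a ≤ s → s ≤ t → t ≤ b → |R s t| ≤ K * tw (t - s) ^ 2) → |R a b| ≤ θ := by
  have hp : Tendsto (fun k : ℕ => (4 / 5 : ℝ) ^ k) atTop (𝓝 0) :=
    tendsto_pow_atTop_nhds_zero_of_lt_one (by norm_num) (by norm_num)
  have hl : Tendsto (fun k : ℕ => max K 0 * (4 / 5) ^ k * tw (max l 0) ^ 2) atTop
      (𝓝 (max K 0 * 0 * tw (max l 0) ^ 2)) := (hp.const_mul _).mul_const _
  rw [mul_zero, zero_mul] at hl
  obtain ⟨k, hk⟩ := (hl.eventually (gt_mem_nhds (half_pos hθ))).exists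
  have h2k : (0 : ℝ) < 2 ^ k := by positivity
  refine ⟨θ / (2 * 2 ^ k), by positivity, fun R a b hab hbl h1 h2 => ?_⟩
  have h2' : ∀ s t, a ≤ s → s ≤ t → t ≤ b → |R s t| ≤ max K 0 * tw (t - s) ^ 2 :=
    fun s t hs hst ht => (h2 s t hs hst ht).trans
      (mul_le_mul_of_nonneg_right (le_max_left _ _) (sq_nonneg _))
  have h := sew_k (K := 0) (ε := θ / (2 * 2 ^ k)) le_rfl (le_max_right K 0) (by positivity)
    (fun s t hs hst ht => by simpa using h1 s t hs hst ht) h2' k a b le_rfl hab le_rfl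
  have ht : tw (b - a) ≤ tw (max l 0) := tw_mono (by linarith) (hbl.trans (le_max_left _ _))
  have ht2 : tw (b - a) ^ 2 ≤ tw (max l 0) ^ 2 :=
    pow_le_pow_left₀ (tw_nonneg (by linarith)) ht 2
  have hc : 0 ≤ max K 0 * (4 / 5 : ℝ) ^ k := mul_nonneg (le_max_right _ _) (by positivity)
  have h3 := mul_le_mul_of_nonneg_left ht2 hc
  have h4 : (2 ^ k - 1) * (θ / (2 * 2 ^ k)) ≤ θ / 2 := by
    have e : (2 ^ k - 1) * (θ / (2 * 2 ^ k)) = θ / 2 - θ / (2 * 2 ^ k) := by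
      field_simp
    have : 0 < θ / (2 * 2 ^ k) := by positivity
    linarith
  rw [mul_zero, zero_add] at h
  linarith

/-- a function with increments of order four thirds is constant -/
theorem eq_of_tw_sq {u : P → ℝ} {c : P} {r K : ℝ}
    (h : ∀ x ∈ sqr c r, ∀ y ∈ sqr c r, |u x - u y| ≤ K * tw (dist x y) ^ 2) {x y : P}
    (hx : x ∈ sqr c r) (hy : y ∈ sqr c r) : u x = u y := by
  have hmem : ∀ s : ℝ, 0 ≤ s → s ≤ 1 → x + s • (y - x) ∈ sqr c r := fun s h0 h1 =>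
    (convex_Icc c (c.1 + r, c.2 + r)).add_smul_sub_mem hx hy ⟨h0, h1⟩
  have hs := sew (R := fun s t => u (x + t • (y - x)) - u (x + s • (y - x))) (a := 0) (b := 1)
    (K := 0) le_rfl (fun s t _ _ _ => by simp)
    ⟨K * tw ‖y - x‖ ^ 2, fun s t hs hst ht => by
      have h0 := h _ (hmem t (by linarith) ht) _ (hmem s hs (by linarith))
      have e : dist (x + t • (y - x)) (x + s • (y - x)) = (t - s) * ‖y - x‖ := by
        rw [dist_eq_norm, add_sub_add_left_eq_sub, ← sub_smul, norm_smul, Real.norm_eq_abs,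
          abs_of_nonneg (by linarith)]
      rw [e, tw_mul (by linarith) (norm_nonneg _)] at h0
      calc _ ≤ _ := h0
        _ = _ := by ring⟩ 0 1 le_rfl zero_le_one le_rfl
  simp only [one_smul, zero_smul, add_zero, add_sub_cancel, mul_zero, zero_mul] at hs
  have := abs_nonpos_iff.1 hs
  linarith

theorem Dy.pos {c : P} {r : ℝ} (h : Dy c r) : 0 < r := by
  induction h <;> positivity
theorem Dy.le_one {c : P} {r : ℝ} (h : Dy c r) : r ≤ 1 := by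
  induction h with
  | base => exact le_rfl
  | c00 h ih => linarith
  | c10 h ih => linarith
  | c01 h ih => linarith
  | c11 h ih => linarith
theorem Dy.sub {c : P} {r : ℝ} (h : Dy c r) : sqr c r ⊆ sqr 0 1 := by
  induction h with
  | base => exact Subset.rfl
  | c00 h ih =>
    refine Subset.trans (fun x hx => ?_) ih
    have := h.pos
    rw [mem_sqr] at hx ⊢
    obtain ⟨⟨h1, h2⟩, h3, h4⟩ := hx
    exact ⟨⟨by linarith, by linarith⟩, by linarith, by linarith⟩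
  | c10 h ih =>
    refine Subset.trans (fun x hx => ?_) ih
    have := h.pos
    rw [mem_sqr] at hx ⊢
    obtain ⟨⟨h1, h2⟩, h3, h4⟩ := hx
    dsimp only at h1 h2 h3 h4
    exact ⟨⟨by linarith, by linarith⟩, by linarith, by linarith⟩
  | c01 h ih =>
    refine Subset.trans (fun x hx => ?_) ih
    have := h.pos
    rw [mem_sqr] at hx ⊢
    obtain ⟨⟨h1, h2⟩, h3, h4⟩ := hx
    dsimp only at h1 h2 h3 h4
    exact ⟨⟨by linarith, by linarith⟩, by linarith, by linarith⟩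
  | c11 h ih =>
    refine Subset.trans (fun x hx => ?_) ih
    have := h.pos
    rw [mem_sqr] at hx ⊢
    obtain ⟨⟨h1, h2⟩, h3, h4⟩ := hx
    dsimp only at h1 h2 h3 h4
    exact ⟨⟨by linarith, by linarith⟩, by linarith, by linarith⟩
theorem Dy.exists_small {c : P} {r : ℝ} (h : Dy c r) {x : P} (hx : x ∈ sqr c r) {ε : ℝ}
    (hε : 0 < ε) : ∃ c' r', Dy c' r' ∧ r' < ε ∧ x ∈ sqr c' r' ∧ sqr c' r' ⊆ sqr c r := by
  have step : ∀ (c : P) (r : ℝ), Dy c r → x ∈ sqr c r →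
      ∃ c', Dy c' (r / 2) ∧ x ∈ sqr c' (r / 2) ∧ sqr c' (r / 2) ⊆ sqr c r := by
    intro c r h hx
    have hr := h.pos
    obtain ⟨⟨h1, h2⟩, h3, h4⟩ := mem_sqr.1 hx
    have sub : ∀ c' : P, c.1 ≤ c'.1 → c'.1 ≤ c.1 + r / 2 → c.2 ≤ c'.2 → c'.2 ≤ c.2 + r / 2 →
        sqr c' (r / 2) ⊆ sqr c r := fun c' a1 a2 a3 a4 y hy => by
      rw [mem_sqr] at hy ⊢
      obtain ⟨⟨b1, b2⟩, b3, b4⟩ := hy
      exact ⟨⟨by linarith, by linarith⟩, by linarith, by linarith⟩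
    rcases le_total x.1 (c.1 + r / 2) with e1 | e1 <;>
      rcases le_total x.2 (c.2 + r / 2) with e2 | e2
    · exact ⟨c, h.c00, mem_sqr.2 ⟨⟨h1, e1⟩, h3, e2⟩,
        sub _ le_rfl (by linarith) le_rfl (by linarith)⟩
    · exact ⟨_, h.c01, mem_sqr.2 ⟨⟨h1, e1⟩, e2, by dsimp only; linarith⟩,
        sub _ le_rfl (by dsimp only; linarith) (by dsimp only; linarith) le_rfl⟩
    · exact ⟨_, h.c10, mem_sqr.2 ⟨⟨e1, by dsimp only; linarith⟩, h3, e2⟩,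
        sub _ (by dsimp only; linarith) le_rfl le_rfl (by dsimp only; linarith)⟩
    · exact ⟨_, h.c11, mem_sqr.2 ⟨⟨e1, by dsimp only; linarith⟩, e2, by dsimp only; linarith⟩,
        sub _ (by dsimp only; linarith) le_rfl (by dsimp only; linarith) le_rfl⟩
  have all : ∀ n : ℕ, ∃ c', Dy c' (r * (1 / 2) ^ n) ∧ x ∈ sqr c' (r * (1 / 2) ^ n) ∧
      sqr c' (r * (1 / 2) ^ n) ⊆ sqr c r := by
    intro n
    induction n with
    | zero => exact ⟨c, by simpa using h, by simpa using hx, by simp⟩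
    | succ n ih =>
      obtain ⟨c1, d1, m1, s1⟩ := ih
      obtain ⟨c2, d2, m2, s2⟩ := step _ _ d1 m1
      have e : r * (1 / 2) ^ (n + 1) = r * (1 / 2) ^ n / 2 := by ring
      rw [e]
      exact ⟨c2, d2, m2, s2.trans s1⟩
  obtain ⟨n, hn⟩ := exists_pow_lt_of_lt_one hε (by norm_num : (1 / 2 : ℝ) < 1)
  obtain ⟨c', d, m, s⟩ := all n
  refine ⟨c', _, d, ?_, m, s⟩
  have h1 := h.le_one
  have h2 : (0 : ℝ) < (1 / 2) ^ n := by positivity
  nlinarith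
theorem Dy.countable : {p : P × ℝ | Dy p.1 p.2}.Countable := by
  have key : ∀ (c : P) (r : ℝ), Dy c r → ∃ q : ℚ × ℚ × ℚ,
      (q.1 : ℝ) = c.1 ∧ (q.2.1 : ℝ) = c.2 ∧ (q.2.2 : ℝ) = r := by
    intro c r h
    induction h with
    | base => exact ⟨(0, 0, 1), by simp, by simp, by simp⟩
    | c00 h ih =>
      obtain ⟨q, h1, h2, h3⟩ := ih
      exact ⟨(q.1, q.2.1, q.2.2 / 2), h1, h2, by push_cast; rw [h3]⟩
    | c10 h ih =>
      obtain ⟨q, h1, h2, h3⟩ := ih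
      exact ⟨(q.1 + q.2.2 / 2, q.2.1, q.2.2 / 2), by push_cast; rw [h1, h3], h2,
        by push_cast; rw [h3]⟩
    | c01 h ih =>
      obtain ⟨q, h1, h2, h3⟩ := ih
      exact ⟨(q.1, q.2.1 + q.2.2 / 2, q.2.2 / 2), h1, by push_cast; rw [h2, h3],
        by push_cast; rw [h3]⟩
    | c11 h ih =>
      obtain ⟨q, h1, h2, h3⟩ := ih
      exact ⟨(q.1 + q.2.2 / 2, q.2.1 + q.2.2 / 2, q.2.2 / 2), by push_cast; rw [h1, h3],
        by push_cast; rw [h2, h3], by push_cast; rw [h3]⟩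
  refine (countable_range fun q : ℚ × ℚ × ℚ =>
    ((((q.1 : ℝ), (q.2.1 : ℝ)), (q.2.2 : ℝ)) : P × ℝ)).mono fun p hp => ?_
  obtain ⟨q, h1, h2, h3⟩ := key _ _ hp
  exact ⟨q, Prod.ext (Prod.ext h1 h2) h3⟩

/-- an additive function of dyadic squares which is small is zero -/
theorem sew2 {R : P → ℝ → ℝ} {K : ℝ} (ha : ∀ c r, Dy c r → Add4 R c r)
    (hb : ∀ c r, Dy c r → |R c r| ≤ K * tw r ^ 4) : ∀ c r, Dy c r → R c r = 0 := by
  have hk : ∀ (k : ℕ) (c : P) (r : ℝ), Dy c r → |R c r| ≤ |K| * (16 / 25) ^ k * tw r ^ 4 := by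
    intro k
    induction k with
    | zero =>
      intro c r h
      rw [pow_zero, mul_one]
      exact (hb c r h).trans (mul_le_mul_of_nonneg_right (le_abs_self _) (by positivity))
    | succ k ih =>
      intro c r h
      have e := ha c r h
      unfold Add4 at e
      have a1 := abs_le.1 (ih _ _ h.c00)
      have a2 := abs_le.1 (ih _ _ h.c10)
      have a3 := abs_le.1 (ih _ _ h.c01)
      have a4 := abs_le.1 (ih _ _ h.c11)
      have hh := tw_half h.pos.le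
      have h4 : 4 * tw (r / 2) ^ 4 ≤ 16 / 25 * tw r ^ 4 := by
        have := pow_le_pow_left₀ (by positivity) hh 2
        calc 4 * tw (r / 2) ^ 4 = (2 * tw (r / 2) ^ 2) ^ 2 := by ring
          _ ≤ _ := this
          _ = _ := by ring
      have hc : 0 ≤ |K| * (16 / 25 : ℝ) ^ k := by positivity
      have h5 := mul_le_mul_of_nonneg_left h4 hc
      have e2 : |K| * (16 / 25) ^ (k + 1) * tw r ^ 4 =
          |K| * (16 / 25) ^ k * (16 / 25 * tw r ^ 4) := by ring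
      rw [e2, e, abs_le]
      constructor <;> linarith [a1.1, a1.2, a2.1, a2.2, a3.1, a3.2, a4.1, a4.2]
  intro c r h
  have hp : Tendsto (fun k : ℕ => (16 / 25 : ℝ) ^ k) atTop (𝓝 0) :=
    tendsto_pow_atTop_nhds_zero_of_lt_one (by norm_num) (by norm_num)
  have hl : Tendsto (fun k : ℕ => |K| * (16 / 25) ^ k * tw r ^ 4) atTop
      (𝓝 (|K| * 0 * tw r ^ 4)) := (hp.const_mul _).mul_const _
  rw [mul_zero, zero_mul] at hl
  exact abs_nonpos_iff.1 (ge_of_tendsto' hl fun k => hk k c r h)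

theorem endsew_four {e1 e2 e3 e4 f1 f2 f3 f4 d1 d2 s A : ℝ}
    (he : e1 + e2 + e3 + e4 = d1 * (4 * s)) (hf : f1 + f2 + f3 + f4 = d2 * (4 * s))
    (h1 : e1 ^ 2 + f1 ^ 2 ≤ (A * s) ^ 2) (h2 : e2 ^ 2 + f2 ^ 2 ≤ (A * s) ^ 2)
    (h3 : e3 ^ 2 + f3 ^ 2 ≤ (A * s) ^ 2) (h4 : e4 ^ 2 + f4 ^ 2 ≤ (A * s) ^ 2)
    (hd : d1 ^ 2 + d2 ^ 2 = A ^ 2) :
    (e1 = d1 * s ∧ f1 = d2 * s) ∧ (e2 = d1 * s ∧ f2 = d2 * s) ∧ (e3 = d1 * s ∧ f3 = d2 * s) ∧
      (e4 = d1 * s ∧ f4 = d2 * s) := by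
  have key : (e1 - d1 * s) ^ 2 + (f1 - d2 * s) ^ 2 + (e2 - d1 * s) ^ 2 + (f2 - d2 * s) ^ 2
      + (e3 - d1 * s) ^ 2 + (f3 - d2 * s) ^ 2 + (e4 - d1 * s) ^ 2 + (f4 - d2 * s) ^ 2 =
      (e1 ^ 2 + f1 ^ 2) + (e2 ^ 2 + f2 ^ 2) + (e3 ^ 2 + f3 ^ 2) + (e4 ^ 2 + f4 ^ 2)
        - 4 * (A * s) ^ 2 := by
    linear_combination (-2 * d1 * s) * he + (-2 * d2 * s) * hf + (-4 * s ^ 2) * hd
  have z : ∀ x y : ℝ, (x - y) ^ 2 ≤ 0 → x = y := fun x y h =>
    sub_eq_zero.1 (pow_eq_zero_iff two_ne_zero |>.1 (le_antisymm h (sq_nonneg _)))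
  have p1 := sq_nonneg (e1 - d1 * s)
  have p2 := sq_nonneg (e2 - d1 * s)
  have p3 := sq_nonneg (e3 - d1 * s)
  have p4 := sq_nonneg (e4 - d1 * s)
  have q1 := sq_nonneg (f1 - d2 * s)
  have q2 := sq_nonneg (f2 - d2 * s)
  have q3 := sq_nonneg (f3 - d2 * s)
  have q4 := sq_nonneg (f4 - d2 * s)
  exact ⟨⟨z _ _ (by linarith), z _ _ (by linarith)⟩, ⟨z _ _ (by linarith), z _ _ (by linarith)⟩,
    ⟨z _ _ (by linarith), z _ _ (by linarith)⟩, z _ _ (by linarith), z _ _ (by linarith)⟩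

/-- equality in the Cauchy Schwarz inequality along the dyadic tree -/
theorem const_of_ext {E F : P → ℝ → ℝ} {A : ℝ} (hE : ∀ c r, Dy c r → Add4 E c r)
    (hF : ∀ c r, Dy c r → Add4 F c r)
    (hb : ∀ c r, Dy c r → E c r ^ 2 + F c r ^ 2 ≤ (A * r ^ 2) ^ 2)
    (h1 : E 0 1 ^ 2 + F 0 1 ^ 2 = A ^ 2) :
    ∀ c r, Dy c r → E c r = E 0 1 * r ^ 2 ∧ F c r = F 0 1 * r ^ 2 := by
  have step : ∀ (c : P) (r : ℝ), Dy c r → (E c r = E 0 1 * r ^ 2 ∧ F c r = F 0 1 * r ^ 2) →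
      (E c (r / 2) = E 0 1 * (r / 2) ^ 2 ∧ F c (r / 2) = F 0 1 * (r / 2) ^ 2) ∧
      (E (c.1 + r / 2, c.2) (r / 2) = E 0 1 * (r / 2) ^ 2 ∧
        F (c.1 + r / 2, c.2) (r / 2) = F 0 1 * (r / 2) ^ 2) ∧
      (E (c.1, c.2 + r / 2) (r / 2) = E 0 1 * (r / 2) ^ 2 ∧
        F (c.1, c.2 + r / 2) (r / 2) = F 0 1 * (r / 2) ^ 2) ∧
      (E (c.1 + r / 2, c.2 + r / 2) (r / 2) = E 0 1 * (r / 2) ^ 2 ∧
        F (c.1 + r / 2, c.2 + r / 2) (r / 2) = F 0 1 * (r / 2) ^ 2) := by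
    intro c r h ih
    have e1 := hE c r h
    have e2 := hF c r h
    unfold Add4 at e1 e2
    refine endsew_four (A := A) (s := (r / 2) ^ 2) ?_ ?_ (hb _ _ h.c00) (hb _ _ h.c10)
      (hb _ _ h.c01) (hb _ _ h.c11) h1
    · rw [← e1, ih.1]; ring
    · rw [← e2, ih.2]; ring
  intro c r h
  induction h with
  | base => simp
  | c00 h ih => exact (step _ _ h ih).1
  | c10 h ih => exact (step _ _ h ih).2.1
  | c01 h ih => exact (step _ _ h ih).2.2.1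
  | c11 h ih => exact (step _ _ h ih).2.2.2

theorem endsew_iso1 (k : ℝ) : Isometry fun s : ℝ => ((s, k) : P) :=
  Isometry.of_dist_eq fun s t => by
    rw [Prod.dist_eq, dist_self]; exact max_eq_left dist_nonneg
theorem endsew_iso2 (k : ℝ) : Isometry fun s : ℝ => ((k, s) : P) :=
  Isometry.of_dist_eq fun s t => by
    rw [Prod.dist_eq, dist_self]; exact max_eq_right dist_nonneg

theorem edge_b (c : P) {r : ℝ} (hr : 0 ≤ r) : Edge c r (fun s => (s, c.2)) c.1 := by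
  refine ⟨endsew_iso1 _, fun s hs => ?_⟩
  have hm : ((s, c.2) : P) ∈ sqr c r := mem_sqr.2 ⟨hs, le_rfl, by dsimp only; linarith⟩
  exact ⟨edge_mem_frontier hm (Or.inr (Or.inr (Or.inl rfl))), hm⟩
theorem edge_r (c : P) {r : ℝ} (hr : 0 ≤ r) : Edge c r (fun t => (c.1 + r, t)) c.2 := by
  refine ⟨endsew_iso2 _, fun s hs => ?_⟩
  have hm : ((c.1 + r, s) : P) ∈ sqr c r := mem_sqr.2 ⟨⟨by dsimp only; linarith, le_rfl⟩, hs⟩
  exact ⟨edge_mem_frontier hm (Or.inr (Or.inl rfl)), hm⟩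
theorem edge_t (c : P) {r : ℝ} (hr : 0 ≤ r) : Edge c r (fun s => (s, c.2 + r)) c.1 := by
  refine ⟨endsew_iso1 _, fun s hs => ?_⟩
  have hm : ((s, c.2 + r) : P) ∈ sqr c r := mem_sqr.2 ⟨hs, by dsimp only; linarith, le_rfl⟩
  exact ⟨edge_mem_frontier hm (Or.inr (Or.inr (Or.inr rfl))), hm⟩
theorem edge_l (c : P) {r : ℝ} (hr : 0 ≤ r) : Edge c r (fun t => (c.1, t)) c.2 := by
  refine ⟨endsew_iso2 _, fun s hs => ?_⟩
  have hm : ((c.1, s) : P) ∈ sqr c r := mem_sqr.2 ⟨⟨le_rfl, by dsimp only; linarith⟩, hs⟩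
  exact ⟨edge_mem_frontier hm (Or.inl rfl), hm⟩
theorem Edge.ho {c : P} {r a M : ℝ} {γ : ℝ → P} (e : Edge c r γ a) {u : P → ℝ}
    (h : Ho u (sqr c r) M) : Ho (fun s => u (γ s)) (Icc a (a + r)) M := by
  intro s hs t ht
  have := h _ (e.2 s hs).2 _ (e.2 t ht).2
  rwa [e.1.dist_eq] at this
theorem vol_sqr_ball {c x : P} {r ε : ℝ} (hr : 0 < r) (hε : 0 < ε) (hx : x ∈ sqr c r) :
    volume (sqr c r ∩ ball x ε) ≠ 0 := by
  obtain ⟨⟨h1, h2⟩, h3, h4⟩ := mem_sqr.1 hx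
  have ho : IsOpen (Ioo (max c.1 (x.1 - ε)) (min (c.1 + r) (x.1 + ε)) ×ˢ
      Ioo (max c.2 (x.2 - ε)) (min (c.2 + r) (x.2 + ε)) : Set P) := isOpen_Ioo.prod isOpen_Ioo
  have hne : (Ioo (max c.1 (x.1 - ε)) (min (c.1 + r) (x.1 + ε)) ×ˢ
      Ioo (max c.2 (x.2 - ε)) (min (c.2 + r) (x.2 + ε)) : Set P).Nonempty := by
    refine Nonempty.prod (nonempty_Ioo.2 ?_) (nonempty_Ioo.2 ?_) <;>
      rw [max_lt_iff, lt_min_iff, lt_min_iff] <;>
      exact ⟨⟨by linarith, by linarith⟩, by linarith, by linarith⟩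
  refine ((ho.measure_pos volume hne).trans_le (measure_mono fun y hy => ?_)).ne'
  obtain ⟨⟨a1, a2⟩, a3, a4⟩ := hy
  rw [max_lt_iff] at a1 a3
  rw [lt_min_iff] at a2 a4
  refine ⟨mem_sqr.2 ⟨⟨a1.1.le, a2.1.le⟩, a3.1.le, a4.1.le⟩, ?_⟩
  rw [mem_ball, Prod.dist_eq, max_lt_iff, Real.dist_eq, Real.dist_eq, abs_lt, abs_lt]
  exact ⟨⟨by linarith [a1.2], by linarith [a2.2]⟩, by linarith [a3.2], by linarith [a4.2]⟩

end Pool.Agent.Bor
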