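import Pool.Agent.P.MP_26ecb7_gt.EndYs
import Pool.Agent.P.MP_26ecb7_gt.EndMol
import Pool.Agent.P.MP_26ecb7_gt.EndSew
import Pool.Agent.P.MP_26ecb7_gt.Dens

noncomputable section
open Set Filter Topology MeasureTheory Metric
open scoped RealInnerProductSpace ContDiff ENNReal

namespace Pool.Agent.Bor

theorem enddeg_appr {a b : P → ℝ} (ha : Hb a) (hb : Hb b) : ∃ (p : ℕ → P → P) (M : ℝ),
    (∀ n, ContDiff ℝ ∞ (p n)) ∧ TendstoUniformly p (fun x => (a x, b x)) atTop ∧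
    ∀ n x y, dist (p n x) (p n y) ≤ M * tw (dist x y) := by
  obtain ⟨M, hM, -, -, h1, h2⟩ := ha.two hb
  obtain ⟨U, hU1, hU2, hU3⟩ := exists_moll hM h1
  obtain ⟨V, hV1, hV2, hV3⟩ := exists_moll hM h2
  refine ⟨fun n x => (U n x, V n x), M, fun n => (hU1 n).prodMk (hV1 n), ?_, fun n x y => ?_⟩
  · rw [Metric.tendstoUniformly_iff] at hU3 hV3 ⊢
    intro ε hε
    filter_upwards [hU3 ε hε, hV3 ε hε] with n h3 h4 x
    rw [Prod.dist_eq]
    exact max_lt (h3 x) (h4 x)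
  · rw [Prod.dist_eq (x := (U n x, V n x))]
    exact max_le (hU2 n x (mem_univ _) y (mem_univ _)) (hV2 n x (mem_univ _) y (mem_univ _))

theorem enddeg_tend {a b : P → ℝ} {A : ℝ} (D : Jd a b A) {c : P} {r : ℝ} (h : Dy c r)
    {p : ℕ → P → P} {M : ℝ} (hp : ∀ n, ContDiff ℝ ∞ (p n))
    (hu : TendstoUniformly p (fun x => (a x, b x)) atTop)
    (hM : ∀ n x y, dist (p n x) (p n y) ≤ M * tw (dist x y)) {δ : ℝ} (hδ : 0 < δ) (z : P) :
    Tendsto (fun n => wind δ z c r (p n)) atTop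
      (𝓝 (A * ∫ x in sqr c r, th δ ((a x, b x) - z))) := by
  have hc : Continuous fun x => ((a x, b x) : P) := D.ha.continuous.prodMk D.hb.continuous
  have h1 := (lp_tendsto_comp (M := M) (c := c) h.pos hp D.ha D.hb hu.tendstoUniformlyOn
    (Eventually.of_forall fun n x _ y _ => hM n x y) (contDiff_t1 hδ z)).1
  have h2 := (lp_tendsto_comp (M := M) (c := c) h.pos hp D.ha D.hb hu.tendstoUniformlyOn
    (Eventually.of_forall fun n x _ y _ => hM n x y) (contDiff_t2 hδ z)).2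
  rw [D.j0 _ (contDiff_t1 hδ z) c r h] at h1
  rw [D.j1 _ (contDiff_t2 hδ z) c r h] at h2
  have hi : ∀ {T : P → ℝ}, ContDiff ℝ ∞ T → ∀ i,
      IntegrableOn (fun x => pd i T (a x, b x)) (sqr c r) := fun hT i =>
    ContinuousOn.integrableOn_compact (sqr_compact c r) ((dens_pd hT i).comp hc).continuousOn
  have h3 := h1.add h2
  rw [neg_mul, ← sub_eq_add_neg, ← mul_sub,
    ← integral_sub (hi (contDiff_t1 hδ z) 0) (hi (contDiff_t2 hδ z) 1)] at h3
  have e : (fun x => pd 0 (t1 δ z) (a x, b x) - pd 1 (t2 δ z) (a x, b x))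
      = fun x => th δ ((a x, b x) - z) := by
    funext x
    exact div_t hδ z _
  rw [e] at h3
  exact h3

/-- the local degree -/
theorem Jd.deg {a b : P → ℝ} {A : ℝ} (D : Jd a b A) {c z0 : P} {r : ℝ} (h : Dy c r)
    (hz : ∀ x ∈ frontier (sqr c r), ((a x, b x) : P) ≠ z0) : ∃ ρ > 0, ∃ m : ℤ,
      (∀ x ∈ frontier (sqr c r), ρ ≤ dist ((a x, b x) : P) z0) ∧
      (∀ δ, 0 < δ → δ < ρ → ∀ z ∈ ball z0 ρ, A * ∫ x in sqr c r, th δ ((a x, b x) - z) = m) ∧
      ((∃ x ∈ sqr c r, ((a x, b x) : P) = z0) → 1 ≤ m) := by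
  obtain ⟨p, M, hp, hu, hM⟩ := enddeg_appr D.ha D.hb
  have tend := fun {δ : ℝ} (hδ : 0 < δ) (z : P) => enddeg_tend D h hp hu hM hδ z
  set q : P → P := fun x => (a x, b x) with hqd
  have hqc : Continuous q := D.ha.continuous.prodMk D.hb.continuous
  set Q := sqr c r with hQ
  have hc : IsCompact Q := sqr_compact c r
  have hm : MeasurableSet Q := hc.measurableSet
  have hfQ : frontier Q ⊆ Q := hc.isClosed.frontier_subset
  have hcl : IsClosed (q '' frontier Q) :=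
    ((hc.of_isClosed_subset isClosed_frontier hfQ).image hqc).isClosed
  have hy : z0 ∉ q '' frontier Q := by
    rintro ⟨x, hx, e⟩
    exact hz x hx e
  obtain ⟨ρ0, hρ0, hb⟩ := Metric.isOpen_iff.1 hcl.isOpen_compl _ hy
  have hfar : ∀ x ∈ frontier Q, ρ0 ≤ dist (q x) z0 := fun x hx' =>
    not_lt.1 fun h => hb (mem_ball.2 h) ⟨x, hx', rfl⟩
  set ρ := ρ0 / 4 with hρ
  have hρp : 0 < ρ := by positivity
  have hfin : IsFiniteMeasure (volume.restrict Q) :=
    isFiniteMeasure_restrict.2 hc.measure_lt_top.ne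
  set ν : Measure P := (volume.restrict Q).map q with hν
  have hint : ∀ δ z, ∫ y, th δ (y - z) ∂ν = ∫ x in Q, th δ (q x - z) := by
    intro δ z
    have hct : Continuous fun y => th δ (y - z) :=
      (continuous_th δ).comp (continuous_id.sub continuous_const)
    rw [hν, integral_map hqc.aemeasurable hct.aestronglyMeasurable]
  have hev : ∀ z ∈ ball z0 ρ, ∀ᶠ n in atTop, ∀ x ∈ frontier Q, ρ ≤ dist (p n x) z := by
    intro z hz
    filter_upwards [Metric.tendstoUniformly_iff.1 hu ρ hρp] with n hn x hx'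
    have a1 := hn x
    have a2 := hfar x hx'
    have a3 := dist_triangle4 (q x) (p n x) z z0
    have a4 := mem_ball.1 hz
    linarith
  have hZ : ∀ δ, 0 < δ → δ ≤ ρ → ∀ z ∈ ball z0 ρ,
      A * ∫ y, th δ (y - z) ∂ν ∈ range ((↑) : ℤ → ℝ) := by
    intro δ hδ hδ' z hz
    rw [hint]
    refine Int.isClosedEmbedding_coe_real.isClosed_range.mem_of_tendsto (tend hδ z) ?_
    filter_upwards [hev z hz] with n hn
    obtain ⟨m, hm⟩ := wind_int hδ h.pos (hp n) fun x hx' => hδ'.trans (hn x hx')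
    exact ⟨m, hm.symm⟩
  have hI : ∀ δ, 0 < δ → δ ≤ ρ → ∀ z ∈ ball z0 ρ,
      A * ∫ y, th δ (y - z) ∂ν = A * ∫ y, th ρ (y - z) ∂ν := by
    intro δ hδ hδ' z hz
    rw [hint, hint]
    refine tendsto_nhds_unique_of_eventuallyEq (tend hδ z) (tend hρp z) ?_
    filter_upwards [hev z hz] with n hn
    exact wind_indep hδ hρp h.pos (fun x hx' => hδ'.trans (hn x hx')) hn
  obtain ⟨m, hm0⟩ := hZ ρ hρp le_rfl _ (mem_ball_self hρp)
  have hconst : ∀ δ, 0 < δ → δ < ρ → ∀ z ∈ ball z0 ρ, A * ∫ y, th δ (y - z) ∂ν = m := by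
    intro δ hδ hδ' z hz
    rw [hI δ hδ hδ'.le z hz, hm0]
    exact (convex_ball z0 ρ).isPreconnected.constant_of_mapsTo
      (f := fun z => A * ∫ y, th ρ (y - z) ∂ν)
      Int.isClosedEmbedding_coe_real.isInducing.isDiscrete_range
      (continuous_const.mul (dens_cont hρp)).continuousOn
      (fun z hz => hZ ρ hρp le_rfl z hz) hz (mem_ball_self hρp)
  refine ⟨ρ, hρp, m, fun x hx => le_trans (by linarith) (hfar x hx), fun δ hδ hδ' z hz => ?_, ?_⟩
  · rw [← hconst δ hδ hδ' z hz, hint]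
  · rintro ⟨x0, hx0, e⟩
    have hA := D.pos
    have hconst' : ∀ δ, 0 < δ → δ < ρ → ∀ z ∈ ball z0 ρ, ∫ y, th δ (y - z) ∂ν = m / A := by
      intro δ hδ hδ' z hz
      rw [eq_div_iff hA.ne', mul_comm]
      exact hconst δ hδ hδ' z hz
    have hpos : (0 : ℝ) < m / A := by
      refine (le_of_kernel hρp hconst').1 fun h0 => ?_
      rw [hν, Measure.map_apply hqc.measurable measurableSet_ball, Measure.restrict_apply' hm] at h0
      have h2 : q ⁻¹' ball z0 (ρ / 4) ∈ 𝓝 x0 := by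
        refine hqc.continuousAt.preimage_mem_nhds ?_
        rw [show q x0 = z0 from e]
        exact ball_mem_nhds _ (by positivity)
      obtain ⟨ε, hε, hs⟩ := Metric.mem_nhds_iff.1 h2
      refine vol_sqr_ball h.pos hε hx0 (measure_mono_null ?_ h0)
      exact fun y hy => ⟨hs hy.2, hy.1⟩
    have h3 : (0 : ℝ) < m := (div_pos_iff_of_pos_right hA).1 hpos
    have h4 : 0 < m := by exact_mod_cast h3
    exact h4

end Pool.Agent.Bor
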