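import Pool.Agent.P.MP_26ecb7_gt.EndAc
import Pool.Agent.P.MP_26ecb7_gt.EndDeg
import Pool.Agent.P.MP_26ecb7_gt.EndMol
import Pool.Agent.P.MP_26ecb7_gt.EndSew
import Pool.Agent.P.MP_26ecb7_gt.Young
import Pool.Agent.P.MP_26ecb7_gt.Kern

noncomputable section
open Set Filter Topology MeasureTheory Metric
open scoped RealInnerProductSpace ContDiff ENNReal

namespace Pool.Agent.Bor

variable {a b : P → ℝ} {A : ℝ}

theorem Hb.null_frontier (ha : Hb a) (hb : Hb b) (c : P) {r : ℝ} (hr : 0 < r) :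
    volume ((fun x => ((a x, b x) : P)) '' frontier (sqr c r)) = 0 := by
  obtain ⟨M, -, -, hM⟩ := ha.pair hb
  refine Bor.null_frontier (M := M) (a := 2 / 3) hr (by norm_num) fun x _ y _ => ?_
  rw [dist_eq_norm]
  exact hM x y

theorem Jd.nondeg (D : Jd a b A) :
    ∃ x ∈ sqr 0 1, ∀ y ∈ frontier (sqr 0 1), ((a y, b y) : P) ≠ (a x, b x) := by
  by_contra hcon
  push Not at hcon
  have hc : Continuous fun x => ((a x, b x) : P) := D.ha.continuous.prodMk D.hb.continuous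
  have hK : IsCompact ((fun x => ((a x, b x) : P)) '' frontier (sqr 0 1)) :=
    ((sqr_compact 0 1).of_isClosed_subset isClosed_frontier
      (sqr_compact 0 1).isClosed.frontier_subset).image hc
  obtain ⟨ε, hε, hac⟩ := yl_ac D.ha D.hb 0 one_pos (half_pos D.pos)
  obtain ⟨φ, p1, p2, p3, p4, p5⟩ := exists_thin hK (D.ha.null_frontier D.hb 0 one_pos) hε
  obtain ⟨T, t1, t2⟩ := exists_pd0 p1 p2
  have e : pd 0 T = φ := funext t2
  have h1 := hac T t1 (fun y => by rw [e, abs_of_nonneg (p3 y).1]; exact (p3 y).2)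
    (by rw [e]; exact p1.continuous.integrable_of_hasCompactSupport p2)
    (by
      rw [e]
      simpa only [fun y => abs_of_nonneg (p3 y).1] using p5)
  have h2 : ∫ x in sqr 0 1, pd 0 T (a x, b x) = 1 := by
    rw [setIntegral_congr_fun (g := fun _ => (1 : ℝ)) (sqr_compact 0 1).measurableSet]
    · simp [Measure.real, volume_sqr]
    · intro x hx
      obtain ⟨y, hy, hyx⟩ := hcon x hx
      exact (t2 _).trans (p4 _ ⟨y, hy, hyx⟩)
  rw [D.j0 T t1 0 1 Dy.base, h2, mul_one, abs_of_pos D.pos] at h1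
  linarith [D.pos]

/-- on a square of minimal degree almost every value near a value is taken once -/
theorem Jd.inj (D : Jd a b A) : ∃ c r, Dy c r ∧ ∃ x0 ∈ sqr c r, ∃ ρ > 0,
    (∀ x ∈ frontier (sqr c r), ρ ≤ dist ((a x, b x) : P) (a x0, b x0)) ∧
    ∃ Z : Set P, volume Z = 0 ∧ ∀ x ∈ sqr c r, ∀ x' ∈ sqr c r,
      ((a x, b x) : P) ∈ ball ((a x0, b x0) : P) ρ → ((a x, b x) : P) ∉ Z →
      ((a x', b x') : P) = (a x, b x) → x' = x := by
  have hc : Continuous fun x => ((a x, b x) : P) := D.ha.continuous.prodMk D.hb.continuous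
  obtain ⟨m, ⟨hm1, c, r, x0, ρ, hV, hx0, hρ, hfr, hdeg⟩, hmin⟩ := Int.exists_least_of_bdd
    (P := fun m : ℤ => 1 ≤ m ∧ ∃ (c : P) (r : ℝ) (x0 : P) (ρ : ℝ), Dy c r ∧ x0 ∈ sqr c r ∧ 0 < ρ ∧
      (∀ x ∈ frontier (sqr c r), ρ ≤ dist ((a x, b x) : P) (a x0, b x0)) ∧
      ∀ δ, 0 < δ → δ < ρ → ∀ z ∈ ball ((a x0, b x0) : P) ρ,
        A * ∫ x in sqr c r, th δ ((a x, b x) - z) = m)
    ⟨1, fun z hz => hz.1⟩ (by
      obtain ⟨x0, hx0, hne⟩ := D.nondeg
      obtain ⟨ρ, hρ, m, d1, d2, d3⟩ := D.deg Dy.base hne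
      exact ⟨m, d3 ⟨x0, hx0, rfl⟩, 0, 1, x0, ρ, Dy.base, hx0, hρ, d1, d2⟩)
  refine ⟨c, r, hV, x0, hx0, ρ, hρ, hfr,
    ⋃ p ∈ {p : P × ℝ | Dy p.1 p.2}, (fun x => ((a x, b x) : P)) '' frontier (sqr p.1 p.2),
    (measure_biUnion_null_iff Dy.countable).2 fun p hp =>
      D.ha.null_frontier D.hb p.1 (Dy.pos hp), fun x hx x' hx' hb hZ he => ?_⟩
  by_contra hne
  have hd : 0 < dist x' x / 2 := half_pos (dist_pos.2 hne)
  have key : ∀ y ∈ sqr c r, ((a y, b y) : P) = (a x, b x) → ∃ c' r', r' < dist x' x / 2 ∧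
      y ∈ sqr c' r' ∧ sqr c' r' ⊆ sqr c r ∧ ∃ ρ' > 0, ∃ m' : ℤ, m ≤ m' ∧ ∀ δ, 0 < δ → δ < ρ' →
        A * ∫ u in sqr c' r', th δ ((a u, b u) - (a x, b x)) = m' := fun y hy hyx => by
    obtain ⟨c', r', a1, a2, a3, a4⟩ := hV.exists_small hy hd
    obtain ⟨ρ', hρ', m', d1, d2, d3⟩ := D.deg (z0 := (a x, b x)) a1 fun u hu hux =>
      hZ (mem_biUnion (x := (c', r')) a1 ⟨u, hu, hux⟩)
    refine ⟨c', r', a2, a3, a4, ρ', hρ', m', hmin m' ⟨d3 ⟨y, a3, hyx⟩, c', r', y, ρ', a1, a3, hρ',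
      ?_, ?_⟩, fun δ h1 h2 => d2 δ h1 h2 _ (mem_ball_self hρ')⟩
    · rw [hyx]; exact d1
    · rw [hyx]; exact d2
  obtain ⟨c1, r1, a1, a2, a3, ρ1, hρ1, m1, a4, a5⟩ := key x hx rfl
  obtain ⟨c2, r2, b1, b2, b3, ρ2, hρ2, m2, b4, b5⟩ := key x' hx' he
  have hdis : Disjoint (sqr c1 r1) (sqr c2 r2) := by
    refine disjoint_left.2 fun y h1 h2 => ?_
    have := dist_triangle x' y x
    linarith [dist_le_of_sqr b2 h2, dist_le_of_sqr h1 a2]
  have hmn : 0 < min ρ (min ρ1 ρ2) := lt_min hρ (lt_min hρ1 hρ2)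
  have hδ : 0 < min ρ (min ρ1 ρ2) / 2 := half_pos hmn
  have hl := half_lt_self hmn
  have e0 := hdeg _ hδ (hl.trans_le (min_le_left _ _)) _ hb
  have e1 := a5 _ hδ (hl.trans_le ((min_le_right _ _).trans (min_le_left _ _)))
  have e2 := b5 _ hδ (hl.trans_le ((min_le_right _ _).trans (min_le_right _ _)))
  generalize min ρ (min ρ1 ρ2) / 2 = δ at hδ e0 e1 e2
  have hf : Continuous fun u => th δ (((a u, b u) : P) - (a x, b x)) :=
    (continuous_th δ).comp (hc.sub continuous_const)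
  have hI : ∀ (c : P) (r : ℝ),
      IntegrableOn (fun u => th δ (((a u, b u) : P) - (a x, b x))) (sqr c r) := fun c r =>
    hf.continuousOn.integrableOn_compact (sqr_compact c r)
  have h1 := setIntegral_union hdis (sqr_compact c2 r2).measurableSet (hI c1 r1) (hI c2 r2)
  have h2 := setIntegral_mono_set (hI c r) (ae_of_all _ fun u => th_nonneg hδ _)
    (union_subset a3 b3).eventuallyLE
  have h3 := mul_le_mul_of_nonneg_left h2 D.pos.le
  rw [h1, mul_add, e0, e1, e2] at h3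
  have h4 : m1 + m2 ≤ m := by exact_mod_cast h3
  omega

end Pool.Agent.Bor
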