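import Pool.Agent.P.MP_26ecb7_gt.EndRect

noncomputable section
open Set Filter Topology MeasureTheory Metric
open scoped RealInnerProductSpace ContDiff ENNReal

namespace Pool.Agent.Bor

theorem endlift_sym {f g : ℝ → ℝ} (hf : Hb f) (hg : Hb g) {M : ℝ} (hM : 0 ≤ M)
    (hf1 : Ho f univ M) (hg1 : Ho g univ M) (a b : ℝ) :
    |yi f g a b - f a * (g b - g a)| ≤ 6 * (M * M) * tw (dist a b) ^ 2 := by
  have hMM : 0 ≤ M * M := mul_nonneg hM hM
  rcases le_total a b with hab | hab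
  · have h := yi_bound hf hg hab hM hM (hf1.mono (subset_univ _) le_rfl)
      (hg1.mono (subset_univ _) le_rfl)
    have hd : dist a b = b - a := by
      rw [Real.dist_eq, abs_sub_comm, abs_of_nonneg (sub_nonneg.2 hab)]
    rw [hd]
    have h2 : 0 ≤ M * M * tw (b - a) ^ 2 := mul_nonneg hMM (sq_nonneg _)
    linarith
  · have h := yi_bound hf hg hab hM hM (hf1.mono (subset_univ _) le_rfl)
      (hg1.mono (subset_univ _) le_rfl)
    have hd : dist a b = a - b := by
      rw [Real.dist_eq, abs_of_nonneg (sub_nonneg.2 hab)]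
    have h1 := hf1 a (mem_univ _) b (mem_univ _)
    have h2 := hg1 a (mem_univ _) b (mem_univ _)
    rw [hd] at h1 h2 ⊢
    have he : yi f g a b - f a * (g b - g a)
        = -(yi f g b a - f b * (g a - g b)) + (f a - f b) * (g a - g b) := by
      unfold yi
      ring
    have h3 : |(f a - f b) * (g a - g b)| ≤ M * M * tw (a - b) ^ 2 := by
      rw [abs_mul]
      calc |f a - f b| * |g a - g b| ≤ (M * tw (a - b)) * (M * tw (a - b)) :=
            mul_le_mul h1 h2 (abs_nonneg _) ((abs_nonneg _).trans h1)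
        _ = M * M * tw (a - b) ^ 2 := by ring
    rw [he]
    have h4 := abs_add_le (-(yi f g b a - f b * (g a - g b))) ((f a - f b) * (g a - g b))
    rw [abs_neg] at h4
    linarith

theorem endlift_isoR (t : ℝ) : Isometry fun u : ℝ => ((u, t) : P) := by
  refine Isometry.of_dist_eq fun a b => ?_
  simp [Prod.dist_eq]

theorem endlift_isoC (s : ℝ) : Isometry fun u : ℝ => ((s, u) : P) := by
  refine Isometry.of_dist_eq fun a b => ?_
  simp [Prod.dist_eq]

theorem endlift_ho {q : P → ℝ} {M : ℝ} (h : Ho q univ M) {γ : ℝ → P} (hγ : Isometry γ) :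
    Ho (fun u => q (γ u)) univ M := by
  intro a _ b _
  have := h (γ a) (mem_univ _) (γ b) (mem_univ _)
  rwa [hγ.dist_eq] at this

/-- the lift before its extension -/
def endliftW (q1 q2 : P → ℝ) (x : P) : ℝ :=
  - yi (fun u => q2 (u, 0)) (fun u => q1 (u, 0)) 0 x.1
    - yi (fun u => q2 (x.1, u)) (fun u => q1 (x.1, u)) 0 x.2

theorem endlift_col (q1 q2 : P → ℝ) (s t t' : ℝ) :
    endliftW q1 q2 (s, t') - endliftW q1 q2 (s, t)
      = - yi (fun u => q2 (s, u)) (fun u => q1 (s, u)) t t' := by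
  have := yi_add3 (fun u => q2 (s, u)) (fun u => q1 (s, u)) 0 t t'
  simp only [endliftW]
  linarith

theorem endlift_row {q1 q2 : P → ℝ} {A : ℝ} (D : Nd q1 q2 A) {s s' t : ℝ}
    (hs : s ∈ Icc (0 : ℝ) 1) (hs' : s' ∈ Icc (0 : ℝ) 1) (ht : t ∈ Icc (0 : ℝ) 1) :
    endliftW q1 q2 (s', t) - endliftW q1 q2 (s, t)
      = - yi (fun u => q2 (u, t)) (fun u => q1 (u, t)) s s' := by
  have h1 := D.rect hs ht
  have h2 := D.rect hs' ht
  have := yi_add3 (fun u => q2 (u, t)) (fun u => q1 (u, t)) 0 s s'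
  simp only [endliftW]
  linarith

theorem endlift_mem {x : P} (hx : x ∈ sqr 0 1) : x.1 ∈ Icc (0 : ℝ) 1 ∧ x.2 ∈ Icc (0 : ℝ) 1 := by
  rw [mem_sqr] at hx
  simpa using hx

theorem endlift_est {q1 q2 : P → ℝ} {A : ℝ} (D : Nd q1 q2 A) {M : ℝ} (hM : 0 ≤ M)
    (h1 : Ho q1 univ M) (h2 : Ho q2 univ M) {x y : P} (hx : x ∈ sqr 0 1) (hy : y ∈ sqr 0 1) :
    |endliftW q1 q2 y - endliftW q1 q2 x + q2 x * (q1 y - q1 x)|
      ≤ 13 * (M * M) * tw (dist x y) ^ 2 := by
  obtain ⟨s, t⟩ := x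
  obtain ⟨s', t'⟩ := y
  obtain ⟨hs, ht⟩ := endlift_mem hx
  obtain ⟨hs', ht'⟩ := endlift_mem hy
  simp only at hs ht hs' ht'
  have hMM : 0 ≤ M * M := mul_nonneg hM hM
  set d := dist ((s, t) : P) (s', t') with hd
  have hd1 : dist s s' ≤ d := by rw [hd, Prod.dist_eq]; exact le_max_left _ _
  have hd2 : dist t t' ≤ d := by rw [hd, Prod.dist_eq]; exact le_max_right _ _
  have hw1 : tw (dist s s') ≤ tw d := tw_mono dist_nonneg hd1
  have hw2 : tw (dist t t') ≤ tw d := tw_mono dist_nonneg hd2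
  have hp1 : 0 ≤ tw (dist s s') := tw_nonneg dist_nonneg
  have hp2 : 0 ≤ tw (dist t t') := tw_nonneg dist_nonneg
  have hq1 : tw (dist s s') ^ 2 ≤ tw d ^ 2 := pow_le_pow_left₀ hp1 hw1 2
  have hq2 : tw (dist t t') ^ 2 ≤ tw d ^ 2 := pow_le_pow_left₀ hp2 hw2 2
  have er := endlift_row D hs hs' ht
  have ec := endlift_col q1 q2 s' t t'
  have br := endlift_sym (D.h2.iso (endlift_isoR t)) (D.h1.iso (endlift_isoR t)) hM
    (endlift_ho h2 (endlift_isoR t)) (endlift_ho h1 (endlift_isoR t)) s s'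
  have bc := endlift_sym (D.h2.iso (endlift_isoC s')) (D.h1.iso (endlift_isoC s')) hM
    (endlift_ho h2 (endlift_isoC s')) (endlift_ho h1 (endlift_isoC s')) t t'
  have b1 := endlift_ho h2 (endlift_isoR t) s (mem_univ _) s' (mem_univ _)
  have b2 := endlift_ho h1 (endlift_isoC s') t' (mem_univ _) t (mem_univ _)
  simp only at br bc b1 b2
  rw [dist_comm t' t] at b2
  have b3 : |(q2 (s, t) - q2 (s', t)) * (q1 (s', t') - q1 (s', t))| ≤ M * M * tw d ^ 2 := by
    rw [abs_mul]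
    calc |q2 (s, t) - q2 (s', t)| * |q1 (s', t') - q1 (s', t)| ≤ (M * tw d) * (M * tw d) :=
          mul_le_mul (b1.trans (mul_le_mul_of_nonneg_left hw1 hM))
            (b2.trans (mul_le_mul_of_nonneg_left hw2 hM)) (abs_nonneg _)
            (mul_nonneg hM (hp1.trans hw1))
      _ = M * M * tw d ^ 2 := by ring
  have he : endliftW q1 q2 (s', t') - endliftW q1 q2 (s, t) + q2 (s, t) * (q1 (s', t') - q1 (s, t))
      = -(yi (fun u => q2 (u, t)) (fun u => q1 (u, t)) s s' - q2 (s, t) * (q1 (s', t) - q1 (s, t)))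
        + -(yi (fun u => q2 (s', u)) (fun u => q1 (s', u)) t t'
          - q2 (s', t) * (q1 (s', t') - q1 (s', t)))
        + (q2 (s, t) - q2 (s', t)) * (q1 (s', t') - q1 (s', t)) := by
    linear_combination er + ec
  rw [he]
  have c1 := mul_le_mul_of_nonneg_left hq1 hMM
  have c2 := mul_le_mul_of_nonneg_left hq2 hMM
  rw [abs_le] at br bc b3 ⊢
  constructor <;> linarith [br.1, br.2, bc.1, bc.2, b3.1, b3.2]

/-- the lift to the Heisenberg group -/
theorem Nd.exists_lift {q1 q2 : P → ℝ} {A : ℝ} (D : Nd q1 q2 A) : ∃ w C, Ld q1 q2 w A C := by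
  obtain ⟨M, hM, -, hb2, h1, h2⟩ := D.h1.two D.h2
  have hMM : 0 ≤ M * M := mul_nonneg hM hM
  have hho : Ho (endliftW q1 q2) (sqr 0 1) (14 * (M * M)) := by
    intro x hx y hy
    have e := endlift_est D hM h1 h2 hy hx
    have e1 := h1 x (mem_univ _) y (mem_univ _)
    rw [dist_comm y x] at e
    have hp : 0 ≤ tw (dist x y) := tw_nonneg dist_nonneg
    have hl : tw (dist x y) ≤ 1 := tw_le_one dist_nonneg (dist_le_of_sqr hx hy)
    have e2 : |q2 y * (q1 x - q1 y)| ≤ M * M * tw (dist x y) := by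
      rw [abs_mul]
      calc |q2 y| * |q1 x - q1 y| ≤ M * (M * tw (dist x y)) :=
            mul_le_mul (hb2 y) e1 (abs_nonneg _) hM
        _ = M * M * tw (dist x y) := by ring
    have e3 : tw (dist x y) ^ 2 ≤ tw (dist x y) := by nlinarith
    have e4 := mul_le_mul_of_nonneg_left e3 hMM
    rw [abs_le] at e e2 ⊢
    constructor <;> linarith [e.1, e.2, e2.1, e2.2]
  obtain ⟨w, hw, hweq⟩ := exists_ext zero_le_one (by positivity) hho
  refine ⟨w, 13 * (M * M), D, hw, by positivity, fun x hx y hy => ?_⟩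
  rw [hweq hx, hweq hy]
  exact endlift_est D hM h1 h2 hx hy

/-- neither coordinate is constant on a dyadic square -/
theorem Nd.not_const {q1 q2 : P → ℝ} {A : ℝ} (D : Nd q1 q2 A) {c : P} {r : ℝ} (h : Dy c r)
    (k : ℝ) : (∃ x ∈ sqr c r, q1 x ≠ k) ∧ ∃ x ∈ sqr c r, q2 x ≠ k := by
  have hr := h.pos
  have hz := D.z1 c r h
  have hpos : 0 < A * r ^ 2 := mul_pos D.pos (pow_pos hr 2)
  have h12 : Hb fun x => q1 x * q2 x := D.h1.mul D.h2
  constructor
  · by_contra hc
    push Not at hc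
    have e1 : yl c r (fun x => q1 x * q2 x) q1 = yl c r (fun x => q1 x * q2 x) (fun _ => k) :=
      yl_congr' h12 D.h1 h12 (Hb.const k) hr (fun _ _ => rfl) hc
    rw [yl_parts h12 (Hb.const k) hr, yl_const k h12 hr] at e1
    linarith
  · by_contra hc
    push Not at hc
    have e1 : yl c r (fun x => q1 x * q2 x) q1 = yl c r (fun x => k * q1 x) q1 :=
      yl_congr' h12 D.h1 (D.h1.const_mul k) D.h1 hr (fun x hx => by rw [hc x hx, mul_comm])
        (fun _ _ => rfl)
    have e2 : yl c r (fun x => (fun s : ℝ => k * s) (q1 x)) q1 = 0 :=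
      yl_chain (contDiff_const.mul contDiff_id) D.h1 hr
    simp only at e2
    linarith

end Pool.Agent.Bor
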