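import Pool.Agent.P.MP_26ecb7_gt.EndMove
import Pool.Agent.P.MP_26ecb7_gt.EndInj
import Pool.Agent.P.MP_26ecb7_gt.EndLift

noncomputable section
open Set Filter Topology MeasureTheory Metric
open scoped RealInnerProductSpace ContDiff ENNReal

namespace Pool.Agent.Bor

/-- two points with different images near the centre have close second coordinates -/
theorem endcone_pair {q1 q2 w : P → ℝ} {A C : ℝ} (D : Ld q1 q2 w A C) {c z0 : P} {r ρ B e : ℝ}
    (h : Dy c r) (hf : ∀ x ∈ frontier (sqr c r), ρ ≤ dist ((q1 x, w x) : P) z0)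
    {Z : Set P} (hZ : volume Z = 0)
    (hinj : ∀ x ∈ sqr c r, ∀ x' ∈ sqr c r, ((q1 x, w x) : P) ∈ ball z0 ρ →
      ((q1 x, w x) : P) ∉ Z → ((q1 x', w x') : P) = (q1 x, w x) → x' = x)
    (hB : ∀ x, |q2 x| ≤ B) (he : 0 < e) {x x' : P} (hx : x ∈ sqr c r) (hx' : x' ∈ sqr c r)
    (hp : dist ((q1 x, w x) : P) z0 < ρ / 4) (hp' : dist ((q1 x', w x') : P) z0 < ρ / 4)
    (h2 : (1 + B) * (3 * e + 3 * |q1 x' - q1 x|) < ρ / 2)
    (hne : ((q1 x, w x) : P) ≠ (q1 x', w x')) :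
    q2 x - q2 x' ≤ C / e * tw (dist x x') ^ 2 := by
  by_contra hlt
  rw [not_le] at hlt
  have hρ : 0 < ρ := by linarith [dist_nonneg (x := ((q1 x, w x) : P)) (y := z0)]
  have h0 : 0 ≤ C / e * tw (dist x x') ^ 2 :=
    mul_nonneg (div_nonneg D.C_nonneg he.le) (sq_nonneg _)
  have hab : q2 x' < q2 x := by linarith
  have hl := D.lift x (h.sub hx) x' (h.sub hx')
  have h1 : |w x' - w x + q2 x * (q1 x' - q1 x)| ≤ e * (q2 x - q2 x') := by
    refine hl.trans ?_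
    have e1 : C * tw (dist x x') ^ 2 = e * (C / e * tw (dist x x') ^ 2) := by
      field_simp
    rw [e1]
    exact mul_le_mul_of_nonneg_left hlt.le he.le
  obtain ⟨s, v, s', u, huv, hvb, hau, hE, hball, hnZ⟩ :=
    cone_meet (p := (q1 x, w x)) (p' := (q1 x', w x')) (z0 := z0) (ρ := ρ) (B := B) (e := e)
      hab ⟨hB x', hB x⟩ hne hp h1 h2 hZ
  have hE' : ((q1 x + s, w x - s * v) : P) = (q1 x' + s', w x' - s' * u) := hE
  have hball' : ((q1 x + s, w x - s * v) : P) ∈ ball z0 ρ := hball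
  have hnZ' : ((q1 x + s, w x - s * v) : P) ∉ Z := hnZ
  have m1 : ((q1 x, w x) : P) ∈ ball z0 ρ := by
    rw [mem_ball]; linarith
  have m2 : ((q1 x', w x') : P) ∈ ball z0 ρ := by
    rw [mem_ball]; linarith
  obtain ⟨y, hy, ey, vy⟩ := (D.move h hf hx m1 hball').1 hvb
  obtain ⟨y', hy', ey', uy⟩ := (D.move h hf hx' m2 (hE' ▸ hball')).2 hau
  have : y' = y := hinj y hy y' hy' (ey ▸ hball') (ey ▸ hnZ') (by rw [ey', ey, hE'])
  rw [this] at uy
  linarith

theorem Ld.false {q1 q2 w : P → ℝ} {A C : ℝ} (D : Ld q1 q2 w A C) : False := by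
  obtain ⟨c, r, hD, x0, hx0, ρ, hρ, hf, Z, hZ, hinj⟩ := D.jd.inj
  obtain ⟨M, hM, -, hh⟩ := D.h1.pair D.hw
  obtain ⟨B, hB0, hB, -⟩ := D.h2
  have hB1 : 0 < 1 + B := by linarith
  have hL : 0 < 3 * (1 + B) * M + 1 := by positivity
  obtain ⟨δ, hδ, hsm⟩ := tw_small (ε := ρ / 4 / (3 * (1 + B) * M + 1)) (by positivity)
  obtain ⟨c', r', hD', hr', hx0', hsub⟩ := hD.exists_small hx0 hδ
  have ht0 : 0 ≤ tw r' := tw_nonneg hD'.pos.le
  have ht : tw r' * (3 * (1 + B) * M + 1) < ρ / 4 := (lt_div_iff₀ hL).mp (hsm r' hD'.pos.le hr')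
  have hMt : 0 ≤ M * tw r' := mul_nonneg hM ht0
  have ht1 : 3 * (1 + B) * (M * tw r') < ρ / 4 := by nlinarith
  have ht2 : M * tw r' < ρ / 4 := by nlinarith
  have hd : ∀ x ∈ sqr c' r', ∀ y ∈ sqr c' r',
      dist ((q1 x, w x) : P) (q1 y, w y) ≤ M * tw r' := by
    intro x hx y hy
    rw [dist_eq_norm]
    exact (hh x y).trans
      (mul_le_mul_of_nonneg_left (tw_mono dist_nonneg (dist_le_of_sqr hx hy)) hM)
  have he : 0 < ρ / (24 * (1 + B)) := by positivity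
  have hA : ∀ x ∈ sqr c' r', ∀ x' ∈ sqr c' r', q1 x ≠ q1 x' →
      q2 x - q2 x' ≤ C / (ρ / (24 * (1 + B))) * tw (dist x x') ^ 2 := by
    intro x hx x' hx' hne
    refine endcone_pair D hD hf hZ hinj hB he (hsub hx) (hsub hx')
      ((hd x hx x0 hx0').trans_lt ht2) ((hd x' hx' x0 hx0').trans_lt ht2) ?_
      (fun h => hne (congrArg Prod.fst h))
    have h1 : |q1 x' - q1 x| ≤ M * tw r' := by
      refine le_trans ?_ (hd x' hx' x hx)
      rw [Prod.dist_eq, Real.dist_eq]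
      exact le_max_left _ _
    have h2 : (1 + B) * (3 * (ρ / (24 * (1 + B)))) = ρ / 8 := by
      field_simp
      ring
    have h3 : (1 + B) * (3 * |q1 x' - q1 x|) ≤ (1 + B) * (3 * (M * tw r')) :=
      mul_le_mul_of_nonneg_left (by linarith) hB1.le
    rw [mul_add, h2]
    linarith
  set K := C / (ρ / (24 * (1 + B)))
  have hBb : ∀ x ∈ sqr c' r', ∀ x' ∈ sqr c' r', q1 x ≠ q1 x' →
      |q2 x - q2 x'| ≤ K * tw (dist x x') ^ 2 := by
    intro x hx x' hx' hne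
    have h1 := hA x hx x' hx' hne
    have h2 := hA x' hx' x hx hne.symm
    rw [dist_comm x' x] at h2
    exact abs_le.mpr ⟨by linarith, h1⟩
  have hC : ∀ x ∈ sqr c' r', ∀ x' ∈ sqr c' r', |q2 x - q2 x'| ≤ K * tw (dist x x') ^ 2 := by
    intro x hx x' hx'
    have hcl : IsClosed {y : P | |q2 x - q2 y| ≤ K * tw (dist x y) ^ 2} := by
      refine isClosed_le (continuous_const.sub D.h2.continuous).abs ?_
      exact continuous_const.mul
        ((continuous_tw.comp (continuous_const.dist continuous_id)).pow 2)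
    have hm : x' ∈ closure {y : P | |q2 x - q2 y| ≤ K * tw (dist x y) ^ 2} := by
      rw [Metric.mem_closure_iff]
      intro ε hε
      obtain ⟨c2, r2, hD2, hr2, hx2, hsub2⟩ := hD'.exists_small hx' hε
      obtain ⟨y, hy, hne⟩ := (D.toNd.not_const hD2 (q1 x)).1
      exact ⟨y, hBb x hx y (hsub2 hy) hne.symm, (dist_le_of_sqr hx2 hy).trans_lt hr2⟩
    exact hcl.closure_subset hm
  obtain ⟨y, hy, hne⟩ := (D.toNd.not_const hD' (q2 c')).2
  exact hne (eq_of_tw_sq hC hy (corner_mem hD'.pos.le))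

theorem Nd.false {q1 q2 : P → ℝ} {A : ℝ} (D : Nd q1 q2 A) : False := by
  obtain ⟨w, C, h⟩ := D.exists_lift
  exact h.false

end Pool.Agent.Bor
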