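import Pool.Agent.P.MP_26ecb7_gt.EndVan
import Pool.Agent.P.MP_26ecb7_gt.Anom

noncomputable section
open Set Filter Topology MeasureTheory Metric
open scoped RealInnerProductSpace ContDiff ENNReal

namespace Pool.Agent.Bor

theorem enddat_lp {p : ℕ → P → P} {a b : P → ℝ} {c : P} {r M : ℝ} (hr : 0 < r)
    (hp : ∀ n, ContDiff ℝ ∞ (p n)) (ha : Hb a) (hb : Hb b)
    (h1 : TendstoUniformlyOn p (fun x => (a x, b x)) atTop (sqr c r))
    (hM : ∀ᶠ n in atTop, ∀ x ∈ sqr c r, ∀ y ∈ sqr c r, dist (p n x) (p n y) ≤ M * tw (dist x y))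
    {T : P → ℝ} (hT : ContDiff ℝ ∞ T) :
    Tendsto (fun n => ∫ x in sqr c r, pd 0 T (p n x) * jp (p n) x) atTop
      (𝓝 (yl c r (fun x => T (a x, b x)) b)) := by
  refine (lp_tendsto_comp hr hp ha hb h1 hM hT).1.congr fun n => ?_
  have hg := green_jac (f := fun x => T (p n x)) (g := fun x => (p n x).2)
    ((hT.comp (hp n)).of_le (by exact_mod_cast le_top)) (hp n).snd c hr.le
  rw [← hg]
  exact integral_congr_ae (Eventually.of_forall fun x => anom_jac hT (hp n) x)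

theorem enddat_dom {p : ℕ → P → P} {q : P → P} {κ f : P → ℝ} {c : P} {r ρ : ℝ}
    (hp : ∀ n, Continuous (p n)) (hκ : Continuous κ) (hf : Continuous f)
    (hu : TendstoUniformlyOn p q atTop (sqr c r))
    (hρ : ∀ᶠ n in atTop, ∀ x ∈ sqr c r, ‖p n x‖ ≤ ρ) :
    Tendsto (fun n => ∫ x in sqr c r, f (p n x) * κ x) atTop
      (𝓝 (∫ x in sqr c r, f (q x) * κ x)) := by
  obtain ⟨k0, hk0⟩ := (sqr_compact c r).exists_bound_of_continuousOn hκ.continuousOn
  obtain ⟨B, hB⟩ := (isCompact_closedBall (0 : P) ρ).exists_bound_of_continuousOn hf.continuousOn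
  have hm : MeasurableSet (sqr c r) := (sqr_compact c r).measurableSet
  refine tendsto_integral_filter_of_dominated_convergence (fun _ => B * k0) ?_ ?_ ?_ ?_
  · exact Eventually.of_forall fun n => ((hf.comp (hp n)).mul hκ).aestronglyMeasurable
  · filter_upwards [hρ] with n hn
    refine (ae_restrict_iff' hm).2 (Eventually.of_forall fun x hx => ?_)
    have h1 := hB (p n x) (mem_closedBall_zero_iff.2 (hn x hx))
    rw [norm_mul]
    exact mul_le_mul h1 (hk0 x hx) (norm_nonneg _) ((norm_nonneg _).trans h1)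
  · exact (continuous_const.continuousOn).integrableOn_compact (sqr_compact c r)
  · refine (ae_restrict_iff' hm).2 (Eventually.of_forall fun x hx => ?_)
    exact ((hf.tendsto _).comp (hu.tendsto_at hx)).mul_const _

theorem enddat_cut {φ : P → ℝ} (hφ : ContDiff ℝ ∞ φ) {ρ : ℝ} (hρ : 0 < ρ) :
    ∃ T : P → ℝ, ContDiff ℝ ∞ T ∧ ∀ y, ‖y‖ ≤ ρ → pd 0 T y = φ y * lam y := by
  let β : ContDiffBump (0 : P) := ⟨ρ, ρ + 1, hρ, by linarith⟩
  obtain ⟨T, hT, h⟩ := exists_pd0 (φ := fun y => φ y * lam y * β y)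
    ((hφ.mul contDiff_lam).mul β.contDiff) β.hasCompactSupport.mul_left
  refine ⟨T, hT, fun y hy => ?_⟩
  rw [h y, β.one_of_mem_closedBall (mem_closedBall_zero_iff.2 hy), mul_one]

/-- at the exponent two thirds the anomaly vanishes everywhere -/
theorem van_all {p : ℕ → P → P} {q : P → P} {κ : P → ℝ} {c0 : P} {r0 M : ℝ} (hr : 0 < r0)
    (hr1 : r0 ≤ 1) (hp : ∀ n, ContDiff ℝ ∞ (p n)) (hκ : Continuous κ)
    (hu : TendstoUniformlyOn p q atTop (sqr c0 r0))
    (hg : ∀ c r, 0 < r → sqr c r ⊆ sqr c0 r0 →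
      Tendsto (fun n => ∫ x in sqr c r, (lam (p n x) * jp (p n) x - κ x)) atTop (𝓝 0))
    (hM : 0 ≤ M) (hh : ∀ᶠ n in atTop, ∀ x ∈ sqr c0 r0, ∀ y ∈ sqr c0 r0,
      dist (p n x) (p n y) ≤ M * dist x y ^ (2 / 3 : ℝ)) (x : P) : Van p κ (sqr c0 r0) x := by
  have hq : ∀ x ∈ sqr c0 r0, ∀ y ∈ sqr c0 r0, dist (q x) (q y) ≤ M * tw (dist x y) := by
    intro x hx y hy
    refine le_of_tendsto ((hu.tendsto_at hx).dist (hu.tendsto_at hy)) ?_
    filter_upwards [hh] with n hn using hn x hx y hy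
  have hq1 : Ho (fun x => (q x).1) (sqr c0 r0) M := fun x hx y hy => by
    refine le_trans ?_ (hq x hx y hy)
    rw [Prod.dist_eq, Real.dist_eq]
    exact le_max_left _ _
  have hq2 : Ho (fun x => (q x).2) (sqr c0 r0) M := fun x hx y hy => by
    refine le_trans ?_ (hq x hx y hy)
    rw [Prod.dist_eq, Real.dist_eq, Real.dist_eq]
    exact le_max_right _ _
  obtain ⟨a, ha, ea⟩ := exists_ext hr.le hM hq1
  obtain ⟨b, hb, eb⟩ := exists_ext hr.le hM hq2
  have hu' : TendstoUniformlyOn p (fun x => ((a x, b x) : P)) atTop (sqr c0 r0) :=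
    hu.congr_right fun x hx => by
      show q x = (a x, b x)
      rw [ea hx, eb hx]
  obtain ⟨B, hB0, hB, -⟩ := Hb.pair ha hb
  have hρ : ∀ᶠ n in atTop, ∀ x ∈ sqr c0 r0, ‖p n x‖ ≤ B + 1 := by
    filter_upwards [Metric.tendstoUniformlyOn_iff.1 hu' 1 one_pos] with n hn x hx
    have h1 := hn x hx
    rw [dist_eq_norm'] at h1
    have h3 := norm_sub_norm_le (p n x) ((a x, b x) : P)
    linarith [hB x]
  have hlp : ∀ c r, 0 < r → sqr c r ⊆ sqr c0 r0 → ∀ T : P → ℝ, ContDiff ℝ ∞ T →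
      Tendsto (fun n => ∫ x in sqr c r, pd 0 T (p n x) * jp (p n) x) atTop
        (𝓝 (yl c r (fun x => T (a x, b x)) b)) := fun c r h0 hs T hT =>
    enddat_lp (M := M) h0 hp ha hb (hu'.mono hs)
      (hh.mono fun n hn x hx y hy => hn x (hs hx) y (hs hy)) hT
  have hc : ∀ n, Continuous (p n) := fun n => (hp n).continuous
  have hlj : ∀ n, Continuous fun x => lam (p n x) * jp (p n) x := fun n =>
    (contDiff_lam.continuous.comp (hc n)).mul (anom_cont_jp (hp n))
  obtain ⟨L, hL, hL0⟩ := exists_Lam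
  have hLk : ∀ c r, 0 < r → sqr c r ⊆ sqr c0 r0 →
      yl c r (fun x => L (a x, b x)) b = ∫ x in sqr c r, κ x := by
    intro c r h0 hs
    refine tendsto_nhds_unique (hlp c r h0 hs L hL) ?_
    have h := (hg c r h0 hs).add_const (∫ x in sqr c r, κ x)
    rw [zero_add] at h
    refine h.congr fun n => ?_
    simp only [hL0]
    rw [integral_sub ((hlj n).continuousOn.integrableOn_compact (sqr_compact c r))
      (hκ.continuousOn.integrableOn_compact (sqr_compact c r)), sub_add_cancel]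
  intro φ hφ η hη
  obtain ⟨T, hT, hT0⟩ := enddat_cut hφ (ρ := B + 1) (by linarith)
  obtain ⟨ρ, hρ0, hv⟩ := van_core ha hb hκ hL hL0 hT hr1 hLk η hη
  refine ⟨ρ, hρ0, fun c r h0 hrρ _ hs θ hθ => ?_⟩
  have hρ' : ∀ᶠ n in atTop, ∀ x ∈ sqr c r, ‖p n x‖ ≤ B + 1 :=
    hρ.mono fun n hn x hx => hn x (hs hx)
  have e1 : ∫ x in sqr c r, pd 0 T (a x, b x) / lam (a x, b x) * κ x
      = ∫ x in sqr c r, φ (a x, b x) * κ x := by
    refine integral_congr_ae (Eventually.of_forall fun x => ?_)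
    show pd 0 T (a x, b x) / lam (a x, b x) * κ x = φ (a x, b x) * κ x
    rw [hT0 _ (by linarith [hB x]), mul_div_assoc, div_self (lam_pos _).ne', mul_one]
  have h1 := hv c r h0 hrρ hs
  rw [e1] at h1
  have h2 := ((hlp c r h0 hs T hT).sub
    (enddat_dom hc hκ hφ.continuous (hu'.mono hs) hρ')).abs
  filter_upwards [h2.eventually (ge_mem_nhds (lt_of_le_of_lt h1 (lt_add_of_pos_right _ hθ))),
    hρ'] with n hn hb'
  refine le_of_eq_of_le (congrArg abs ?_) hn
  have i1 : IntegrableOn (fun x => pd 0 T (p n x) * jp (p n) x) (sqr c r) :=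
    (((contDiff_pd hT 0).continuous.comp (hc n)).mul
      (anom_cont_jp (hp n))).continuousOn.integrableOn_compact (sqr_compact c r)
  have i2 : IntegrableOn (fun x => φ (p n x) * κ x) (sqr c r) :=
    ((hφ.continuous.comp (hc n)).mul hκ).continuousOn.integrableOn_compact (sqr_compact c r)
  rw [← integral_sub i1 i2]
  refine setIntegral_congr_fun (sqr_compact c r).measurableSet fun y hy => ?_
  show φ (p n y) * (lam (p n y) * jp (p n) y - κ y)
    = pd 0 T (p n y) * jp (p n) y - φ (p n y) * κ y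
  rw [hT0 _ (hb' y hy)]
  ring

end Pool.Agent.Bor
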