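import Pool.Agent.P.MP_26ecb7_gt.EndHl

noncomputable section
open Set Filter Topology MeasureTheory Metric
open scoped RealInnerProductSpace ContDiff ENNReal

namespace Pool.Agent.Bor

variable {q1 q2 w : P → ℝ} {A C : ℝ}

theorem endhg_smooth {G : ℝ × ℝ × ℝ → ℝ} (hG : ContDiff ℝ ∞ G) : ContDiff ℝ 1 (hop G) := by
  have h1 : ContDiff ℝ ∞ (fderiv ℝ G) := hG.fderiv_right (m := ∞) (by simp)
  have h2 : ContDiff ℝ ∞ (fderiv ℝ (fderiv ℝ G)) := h1.fderiv_right (m := ∞) (by simp)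
  have h3 : ContDiff ℝ ∞ fun y : ℝ × ℝ × ℝ => (((1 : ℝ), (0 : ℝ), - y.2.1) : ℝ × ℝ × ℝ) :=
    contDiff_const.prodMk (contDiff_const.prodMk contDiff_snd.fst.neg)
  have h4 : ContDiff ℝ ∞ (hop G) :=
    ((h2.clm_apply h3).clm_apply contDiff_const).add (h1.clm_apply contDiff_const)
  exact h4.of_le (by exact_mod_cast le_top)

theorem endhg_int {H : P → ℝ} (hH : Hb H) : ∃ M, ∀ (c : P) (r : ℝ), 0 ≤ r →
    |(∫ x in sqr c r, H x) - r ^ 2 * H c| ≤ M * tw r ^ 4 := by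
  have hc := hH.continuous
  obtain ⟨M, hM, -, h1⟩ := hH
  refine ⟨M, fun c r hr => ?_⟩
  have hv : volume (sqr c r) < ⊤ := (sqr_compact c r).measure_lt_top
  have hr2 : volume.real (sqr c r) = r ^ 2 := by
    rw [Measure.real, volume_sqr c hr, ENNReal.toReal_ofReal (sq_nonneg r)]
  have e : (∫ x in sqr c r, H x) - r ^ 2 * H c = ∫ x in sqr c r, (H x - H c) := by
    rw [integral_sub (hc.continuousOn.integrableOn_compact (sqr_compact c r))
      (continuousOn_const.integrableOn_compact (sqr_compact c r)), setIntegral_const, hr2,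
      smul_eq_mul]
  have h2 := norm_setIntegral_le_of_norm_le_const (f := fun x => H x - H c) (C := M * tw r) hv
    fun x hx => (h1.mono (subset_univ _) le_rfl).osc hM hx (corner_mem hr)
  rw [hr2, ← tw_cube hr, Real.norm_eq_abs] at h2
  rw [e]
  exact h2.trans_eq (by ring)

theorem Ld.hg_gen (D : Ld q1 q2 w A C) {G : ℝ × ℝ × ℝ → ℝ} (hG : ContDiff ℝ ∞ G) {c : P} {r : ℝ}
    (h : Dy c r) : yl c r (fun x => G (q1 x, q2 x, w x)) q1
      = -A * ∫ x in sqr c r, hop G (q1 x, q2 x, w x) := by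
  obtain ⟨M0, hM0, a0, a1⟩ := D.h1.triple D.h2 D.hw
  have hH : Hb fun x => hop G (q1 x, q2 x, w x) := Hb.compv (endhg_smooth hG) hM0 a0 a1
  obtain ⟨M, hM⟩ := endhg_int hH
  obtain ⟨K, hK⟩ := D.hg_loc hG
  have key := sew2 (K := K + A * M) (R := fun c r => yl c r (fun x => G (q1 x, q2 x, w x)) q1
      + A * ∫ x in sqr c r, hop G (q1 x, q2 x, w x)) (fun c r hd => ?_) (fun c r hd => ?_) c r h
  · linarith
  · have h1 := yl_split (fun x => G (q1 x, q2 x, w x)) q1 c r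
    have h2 := integral_sqr_split (c := c) hd.pos.le hH.continuous.continuousOn
    unfold Add4 at h1 ⊢
    simp only at h1 ⊢
    rw [h1, h2]
    ring
  · have h1 := abs_le.1 (hK c r hd)
    have h2 := abs_le.1 (hM c r hd.pos.le)
    have h3 := mul_le_mul_of_nonneg_left h2.1 D.pos.le
    have h4 := mul_le_mul_of_nonneg_left h2.2 D.pos.le
    rw [abs_le]
    constructor <;> nlinarith [h1.1, h1.2]

theorem endhg_fd {χ : P → ℝ} {γ : ℝ → ℝ} (hχ : Differentiable ℝ χ) (hγ : Differentiable ℝ γ)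
    (y b : ℝ × ℝ × ℝ) : fderiv ℝ (fun z : ℝ × ℝ × ℝ => χ (z.1, z.2.2) * γ z.2.1) y b =
      (b.1 * pd 0 χ (y.1, y.2.2) + b.2.2 * pd 1 χ (y.1, y.2.2)) * γ y.2.1
        + χ (y.1, y.2.2) * (deriv γ y.2.1 * b.2.1) := by
  have h1 := (hχ (y.1, y.2.2)).hasFDerivAt.comp y
    ((hasFDerivAt_fst (𝕜 := ℝ) (p := y)).prodMk (hasFDerivAt_snd (𝕜 := ℝ) (p := y)).snd)
  have h2 := (hγ y.2.1).hasDerivAt.comp_hasFDerivAt y (hasFDerivAt_snd (𝕜 := ℝ) (p := y)).fst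
  have h3 : HasFDerivAt (fun z : ℝ × ℝ × ℝ => χ (z.1, z.2.2) * γ z.2.1) _ y := h1.mul h2
  rw [h3.fderiv]
  have e := fderiv_eq_pd χ (y.1, y.2.2) (b.1, b.2.2)
  simp only [smul_eq_mul] at e
  rw [← e]
  simp
  ring

theorem hop_prod {χ : P → ℝ} {γ : ℝ → ℝ} (hχ : ContDiff ℝ ∞ χ) (hγ : ContDiff ℝ ∞ γ)
    (y : ℝ × ℝ × ℝ) : hop (fun z => χ (z.1, z.2.2) * γ z.2.1) y =
      deriv γ y.2.1 * pd 0 χ (y.1, y.2.2)
        - (y.2.1 * deriv γ y.2.1 - γ y.2.1) * pd 1 χ (y.1, y.2.2) := by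
  have d1 : Differentiable ℝ χ := hχ.differentiable (by simp)
  have d2 : Differentiable ℝ γ := hγ.differentiable (by simp)
  have d3 : Differentiable ℝ (deriv γ) :=
    (contDiff_infty_iff_deriv.1 hγ).2.differentiable (by simp)
  have hG : ContDiff ℝ ∞ fun z : ℝ × ℝ × ℝ => χ (z.1, z.2.2) * γ z.2.1 :=
    (hχ.comp (contDiff_fst.prodMk contDiff_snd.snd)).mul (hγ.comp contDiff_snd.fst)
  have h1 : Differentiable ℝ (fderiv ℝ fun z : ℝ × ℝ × ℝ => χ (z.1, z.2.2) * γ z.2.1) :=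
    (hG.fderiv_right (m := ∞) (by simp)).differentiable (by simp)
  have h2 : ∀ a b : ℝ × ℝ × ℝ,
      fderiv ℝ (fderiv ℝ fun z : ℝ × ℝ × ℝ => χ (z.1, z.2.2) * γ z.2.1) y a b =
      fderiv ℝ (fun u => fderiv ℝ (fun z : ℝ × ℝ × ℝ => χ (z.1, z.2.2) * γ z.2.1) u b) y a :=
    fun a b => by
      rw [fderiv_clm_apply (h1 y) (differentiableAt_const b)]
      simp
  have h3 : (fun u => fderiv ℝ (fun z : ℝ × ℝ × ℝ => χ (z.1, z.2.2) * γ z.2.1) u (0, 1, 0)) =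
      fun z : ℝ × ℝ × ℝ => χ (z.1, z.2.2) * deriv γ z.2.1 := by
    funext u
    rw [endhg_fd d1 d2]
    simp
  unfold hop
  rw [h2, h3, endhg_fd d1 d3, endhg_fd d1 d2]
  simp only
  ring

theorem Ld.hg (D : Ld q1 q2 w A C) {χ : P → ℝ} {γ : ℝ → ℝ} (hχ : ContDiff ℝ ∞ χ)
    (hγ : ContDiff ℝ ∞ γ) {c : P} {r : ℝ} (h : Dy c r) :
    yl c r (fun x => χ (q1 x, w x) * γ (q2 x)) q1 = -A * ∫ x in sqr c r,
      (deriv γ (q2 x) * pd 0 χ (q1 x, w x)
        - (q2 x * deriv γ (q2 x) - γ (q2 x)) * pd 1 χ (q1 x, w x)) := by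
  have hG : ContDiff ℝ ∞ fun z : ℝ × ℝ × ℝ => χ (z.1, z.2.2) * γ z.2.1 :=
    (hχ.comp (contDiff_fst.prodMk contDiff_snd.snd)).mul (hγ.comp contDiff_snd.fst)
  have h1 := D.hg_gen hG h
  simp only [hop_prod hχ hγ] at h1
  exact h1

theorem Ld.jd (D : Ld q1 q2 w A C) : Jd q1 w A := by
  refine ⟨D.h1, D.hw, D.pos, fun T hT c r h => ?_, fun T hT c r h => ?_⟩
  · have h1 := D.hg (γ := fun s => -s) hT contDiff_id.neg h
    have h2 := yl_subst (f := fun x => T (q1 x, w x)) (u := fun x => - q2 x) (K := C) (c := c)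
      (Hb.comp2 hT D.h1 D.hw) D.h2.neg D.h1 D.hw h.pos fun x hx y hy => by
        have := D.lift x (h.sub hx) y (h.sub hy)
        rwa [neg_mul, sub_neg_eq_add]
    have h3 : deriv (fun s : ℝ => -s) = fun _ => -1 := by
      funext s
      exact (hasDerivAt_neg s).deriv
    rw [h2, h1, h3]
    simp [integral_neg]
  · have h1 := D.hg (γ := fun _ => 1) hT contDiff_const h
    simpa using h1

end Pool.Agent.Bor
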