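import Pool.Agent.P.MP_26ecb7_gt.EndTay

noncomputable section
open Set Filter Topology MeasureTheory Metric
open scoped RealInnerProductSpace ContDiff ENNReal

namespace Pool.Agent.Bor

/-- the second order operator in the Green formula on the Heisenberg group -/
def hop (G : ℝ × ℝ × ℝ → ℝ) (y : ℝ × ℝ × ℝ) : ℝ :=
  fderiv ℝ (fderiv ℝ G) y (1, 0, - y.2.1) (0, 1, 0) + fderiv ℝ G y (0, 0, 1)

theorem endhl_prod {ρ u g : P → ℝ} (hρ : Hb ρ) (hu : Hb u) (hg : Hb g) {c : P} {r N M : ℝ}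
    (hr : 0 < r) (hN : 0 ≤ N) (hM : 0 ≤ M) (hg1 : Ho g (sqr c r) M)
    (a0 : ∀ x ∈ sqr c r, |ρ x| ≤ N * tw r ^ 2) (a1 : Ho ρ (sqr c r) (N * tw r))
    (b0 : ∀ x ∈ sqr c r, |u x| ≤ N * tw r) (b1 : Ho u (sqr c r) N) :
    |yl c r (fun x => ρ x * u x) g| ≤ 44 * (N ^ 2 * M) * tw r ^ 4 := by
  have ht := tw_nonneg hr.le
  have h := yl_bound (F0 := N * tw r ^ 2 * (N * tw r)) (hρ.mul hu) hg hr (by positivity) hM
    (a1.mul b1 a0 b0) hg1 (fun x hx => by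
      rw [abs_mul]
      exact mul_le_mul (a0 x hx) (b0 x hx) (abs_nonneg _) (by positivity))
  refine h.trans (le_of_eq ?_)
  ring

theorem endhl_poly (L : (ℝ × ℝ × ℝ) →L[ℝ] ℝ) (B : (ℝ × ℝ × ℝ) →L[ℝ] (ℝ × ℝ × ℝ) →L[ℝ] ℝ)
    (hB : ∀ a b, B a b = B b a) (v e2 e3 : ℝ × ℝ × ℝ) (a b d : ℝ) :
    L (a • v + b • e2 + d • e3) + 1 / 2 * B (a • v + b • e2 + d • e3) (a • v + b • e2 + d • e3)
      = (L v * a + 1 / 2 * B v v * (a * a)) + L e2 * b + L e3 * d + B v e2 * (a * b)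
        + 1 / 2 * B e2 e2 * (b * b) + B v e3 * (d * a) + B e2 e3 * (d * b)
        + 1 / 2 * B e3 e3 * (d * d) := by
  simp only [map_add, map_smul, _root_.add_apply, _root_.smul_apply,
    smul_eq_mul, hB e2 v, hB e3 v, hB e3 e2]
  ring

theorem endhl_rho {q1 q2 w : P → ℝ} {A C : ℝ} (D : Ld q1 q2 w A C) {c : P} {r : ℝ} (h : Dy c r) :
    yl c r (fun x => w x - w c + q2 c * (q1 x - q1 c)) q1 = -A * r ^ 2 := by
  have hr := h.pos
  have e1 : yl c r (fun x => q1 x - q1 c) q1 = 0 :=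
    yl_chain (F := fun s => s - q1 c) (by fun_prop) D.h1 hr
  rw [yl_add (D.hw.sub (Hb.const _)) ((D.h1.sub (Hb.const _)).const_mul _) D.h1 hr,
    yl_mul _ (D.h1.sub (Hb.const _)) D.h1 hr, e1, yl_sub D.hw (Hb.const _) D.h1 hr,
    yl_const _ D.h1 hr, yl_parts D.hw D.h1 hr,
    yl_subst (u := fun x => - q2 x) (K := C) D.h1 D.h2.neg D.h1 D.hw hr (fun x hx y hy => by
      have := D.lift x (h.sub hx) y (h.sub hy)
      rwa [neg_mul, sub_neg_eq_add])]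
  have e2 : (fun x => q1 x * -q2 x) = fun x => -1 * (q1 x * q2 x) := by
    funext x; ring
  rw [e2, yl_mul _ (D.h1.mul D.h2) D.h1 hr, D.z1 c r h]
  ring

theorem Ld.hg_loc {q1 q2 w : P → ℝ} {A C : ℝ} (D : Ld q1 q2 w A C) {G : ℝ × ℝ × ℝ → ℝ}
    (hG : ContDiff ℝ ∞ G) : ∃ K, ∀ c r, Dy c r →
      |yl c r (fun x => G (q1 x, q2 x, w x)) q1 + A * r ^ 2 * hop G (q1 c, q2 c, w c)|
        ≤ K * tw r ^ 4 := by
  obtain ⟨M0, hM0, b0, b1⟩ := D.h1.triple D.h2 D.hw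
  obtain ⟨K0, hK0⟩ := exp_gen hG (f := fun x => (q1 x, q2 x, w x)) hM0 b0 b1 D.h1
  obtain ⟨M, hM, -, m2, o1, o2⟩ := D.h1.two D.h2
  have hC := D.C_nonneg
  have hcont : Continuous (fderiv ℝ (fderiv ℝ G)) :=
    (hG.fderiv_right (m := ∞) (by simp)).continuous_fderiv (by simp)
  obtain ⟨Λ, hΛ⟩ := (isCompact_closedBall (0 : ℝ × ℝ × ℝ) M0).exists_bound_of_continuousOn
    (E := (ℝ × ℝ × ℝ) →L[ℝ] (ℝ × ℝ × ℝ) →L[ℝ] ℝ) (f := fderiv ℝ (fderiv ℝ G)) hcont.continuousOn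
  have hΛ0 : 0 ≤ Λ := (norm_nonneg _).trans (hΛ 0 (mem_closedBall_self hM0))
  set N := M + C + M ^ 2 with hN
  have hN0 : 0 ≤ N := by positivity
  refine ⟨K0 + 3 * (Λ * (1 + M)) * (44 * (N ^ 2 * M)), fun c r h => ?_⟩
  have hr := h.pos
  have ht := tw_nonneg hr.le
  have ht1 := tw_le_one hr.le h.le_one
  have hc : c ∈ sqr c r := corner_mem hr.le
  have hd : ∀ x ∈ sqr c r, ∀ y ∈ sqr c r, tw (dist x y) ≤ tw r := fun x hx y hy =>
    tw_mono dist_nonneg (dist_le_of_sqr hx hy)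
  set L := fderiv ℝ G (q1 c, q2 c, w c) with hL
  set B := fderiv ℝ (fderiv ℝ G) (q1 c, q2 c, w c) with hB
  have hsym : ∀ a b, B a b = B b a := fun a b =>
    (hG.contDiffAt.isSymmSndFDerivAt (by
      rw [minSmoothness_of_isRCLikeNormedField]
      exact WithTop.coe_le_coe.2 (le_top : (2 : ℕ∞) ≤ ⊤))) a b
  have hBn : ‖B‖ ≤ Λ := hΛ _ (mem_closedBall_zero_iff.2 (b0 c))
  have hco : ∀ a b : ℝ × ℝ × ℝ, ‖a‖ ≤ 1 + M → ‖b‖ ≤ 1 → |B a b| ≤ Λ * (1 + M) := by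
    intro a b ha hb
    calc |B a b| ≤ ‖B‖ * ‖a‖ * ‖b‖ := B.le_opNorm₂ a b
      _ ≤ Λ * (1 + M) * 1 := by gcongr
      _ = _ := mul_one _
  have n2 : ‖((0, 1, 0) : ℝ × ℝ × ℝ)‖ ≤ 1 := by simp [Prod.norm_def]
  have n3 : ‖((0, 0, 1) : ℝ × ℝ × ℝ)‖ ≤ 1 := by simp [Prod.norm_def]
  have nv : ‖((1, 0, - q2 c) : ℝ × ℝ × ℝ)‖ ≤ 1 + M := by
    have := m2 c
    simp only [Prod.norm_def, Real.norm_eq_abs, abs_neg, abs_one, abs_zero, max_le_iff]
    exact ⟨by linarith, by linarith, by linarith⟩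
  have H1 : Hb fun x => q1 x - q1 c := D.h1.sub (Hb.const _)
  have H2 : Hb fun x => q2 x - q2 c := D.h2.sub (Hb.const _)
  have H3 : Hb fun x => w x - w c + q2 c * (q1 x - q1 c) :=
    (D.hw.sub (Hb.const _)).add (H1.const_mul _)
  have o1' : Ho q1 (sqr c r) M := o1.mono (subset_univ _) le_rfl
  have o2' : Ho q2 (sqr c r) M := o2.mono (subset_univ _) le_rfl
  have hMN : M ≤ N := by nlinarith [sq_nonneg M]
  have hCN : C ≤ N := by nlinarith [sq_nonneg M]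
  have a0 : ∀ x ∈ sqr c r, |w x - w c + q2 c * (q1 x - q1 c)| ≤ N * tw r ^ 2 := by
    intro x hx
    refine (D.lift c (h.sub hc) x (h.sub hx)).trans ?_
    have := hd c hc x hx
    have := tw_nonneg (dist_nonneg (x := c) (y := x))
    gcongr
  have a1 : Ho (fun x => w x - w c + q2 c * (q1 x - q1 c)) (sqr c r) (N * tw r) := by
    intro y hy x hx
    have e : w y - w c + q2 c * (q1 y - q1 c) - (w x - w c + q2 c * (q1 x - q1 c))
        = (w y - w x + q2 x * (q1 y - q1 x)) - (q2 x - q2 c) * (q1 y - q1 x) := by ring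
    have s1 := D.lift x (h.sub hx) y (h.sub hy)
    rw [dist_comm] at s1
    have s2 := o2'.osc hM hx hc
    have s3 := o1' y hy x hx
    have s4 := hd y hy x hx
    have s5 := tw_nonneg (dist_nonneg (x := y) (y := x))
    have s6 : |(q2 x - q2 c) * (q1 y - q1 x)| ≤ M * tw r * (M * tw (dist y x)) := by
      rw [abs_mul]
      exact mul_le_mul s2 s3 (abs_nonneg _) (by positivity)
    have s7 : C * tw (dist y x) ^ 2 ≤ C * (tw r * tw (dist y x)) := by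
      rw [pow_two]; gcongr
    have s8 : 0 ≤ M * (tw r * tw (dist y x)) := by positivity
    show |w y - w c + q2 c * (q1 y - q1 c) - (w x - w c + q2 c * (q1 x - q1 c))| ≤ _
    rw [e]
    refine (abs_sub _ _).trans ?_
    rw [hN]
    nlinarith
  have p1 := endhl_prod H3 H1 D.h1 hr hN0 hM o1' a0 a1
    (fun x hx => (o1'.osc hM hx hc).trans (by gcongr)) ((o1'.sub_const _).mono subset_rfl hMN)
  have p2 := endhl_prod H3 H2 D.h1 hr hN0 hM o1' a0 a1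
    (fun x hx => (o2'.osc hM hx hc).trans (by gcongr)) ((o2'.sub_const _).mono subset_rfl hMN)
  have p3 := endhl_prod H3 H3 D.h1 hr hN0 hM o1' a0 a1
    (fun x hx => (a0 x hx).trans (mul_le_mul_of_nonneg_left (by nlinarith) hN0))
    (a1.mono subset_rfl (mul_le_of_le_one_right hN0 ht1))
  have hz0 := D.z0 c r hr h.sub
  obtain ⟨z1, z2⟩ := yl_centre D.h2 D.h1 hr hz0 (q1 c) (q2 c)
  rw [D.z1 c r h] at z1
  rw [D.z2 c r h] at z2
  have z3 := endhl_rho D h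
  have z4 : yl c r (fun x => q2 x - q2 c) q1 = 0 := by
    rw [yl_sub D.h2 (Hb.const _) D.h1 hr, hz0, yl_const _ D.h1 hr, sub_zero]
  have z5 : yl c r (fun x => L (1, 0, - q2 c) * (q1 x - q1 c)
      + 1 / 2 * B (1, 0, - q2 c) (1, 0, - q2 c) * ((q1 x - q1 c) * (q1 x - q1 c))) q1 = 0 :=
    yl_chain (F := fun s => L (1, 0, - q2 c) * (s - q1 c)
      + 1 / 2 * B (1, 0, - q2 c) (1, 0, - q2 c) * ((s - q1 c) * (s - q1 c))) (by fun_prop) D.h1 hr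
  have key := hK0 c r hr
  have hx : ∀ x, ((q1 x, q2 x, w x) : ℝ × ℝ × ℝ) - (q1 c, q2 c, w c)
      = (q1 x - q1 c) • ((1, 0, - q2 c) : ℝ × ℝ × ℝ) + (q2 x - q2 c) • ((0, 1, 0) : ℝ × ℝ × ℝ)
        + (w x - w c + q2 c * (q1 x - q1 c)) • ((0, 0, 1) : ℝ × ℝ × ℝ) := by
    intro x
    ext <;> simp
    ring
  simp only [← hL, ← hB, hx, endhl_poly L B hsym] at key
  have G0 : Hb fun x => L (1, 0, - q2 c) * (q1 x - q1 c)
      + 1 / 2 * B (1, 0, - q2 c) (1, 0, - q2 c) * ((q1 x - q1 c) * (q1 x - q1 c)) :=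
    (H1.const_mul _).add ((H1.mul H1).const_mul _)
  have G1 := G0.add (H2.const_mul (L (0, 1, 0)))
  have G2 := G1.add (H3.const_mul (L (0, 0, 1)))
  have G3 := G2.add ((H1.mul H2).const_mul (B (1, 0, - q2 c) (0, 1, 0)))
  have G4 := G3.add ((H2.mul H2).const_mul (1 / 2 * B (0, 1, 0) (0, 1, 0)))
  have G5 := G4.add ((H3.mul H1).const_mul (B (1, 0, - q2 c) (0, 0, 1)))
  have G6 := G5.add ((H3.mul H2).const_mul (B (0, 1, 0) (0, 0, 1)))
  rw [yl_add G6 ((H3.mul H3).const_mul _) D.h1 hr, yl_add G5 ((H3.mul H2).const_mul _) D.h1 hr,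
    yl_add G4 ((H3.mul H1).const_mul _) D.h1 hr, yl_add G3 ((H2.mul H2).const_mul _) D.h1 hr,
    yl_add G2 ((H1.mul H2).const_mul _) D.h1 hr, yl_add G1 (H3.const_mul _) D.h1 hr,
    yl_add G0 (H2.const_mul _) D.h1 hr, z5, yl_mul _ H2 D.h1 hr, yl_mul _ H3 D.h1 hr,
    yl_mul _ (H1.mul H2) D.h1 hr, yl_mul _ (H2.mul H2) D.h1 hr, yl_mul _ (H3.mul H1) D.h1 hr,
    yl_mul _ (H3.mul H2) D.h1 hr, yl_mul _ (H3.mul H3) D.h1 hr, z1, z2, z3, z4] at key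
  have c1 := hco _ _ nv n3
  have c2 := hco _ _ (n2.trans (by linarith)) n3
  have c3 := hco _ _ (n3.trans (by linarith)) n3
  have hQ : 0 ≤ Λ * (1 + M) := by positivity
  have d1 := (abs_mul _ _).trans_le (mul_le_mul c1 p1 (abs_nonneg _) hQ)
  have d2 := (abs_mul _ _).trans_le (mul_le_mul c2 p2 (abs_nonneg _) hQ)
  have d3 := (abs_mul _ _).trans_le (mul_le_mul c3 p3 (abs_nonneg _) hQ)
  have hh : hop G (q1 c, q2 c, w c) = B (1, 0, - q2 c) (0, 1, 0) + L (0, 0, 1) := rfl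
  have hW : 0 ≤ Λ * (1 + M) * (44 * (N ^ 2 * M) * tw r ^ 4) := by positivity
  rw [hh, abs_le]
  rw [abs_le] at key d1 d2 d3
  constructor <;> linarith [key.1, key.2, d1.1, d1.2, d2.1, d2.2, d3.1, d3.2]

end Pool.Agent.Bor
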