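import Pool.Agent.P.MP_26ecb7_gt.EndHg

noncomputable section
open Set Filter Topology MeasureTheory Metric
open scoped RealInnerProductSpace ContDiff ENNReal

namespace Pool.Agent.Bor

theorem endkin_lim (v s : ℝ) :
    Tendsto (fun n : ℕ => Real.smoothTransition (((n : ℝ) + 1) * (s - v))) atTop
      (𝓝 (if v < s then 1 else 0)) := by
  split_ifs with h
  · have h1 : Tendsto (fun n : ℕ => ((n : ℝ) + 1) * (s - v)) atTop atTop :=
      (tendsto_atTop_add_const_right _ _ tendsto_natCast_atTop_atTop).atTop_mul_const (sub_pos.2 h)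
    refine tendsto_const_nhds.congr' ((h1.eventually_ge_atTop 1).mono fun n hn => ?_)
    exact (Real.smoothTransition.one_of_one_le hn).symm
  · refine tendsto_const_nhds.congr fun n => (Real.smoothTransition.zero_of_nonpos ?_).symm
    exact mul_nonpos_of_nonneg_of_nonpos (by positivity) (sub_nonpos.2 (not_lt.1 h))

/-- smooth approximations of the positive part -/
theorem exists_kink (v : ℝ) : ∃ γ : ℕ → ℝ → ℝ, (∀ n, ContDiff ℝ ∞ (γ n)) ∧
    (∀ n s, |deriv (γ n) s| ≤ 1) ∧ (∀ n s, |γ n s| ≤ |s - v|) ∧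
    (∀ s, Tendsto (fun n => γ n s) atTop (𝓝 (if v < s then s - v else 0))) ∧
    ∀ s, Tendsto (fun n => deriv (γ n) s) atTop (𝓝 (if v < s then 1 else 0)) := by
  set S : ℕ → ℝ → ℝ := fun n u => Real.smoothTransition (((n : ℝ) + 1) * (u - v)) with hS
  have hc : ∀ n, ContDiff ℝ ∞ (S n) := fun n =>
    Real.smoothTransition.contDiff.comp (contDiff_const.mul (contDiff_id.sub contDiff_const))
  have hb : ∀ n u, ‖S n u‖ ≤ 1 := fun n u => by
    rw [Real.norm_of_nonneg (Real.smoothTransition.nonneg _)]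
    exact Real.smoothTransition.le_one _
  have hd : ∀ n s, HasDerivAt (fun s => ∫ u in v..s, S n u) (S n s) s := fun n s =>
    ((hc n).continuous.integral_hasStrictDerivAt v s).hasDerivAt
  have he : ∀ n, deriv (fun s => ∫ u in v..s, S n u) = S n := fun n =>
    funext fun s => (hd n s).deriv
  refine ⟨fun n s => ∫ u in v..s, S n u, fun n => ?_, fun n s => ?_, fun n s => ?_, fun s => ?_,
    fun s => ?_⟩
  · rw [contDiff_infty_iff_deriv, he]
    exact ⟨fun s => (hd n s).differentiableAt, hc n⟩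
  · rw [he]
    exact hb n s
  · simpa using intervalIntegral.norm_integral_le_of_norm_le_const (a := v) (b := s)
      fun u _ => hb n u
  · have h := intervalIntegral.tendsto_integral_filter_of_dominated_convergence
      (μ := volume) (a := v) (b := s) (l := atTop) (F := S)
      (f := fun _ => if v < s then (1 : ℝ) else 0) (fun _ => 1)
      (Eventually.of_forall fun n => (hc n).continuous.aestronglyMeasurable)
      (Eventually.of_forall fun n => ae_of_all _ fun u _ => hb n u) intervalIntegrable_const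
      (ae_of_all _ fun u hu => by
        have h1 := endkin_lim v u
        have h2 : v < u ↔ v < s := by
          rcases mem_uIoc.1 hu with h3 | h3
          · exact ⟨fun _ => h3.1.trans_le h3.2, fun _ => h3.1⟩
          · exact ⟨fun h => absurd h3.2 h.not_ge, fun h => absurd (h.trans h3.1) h3.2.not_gt⟩
        simpa only [h2] using h1)
    rw [intervalIntegral.integral_const, smul_eq_mul, mul_ite, mul_one, mul_zero] at h
    exact h
  · simp only [he]
    exact endkin_lim v s

theorem endkin_zero {q1 q2 w : P → ℝ} {A C : ℝ} (D : Ld q1 q2 w A C) {c : P} {r : ℝ} (h : Dy c r)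
    {χ : P → ℝ} (hχ : ContDiff ℝ ∞ χ) (h0 : ∀ x ∈ frontier (sqr c r), χ (q1 x, w x) = 0)
    {γ : ℝ → ℝ} (hγ : ContDiff ℝ ∞ γ) :
    ∫ x in sqr c r, (deriv γ (q2 x) * pd 0 χ (q1 x, w x)
      - (q2 x * deriv γ (q2 x) - γ (q2 x)) * pd 1 χ (q1 x, w x)) = 0 := by
  have h1 := D.hg hχ hγ h
  rw [yl_congr (f' := fun _ => 0) (g' := q1) ((Hb.comp2 hχ D.h1 D.hw).mul (Hb.comp1 hγ D.h2)) D.h1
    (Hb.const 0) D.h1 h.pos (fun x hx => by rw [h0 x hx, zero_mul]) (fun _ _ => rfl),
    yl_const 0 D.h1 h.pos] at h1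
  exact (mul_eq_zero.1 h1.symm).resolve_left (neg_ne_zero.2 D.pos.ne')

/-- the kinetic equation -/
theorem Ld.kin {q1 q2 w : P → ℝ} {A C : ℝ} (D : Ld q1 q2 w A C) {c : P} {r : ℝ} (h : Dy c r)
    {χ : P → ℝ} (hχ : ContDiff ℝ ∞ χ) (h0 : ∀ x ∈ frontier (sqr c r), χ (q1 x, w x) = 0) (v : ℝ) :
    ∫ x in sqr c r ∩ {x | v < q2 x}, (pd 0 χ (q1 x, w x) - v * pd 1 χ (q1 x, w x)) = 0 ∧
    ∫ x in sqr c r ∩ {x | q2 x ≤ v}, (pd 0 χ (q1 x, w x) - v * pd 1 χ (q1 x, w x)) = 0 := by
  have ca : Continuous fun x => pd 0 χ (q1 x, w x) :=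
    (contDiff_pd hχ 0).continuous.comp (D.h1.continuous.prodMk D.hw.continuous)
  have cb : Continuous fun x => pd 1 χ (q1 x, w x) :=
    (contDiff_pd hχ 1).continuous.comp (D.h1.continuous.prodMk D.hw.continuous)
  have c2 := D.h2.continuous
  have hm : MeasurableSet {x | v < q2 x} := (isOpen_lt continuous_const c2).measurableSet
  have h1 : ∫ x in sqr c r ∩ {x | v < q2 x},
      (pd 0 χ (q1 x, w x) - v * pd 1 χ (q1 x, w x)) = 0 := by
    obtain ⟨γ, g1, g2, g3, g4, g5⟩ := exists_kink v
    have ht := tendsto_integral_of_dominated_convergence (μ := volume.restrict (sqr c r))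
      (F := fun n x => deriv (γ n) (q2 x) * pd 0 χ (q1 x, w x)
        - (q2 x * deriv (γ n) (q2 x) - γ n (q2 x)) * pd 1 χ (q1 x, w x))
      (f := {x | v < q2 x}.indicator fun x => pd 0 χ (q1 x, w x) - v * pd 1 χ (q1 x, w x))
      (fun x => |pd 0 χ (q1 x, w x)| + (|q2 x| + |q2 x - v|) * |pd 1 χ (q1 x, w x)|)
      (fun n => by
        have d1 : Continuous (deriv (γ n)) := (g1 n).continuous_deriv (by simp)
        have d2 := (g1 n).continuous
        exact Continuous.aestronglyMeasurable (by fun_prop))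
      (ContinuousOn.integrableOn_compact (sqr_compact c r) (by fun_prop))
      (fun n => ae_of_all _ fun x => by
        refine (norm_sub_le _ _).trans (add_le_add ?_ ?_)
        · rw [Real.norm_eq_abs, abs_mul]
          exact mul_le_of_le_one_left (abs_nonneg _) (g2 n _)
        · rw [Real.norm_eq_abs, abs_mul]
          refine mul_le_mul_of_nonneg_right ((abs_sub _ _).trans (add_le_add ?_ (g3 n _)))
            (abs_nonneg _)
          rw [abs_mul]
          exact mul_le_of_le_one_right (abs_nonneg _) (g2 n _))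
      (ae_of_all _ fun x => by
        have t := ((g5 (q2 x)).mul_const (pd 0 χ (q1 x, w x))).sub
          ((((g5 (q2 x)).const_mul (q2 x)).sub (g4 (q2 x))).mul_const (pd 1 χ (q1 x, w x)))
        by_cases hx : v < q2 x
        · rw [indicator_of_mem (show x ∈ {x | v < q2 x} from hx)]
          simpa [hx] using t
        · rw [indicator_of_notMem (show x ∉ {x | v < q2 x} from hx)]
          simpa [hx] using t)
    simp only [endkin_zero D h hχ h0 (g1 _)] at ht
    rw [← setIntegral_indicator hm]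
    exact tendsto_nhds_unique ht tendsto_const_nhds |>.symm ▸ rfl
  refine ⟨h1, ?_⟩
  have h2 := endkin_zero D h hχ h0 (γ := fun s => s - v) (contDiff_id.sub contDiff_const)
  simp only [deriv_sub_const, deriv_id'', one_mul, mul_one, sub_sub_cancel] at h2
  have h3 := integral_inter_add_sdiff (μ := volume) (s := sqr c r) hm
    (f := fun x => pd 0 χ (q1 x, w x) - v * pd 1 χ (q1 x, w x))
    (ContinuousOn.integrableOn_compact (sqr_compact c r) (by fun_prop))
  have e : sqr c r \ {x | v < q2 x} = sqr c r ∩ {x | q2 x ≤ v} := by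
    ext x
    simp
  rwa [h1, h2, zero_add, e] at h3

end Pool.Agent.Bor
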