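import Pool.Agent.P.MP_26ecb7_gt.Main
import Pool.Agent.P.MP_26ecb7_gt.EndDat

noncomputable section
open Set Filter Topology MeasureTheory Metric
open scoped RealInnerProductSpace ContDiff ENNReal

namespace Pool.Agent.Bor

/-- the data of a small square in a chart, at the exponent two thirds -/
theorem Appr.dat2 {X : Surf} {I : Iso X} (A : Appr I) (hI : I.al = 2 / 3) (R R' : Rot) {c : P}
    {r : ℝ} (hr : 0 < r) (hr1 : r ≤ 1) (hc : ∀ x ∈ sqr c r, 1 / 2 < ⟪I.n R x, R'.R (ee 2)⟫)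
    {ε : ℕ → ℝ} {V : E → E} (M : Mo A ε V) :
    ∃ p : ℕ → P → P, Dat p (fun x => gn R' (I.n R x)) (X.ka R) c r I.al ∅ := by
  have hal : 0 < I.al := by linarith [I.al_gt]
  obtain ⟨K, hK, hk⟩ := loca_key A R R' hc
  obtain ⟨L, hL, hl⟩ := loca_lip (X.sm_psi R) c r
  have m : ∀ z, X.psi R z ∈ thickening A.tau X.S := fun z =>
    self_subset_thickening A.tau_pos _ (X.psi_mem R z)
  have hH := A.H_nonneg
  have f1 : ∀ n, ContDiff ℝ ∞ fun x => locaG R' (un (A.w R n) x) := fun n =>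
    (loca_G_smooth R').comp (A.imm_w R n).sm_un
  have f2 : TendstoUniformlyOn (fun n x => locaG R' (un (A.w R n) x))
      (fun x => gn R' (I.n R x)) atTop (sqr c r) := by
    rw [Metric.tendstoUniformlyOn_iff]
    intro ε hε
    filter_upwards [loca_ev A R R' hc, Metric.tendstoUniformly_iff.1 (A.un_conv R) (ε / 20)
      (by positivity)] with n h1 h2 x hx
    rw [loca_G_eq R' (h1 x hx).le]
    refine (loca_dist R' (by linarith [hc x hx]) (h1 x hx).le
      ((A.imm_w R n).norm_un x)).trans_lt ?_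
    have h3 := h2 x
    rw [dist_eq_norm] at h3
    linarith
  have f3 : ∀ c' r', 0 < r' → sqr c' r' ⊆ sqr c r → Tendsto (fun n => ∫ x in sqr c' r',
      (lam (locaG R' (un (A.w R n) x)) * jp (fun x => locaG R' (un (A.w R n) x)) x - X.ka R x))
      atTop (𝓝 0) := fun c' r' hr' hs => by
    refine (loca_gauss A R c' hr').congr' ?_
    filter_upwards [loca_ev A R R' hc] with n h1
    refine setIntegral_congr_fun (sqr_compact c' r').measurableSet fun x hx => ?_
    simp only [loca_kap R' (A.imm_w R n) (h1 x (hs hx))]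
  have f4 : ∀ᶠ n in atTop, ∀ x ∈ sqr c r, ∀ y ∈ sqr c r,
      dist (locaG R' (un (A.w R n) x)) (locaG R' (un (A.w R n) y))
        ≤ K * (A.H * L ^ I.al + 1) * dist x y ^ I.al := by
    filter_upwards [hk] with n h1 x hx y hy
    refine (h1 x hx y hy).trans ?_
    rw [mul_assoc]
    refine mul_le_mul_of_nonneg_left ?_ hK
    have h2 := A.hol n _ (m x) _ (m y)
    have h3 : ‖X.psi R x - X.psi R y‖ ^ I.al ≤ L ^ I.al * dist x y ^ I.al := by
      rw [← Real.mul_rpow hL dist_nonneg]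
      exact Real.rpow_le_rpow (norm_nonneg _) (hl x hx y hy) hal.le
    have h4 : dist x y ≤ dist x y ^ I.al := by
      have h5 := Real.rpow_le_rpow_of_exponent_ge' (x := dist x y) dist_nonneg
        ((dist_le_of_sqr hx hy).trans hr1) hal.le I.al_le
      rwa [Real.rpow_one] at h5
    have h6 := mul_le_mul_of_nonneg_left h3 A.H_nonneg
    nlinarith
  have f5 : 0 ≤ K * (A.H * L ^ I.al + 1) := by positivity
  refine ⟨fun n x => locaG R' (un (A.w R n) x), hr, hr1, I.al_gt, I.al_le, f1, fun x hx => ?_,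
    X.continuous_ka R, f2, f3, ⟨_, f5, f4⟩, measure_empty, fun x _ _ => Or.inr ?_⟩
  · exact (ContinuousAt.comp (f := I.n R)
      (contDiffAt_gn R' (by linarith [hc x hx])).continuousAt
      (I.continuous_n R).continuousAt).continuousWithinAt
  · generalize K * (A.H * L ^ I.al + 1) = N at f4 f5
    rw [hI] at f4
    exact van_all hr hr1 f1 (X.continuous_ka R) f2 f3 f5 f4 x

theorem Iso.lp2 {X : Surf} (I : Iso X) (hI : I.al = 2 / 3) : LP I := by
  obtain ⟨W⟩ := X.exists_pou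
  obtain ⟨A, ε, V, M⟩ := I.exists_mo
  choose R' hR' using fun (R : Rot) (c : P) => exists_rot (I.norm_n R c)
  let ct : ℕ → P := TopologicalSpace.denseSeq P
  let ρ : ℕ → ℝ := fun m => 1 / ((m : ℝ) + 1) / 2
  have hρ : ∀ m, 0 < 2 * ρ m ∧ 2 * ρ m ≤ 1 := fun m => by
    rw [mul_div_cancel₀ _ two_ne_zero]
    exact ⟨Nat.one_div_pos_of_nat, div_le_one_of_le₀ (by linarith [m.cast_nonneg (α := ℝ)])
      (by positivity)⟩
  let Q : ℕ → ℕ → Set P := fun j m => sqr ((ct j).1 - ρ m, (ct j).2 - ρ m) (2 * ρ m)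
  let Ok : Fin W.k × ℕ × ℕ → Prop := fun i => ∀ x ∈ Q i.2.1 i.2.2,
    1 / 2 < ⟪I.n (W.R i.1) x, (R' (W.R i.1) (ct i.2.1)).R (ee 2)⟫
  let F : Fin W.k × ℕ × ℕ → Set P := fun i =>
    (fun x => gn (R' (W.R i.1) (ct i.2.1)) (I.n (W.R i.1) x)) '' frontier (Q i.2.1 i.2.2)
  have hD := fun i (h : Ok i) => A.dat2 hI (W.R i.1) _ (hρ _).1 (hρ _).2 h M
  have hF : ∀ i, Ok i → MeasurableSet (F i) ∧ volume (F i) = 0 := fun i h => by
    obtain ⟨p, D⟩ := hD i h
    obtain ⟨M, hM⟩ := D.hol_lim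
    have k1 := (sqr_compact _ _).isClosed.frontier_subset (s := Q i.2.1 i.2.2)
    exact ⟨(((sqr_compact _ _).of_isClosed_subset isClosed_frontier k1).image_of_continuousOn
      (D.cont.mono k1)).measurableSet, null_frontier (hρ _).1 I.al_gt hM⟩
  refine ⟨⋃ i, ⋃ _ : Ok i, {y | 0 < ⟪y, (R' (W.R i.1) (ct i.2.1)).R (ee 2)⟫ ∧
    gn (R' (W.R i.1) (ct i.2.1)) y ∈ F i}, ?_, ?_, fun q hq hZ U hU => ?_⟩
  · exact MeasurableSet.iUnion fun i => MeasurableSet.iUnion fun h =>
      (locb_open _).measurableSet.inter (locb_meas _ (hF i h).1)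
  · refine measure_iUnion_null fun i => measure_iUnion_null fun h => ?_
    rw [sig_gn _ (hF i h).1, setLIntegral_measure_zero _ _ (hF i h).2]
  · obtain ⟨a, x0, rfl, -⟩ := W.exists_pos hq
    have k1 : ∀ᶠ x in 𝓝 x0, X.psi (W.R a) x ∈ U ∧ I.n (W.R a) x ∈ ball (I.n (W.R a) x0) (1 / 4) :=
      ((X.sm_psi _).continuous.continuousAt.eventually hU).and
        ((I.continuous_n _).continuousAt.eventually (ball_mem_nhds _ (by norm_num)))
    obtain ⟨ε, k2, k3⟩ := Metric.eventually_nhds_iff_ball.1 k1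
    obtain ⟨m, hm⟩ := exists_nat_one_div_lt k2
    have k4 : 0 < ρ m := by linarith [(hρ m).1]
    obtain ⟨j, hj⟩ := (TopologicalSpace.denseRange_denseSeq P).exists_dist_lt x0 k4
    have k5 : Q j m = closedBall (ct j) (ρ m) := (closedBall_eq_sqr _ _).symm
    have k6 : ∀ x ∈ Q j m, x ∈ ball x0 ε := fun x hx => by
      rw [k5, mem_closedBall] at hx
      have k7 := dist_triangle_right x x0 (ct j)
      have k8 : ρ m = 1 / ((m : ℝ) + 1) / 2 := rfl
      rw [mem_ball]
      linarith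
    have k7 : Ok (a, j, m) := fun x hx => by
      have k8 := (k3 x (k6 x hx)).2
      have k9 := (k3 _ (k6 _ (k5 ▸ mem_closedBall_self k4.le))).2
      have k10 := dist_triangle_right (I.n (W.R a) x) (I.n (W.R a) (ct j)) (I.n (W.R a) x0)
      rw [mem_ball] at k8 k9
      rw [hR']
      exact locb_cap (I.norm_n _ _) (by linarith)
    have k8 : x0 ∈ interior (Q j m) := k5 ▸ ball_subset_interior_closedBall hj
    obtain ⟨p, D⟩ := hD _ k7
    exact locb_main I D k7 k8 (fun h => hZ (mem_iUnion₂.2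
      ⟨(a, j, m), k7, one_half_pos.trans (k7 x0 (interior_subset k8)), h⟩))
      fun x hx => (k3 x (k6 x hx)).1

theorem Iso.rigid2 {X : Surf} (I : Iso X) (hI : I.al = 2 / 3) :
    ∃ A : E ≃ᵢ E, ∀ q ∈ X.S, I.v q = A q := by
  obtain ⟨J, s, c, hs, hJ, hc⟩ := (I.lp2 hI).cvx
  obtain ⟨A, hA⟩ := J.rigid_of_frame (fun y => hc.frame y)
  rcases hs with rfl | rfl
  · refine ⟨A.trans (IsometryEquiv.addRight c), fun q hq => ?_⟩
    have h1 := hA q hq
    rw [hJ, one_smul] at h1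
    simp [← h1]
  · refine ⟨A.trans ((LinearIsometryEquiv.neg ℝ (E := E)).toIsometryEquiv.trans
      (IsometryEquiv.addRight c)), fun q hq => ?_⟩
    have h1 := hA q hq
    rw [hJ, neg_one_smul] at h1
    simp [← h1]

end Pool.Agent.Bor
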