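import Pool.Agent.P.MP_26ecb7_gt.EndSew
import Pool.Agent.P.MP_26ecb7_gt.Est

noncomputable section
open Set Filter Topology MeasureTheory Metric
open scoped RealInnerProductSpace ContDiff ENNReal

namespace Pool.Agent.Bor

theorem endtr_deriv {S : Set P} (hb : Bornology.IsBounded S) {h : P → P} (hc : Continuous h)
    {β : P → ℝ} (hβ : ContDiff ℝ ∞ β) (hs : HasCompactSupport β) (a e : P) (τ : ℝ) :
    HasDerivAt (fun t : ℝ => ∫ x in S, β (h x - (a + t • e)))
      (∫ x in S, -(fderiv ℝ β (h x - (a + τ • e)) e)) τ := by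
  have hfin : IsFiniteMeasure (volume.restrict S) :=
    isFiniteMeasure_restrict.2 hb.measure_lt_top.ne
  have hd : Continuous (fderiv ℝ β) := hβ.continuous_fderiv (by simp)
  obtain ⟨B, hB⟩ := hd.bounded_above_of_compact_support (hs.fderiv ℝ)
  obtain ⟨B0, hB0⟩ := hβ.continuous.bounded_above_of_compact_support hs
  have hc1 : ∀ t : ℝ, Continuous fun x => β (h x - (a + t • e)) := fun t =>
    hβ.continuous.comp (hc.sub continuous_const)
  have hc2 : Continuous fun x => -(fderiv ℝ β (h x - (a + τ • e)) e) :=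
    ((hd.comp (hc.sub continuous_const)).clm_apply continuous_const).neg
  refine (hasDerivAt_integral_of_dominated_loc_of_deriv_le (μ := volume.restrict S)
    (F := fun (t : ℝ) x => β (h x - (a + t • e)))
    (F' := fun (t : ℝ) x => -(fderiv ℝ β (h x - (a + t • e)) e)) (s := univ)
    (bound := fun _ => B * ‖e‖) univ_mem
    (Eventually.of_forall fun t => (hc1 t).aestronglyMeasurable) ?_ hc2.aestronglyMeasurable
    (Eventually.of_forall fun x t _ => ?_) (integrable_const _)
    (Eventually.of_forall fun x t _ => ?_)).2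
  · exact (integrable_const B0).mono' (hc1 τ).aestronglyMeasurable
      (Eventually.of_forall fun x => hB0 _)
  · rw [norm_neg]
    exact (ContinuousLinearMap.le_opNorm _ _).trans
      (mul_le_mul_of_nonneg_right (hB _) (norm_nonneg _))
  · have h1 : HasDerivAt (fun t : ℝ => h x - (a + t • e)) (-e) t := by
      have h2 := (((hasDerivAt_id t).smul_const e).const_add a).const_sub (h x)
      simpa using h2
    have h3 := ((hβ.differentiable (by simp)) (h x - (a + t • e))).hasFDerivAt.comp_hasDerivAt t h1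
    rw [map_neg] at h3
    exact h3

/-- transport of the support of a measure invariant in one direction -/
theorem transport {S : Set P} (hS : MeasurableSet S) (hb : Bornology.IsBounded S) {h : P → P}
    (hc : Continuous h) {z0 : P} {ρ v : ℝ}
    (hk : ∀ χ : P → ℝ, ContDiff ℝ ∞ χ → (∀ y, y ∉ ball z0 ρ → χ y = 0) →
      ∫ x in S, (pd 0 χ (h x) - v * pd 1 χ (h x)) = 0)
    {x0 : P} (hx : ∀ ε > 0, volume (S ∩ ball x0 ε) ≠ 0) (h0 : h x0 ∈ ball z0 ρ) {s : ℝ}
    (hs : h x0 + s • ((1, -v) : P) ∈ ball z0 ρ) :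
    h x0 + s • ((1, -v) : P) ∈ closure (h '' S) := by
  set e : P := (1, -v) with he
  set a : P := h x0 with ha
  set m : ℝ := max (dist a z0) (dist (a + s • e) z0) with hm
  have hmρ : m < ρ := max_lt (mem_ball.1 h0) (mem_ball.1 hs)
  have hseg : ∀ τ ∈ uIcc (0 : ℝ) s, dist (a + τ • e) z0 ≤ m := by
    intro τ hτ
    rw [← segment_eq_uIcc] at hτ
    obtain ⟨p, q, hp, hq, hpq, rfl⟩ := hτ
    have h1 : a ∈ closedBall z0 m := mem_closedBall.2 (le_max_left _ _)
    have h2 : a + s • e ∈ closedBall z0 m := mem_closedBall.2 (le_max_right _ _)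
    have h3 := (convex_closedBall z0 m) h1 h2 hp hq hpq
    have e1 : p • a + q • (a + s • e) = a + (p • (0 : ℝ) + q • s) • e := by
      rw [smul_add, ← add_assoc, ← add_smul, hpq, one_smul, smul_zero, zero_add, smul_eq_mul,
        mul_smul]
    rw [e1] at h3
    exact mem_closedBall.1 h3
  rw [Metric.mem_closure_iff]
  intro ε hε
  have hε' : 0 < min ε (ρ - m) := lt_min hε (by linarith)
  let β : ContDiffBump (0 : P) := ⟨min ε (ρ - m) / 2, min ε (ρ - m), by linarith, by linarith⟩
  have hβ : ContDiff ℝ ∞ β := β.contDiff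
  have hout : β.rOut = min ε (ρ - m) := rfl
  have hzero : ∀ τ ∈ uIcc (0 : ℝ) s,
      ∫ x in S, -(fderiv ℝ β (h x - (a + τ • e)) e) = 0 := by
    intro τ hτ
    have h1 := hk (fun y => β (y - (a + τ • e))) (hβ.comp (contDiff_id.sub contDiff_const)) (by
      intro y hy
      apply β.zero_of_le_dist
      rw [hout, dist_zero_right, ← dist_eq_norm]
      have h2 := not_lt.1 (mt mem_ball.2 hy)
      have h3 := dist_triangle y (a + τ • e) z0
      have h4 := hseg τ hτ
      exact (min_le_right _ _).trans (by linarith))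
    rw [integral_neg, neg_eq_zero, ← h1]
    refine integral_congr_ae (Eventually.of_forall fun x => ?_)
    have h5 := fderiv_eq_pd (fun y => β (y - (a + τ • e))) (h x) e
    rw [fderiv_comp_sub] at h5
    have h6 : e.1 = 1 := rfl
    have h7 : e.2 = -v := rfl
    rw [h6, h7, smul_eq_mul, smul_eq_mul] at h5
    show fderiv ℝ β (h x - (a + τ • e)) e = pd 0 (fun y => β (y - (a + τ • e))) (h x) -
      v * pd 1 (fun y => β (y - (a + τ • e))) (h x)
    rw [h5]
    ring
  have hconst := Convex.norm_image_sub_le_of_norm_hasDerivWithin_le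
    (f := fun t : ℝ => ∫ x in S, β (h x - (a + t • e)))
    (f' := fun t : ℝ => ∫ x in S, -(fderiv ℝ β (h x - (a + t • e)) e)) (C := 0)
    (s := uIcc (0 : ℝ) s)
    (fun t _ => (endtr_deriv hb hc hβ β.hasCompactSupport a e t).hasDerivWithinAt)
    (fun t ht => by rw [hzero t ht, norm_zero]) (convex_uIcc 0 s) left_mem_uIcc right_mem_uIcc
  rw [zero_mul, norm_le_zero_iff, sub_eq_zero, zero_smul, add_zero] at hconst
  by_contra hcon
  have hz : ∫ x in S, β (h x - (a + s • e)) = 0 := by
    refine setIntegral_eq_zero_of_forall_eq_zero fun x hxS => ?_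
    apply β.zero_of_le_dist
    rw [hout, dist_zero_right, ← dist_eq_norm, dist_comm]
    by_contra hlt
    exact hcon ⟨h x, mem_image_of_mem h hxS, (not_le.1 hlt).trans_le (min_le_left _ _)⟩
  rw [hz] at hconst
  have hfin : IsFiniteMeasure (volume.restrict S) :=
    isFiniteMeasure_restrict.2 hb.measure_lt_top.ne
  have hc1 : Continuous fun x => β (h x - a) := hβ.continuous.comp (hc.sub continuous_const)
  have hint : Integrable (fun x => β (h x - a)) (volume.restrict S) :=
    (integrable_const (1 : ℝ)).mono' hc1.aestronglyMeasurable (Eventually.of_forall fun x => by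
      rw [Real.norm_eq_abs, abs_of_nonneg β.nonneg]; exact β.le_one)
  have hae := (integral_eq_zero_iff_of_nonneg (fun x => β.nonneg) hint).1 hconst.symm
  obtain ⟨δ, hδ, hδ'⟩ := Metric.continuousAt_iff.1 (hc.continuousAt (x := x0)) _ hε'
  refine hx δ hδ ?_
  have hae' := (ae_restrict_iff' hS).1 hae
  refine measure_mono_null ?_ (ae_iff.1 hae')
  intro x hxx hh
  have h6 : 0 < β (h x - a) := by
    apply β.pos_of_mem_ball
    rw [hout, mem_ball, dist_zero_right, ← dist_eq_norm]
    exact hδ' (mem_ball.1 hxx.2)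
  exact h6.ne' (hh hxx.1)

end Pool.Agent.Bor
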