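import Pool.Agent.P.MP_26ecb7_gt.EndKin
import Pool.Agent.P.MP_26ecb7_gt.EndTr

noncomputable section
open Set Filter Topology MeasureTheory Metric
open scoped RealInnerProductSpace ContDiff ENNReal

namespace Pool.Agent.Bor

theorem endmove_aux {h : P → P} (hc : Continuous h) {c z0 : P} {r ρ v : ℝ} (hr : 0 < r)
    {U T K : Set P} (hU : IsOpen U) (hUT : U ⊆ T) (hT : MeasurableSet T) (hTK : T ⊆ K)
    (hK : IsClosed K)
    (hk : ∀ χ : P → ℝ, ContDiff ℝ ∞ χ → (∀ y, y ∉ ball z0 ρ → χ y = 0) →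
      ∫ x in sqr c r ∩ T, (pd 0 χ (h x) - v * pd 1 χ (h x)) = 0)
    {x : P} (hx : x ∈ sqr c r) (hxU : x ∈ U) (h0 : h x ∈ ball z0 ρ) {s : ℝ}
    (hs : h x + s • ((1, -v) : P) ∈ ball z0 ρ) :
    ∃ y ∈ sqr c r, h y = h x + s • ((1, -v) : P) ∧ y ∈ K := by
  have hcl := transport ((sqr_compact c r).measurableSet.inter hT)
    ((sqr_compact c r).isBounded.subset inter_subset_left) hc hk (x0 := x) ?_ h0 hs
  · have hcp : IsCompact (h '' (sqr c r ∩ K)) := ((sqr_compact c r).inter_right hK).image hc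
    obtain ⟨y, hy, e⟩ := closure_minimal
      (image_mono (inter_subset_inter_right _ hTK)) hcp.isClosed hcl
    exact ⟨y, hy.1, e, hy.2⟩
  · intro ε hε
    obtain ⟨δ, hδ, hb⟩ := Metric.isOpen_iff.1 hU x hxU
    intro hz
    refine vol_sqr_ball hr (lt_min hε hδ) hx (measure_mono_null ?_ hz)
    intro y hy
    exact ⟨⟨hy.1, hUT (hb (ball_subset_ball (min_le_right _ _) hy.2))⟩,
      ball_subset_ball (min_le_left _ _) hy.2⟩

/-- moving along characteristic lines -/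
theorem Ld.move {q1 q2 w : P → ℝ} {A C : ℝ} (D : Ld q1 q2 w A C) {c z0 : P} {r ρ : ℝ} (h : Dy c r)
    (hf : ∀ x ∈ frontier (sqr c r), ρ ≤ dist ((q1 x, w x) : P) z0) {x : P} (hx : x ∈ sqr c r)
    (h0 : ((q1 x, w x) : P) ∈ ball z0 ρ) {s v : ℝ}
    (hs : ((q1 x + s, w x - s * v) : P) ∈ ball z0 ρ) :
    (v < q2 x → ∃ y ∈ sqr c r, ((q1 y, w y) : P) = (q1 x + s, w x - s * v) ∧ v ≤ q2 y) ∧
    (q2 x < v → ∃ y ∈ sqr c r, ((q1 y, w y) : P) = (q1 x + s, w x - s * v) ∧ q2 y ≤ v) := by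
  have hc : Continuous fun x => ((q1 x, w x) : P) := D.h1.continuous.prodMk D.hw.continuous
  have h2 : Continuous q2 := D.h2.continuous
  have e : ((q1 x, w x) : P) + s • ((1, -v) : P) = (q1 x + s, w x - s * v) := by
    ext
    · simp
    · simp [sub_eq_add_neg]
  have hz : ∀ χ : P → ℝ, (∀ y, y ∉ ball z0 ρ → χ y = 0) →
      ∀ x ∈ frontier (sqr c r), χ (q1 x, w x) = 0 :=
    fun χ hχ x hx => hχ _ fun hb => absurd (mem_ball.1 hb) (not_lt.2 (hf x hx))
  refine ⟨fun hv => ?_, fun hv => ?_⟩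
  · have := endmove_aux hc h.pos (U := {x | v < q2 x}) (T := {x | v < q2 x})
      (K := {x | v ≤ q2 x}) (isOpen_lt continuous_const h2) subset_rfl
      (isOpen_lt continuous_const h2).measurableSet (fun y (hy : v < q2 y) => hy.le)
      (isClosed_le continuous_const h2) (fun χ hχ h0 => (D.kin h hχ (hz χ h0) v).1) hx hv h0
      (s := s) (by rw [e]; exact hs)
    rw [e] at this
    exact this
  · have := endmove_aux hc h.pos (U := {x | q2 x < v}) (T := {x | q2 x ≤ v})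
      (K := {x | q2 x ≤ v}) (isOpen_lt h2 continuous_const) (fun y (hy : q2 y < v) => hy.le)
      (isClosed_le h2 continuous_const).measurableSet subset_rfl
      (isClosed_le h2 continuous_const) (fun χ hχ h0 => (D.kin h hχ (hz χ h0) v).2) hx hv h0
      (s := s) (by rw [e]; exact hs)
    rw [e] at this
    exact this

theorem endmove_pick {d1 d2 : ℝ} (h : ¬ (d1 = 0 ∧ d2 = 0)) {α β : ℝ} (hab : α < β) :
    ∃ t, α < t ∧ t < β ∧ d2 + t * d1 ≠ 0 := by
  by_contra hc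
  push Not at hc
  have e1 := hc ((2 * α + β) / 3) (by linarith) (by linarith)
  have e2 := hc ((α + 2 * β) / 3) (by linarith) (by linarith)
  have e3 : (β - α) * d1 = 0 := by linear_combination 3 * e2 - 3 * e1
  have e4 : d1 = 0 := (mul_eq_zero.1 e3).resolve_left (sub_pos.2 hab).ne'
  rw [e4] at e1
  exact h ⟨e4, by linarith⟩

theorem endmove_slope {p y0 : P} {s v α β : ℝ} (hs : s ≠ 0) (e1 : y0.1 = p.1 + s)
    (e2 : y0.2 = p.2 - s * v) (h1 : α < v) (h2 : v < β) :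
    ∀ᶠ y : P in 𝓝 y0, ∃ s v : ℝ, α < v ∧ v < β ∧ ((p.1 + s, p.2 - s * v) : P) = y := by
  have hn : y0.1 - p.1 ≠ 0 := by rw [e1]; simpa using hs
  have hV : ContinuousAt (fun y : P => -(y.2 - p.2) / (y.1 - p.1)) y0 :=
    ContinuousAt.div (by fun_prop) (by fun_prop) hn
  have hv : -(y0.2 - p.2) / (y0.1 - p.1) = v := by
    rw [div_eq_iff hn, e1, e2]
    ring
  have hN : ContinuousAt (fun y : P => y.1 - p.1) y0 := by fun_prop
  filter_upwards [hV.eventually (Ioo_mem_nhds (hv ▸ h1) (hv ▸ h2)), hN.eventually_ne hn]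
    with y a1 a2
  refine ⟨y.1 - p.1, _, a1.1, a1.2, Prod.ext ?_ ?_⟩
  · simp
  · change p.2 - (y.1 - p.1) * (-(y.2 - p.2) / (y.1 - p.1)) = y.2
    rw [mul_div_cancel₀ _ a2]
    ring

/-- two open cones with different vertices meet off a null set -/
theorem cone_meet {p p' z0 : P} {ρ a b B e : ℝ} (hab : a < b) (hB : |a| ≤ B ∧ |b| ≤ B)
    (hne : p ≠ p') (hp : dist p z0 < ρ / 4) (h1 : |p'.2 - p.2 + b * (p'.1 - p.1)| ≤ e * (b - a))
    (h2 : (1 + B) * (3 * e + 3 * |p'.1 - p.1|) < ρ / 2) {Z : Set P} (hZ : volume Z = 0) :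
    ∃ s v s' u : ℝ, u < v ∧ v < b ∧ a < u ∧ ((p.1 + s, p.2 - s * v) : P) = (p'.1 + s', p'.2 - s' * u)
      ∧ ((p.1 + s, p.2 - s * v) : P) ∈ ball z0 ρ ∧ ((p.1 + s, p.2 - s * v) : P) ∉ Z := by
  have hd : ¬ (p'.1 - p.1 = 0 ∧ p'.2 - p.2 = 0) := fun h =>
    hne (Prod.ext (sub_eq_zero.1 h.1).symm (sub_eq_zero.1 h.2).symm)
  obtain ⟨v, v1, v2, v3⟩ := endmove_pick hd (α := b - (b - a) / 3) (β := b) (by linarith)
  obtain ⟨u, u1, u2, u3⟩ := endmove_pick hd (α := a) (β := a + (b - a) / 3) (by linarith)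
  have hvu : 0 < v - u := by linarith
  obtain ⟨s, hs⟩ : ∃ s : ℝ, s * (v - u) = -(p'.2 - p.2 + u * (p'.1 - p.1)) :=
    ⟨_, div_mul_cancel₀ _ hvu.ne'⟩
  have hs0 : s ≠ 0 := by
    rintro rfl
    exact u3 (by linarith)
  have hs1 : s - (p'.1 - p.1) ≠ 0 := by
    intro h
    apply v3
    linear_combination hs - (v - u) * h
  have hb : |s| ≤ 3 * e + 3 * |p'.1 - p.1| := by
    have a1 : |s| * (v - u) ≤ e * (b - a) + (b - a) * |p'.1 - p.1| := by
      have a2 : s * (v - u) = -(p'.2 - p.2 + b * (p'.1 - p.1)) + (b - u) * (p'.1 - p.1) := by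
        rw [hs]
        ring
      have a3 := abs_add_le (-(p'.2 - p.2 + b * (p'.1 - p.1))) ((b - u) * (p'.1 - p.1))
      rw [← a2, abs_neg, abs_mul, abs_mul, abs_of_pos hvu, abs_of_pos (by linarith : 0 < b - u)]
        at a3
      have a4 : (b - u) * |p'.1 - p.1| ≤ (b - a) * |p'.1 - p.1| :=
        mul_le_mul_of_nonneg_right (by linarith) (abs_nonneg _)
      linarith
    have a5 : |s| * ((b - a) / 3) ≤ |s| * (v - u) :=
      mul_le_mul_of_nonneg_left (by linarith) (abs_nonneg _)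
    refine le_of_mul_le_mul_right ?_ (show 0 < (b - a) / 3 by linarith)
    linarith
  have hB0 : 0 ≤ B := (abs_nonneg _).trans hB.1
  have hvB : |v| ≤ B := abs_le.2 ⟨by linarith [(abs_le.1 hB.1).1], by linarith [(abs_le.1 hB.2).2]⟩
  have hball : ((p.1 + s, p.2 - s * v) : P) ∈ ball z0 ρ := by
    have a1 : dist ((p.1 + s, p.2 - s * v) : P) p ≤ (1 + B) * |s| := by
      have a2 := mul_le_mul_of_nonneg_left hvB (abs_nonneg s)
      have a3 := mul_nonneg hB0 (abs_nonneg s)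
      rw [Prod.dist_eq, max_le_iff, Real.dist_eq, Real.dist_eq]
      constructor
      · rw [add_sub_cancel_left]
        linarith
      · rw [sub_sub_cancel_left, abs_neg, abs_mul]
        linarith [abs_nonneg s]
    have a4 := mul_le_mul_of_nonneg_left hb (show 0 ≤ 1 + B by linarith)
    have a5 := dist_triangle ((p.1 + s, p.2 - s * v) : P) p z0
    have a6 := dist_nonneg (x := p) (y := z0)
    rw [mem_ball]
    linarith
  have k1 := endmove_slope (p := p) (y0 := (p.1 + s, p.2 - s * v)) (v := v) (α := (a + b) / 2)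
    (β := b) hs0 rfl rfl (by linarith) v2
  have k2 := endmove_slope (p := p') (y0 := (p.1 + s, p.2 - s * v)) (v := u) (α := a)
    (β := (a + b) / 2) hs1 (by change p.1 + s = _; ring)
    (by change p.2 - s * v = _; linear_combination (-1 : ℝ) * hs) u1 (by linarith)
  have k3 := (k1.and k2).and (isOpen_ball.mem_nhds hball)
  by_contra hc
  refine (Measure.measure_pos_of_mem_nhds volume k3).ne' (measure_mono_null ?_ hZ)
  rintro y ⟨⟨⟨s, v, a1, a2, rfl⟩, s', u, a3, a4, a5⟩, a6⟩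
  by_contra hy
  exact hc ⟨s, v, s', u, a4.trans a1, a2, a3, a5.symm, a6, hy⟩

end Pool.Agent.Bor
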