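import Pool.Agent.P.MP_26ecb7_gt.EndCone

noncomputable section
open Set Filter Topology MeasureTheory Metric
open scoped RealInnerProductSpace ContDiff ENNReal

namespace Pool.Agent.Bor

theorem endnorm_lin {f g h : P → ℝ} {c : P} {r : ℝ} (a b : ℝ) (hf : Hb f) (hg : Hb g) (hh : Hb h)
    (hr : 0 < r) : yl c r (fun x => a * f x + b * g x) h = a * yl c r f h + b * yl c r g h := by
  rw [yl_add (hf.const_mul a) (hg.const_mul b) hh hr, yl_mul a hf hh hr, yl_mul b hg hh hr]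

theorem endnorm_d1 {q1 q2 : P → ℝ} (h1 : Hb q1) (h2 : Hb q2) {d1 d2 : ℝ}
    (z0 : ∀ c r, 0 < r → sqr c r ⊆ sqr 0 1 → yl c r q2 q1 = 0)
    (z1 : ∀ c r, Dy c r → yl c r (fun x => q1 x * q2 x) q1 = d1 * r ^ 2)
    (z2 : ∀ c r, Dy c r → yl c r (fun x => q2 x * q2 x) q1 = d2 * r ^ 2) : d1 = 0 := by
  by_contra hd
  have e1 : ∀ c r, 0 < r → yl c r q1 q1 = 0 := fun c r hr => by
    linarith [yl_parts (c := c) h1 h1 hr]
  have e2 : ∀ c r, 0 < r → yl c r (fun x => q1 x * q1 x) q1 = 0 := fun c r hr => by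
    linarith [yl_sq (c := c) h1 h1 hr]
  refine Nd.false (q1 := q1) (q2 := fun x => -d1 * q2 x + d2 / 2 * q1 x) (A := d1 ^ 2)
    ⟨h1, (h2.const_mul _).add (h1.const_mul _), by positivity, fun c r hr hs => ?_,
      fun c r h => ?_, fun c r h => ?_⟩
  · rw [endnorm_lin _ _ h2 h1 h1 hr, z0 c r hr hs, e1 c r hr]
    ring
  · have e : (fun x => q1 x * (-d1 * q2 x + d2 / 2 * q1 x)) =
        fun x => -d1 * (q1 x * q2 x) + d2 / 2 * (q1 x * q1 x) := funext fun x => by ring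
    rw [e, endnorm_lin _ _ (h1.mul h2) (h1.mul h1) h1 h.pos, z1 c r h, e2 c r h.pos]
    ring
  · have e : (fun x => (-d1 * q2 x + d2 / 2 * q1 x) * (-d1 * q2 x + d2 / 2 * q1 x)) =
        fun x => 1 * (d1 ^ 2 * (q2 x * q2 x) + -(d1 * d2) * (q1 x * q2 x)) +
          (d2 / 2) ^ 2 * (q1 x * q1 x) := funext fun x => by ring
    rw [e, endnorm_lin _ _ (((h2.mul h2).const_mul _).add ((h1.mul h2).const_mul _)) (h1.mul h1)
      h1 h.pos, endnorm_lin _ _ (h2.mul h2) (h1.mul h2) h1 h.pos, z1 c r h, z2 c r h,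
      e2 c r h.pos]
    ring

/-- constant anomaly in any direction is impossible -/
theorem no_const {q1 q2 : P → ℝ} (h1 : Hb q1) (h2 : Hb q2) {d1 d2 : ℝ}
    (z0 : ∀ c r, 0 < r → sqr c r ⊆ sqr 0 1 → yl c r q2 q1 = 0)
    (z1 : ∀ c r, Dy c r → yl c r (fun x => q1 x * q2 x) q1 = d1 * r ^ 2)
    (z2 : ∀ c r, Dy c r → yl c r (fun x => q2 x * q2 x) q1 = d2 * r ^ 2) : d1 = 0 ∧ d2 = 0 := by
  have e : (fun x => q2 x * q1 x) = fun x => q1 x * q2 x := funext fun x => mul_comm _ _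
  have := endnorm_d1 h2 h1 (d1 := -d2 / 2) (d2 := -2 * d1)
    (fun c r hr hs => by rw [yl_parts h1 h2 hr, z0 c r hr hs, neg_zero])
    (fun c r h => by
      have := yl_sq (c := c) h1 h2 h.pos
      rw [z2 c r h] at this
      rw [e]
      linarith)
    (fun c r h => by
      rw [yl_sq h2 h1 h.pos, e, z1 c r h]
      ring)
  exact ⟨endnorm_d1 h1 h2 z0 z1 z2, by linarith⟩

/-- compactness -/
theorem exists_lim {u : ℕ → P → ℝ} {M : ℝ} (hM : 0 ≤ M) (h0 : ∀ k, u k 0 = 0)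
    (h1 : ∀ k, Ho (u k) univ M) : ∃ φ : ℕ → ℕ, StrictMono φ ∧ ∃ u' : P → ℝ, Hb u' ∧
      TendstoUniformlyOn (fun k => u (φ k)) u' atTop (sqr 0 1) := by
  have : CompactSpace (sqr 0 1) := isCompact_iff_compactSpace.1 (sqr_compact 0 1)
  let F : ℕ → BoundedContinuousFunction (sqr 0 1) ℝ := fun k =>
    BoundedContinuousFunction.mkOfCompact ⟨fun x => u k x,
      (continuousOn_univ.1 (h1 k).continuousOn).comp continuous_subtype_val⟩
  have hc : IsCompact (closure (range F)) := by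
    refine BoundedContinuousFunction.arzela_ascoli (Icc (-M) M) isCompact_Icc _ ?_ ?_
    · rintro _ x ⟨k, rfl⟩
      have := ((h1 k).mono (subset_univ (sqr 0 1)) le_rfl).osc hM x.2 (corner_mem zero_le_one)
      rw [h0, sub_zero, tw_one, mul_one] at this
      exact abs_le.1 this
    · refine Metric.equicontinuous_of_continuity_modulus (fun t => M * tw t) ?_ _ ?_
      · simpa [tw_zero] using (continuous_tw.tendsto 0).const_mul M
      · rintro x y ⟨_, k, rfl⟩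
        exact h1 k _ (mem_univ _) _ (mem_univ _)
  obtain ⟨a, -, φ, hφ, hl⟩ := hc.tendsto_subseq fun k => subset_closure (mem_range_self k)
  rw [BoundedContinuousFunction.tendsto_iff_tendstoUniformly] at hl
  classical
  have hv : Ho (fun x => if h : x ∈ sqr 0 1 then a ⟨x, h⟩ else 0) (sqr 0 1) M :=
    Ho.of_tendsto (U := fun n => u (φ n))
      (.of_forall fun n => (h1 _).mono (subset_univ _) le_rfl) fun x hx => by
        rw [dif_pos hx]
        exact hl.tendsto_at ⟨x, hx⟩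
  obtain ⟨u', h2, h3⟩ := exists_ext zero_le_one hM hv
  refine ⟨φ, hφ, u', h2, ?_⟩
  rw [tendstoUniformlyOn_iff_tendstoUniformly_comp_coe]
  have e : u' ∘ (Subtype.val : sqr 0 1 → P) = a := funext fun x => by
    rw [Function.comp_apply, h3 x.2]
    exact dif_pos x.2
  rw [e]
  exact hl

/-- an extremal sequence of squares -/
theorem exists_extremal {N : P → ℝ → ℝ} {Ad : P → ℝ → Prop} {B η : ℝ} (hη : 0 < η)
    (hp : ∀ c r, Ad c r → 0 < r) (hB : ∀ c r, Ad c r → N c r ≤ B)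
    (hn : ∀ ρ > 0, ∃ c r, Ad c r ∧ r < ρ ∧ η < N c r) : ∃ A > 0, ∃ (c : ℕ → P) (r : ℕ → ℝ),
      (∀ k, Ad (c k) (r k)) ∧ Tendsto r atTop (𝓝 0) ∧ Tendsto (fun k => N (c k) (r k)) atTop (𝓝 A)
      ∧ ∀ ε > 0, ∃ ρ > 0, ∀ c r, Ad c r → r < ρ → N c r ≤ A + ε := by
  let T : ℕ → Set ℝ := fun k => {y | ∃ c r, Ad c r ∧ r < 1 / ((k : ℝ) + 1) ∧ N c r = y}
  have hb : ∀ k, BddAbove (T k) := fun k => ⟨B, fun _ ⟨c, r, h, _, e⟩ => e ▸ hB c r h⟩
  have hk : ∀ k : ℕ, (0 : ℝ) < 1 / ((k : ℝ) + 1) := fun k => by positivity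
  have hne : ∀ k, (T k).Nonempty := fun k => by
    obtain ⟨c, r, h1, h2, -⟩ := hn _ (hk k)
    exact ⟨_, c, r, h1, h2, rfl⟩
  have hlo : ∀ k, η ≤ sSup (T k) := fun k => by
    obtain ⟨c, r, h1, h2, h3⟩ := hn _ (hk k)
    exact h3.le.trans (le_csSup (hb k) ⟨c, r, h1, h2, rfl⟩)
  have han : Antitone fun k => sSup (T k) := fun k l hkl =>
    csSup_le_csSup (hb k) (hne l) fun _ ⟨c, r, h1, h2, e⟩ =>
      ⟨c, r, h1, h2.trans_le (Nat.one_div_le_one_div hkl), e⟩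
  have hl := tendsto_atTop_ciInf han ⟨η, by rintro _ ⟨k, rfl⟩; exact hlo k⟩
  have hch : ∀ k : ℕ, ∃ c r, Ad c r ∧ r < 1 / ((k : ℝ) + 1) ∧
      sSup (T k) - 1 / ((k : ℝ) + 1) < N c r := fun k => by
    obtain ⟨_, ⟨c, r, h1, h2, rfl⟩, h3⟩ := exists_lt_of_lt_csSup (hne k) (sub_lt_self _ (hk k))
    exact ⟨c, r, h1, h2, h3⟩
  choose c r h1 h2 h3 using hch
  have h0 : Tendsto (fun k : ℕ => 1 / ((k : ℝ) + 1)) atTop (𝓝 0) :=
    tendsto_one_div_add_atTop_nhds_zero_nat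
  refine ⟨_, hη.trans_le (le_ciInf hlo), c, r, h1,
    squeeze_zero (fun k => (hp _ _ (h1 k)).le) (fun k => (h2 k).le) h0,
    tendsto_of_tendsto_of_tendsto_of_le_of_le (by simpa using hl.sub h0) hl
      (fun k => by simpa using (h3 k).le) (fun k => le_csSup (hb k) ⟨_, _, h1 k, h2 k, rfl⟩),
    fun ε hε => ?_⟩
  obtain ⟨k, hk'⟩ := (hl.eventually (gt_mem_nhds (lt_add_of_pos_right _ hε))).exists
  exact ⟨_, hk k, fun c r h4 h5 => (le_csSup (hb k) ⟨c, r, h4, h5, rfl⟩).trans hk'.le⟩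

end Pool.Agent.Bor
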