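import Pool.Agent.P.MP_26ecb7_gt.EndYl

noncomputable section
open Set Filter Topology MeasureTheory Metric
open scoped RealInnerProductSpace ContDiff ENNReal

namespace Pool.Agent.Bor

/-- the loop integral over the rectangle with corners the origin and `(s, t)` -/
def endrect_R (q1 q2 : P → ℝ) (s t : ℝ) : ℝ :=
  yi (fun u => q2 (u, 0)) (fun u => q1 (u, 0)) 0 s + yi (fun u => q2 (s, u)) (fun u => q1 (s, u)) 0 t
    - yi (fun u => q2 (u, t)) (fun u => q1 (u, t)) 0 s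
    - yi (fun u => q2 (0, u)) (fun u => q1 (0, u)) 0 t

theorem endrect_step (q1 q2 : P → ℝ) (s t h : ℝ) :
    endrect_R q1 q2 (s + h) (t + h) = endrect_R q1 q2 s (t + h) + endrect_R q1 q2 (s + h) t
      - endrect_R q1 q2 s t + yl (s, t) h q2 q1 := by
  unfold endrect_R yl yi
  dsimp only
  ring

theorem endrect_left (q1 q2 : P → ℝ) (t : ℝ) : endrect_R q1 q2 0 t = 0 := by
  unfold endrect_R yi
  ring

theorem endrect_bot (q1 q2 : P → ℝ) (s : ℝ) : endrect_R q1 q2 s 0 = 0 := by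
  unfold endrect_R yi
  ring

theorem endrect_grid {q1 q2 : P → ℝ} {A : ℝ} (D : Nd q1 q2 A) {h : ℝ} (hh : 0 < h) :
    ∀ i j : ℕ, (i : ℝ) * h ≤ 1 → (j : ℝ) * h ≤ 1 → endrect_R q1 q2 (i * h) (j * h) = 0 := by
  intro i
  induction i with
  | zero =>
    intro j _ _
    simpa using endrect_left q1 q2 (j * h)
  | succ i ih =>
    intro j hi
    have hi1 : ((i + 1 : ℕ) : ℝ) * h = i * h + h := by push_cast; ring
    have hi0 : (0 : ℝ) ≤ i * h := by positivity
    induction j with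
    | zero =>
      intro _
      simpa using endrect_bot q1 q2 (((i + 1 : ℕ) : ℝ) * h)
    | succ j ihj =>
      intro hj
      have hj1 : ((j + 1 : ℕ) : ℝ) * h = j * h + h := by push_cast; ring
      have hj0 : (0 : ℝ) ≤ j * h := by positivity
      have hi' : (i : ℝ) * h ≤ 1 := by linarith
      have hj' : (j : ℝ) * h ≤ 1 := by linarith
      have e1 := ih (j + 1) hi' hj
      have e2 := ihj hj'
      have e3 := ih j hi' hj'
      have e4 : yl ((i : ℝ) * h, (j : ℝ) * h) h q2 q1 = 0 := by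
        refine D.z0 _ _ hh ?_
        unfold sqr
        refine Icc_subset_Icc ⟨hi0, hj0⟩ ⟨?_, ?_⟩
        · show (i : ℝ) * h + h ≤ (0 : P).1 + 1
          simp only [Prod.fst_zero]
          linarith
        · show (j : ℝ) * h + h ≤ (0 : P).2 + 1
          simp only [Prod.snd_zero]
          linarith
      rw [hi1] at e2 ⊢
      rw [hj1] at e1 ⊢
      rw [endrect_step, e1, e2, e3, e4]
      ring

/-- bounded and Hoelder with a given constant -/
def endrect_G {X : Type} [PseudoMetricSpace X] (u : X → ℝ) (M : ℝ) : Prop :=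
  0 ≤ M ∧ (∀ x, |u x| ≤ M) ∧ Ho u univ M

theorem endrect_G_iso {u : P → ℝ} {M : ℝ} (hu : endrect_G u M) {γ : ℝ → P} (hγ : Isometry γ) :
    endrect_G (fun s => u (γ s)) M := by
  refine ⟨hu.1, fun x => hu.2.1 _, fun x _ y _ => ?_⟩
  have := hu.2.2 (γ x) (mem_univ _) (γ y) (mem_univ _)
  rwa [hγ.dist_eq] at this

theorem endrect_row (t : ℝ) : Isometry fun u : ℝ => ((u, t) : P) :=
  Isometry.of_dist_eq fun x y => by simp [Prod.dist_eq]

theorem endrect_col (s : ℝ) : Isometry fun u : ℝ => ((s, u) : P) :=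
  Isometry.of_dist_eq fun x y => by simp [Prod.dist_eq]

theorem endrect_short {f g : ℝ → ℝ} {M a b : ℝ} (hf : endrect_G f M) (hg : endrect_G g M)
    (hab : a ≤ b) (hl : b - a ≤ 1) : |yi f g a b| ≤ 6 * (M * M) * tw (b - a) := by
  have hM := hf.1
  have h0 : 0 ≤ b - a := by linarith
  have h1 := yi_bound (f := f) (g := g) ⟨M, hf⟩ ⟨M, hg⟩ hab hM hM
    (hf.2.2.mono (subset_univ _) le_rfl) (hg.2.2.mono (subset_univ _) le_rfl)
  have h2 : |g b - g a| ≤ M * tw (b - a) := by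
    have := hg.2.2 b (mem_univ _) a (mem_univ _)
    rwa [Real.dist_eq, abs_of_nonneg h0] at this
  have h3 : |f a * (g b - g a)| ≤ M * (M * tw (b - a)) := by
    rw [abs_mul]
    exact mul_le_mul (hf.2.1 a) h2 (abs_nonneg _) hM
  have t0 := tw_nonneg h0
  have t1 := tw_le_one h0 hl
  have h4 : tw (b - a) ^ 2 ≤ tw (b - a) := by nlinarith
  have h5 : 5 * (M * M) * tw (b - a) ^ 2 ≤ 5 * (M * M) * tw (b - a) :=
    mul_le_mul_of_nonneg_left h4 (by positivity)
  have h6 : |yi f g a b| ≤ |yi f g a b - f a * (g b - g a)| + |f a * (g b - g a)| := by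
    have := abs_add_le (yi f g a b - f a * (g b - g a)) (f a * (g b - g a))
    simpa using this
  linarith

theorem endrect_stab (M : ℝ) {θ : ℝ} (hθ : 0 < θ) : ∃ ε > 0, ∀ (f g f' g' : ℝ → ℝ) (b : ℝ),
    0 ≤ b → b ≤ 1 → endrect_G f M → endrect_G g M → endrect_G f' M → endrect_G g' M →
    (∀ s, |f s - f' s| ≤ ε) → (∀ s, |g s - g' s| ≤ ε) → |yi f g 0 b - yi f' g' 0 b| ≤ θ := by
  obtain ⟨ε, hε, H⟩ := prim_stab M 1 hθ
  refine ⟨ε, hε, fun f g f' g' b hb hb1 hf hg hf' hg' h1 h2 => ?_⟩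
  exact H f g (prim f g) f' g' (prim f' g') 0 b hb (by linarith)
    (hf.2.2.mono (subset_univ _) le_rfl) (hg.2.2.mono (subset_univ _) le_rfl)
    (hf'.2.2.mono (subset_univ _) le_rfl) (hg'.2.2.mono (subset_univ _) le_rfl)
    (fun s _ => hf.2.1 s) (fun s _ => h1 s) (fun s _ => h2 s)
    (prim_prim ⟨M, hf⟩ ⟨M, hg⟩ 0 b) (prim_prim ⟨M, hf'⟩ ⟨M, hg'⟩ 0 b)

theorem endrect_cont {q1 q2 : P → ℝ} (h1 : Hb q1) (h2 : Hb q2) {θ : ℝ} (hθ : 0 < θ) :
    ∃ δ > 0, ∀ s t s' t' : ℝ, 0 ≤ s' → s' ≤ s → s ≤ 1 → 0 ≤ t' → t' ≤ t → t ≤ 1 → s - s' < δ →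
      t - t' < δ → |endrect_R q1 q2 s t - endrect_R q1 q2 s' t'| ≤ 6 * θ := by
  obtain ⟨M, hM, a1, a2, b1, b2⟩ := h1.two h2
  have g1 : endrect_G q1 M := ⟨hM, a1, b1⟩
  have g2 : endrect_G q2 M := ⟨hM, a2, b2⟩
  obtain ⟨ε, hε, H⟩ := endrect_stab M hθ
  have hη : 0 < min (ε / (M + 1)) (θ / (6 * (M * M) + 1)) := by positivity
  obtain ⟨δ, hδ, Hδ⟩ := tw_small hη
  have hA : ∀ r, 0 ≤ r → r < δ → M * tw r ≤ ε := by
    intro r hr hr'
    have h3 := (Hδ r hr hr').le.trans (min_le_left _ _)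
    rw [le_div_iff₀ (by positivity)] at h3
    have := tw_nonneg hr
    nlinarith
  have hB : ∀ r, 0 ≤ r → r < δ → 6 * (M * M) * tw r ≤ θ := by
    intro r hr hr'
    have h3 := (Hδ r hr hr').le.trans (min_le_right _ _)
    rw [le_div_iff₀ (by positivity)] at h3
    have := tw_nonneg hr
    nlinarith
  refine ⟨δ, hδ, fun s t s' t' hs0 hs hs1 ht0 ht ht1 ds dt => ?_⟩
  have rowc : ∀ q : P → ℝ, endrect_G q M → ∀ u, |q (u, t) - q (u, t')| ≤ ε := by
    intro q hq u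
    have := hq.2.2 (u, t) (mem_univ _) (u, t') (mem_univ _)
    rw [(endrect_col u).dist_eq, Real.dist_eq, abs_of_nonneg (sub_nonneg.mpr ht)] at this
    exact this.trans (hA _ (by linarith) dt)
  have colc : ∀ q : P → ℝ, endrect_G q M → ∀ u, |q (s, u) - q (s', u)| ≤ ε := by
    intro q hq u
    have := hq.2.2 (s, u) (mem_univ _) (s', u) (mem_univ _)
    rw [(endrect_row u).dist_eq, Real.dist_eq, abs_of_nonneg (sub_nonneg.mpr hs)] at this
    exact this.trans (hA _ (by linarith) ds)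
  have r1 := fun t => endrect_G_iso g1 (endrect_row t)
  have r2 := fun t => endrect_G_iso g2 (endrect_row t)
  have c1 := fun s => endrect_G_iso g1 (endrect_col s)
  have c2 := fun s => endrect_G_iso g2 (endrect_col s)
  have e1 := (endrect_short (r2 0) (r1 0) hs (by linarith)).trans (hB _ (by linarith) ds)
  have e2 := (endrect_short (r2 t) (r1 t) hs (by linarith)).trans (hB _ (by linarith) ds)
  have e3 := (endrect_short (c2 0) (c1 0) ht (by linarith)).trans (hB _ (by linarith) dt)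
  have e4 := (endrect_short (c2 s) (c1 s) ht (by linarith)).trans (hB _ (by linarith) dt)
  have e5 := H _ _ _ _ s' hs0 (by linarith) (r2 t) (r1 t) (r2 t') (r1 t') (rowc q2 g2) (rowc q1 g1)
  have e6 := H _ _ _ _ t' ht0 (by linarith) (c2 s) (c1 s) (c2 s') (c1 s') (colc q2 g2) (colc q1 g1)
  unfold endrect_R
  unfold yi at *
  rw [abs_le] at *
  constructor <;> linarith [e1.1, e1.2, e2.1, e2.2, e3.1, e3.2, e4.1, e4.2, e5.1, e5.2, e6.1, e6.2]

/-- the loop integral over a rectangle with a corner at the origin vanishes -/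
theorem Nd.rect {q1 q2 : P → ℝ} {A : ℝ} (D : Nd q1 q2 A) {s t : ℝ} (hs : s ∈ Icc (0 : ℝ) 1)
    (ht : t ∈ Icc (0 : ℝ) 1) :
    yi (fun u => q2 (u, 0)) (fun u => q1 (u, 0)) 0 s + yi (fun u => q2 (s, u)) (fun u => q1 (s, u)) 0 t
      - yi (fun u => q2 (u, t)) (fun u => q1 (u, t)) 0 s
      - yi (fun u => q2 (0, u)) (fun u => q1 (0, u)) 0 t = 0 := by
  change endrect_R q1 q2 s t = 0
  have key : ∀ θ : ℝ, 0 < θ → |endrect_R q1 q2 s t| ≤ 0 + θ := by
    intro θ hθ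
    obtain ⟨δ, hδ, H⟩ := endrect_cont D.h1 D.h2 (θ := θ / 6) (by positivity)
    have fl : ∀ x : ℝ, 0 ≤ x → (⌊x / δ⌋₊ : ℝ) * δ ≤ x ∧ x - (⌊x / δ⌋₊ : ℝ) * δ < δ := by
      intro x hx
      have a1 : (⌊x / δ⌋₊ : ℝ) ≤ x / δ := Nat.floor_le (by positivity)
      have a2 : x / δ < ⌊x / δ⌋₊ + 1 := Nat.lt_floor_add_one _
      rw [le_div_iff₀ hδ] at a1
      rw [div_lt_iff₀ hδ] at a2
      exact ⟨a1, by linarith⟩
    obtain ⟨s1, s2⟩ := fl s hs.1
    obtain ⟨t1, t2⟩ := fl t ht.1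
    have z := endrect_grid D hδ ⌊s / δ⌋₊ ⌊t / δ⌋₊ (s1.trans hs.2) (t1.trans ht.2)
    have := H s t _ _ (by positivity) s1 hs.2 (by positivity) t1 ht.2 s2 t2
    rw [z, sub_zero] at this
    linarith
  exact abs_nonpos_iff.mp (le_of_forall_pos_le_add key)

end Pool.Agent.Bor
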