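import Pool.Agent.P.MP_26ecb7_gt.EndYl
import Pool.Agent.P.MP_26ecb7_gt.Est

noncomputable section
open Set Filter Topology MeasureTheory Metric
open scoped RealInnerProductSpace ContDiff ENNReal

namespace Pool.Agent.Bor

theorem endtay_symm {Y : Type} [NormedAddCommGroup Y] [NormedSpace ℝ Y] {G : Y → ℝ}
    (hG : ContDiff ℝ ∞ G) (y u v : Y) :
    fderiv ℝ (fderiv ℝ G) y u v = fderiv ℝ (fderiv ℝ G) y v u :=
  (hG.contDiffAt.isSymmSndFDerivAt (by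
    rw [minSmoothness_of_isRCLikeNormedField]
    exact WithTop.coe_le_coe.2 (le_top : (2 : ℕ∞) ≤ ⊤))).eq _ _

theorem endtay_quad {Y : Type} [NormedAddCommGroup Y] [NormedSpace ℝ Y] (B : Y →L[ℝ] Y →L[ℝ] ℝ)
    (hB : ∀ u v, B u v = B v u) (y0 y : Y) :
    HasFDerivAt (fun z => 1 / 2 * B (z - y0) (z - y0)) (B (y - y0)) y := by
  have h1 : HasFDerivAt (fun z : Y => z - y0) (ContinuousLinearMap.id ℝ Y) y :=
    (hasFDerivAt_id y).sub_const y0
  refine ((B.hasFDerivAt_of_bilinear h1 h1).const_mul (1 / 2 : ℝ)).congr_fderiv ?_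
  ext v
  simp [hB v y, hB v y0]
  ring

/-- second order Taylor remainder, uniformly on bounded sets -/
theorem exists_tay {Y : Type} [NormedAddCommGroup Y] [NormedSpace ℝ Y] [FiniteDimensional ℝ Y]
    {G : Y → ℝ} (hG : ContDiff ℝ ∞ G) (ρ : ℝ) : ∃ Λ, 0 ≤ Λ ∧ ∀ (y0 y y' : Y) (O : ℝ), ‖y0‖ ≤ ρ →
      ‖y‖ ≤ ρ → ‖y'‖ ≤ ρ → ‖y - y0‖ ≤ O → ‖y' - y0‖ ≤ O →
      |(G y - fderiv ℝ G y0 (y - y0) - 1 / 2 * fderiv ℝ (fderiv ℝ G) y0 (y - y0) (y - y0))
        - (G y' - fderiv ℝ G y0 (y' - y0) - 1 / 2 * fderiv ℝ (fderiv ℝ G) y0 (y' - y0) (y' - y0))|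
        ≤ Λ * O ^ 2 * ‖y - y'‖ := by
  have hG1 : ContDiff ℝ ∞ (fderiv ℝ G) := hG.fderiv_right (m := ∞) (by simp)
  have hG2 : ContDiff ℝ ∞ (fderiv ℝ (fderiv ℝ G)) := hG1.fderiv_right (m := ∞) (by simp)
  obtain ⟨C, hC⟩ := (isCompact_closedBall (0 : Y) ρ).exists_bound_of_continuousOn
    (hG2.continuous_fderiv (by simp)).continuousOn
  have hl : ∀ z ∈ closedBall (0 : Y) ρ, ∀ z' ∈ closedBall (0 : Y) ρ,
      ‖fderiv ℝ (fderiv ℝ G) z - fderiv ℝ (fderiv ℝ G) z'‖ ≤ max C 0 * ‖z - z'‖ :=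
    fun z hz z' hz' => (convex_closedBall _ _).norm_image_sub_le_of_norm_fderiv_le
      (fun x _ => hG2.differentiable (by simp) x) (fun x hx => (hC x hx).trans (le_max_left _ _))
      hz' hz
  refine ⟨max C 0, le_max_right _ _, fun y0 y y' O h0 hy hy' hO hO' => ?_⟩
  have hO0 : 0 ≤ O := (norm_nonneg _).trans hO
  have hS : Convex ℝ (closedBall y0 O ∩ closedBall (0 : Y) ρ) :=
    (convex_closedBall _ _).inter (convex_closedBall _ _)
  have hm : ∀ z : Y, ‖z - y0‖ ≤ O → ‖z‖ ≤ ρ → z ∈ closedBall y0 O ∩ closedBall (0 : Y) ρ :=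
    fun z h1 h2 => ⟨mem_closedBall_iff_norm.2 h1, mem_closedBall_zero_iff.2 h2⟩
  have hy0 := hm y0 (by simpa using hO0) h0
  have h1 : ∀ z ∈ closedBall y0 O ∩ closedBall (0 : Y) ρ,
      ‖fderiv ℝ G z - fderiv ℝ G y0 - fderiv ℝ (fderiv ℝ G) y0 (z - y0)‖ ≤ max C 0 * O ^ 2 := by
    intro z hz
    have h2 := hS.norm_image_sub_le_of_norm_fderiv_le' (f := fderiv ℝ G)
      (φ := fderiv ℝ (fderiv ℝ G) y0) (C := max C 0 * O)
      (fun x _ => hG1.differentiable (by simp) x) (fun x hx => (hl x hx.2 y0 hy0.2).trans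
        (mul_le_mul_of_nonneg_left (mem_closedBall_iff_norm.1 hx.1) (le_max_right _ _))) hy0 hz
    refine h2.trans ?_
    rw [pow_two, ← mul_assoc]
    exact mul_le_mul_of_nonneg_left (mem_closedBall_iff_norm.1 hz.1)
      (mul_nonneg (le_max_right _ _) hO0)
  have hd : ∀ z, HasFDerivAt (fun z => G z - fderiv ℝ G y0 (z - y0)
      - 1 / 2 * fderiv ℝ (fderiv ℝ G) y0 (z - y0) (z - y0))
      (fderiv ℝ G z - fderiv ℝ G y0 - fderiv ℝ (fderiv ℝ G) y0 (z - y0)) z := fun z => by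
    refine ((hG.differentiable (by simp) z).hasFDerivAt.sub ?_).sub
      (endtay_quad _ (endtay_symm hG y0) y0 z)
    exact (fderiv ℝ G y0).hasFDerivAt.comp z ((hasFDerivAt_id z).sub_const y0)
  exact hS.norm_image_sub_le_of_norm_hasFDerivWithin_le (fun z _ => (hd z).hasFDerivWithinAt) h1
    (hm y' hO' hy') (hm y hO hy)

/-- expansion of a loop integral -/
theorem exp_gen {Y : Type} [NormedAddCommGroup Y] [NormedSpace ℝ Y] [FiniteDimensional ℝ Y]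
    {G : Y → ℝ} (hG : ContDiff ℝ ∞ G) {f : P → Y} {M : ℝ} (hM : 0 ≤ M) (h0 : ∀ x, ‖f x‖ ≤ M)
    (h1 : ∀ x y, ‖f x - f y‖ ≤ M * tw (dist x y)) {g : P → ℝ} (hg : Hb g) :
    ∃ C, ∀ c r, 0 < r → |yl c r (fun x => G (f x)) g
      - yl c r (fun x => fderiv ℝ G (f c) (f x - f c)
        + 1 / 2 * fderiv ℝ (fderiv ℝ G) (f c) (f x - f c) (f x - f c)) g| ≤ C * tw r ^ 4 := by
  obtain ⟨Λ, hΛ, hT⟩ := exists_tay hG M
  obtain ⟨N, hN, -, hgN⟩ := id hg
  refine ⟨24 * (Λ * M ^ 3 * N), fun c r hr => ?_⟩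
  have ht := tw_nonneg hr.le
  have hA : Hb fun x => G (f x) := Hb.compv (hG.of_le (by exact_mod_cast le_top)) hM h0 h1
  have hB : Hb fun x => fderiv ℝ G (f c) (f x - f c)
      + 1 / 2 * fderiv ℝ (fderiv ℝ G) (f c) (f x - f c) (f x - f c) :=
    Hb.compv (G := fun y => fderiv ℝ G (f c) (y - f c)
      + 1 / 2 * fderiv ℝ (fderiv ℝ G) (f c) (y - f c) (y - f c)) (by fun_prop) hM h0 h1
  have hO : ∀ x ∈ sqr c r, ‖f x - f c‖ ≤ M * tw r := fun x hx => (h1 x c).trans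
    (mul_le_mul_of_nonneg_left (tw_mono dist_nonneg (dist_le_of_sqr hx (corner_mem hr.le))) hM)
  have hR : Ho (fun x => G (f x) - (fderiv ℝ G (f c) (f x - f c)
      + 1 / 2 * fderiv ℝ (fderiv ℝ G) (f c) (f x - f c) (f x - f c)) - G (f c)) (sqr c r)
      (Λ * (M * tw r) ^ 2 * M) := fun x hx y hy => by
    have h2 := hT (f c) (f x) (f y) _ (h0 c) (h0 x) (h0 y) (hO x hx) (hO y hy)
    have h3 := mul_le_mul_of_nonneg_left (h1 x y) (mul_nonneg hΛ (sq_nonneg (M * tw r)))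
    refine le_trans (le_of_eq (congrArg abs (by ring))) (h2.trans (h3.trans (le_of_eq (by ring))))
  have hR0 : ∀ x ∈ sqr c r, |G (f x) - (fderiv ℝ G (f c) (f x - f c)
      + 1 / 2 * fderiv ℝ (fderiv ℝ G) (f c) (f x - f c) (f x - f c)) - G (f c)|
      ≤ Λ * (M * tw r) ^ 2 * M * tw r := fun x hx => by
    simpa using hR.osc (by positivity) hx (corner_mem hr.le)
  have h4 := yl_bound ((hA.sub hB).sub (Hb.const (G (f c)))) hg hr (by positivity) hN hR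
    (hgN.mono (subset_univ _) le_rfl) hR0
  rw [yl_sub (hA.sub hB) (Hb.const _) hg hr, yl_const _ hg hr, sub_zero, yl_sub hA hB hg hr] at h4
  exact h4.trans (le_of_eq (by ring))

theorem endtay_pd {T : P → ℝ} (hT : ContDiff ℝ ∞ T) (y u : P) :
    fderiv ℝ (fderiv ℝ T) y u u = u.1 * u.1 * pd 0 (pd 0 T) y + 2 * (u.2 * u.1) * pd 0 (pd 1 T) y
      + u.2 * u.2 * pd 1 (pd 1 T) y := by
  have h1 : Differentiable ℝ (fderiv ℝ T) :=
    (hT.fderiv_right (m := ∞) (by simp)).differentiable (by simp)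
  have h2 : ∀ i j, pd i (pd j T) y = fderiv ℝ (fderiv ℝ T) y (e2 i) (e2 j) := fun i j => by
    show fderiv ℝ (fun z => fderiv ℝ T z (e2 j)) y (e2 i) = _
    rw [fderiv_clm_apply (h1 y) (differentiableAt_const _)]
    simp
  have e : u = u.1 • e2 0 + u.2 • e2 1 := by simp [e2]
  rw [h2, h2, h2]
  nth_rewrite 1 [e]
  nth_rewrite 3 [e]
  simp only [map_add, map_smul, add_apply, smul_apply,
    smul_eq_mul, endtay_symm hT y (e2 1) (e2 0)]
  ring

theorem exp2 {T : P → ℝ} (hT : ContDiff ℝ ∞ T) {a b : P → ℝ} (ha : Hb a) (hb : Hb b) :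
    ∃ C, ∀ c r, 0 < r → |yl c r (fun x => T (a x, b x)) b - pd 0 T (a c, b c) * yl c r a b
      - 1 / 2 * pd 0 (pd 0 T) (a c, b c) * yl c r (fun x => (a x - a c) * (a x - a c)) b
      - pd 0 (pd 1 T) (a c, b c) * yl c r (fun x => (b x - b c) * (a x - a c)) b|
      ≤ C * tw r ^ 4 := by
  obtain ⟨M, hM, h0, h1⟩ := ha.pair hb
  obtain ⟨C, hC⟩ := exp_gen hT (f := fun x => ((a x, b x) : P)) hM h0 h1 hb
  refine ⟨C, fun c r hr => ?_⟩
  have h := hC c r hr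
  have ha' := ha.sub (Hb.const (a c))
  have hb' := hb.sub (Hb.const (b c))
  have hF : ContDiff ℝ ∞ fun s : ℝ => pd 1 T (a c, b c) * (s - b c)
      + 1 / 2 * pd 1 (pd 1 T) (a c, b c) * ((s - b c) * (s - b c)) := by fun_prop
  have e : (fun x => fderiv ℝ T (a c, b c) ((a x, b x) - (a c, b c))
      + 1 / 2 * fderiv ℝ (fderiv ℝ T) (a c, b c) ((a x, b x) - (a c, b c))
        ((a x, b x) - (a c, b c))) = fun x => pd 0 T (a c, b c) * (a x - a c)
      + 1 / 2 * pd 0 (pd 0 T) (a c, b c) * ((a x - a c) * (a x - a c))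
      + pd 0 (pd 1 T) (a c, b c) * ((b x - b c) * (a x - a c))
      + (pd 1 T (a c, b c) * (b x - b c)
        + 1 / 2 * pd 1 (pd 1 T) (a c, b c) * ((b x - b c) * (b x - b c))) := by
    funext x
    rw [endtay_pd hT, fderiv_eq_pd]
    simp only [Prod.fst_sub, Prod.snd_sub, smul_eq_mul]
    ring
  have k1 := ha'.const_mul (pd 0 T (a c, b c))
  have k2 := (ha'.mul ha').const_mul (1 / 2 * pd 0 (pd 0 T) (a c, b c))
  have k3 := (hb'.mul ha').const_mul (pd 0 (pd 1 T) (a c, b c))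
  rw [e, yl_add ((k1.add k2).add k3) (hb.comp1 hF) hb hr, yl_add (k1.add k2) k3 hb hr,
    yl_add k1 k2 hb hr, yl_chain hF hb hr, yl_mul _ ha' hb hr, yl_mul _ (ha'.mul ha') hb hr,
    yl_mul _ (hb'.mul ha') hb hr, yl_sub ha (Hb.const _) hb hr, yl_const _ hb hr] at h
  exact le_trans (le_of_eq (congrArg abs (by ring))) h

end Pool.Agent.Bor
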