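import Pool.Agent.P.MP_26ecb7_gt.Alg

noncomputable section
open Set Filter Topology MeasureTheory Metric
open scoped RealInnerProductSpace ContDiff ENNReal

namespace Pool.Agent.Bor

theorem sqr_compact (c : P) (r : ℝ) : IsCompact (sqr c r) := isCompact_Icc
theorem mem_sqr {c x : P} {r : ℝ} :
    x ∈ sqr c r ↔ (c.1 ≤ x.1 ∧ x.1 ≤ c.1 + r) ∧ (c.2 ≤ x.2 ∧ x.2 ≤ c.2 + r) := by
  simp only [sqr, mem_Icc, Prod.le_def]
  tauto
theorem dist_le_of_sqr {c x y : P} {r : ℝ} (hx : x ∈ sqr c r) (hy : y ∈ sqr c r) : dist x y ≤ r := by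
  rw [mem_sqr] at hx hy
  rw [Prod.dist_eq, max_le_iff, Real.dist_eq, Real.dist_eq, abs_le, abs_le]
  obtain ⟨⟨a1, a2⟩, a3, a4⟩ := hx
  obtain ⟨⟨b1, b2⟩, b3, b4⟩ := hy
  refine ⟨⟨?_, ?_⟩, ?_, ?_⟩ <;> linarith

theorem green0_prod (c : P) (r : ℝ) : sqr c r = Icc c.1 (c.1 + r) ×ˢ Icc c.2 (c.2 + r) := by
  ext x
  rw [mem_sqr, mem_prod, mem_Icc, mem_Icc]

theorem volume_sqr (c : P) {r : ℝ} (hr : 0 ≤ r) : volume (sqr c r) = ENNReal.ofReal (r ^ 2) := by
  rw [green0_prod, Measure.volume_eq_prod, Measure.prod_prod, Real.volume_Icc, Real.volume_Icc,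
    add_sub_cancel_left, add_sub_cancel_left, ← ENNReal.ofReal_mul hr, pow_two]
theorem closedBall_eq_sqr (x : P) (r : ℝ) : closedBall x r = sqr (x.1 - r, x.2 - r) (2 * r) := by
  ext y
  rw [mem_sqr, mem_closedBall, Prod.dist_eq, max_le_iff, Real.dist_eq, Real.dist_eq, abs_le, abs_le]
  constructor
  · rintro ⟨⟨a1, a2⟩, a3, a4⟩
    refine ⟨⟨?_, ?_⟩, ?_, ?_⟩ <;> linarith
  · rintro ⟨⟨a1, a2⟩, a3, a4⟩
    refine ⟨⟨?_, ?_⟩, ?_, ?_⟩ <;> linarith
theorem edge_mem_frontier {c x : P} {r : ℝ} (hx : x ∈ sqr c r)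
    (h : x.1 = c.1 ∨ x.1 = c.1 + r ∨ x.2 = c.2 ∨ x.2 = c.2 + r) : x ∈ frontier (sqr c r) := by
  refine ⟨subset_closure hx, fun hi => ?_⟩
  rw [green0_prod, interior_prod_eq, interior_Icc, interior_Icc] at hi
  obtain ⟨⟨a1, a2⟩, a3, a4⟩ := hi
  rcases h with h | h | h | h <;> linarith

theorem green0_cont_pd {f : P → ℝ} (hf : ContDiff ℝ 1 f) (i : Fin 2) : Continuous (pd i f) :=
  (hf.continuous_fderiv one_ne_zero).clm_apply continuous_const

theorem green {a b : P → ℝ} (ha : ContDiff ℝ 1 a) (hb : ContDiff ℝ 1 b) (c : P) {r : ℝ}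
    (hr : 0 ≤ r) : ∫ x in sqr c r, (pd 0 b x - pd 1 a x) = loop c r a b := by
  have hi : IntegrableOn (fun x => fderiv ℝ b x (1, 0) + (-fderiv ℝ a x) (0, 1))
      (Icc c (c.1 + r, c.2 + r)) := by
    have hc : Continuous fun x => pd 0 b x - pd 1 a x :=
      (green0_cont_pd hb 0).sub (green0_cont_pd ha 1)
    have := hc.continuousOn.integrableOn_compact (μ := volume) (sqr_compact c r)
    refine this.congr_fun (fun x _ => ?_) (sqr_compact c r).measurableSet
    simp [pd, e2, sub_eq_add_neg]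
  have h := integral_divergence_prod_Icc_of_hasFDerivAt_of_le b (fun x => -a x) (fderiv ℝ b)
    (fun x => -fderiv ℝ a x) c (c.1 + r, c.2 + r) ⟨by simpa using hr, by simpa using hr⟩
    hb.continuous.continuousOn ha.continuous.neg.continuousOn
    (fun x _ => (hb.differentiable one_ne_zero x).hasFDerivAt)
    (fun x _ => (ha.differentiable one_ne_zero x).hasFDerivAt.neg) hi
  have e : ∀ x, pd 0 b x - pd 1 a x = fderiv ℝ b x (1, 0) + (-fderiv ℝ a x) (0, 1) := fun x => by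
    simp [pd, e2, sub_eq_add_neg]
  simp only [e]
  unfold sqr loop
  rw [h]
  simp only [intervalIntegral.integral_neg]
  ring

theorem green0_pd_mul {f g : P → ℝ} {x : P} (hf : DifferentiableAt ℝ f x)
    (hg : DifferentiableAt ℝ g x) (i : Fin 2) :
    pd i (fun y => f y * g y) x = pd i f x * g x + f x * pd i g x := by
  unfold pd
  rw [fderiv_fun_mul hf hg]
  simp only [ContinuousLinearMap.add_apply, ContinuousLinearMap.smul_apply, smul_eq_mul]
  ring

theorem green_jac {f g : P → ℝ} (hf : ContDiff ℝ 1 f) (hg : ContDiff ℝ ∞ g) (c : P) {r : ℝ}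
    (hr : 0 ≤ r) : ∫ x in sqr c r, jac f g x = lp c r f g := by
  have h1 : ∀ i, ContDiff ℝ 1 (pd i g) := fun i => (contDiff_pd hg i).of_le (by exact_mod_cast le_top)
  have h := green (hf.mul (h1 0)) (hf.mul (h1 1)) c hr
  unfold lp
  rw [← h]
  refine integral_congr_ae (Eventually.of_forall fun x => ?_)
  have df := hf.differentiable one_ne_zero x
  have dg := fun i => (h1 i).differentiable one_ne_zero x
  show jac f g x = pd 0 (fun y => f y * pd 1 g y) x - pd 1 (fun y => f y * pd 0 g y) x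
  rw [green0_pd_mul df (dg 1), green0_pd_mul df (dg 0), pd_comm hg 0 1 x]
  unfold jac
  ring

theorem green0_edge {u : ℝ → ℝ} {s r K : ℝ} (hr : 0 ≤ r) (h : ∀ t, s ≤ t → t ≤ s + r → |u t| ≤ K) :
    |∫ t in s..s + r, u t| ≤ K * r := by
  have := intervalIntegral.norm_integral_le_of_norm_le_const (a := s) (b := s + r) (C := K) (f := u)
    fun t ht => by
      rw [uIoc_of_le (by linarith)] at ht
      exact h t ht.1.le ht.2
  rwa [add_sub_cancel_left, abs_of_nonneg hr] at this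

theorem abs_loop_le {a b : P → ℝ} {c : P} {r K : ℝ} (hr : 0 ≤ r)
    (ha : ∀ x ∈ sqr c r, |a x| ≤ K) (hb : ∀ x ∈ sqr c r, |b x| ≤ K) : |loop c r a b| ≤ 4 * r * K := by
  have h1 := green0_edge (u := fun s => a (s, c.2)) (s := c.1) hr fun t h h' =>
    ha _ (mem_sqr.2 ⟨⟨h, h'⟩, le_rfl, by simpa using hr⟩)
  have h2 := green0_edge (u := fun s => b (c.1 + r, s)) (s := c.2) hr fun t h h' =>
    hb _ (mem_sqr.2 ⟨⟨by simpa using hr, le_rfl⟩, h, h'⟩)
  have h3 := green0_edge (u := fun s => a (s, c.2 + r)) (s := c.1) hr fun t h h' =>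
    ha _ (mem_sqr.2 ⟨⟨h, h'⟩, by simpa using hr, le_rfl⟩)
  have h4 := green0_edge (u := fun s => b (c.1, s)) (s := c.2) hr fun t h h' =>
    hb _ (mem_sqr.2 ⟨⟨le_rfl, by simpa using hr⟩, h, h'⟩)
  rw [abs_le] at h1 h2 h3 h4 ⊢
  unfold loop
  constructor <;> linarith [h1.1, h1.2, h2.1, h2.2, h3.1, h3.2, h4.1, h4.2]

theorem green0_ii {a : P → ℝ} (ha : Continuous a) (t u v : ℝ) :
    IntervalIntegrable (fun s => a (s, t)) volume u v ∧
      IntervalIntegrable (fun s => a (t, s)) volume u v :=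
  ⟨(ha.comp (continuous_id.prodMk continuous_const)).intervalIntegrable u v,
    (ha.comp (continuous_const.prodMk continuous_id)).intervalIntegrable u v⟩

theorem loop_sub {a b a' b' : P → ℝ} (ha : Continuous a) (hb : Continuous b) (ha' : Continuous a')
    (hb' : Continuous b') (c : P) (r : ℝ) :
    loop c r (fun x => a x - a' x) (fun x => b x - b' x) = loop c r a b - loop c r a' b' := by
  unfold loop
  rw [intervalIntegral.integral_sub (green0_ii ha _ _ _).1 (green0_ii ha' _ _ _).1,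
    intervalIntegral.integral_sub (green0_ii ha _ _ _).1 (green0_ii ha' _ _ _).1,
    intervalIntegral.integral_sub (green0_ii hb _ _ _).2 (green0_ii hb' _ _ _).2,
    intervalIntegral.integral_sub (green0_ii hb _ _ _).2 (green0_ii hb' _ _ _).2]
  ring
theorem loop_add {a b a' b' : P → ℝ} (ha : Continuous a) (hb : Continuous b) (ha' : Continuous a')
    (hb' : Continuous b') (c : P) (r : ℝ) :
    loop c r (fun x => a x + a' x) (fun x => b x + b' x) = loop c r a b + loop c r a' b' := by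
  unfold loop
  rw [intervalIntegral.integral_add (green0_ii ha _ _ _).1 (green0_ii ha' _ _ _).1,
    intervalIntegral.integral_add (green0_ii ha _ _ _).1 (green0_ii ha' _ _ _).1,
    intervalIntegral.integral_add (green0_ii hb _ _ _).2 (green0_ii hb' _ _ _).2,
    intervalIntegral.integral_add (green0_ii hb _ _ _).2 (green0_ii hb' _ _ _).2]
  ring

theorem green0_congr {u v : ℝ → ℝ} {s r : ℝ} (hr : 0 ≤ r) (h : ∀ t, s ≤ t → t ≤ s + r → u t = v t) :
    ∫ t in s..s + r, u t = ∫ t in s..s + r, v t :=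
  intervalIntegral.integral_congr fun t ht => by
    rw [uIcc_of_le (by linarith)] at ht
    exact h t ht.1 ht.2

theorem loop_congr {a b a' b' : P → ℝ} {c : P} {r : ℝ} (hr : 0 ≤ r)
    (ha : ∀ x ∈ frontier (sqr c r), a x = a' x) (hb : ∀ x ∈ frontier (sqr c r), b x = b' x) :
    loop c r a b = loop c r a' b' := by
  have h1 := green0_congr (u := fun s => a (s, c.2)) (v := fun s => a' (s, c.2)) (s := c.1) hr
    fun t h h' => ha _ (edge_mem_frontier (mem_sqr.2 ⟨⟨h, h'⟩, le_rfl, by simpa using hr⟩)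
      (Or.inr (Or.inr (Or.inl rfl))))
  have h2 := green0_congr (u := fun s => b (c.1 + r, s)) (v := fun s => b' (c.1 + r, s)) (s := c.2) hr
    fun t h h' => hb _ (edge_mem_frontier (mem_sqr.2 ⟨⟨by simpa using hr, le_rfl⟩, h, h'⟩)
      (Or.inr (Or.inl rfl)))
  have h3 := green0_congr (u := fun s => a (s, c.2 + r)) (v := fun s => a' (s, c.2 + r)) (s := c.1) hr
    fun t h h' => ha _ (edge_mem_frontier (mem_sqr.2 ⟨⟨h, h'⟩, by simpa using hr, le_rfl⟩)
      (Or.inr (Or.inr (Or.inr rfl))))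
  have h4 := green0_congr (u := fun s => b (c.1, s)) (v := fun s => b' (c.1, s)) (s := c.2) hr
    fun t h h' => hb _ (edge_mem_frontier (mem_sqr.2 ⟨⟨le_rfl, by simpa using hr⟩, h, h'⟩)
      (Or.inl rfl))
  unfold loop
  rw [h1, h2, h3, h4]

theorem green0_split1 {h : P → ℝ} {a m b : ℝ} {T : Set ℝ} (hT : IsCompact T) (h1 : a ≤ m)
    (h2 : m ≤ b) (hh : ContinuousOn h (Icc a b ×ˢ T)) :
    ∫ x in Icc a b ×ˢ T, h x = (∫ x in Icc a m ×ˢ T, h x) + ∫ x in Icc m b ×ˢ T, h x := by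
  have hi := hh.integrableOn_compact (μ := volume) (isCompact_Icc.prod hT)
  rw [← Icc_union_Icc_eq_Icc h1 h2, union_prod] at hi ⊢
  refine setIntegral_union₀ ?_ (isCompact_Icc.prod hT).measurableSet.nullMeasurableSet
    (hi.mono_set subset_union_left) (hi.mono_set subset_union_right)
  refine measure_mono_null (t := ({m} : Set ℝ) ×ˢ T)
    (fun x hx => ⟨le_antisymm hx.1.1.2 hx.2.1.1, hx.1.2⟩) ?_
  rw [Measure.volume_eq_prod, Measure.prod_prod, Real.volume_singleton, zero_mul]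

theorem green0_split2 {h : P → ℝ} {a m b : ℝ} {T : Set ℝ} (hT : IsCompact T) (h1 : a ≤ m)
    (h2 : m ≤ b) (hh : ContinuousOn h (T ×ˢ Icc a b)) :
    ∫ x in T ×ˢ Icc a b, h x = (∫ x in T ×ˢ Icc a m, h x) + ∫ x in T ×ˢ Icc m b, h x := by
  have hi := hh.integrableOn_compact (μ := volume) (hT.prod isCompact_Icc)
  rw [← Icc_union_Icc_eq_Icc h1 h2, prod_union] at hi ⊢
  refine setIntegral_union₀ ?_ (hT.prod isCompact_Icc).measurableSet.nullMeasurableSet
    (hi.mono_set subset_union_left) (hi.mono_set subset_union_right)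
  refine measure_mono_null (t := T ×ˢ ({m} : Set ℝ))
    (fun x hx => ⟨hx.1.1, le_antisymm hx.1.2.2 hx.2.2.1⟩) ?_
  rw [Measure.volume_eq_prod, Measure.prod_prod, Real.volume_singleton, mul_zero]

theorem integral_sqr_split {h : P → ℝ} {c : P} {r : ℝ} (hr : 0 ≤ r)
    (hh : ContinuousOn h (sqr c r)) :
    ∫ x in sqr c r, h x = (∫ x in sqr c (r / 2), h x) + (∫ x in sqr (c.1 + r / 2, c.2) (r / 2), h x)
      + (∫ x in sqr (c.1, c.2 + r / 2) (r / 2), h x)
      + ∫ x in sqr (c.1 + r / 2, c.2 + r / 2) (r / 2), h x := by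
  have e : ∀ s : ℝ, s + r / 2 + r / 2 = s + r := fun s => by ring
  have l1 : ∀ s : ℝ, s ≤ s + r / 2 := fun s => by linarith
  have l2 : ∀ s : ℝ, s + r / 2 ≤ s + r := fun s => by linarith
  simp only [green0_prod, e] at hh ⊢
  rw [green0_split2 isCompact_Icc (l1 c.2) (l2 c.2) hh,
    green0_split1 isCompact_Icc (l1 c.1) (l2 c.1)
      (hh.mono (prod_mono subset_rfl (Icc_subset_Icc le_rfl (l2 c.2)))),
    green0_split1 isCompact_Icc (l1 c.1) (l2 c.1)
      (hh.mono (prod_mono subset_rfl (Icc_subset_Icc (l1 c.2) le_rfl)))]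
  ring


end Pool.Agent.Bor
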