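import Pool.Agent.P.MP_26ecb7_gt.End0
import Pool.Agent.P.MP_26ecb7_gt.Green0

noncomputable section
open Set Filter Topology MeasureTheory Metric
open scoped RealInnerProductSpace ContDiff ENNReal

namespace Pool.Agent.Bor

theorem tw_nonneg {r : ℝ} (hr : 0 ≤ r) : 0 ≤ tw r := Real.rpow_nonneg hr _
theorem tw_pos {r : ℝ} (hr : 0 < r) : 0 < tw r := Real.rpow_pos_of_pos hr _
theorem tw_zero : tw 0 = 0 := Real.zero_rpow (by norm_num)
theorem tw_one : tw 1 = 1 := Real.one_rpow _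
theorem tw_mono {r s : ℝ} (hr : 0 ≤ r) (h : r ≤ s) : tw r ≤ tw s :=
  Real.rpow_le_rpow hr h (by norm_num)
theorem tw_mul {r s : ℝ} (hr : 0 ≤ r) (hs : 0 ≤ s) : tw (r * s) = tw r * tw s :=
  Real.mul_rpow hr hs
theorem tw_cube {r : ℝ} (hr : 0 ≤ r) : tw r ^ 3 = r ^ 2 := by
  unfold tw
  rw [← Real.rpow_natCast, ← Real.rpow_mul hr, ← Real.rpow_natCast]
  norm_num
theorem tw_le_one {r : ℝ} (hr : 0 ≤ r) (h : r ≤ 1) : tw r ≤ 1 :=
  (tw_mono hr h).trans_eq tw_one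
theorem le_tw {r : ℝ} (hr : 0 ≤ r) (h : r ≤ 1) : r ≤ tw r := by
  have h1 := Real.rpow_le_rpow_of_exponent_ge' hr h (by norm_num : (0 : ℝ) ≤ 2 / 3)
    (by norm_num : (2 / 3 : ℝ) ≤ 1)
  rwa [Real.rpow_one] at h1
theorem endtw_half : tw (1 / 2) ≤ 63 / 100 := by
  by_contra h
  have h1 := pow_le_pow_left₀ (by norm_num) (not_le.1 h).le 3
  rw [tw_cube (by norm_num)] at h1
  norm_num at h1
theorem endtw_half' {r : ℝ} (hr : 0 ≤ r) : tw (r / 2) ≤ 63 / 100 * tw r := by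
  rw [show r / 2 = 1 / 2 * r by ring, tw_mul (by norm_num) hr]
  exact mul_le_mul_of_nonneg_right endtw_half (tw_nonneg hr)
theorem tw_half {r : ℝ} (hr : 0 ≤ r) : 2 * tw (r / 2) ^ 2 ≤ 4 / 5 * tw r ^ 2 := by
  have h1 := pow_le_pow_left₀ (tw_nonneg (by linarith)) (endtw_half' hr) 2
  nlinarith [sq_nonneg (tw r)]
theorem tw_half_le {r : ℝ} (hr : 0 ≤ r) : tw (r / 2) ≤ 2 / 3 * tw r := by
  have h1 := endtw_half' hr
  have h2 := tw_nonneg hr
  linarith
theorem tw_sq {r : ℝ} (hr : 0 ≤ r) : tw r ^ 2 = r ^ (2 * (2 / 3) : ℝ) := by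
  unfold tw
  rw [← Real.rpow_natCast, ← Real.rpow_mul hr]
  norm_num
theorem continuous_tw : Continuous tw := Real.continuous_rpow_const (by norm_num)
theorem tw_small {ε : ℝ} (hε : 0 < ε) : ∃ ρ > 0, ∀ r, 0 ≤ r → r < ρ → tw r < ε := by
  obtain ⟨ρ, hρ, h⟩ := Metric.continuous_iff.1 continuous_tw 0 ε hε
  refine ⟨ρ, hρ, fun r hr h1 => ?_⟩
  have h2 := h r (by rwa [Real.dist_eq, sub_zero, abs_of_nonneg hr])
  rw [tw_zero, Real.dist_eq, sub_zero] at h2
  exact (le_abs_self _).trans_lt h2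

section
variable {X : Type} [PseudoMetricSpace X] {u v : X → ℝ} {S : Set X} {M N : ℝ}

theorem Ho.mono {T : Set X} (h : Ho u S M) (hT : T ⊆ S) (hN : M ≤ N) : Ho u T N :=
  fun x hx y hy => (h x (hT hx) y (hT hy)).trans
    (mul_le_mul_of_nonneg_right hN (tw_nonneg dist_nonneg))
theorem Ho.continuousOn (h : Ho u S M) : ContinuousOn u S := by
  intro x hx
  have h1 : Tendsto (fun y => M * tw (dist y x)) (𝓝[S] x) (𝓝 0) := by
    have h2 : Continuous fun y => M * tw (dist y x) :=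
      continuous_const.mul (continuous_tw.comp (continuous_id.dist continuous_const))
    have h3 := (h2.tendsto x).mono_left (nhdsWithin_le_nhds (s := S))
    rwa [dist_self, tw_zero, mul_zero] at h3
  refine tendsto_iff_dist_tendsto_zero.2 (squeeze_zero' (Eventually.of_forall fun _ => dist_nonneg)
    ?_ h1)
  filter_upwards [self_mem_nhdsWithin] with y hy
  exact h y hy x hx
theorem Ho.add (hu : Ho u S M) (hv : Ho v S N) : Ho (fun x => u x + v x) S (M + N) := by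
  intro x hx y hy
  have h1 := hu x hx y hy
  have h2 := hv x hx y hy
  have h3 := abs_add_le (u x - u y) (v x - v y)
  rw [show u x + v x - (u y + v y) = u x - u y + (v x - v y) by ring]
  linarith
theorem Ho.sub (hu : Ho u S M) (hv : Ho v S N) : Ho (fun x => u x - v x) S (M + N) := by
  intro x hx y hy
  have h1 := hu x hx y hy
  have h2 := hv x hx y hy
  have h3 := abs_sub (u x - u y) (v x - v y)
  rw [show u x - v x - (u y - v y) = u x - u y - (v x - v y) by ring]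
  linarith
theorem Ho.sub_const (hu : Ho u S M) (k : ℝ) : Ho (fun x => u x - k) S M := by
  intro x hx y hy
  rw [show u x - k - (u y - k) = u x - u y by ring]
  exact hu x hx y hy
theorem Ho.const_mul (hu : Ho u S M) (k : ℝ) : Ho (fun x => k * u x) S (|k| * M) := by
  intro x hx y hy
  rw [← mul_sub, abs_mul, mul_assoc]
  exact mul_le_mul_of_nonneg_left (hu x hx y hy) (abs_nonneg k)
theorem Ho.mul {A B : ℝ} (hu : Ho u S M) (hv : Ho v S N) (hA : ∀ x ∈ S, |u x| ≤ A)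
    (hB : ∀ x ∈ S, |v x| ≤ B) : Ho (fun x => u x * v x) S (A * N + B * M) := by
  intro x hx y hy
  have h1 : |u x * (v x - v y)| ≤ A * (N * tw (dist x y)) := by
    rw [abs_mul]
    exact mul_le_mul (hA x hx) (hv x hx y hy) (abs_nonneg _) ((abs_nonneg _).trans (hA x hx))
  have h2 : |v y * (u x - u y)| ≤ B * (M * tw (dist x y)) := by
    rw [abs_mul]
    exact mul_le_mul (hB y hy) (hu x hx y hy) (abs_nonneg _) ((abs_nonneg _).trans (hB y hy))
  have h3 := abs_add_le (u x * (v x - v y)) (v y * (u x - u y))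
  rw [show u x * v x - u y * v y = u x * (v x - v y) + v y * (u x - u y) by ring]
  linarith
theorem Ho.of_tendsto {U : ℕ → X → ℝ} (h : ∀ᶠ n in atTop, Ho (U n) S M)
    (hl : ∀ x ∈ S, Tendsto (fun n => U n x) atTop (𝓝 (u x))) : Ho u S M :=
  fun x hx y hy => le_of_tendsto ((hl x hx).sub (hl y hy)).abs (h.mono fun _ hn => hn x hx y hy)
theorem Hb.continuous (h : Hb u) : Continuous u := by
  obtain ⟨M, -, -, h⟩ := h
  exact continuousOn_univ.1 h.continuousOn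
theorem Hb.const (k : ℝ) : Hb fun _ : X => k :=
  ⟨|k|, abs_nonneg k, fun _ => le_rfl, fun x _ y _ => by
    rw [sub_self, abs_zero]
    exact mul_nonneg (abs_nonneg k) (tw_nonneg dist_nonneg)⟩
theorem Hb.add (hu : Hb u) (hv : Hb v) : Hb fun x => u x + v x := by
  obtain ⟨M, h0, h1, h2⟩ := hu
  obtain ⟨N, k0, k1, k2⟩ := hv
  exact ⟨M + N, add_nonneg h0 k0, fun x => (abs_add_le _ _).trans (add_le_add (h1 x) (k1 x)),
    h2.add k2⟩
theorem Hb.sub (hu : Hb u) (hv : Hb v) : Hb fun x => u x - v x := by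
  obtain ⟨M, h0, h1, h2⟩ := hu
  obtain ⟨N, k0, k1, k2⟩ := hv
  exact ⟨M + N, add_nonneg h0 k0, fun x => (abs_sub _ _).trans (add_le_add (h1 x) (k1 x)),
    h2.sub k2⟩
theorem Hb.neg (hu : Hb u) : Hb fun x => - u x := by
  simpa using (Hb.const (X := X) 0).sub hu
theorem Hb.mul (hu : Hb u) (hv : Hb v) : Hb fun x => u x * v x := by
  obtain ⟨M, h0, h1, h2⟩ := hu
  obtain ⟨N, k0, k1, k2⟩ := hv
  have h3 := mul_nonneg h0 k0
  refine ⟨M * N + N * M, by linarith, fun x => ?_, h2.mul k2 (fun x _ => h1 x) fun x _ => k1 x⟩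
  have h4 : |u x * v x| ≤ M * N := by
    rw [abs_mul]
    exact mul_le_mul (h1 x) (k1 x) (abs_nonneg _) h0
  linarith
theorem Hb.const_mul (hu : Hb u) (k : ℝ) : Hb fun x => k * u x := (Hb.const k).mul hu
theorem Hb.iso {Y : Type} [PseudoMetricSpace Y] (hu : Hb u) {γ : Y → X} (hγ : Isometry γ) :
    Hb fun s => u (γ s) := by
  obtain ⟨M, h0, h1, h2⟩ := hu
  refine ⟨M, h0, fun s => h1 _, fun s _ t _ => ?_⟩
  rw [← hγ.dist_eq]
  exact h2 _ trivial _ trivial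
/-- two functions with one constant -/
theorem Hb.two (hu : Hb u) (hv : Hb v) : ∃ M, 0 ≤ M ∧ (∀ x, |u x| ≤ M) ∧ (∀ x, |v x| ≤ M) ∧
    Ho u univ M ∧ Ho v univ M := by
  obtain ⟨M, h0, h1, h2⟩ := hu
  obtain ⟨N, k0, k1, k2⟩ := hv
  exact ⟨max M N, h0.trans (le_max_left _ _), fun x => (h1 x).trans (le_max_left _ _),
    fun x => (k1 x).trans (le_max_right _ _), h2.mono subset_rfl (le_max_left _ _),
    k2.mono subset_rfl (le_max_right _ _)⟩
theorem endtw_lip {Y : Type} [NormedAddCommGroup Y] [NormedSpace ℝ Y] [FiniteDimensional ℝ Y]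
    {G : Y → ℝ} (hG : ContDiff ℝ 1 G) (M : ℝ) : ∃ L, 0 ≤ L ∧ ∀ a b, ‖a‖ ≤ M → ‖b‖ ≤ M →
      |G a - G b| ≤ L * ‖a - b‖ := by
  have := FiniteDimensional.proper_real Y
  obtain ⟨K, hK⟩ := (hG.contDiffOn (s := closedBall 0 M)).exists_lipschitzOnWith one_ne_zero
    (convex_closedBall 0 M) (isCompact_closedBall 0 M)
  refine ⟨K, K.coe_nonneg, fun a b ha hb => ?_⟩
  have h := hK.dist_le_mul a (mem_closedBall_zero_iff.2 ha) b (mem_closedBall_zero_iff.2 hb)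
  rwa [Real.dist_eq, dist_eq_norm] at h
/-- composition with a smooth function of a bounded Hoelder map -/
theorem Hb.compv {Y : Type} [NormedAddCommGroup Y] [NormedSpace ℝ Y] [FiniteDimensional ℝ Y]
    {G : Y → ℝ} (hG : ContDiff ℝ 1 G) {f : X → Y} {M : ℝ} (hM : 0 ≤ M) (h0 : ∀ x, ‖f x‖ ≤ M)
    (h1 : ∀ x y, ‖f x - f y‖ ≤ M * tw (dist x y)) : Hb fun x => G (f x) := by
  obtain ⟨L, hL, h⟩ := endtw_lip hG M
  have h2 := mul_nonneg hL hM
  refine ⟨|G 0| + L * M, add_nonneg (abs_nonneg _) h2, fun x => ?_, fun x _ y _ => ?_⟩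
  · have h3 := h (f x) 0 (h0 x) (by rwa [norm_zero])
    rw [sub_zero] at h3
    have h4 := mul_le_mul_of_nonneg_left (h0 x) hL
    have h5 := abs_add_le (G (f x) - G 0) (G 0)
    rw [sub_add_cancel] at h5
    linarith
  · have h3 := h (f x) (f y) (h0 x) (h0 y)
    have h4 := mul_le_mul_of_nonneg_left (h1 x y) hL
    have h5 := mul_nonneg (abs_nonneg (G 0)) (tw_nonneg (dist_nonneg (x := x) (y := y)))
    change |G (f x) - G (f y)| ≤ _
    nlinarith
theorem Hb.comp1 {F : ℝ → ℝ} (hF : ContDiff ℝ ∞ F) (hu : Hb u) : Hb fun x => F (u x) := by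
  obtain ⟨M, h0, h1, h2⟩ := hu
  exact Hb.compv (hF.of_le (by exact_mod_cast le_top)) h0 h1 fun x y => h2 x trivial y trivial
theorem endtw_pair (hu : Hb u) (hv : Hb v) : ∃ M, 0 ≤ M ∧ (∀ x, ‖((u x, v x) : P)‖ ≤ M) ∧
    ∀ x y, ‖((u x, v x) : P) - (u y, v y)‖ ≤ M * tw (dist x y) := by
  obtain ⟨M, h0, h1, h2, h3, h4⟩ := hu.two hv
  exact ⟨M, h0, fun x => norm_prod_le_iff.2 ⟨h1 x, h2 x⟩, fun x y =>
    norm_prod_le_iff.2 ⟨h3 x trivial y trivial, h4 x trivial y trivial⟩⟩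
theorem Hb.comp2 {T : P → ℝ} (hT : ContDiff ℝ ∞ T) (hu : Hb u) (hv : Hb v) :
    Hb fun x => T (u x, v x) := by
  obtain ⟨M, h0, h1, h2⟩ := endtw_pair hu hv
  exact Hb.compv (f := fun x => ((u x, v x) : P)) (hT.of_le (by exact_mod_cast le_top)) h0 h1 h2
theorem Hb.pair (hu : Hb u) (hv : Hb v) : ∃ M, 0 ≤ M ∧ (∀ x, ‖((u x, v x) : P)‖ ≤ M) ∧
    ∀ x y, ‖((u x, v x) : P) - (u y, v y)‖ ≤ M * tw (dist x y) := endtw_pair hu hv
theorem Hb.triple {w : X → ℝ} (hu : Hb u) (hv : Hb v) (hw : Hb w) :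
    ∃ M, 0 ≤ M ∧ (∀ x, ‖((u x, v x, w x) : ℝ × ℝ × ℝ)‖ ≤ M) ∧
    ∀ x y, ‖((u x, v x, w x) : ℝ × ℝ × ℝ) - (u y, v y, w y)‖ ≤ M * tw (dist x y) := by
  obtain ⟨M, h0, h1, h2⟩ := hu
  obtain ⟨N, k0, k1, k2⟩ := endtw_pair hv hw
  refine ⟨max M N, h0.trans (le_max_left _ _), fun x => norm_prod_le_iff.2
    ⟨(h1 x).trans (le_max_left _ _), (k1 x).trans (le_max_right _ _)⟩, fun x y =>
    norm_prod_le_iff.2 ⟨(h2 x trivial y trivial).trans ?_, (k2 x y).trans ?_⟩⟩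
  · exact mul_le_mul_of_nonneg_right (le_max_left _ _) (tw_nonneg dist_nonneg)
  · exact mul_le_mul_of_nonneg_right (le_max_right _ _) (tw_nonneg dist_nonneg)
/-- uniform version for maps with a common bound -/
theorem ho_comp2 {T : P → ℝ} (hT : ContDiff ℝ ∞ T) (M : ℝ) : ∃ N, 0 ≤ N ∧
    ∀ (u v : X → ℝ) (S : Set X), (∀ x ∈ S, |u x| ≤ M) → (∀ x ∈ S, |v x| ≤ M) → Ho u S M →
      Ho v S M → Ho (fun x => T (u x, v x)) S N := by
  obtain ⟨L, hL, h⟩ := endtw_lip (G := T) (hT.of_le (by exact_mod_cast le_top)) M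
  refine ⟨L * |M|, mul_nonneg hL (abs_nonneg M), fun u v S h1 h2 h3 h4 x hx y hy => ?_⟩
  have hM : 0 ≤ M := (abs_nonneg _).trans (h1 x hx)
  have h5 := h (u x, v x) (u y, v y) (norm_prod_le_iff.2 ⟨h1 x hx, h2 x hx⟩)
    (norm_prod_le_iff.2 ⟨h1 y hy, h2 y hy⟩)
  have h6 : ‖((u x, v x) : P) - (u y, v y)‖ ≤ M * tw (dist x y) :=
    norm_prod_le_iff.2 ⟨h3 x hx y hy, h4 x hx y hy⟩
  rw [abs_of_nonneg hM, mul_assoc]
  exact h5.trans (mul_le_mul_of_nonneg_left h6 hL)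
end

theorem Hb.affine {u : P → ℝ} (hu : Hb u) (c : P) {l : ℝ} (hl : 0 < l) :
    Hb fun x => u (c + l • x) := by
  obtain ⟨M, h0, h1, h2⟩ := hu
  have h3 := mul_nonneg h0 (tw_nonneg hl.le)
  refine ⟨M + M * tw l, add_nonneg h0 h3, fun x => (h1 _).trans (by linarith), fun x _ y _ => ?_⟩
  have h4 := h2 (c + l • x) trivial (c + l • y) trivial
  rw [dist_add_left, dist_smul₀, Real.norm_eq_abs, abs_of_pos hl, tw_mul hl.le dist_nonneg] at h4
  have h5 := mul_nonneg h0 (tw_nonneg (dist_nonneg (x := x) (y := y)))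
  change |u (c + l • x) - u (c + l • y)| ≤ _
  nlinarith
theorem endtw_clamp (a b s t : ℝ) : |max a (min s b) - max a (min t b)| ≤ |s - t| := by
  have h1 := abs_max_sub_max_le_abs (min s b) (min t b) a
  have h2 := abs_min_sub_min_le_max s b t b
  rw [sub_self, abs_zero, max_eq_left (abs_nonneg _)] at h2
  rw [max_comm a, max_comm a]
  exact h1.trans h2
theorem exists_ext {u : P → ℝ} {c : P} {r M : ℝ} (hr : 0 ≤ r) (hM : 0 ≤ M)
    (h : Ho u (sqr c r) M) : ∃ u' : P → ℝ, Hb u' ∧ EqOn u' u (sqr c r) := by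
  obtain ⟨k, hk⟩ : ∃ k : P → P, ∀ x, k x =
      (max c.1 (min x.1 (c.1 + r)), max c.2 (min x.2 (c.2 + r))) := ⟨_, fun _ => rfl⟩
  have h1 : ∀ x, k x ∈ sqr c r := fun x => by
    rw [hk]
    exact ⟨⟨le_max_left _ _, le_max_left _ _⟩,
      max_le (le_add_of_nonneg_right hr) (min_le_right _ _),
      max_le (le_add_of_nonneg_right hr) (min_le_right _ _)⟩
  have h2 : ∀ x y, dist (k x) (k y) ≤ dist x y := fun x y => by
    rw [hk, hk, Prod.dist_eq, Prod.dist_eq]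
    exact max_le_max (endtw_clamp _ _ _ _) (endtw_clamp _ _ _ _)
  have h3 : ∀ x ∈ sqr c r, k x = x := fun x hx => by
    rw [hk, min_eq_left hx.2.1, min_eq_left hx.2.2, max_eq_right hx.1.1, max_eq_right hx.1.2]
  have hc : c ∈ sqr c r := ⟨le_rfl, le_add_of_nonneg_right hr, le_add_of_nonneg_right hr⟩
  have h4 := mul_nonneg hM (tw_nonneg hr)
  have h5 := abs_nonneg (u c)
  refine ⟨fun x => u (k x), ⟨|u c| + M * tw r + M, by linarith, fun x => ?_, fun x _ y _ => ?_⟩,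
    fun x hx => congrArg u (h3 x hx)⟩
  · have h6 := (h _ (h1 x) c hc).trans (mul_le_mul_of_nonneg_left
      (tw_mono dist_nonneg (dist_le_of_sqr (h1 x) hc)) hM)
    have h7 := abs_add_le (u (k x) - u c) (u c)
    rw [sub_add_cancel] at h7
    change |u (k x)| ≤ _
    linarith
  · exact (h _ (h1 x) _ (h1 y)).trans (mul_le_mul (by linarith) (tw_mono dist_nonneg (h2 x y))
      (tw_nonneg dist_nonneg) (by linarith))
theorem corner_mem {c : P} {r : ℝ} (hr : 0 ≤ r) : c ∈ sqr c r :=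
  ⟨le_rfl, le_add_of_nonneg_right hr, le_add_of_nonneg_right hr⟩
theorem Ho.osc {u : P → ℝ} {c : P} {r M : ℝ} (hM : 0 ≤ M) (h : Ho u (sqr c r) M) {x y : P}
    (hx : x ∈ sqr c r) (hy : y ∈ sqr c r) : |u x - u y| ≤ M * tw r :=
  (h x hx y hy).trans (mul_le_mul_of_nonneg_left (tw_mono dist_nonneg (dist_le_of_sqr hx hy)) hM)

end Pool.Agent.Bor
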