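import Pool.Agent.P.MP_26ecb7_gt.EndBlow
import Pool.Agent.P.MP_26ecb7_gt.EndTay

noncomputable section
open Set Filter Topology MeasureTheory Metric
open scoped RealInnerProductSpace ContDiff ENNReal

namespace Pool.Agent.Bor

theorem endvan_le {c c0 : P} {r r0 : ℝ} (hr : 0 < r) (h : sqr c r ⊆ sqr c0 r0) : r ≤ r0 := by
  have h1 : c ∈ sqr c0 r0 := h (corner_mem hr.le)
  have h2 : ((c.1 + r, c.2) : P) ∈ sqr c0 r0 := h (by
    rw [mem_sqr]; constructor <;> constructor <;> simp <;> linarith)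
  rw [mem_sqr] at h1 h2
  have a1 := h1.1.1
  have a2 := h2.1.2
  simp only at a2
  linarith

theorem endvan_int {u : P → ℝ} {c : P} {r K : ℝ} (hr : 0 < r) (h : ∀ x ∈ sqr c r, |u x| ≤ K) :
    |∫ x in sqr c r, u x| ≤ K * r ^ 2 := by
  have b3 : ‖∫ x in sqr c r, u x‖ ≤ K * volume.real (sqr c r) :=
    norm_setIntegral_le_of_norm_le_const (sqr_compact c r).measure_lt_top fun x hx => h x hx
  rwa [Measure.real, volume_sqr c hr.le, ENNReal.toReal_ofReal (by positivity),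
    Real.norm_eq_abs] at b3

theorem endvan_mul {x y X Y : ℝ} (hx : |x| ≤ X) (hy : |y| ≤ Y) : |x * y| ≤ X * Y := by
  rw [abs_mul]; exact mul_le_mul hx hy (abs_nonneg _) ((abs_nonneg _).trans hx)

theorem endvan_step1 {I l li Y p q E F B k C D s : ℝ} (hl : li * l = 1) (hli : |li| ≤ B)
    (hI : |I| ≤ k * s) (hp : |p| ≤ B) (hq : |q| ≤ B) (hE : |E| ≤ C * s) (hF : |F| ≤ C * s)
    (h : |I - l * Y - 1 / 2 * p * E - q * F| ≤ D * s) :
    |Y| ≤ B * (k + D + 2 * (B * C)) * s := by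
  have e : Y = li * (I - (I - l * Y - 1 / 2 * p * E - q * F) - 1 / 2 * (p * E) - q * F) := by
    linear_combination (-Y) * hl
  have h1 := endvan_mul hp hE
  have h2 := endvan_mul hq hF
  have h3 : |I - (I - l * Y - 1 / 2 * p * E - q * F) - 1 / 2 * (p * E) - q * F|
      ≤ (k + D + 2 * (B * C)) * s := by
    have h0 := abs_nonneg (p * E)
    rw [abs_le] at hI h h2 ⊢
    have h4 := abs_le.1 h1
    have h5 := le_abs_self (p * E)
    have h6 := neg_abs_le (p * E)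
    constructor <;> nlinarith
  have := endvan_mul hli h3
  rw [← e] at this
  linarith [this, mul_assoc B (k + D + 2 * (B * C)) s]

theorem endvan_step2 {J I I' l φ t0 Y p q p' q' E F B e D D' W s : ℝ} (hφ : φ * l = t0)
    (hφB : |φ| ≤ B) (hp : |p| ≤ B) (hq : |q| ≤ B) (hp' : |p'| ≤ B) (hq' : |q'| ≤ B)
    (hE : |E| ≤ e * s) (hF : |F| ≤ e * s)
    (h : |I - l * Y - 1 / 2 * p * E - q * F| ≤ D * s)
    (h' : |J - t0 * Y - 1 / 2 * p' * E - q' * F| ≤ D' * s) (hI : |I' - φ * I| ≤ W * s) :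
    |J - I'| ≤ (D' + B * D + W + 2 * (B * e) + 2 * (B * (B * e))) * s := by
  have e1 : J - I' = (J - t0 * Y - 1 / 2 * p' * E - q' * F) + 1 / 2 * (p' * E) + q' * F
      - φ * (I - l * Y - 1 / 2 * p * E - q * F) - 1 / 2 * (φ * (p * E)) - φ * (q * F)
      - (I' - φ * I) := by
    linear_combination (-Y) * hφ
  have h1 := endvan_mul hp' hE
  have h2 := endvan_mul hq' hF
  have h3 := endvan_mul hφB h
  have h4 := endvan_mul hφB (endvan_mul hp hE)
  have h5 := endvan_mul hφB (endvan_mul hq hF)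
  have n1 := (abs_nonneg _).trans h1
  have n4 := (abs_nonneg _).trans h4
  rw [e1]
  rw [abs_le] at h1 h2 h3 h4 h5 h' hI ⊢
  constructor <;> nlinarith

theorem van_core {a b κ L T : P → ℝ} (ha : Hb a) (hb : Hb b) (hκ : Continuous κ)
    (hL : ContDiff ℝ ∞ L) (hL0 : ∀ y, pd 0 L y = lam y) (hT : ContDiff ℝ ∞ T) {c0 : P} {r0 : ℝ}
    (hr0 : r0 ≤ 1) (h : ∀ c r, 0 < r → sqr c r ⊆ sqr c0 r0 →
      yl c r (fun x => L (a x, b x)) b = ∫ x in sqr c r, κ x) :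
    ∀ η > 0, ∃ ρ > 0, ∀ c r, 0 < r → r < ρ → sqr c r ⊆ sqr c0 r0 →
      |yl c r (fun x => T (a x, b x)) b
        - ∫ x in sqr c r, pd 0 T (a x, b x) / lam (a x, b x) * κ x| ≤ η * r ^ 2 := by
  have hφ : ContDiff ℝ ∞ fun y => pd 0 T y / lam y :=
    (contDiff_pd hT 0).div contDiff_lam fun y => (lam_pos y).ne'
  have hi : ContDiff ℝ ∞ fun y => (lam y)⁻¹ := contDiff_lam.inv fun y => (lam_pos y).ne'
  have Hφ := Hb.comp2 hφ ha hb
  obtain ⟨N, hN, bφ, oφ⟩ := id Hφ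
  obtain ⟨B1, hB1, b1, -⟩ := Hb.comp2 hi ha hb
  obtain ⟨B2, hB2, b2, -⟩ := Hb.comp2 (contDiff_pd (contDiff_pd hL 0) 0) ha hb
  obtain ⟨B3, hB3, b3, -⟩ := Hb.comp2 (contDiff_pd (contDiff_pd hL 1) 0) ha hb
  obtain ⟨B4, hB4, b4, -⟩ := Hb.comp2 (contDiff_pd (contDiff_pd hT 0) 0) ha hb
  obtain ⟨B5, hB5, b5, -⟩ := Hb.comp2 (contDiff_pd (contDiff_pd hT 1) 0) ha hb
  obtain ⟨B, hB0, hB⟩ : ∃ B : ℝ, 0 ≤ B ∧ N ≤ B ∧ B1 ≤ B ∧ B2 ≤ B ∧ B3 ≤ B ∧ B4 ≤ B ∧ B5 ≤ B :=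
    ⟨N + B1 + B2 + B3 + B4 + B5, by positivity, by linarith, by linarith, by linarith,
      by linarith, by linarith, by linarith⟩
  obtain ⟨g0, g1, g2, g3, g4, g5⟩ := hB
  obtain ⟨k0, hk0⟩ := (sqr_compact c0 r0).exists_bound_of_continuousOn hκ.continuousOn
  have hk : ∀ x ∈ sqr c0 r0, |κ x| ≤ |k0| := fun x hx => (hk0 x hx).trans (le_abs_self _)
  obtain ⟨CL, hCL⟩ := exp2 hL ha hb
  obtain ⟨CT, hCT⟩ := exp2 hT ha hb
  obtain ⟨C1, hC1, c1⟩ := yl_cubic ha ha hb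
  obtain ⟨C2, hC2, c2⟩ := yl_cubic hb ha hb
  have t4 : ∀ (D r : ℝ), 0 < r → D * tw r ^ 4 ≤ |D| * tw r * r ^ 2 := fun D r hr => by
    have e : tw r ^ 4 = tw r * r ^ 2 := by rw [← tw_cube hr.le]; ring
    rw [e, mul_assoc]
    exact mul_le_mul_of_nonneg_right (le_abs_self _) (mul_nonneg (tw_nonneg hr.le) (sq_nonneg _))
  have hL' : ∀ c r, 0 < r → sqr c r ⊆ sqr c0 r0 →
      |(∫ x in sqr c r, κ x) - lam (a c, b c) * yl c r a b
        - 1 / 2 * pd 0 (pd 0 L) (a c, b c) * yl c r (fun x => (a x - a c) * (a x - a c)) b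
        - pd 0 (pd 1 L) (a c, b c) * yl c r (fun x => (b x - b c) * (a x - a c)) b|
        ≤ |CL| * tw r * r ^ 2 := fun c r hr hs => by
    have := hCL c r hr
    rw [h c r hr hs, hL0] at this
    exact this.trans (t4 _ _ hr)
  have hY : ∀ c r, 0 < r → sqr c r ⊆ sqr c0 r0 →
      |yl c r a b| ≤ B * (|k0| + |CL| + 2 * (B * (C1 + C2))) * r ^ 2 := fun c r hr hs => by
    have hr1 : tw r ≤ 1 := tw_le_one hr.le ((endvan_le hr hs).trans hr0)
    have hs2 := sq_nonneg r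
    refine endvan_step1 (I := ∫ x in sqr c r, κ x) (l := lam (a c, b c))
      (li := (lam (a c, b c))⁻¹) (p := pd 0 (pd 0 L) (a c, b c)) (q := pd 0 (pd 1 L) (a c, b c))
      (E := yl c r (fun x => (a x - a c) * (a x - a c)) b)
      (F := yl c r (fun x => (b x - b c) * (a x - a c)) b)
      (inv_mul_cancel₀ (lam_pos _).ne') ((b1 c).trans g1)
      (endvan_int hr fun x hx => hk x (hs hx)) ((b2 c).trans g2) ((b3 c).trans g3)
      ((c1 c r hr).trans (by nlinarith)) ((c2 c r hr).trans (by nlinarith))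
      ((hL' c r hr hs).trans ?_)
    exact mul_le_mul_of_nonneg_right (mul_le_of_le_one_right (abs_nonneg _) hr1) hs2
  intro η hη
  obtain ⟨e, he, he1⟩ : ∃ e > 0, 2 * (B * e) + 2 * (B * (B * e)) ≤ η / 2 := by
    refine ⟨η / 2 / (2 * B + 2 * (B * B) + 1), by positivity, ?_⟩
    have hp : 0 < 2 * B + 2 * (B * B) + 1 := by positivity
    have e1 := div_mul_cancel₀ (η / 2) hp.ne'
    have e2 : 0 < η / 2 / (2 * B + 2 * (B * B) + 1) := by positivity
    nlinarith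
  obtain ⟨ρ1, hρ1, h1⟩ := anom_zero hb ha hY e he
  have hG : 0 < |CT| + B * |CL| + N * |k0| + 1 := by positivity
  obtain ⟨ρ2, hρ2, h2⟩ := tw_small (ε := η / 2 / (|CT| + B * |CL| + N * |k0| + 1)) (by positivity)
  refine ⟨min ρ1 ρ2, lt_min hρ1 hρ2, fun c r hr hρ hs => ?_⟩
  obtain ⟨hF, hE⟩ := h1 c r hr (hρ.trans_le (min_le_left _ _)) hs
  have ht := h2 r hr.le (hρ.trans_le (min_le_right _ _))
  have ht0 := tw_nonneg hr.le
  rw [lt_div_iff₀ hG] at ht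
  have i1 : IntegrableOn (fun x => pd 0 T (a x, b x) / lam (a x, b x) * κ x) (sqr c r) :=
    (Hφ.continuous.mul hκ).continuousOn.integrableOn_compact (sqr_compact c r)
  have i2 : IntegrableOn (fun x => pd 0 T (a c, b c) / lam (a c, b c) * κ x) (sqr c r) :=
    (continuous_const.mul hκ).continuousOn.integrableOn_compact (sqr_compact c r)
  have hI : |(∫ x in sqr c r, pd 0 T (a x, b x) / lam (a x, b x) * κ x)
      - pd 0 T (a c, b c) / lam (a c, b c) * ∫ x in sqr c r, κ x| ≤ N * tw r * |k0| * r ^ 2 := by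
    rw [← integral_const_mul, ← integral_sub i1 i2]
    refine endvan_int hr fun x hx => ?_
    rw [← sub_mul]
    exact endvan_mul (Ho.osc hN (oφ.mono (subset_univ _) le_rfl) hx (corner_mem hr.le))
      (hk x (hs hx))
  have key := endvan_step2 (div_mul_cancel₀ (pd 0 T (a c, b c)) (lam_pos (a c, b c)).ne')
    ((bφ c).trans g0) ((b2 c).trans g2) ((b3 c).trans g3) ((b4 c).trans g4) ((b5 c).trans g5)
    hE hF (hL' c r hr hs) ((hCT c r hr).trans (t4 _ _ hr)) hI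
  refine key.trans (mul_le_mul_of_nonneg_right ?_ (sq_nonneg _))
  nlinarith

end Pool.Agent.Bor
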