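import Pool.Agent.P.MP_26ecb7_gt.EndYi

noncomputable section
open Set Filter Topology MeasureTheory Metric
open scoped RealInnerProductSpace ContDiff ENNReal

namespace Pool.Agent.Bor

variable {f g f' g' : ℝ → ℝ} {a b : ℝ}

theorem yi_add3 (f g : ℝ → ℝ) (a b c : ℝ) : yi f g a b + yi f g b c = yi f g a c := by
  unfold yi
  ring

theorem endya_inc {u : ℝ → ℝ} {M s t : ℝ} (h : Ho u univ M) (hst : s ≤ t) :
    |u t - u s| ≤ M * tw (t - s) := by
  have := h t trivial s trivial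
  rwa [Real.dist_eq, abs_of_nonneg (sub_nonneg.2 hst)] at this

theorem yi_bound (hf : Hb f) (hg : Hb g) (hab : a ≤ b) {Mf Mg : ℝ} (hMf : 0 ≤ Mf) (hMg : 0 ≤ Mg)
    (hf1 : Ho f (Icc a b) Mf) (hg1 : Ho g (Icc a b) Mg) :
    |yi f g a b - f a * (g b - g a)| ≤ 5 * (Mf * Mg) * tw (b - a) ^ 2 :=
  (prim_prim hf hg a b).bound hMf hMg hf1 hg1 a b le_rfl hab le_rfl

theorem yi_congr (hf : Hb f) (hg : Hb g) (hf' : Hb f') (hg' : Hb g') (hab : a ≤ b)
    (h1 : ∀ s ∈ Icc a b, f s = f' s) (h2 : ∀ s ∈ Icc a b, g s = g' s) :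
    yi f g a b = yi f' g' a b :=
  (yi_eq hf' hg' hab ((prim_prim hf hg a b).congr h1 h2)).symm

theorem yi_add (hf : Hb f) (hf' : Hb f') (hg : Hb g) (hab : a ≤ b) :
    yi (fun s => f s + f' s) g a b = yi f g a b + yi f' g a b := by
  obtain ⟨K, hK⟩ := prim_prim hf hg a b
  obtain ⟨K', hK'⟩ := prim_prim hf' hg a b
  rw [yi_eq (hf.add hf') hg hab (I := fun s => prim f g s + prim f' g s)
    ⟨K + K', fun s t h1 h2 h3 => ?_⟩]
  · unfold yi
    ring
  · have e1 := abs_le.1 (hK s t h1 h2 h3)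
    have e2 := abs_le.1 (hK' s t h1 h2 h3)
    rw [abs_le]
    constructor <;> linarith [e1.1, e1.2, e2.1, e2.2]

theorem yi_mul (k : ℝ) (hf : Hb f) (hg : Hb g) (hab : a ≤ b) :
    yi (fun s => k * f s) g a b = k * yi f g a b := by
  obtain ⟨K, hK⟩ := prim_prim hf hg a b
  rw [yi_eq (hf.const_mul k) hg hab (I := fun s => k * prim f g s)
    ⟨|k| * K, fun s t h1 h2 h3 => ?_⟩]
  · unfold yi
    ring
  · refine le_trans (le_of_eq ?_) ((mul_le_mul_of_nonneg_left (hK s t h1 h2 h3)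
      (abs_nonneg k)).trans_eq (mul_assoc _ _ _).symm)
    rw [← abs_mul]
    congr 1
    ring

theorem yi_const (k : ℝ) (hg : Hb g) (hab : a ≤ b) :
    yi (fun _ => k) g a b = k * (g b - g a) := by
  rw [yi_eq (Hb.const k) hg hab (I := fun s => k * g s) ⟨0, fun s t _ _ _ => ?_⟩, mul_sub]
  rw [← mul_sub, sub_self, abs_zero, zero_mul]

theorem yi_right (k m : ℝ) (hf : Hb f) (hg : Hb g) (hab : a ≤ b) :
    yi f (fun s => k * (g s - m)) a b = k * yi f g a b := by
  obtain ⟨K, hK⟩ := prim_prim hf hg a b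
  rw [yi_eq hf ((hg.sub (Hb.const m)).const_mul k) hab (I := fun s => k * prim f g s)
    ⟨|k| * K, fun s t h1 h2 h3 => ?_⟩]
  · unfold yi
    ring
  · refine le_trans (le_of_eq ?_) ((mul_le_mul_of_nonneg_left (hK s t h1 h2 h3)
      (abs_nonneg k)).trans_eq (mul_assoc _ _ _).symm)
    rw [← abs_mul]
    congr 1
    ring

theorem yi_parts (hf : Hb f) (hg : Hb g) (hab : a ≤ b) :
    yi f g a b + yi g f a b = f b * g b - f a * g a := by
  obtain ⟨K, hK⟩ := prim_prim hg hf a b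
  obtain ⟨M, hM, -, -, o1, o2⟩ := hf.two hg
  rw [yi_eq hf hg hab (I := fun s => f s * g s - prim g f s)
    ⟨M * M + K, fun s t h1 h2 h3 => ?_⟩]
  · unfold yi
    ring
  · have e1 := abs_le.1 (hK s t h1 h2 h3)
    have e2 : |(f t - f s) * (g t - g s)| ≤ M * tw (t - s) * (M * tw (t - s)) := by
      rw [abs_mul]
      exact mul_le_mul (endya_inc o1 h2) (endya_inc o2 h2) (abs_nonneg _)
        ((abs_nonneg _).trans (endya_inc o1 h2))
    have e3 := abs_le.1 e2
    rw [abs_le]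
    constructor <;> linarith [e1.1, e1.2, e3.1, e3.2]

theorem yi_subst {u w : ℝ → ℝ} (hf : Hb f) (hu : Hb u) (hg : Hb g) (hw : Hb w) (hab : a ≤ b)
    (h : Prim u g w a b) : yi f w a b = yi (fun s => f s * u s) g a b := by
  obtain ⟨K, hK⟩ := prim_prim hf hw a b
  obtain ⟨K', hK'⟩ := h
  obtain ⟨M, hM, h0, -⟩ := id hf
  refine (yi_eq (hf.mul hu) hg hab (I := prim f w) ⟨K + M * K', fun s t h1 h2 h3 => ?_⟩).symm
  have e1 := abs_le.1 (hK s t h1 h2 h3)
  have e2 : |f s * (w t - w s - u s * (g t - g s))| ≤ M * (K' * tw (t - s) ^ 2) := by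
    rw [abs_mul]
    exact mul_le_mul (h0 s) (hK' s t h1 h2 h3) (abs_nonneg _) hM
  have e3 := abs_le.1 e2
  rw [abs_le]
  constructor <;> linarith [e1.1, e1.2, e3.1, e3.2]

theorem yi_chain {F : ℝ → ℝ} (hF : ContDiff ℝ ∞ F) (hg : Hb g) (hab : a ≤ b) :
    yi (fun s => F (g s)) g a b = ∫ y in g a..g b, F y := by
  obtain ⟨M, hM, h0, h1⟩ := id hg
  obtain ⟨L, hL⟩ := (isCompact_Icc (a := -M) (b := M)).exists_bound_of_continuousOn
    (hF.continuous_deriv (by exact_mod_cast le_top)).continuousOn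
  have hL0 : 0 ≤ L := (norm_nonneg _).trans (hL 0 ⟨by linarith, hM⟩)
  have hi : ∀ x y, IntervalIntegrable F volume x y := hF.continuous.intervalIntegrable
  rw [yi_eq (hg.comp1 hF) hg hab (I := fun t => ∫ y in g a..g t, F y)
    ⟨L * M * M, fun s t _ h2 _ => ?_⟩, intervalIntegral.integral_same, sub_zero]
  have e1 : (∫ y in g a..g t, F y) - (∫ y in g a..g s, F y) - F (g s) * (g t - g s) =
      ∫ y in g s..g t, (F y - F (g s)) := by
    rw [intervalIntegral.integral_interval_sub_left (hi _ _) (hi _ _),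
      intervalIntegral.integral_sub (hi _ _) intervalIntegrable_const,
      intervalIntegral.integral_const, smul_eq_mul, mul_comm]
  have e2 := endya_inc h1 h2
  have e3 : ∀ y ∈ uIoc (g s) (g t), ‖F y - F (g s)‖ ≤ L * (M * tw (t - s)) := by
    intro y hy
    have hy' := uIoc_subset_uIcc hy
    have m1 : g s ∈ Icc (-M) M := abs_le.1 (h0 s)
    have m2 : y ∈ Icc (-M) M := uIcc_subset_Icc m1 (abs_le.1 (h0 t)) hy'
    refine ((convex_Icc (-M) M).norm_image_sub_le_of_norm_deriv_le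
      (fun x _ => hF.differentiable (by simp) x) hL m1 m2).trans ?_
    exact mul_le_mul_of_nonneg_left ((abs_sub_left_of_mem_uIcc hy').trans e2) hL0
  have e4 := intervalIntegral.norm_integral_le_of_norm_le_const e3
  rw [e1]
  refine e4.trans ((mul_le_mul_of_nonneg_left e2
    (mul_nonneg hL0 ((abs_nonneg _).trans e2))).trans_eq ?_)
  ring

theorem yi_scale (hf : Hb f) (hg : Hb g) (hab : a ≤ b) (m : ℝ) {l : ℝ} (hl : 0 < l)
    (hf' : Hb fun s => f (m + l * s)) (hg' : Hb fun s => g (m + l * s)) :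
    yi (fun s => f (m + l * s)) (fun s => g (m + l * s)) a b = yi f g (m + l * a) (m + l * b) := by
  obtain ⟨K, hK⟩ := prim_prim hf hg (m + l * a) (m + l * b)
  refine yi_eq hf' hg' hab (I := fun t => prim f g (m + l * t))
    ⟨K * tw l ^ 2, fun s t h1 h2 h3 => ?_⟩
  have k : ∀ {x y : ℝ}, x ≤ y → m + l * x ≤ m + l * y := fun h =>
    add_le_add le_rfl (mul_le_mul_of_nonneg_left h hl.le)
  refine (hK _ _ (k h1) (k h2) (k h3)).trans_eq ?_
  rw [add_sub_add_left_eq_sub, ← mul_sub, tw_mul hl.le (sub_nonneg.2 h2)]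
  ring

end Pool.Agent.Bor
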