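import Pool.Agent.P.MP_26ecb7_gt.Defs

noncomputable section
open Set Filter Topology MeasureTheory Metric
open scoped RealInnerProductSpace ContDiff ENNReal

namespace Pool.Agent.Bor

theorem young0_two {a : ℝ} (ha : 1 / 2 < a) : (2 : ℝ) < 2 ^ (2 * a) := by
  have h := Real.rpow_lt_rpow_of_exponent_lt (by norm_num : (1 : ℝ) < 2)
    (show (1 : ℝ) < 2 * a by linarith)
  rwa [Real.rpow_one] at h

theorem yc_pos {a : ℝ} (ha : 1 / 2 < a) : 0 < yc a := by
  have := young0_two ha
  unfold yc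
  exact one_div_pos.mpr (by linarith)

/-- Young - Loeve inequality -/
theorem young {Y : Type} [NormedAddCommGroup Y] [InnerProductSpace ℝ Y] {a : ℝ} (ha : 1 / 2 < a)
    {f g g' : ℝ → Y} {s t Mf Mg : ℝ} (hst : s ≤ t) (hMf : 0 ≤ Mf) (hMg : 0 ≤ Mg)
    (hf : ContinuousOn f (Icc s t)) (hg : ∀ x ∈ Icc s t, HasDerivAt g (g' x) x)
    (hg' : ContinuousOn g' (Icc s t))
    (hf1 : ∀ x ∈ Icc s t, ∀ y ∈ Icc s t, ‖f x - f y‖ ≤ Mf * |x - y| ^ a)
    (hg1 : ∀ x ∈ Icc s t, ∀ y ∈ Icc s t, ‖g x - g y‖ ≤ Mg * |x - y| ^ a) :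
    |∫ x in s..t, ⟪f x - f s, g' x⟫| ≤ yc a * Mf * Mg * (t - s) ^ (2 * a) := by
  have ha0 : 0 < a := by linarith
  have hy := yc_pos ha
  have h2 := young0_two ha
  obtain ⟨G, hG⟩ := isCompact_Icc.exists_bound_of_continuousOn hg'
  have hG0 : 0 ≤ G := (norm_nonneg _).trans (hG s ⟨le_rfl, hst⟩)
  obtain ⟨r, hr⟩ : ∃ r : ℝ, r = ((2 : ℝ) ^ a)⁻¹ := ⟨_, rfl⟩
  have h2a : (1 : ℝ) < 2 ^ a := Real.one_lt_rpow (by norm_num) ha0
  have hr0 : 0 < r := by rw [hr]; positivity
  have hr1 : r < 1 := by rw [hr]; exact inv_lt_one_of_one_lt₀ h2a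
  have hint : ∀ (c : Y) (u v : ℝ), s ≤ u → u ≤ v → v ≤ t →
      IntervalIntegrable (fun x => ⟪f x - c, g' x⟫) volume u v := fun c u v h1 h2 h3 => by
    refine ContinuousOn.intervalIntegrable_of_Icc h2 ?_
    exact (ContinuousOn.inner (𝕜 := ℝ) (hf.sub continuousOn_const) hg').mono (Icc_subset_Icc h1 h3)
  have hint' : ∀ (c : Y) (u v : ℝ), s ≤ u → u ≤ v → v ≤ t →
      IntervalIntegrable (fun x => ⟪c, g' x⟫) volume u v := fun c u v h1 h2 h3 => by
    refine ContinuousOn.intervalIntegrable_of_Icc h2 ?_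
    exact (ContinuousOn.inner (𝕜 := ℝ) continuousOn_const hg').mono (Icc_subset_Icc h1 h3)
  have key : ∀ k : ℕ, ∀ u v, s ≤ u → u ≤ v → v ≤ t → |∫ x in u..v, ⟪f x - f u, g' x⟫| ≤
      yc a * Mf * Mg * (v - u) ^ (2 * a) + Mf * G * ((v - u) ^ a * (v - u)) * r ^ k := by
    intro k
    induction k with
    | zero =>
      intro u v h1 h2 h3
      have hL : 0 ≤ v - u := by linarith
      have h4 := intervalIntegral.norm_integral_le_of_norm_le_const (a := u) (b := v)
        (f := fun x => ⟪f x - f u, g' x⟫) (C := Mf * (v - u) ^ a * G) fun x hx => by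
          rw [uIoc_of_le h2] at hx
          have hx' : x ∈ Icc s t := ⟨h1.trans hx.1.le, hx.2.trans h3⟩
          refine (norm_inner_le_norm _ _).trans (mul_le_mul ?_ (hG x hx') (norm_nonneg _)
            (by positivity))
          refine (hf1 x hx' u ⟨h1, h2.trans h3⟩).trans ?_
          rw [abs_of_nonneg (by linarith [hx.1])]
          exact mul_le_mul_of_nonneg_left
            (Real.rpow_le_rpow (by linarith [hx.1]) (by linarith [hx.2]) ha0.le) hMf
      rw [Real.norm_eq_abs, abs_of_nonneg hL] at h4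
      have h5 : 0 ≤ yc a * Mf * Mg * (v - u) ^ (2 * a) := by positivity
      linarith
    | succ k ih =>
      intro u v h1 h2' h3
      obtain ⟨h, hh⟩ : ∃ h, h = (v - u) / 2 := ⟨_, rfl⟩
      have hh0 : 0 ≤ h := by linarith
      have hum : u ≤ u + h := by linarith
      have hmv : u + h ≤ v := by linarith
      have hsm : s ≤ u + h := by linarith
      have hmt : u + h ≤ t := by linarith
      have i1 := ih u (u + h) h1 hum hmt
      have i2 := ih (u + h) v hsm hmv h3
      rw [show u + h - u = h by ring] at i1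
      rw [show v - (u + h) = h by linarith] at i2
      have e1 : ∫ x in (u + h)..v, ⟪f (u + h) - f u, g' x⟫ =
          ⟪f (u + h) - f u, g v - g (u + h)⟫ := by
        rw [inner_sub_right]
        refine intervalIntegral.integral_eq_sub_of_hasDerivAt
          (f := fun x => ⟪f (u + h) - f u, g x⟫) (fun x hx => ?_) (hint' _ _ _ hsm hmv h3)
        rw [uIcc_of_le hmv] at hx
        have := (hasDerivAt_const x (f (u + h) - f u)).inner ℝ
          (hg x ⟨hsm.trans hx.1, hx.2.trans h3⟩)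
        simpa using this
      have e2 : ∫ x in u..v, ⟪f x - f u, g' x⟫ = (∫ x in u..(u + h), ⟪f x - f u, g' x⟫) +
          (∫ x in (u + h)..v, ⟪f x - f (u + h), g' x⟫) + ⟪f (u + h) - f u, g v - g (u + h)⟫ := by
        rw [← e1, add_assoc, ← intervalIntegral.integral_add (hint _ _ _ hsm hmv h3)
          (hint' _ _ _ hsm hmv h3), ← intervalIntegral.integral_add_adjacent_intervals
          (hint _ _ _ h1 hum hmt) (hint _ _ _ hsm hmv h3)]
        congr 2
        funext x
        rw [← inner_add_left, sub_add_sub_cancel]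
      have e3 : |⟪f (u + h) - f u, g v - g (u + h)⟫| ≤ Mf * Mg * h ^ (2 * a) := by
        have b1 := hf1 (u + h) ⟨hsm, hmt⟩ u ⟨h1, h2'.trans h3⟩
        have b2 := hg1 v ⟨h1.trans h2', h3⟩ (u + h) ⟨hsm, hmt⟩
        rw [show u + h - u = h by ring, abs_of_nonneg hh0] at b1
        rw [show v - (u + h) = h by linarith, abs_of_nonneg hh0] at b2
        refine (abs_real_inner_le_norm _ _).trans
          ((mul_le_mul b1 b2 (norm_nonneg _) (by positivity)).trans (le_of_eq ?_))
        rw [two_mul, Real.rpow_add_of_nonneg hh0 ha0.le ha0.le]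
        ring
      have e4 : (v - u) ^ (2 * a) = 2 ^ (2 * a) * h ^ (2 * a) := by
        rw [← Real.mul_rpow (by norm_num) hh0]; congr 1; linarith
      have e5 : (v - u) ^ a = 2 ^ a * h ^ a := by
        rw [← Real.mul_rpow (by norm_num) hh0]; congr 1; linarith
      have e6 : yc a * 2 ^ (2 * a) = 2 * yc a + 1 := by
        have : (2 : ℝ) ^ (2 * a) - 2 ≠ 0 := by linarith
        unfold yc
        field_simp
        ring
      have e7 : 2 ^ a * r = 1 := by rw [hr]; exact mul_inv_cancel₀ (by positivity)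
      have e8 : v - u = 2 * h := by linarith
      have e9 : yc a * Mf * Mg * (v - u) ^ (2 * a) +
          Mf * G * ((v - u) ^ a * (v - u)) * r ^ (k + 1) =
          (yc a * 2 ^ (2 * a)) * (Mf * Mg * h ^ (2 * a)) +
            (2 ^ a * r) * (2 * (Mf * G * (h ^ a * h) * r ^ k)) := by
        rw [e4, e5, e8]; ring
      rw [e9, e6, e7, e2]
      refine (abs_add_three _ _ _).trans ?_
      linarith
  have lim : Tendsto (fun k : ℕ => yc a * Mf * Mg * (t - s) ^ (2 * a) +
      Mf * G * ((t - s) ^ a * (t - s)) * r ^ k) atTop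
      (𝓝 (yc a * Mf * Mg * (t - s) ^ (2 * a) + Mf * G * ((t - s) ^ a * (t - s)) * 0)) :=
    ((tendsto_pow_atTop_nhds_zero_of_lt_one hr0.le hr1).const_mul _).const_add _
  rw [mul_zero, add_zero] at lim
  exact ge_of_tendsto' lim fun k => key k s t le_rfl hst le_rfl

/-- scalar form with the boundary term -/
theorem young_real {a : ℝ} (ha : 1 / 2 < a)
    {f g g' : ℝ → ℝ} {s t Mf Mg : ℝ} (hst : s ≤ t) (hMf : 0 ≤ Mf) (hMg : 0 ≤ Mg)
    (hf : ContinuousOn f (Icc s t)) (hg : ∀ x ∈ Icc s t, HasDerivAt g (g' x) x)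
    (hg' : ContinuousOn g' (Icc s t))
    (hf1 : ∀ x ∈ Icc s t, ∀ y ∈ Icc s t, |f x - f y| ≤ Mf * |x - y| ^ a)
    (hg1 : ∀ x ∈ Icc s t, ∀ y ∈ Icc s t, |g x - g y| ≤ Mg * |x - y| ^ a) :
    |∫ x in s..t, f x * g' x| ≤ yc a * Mf * Mg * (t - s) ^ (2 * a) + |f s| * (Mg * (t - s) ^ a) := by
  have h1 := young (Y := ℝ) ha hst hMf hMg hf hg hg' hf1 hg1
  have i1 : IntervalIntegrable g' volume s t := hg'.intervalIntegrable_of_Icc hst
  have i2 : IntervalIntegrable (fun x => ⟪f x - f s, g' x⟫) volume s t :=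
    (ContinuousOn.inner (𝕜 := ℝ) (hf.sub continuousOn_const) hg').intervalIntegrable_of_Icc hst
  have e1 : ∫ x in s..t, g' x = g t - g s :=
    intervalIntegral.integral_eq_sub_of_hasDerivAt
      (fun x hx => hg x (by rwa [uIcc_of_le hst] at hx)) i1
  have e2 : ∫ x in s..t, f x * g' x =
      (∫ x in s..t, ⟪f x - f s, g' x⟫) + f s * (g t - g s) := by
    rw [← e1, ← intervalIntegral.integral_const_mul,
      ← intervalIntegral.integral_add i2 (i1.const_mul _)]
    congr 1
    funext x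
    simp only [RCLike.inner_apply, conj_trivial]
    ring
  have h2 := hg1 t ⟨hst, le_rfl⟩ s ⟨le_rfl, hst⟩
  rw [abs_of_nonneg (sub_nonneg.mpr hst)] at h2
  rw [e2]
  refine (abs_add_le _ _).trans (add_le_add h1 ?_)
  rw [abs_mul]
  exact mul_le_mul_of_nonneg_left h2 (abs_nonneg _)

end Pool.Agent.Bor
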