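import Pool.Agent.P.MP_26ecb7_gt.EndSew
import Pool.Agent.P.MP_26ecb7_gt.EndMol
import Pool.Agent.P.MP_26ecb7_gt.Young0

noncomputable section
open Set Filter Topology MeasureTheory Metric
open scoped RealInnerProductSpace ContDiff ENNReal

namespace Pool.Agent.Bor

theorem endyi_osc {u : ℝ → ℝ} {a b M s t x y : ℝ} (h : Ho u (Icc a b) M) (hM : 0 ≤ M)
    (has : a ≤ s) (htb : t ≤ b) (hx : x ∈ Icc s t) (hy : y ∈ Icc s t) :
    |u x - u y| ≤ M * tw (t - s) :=
  (h x (Icc_subset_Icc has htb hx) y (Icc_subset_Icc has htb hy)).trans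
    (mul_le_mul_of_nonneg_left (tw_mono dist_nonneg (Real.dist_le_of_mem_Icc hx hy)) hM)

theorem endyi_mul {x y A B : ℝ} (hx : |x| ≤ A) (hy : |y| ≤ B) : |x * y| ≤ A * B := by
  rw [abs_mul]
  exact mul_le_mul hx hy (abs_nonneg _) ((abs_nonneg _).trans hx)

theorem endyi_sub {x y A B : ℝ} (hx : |x| ≤ A) (hy : |y| ≤ B) : |x - y| ≤ A + B :=
  (abs_sub _ _).trans (add_le_add hx hy)

/-- the Young bound with the local constants -/
theorem Prim.bound {f g I : ℝ → ℝ} {a b Mf Mg : ℝ} (h : Prim f g I a b) (hMf : 0 ≤ Mf)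
    (hMg : 0 ≤ Mg) (hf : Ho f (Icc a b) Mf) (hg : Ho g (Icc a b) Mg) :
    ∀ s t, a ≤ s → s ≤ t → t ≤ b →
      |I t - I s - f s * (g t - g s)| ≤ 5 * (Mf * Mg) * tw (t - s) ^ 2 := by
  refine sew (R := fun s t => I t - I s - f s * (g t - g s)) (mul_nonneg hMf hMg)
    (fun s t h1 h2 h3 => ?_) h
  have hm : (s + t) / 2 ∈ Icc s t := ⟨by linarith, by linarith⟩
  have e : I t - I s - f s * (g t - g s) - (I ((s + t) / 2) - I s - f s * (g ((s + t) / 2) - g s)) -
      (I t - I ((s + t) / 2) - f ((s + t) / 2) * (g t - g ((s + t) / 2))) =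
      (f ((s + t) / 2) - f s) * (g t - g ((s + t) / 2)) := by ring
  rw [e]
  refine (endyi_mul (endyi_osc hf hMf h1 h3 hm ⟨le_rfl, h2⟩)
    (endyi_osc hg hMg h1 h3 ⟨h2, le_rfl⟩ hm)).trans (le_of_eq ?_)
  ring

theorem Prim.unique {f g I J : ℝ → ℝ} {a b : ℝ} (hab : a ≤ b) (h : Prim f g I a b)
    (h' : Prim f g J a b) : I b - I a = J b - J a := by
  obtain ⟨K, hK⟩ := h
  obtain ⟨K', hK'⟩ := h'
  have h1 := sew (R := fun s t => I t - I s - (J t - J s)) (a := a) (b := b) (K := 0) le_rfl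
    (fun s t _ _ _ => by
      have e : I t - I s - (J t - J s) - (I ((s + t) / 2) - I s - (J ((s + t) / 2) - J s)) -
        (I t - I ((s + t) / 2) - (J t - J ((s + t) / 2))) = 0 := by ring
      rw [e, abs_zero, zero_mul])
    ⟨K + K', fun s t h1 h2 h3 => by
      have e : I t - I s - (J t - J s) = (I t - I s - f s * (g t - g s)) -
        (J t - J s - f s * (g t - g s)) := by ring
      rw [e, add_mul]
      exact endyi_sub (hK s t h1 h2 h3) (hK' s t h1 h2 h3)⟩ a b le_rfl hab le_rfl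
  rw [mul_zero, zero_mul, abs_nonpos_iff] at h1
  exact sub_eq_zero.1 h1

theorem Prim.congr {f g f' g' I : ℝ → ℝ} {a b : ℝ} (h : Prim f g I a b)
    (hf : ∀ s ∈ Icc a b, f s = f' s) (hg : ∀ s ∈ Icc a b, g s = g' s) : Prim f' g' I a b := by
  obtain ⟨K, hK⟩ := h
  refine ⟨K, fun s t h1 h2 h3 => ?_⟩
  rw [← hf s ⟨h1, h2.trans h3⟩, ← hg s ⟨h1, h2.trans h3⟩, ← hg t ⟨h1.trans h2, h3⟩]
  exact hK s t h1 h2 h3

/-- stability of the Young integral -/
theorem prim_stab (M l : ℝ) {θ : ℝ} (hθ : 0 < θ) : ∃ ε > 0, ∀ (f g I f' g' I' : ℝ → ℝ) (a b : ℝ),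
    a ≤ b → b - a ≤ l → Ho f (Icc a b) M → Ho g (Icc a b) M → Ho f' (Icc a b) M →
    Ho g' (Icc a b) M → (∀ s ∈ Icc a b, |f s| ≤ M) → (∀ s ∈ Icc a b, |f s - f' s| ≤ ε) →
    (∀ s ∈ Icc a b, |g s - g' s| ≤ ε) → Prim f g I a b → Prim f' g' I' a b →
    |(I b - I a) - (I' b - I' a)| ≤ θ := by
  obtain ⟨ε0, hε0, hs⟩ := sew_small (5 * (M * M) + 5 * (M * M)) l (half_pos hθ)
  obtain ⟨ε, hε, hε'⟩ := exists_pos_mul_lt (lt_min hε0 (half_pos hθ)) (4 * (M * tw l) + 2 * M)
  refine ⟨ε, hε, fun f g I f' g' I' a b hab hl hf hg hf' hg' h0 df dg hI hI' => ?_⟩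
  have hM : 0 ≤ M := (abs_nonneg _).trans (h0 a ⟨le_rfl, hab⟩)
  have hL : 0 ≤ M * tw l * ε :=
    mul_nonneg (mul_nonneg hM (tw_nonneg ((sub_nonneg.2 hab).trans hl))) hε.le
  have hMε : 0 ≤ M * ε := mul_nonneg hM hε.le
  have osc : ∀ {u : ℝ → ℝ}, Ho u (Icc a b) M → ∀ {x y}, x ∈ Icc a b → y ∈ Icc a b →
      |u x - u y| ≤ M * tw l := fun hu _ _ hx hy => (endyi_osc hu hM le_rfl le_rfl hx hy).trans
    (mul_le_mul_of_nonneg_left (tw_mono (sub_nonneg.2 hab) hl) hM)
  have e1 := lt_of_lt_of_le hε' (min_le_left _ _)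
  have e2 := lt_of_lt_of_le hε' (min_le_right _ _)
  have h1 := hs (fun s t => (I t - I s - f s * (g t - g s)) - (I' t - I' s - f' s * (g' t - g' s)))
    a b hab hl (fun s t h1 h2 h3 => by
      have hm : (s + t) / 2 ∈ Icc a b := ⟨by linarith, by linarith⟩
      have hs' : s ∈ Icc a b := ⟨h1, h2.trans h3⟩
      have ht' : t ∈ Icc a b := ⟨h1.trans h2, h3⟩
      generalize (s + t) / 2 = m at hm ⊢
      have e : I t - I s - f s * (g t - g s) - (I' t - I' s - f' s * (g' t - g' s)) -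
          (I m - I s - f s * (g m - g s) - (I' m - I' s - f' s * (g' m - g' s))) -
          (I t - I m - f m * (g t - g m) - (I' t - I' m - f' m * (g' t - g' m))) =
          (f m - f s) * (g t - g' t - (g m - g' m)) -
            (f s - f' s - (f m - f' m)) * (g' t - g' m) := by ring
      rw [e]
      refine (endyi_sub (endyi_mul (osc hf hm hs') (endyi_sub (dg t ht') (dg m hm)))
        (endyi_mul (endyi_sub (df s hs') (df m hm)) (osc hg' ht' hm))).trans ?_
      linarith)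
    (fun s t h1 h2 h3 => by
      rw [add_mul]
      exact endyi_sub (hI.bound hM hM hf hg s t h1 h2 h3) (hI'.bound hM hM hf' hg' s t h1 h2 h3))
  have ha : a ∈ Icc a b := ⟨le_rfl, hab⟩
  have hb : b ∈ Icc a b := ⟨hab, le_rfl⟩
  have e : I b - I a - (I' b - I' a) =
      (I b - I a - f a * (g b - g a) - (I' b - I' a - f' a * (g' b - g' a))) -
        (f a * (g a - g' a - (g b - g' b)) - (f a - f' a) * (g' b - g' a)) := by ring
  rw [e]
  refine (endyi_sub h1 (endyi_sub (endyi_mul (h0 a ha) (endyi_sub (dg a ha) (dg b hb)))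
    (endyi_mul (df a ha) (osc hg' hb ha)))).trans ?_
  linarith

/-- the ordinary integral is a primitive -/
theorem prim_smooth {f g g' : ℝ → ℝ} {a b M : ℝ} (u : ℝ) (hM : 0 ≤ M) (hf : Continuous f)
    (hg : ∀ s, HasDerivAt g (g' s) s) (hg' : Continuous g') (hf1 : Ho f (Icc a b) M)
    (hg1 : Ho g (Icc a b) M) : Prim f g (fun t => ∫ s in u..t, f s * g' s) a b := by
  refine ⟨yc (2 / 3) * M * M, fun s t h1 h2 h3 => ?_⟩
  have hi : ∀ x y, IntervalIntegrable (fun s => f s * g' s) volume x y := fun x y =>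
    (hf.mul hg').intervalIntegrable x y
  have h4 := young (Y := ℝ) (a := 2 / 3) (by norm_num) h2 hM hM hf.continuousOn
    (fun x _ => hg x) hg'.continuousOn
    (fun x hx y hy => hf1 x (Icc_subset_Icc h1 h3 hx) y (Icc_subset_Icc h1 h3 hy))
    (fun x hx y hy => hg1 x (Icc_subset_Icc h1 h3 hx) y (Icc_subset_Icc h1 h3 hy))
  have e1 : ∫ x in s..t, g' x = g t - g s :=
    intervalIntegral.integral_eq_sub_of_hasDerivAt (fun x _ => hg x) (hg'.intervalIntegrable s t)
  have e2 : (∫ x in s..t, f x * g' x) - f s * (g t - g s) = ∫ x in s..t, ⟪f x - f s, g' x⟫ := by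
    rw [← e1, ← intervalIntegral.integral_const_mul,
      ← intervalIntegral.integral_sub (hi s t) ((hg'.intervalIntegrable s t).const_mul _)]
    congr 1
    funext x
    simp only [RCLike.inner_apply, conj_trivial]
    ring
  beta_reduce
  rw [intervalIntegral.integral_interval_sub_left (hi u t) (hi u s), e2, tw_sq (sub_nonneg.2 h2)]
  exact h4

theorem exists_prim {f g : ℝ → ℝ} (hf : Hb f) (hg : Hb g) : ∃ I, ∀ a b, Prim f g I a b := by
  obtain ⟨M, hM, hf0, -, hf1, hg1⟩ := hf.two hg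
  obtain ⟨U, hU, hU1, hU2⟩ := exists_moll hM hg1
  obtain ⟨I, hI0, hI⟩ : ∃ I : ℕ → ℝ → ℝ, (∀ n, I n 0 = 0) ∧ ∀ n a b, Prim f (U n) (I n) a b :=
    ⟨fun n t => ∫ s in (0 : ℝ)..t, f s * deriv (U n) s, fun _ => intervalIntegral.integral_same,
      fun n a b => prim_smooth 0 hM hf.continuous
        (fun s => ((hU n).differentiable (by simp) s).hasDerivAt)
        ((hU n).continuous_deriv (by exact_mod_cast le_top)) (hf1.mono (subset_univ _) le_rfl)
        ((hU1 n).mono (subset_univ _) le_rfl)⟩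
  have hc : ∀ t, CauchySeq fun n => I n t := fun t => by
    refine Metric.cauchySeq_iff.2 fun θ hθ => ?_
    obtain ⟨ε, hε, hs⟩ := prim_stab M |t| (half_pos hθ)
    obtain ⟨N, hN⟩ := eventually_atTop.1 (Metric.tendstoUniformly_iff.1 hU2 _ (half_pos hε))
    refine ⟨N, fun m hm n hn => ?_⟩
    have key : ∀ a b, a ≤ b → b - a ≤ |t| → |I m b - I m a - (I n b - I n a)| ≤ θ / 2 :=
      fun a b hab hl => hs f (U m) (I m) f (U n) (I n) a b hab hl
        (hf1.mono (subset_univ _) le_rfl) ((hU1 m).mono (subset_univ _) le_rfl)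
        (hf1.mono (subset_univ _) le_rfl) ((hU1 n).mono (subset_univ _) le_rfl)
        (fun s _ => hf0 s) (fun s _ => by rw [sub_self, abs_zero]; exact hε.le)
        (fun s _ => by
          have h1 := dist_triangle_left (U m s) (U n s) (g s)
          rw [← Real.dist_eq]
          linarith [hN m hm s, hN n hn s]) (hI m a b) (hI n a b)
    rw [Real.dist_eq]
    rcases le_total 0 t with h | h
    · have h1 := key 0 t h (by rw [sub_zero]; exact le_abs_self t)
      rw [hI0, hI0, sub_zero, sub_zero] at h1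
      linarith
    · have h1 := key t 0 h (by rw [zero_sub]; exact neg_le_abs t)
      rw [hI0, hI0, zero_sub, zero_sub, neg_sub_neg, abs_sub_comm] at h1
      linarith
  choose J hJ using fun t => cauchySeq_tendsto_of_complete (hc t)
  refine ⟨J, fun a b => ⟨5 * (M * M), fun s t h1 h2 h3 => ?_⟩⟩
  exact le_of_tendsto' ((((hJ t).sub (hJ s)).sub
    (((hU2.tendsto_at t).sub (hU2.tendsto_at s)).const_mul (f s))).abs) fun n =>
      (hI n a b).bound hM hM (hf1.mono (subset_univ _) le_rfl)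
        ((hU1 n).mono (subset_univ _) le_rfl) s t h1 h2 h3

theorem prim_prim {f g : ℝ → ℝ} (hf : Hb f) (hg : Hb g) (a b : ℝ) : Prim f g (prim f g) a b :=
  Classical.epsilon_spec (exists_prim hf hg) a b

theorem yi_eq {f g I : ℝ → ℝ} (hf : Hb f) (hg : Hb g) {a b : ℝ} (hab : a ≤ b)
    (h : Prim f g I a b) : yi f g a b = I b - I a :=
  (prim_prim hf hg a b).unique hab h

end Pool.Agent.Bor
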