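import Pool.Agent.P.MP_26ecb7_gt.EndYa

noncomputable section
open Set Filter Topology MeasureTheory Metric
open scoped RealInnerProductSpace ContDiff ENNReal

namespace Pool.Agent.Bor

variable {f g f' g' : P → ℝ} {c : P} {r : ℝ}

theorem endyl_isoh (y : ℝ) : Isometry fun s : ℝ => ((s, y) : P) :=
  Isometry.of_dist_eq fun s t => by simp [Prod.dist_eq]

theorem endyl_isov (x : ℝ) : Isometry fun t : ℝ => ((x, t) : P) :=
  Isometry.of_dist_eq fun s t => by simp [Prod.dist_eq]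

theorem endyl_h (hf : Hb f) (y : ℝ) : Hb fun s : ℝ => f (s, y) := hf.iso (endyl_isoh y)

theorem endyl_v (hf : Hb f) (x : ℝ) : Hb fun t : ℝ => f (x, t) := hf.iso (endyl_isov x)

theorem endyl_le (a : ℝ) (hr : 0 < r) : a ≤ a + r := by linarith

theorem yl_split (f g : P → ℝ) (c : P) (r : ℝ) : Add4 (fun c r => yl c r f g) c r := by
  unfold Add4 yl
  have e1 : c.1 + r / 2 + r / 2 = c.1 + r := by ring
  have e2 : c.2 + r / 2 + r / 2 = c.2 + r := by ring
  simp only [e1, e2]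
  have h1 := yi_add3 (fun s => f (s, c.2)) (fun s => g (s, c.2)) c.1 (c.1 + r / 2) (c.1 + r)
  have h2 := yi_add3 (fun s => f (c.1 + r, s)) (fun s => g (c.1 + r, s)) c.2 (c.2 + r / 2)
    (c.2 + r)
  have h3 := yi_add3 (fun s => f (s, c.2 + r)) (fun s => g (s, c.2 + r)) c.1 (c.1 + r / 2)
    (c.1 + r)
  have h4 := yi_add3 (fun s => f (c.1, s)) (fun s => g (c.1, s)) c.2 (c.2 + r / 2) (c.2 + r)
  linarith

theorem endyl_edge_bound (hf : Hb f) (hg : Hb g) (hr : 0 < r) {Mf Mg F0 : ℝ} (hMf : 0 ≤ Mf)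
    (hMg : 0 ≤ Mg) (hf1 : Ho f (sqr c r) Mf) (hg1 : Ho g (sqr c r) Mg)
    (h0 : ∀ x ∈ sqr c r, |f x| ≤ F0) {γ : ℝ → P} {a : ℝ} (e : Edge c r γ a) :
    |yi (fun s => f (γ s)) (fun s => g (γ s)) a (a + r)|
      ≤ 5 * (Mf * Mg) * tw r ^ 2 + F0 * Mg * tw r := by
  have h1 := yi_bound (hf.iso e.1) (hg.iso e.1) (endyl_le a hr) hMf hMg (e.ho hf1) (e.ho hg1)
  have ha : γ a ∈ sqr c r := (e.2 a ⟨le_rfl, endyl_le a hr⟩).2
  have hb : γ (a + r) ∈ sqr c r := (e.2 (a + r) ⟨endyl_le a hr, le_rfl⟩).2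
  have h2 := hg1.osc hMg hb ha
  have h3 := h0 _ ha
  have e1 : a + r - a = r := by ring
  rw [e1] at h1
  have h4 : |f (γ a) * (g (γ (a + r)) - g (γ a))| ≤ F0 * (Mg * tw r) := by
    rw [abs_mul]
    exact mul_le_mul h3 h2 (abs_nonneg _) ((abs_nonneg _).trans h3)
  have h5 := abs_le.1 h1
  have h6 := abs_le.1 h4
  rw [abs_le]
  constructor <;> linarith [h5.1, h5.2, h6.1, h6.2]

theorem yl_bound (hf : Hb f) (hg : Hb g) (hr : 0 < r) {Mf Mg F0 : ℝ} (hMf : 0 ≤ Mf) (hMg : 0 ≤ Mg)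
    (hf1 : Ho f (sqr c r) Mf) (hg1 : Ho g (sqr c r) Mg) (h0 : ∀ x ∈ sqr c r, |f x| ≤ F0) :
    |yl c r f g| ≤ 20 * (Mf * Mg) * tw r ^ 2 + 4 * (F0 * Mg) * tw r := by
  have h1 := abs_le.1 (endyl_edge_bound hf hg hr hMf hMg hf1 hg1 h0 (edge_b c hr.le))
  have h2 := abs_le.1 (endyl_edge_bound hf hg hr hMf hMg hf1 hg1 h0 (edge_r c hr.le))
  have h3 := abs_le.1 (endyl_edge_bound hf hg hr hMf hMg hf1 hg1 h0 (edge_t c hr.le))
  have h4 := abs_le.1 (endyl_edge_bound hf hg hr hMf hMg hf1 hg1 h0 (edge_l c hr.le))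
  unfold yl
  rw [abs_le]
  constructor <;> linarith [h1.1, h1.2, h2.1, h2.2, h3.1, h3.2, h4.1, h4.2]

theorem endyl_edge_congr (hf : Hb f) (hg : Hb g) (hf' : Hb f') (hg' : Hb g') (hr : 0 < r)
    (h1 : ∀ x ∈ frontier (sqr c r), f x = f' x) (h2 : ∀ x ∈ frontier (sqr c r), g x = g' x)
    {γ : ℝ → P} {a : ℝ} (e : Edge c r γ a) :
    yi (fun s => f (γ s)) (fun s => g (γ s)) a (a + r)
      = yi (fun s => f' (γ s)) (fun s => g' (γ s)) a (a + r) :=
  yi_congr (hf.iso e.1) (hg.iso e.1) (hf'.iso e.1) (hg'.iso e.1) (endyl_le a hr)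
    (fun s hs => h1 _ (e.2 s hs).1) (fun s hs => h2 _ (e.2 s hs).1)

theorem yl_congr (hf : Hb f) (hg : Hb g) (hf' : Hb f') (hg' : Hb g') (hr : 0 < r)
    (h1 : ∀ x ∈ frontier (sqr c r), f x = f' x) (h2 : ∀ x ∈ frontier (sqr c r), g x = g' x) :
    yl c r f g = yl c r f' g' := by
  have k1 := endyl_edge_congr hf hg hf' hg' hr h1 h2 (edge_b c hr.le)
  have k2 := endyl_edge_congr hf hg hf' hg' hr h1 h2 (edge_r c hr.le)
  have k3 := endyl_edge_congr hf hg hf' hg' hr h1 h2 (edge_t c hr.le)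
  have k4 := endyl_edge_congr hf hg hf' hg' hr h1 h2 (edge_l c hr.le)
  unfold yl
  linarith
theorem yl_congr' (hf : Hb f) (hg : Hb g) (hf' : Hb f') (hg' : Hb g') (hr : 0 < r)
    (h1 : ∀ x ∈ sqr c r, f x = f' x) (h2 : ∀ x ∈ sqr c r, g x = g' x) :
    yl c r f g = yl c r f' g' :=
  yl_congr hf hg hf' hg' hr
    (fun x hx => h1 x ((sqr_compact c r).isClosed.frontier_subset hx))
    (fun x hx => h2 x ((sqr_compact c r).isClosed.frontier_subset hx))
theorem yl_add (hf : Hb f) (hf' : Hb f') (hg : Hb g) (hr : 0 < r) :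
    yl c r (fun x => f x + f' x) g = yl c r f g + yl c r f' g := by
  have k1 := yi_add (endyl_h hf c.2) (endyl_h hf' c.2) (endyl_h hg c.2) (endyl_le c.1 hr)
  have k2 := yi_add (endyl_v hf (c.1 + r)) (endyl_v hf' (c.1 + r)) (endyl_v hg (c.1 + r))
    (endyl_le c.2 hr)
  have k3 := yi_add (endyl_h hf (c.2 + r)) (endyl_h hf' (c.2 + r)) (endyl_h hg (c.2 + r))
    (endyl_le c.1 hr)
  have k4 := yi_add (endyl_v hf c.1) (endyl_v hf' c.1) (endyl_v hg c.1) (endyl_le c.2 hr)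
  unfold yl
  linarith
theorem endyl_mul (k : ℝ) (hf : Hb f) (hg : Hb g) (hr : 0 < r) :
    yl c r (fun x => k * f x) g = k * yl c r f g := by
  have k1 := yi_mul k (endyl_h hf c.2) (endyl_h hg c.2) (endyl_le c.1 hr)
  have k2 := yi_mul k (endyl_v hf (c.1 + r)) (endyl_v hg (c.1 + r)) (endyl_le c.2 hr)
  have k3 := yi_mul k (endyl_h hf (c.2 + r)) (endyl_h hg (c.2 + r)) (endyl_le c.1 hr)
  have k4 := yi_mul k (endyl_v hf c.1) (endyl_v hg c.1) (endyl_le c.2 hr)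
  unfold yl
  linarith
theorem yl_sub (hf : Hb f) (hf' : Hb f') (hg : Hb g) (hr : 0 < r) :
    yl c r (fun x => f x - f' x) g = yl c r f g - yl c r f' g := by
  have e : (fun x => f x - f' x) = fun x => f x + (-1) * f' x := by
    funext x; ring
  rw [e, yl_add hf (hf'.const_mul (-1)) hg hr, endyl_mul (-1) hf' hg hr]
  ring
theorem yl_mul (k : ℝ) (hf : Hb f) (hg : Hb g) (hr : 0 < r) :
    yl c r (fun x => k * f x) g = k * yl c r f g := endyl_mul k hf hg hr
theorem yl_const (k : ℝ) (hg : Hb g) (hr : 0 < r) : yl c r (fun _ => k) g = 0 := by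
  have k1 := yi_const k (endyl_h hg c.2) (endyl_le c.1 hr)
  have k2 := yi_const k (endyl_v hg (c.1 + r)) (endyl_le c.2 hr)
  have k3 := yi_const k (endyl_h hg (c.2 + r)) (endyl_le c.1 hr)
  have k4 := yi_const k (endyl_v hg c.1) (endyl_le c.2 hr)
  unfold yl
  linarith
theorem yl_right (k m : ℝ) (hf : Hb f) (hg : Hb g) (hr : 0 < r) :
    yl c r f (fun x => k * (g x - m)) = k * yl c r f g := by
  have k1 := yi_right k m (endyl_h hf c.2) (endyl_h hg c.2) (endyl_le c.1 hr)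
  have k2 := yi_right k m (endyl_v hf (c.1 + r)) (endyl_v hg (c.1 + r)) (endyl_le c.2 hr)
  have k3 := yi_right k m (endyl_h hf (c.2 + r)) (endyl_h hg (c.2 + r)) (endyl_le c.1 hr)
  have k4 := yi_right k m (endyl_v hf c.1) (endyl_v hg c.1) (endyl_le c.2 hr)
  unfold yl
  linarith
theorem yl_parts (hf : Hb f) (hg : Hb g) (hr : 0 < r) : yl c r f g = - yl c r g f := by
  have k1 := yi_parts (endyl_h hf c.2) (endyl_h hg c.2) (endyl_le c.1 hr)
  have k2 := yi_parts (endyl_v hf (c.1 + r)) (endyl_v hg (c.1 + r)) (endyl_le c.2 hr)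
  have k3 := yi_parts (endyl_h hf (c.2 + r)) (endyl_h hg (c.2 + r)) (endyl_le c.1 hr)
  have k4 := yi_parts (endyl_v hf c.1) (endyl_v hg c.1) (endyl_le c.2 hr)
  unfold yl
  linarith

theorem endyl_edge_subst {u w : P → ℝ} (hf : Hb f) (hu : Hb u) (hg : Hb g) (hw : Hb w)
    (hr : 0 < r) {K : ℝ}
    (h : ∀ x ∈ sqr c r, ∀ y ∈ sqr c r, |w y - w x - u x * (g y - g x)| ≤ K * tw (dist x y) ^ 2)
    {γ : ℝ → P} {a : ℝ} (e : Edge c r γ a) :
    yi (fun s => f (γ s)) (fun s => w (γ s)) a (a + r)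
      = yi (fun s => f (γ s) * u (γ s)) (fun s => g (γ s)) a (a + r) := by
  refine yi_subst (hf.iso e.1) (hu.iso e.1) (hg.iso e.1) (hw.iso e.1) (endyl_le a hr) ⟨K, ?_⟩
  intro s t hs hst ht
  have k := h (γ s) (e.2 s ⟨hs, hst.trans ht⟩).2 (γ t) (e.2 t ⟨hs.trans hst, ht⟩).2
  have d : dist (γ s) (γ t) = t - s := by
    rw [e.1.dist_eq, Real.dist_eq, abs_sub_comm, abs_of_nonneg (by linarith)]
  rw [d] at k
  exact k

theorem yl_subst {u w : P → ℝ} (hf : Hb f) (hu : Hb u) (hg : Hb g) (hw : Hb w) (hr : 0 < r) {K : ℝ}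
    (h : ∀ x ∈ sqr c r, ∀ y ∈ sqr c r, |w y - w x - u x * (g y - g x)| ≤ K * tw (dist x y) ^ 2) :
    yl c r f w = yl c r (fun x => f x * u x) g := by
  have k1 := endyl_edge_subst hf hu hg hw hr h (edge_b c hr.le)
  have k2 := endyl_edge_subst hf hu hg hw hr h (edge_r c hr.le)
  have k3 := endyl_edge_subst hf hu hg hw hr h (edge_t c hr.le)
  have k4 := endyl_edge_subst hf hu hg hw hr h (edge_l c hr.le)
  unfold yl
  linarith
theorem yl_chain {F : ℝ → ℝ} (hF : ContDiff ℝ ∞ F) (hg : Hb g) (hr : 0 < r) :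
    yl c r (fun x => F (g x)) g = 0 := by
  have k1 := yi_chain hF (endyl_h hg c.2) (endyl_le c.1 hr)
  have k2 := yi_chain hF (endyl_v hg (c.1 + r)) (endyl_le c.2 hr)
  have k3 := yi_chain hF (endyl_h hg (c.2 + r)) (endyl_le c.1 hr)
  have k4 := yi_chain hF (endyl_v hg c.1) (endyl_le c.2 hr)
  have hi : ∀ a b : ℝ, IntervalIntegrable F volume a b := fun a b =>
    hF.continuous.intervalIntegrable a b
  have a1 := intervalIntegral.integral_add_adjacent_intervals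
    (hi (g (c.1, c.2)) (g (c.1 + r, c.2))) (hi (g (c.1 + r, c.2)) (g (c.1 + r, c.2 + r)))
  have a2 := intervalIntegral.integral_add_adjacent_intervals
    (hi (g (c.1, c.2)) (g (c.1, c.2 + r))) (hi (g (c.1, c.2 + r)) (g (c.1 + r, c.2 + r)))
  unfold yl
  linarith
theorem yl_sq (hf : Hb f) (hg : Hb g) (hr : 0 < r) :
    yl c r (fun x => g x * g x) f = -2 * yl c r (fun x => f x * g x) g := by
  obtain ⟨M, hM, -, hH⟩ := id hg
  have h1 : yl c r f (fun x => g x * g x) = yl c r (fun x => f x * (2 * g x)) g := by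
    refine yl_subst (K := M ^ 2) hf (hg.const_mul 2) hg (hg.mul hg) hr ?_
    intro x _ y _
    have k := hH y (mem_univ _) x (mem_univ _)
    rw [dist_comm] at k
    have e : g y * g y - g x * g x - 2 * g x * (g y - g x) = (g y - g x) ^ 2 := by ring
    rw [e, abs_pow, ← mul_pow]
    exact pow_le_pow_left₀ (abs_nonneg _) k 2
  have e : (fun x => f x * (2 * g x)) = fun x => 2 * (f x * g x) := by
    funext x; ring
  rw [yl_parts (hg.mul hg) hf hr, h1, e, yl_mul 2 (hf.mul hg) hg hr]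
  ring

theorem endyl_scale_h (hf : Hb f) (hg : Hb g) (m : P) {l : ℝ} (hl : 0 < l) (y : ℝ) {a b : ℝ}
    (hab : a ≤ b) :
    yi (fun s => f (m + l • ((s, y) : P))) (fun s => g (m + l • ((s, y) : P))) a b
      = yi (fun s => f (s, m.2 + l * y)) (fun s => g (s, m.2 + l * y)) (m.1 + l * a)
        (m.1 + l * b) :=
  yi_scale (endyl_h hf (m.2 + l * y)) (endyl_h hg (m.2 + l * y)) hab m.1 hl
    (endyl_h (hf.affine m hl) y) (endyl_h (hg.affine m hl) y)

theorem endyl_scale_v (hf : Hb f) (hg : Hb g) (m : P) {l : ℝ} (hl : 0 < l) (x : ℝ) {a b : ℝ}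
    (hab : a ≤ b) :
    yi (fun s => f (m + l • ((x, s) : P))) (fun s => g (m + l • ((x, s) : P))) a b
      = yi (fun s => f (m.1 + l * x, s)) (fun s => g (m.1 + l * x, s)) (m.2 + l * a)
        (m.2 + l * b) :=
  yi_scale (endyl_v hf (m.1 + l * x)) (endyl_v hg (m.1 + l * x)) hab m.2 hl
    (endyl_v (hf.affine m hl) x) (endyl_v (hg.affine m hl) x)

theorem yl_scale (hf : Hb f) (hg : Hb g) (hr : 0 < r) (m : P) {l : ℝ} (hl : 0 < l) :
    yl c r (fun x => f (m + l • x)) (fun x => g (m + l • x)) = yl (m + l • c) (l * r) f g := by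
  have k1 := endyl_scale_h hf hg m hl c.2 (endyl_le c.1 hr)
  have k2 := endyl_scale_v hf hg m hl (c.1 + r) (endyl_le c.2 hr)
  have k3 := endyl_scale_h hf hg m hl (c.2 + r) (endyl_le c.1 hr)
  have k4 := endyl_scale_v hf hg m hl c.1 (endyl_le c.2 hr)
  have e1 : m.1 + l * (c.1 + r) = m.1 + l * c.1 + l * r := by ring
  have e2 : m.2 + l * (c.2 + r) = m.2 + l * c.2 + l * r := by ring
  have e3 : (m + l • c).1 = m.1 + l * c.1 := rfl
  have e4 : (m + l • c).2 = m.2 + l * c.2 := rfl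
  simp only [e1, e2] at k1 k2 k3 k4
  unfold yl
  simp only [e3, e4]
  linarith
/-- change of the base point -/
theorem yl_centre (hf : Hb f) (hg : Hb g) (hr : 0 < r) (h : yl c r f g = 0) (a b : ℝ) :
    yl c r (fun x => (g x - a) * (f x - b)) g = yl c r (fun x => g x * f x) g ∧
    yl c r (fun x => (f x - b) * (f x - b)) g = yl c r (fun x => f x * f x) g := by
  have h0 : yl c r g g = 0 := yl_chain (F := fun y => y) contDiff_id hg hr
  constructor
  · have e : (fun x => (g x - a) * (f x - b))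
        = fun x => ((g x * f x - b * g x) - a * f x) + a * b := by
      funext x; ring
    rw [e, yl_add (((hg.mul hf).sub (hg.const_mul b)).sub (hf.const_mul a)) (Hb.const _) hg hr,
      yl_sub ((hg.mul hf).sub (hg.const_mul b)) (hf.const_mul a) hg hr,
      yl_sub (hg.mul hf) (hg.const_mul b) hg hr, yl_mul b hg hg hr, yl_mul a hf hg hr,
      yl_const _ hg hr, h, h0]
    ring
  · have e : (fun x => (f x - b) * (f x - b))
        = fun x => (f x * f x - (2 * b) * f x) + b * b := by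
      funext x; ring
    rw [e, yl_add ((hf.mul hf).sub (hf.const_mul _)) (Hb.const _) hg hr,
      yl_sub (hf.mul hf) (hf.const_mul _) hg hr, yl_mul _ hf hg hr, yl_const _ hg hr, h]
    ring
/-- cubic terms -/
theorem yl_cubic {u v : P → ℝ} (hu : Hb u) (hv : Hb v) (hg : Hb g) : ∃ C, 0 ≤ C ∧ ∀ c r, 0 < r →
    |yl c r (fun x => (u x - u c) * (v x - v c)) g| ≤ C * r ^ 2 := by
  obtain ⟨M, hM, -, -, hu1, hv1⟩ := hu.two hv
  obtain ⟨N, hN, -, hg1⟩ := id hg
  refine ⟨44 * M ^ 2 * N, by positivity, fun c r hr => ?_⟩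
  have ht := tw_nonneg hr.le
  have hu2 : Ho u (sqr c r) M := hu1.mono (subset_univ _) le_rfl
  have hv2 : Ho v (sqr c r) M := hv1.mono (subset_univ _) le_rfl
  have hg2 : Ho g (sqr c r) N := hg1.mono (subset_univ _) le_rfl
  have hc : c ∈ sqr c r := corner_mem hr.le
  have hu3 : ∀ x ∈ sqr c r, |u x - u c| ≤ M * tw r := fun x hx => hu2.osc hM hx hc
  have hv3 : ∀ x ∈ sqr c r, |v x - v c| ≤ M * tw r := fun x hx => hv2.osc hM hx hc
  have hp := (hu2.sub_const (u c)).mul (hv2.sub_const (v c)) hu3 hv3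
  have h0 : ∀ x ∈ sqr c r, |(u x - u c) * (v x - v c)| ≤ M * tw r * (M * tw r) := by
    intro x hx
    rw [abs_mul]
    exact mul_le_mul (hu3 x hx) (hv3 x hx) (abs_nonneg _) (by positivity)
  have k := yl_bound ((hu.sub (Hb.const _)).mul (hv.sub (Hb.const _))) hg hr (by positivity) hN
    hp hg2 h0
  refine k.trans (le_of_eq ?_)
  rw [← tw_cube hr.le]
  ring

end Pool.Agent.Bor
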