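import Pool.Agent.P.MP_26ecb7_gt.EndYl
import Pool.Agent.P.MP_26ecb7_gt.Est

noncomputable section
open Set Filter Topology MeasureTheory Metric
open scoped RealInnerProductSpace ContDiff ENNReal

namespace Pool.Agent.Bor

theorem endys_edge {F G : ℕ → P → ℝ} {f g : P → ℝ} {c : P} {r M a : ℝ} {γ : ℝ → P} (hr : 0 < r)
    (e : Edge c r γ a) (hf : Hb f) (hg : Hb g)
    (h1 : TendstoUniformlyOn F f atTop (sqr c r)) (h2 : TendstoUniformlyOn G g atTop (sqr c r))
    (hM : ∀ᶠ n in atTop, Ho (F n) (sqr c r) M ∧ Ho (G n) (sqr c r) M) {I : ℕ → ℝ → ℝ}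
    (hI : ∀ᶠ n in atTop, Prim (fun s => F n (γ s)) (fun s => G n (γ s)) (I n) a (a + r)) :
    Tendsto (fun n => I n (a + r) - I n a) atTop
      (𝓝 (yi (fun s => f (γ s)) (fun s => g (γ s)) a (a + r))) := by
  obtain ⟨N, -, hfN, -, hf1, hg1⟩ := hf.two hg
  rw [Metric.tendsto_nhds]
  intro θ hθ
  obtain ⟨ε, hε, H⟩ := prim_stab (max M N) r (half_pos hθ)
  filter_upwards [hM, hI, Metric.tendstoUniformlyOn_iff.1 h1 ε hε,
    Metric.tendstoUniformlyOn_iff.1 h2 ε hε] with n a1 a2 a3 a4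
  have := H (fun s => f (γ s)) (fun s => g (γ s)) _ (fun s => F n (γ s)) (fun s => G n (γ s)) (I n)
    a (a + r) (by linarith) (by linarith)
    (e.ho (hf1.mono (subset_univ _) (le_max_right _ _)))
    (e.ho (hg1.mono (subset_univ _) (le_max_right _ _)))
    (e.ho (a1.1.mono Subset.rfl (le_max_left _ _))) (e.ho (a1.2.mono Subset.rfl (le_max_left _ _)))
    (fun s _ => (hfN _).trans (le_max_right _ _))
    (fun s hs => (a3 _ (e.2 s hs).2).le) (fun s hs => (a4 _ (e.2 s hs).2).le)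
    (prim_prim (hf.iso e.1) (hg.iso e.1) _ _) a2
  rw [dist_comm, Real.dist_eq]
  unfold yi
  linarith

theorem endys_yi {F G : ℕ → P → ℝ} {f g : P → ℝ} {c : P} {r M a : ℝ} {γ : ℝ → P} (hr : 0 < r)
    (e : Edge c r γ a) (hF : ∀ n, Hb (F n)) (hG : ∀ n, Hb (G n)) (hf : Hb f) (hg : Hb g)
    (h1 : TendstoUniformlyOn F f atTop (sqr c r)) (h2 : TendstoUniformlyOn G g atTop (sqr c r))
    (hM : ∀ᶠ n in atTop, Ho (F n) (sqr c r) M ∧ Ho (G n) (sqr c r) M) :
    Tendsto (fun n => yi (fun s => F n (γ s)) (fun s => G n (γ s)) a (a + r)) atTop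
      (𝓝 (yi (fun s => f (γ s)) (fun s => g (γ s)) a (a + r))) :=
  endys_edge hr e hf hg h1 h2 hM
    (I := fun n => prim (fun s => F n (γ s)) (fun s => G n (γ s)))
    (Eventually.of_forall fun n => prim_prim ((hF n).iso e.1) ((hG n).iso e.1) _ _)

theorem endys_int {F G : ℕ → P → ℝ} {f g : P → ℝ} {c : P} {r M a : ℝ} {γ : ℝ → P} {i : Fin 2}
    (hr : 0 < r) (e : Edge c r γ a) (hγ : ∀ s, HasDerivAt γ (e2 i) s)
    (hF : ∀ n, ContDiff ℝ ∞ (F n)) (hG : ∀ n, ContDiff ℝ ∞ (G n)) (hf : Hb f) (hg : Hb g)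
    (h1 : TendstoUniformlyOn F f atTop (sqr c r)) (h2 : TendstoUniformlyOn G g atTop (sqr c r))
    (hM : ∀ᶠ n in atTop, Ho (F n) (sqr c r) M ∧ Ho (G n) (sqr c r) M) :
    Tendsto (fun n => ∫ s in a..a + r, F n (γ s) * pd i (G n) (γ s)) atTop
      (𝓝 (yi (fun s => f (γ s)) (fun s => g (γ s)) a (a + r))) := by
  have h := endys_edge hr e hf hg h1 h2 hM
    (I := fun n t => ∫ s in a..t, F n (γ s) * pd i (G n) (γ s)) (by
      filter_upwards [hM] with n a1
      exact prim_smooth (g' := fun s => pd i (G n) (γ s)) a (le_max_right M 0)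
        ((hF n).continuous.comp e.1.continuous)
        (fun s => est_line ((hG n).differentiable (by simp) _) (hγ s))
        ((contDiff_pd (hG n) i).continuous.comp e.1.continuous)
        (e.ho (a1.1.mono Subset.rfl (le_max_left _ _)))
        (e.ho (a1.2.mono Subset.rfl (le_max_left _ _))))
  simpa only [intervalIntegral.integral_same, sub_zero] using h

theorem yl_tendsto {F G : ℕ → P → ℝ} {f g : P → ℝ} {c : P} {r M : ℝ} (hr : 0 < r)
    (hF : ∀ n, Hb (F n)) (hG : ∀ n, Hb (G n)) (hf : Hb f) (hg : Hb g)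
    (h1 : TendstoUniformlyOn F f atTop (sqr c r)) (h2 : TendstoUniformlyOn G g atTop (sqr c r))
    (hM : ∀ᶠ n in atTop, Ho (F n) (sqr c r) M ∧ Ho (G n) (sqr c r) M) :
    Tendsto (fun n => yl c r (F n) (G n)) atTop (𝓝 (yl c r f g)) :=
  (((endys_yi hr (edge_b c hr.le) hF hG hf hg h1 h2 hM).add
    (endys_yi hr (edge_r c hr.le) hF hG hf hg h1 h2 hM)).sub
    (endys_yi hr (edge_t c hr.le) hF hG hf hg h1 h2 hM)).sub
    (endys_yi hr (edge_l c hr.le) hF hG hf hg h1 h2 hM)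

theorem lp_tendsto {F G : ℕ → P → ℝ} {f g : P → ℝ} {c : P} {r M : ℝ} (hr : 0 < r)
    (hF : ∀ n, ContDiff ℝ ∞ (F n)) (hG : ∀ n, ContDiff ℝ ∞ (G n)) (hf : Hb f) (hg : Hb g)
    (h1 : TendstoUniformlyOn F f atTop (sqr c r)) (h2 : TendstoUniformlyOn G g atTop (sqr c r))
    (hM : ∀ᶠ n in atTop, Ho (F n) (sqr c r) M ∧ Ho (G n) (sqr c r) M) :
    Tendsto (fun n => lp c r (F n) (G n)) atTop (𝓝 (yl c r f g)) :=
  (((endys_int hr (edge_b c hr.le) (est_h0 _) hF hG hf hg h1 h2 hM).add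
    (endys_int hr (edge_r c hr.le) (est_h1 _) hF hG hf hg h1 h2 hM)).sub
    (endys_int hr (edge_t c hr.le) (est_h0 _) hF hG hf hg h1 h2 hM)).sub
    (endys_int hr (edge_l c hr.le) (est_h1 _) hF hG hf hg h1 h2 hM)

/-- loop integrals of forms pulled back by smooth approximations -/
theorem lp_tendsto_comp {p : ℕ → P → P} {a b : P → ℝ} {c : P} {r M : ℝ} (hr : 0 < r)
    (hp : ∀ n, ContDiff ℝ ∞ (p n)) (ha : Hb a) (hb : Hb b)
    (h1 : TendstoUniformlyOn p (fun x => (a x, b x)) atTop (sqr c r))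
    (hM : ∀ᶠ n in atTop, ∀ x ∈ sqr c r, ∀ y ∈ sqr c r, dist (p n x) (p n y) ≤ M * tw (dist x y))
    {T : P → ℝ} (hT : ContDiff ℝ ∞ T) :
    Tendsto (fun n => lp c r (fun x => T (p n x)) (fun x => (p n x).2)) atTop
      (𝓝 (yl c r (fun x => T (a x, b x)) b)) ∧
    Tendsto (fun n => lp c r (fun x => T (p n x)) (fun x => (p n x).1)) atTop
      (𝓝 (yl c r (fun x => T (a x, b x)) a)) := by
  obtain ⟨N, hN, hab, -⟩ := ha.pair hb
  obtain ⟨Λ, hΛ, hL⟩ := est_lip hT (N + 1)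
  have hU := Metric.tendstoUniformlyOn_iff.1 h1
  have hB : ∀ᶠ n in atTop, ∀ x ∈ sqr c r, p n x ∈ closedBall (0 : P) (N + 1) := by
    filter_upwards [hU 1 one_pos] with n hn x hx
    have a1 := hn x hx
    have a2 := dist_triangle (p n x) (a x, b x) 0
    have a3 := hab x
    rw [dist_comm] at a1
    rw [dist_zero_right ((a x, b x) : P)] at a2
    rw [mem_closedBall]
    linarith
  have hq : ∀ x, ((a x, b x) : P) ∈ closedBall (0 : P) (N + 1) := fun x => by
    rw [mem_closedBall, dist_zero_right]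
    linarith [hab x]
  have u0 : TendstoUniformlyOn (fun n x => T (p n x)) (fun x => T (a x, b x)) atTop (sqr c r) := by
    rw [Metric.tendstoUniformlyOn_iff]
    intro ε hε
    filter_upwards [hB, hU (ε / (Λ + 1)) (by positivity)] with n b1 b2 x hx
    have a1 := hL _ (hq x) _ (b1 x hx)
    have a2 := b2 x hx
    rw [dist_eq_norm, lt_div_iff₀ (by positivity)] at a2
    rw [dist_eq_norm]
    nlinarith [norm_nonneg (((a x, b x) : P) - p n x)]
  have u1 : TendstoUniformlyOn (fun n x => (p n x).1) a atTop (sqr c r) :=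
    uniformContinuous_fst.comp_tendstoUniformlyOn h1
  have u2 : TendstoUniformlyOn (fun n x => (p n x).2) b atTop (sqr c r) :=
    uniformContinuous_snd.comp_tendstoUniformlyOn h1
  have hH : ∀ᶠ n in atTop, Ho (fun x => T (p n x)) (sqr c r) ((Λ + 1) * max M 0) ∧
      Ho (fun x => (p n x).1) (sqr c r) ((Λ + 1) * max M 0) ∧
      Ho (fun x => (p n x).2) (sqr c r) ((Λ + 1) * max M 0) := by
    filter_upwards [hB, hM] with n b1 b2
    have k : ∀ x ∈ sqr c r, ∀ y ∈ sqr c r,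
        (Λ + 1) * dist (p n x) (p n y) ≤ (Λ + 1) * max M 0 * tw (dist x y) := fun x hx y hy => by
      rw [mul_assoc]
      exact mul_le_mul_of_nonneg_left ((b2 x hx y hy).trans
        (mul_le_mul_of_nonneg_right (le_max_left _ _) (tw_nonneg dist_nonneg))) (by positivity)
    refine ⟨fun x hx y hy => ?_, fun x hx y hy => ?_, fun x hx y hy => ?_⟩
    · have a1 := hL _ (b1 x hx) _ (b1 y hy)
      have a2 := k x hx y hy
      rw [← dist_eq_norm (p n x), Real.norm_eq_abs] at a1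
      nlinarith [dist_nonneg (x := p n x) (y := p n y)]
    · have a1 : |(p n x).1 - (p n y).1| ≤ dist (p n x) (p n y) := by
        rw [← Real.dist_eq, Prod.dist_eq]; exact le_max_left _ _
      have a2 := k x hx y hy
      nlinarith [dist_nonneg (x := p n x) (y := p n y)]
    · have a1 : |(p n x).2 - (p n y).2| ≤ dist (p n x) (p n y) := by
        rw [← Real.dist_eq, Prod.dist_eq]; exact le_max_right _ _
      have a2 := k x hx y hy
      nlinarith [dist_nonneg (x := p n x) (y := p n y)]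
  exact ⟨lp_tendsto hr (fun n => hT.comp (hp n)) (fun n => (hp n).snd) (Hb.comp2 hT ha hb) hb u0 u2
      (hH.mono fun n h => ⟨h.1, h.2.2⟩),
    lp_tendsto hr (fun n => hT.comp (hp n)) (fun n => (hp n).fst) (Hb.comp2 hT ha hb) ha u0 u1
      (hH.mono fun n h => ⟨h.1, h.2.1⟩)⟩

end Pool.Agent.Bor
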