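import Pool.Agent.P.MP_26ecb7_gt.Lower

noncomputable section
open Set Filter Topology MeasureTheory Metric
open scoped RealInnerProductSpace ContDiff ENNReal

namespace Pool.Agent.Bor

variable {X : Surf} {I : Iso X}

theorem pt_clm {f : E → E →L[ℝ] E} {q : E} (h : ∀ a, DifferentiableAt ℝ (fun z => f z a) q) :
    DifferentiableAt ℝ f q := by
  let d := Module.finrank ℝ E
  have hd : d = Module.finrank ℝ (Fin d → ℝ) := (Module.finrank_fin_fun ℝ).symm
  let e₁ := ContinuousLinearEquiv.ofFinrankEq hd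
  let e₂ := (e₁.arrowCongr (1 : E ≃L[ℝ] E)).trans (ContinuousLinearEquiv.piRing (Fin d))
  rw [← Function.id_comp f, ← e₂.symm_comp_self]
  exact e₂.symm.differentiableAt.comp q (differentiableAt_pi.mpr fun i => h _)

theorem pt_vec {f : E → E} {q : E} (h : ∀ y : E, DifferentiableAt ℝ (fun z => ⟪y, f z⟫) q) :
    DifferentiableAt ℝ f q := by
  refine differentiableAt_euclidean.mpr fun i => ?_
  have h1 : (fun z => f z i) = fun z => ⟪ee i, f z⟫ := by
    funext z
    simp [ee, EuclideanSpace.inner_single_left]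
  rw [h1]
  exact h _

/-- a power above one is negligible -/
theorem pt_little {p : ℝ} (hp : 1 < p) (q : E) :
    (fun z : E => ‖z - q‖ ^ p) =o[𝓝 q] (fun z => z - q) := by
  rw [Asymptotics.isLittleO_iff]
  intro c hc
  have h0 : Tendsto (fun z : E => ‖z - q‖ ^ (p - 1)) (𝓝 q) (𝓝 0) := by
    have h1 : ContinuousAt (fun z : E => ‖z - q‖ ^ (p - 1)) q :=
      ContinuousAt.rpow_const (by fun_prop) (Or.inr (by linarith))
    have h2 : ‖q - q‖ ^ (p - 1) = 0 := by
      rw [sub_self, norm_zero, Real.zero_rpow (by linarith)]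
    have h3 := h1.tendsto
    rw [h2] at h3
    exact h3
  filter_upwards [h0.eventually (gt_mem_nhds hc)] with z hz
  have h4 : ‖z - q‖ ^ p = ‖z - q‖ ^ (p - 1) * ‖z - q‖ := by
    have h5 := Real.rpow_add_one' (norm_nonneg (z - q)) (y := p - 1) (by linarith)
    rw [← h5, sub_add_cancel]
  rw [Real.norm_eq_abs, abs_of_nonneg (Real.rpow_nonneg (norm_nonneg _) _), h4]
  exact mul_le_mul_of_nonneg_right hz.le (norm_nonneg _)

/-- product of a differentiable map vanishing at the point with a continuous map -/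
theorem pt_prod {f g : E → E} {q : E} (hf : DifferentiableAt ℝ f q) (h0 : f q = 0)
    (hg : ContinuousAt g q) : DifferentiableAt ℝ (fun z => ⟪f z, g z⟫) q := by
  have h1 : HasFDerivAt (fun z => ⟪f z, g z - g q⟫) (0 : E →L[ℝ] ℝ) q := by
    refine HasFDerivAt.of_isLittleO ?_
    have h2 : (fun z => f z) =O[𝓝 q] (fun z => z - q) := by
      have := hf.isBigO_sub
      simpa [h0] using this
    have h3 : (fun z => g z - g q) =o[𝓝 q] (fun _ => (1 : ℝ)) := by
      rw [Asymptotics.isLittleO_one_iff]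
      have := hg.tendsto.sub_const (g q)
      simpa using this
    have h4 : (fun z => ‖f z‖ * ‖g z - g q‖) =o[𝓝 q] (fun z => ‖z - q‖ * 1) :=
      h2.norm_norm.mul_isLittleO h3.norm_left
    have h5 : (fun z => ⟪f z, g z - g q⟫) =O[𝓝 q] (fun z => ‖f z‖ * ‖g z - g q‖) := by
      refine Asymptotics.IsBigO.of_bound 1 (Eventually.of_forall fun z => ?_)
      rw [one_mul, Real.norm_eq_abs, Real.norm_eq_abs,
        abs_of_nonneg (mul_nonneg (norm_nonneg _) (norm_nonneg _))]
      exact abs_real_inner_le_norm _ _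
    have h6 := h5.trans_isLittleO h4
    simp only [mul_one] at h6
    simpa [h0] using h6.of_norm_right
  have h7 : DifferentiableAt ℝ (fun z => ⟪f z, g q⟫) q := hf.inner ℝ (differentiableAt_const _)
  have h8 : (fun z => ⟪f z, g z⟫) = fun z => ⟪f z, g z - g q⟫ + ⟪f z, g q⟫ := by
    funext z
    rw [inner_sub_right, sub_add_cancel]
  rw [h8]
  exact h1.differentiableAt.add h7

theorem pt_diff_N (R : Rot) {x : P} (hx : DifferentiableAt ℝ (I.n R) x) :
    DifferentiableAt ℝ I.N (X.psi R x) := by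
  have hq := X.psi_mem R x
  have hpos := X.inner_psi R x
  have h1 : ∀ᶠ z in 𝓝 (X.psi R x), 0 < ⟪z - X.o, R.R (ee 2)⟫ := by
    have hc : ContinuousAt (fun z : E => ⟪z - X.o, R.R (ee 2)⟫) (X.psi R x) := by fun_prop
    exact hc.eventually (lt_mem_nhds hpos)
  have h2 : I.N =ᶠ[𝓝 (X.psi R x)] (I.n R) ∘ (fun z => gn R (z - X.o)) := by
    filter_upwards [h1] with z hz
    have hne : z ≠ X.o := by
      rintro rfl
      simp at hz
    show I.N z = I.N (X.psi R (gn R (z - X.o)))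
    rw [X.psi_gn R hz, I.N_pr hne]
  have h3 : DifferentiableAt ℝ (fun z => gn R (z - X.o)) (X.psi R x) := by
    have h4 : DifferentiableAt ℝ (gn R) (X.psi R x - X.o) :=
      (contDiffAt_gn R hpos.ne').differentiableAt (by simp)
    exact h4.comp (X.psi R x) (differentiableAt_id.sub_const X.o)
  have h5 : DifferentiableAt ℝ (I.n R) (gn R (X.psi R x - X.o)) := by
    rw [X.gn_psi]
    exact hx
  exact (h5.comp (X.psi R x) h3).congr_of_eventuallyEq h2

theorem pt_tang (A : Appr I) {q : E} (hq : q ∈ X.S) (a c : E) :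
    DifferentiableAt ℝ (fun z => ⟪fderiv ℝ I.V q c, fderiv ℝ I.V z a⟫) q := by
  obtain ⟨K, hK, h⟩ := A.tang
  let L : E →L[ℝ] ℝ :=
    (innerSL ℝ (fderiv ℝ X.pr q c)).comp ((fderiv ℝ (fderiv ℝ X.pr) q).flip a)
  have hL : ∀ b, L b = chr X.pr q b a c := by
    intro b
    simp only [L, chr, ContinuousLinearMap.comp_apply, ContinuousLinearMap.flip_apply, innerSL_apply_apply]
    exact real_inner_comm _ _
  refine (HasFDerivAt.of_isLittleO (f' := L) ?_).differentiableAt
  have hp : 1 < 2 * I.al := by linarith [I.al_gt]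
  refine Asymptotics.IsBigO.trans_isLittleO ?_ (pt_little hp q)
  refine Asymptotics.IsBigO.of_bound (K * ‖a‖ * ‖c‖) ?_
  filter_upwards [ball_mem_nhds q A.tau_pos] with z hz
  have h1 := h q hq q (mem_ball_self A.tau_pos) z hz a c
  rw [hL, ← inner_sub_right, Real.norm_eq_abs, Real.norm_eq_abs,
    abs_of_nonneg (Real.rpow_nonneg (norm_nonneg _) _)]
  calc _ ≤ K * ‖z - q‖ ^ (2 * I.al) * ‖a‖ * ‖c‖ := h1
    _ = K * ‖a‖ * ‖c‖ * ‖z - q‖ ^ (2 * I.al) := by ring

theorem pt_orth {q : E} (hq : q ∈ X.S) (a : E) :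
    ∀ᶠ z in 𝓝 q, ⟪I.N z, fderiv ℝ I.V z a⟫ = 0 := by
  filter_upwards [isOpen_ne.mem_nhds (X.ne_o hq)] with z hz
  exact I.N_orth hz a

theorem pt_norm {q : E} (hq : q ∈ X.S) (hN : DifferentiableAt ℝ I.N q) (a : E) :
    DifferentiableAt ℝ (fun z => ⟪I.N q, fderiv ℝ I.V z a⟫) q := by
  have hc : ContinuousAt (fun z => fderiv ℝ I.V z a) q :=
    ((I.V_c1 (X.ne_o hq)).continuousAt_fderiv (by simp)).clm_apply continuousAt_const
  have h1 := pt_prod (f := fun z => I.N q - I.N z) ((differentiableAt_const _).sub hN)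
    (sub_self _) hc
  refine h1.congr_of_eventuallyEq ?_
  filter_upwards [pt_orth (I := I) hq a] with z hz
  rw [inner_sub_left, hz, sub_zero]

/-- where the Gauss map is differentiable, so is the derivative of the immersion -/
theorem Appr.diff_DV (A : Appr I) (R : Rot) {x : P} (hx : DifferentiableAt ℝ (I.n R) x) :
    DifferentiableAt ℝ (fderiv ℝ I.V) (X.psi R x) := by
  have hq := X.psi_mem R x
  have hN := pt_diff_N R hx
  refine pt_clm fun a => pt_vec fun y => ?_
  obtain ⟨C, -, hC⟩ := I.split (K := {X.psi R x}) isCompact_singleton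
    (by simpa using (X.ne_o hq).symm)
  obtain ⟨c, hc, -⟩ := hC _ (mem_singleton _) y
  have h1 : (fun z => ⟪y, fderiv ℝ I.V z a⟫) = fun z =>
      ⟪y, I.N (X.psi R x)⟫ * ⟪I.N (X.psi R x), fderiv ℝ I.V z a⟫
        + ⟪fderiv ℝ I.V (X.psi R x) c, fderiv ℝ I.V z a⟫ := by
    funext z
    rw [← real_inner_smul_left, ← inner_add_left, ← hc]
  rw [h1]
  exact ((pt_norm hq hN a).const_mul _).add (pt_tang A hq a c)

theorem Appr.sf_conv (A : Appr I) (R : Rot) {x : P} (hx : DifferentiableAt ℝ (I.n R) x)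
    (i j : Fin 2) : Tendsto (fun n => sf (A.w R n) i j x) atTop
      (𝓝 ⟪pd i (I.n R) x, pd j (I.w R) x⟫) := by
  have hq := X.psi_mem R x
  have hN := pt_diff_N R hx
  have hD := A.diff_DV R hx
  have hpsi : DifferentiableAt ℝ (X.psi R) x := (X.sm_psi R).differentiable (by simp) x
  have e1 : pd i (I.n R) x = fderiv ℝ I.N (X.psi R x) (pd i (X.psi R) x) := by
    have h1 : I.n R = I.N ∘ X.psi R := rfl
    unfold pd
    rw [h1, fderiv_comp x hN hpsi]
    rfl
  have e2 : ∀ a b : E, ⟪I.N (X.psi R x), fderiv ℝ (fderiv ℝ I.V) (X.psi R x) a b⟫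
      + ⟪fderiv ℝ I.N (X.psi R x) a, fderiv ℝ I.V (X.psi R x) b⟫ = 0 := by
    intro a b
    have h1 : DifferentiableAt ℝ (fun z => fderiv ℝ I.V z b) (X.psi R x) :=
      hD.clm_apply (differentiableAt_const _)
    have h2 := fderiv_inner_apply ℝ hN h1 a
    have h3 : (fun z => ⟪I.N z, fderiv ℝ I.V z b⟫) =ᶠ[𝓝 (X.psi R x)] fun _ => (0 : ℝ) :=
      pt_orth hq b
    rw [h3.fderiv_eq, fderiv_clm_apply hD (differentiableAt_const _)] at h2
    simpa using h2.symm
  have t1 : Tendsto (fun n => X.NW (A.W n) (X.psi R x)) atTop (𝓝 (I.N (X.psi R x))) :=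
    A.NW_conv.tendsto_at hq
  have t2 : Tendsto (fun n => fderiv ℝ (A.W n) (X.psi R x)) atTop
      (𝓝 (fderiv ℝ I.V (X.psi R x))) :=
    A.c1.tendsto_at (self_subset_thickening A.tau_pos _ hq)
  have t3 := A.pt _ hq _ hD.hasFDerivAt
  have t4 : ∀ a b : E, Tendsto (fun n => fderiv ℝ (fderiv ℝ (A.W n)) (X.psi R x) a b) atTop
      (𝓝 (fderiv ℝ (fderiv ℝ I.V) (X.psi R x) a b)) := by
    intro a b
    have hc : Continuous (fun M : E →L[ℝ] E →L[ℝ] E => M a b) := by fun_prop
    exact (hc.tendsto _).comp t3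
  have t5 : ∀ c : E, Tendsto (fun n => fderiv ℝ (A.W n) (X.psi R x) c) atTop
      (𝓝 (fderiv ℝ I.V (X.psi R x) c)) := by
    intro c
    have hc : Continuous (fun M : E →L[ℝ] E => M c) := by fun_prop
    exact (hc.tendsto _).comp t2
  have t6 := (t1.inner (𝕜 := ℝ) ((t4 (pd i (X.psi R) x) (pd j (X.psi R) x)).add
    (t5 (pd i (pd j (X.psi R)) x)))).neg
  have e3 : ⟪pd i (I.n R) x, pd j (I.w R) x⟫ = - ⟪I.N (X.psi R x),
      fderiv ℝ (fderiv ℝ I.V) (X.psi R x) (pd i (X.psi R) x) (pd j (X.psi R) x)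
        + fderiv ℝ I.V (X.psi R x) (pd i (pd j (X.psi R)) x)⟫ := by
    rw [e1, I.pd_w, inner_add_right, I.N_orth (X.ne_o hq)]
    linarith [e2 (pd i (X.psi R) x) (pd j (X.psi R) x)]
  rw [e3]
  refine t6.congr fun n => ?_
  rw [(A.imm_w R n).sf_eq, A.un_w, A.pd_pd_w]

end Pool.Agent.Bor
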