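import Pool.Agent.P.MP_26ecb7_gt.HergC
import Pool.Agent.P.MP_26ecb7_gt.Alex
import Pool.Agent.P.MP_26ecb7_gt.Pt
import Pool.Agent.P.MP_26ecb7_gt.Det

noncomputable section
open Set Filter Topology MeasureTheory Metric
open scoped RealInnerProductSpace ContDiff ENNReal

namespace Pool.Agent.Bor

section aux
variable {X : Surf} {I : Iso X}

/-- the limit of the second fundamental forms -/
def loneB (I : Iso X) (R : Rot) (x : P) : Fin 2 → Fin 2 → ℝ :=
  fun i j => ⟪pd i (I.n R) x, pd j (I.w R) x⟫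

/-- the weight -/
def loneH (I : Iso X) (R : Rot) (x : P) : ℝ := (X.hu R x + I.hv R x) / sq (X.psi R) x

/-- the mixed determinant -/
def loneM (A : Appr I) (R : Rot) (n : ℕ) (x : P) : ℝ :=
  mx (at2 (sf (X.psi R)) x) (at2 (sf (A.w R n)) x)

theorem lone_H_pos (hI : Cvx I) (R : Rot) (x : P) : 0 < loneH I R x :=
  div_pos (add_pos (X.hu_pos R x) (hI.hv_pos R x)) ((X.imm_psi R).sq_pos x)

theorem lone_H_cont (I : Iso X) (R : Rot) : Continuous (loneH I R) :=
  ((X.continuous_hu R).add (I.continuous_hv R)).div (X.imm_psi R).sm_sq.continuous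
    fun x => ((X.imm_psi R).sq_pos x).ne'

theorem lone_M_cont (A : Appr I) (R : Rot) (n : ℕ) : Continuous (loneM A R n) := by
  have h1 := fun i j => ((X.imm_psi R).sm_sf i j).continuous
  have h2 := fun i j => ((A.imm_w R n).sm_sf i j).continuous
  exact ((((h1 0 0).mul (h2 1 1)).add ((h1 1 1).mul (h2 0 0))).sub ((h1 0 1).mul (h2 1 0))).sub
    ((h1 1 0).mul (h2 0 1))

theorem lone_dt_cont (X : Surf) (R : Rot) : Continuous fun x => dt (at2 (sf (X.psi R)) x) := by
  have h1 := fun i j => ((X.imm_psi R).sm_sf i j).continuous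
  exact ((h1 0 0).mul (h1 1 1)).sub ((h1 0 1).mul (h1 1 0))

theorem lone_ab_cont {T : Fin 2 → Fin 2 → P → ℝ} (h : ∀ i j, Continuous (T i j)) :
    Continuous fun x => ab fun i j => T i j x :=
  (((h 0 0).abs.add (h 0 1).abs).add (h 1 0).abs).add (h 1 1).abs

theorem lone_pt (A : Appr I) (hI : Cvx I) (R : Rot) {x : P} (hx : DifferentiableAt ℝ (I.n R) x) :
    loneB I R x 0 1 = loneB I R x 1 0 ∧ (∀ a b, 0 ≤ qf (loneB I R x) a b) ∧
      dt (at2 (sf (X.psi R)) x) ≤ dt (loneB I R x) := by
  have hc := A.sf_conv R hx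
  have hs : loneB I R x 0 1 = loneB I R x 1 0 :=
    tendsto_nhds_unique (hc 0 1) ((hc 1 0).congr fun n => (A.imm_w R n).sf_symm 1 0 x)
  have hq : ∀ a b, 0 ≤ qf (loneB I R x) a b := fun a b => by
    have h1 : Tendsto (fun n => qf (at2 (sf (A.w R n)) x) a b) atTop (𝓝 (qf (loneB I R x) a b)) :=
      (((hc 0 0).mul_const _).add ((((hc 0 1).add (hc 1 0)).mul_const _).mul_const _)).add
        ((hc 1 1).mul_const _)
    refine le_of_forall_pos_le_add fun ε hε => ?_
    have h0 : 0 < a ^ 2 + b ^ 2 + 1 := by positivity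
    have h2 := ge_of_tendsto h1 ((A.lower hI R (isCompact_singleton (x := x))
      (ε / (a ^ 2 + b ^ 2 + 1)) (div_pos hε h0)).mono fun n hn => hn x rfl a b)
    have h3 : ε / (a ^ 2 + b ^ 2 + 1) * (a ^ 2 + b ^ 2) ≤ ε := by
      rw [div_mul_eq_mul_div, div_le_iff₀ h0]
      nlinarith
    linarith
  exact ⟨hs, hq, (hI.dt_le R hx).trans_eq (abs_of_nonneg (dt_nonneg hs hq))⟩

theorem lone_ge (A : Appr I) (hI : Cvx I) (R : Rot) {x : P} (hx : DifferentiableAt ℝ (I.n R) x) :
    2 * dt (at2 (sf (X.psi R)) x) ≤ mx (at2 (sf (X.psi R)) x) (loneB I R x) := by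
  obtain ⟨h1, h2, h3⟩ := lone_pt A hI R hx
  exact mx_ge ((X.imm_psi R).sf_symm 0 1 x) h1 (fun a b h => X.qf_pos R x h) h2 h3

theorem lone_lim (A : Appr I) (hI : Cvx I) (R : Rot) {x : P} (hx : DifferentiableAt ℝ (I.n R) x) :
    Tendsto (fun n => max (loneM A R n x) 0) atTop
      (𝓝 (mx (at2 (sf (X.psi R)) x) (loneB I R x))) := by
  have hc := A.sf_conv R hx
  have h1 : Tendsto (fun n => loneM A R n x) atTop
      (𝓝 (mx (at2 (sf (X.psi R)) x) (loneB I R x))) :=
    ((((hc 1 1).const_mul _).add ((hc 0 0).const_mul _)).sub ((hc 1 0).const_mul _)).sub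
      ((hc 0 1).const_mul _)
  have h2 := h1.max (tendsto_const_nhds (x := (0 : ℝ)))
  have h3 := lone_ge A hI R hx
  have h4 := X.dt_pos R x
  rwa [max_eq_left (by linarith)] at h2

theorem lone_bd (A : Appr I) (hI : Cvx I) (R : Rot) {K : Set P} (hK : IsCompact K) :
    ∃ C : ℝ, 0 < C ∧ ∀ θ > 0, ∀ᶠ n in atTop, ∀ x ∈ K, - (C * θ) ≤ loneM A R n x ∧
      ab (at2 (sf (A.w R n)) x) ≤ C * (loneM A R n x + C * θ) := by
  obtain ⟨C, hC, h⟩ := ab_le_mx hK (A := sf (X.psi R))
    (fun i j => ((X.imm_psi R).sm_sf i j).continuous) (fun x => (X.imm_psi R).sf_symm 0 1 x)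
    fun x a b h => X.qf_pos R x h
  exact ⟨C, hC, fun θ hθ => (A.lower hI R hK θ hθ).mono fun n hn x hx =>
    h x hx _ θ hθ.le ((A.imm_w R n).sf_symm 0 1 x) (hn x hx)⟩

theorem lone_sum (U : Pou X) (A : Appr I) (hI : Cvx I) :
    Tendsto (fun n => U.II fun a x => loneH I (U.R a) x * max (loneM A (U.R a) n x) 0) atTop
      (𝓝 (U.II fun a x => loneH I (U.R a) x * (2 * dt (at2 (sf (X.psi (U.R a))) x)))) := by
  have h1 : Tendsto (fun n => U.II fun a x => loneH I (U.R a) x * loneM A (U.R a) n x) atTop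
      (𝓝 (U.II fun a x => loneH I (U.R a) x * (2 * dt (at2 (sf (X.psi (U.R a))) x)))) := by
    have h := U.herg_lim A hI
    simp only [loneH, loneM, div_mul_eq_mul_div]
    exact h
  have c1 : ∀ n a, Continuous fun x => loneH I (U.R a) x * max (loneM A (U.R a) n x) 0 :=
    fun n a => (lone_H_cont I _).mul ((lone_M_cont A _ n).max continuous_const)
  have c2 : ∀ n a, Continuous fun x => loneH I (U.R a) x * loneM A (U.R a) n x :=
    fun n a => (lone_H_cont I _).mul (lone_M_cont A _ n)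
  have h2 := U.II_small (f := fun n a x => loneH I (U.R a) x * max (loneM A (U.R a) n x) 0 -
      loneH I (U.R a) x * loneM A (U.R a) n x) (g := fun _ _ _ => 1)
    (fun n a => (c1 n a).sub (c2 n a)) (fun _ _ => continuous_const)
    (Eventually.of_forall fun _ => le_rfl) fun θ hθ => eventually_all.2 fun a => by
      obtain ⟨C, hC, h⟩ := lone_bd A hI (U.R a) (isCompact_closedBall (0 : P) U.rho)
      obtain ⟨M, hM⟩ := (isCompact_closedBall (0 : P) U.rho).exists_bound_of_continuousOn
        (lone_H_cont I (U.R a)).continuousOn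
      have hM0 : 0 < |M| + 1 := by positivity
      refine (h (θ / (C * (|M| + 1))) (by positivity)).mono fun n hn x hx => ?_
      have g1 := (hn x hx).1
      have g2 : loneH I (U.R a) x ≤ |M| + 1 := by
        have := (le_abs_self _).trans (hM x hx)
        linarith [le_abs_self M]
      have g3 := lone_H_pos hI (U.R a) x
      have g4 : C * (θ / (C * (|M| + 1))) = θ / (|M| + 1) := by field_simp
      rw [g4] at g1
      have g5 : 0 ≤ max (loneM A (U.R a) n x) 0 - loneM A (U.R a) n x :=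
        sub_nonneg.2 (le_max_left _ _)
      have g6 : max (loneM A (U.R a) n x) 0 - loneM A (U.R a) n x ≤ θ / (|M| + 1) := by
        have : 0 < θ / (|M| + 1) := by positivity
        rcases le_total (loneM A (U.R a) n x) 0 with e | e
        · rw [max_eq_right e]
          linarith
        · rw [max_eq_left e]
          linarith
      rw [← mul_sub, abs_of_nonneg (mul_nonneg g3.le g5), mul_one]
      calc _ ≤ (|M| + 1) * (θ / (|M| + 1)) := mul_le_mul g2 g6 g5 hM0.le
        _ = θ := by field_simp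
  have h3 := h1.add h2
  rw [add_zero] at h3
  refine h3.congr fun n => ?_
  rw [U.II_sub (c1 n) (c2 n)]
  ring

theorem lone_ab_sub (B T : Fin 2 → Fin 2 → ℝ) : ab (fun i j => B i j - T i j) ≤ ab B + ab T := by
  have h1 := abs_sub (B 0 0) (T 0 0)
  have h2 := abs_sub (B 0 1) (T 0 1)
  have h3 := abs_sub (B 1 0) (T 1 0)
  have h4 := abs_sub (B 1 1) (T 1 1)
  simp only [ab]
  linarith

end aux

/-- the second fundamental forms converge in the mean -/
theorem Pou.sf_L1 {X : Surf} {I : Iso X} (U : Pou X) (A : Appr I) (hI : Cvx I) (a : Fin U.k) :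
    Tendsto (fun n => ∫ x, U.chi a (X.psi (U.R a) x) *
      ab (fun i j => sf (A.w (U.R a) n) i j x - sf (X.psi (U.R a)) i j x)) atTop (𝓝 0) := by
  have c1 : ∀ n b, Continuous fun x => loneH I (U.R b) x * max (loneM A (U.R b) n x) 0 :=
    fun n b => (lone_H_cont I _).mul ((lone_M_cont A _ n).max continuous_const)
  have c0 : ∀ b, Continuous fun x => loneH I (U.R b) x * (2 * dt (at2 (sf (X.psi (U.R b))) x)) :=
    fun b => (lone_H_cont I _).mul (continuous_const.mul (lone_dt_cont X _))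
  have p0 : ∀ b, ∀ᶠ n in atTop, ∀ᵐ x, 0 ≤ U.chi b (X.psi (U.R b) x) *
      (loneH I (U.R b) x * max (loneM A (U.R b) n x) 0) := fun b =>
    Eventually.of_forall fun n => Eventually.of_forall fun x =>
      mul_nonneg (U.nonneg _ _) (mul_nonneg (lone_H_pos hI _ x).le (le_max_right _ _))
  have pl : ∀ b, ∀ᵐ x, Tendsto (fun n => U.chi b (X.psi (U.R b) x) *
      (loneH I (U.R b) x * max (loneM A (U.R b) n x) 0)) atTop (𝓝 (U.chi b (X.psi (U.R b) x) *
        (loneH I (U.R b) x * mx (at2 (sf (X.psi (U.R b))) x) (loneB I (U.R b) x)))) := fun b =>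
    (hI.ae_diff (U.R b)).mono fun x hx => ((lone_lim A hI _ hx).const_mul _).const_mul _
  have pg : ∀ b, ∀ᵐ x, U.chi b (X.psi (U.R b) x) *
      (loneH I (U.R b) x * (2 * dt (at2 (sf (X.psi (U.R b))) x))) ≤ U.chi b (X.psi (U.R b) x) *
        (loneH I (U.R b) x * mx (at2 (sf (X.psi (U.R b))) x) (loneB I (U.R b) x)) := fun b =>
    (hI.ae_diff (U.R b)).mono fun x hx => mul_le_mul_of_nonneg_left
      (mul_le_mul_of_nonneg_left (lone_ge A hI _ hx) (lone_H_pos hI _ x).le) (U.nonneg _ _)
  have hu := tendsto_of_sum (fun b => fatou_ge (fun n => U.integrable b (c1 n b)) (p0 b) (pl b)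
    (pg b) (U.integrable b (c0 b))) (lone_sum U A hI) a
  have he := fatou_eq (fun n => U.integrable a (c1 n a)) (p0 a) (pl a) (pg a)
    (U.integrable a (c0 a)) hu
  obtain ⟨C, hC, hb⟩ := lone_bd A hI (U.R a) (isCompact_closedBall (0 : P) U.rho)
  have s0 := fun i j => ((X.imm_psi (U.R a)).sm_sf i j).continuous
  have sn := fun n i j => ((A.imm_w (U.R a) n).sm_sf i j).continuous
  obtain ⟨M1, hM1⟩ := (isCompact_closedBall (0 : P) U.rho).exists_bound_of_continuousOn
    (lone_ab_cont s0).continuousOn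
  obtain ⟨M2, hM2⟩ := (isCompact_closedBall (0 : P) U.rho).exists_bound_of_continuousOn
    ((lone_H_cont I (U.R a)).inv₀ fun x => (lone_H_pos hI _ x).ne').continuousOn
  have e1 : ∀ {f : P → ℝ}, Continuous f → ∫ x, U.chi a (X.psi (U.R a) x) *
      (C * M2 * f x + (C * C + M1)) = C * M2 * (∫ x, U.chi a (X.psi (U.R a) x) * f x) +
        ∫ x, U.chi a (X.psi (U.R a) x) * (C * C + M1) := fun {f} hf => by
    rw [← integral_const_mul, ← integral_add ((U.integrable a hf).const_mul _)
      (U.integrable a continuous_const)]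
    congr 1
    funext x
    ring
  refine fatou_dom (f := fun n x => U.chi a (X.psi (U.R a) x) *
      (C * M2 * (loneH I (U.R a) x * max (loneM A (U.R a) n x) 0) + (C * C + M1)))
    (g := fun x => U.chi a (X.psi (U.R a) x) *
      (C * M2 * (loneH I (U.R a) x * (2 * dt (at2 (sf (X.psi (U.R a))) x))) + (C * C + M1)))
    (fun n => U.integrable a ((continuous_const.mul (c1 n a)).add continuous_const))
    (fun n => U.integrable a (lone_ab_cont fun i j => (sn n i j).sub (s0 i j))) ?_ ?_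
    (U.integrable a ((continuous_const.mul (c0 a)).add continuous_const)) ?_ ?_
  · refine (hb 1 one_pos).mono fun n hn => Eventually.of_forall fun x => ⟨mul_nonneg (U.nonneg _ _)
      (by simp only [ab]; positivity), ?_⟩
    by_cases hx : x ∈ closedBall (0 : P) U.rho
    · refine mul_le_mul_of_nonneg_left ?_ (U.nonneg _ _)
      have g1 := (hn x hx).2
      have g2 := lone_ab_sub (at2 (sf (A.w (U.R a) n)) x) (at2 (sf (X.psi (U.R a))) x)
      have g3 : ab (at2 (sf (X.psi (U.R a))) x) ≤ M1 := (le_abs_self _).trans (hM1 x hx)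
      have g4 : (loneH I (U.R a) x)⁻¹ ≤ M2 := (le_abs_self _).trans (hM2 x hx)
      have g5 := lone_H_pos hI (U.R a) x
      have g6 : 1 ≤ M2 * loneH I (U.R a) x := by
        have := mul_le_mul_of_nonneg_right g4 g5.le
        rwa [inv_mul_cancel₀ g5.ne'] at this
      have g7 := mul_le_mul_of_nonneg_right g6 (le_max_right (loneM A (U.R a) n x) 0)
      have g8 := le_max_left (loneM A (U.R a) n x) 0
      have g9 := mul_le_mul_of_nonneg_left (g8.trans ((one_mul _).symm.le.trans g7)) hC.le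
      refine g2.trans ?_
      linarith
    · rw [U.eq_zero a hx, zero_mul, zero_mul]
  · filter_upwards [pl a, he] with x h1 h2
    rw [h2] at h1
    have h3 := (h1.const_mul (C * M2)).add_const (U.chi a (X.psi (U.R a) x) * (C * C + M1))
    refine (h3.congr fun n => ?_).trans_eq (congrArg 𝓝 ?_) <;> ring
  · rw [e1 (c0 a)]
    exact ((hu.const_mul (C * M2)).add_const _).congr fun n => (e1 (c1 n a)).symm
  · filter_upwards [hI.ae_diff (U.R a), he] with x hx h2
    by_cases h0 : U.chi a (X.psi (U.R a) x) = 0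
    · simp only [h0, zero_mul]
      exact tendsto_const_nhds
    · have h3 := mul_left_cancel₀ (lone_H_pos hI (U.R a) x).ne' (mul_left_cancel₀ h0 h2)
      obtain ⟨q1, q2, q3⟩ := lone_pt A hI (U.R a) hx
      have h4 := eq_of_mx ((X.imm_psi (U.R a)).sf_symm 0 1 x) q1 (fun a' b h => X.qf_pos _ x h)
        q2 q3 h3
      have h5 : ∀ i j, Tendsto (fun n => |sf (A.w (U.R a) n) i j x - sf (X.psi (U.R a)) i j x|)
          atTop (𝓝 0) := fun i j => by
        have h6 := ((A.sf_conv (U.R a) hx i j).sub_const (sf (X.psi (U.R a)) i j x)).abs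
        have h7 : ⟪pd i (I.n (U.R a)) x, pd j (I.w (U.R a)) x⟫ = sf (X.psi (U.R a)) i j x :=
          congrFun (congrFun h4 i) j
        rwa [h7, sub_self, abs_zero] at h6
      have h8 := ((((h5 0 0).add (h5 0 1)).add (h5 1 0)).add (h5 1 1)).const_mul
        (U.chi a (X.psi (U.R a) x))
      simp only [add_zero, mul_zero] at h8
      exact h8

end Pool.Agent.Bor
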