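import Pool.Agent.P.MP_26ecb7_gt.Frame
import Pool.Agent.P.MP_26ecb7_gt.Lone
import Pool.Agent.P.MP_26ecb7_gt.ApprE

noncomputable section
open Set Filter Topology MeasureTheory Metric
open scoped RealInnerProductSpace ContDiff ENNReal

namespace Pool.Agent.Bor

variable {X : Surf} {I : Iso X}

theorem fin_ab_nonneg (B : Fin 2 → Fin 2 → ℝ) : 0 ≤ ab B := by
  unfold ab
  positivity

theorem fin_ab_cont {B : Fin 2 → Fin 2 → P → ℝ} (h : ∀ i j, Continuous (B i j)) :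
    Continuous fun x => ab (fun i j => B i j x) := by
  unfold ab
  exact (((h 0 0).abs.add (h 0 1).abs).add (h 1 0).abs).add (h 1 1).abs

theorem fin_small {χ : P → ℝ} {g : ℕ → P → ℝ} {K : Set P} (hK : IsCompact K) {c : ℝ} (hc : 0 < c)
    (hχ : ∀ x, 0 ≤ χ x) (hcK : ∀ x ∈ K, c ≤ χ x) (hg : ∀ n, Continuous (g n))
    (hg0 : ∀ n x, 0 ≤ g n x) (hi : ∀ n, Integrable fun x => χ x * g n x)
    (h : Tendsto (fun n => ∫ x, χ x * g n x) atTop (𝓝 0)) :
    Tendsto (fun n => ∫ x in K, g n x) atTop (𝓝 0) := by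
  have h2 : Tendsto (fun n => c⁻¹ * ∫ x, χ x * g n x) atTop (𝓝 0) := by
    simpa using h.const_mul c⁻¹
  refine squeeze_zero (fun n => integral_nonneg (hg0 n)) (fun n => ?_) h2
  rw [le_inv_mul_iff₀ hc, ← integral_const_mul]
  refine le_trans (setIntegral_mono_on ?_ (hi n).integrableOn hK.measurableSet fun x hx =>
    mul_le_mul_of_nonneg_right (hcK x hx) (hg0 n x)) ?_
  · exact ((hg n).continuousOn.integrableOn_compact hK).const_mul c
  · exact setIntegral_le_integral (hi n) (Eventually.of_forall fun x => mul_nonneg (hχ x) (hg0 n x))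

theorem Cvx.frame (hI : Cvx I) (y : E) : ∀ q ∈ X.S, ∀ q' ∈ X.S, I.Fr y q = I.Fr y q' := by
  obtain ⟨A⟩ := I.exists_appr
  obtain ⟨U⟩ := X.exists_pou
  refine X.const_of_chart (f := I.Fr y) fun q hq => ?_
  obtain ⟨a, x, hx, hpos⟩ := U.exists_pos hq
  refine ⟨U.R a, x, hx, ?_⟩
  have hc : Continuous fun z => U.chi a (X.psi (U.R a) z) := (U.sm a).continuous
  have hev : ∀ᶠ z in 𝓝 x, U.chi a q / 2 < U.chi a (X.psi (U.R a) z) :=
    hc.continuousAt.eventually (lt_mem_nhds (by simp only [hx]; linarith))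
  obtain ⟨ε, hε, hb⟩ := nhds_basis_closedBall.eventually_iff.1 hev
  have hg : ∀ n, Continuous fun z =>
      ab (fun i j => sf (A.w (U.R a) n) i j z - sf (X.psi (U.R a)) i j z) := fun n =>
    fin_ab_cont fun i j => ((A.imm_w (U.R a) n).sm_sf i j).continuous.sub
      ((X.imm_psi (U.R a)).sm_sf i j).continuous
  have ht := fin_small (isCompact_closedBall x ε) (half_pos hpos) (fun z => U.nonneg a _)
    (fun z hz => (hb hz).le) hg (fun n z => fin_ab_nonneg _) (fun n => U.integrable a (hg n))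
    (U.sf_L1 A hI a)
  rw [closedBall_eq_sqr] at ht
  have hk := A.frame_const (U.R a) (by linarith : 0 < 2 * ε) ht y
  rw [← closedBall_eq_sqr] at hk
  filter_upwards [closedBall_mem_nhds x hε] with z hz
  rw [hk z hz x (mem_closedBall_self hε.le), hx]

/-- the frame map as a linear map -/
def Iso.finL (I : Iso X) (q : E) : E →L[ℝ] E :=
  (fderiv ℝ I.v q).comp (ContinuousLinearMap.id ℝ E - (innerSL ℝ (X.nu q)).smulRight (X.nu q))
    + (innerSL ℝ (X.nu q)).smulRight (I.N q)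

theorem Iso.finL_apply (I : Iso X) (q y : E) : I.finL q y = I.Fr y q := by
  unfold Iso.finL Iso.Fr
  rw [real_inner_comm (X.nu q) y]
  rfl

theorem Iso.fin_norm (I : Iso X) {q : E} (hq : q ∈ X.S) (y : E) : ‖I.Fr y q‖ = ‖y‖ := by
  have hn := X.nu_unit q hq
  have ht : ⟪X.nu q, y - ⟪y, X.nu q⟫ • X.nu q⟫ = 0 := by
    rw [inner_sub_right, real_inner_smul_right, real_inner_self_eq_norm_sq, hn, real_inner_comm]
    ring
  have h1 := I.iso q hq _ ht
  have h2 := I.N_orth (X.ne_o hq) (y - ⟪y, X.nu q⟫ • X.nu q)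
  rw [I.fderiv_V_tang hq ht] at h2
  have h3 : ‖I.Fr y q‖ ^ 2 = ‖y - ⟪y, X.nu q⟫ • X.nu q‖ ^ 2 + ⟪y, X.nu q⟫ ^ 2 := by
    unfold Iso.Fr
    rw [norm_add_sq_real, h1, real_inner_smul_right, real_inner_comm (I.N q), h2, norm_smul,
      I.norm_N (X.ne_o hq), Real.norm_eq_abs, mul_one, sq_abs]
    ring
  have h4 : ‖y - ⟪y, X.nu q⟫ • X.nu q‖ ^ 2 + ⟪y, X.nu q⟫ ^ 2 = ‖y‖ ^ 2 := by
    rw [norm_sub_sq_real, real_inner_smul_right, norm_smul, hn, Real.norm_eq_abs, mul_one, sq_abs]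
    ring
  exact (pow_left_inj₀ (norm_nonneg _) (norm_nonneg _) two_ne_zero).1 (h3.trans h4)

theorem Iso.fin_tang (I : Iso X) {q a : E} (ha : ⟪X.nu q, a⟫ = 0) :
    I.Fr a q = fderiv ℝ I.v q a := by
  unfold Iso.Fr
  rw [real_inner_comm (X.nu q) a, ha]
  simp

theorem Iso.rigid_of_frame (I : Iso X) (h : ∀ y, ∀ q ∈ X.S, ∀ q' ∈ X.S, I.Fr y q = I.Fr y q') :
    ∃ A : E ≃ᵢ E, ∀ q ∈ X.S, I.v q = A q := by
  obtain ⟨q0, hq0⟩ := X.conn.nonempty
  let L : E →ₗᵢ[ℝ] E := ⟨(I.finL q0 : E →ₗ[ℝ] E), fun y =>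
    (congrArg norm (I.finL_apply q0 y)).trans (I.fin_norm hq0 y)⟩
  have hc : ∀ q ∈ X.S, ∀ q' ∈ X.S, I.v q - I.finL q0 q = I.v q' - I.finL q0 q' := by
    refine X.const_of_chart (f := fun q => I.v q - I.finL q0 q) fun q hq => ?_
    obtain ⟨R, hR⟩ := X.exists_chart hq
    refine ⟨R, 0, hR, Eventually.of_forall fun z => ?_⟩
    have d1 : Differentiable ℝ (I.w R) := (I.w_c1 R).differentiable (by simp)
    have d2 : Differentiable ℝ (X.psi R) := (X.sm_psi R).differentiable (by simp)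
    have hd : ∀ x, HasFDerivAt (fun x => I.w R x - I.finL q0 (X.psi R x))
        (fderiv ℝ (I.w R) x - (I.finL q0).comp (fderiv ℝ (X.psi R) x)) x := fun x =>
      (d1 x).hasFDerivAt.sub ((I.finL q0).hasFDerivAt.comp x (d2 x).hasFDerivAt)
    have hp : ∀ i x, pd i (I.w R) x = I.finL q0 (pd i (X.psi R) x) := fun i x => by
      rw [I.pd_w, I.fderiv_V_tang (X.psi_mem R x) (X.tang_psi R i x), I.finL_apply,
        h _ q0 hq0 _ (X.psi_mem R x), I.fin_tang (X.tang_psi R i x)]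
    have hz : ∀ x, fderiv ℝ (fun x => I.w R x - I.finL q0 (X.psi R x)) x = 0 := fun x => by
      rw [(hd x).fderiv]
      refine ContinuousLinearMap.ext fun u => ?_
      change fderiv ℝ (I.w R) x u - I.finL q0 (fderiv ℝ (X.psi R) x u) = 0
      rw [fderiv_eq_pd, fderiv_eq_pd, map_add, map_smul, map_smul, hp, hp, sub_self]
    have hk := is_const_of_fderiv_eq_zero (fun x => (hd x).differentiableAt) hz z 0
    rw [← hR]
    exact hk
  refine ⟨(L.toLinearIsometryEquiv rfl).toIsometryEquiv.trans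
    (IsometryEquiv.addRight (I.v q0 - I.finL q0 q0)), fun q hq => ?_⟩
  change I.v q = I.finL q0 q + (I.v q0 - I.finL q0 q0)
  rw [← hc q hq q0 hq0]
  abel

end Pool.Agent.Bor
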