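import Pool.Agent.P.MP_26ecb7_gt.CConv
import Pool.Agent.P.MP_26ecb7_gt.Green

noncomputable section
open Set Filter Topology MeasureTheory Metric
open scoped RealInnerProductSpace ContDiff ENNReal

namespace Pool.Agent.Bor

variable {X : Surf} {I : Iso X}

/-- the frame map applied to a vector -/
def Iso.Fr (I : Iso X) (y q : E) : E :=
  fderiv ℝ I.v q (y - ⟪y, X.nu q⟫ • X.nu q) + ⟪y, X.nu q⟫ • I.N q

/-- convergence to zero in the mean -/
def FrameZ (K : Set P) (f : ℕ → P → ℝ) : Prop :=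
  (∀ n, Continuous (f n)) ∧ Tendsto (fun n => ∫ x in K, |f n x|) atTop (𝓝 0)

theorem frame_gen {K : Set P} (hK : IsCompact K) {f u : ℕ → P → ℝ} (hf : FrameZ K f)
    (hu : ∀ n, Continuous (u n)) {C : ℝ} (h : ∀ᶠ n in atTop, ∀ x ∈ K, |u n x| ≤ C * |f n x|) :
    FrameZ K u := by
  refine ⟨hu, squeeze_zero' (g := fun n => C * ∫ x in K, |f n x|)
    (Eventually.of_forall fun n => integral_nonneg fun x => abs_nonneg _) ?_ ?_⟩
  · filter_upwards [h] with n hn
    rw [← integral_const_mul]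
    exact setIntegral_mono_on ((hu n).abs.continuousOn.integrableOn_compact hK)
      ((continuous_const.mul (hf.1 n).abs).continuousOn.integrableOn_compact hK)
      hK.measurableSet hn
  · simpa using hf.2.const_mul C

theorem frame_add {K : Set P} (hK : IsCompact K) {f g : ℕ → P → ℝ} (hf : FrameZ K f)
    (hg : FrameZ K g) : FrameZ K fun n x => f n x + g n x := by
  refine ⟨fun n => (hf.1 n).add (hg.1 n), squeeze_zero
    (g := fun n => (∫ x in K, |f n x|) + ∫ x in K, |g n x|)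
    (fun n => integral_nonneg fun x => abs_nonneg _) (fun n => ?_) ?_⟩
  · have h1 := (hf.1 n).abs.continuousOn.integrableOn_compact (μ := volume) hK
    have h2 := (hg.1 n).abs.continuousOn.integrableOn_compact (μ := volume) hK
    rw [← integral_add h1 h2]
    exact setIntegral_mono_on (((hf.1 n).add (hg.1 n)).abs.continuousOn.integrableOn_compact hK)
      (h1.add h2) hK.measurableSet fun x _ => abs_add_le _ _
  · simpa using hf.2.add hg.2

theorem frame_abs {K : Set P} {f : ℕ → P → ℝ} (hf : FrameZ K f) :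
    FrameZ K fun n x => |f n x| := ⟨fun n => (hf.1 n).abs, by simpa only [abs_abs] using hf.2⟩

theorem frame_bdd {Y : Type} [NormedAddCommGroup Y] {K : Set P} (hK : IsCompact K)
    {g : ℕ → P → Y} {g0 : P → Y} (h : TendstoUniformlyOn g g0 atTop K) (h0 : Continuous g0) :
    ∃ C : ℝ, ∀ᶠ n in atTop, ∀ x ∈ K, ‖g n x‖ ≤ C := by
  obtain ⟨C, hC⟩ := hK.exists_bound_of_continuousOn h0.continuousOn
  refine ⟨C + 1, ?_⟩
  filter_upwards [Metric.tendstoUniformlyOn_iff.1 h 1 one_pos] with n hn x hx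
  have h1 := hn x hx
  rw [dist_eq_norm'] at h1
  have h2 := norm_le_insert' (g n x) (g0 x)
  have h3 := hC x hx
  linarith

theorem frame_mul {K : Set P} (hK : IsCompact K) {f g : ℕ → P → ℝ} (hf : FrameZ K f)
    (hg : ∀ n, Continuous (g n)) (h : ∃ C : ℝ, ∀ᶠ n in atTop, ∀ x ∈ K, ‖g n x‖ ≤ C) :
    FrameZ K fun n x => g n x * f n x := by
  obtain ⟨C, hC⟩ := h
  refine frame_gen hK hf (fun n => (hg n).mul (hf.1 n)) (C := C) ?_
  filter_upwards [hC] with n hn x hx
  rw [abs_mul]
  exact mul_le_mul_of_nonneg_right (hn x hx) (abs_nonneg _)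

theorem frame_cmul {K : Set P} (hK : IsCompact K) {f : ℕ → P → ℝ} (hf : FrameZ K f) {a : P → ℝ}
    (ha : Continuous a) : FrameZ K fun n x => a x * f n x :=
  frame_mul hK hf (fun _ => ha) (frame_bdd hK (tu_const a) ha)

theorem frame_unif {K : Set P} (hK : IsCompact K) {g : ℕ → P → ℝ} {g0 : P → ℝ}
    (h : TendstoUniformlyOn g g0 atTop K) (hg : ∀ n, Continuous (g n)) (h0 : Continuous g0) :
    FrameZ K fun n x => g n x - g0 x := by
  refine ⟨fun n => (hg n).sub h0, Metric.tendsto_nhds.2 fun ε hε => ?_⟩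
  have hv : 0 ≤ volume.real K := measureReal_nonneg
  have hδ : 0 < ε / (volume.real K + 1) := by positivity
  filter_upwards [Metric.tendstoUniformlyOn_iff.1 h _ hδ] with n hn
  rw [dist_zero_right]
  refine (norm_setIntegral_le_of_norm_le_const (C := ε / (volume.real K + 1)) hK.measure_lt_top
    fun x hx => ?_).trans_lt ?_
  · have h1 := hn x hx
    rw [Real.dist_eq, abs_sub_comm] at h1
    rw [Real.norm_eq_abs, abs_abs]
    exact h1.le
  · rw [div_mul_eq_mul_div, div_lt_iff₀ (by positivity)]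
    nlinarith

theorem frame_smul {K : Set P} (hK : IsCompact K) {f : ℕ → P → E} {f0 : P → E}
    (h : TendstoUniformlyOn f f0 atTop K) {a : P → ℝ} (ha : Continuous a) :
    TendstoUniformlyOn (fun n x => a x • f n x) (fun x => a x • f0 x) atTop K := by
  obtain ⟨C, hC⟩ := hK.exists_bound_of_continuousOn ha.continuousOn
  refine Metric.tendstoUniformlyOn_iff.2 fun ε hε => ?_
  have hδ : 0 < ε / (|C| + 1) := by positivity
  filter_upwards [Metric.tendstoUniformlyOn_iff.1 h _ hδ] with n hn x hx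
  rw [dist_smul₀]
  have h1 := hn x hx
  rw [lt_div_iff₀ (by positivity)] at h1
  have h2 := (hC x hx).trans (le_abs_self C)
  have h3 : 0 ≤ dist (f0 x) (f n x) := dist_nonneg
  nlinarith

/-- a vector field along a surface with given coefficients -/
def frameF (ξ : Fin 2 → P → ℝ) (η : P → ℝ) (w : P → E) (x : P) : E :=
  ξ 0 x • pd 0 w x + ξ 1 x • pd 1 w x + η x • un w x

section
variable {ξ : Fin 2 → P → ℝ} {η : P → ℝ} {w : P → E}

theorem frame_sm (hξ : ∀ k, ContDiff ℝ ∞ (ξ k)) (hη : ContDiff ℝ ∞ η) (hw : Imm w) :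
    ContDiff ℝ ∞ (frameF ξ η w) :=
  (((hξ 0).smul (contDiff_pd hw.1 0)).add ((hξ 1).smul (contDiff_pd hw.1 1))).add
    (hη.smul hw.sm_un)

theorem frame_pd (hξ : ∀ k, ContDiff ℝ ∞ (ξ k)) (hη : ContDiff ℝ ∞ η) (hw : Imm w) (i : Fin 2)
    (x : P) : pd i (frameF ξ η w) x =
      (ξ 0 x • pd i (pd 0 w) x + pd i (ξ 0) x • pd 0 w x) +
        (ξ 1 x • pd i (pd 1 w) x + pd i (ξ 1) x • pd 1 w x) +
          (η x • pd i (un w) x + pd i η x • un w x) := by
  have d1 := fun k => ((hξ k).differentiable (by simp) x).hasFDerivAt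
  have d2 := fun k => ((contDiff_pd hw.1 k).differentiable (by simp) x).hasFDerivAt
  have d3 := (hη.differentiable (by simp) x).hasFDerivAt
  have d4 := (hw.sm_un.differentiable (by simp) x).hasFDerivAt
  have h : HasFDerivAt (frameF ξ η w) _ x :=
    (((d1 0).fun_smul (d2 0)).fun_add ((d1 1).fun_smul (d2 1))).fun_add (d3.fun_smul d4)
  rw [pd, h.fderiv]
  rfl

theorem frame_T (hξ : ∀ k, ContDiff ℝ ∞ (ξ k)) (hη : ContDiff ℝ ∞ η) (hw : Imm w) (i j : Fin 2)
    (x : P) : ⟪pd i (frameF ξ η w) x, pd j w x⟫ =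
      pd i (ξ 0) x * gm w 0 j x + pd i (ξ 1) x * gm w 1 j x + ξ 0 x * ch w i 0 j x +
        ξ 1 x * ch w i 1 j x + η x * sf w i j x := by
  rw [frame_pd hξ hη hw]
  simp only [inner_add_left, real_inner_smul_left, un_pd, gm, ch, sf]
  ring

theorem frame_N (hξ : ∀ k, ContDiff ℝ ∞ (ξ k)) (hη : ContDiff ℝ ∞ η) (hw : Imm w) (i : Fin 2)
    (x : P) : ⟪pd i (frameF ξ η w) x, un w x⟫ =
      pd i η x - ξ 0 x * sf w i 0 x - ξ 1 x * sf w i 1 x := by
  rw [frame_pd hξ hη hw, real_inner_comm]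
  simp only [inner_add_right, real_inner_smul_right, un_pd, hw.un_pd_un, hw.sf_eq,
    real_inner_self_eq_norm_sq, hw.norm_un]
  ring

theorem frame_norm (hw : Imm w) (x : P) (v : E) : ‖v‖ ≤ |⟪v, un w x⟫| +
    (|‖pd 0 w x‖ * (gi w 0 0 x * ⟪v, pd 0 w x⟫ + gi w 0 1 x * ⟪v, pd 1 w x⟫)| +
      |‖pd 1 w x‖ * (gi w 1 0 x * ⟪v, pd 0 w x⟫ + gi w 1 1 x * ⟪v, pd 1 w x⟫)|) := by
  have h := hw.vec_exp x v
  simp only [Fin.sum_univ_two] at h
  refine (le_of_eq (congrArg norm h)).trans ((norm_add_le _ _).trans (add_le_add ?_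
    ((norm_add_le _ _).trans (add_le_add ?_ ?_))))
  · rw [norm_smul, hw.norm_un, mul_one, Real.norm_eq_abs]
  · rw [norm_smul, abs_mul, abs_norm, mul_comm, Real.norm_eq_abs]
  · rw [norm_smul, abs_mul, abs_norm, mul_comm, Real.norm_eq_abs]

end

/-- if the second forms converge in the mean on a square, the frame map is constant there -/
theorem Appr.frame_const (A : Appr I) (R : Rot) {c : P} {r : ℝ} (hr : 0 < r)
    (h : Tendsto (fun n => ∫ x in sqr c r,
      ab (fun i j => sf (A.w R n) i j x - sf (X.psi R) i j x)) atTop (𝓝 0)) (y : E) :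
    ∀ x ∈ sqr c r, ∀ x' ∈ sqr c r, I.Fr y (X.psi R x) = I.Fr y (X.psi R x') := by
  have hK := sqr_compact c r
  have hp := X.imm_psi R
  have hw := A.imm_w R
  obtain ⟨ξ, hξe⟩ : ∃ ξ : Fin 2 → P → ℝ,
      ξ = fun k x => ∑ l, gi (X.psi R) k l x * ⟪y, pd l (X.psi R) x⟫ := ⟨_, rfl⟩
  obtain ⟨η, hηe⟩ : ∃ η : P → ℝ, η = fun x => ⟪y, un (X.psi R) x⟫ := ⟨_, rfl⟩
  have hξ : ∀ k, ContDiff ℝ ∞ (ξ k) := fun k => by
    rw [hξe]
    exact ContDiff.sum fun l _ => (hp.sm_gi k l).mul (contDiff_const.inner ℝ (contDiff_pd hp.1 l))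
  have hη : ContDiff ℝ ∞ η := by
    rw [hηe]
    exact contDiff_const.inner ℝ hp.sm_un
  have hy : ∀ x, frameF ξ η (X.psi R) x = y := fun x => by
    have h1 := hp.vec_exp x y
    rw [Fin.sum_univ_two, add_comm] at h1
    rw [frameF, hξe, hηe]
    exact h1.symm
  have hz : ∀ i x, pd i (frameF ξ η (X.psi R)) x = 0 := fun i x => by
    rw [show frameF ξ η (X.psi R) = fun _ => y from funext hy, pd]
    simp
  have hG : ∀ x, I.Fr y (X.psi R x) =
      ξ 0 x • pd 0 (I.w R) x + ξ 1 x • pd 1 (I.w R) x + η x • I.n R x := fun x => by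
    have h1 : η x = ⟪y, X.nu (X.psi R x)⟫ := by rw [hηe, ← X.un_psi]
    have h2 : y - η x • X.nu (X.psi R x) = ξ 0 x • pd 0 (X.psi R) x + ξ 1 x • pd 1 (X.psi R) x := by
      rw [sub_eq_iff_eq_add, ← X.un_psi]
      exact (hy x).symm
    rw [Iso.Fr, ← h1, h2, map_add, map_smul, map_smul, I.pd_w, I.pd_w,
      I.fderiv_V_tang (X.psi_mem R x) (X.tang_psi R 0 x),
      I.fderiv_V_tang (X.psi_mem R x) (X.tang_psi R 1 x)]
    rfl
  have hab : FrameZ (sqr c r) fun n x =>
      ab (fun i j => sf (A.w R n) i j x - sf (X.psi R) i j x) := by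
    have hc : ∀ n i j, Continuous fun x => |sf (A.w R n) i j x - sf (X.psi R) i j x| :=
      fun n i j => (((hw n).sm_sf i j).continuous.sub (hp.sm_sf i j).continuous).abs
    refine ⟨fun n => (((hc n 0 0).add (hc n 0 1)).add (hc n 1 0)).add (hc n 1 1), ?_⟩
    refine h.congr fun n => integral_congr_ae (Eventually.of_forall fun x => ?_)
    exact (abs_of_nonneg (by unfold ab; positivity)).symm
  have hB : ∀ i j, FrameZ (sqr c r) fun n x => sf (A.w R n) i j x - sf (X.psi R) i j x := by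
    intro i j
    refine frame_gen hK hab
      (fun n => ((hw n).sm_sf i j).continuous.sub (hp.sm_sf i j).continuous) (C := 1)
      (Eventually.of_forall fun n x _ => ?_)
    rw [one_mul]
    refine le_trans ?_ (le_abs_self _)
    have a1 := abs_nonneg (sf (A.w R n) 0 0 x - sf (X.psi R) 0 0 x)
    have a2 := abs_nonneg (sf (A.w R n) 0 1 x - sf (X.psi R) 0 1 x)
    have a3 := abs_nonneg (sf (A.w R n) 1 0 x - sf (X.psi R) 1 0 x)
    have a4 := abs_nonneg (sf (A.w R n) 1 1 x - sf (X.psi R) 1 1 x)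
    unfold ab
    fin_cases i <;> fin_cases j <;> simp only [Fin.zero_eta, Fin.mk_one, Fin.isValue] <;> linarith
  have hgm := fun i j => frame_unif hK (A.gm_conv R hK i j)
    (fun n => ((hw n).sm_gm i j).continuous) (hp.sm_gm i j).continuous
  have hch := fun i j k => frame_unif hK (A.ch_conv R hK i j k)
    (fun n => ((hw n).sm_ch i j k).continuous) (hp.sm_ch i j k).continuous
  have cξ := fun k => (hξ k).continuous
  have cd := fun i k => (contDiff_pd (hξ k) i).continuous
  have hT : ∀ i j, FrameZ (sqr c r) fun n x =>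
      ⟪pd i (frameF ξ η (A.w R n)) x, pd j (A.w R n) x⟫ := by
    intro i j
    have h1 := frame_add hK (frame_add hK (frame_add hK (frame_add hK
      (frame_cmul hK (hgm 0 j) (cd i 0)) (frame_cmul hK (hgm 1 j) (cd i 1)))
      (frame_cmul hK (hch i 0 j) (cξ 0))) (frame_cmul hK (hch i 1 j) (cξ 1)))
      (frame_cmul hK (hB i j) hη.continuous)
    refine (congrArg (FrameZ (sqr c r)) (funext fun n => funext fun x => ?_)).mp h1
    have h2 := frame_T hξ hη hp i j x
    rw [hz, inner_zero_left] at h2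
    rw [frame_T hξ hη (hw n)]
    linear_combination h2
  have hN : ∀ i, FrameZ (sqr c r) fun n x => ⟪pd i (frameF ξ η (A.w R n)) x, un (A.w R n) x⟫ := by
    intro i
    have h1 := frame_add hK (frame_cmul hK (hB i 0) (cξ 0).neg) (frame_cmul hK (hB i 1) (cξ 1).neg)
    refine (congrArg (FrameZ (sqr c r)) (funext fun n => funext fun x => ?_)).mp h1
    have h2 := frame_N hξ hη hp i x
    rw [hz, inner_zero_left] at h2
    rw [frame_N hξ hη (hw n)]
    simp only [Pi.neg_apply]
    linear_combination h2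
  have cI : ∀ k, Continuous (pd k (I.w R)) := fun k =>
    ((I.w_c1 R).continuous_fderiv (by simp)).clm_apply continuous_const
  have hgi := fun k l {f : ℕ → P → ℝ} (hf : FrameZ (sqr c r) f) => frame_mul hK hf
    (fun n => ((hw n).sm_gi k l).continuous)
    (frame_bdd hK (A.gi_conv R hK k l) (hp.sm_gi k l).continuous)
  have hpd := fun k {f : ℕ → P → ℝ} (hf : FrameZ (sqr c r) f) => frame_mul hK hf
    (g := fun n x => ‖pd k (A.w R n) x‖) (fun n => (contDiff_pd (hw n).1 k).continuous.norm)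
    (by simpa only [norm_norm] using frame_bdd hK (A.pd_conv R hK k) (cI k))
  have key := const_of_grad (f := fun n => frameF ξ η (A.w R n))
    (g := fun x => ξ 0 x • pd 0 (I.w R) x + ξ 1 x • pd 1 (I.w R) x + η x • I.n R x) hr
    (fun n => (frame_sm hξ hη (hw n)).of_le (by exact_mod_cast le_top))
    (((frame_smul hK (A.pd_conv R hK 0) (cξ 0)).add (frame_smul hK (A.pd_conv R hK 1) (cξ 1))).add
      (frame_smul hK (A.un_conv R).tendstoUniformlyOn hη.continuous)) fun i => by
      have h1 := frame_add hK (frame_abs (hN i)) (frame_add hK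
        (frame_abs (hpd 0 (frame_add hK (hgi 0 0 (hT i 0)) (hgi 0 1 (hT i 1)))))
        (frame_abs (hpd 1 (frame_add hK (hgi 1 0 (hT i 0)) (hgi 1 1 (hT i 1))))))
      have h2 := frame_gen hK h1 (u := fun n x => ‖pd i (frameF ξ η (A.w R n)) x‖)
        (fun n => (contDiff_pd (frame_sm hξ hη (hw n)) i).continuous.norm) (C := 1)
        (Eventually.of_forall fun n x _ => by
          rw [one_mul, abs_norm]
          exact (frame_norm (hw n) x _).trans (le_abs_self _))
      simpa only [abs_norm] using h2.2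
  intro x hx x' hx'
  rw [hG, hG]
  exact key x hx x' hx'

end Pool.Agent.Bor
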