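import Pool.Agent.P.MP_26ecb7_gt.Gauss0

noncomputable section
open Set Filter Topology MeasureTheory Metric
open scoped RealInnerProductSpace ContDiff ENNReal

namespace Pool.Agent.Bor

theorem gauss_in (R : Rot) (a : E) (k : Fin 3) : ⟪R.R a, R.R (ee k)⟫ = a k := by
  rw [LinearIsometryEquiv.inner_map_map, ee, EuclideanSpace.inner_single_right]
  simp

theorem gauss_gn (R : Rot) (a : E) : gn R (R.R a) = (a 0 / a 2, a 1 / a 2) := by
  simp only [gn, gauss_in]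

theorem gauss_norm (R : Rot) (k : Fin 3) : ‖R.R (ee k)‖ = 1 := by
  rw [LinearIsometryEquiv.norm_map, ee]; simp

theorem gauss_lift (R : Rot) (x : P) :
    lift R x = x.1 • R.R (ee 0) + x.2 • R.R (ee 1) + R.R (ee 2) := by
  rw [lift, ← map_smul, ← map_smul, ← map_add, ← map_add]
  congr 1
  ext k; fin_cases k <;> simp [ee]

theorem contDiffAt_gn (R : Rot) {y : E} (hy : ⟪y, R.R (ee 2)⟫ ≠ 0) : ContDiffAt ℝ ∞ (gn R) y := by
  have h : ∀ k, ContDiffAt ℝ ∞ (fun z : E => ⟪z, R.R (ee k)⟫) y := fun k =>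
    contDiffAt_id.inner ℝ contDiffAt_const
  exact ((h 0).div (h 2) hy).prodMk ((h 1).div (h 2) hy)
theorem gn_smul (R : Rot) {t : ℝ} (ht : t ≠ 0) (y : E) : gn R (t • y) = gn R y := by
  simp only [gn, real_inner_smul_left, mul_div_mul_left _ _ ht]
theorem gn_lift (R : Rot) (x : P) : gn R (lift R x) = x := by
  rw [lift, gauss_gn]; simp
theorem inner_lift (R : Rot) (x : P) : ⟪lift R x, R.R (ee 2)⟫ = 1 := by
  rw [lift, gauss_in]; simp
theorem lift_gn (R : Rot) {y : E} (hy : ⟪y, R.R (ee 2)⟫ ≠ 0) :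
    ⟪y, R.R (ee 2)⟫ • lift R (gn R y) = y := by
  obtain ⟨a, rfl⟩ := R.R.surjective y
  rw [gauss_in] at hy
  rw [gauss_in, gauss_gn, lift, ← map_smul]
  congr 1
  ext k; fin_cases k <;> simp <;> field_simp
theorem gn_pole (R : Rot) : gn R (R.R (ee 2)) = 0 := by
  rw [gauss_gn]; simp [ee]
theorem contDiff_lift (R : Rot) : ContDiff ℝ ∞ (lift R) := by
  rw [funext (gauss_lift R)]
  exact ((contDiff_fst.smul contDiff_const).add (contDiff_snd.smul contDiff_const)).add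
    contDiff_const
theorem pd_lift (R : Rot) (x : P) : pd 0 (lift R) x = R.R (ee 0) ∧ pd 1 (lift R) x = R.R (ee 1) := by
  have h : HasFDerivAt (lift R) ((ContinuousLinearMap.fst ℝ ℝ ℝ).smulRight (R.R (ee 0)) +
      (ContinuousLinearMap.snd ℝ ℝ ℝ).smulRight (R.R (ee 1))) x := by
    rw [funext (gauss_lift R)]
    exact ((hasFDerivAt_fst.smul_const _).add (hasFDerivAt_snd.smul_const _)).add_const _
  simp [pd, h.fderiv, e2]

theorem gauss_div {a b s t c K d : ℝ} (hc : 0 < c) (hs : c ≤ s) (ht : c ≤ t) (hb : |b| ≤ K)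
    (h1 : |a - b| ≤ d) (h2 : |s - t| ≤ d) : |a / s - b / t| ≤ (1 / c + K / c ^ 2) * d := by
  have hs0 : 0 < s := hc.trans_le hs
  have ht0 : 0 < t := hc.trans_le ht
  have hd : 0 ≤ d := (abs_nonneg _).trans h1
  have hK : 0 ≤ K := (abs_nonneg _).trans hb
  have e : a / s - b / t = (a - b) / s - b * (s - t) / (s * t) := by field_simp; ring
  have e1 : |(a - b) / s| ≤ d / c := by
    rw [abs_div, abs_of_pos hs0]; gcongr
  have e2 : |b * (s - t) / (s * t)| ≤ K * d / (c * c) := by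
    rw [abs_div, abs_mul, abs_of_pos (mul_pos hs0 ht0)]; gcongr
  rw [e]
  refine (abs_sub _ _).trans ((add_le_add e1 e2).trans_eq ?_)
  field_simp

theorem gauss_abs (R : Rot) (y : E) (k : Fin 3) : |⟪y, R.R (ee k)⟫| ≤ ‖y‖ := by
  have := abs_real_inner_le_norm y (R.R (ee k))
  rwa [gauss_norm, mul_one] at this

/-- Lipschitz bound for gnomonic coordinates -/
theorem dist_gn_le (R : Rot) {y z : E} {c K : ℝ} (hc : 0 < c) (hy : c ≤ ⟪y, R.R (ee 2)⟫)
    (hz : c ≤ ⟪z, R.R (ee 2)⟫) (hK : ‖z‖ ≤ K) :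
    dist (gn R y) (gn R z) ≤ (1 / c + K / c ^ 2) * ‖y - z‖ := by
  have h : ∀ k, |⟪y, R.R (ee k)⟫ - ⟪z, R.R (ee k)⟫| ≤ ‖y - z‖ := fun k => by
    rw [← inner_sub_left]; exact gauss_abs R _ k
  rw [Prod.dist_eq, Real.dist_eq, Real.dist_eq]
  exact max_le (gauss_div hc hy hz ((gauss_abs R z 0).trans hK) (h 0) (h 2))
    (gauss_div hc hy hz ((gauss_abs R z 1).trans hK) (h 1) (h 2))

theorem gauss_pd (R : Rot) {N : P → E} {x : P} (hN : DifferentiableAt ℝ N x)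
    (h2 : ⟪N x, R.R (ee 2)⟫ ≠ 0) (k : Fin 3) (i : Fin 2) :
    pd i (fun y => ⟪N y, R.R (ee k)⟫ / ⟪N y, R.R (ee 2)⟫) x =
      (⟪pd i N x, R.R (ee k)⟫ * ⟪N x, R.R (ee 2)⟫ - ⟪N x, R.R (ee k)⟫ * ⟪pd i N x, R.R (ee 2)⟫) /
        ⟪N x, R.R (ee 2)⟫ ^ 2 := by
  have h : ∀ j, HasFDerivAt (fun y => ⟪N y, R.R (ee j)⟫)
      ((innerSL ℝ (R.R (ee j))).comp (fderiv ℝ N x)) x := fun j => by
    have := (innerSL ℝ (R.R (ee j))).hasFDerivAt.comp x hN.hasFDerivAt
    refine this.congr_of_eventuallyEq (Eventually.of_forall fun y => ?_)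
    simp [real_inner_comm]
  have h3 := (h k).mul ((hasDerivAt_inv h2).comp_hasFDerivAt x (h 2))
  have e : (fun y => ⟪N y, R.R (ee k)⟫ / ⟪N y, R.R (ee 2)⟫) = (fun y => ⟪N y, R.R (ee k)⟫) *
      ((fun y : ℝ => y⁻¹) ∘ fun y => ⟪N y, R.R (ee 2)⟫) := by
    funext y; simp [div_eq_mul_inv]
  rw [pd, e, h3.fderiv]
  simp only [pd, add_apply, smul_apply, smul_eq_mul,
    ContinuousLinearMap.comp_apply, innerSL_apply_apply, Function.comp_apply,
    real_inner_comm (fderiv ℝ N x (e2 i))]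
  field_simp
  ring

/-- the area form of the sphere in gnomonic coordinates -/
theorem kap_gn (R : Rot) {N : P → E} {x : P} (hN : DifferentiableAt ℝ N x) (h1 : ‖N x‖ = 1)
    (h2 : 0 < ⟪N x, R.R (ee 2)⟫) :
    kap N x = lam (gn R (N x)) * jp (fun y => gn R (N y)) x := by
  have hp := gauss_pd R hN h2.ne'
  obtain ⟨a, ha⟩ := R.R.surjective (N x)
  obtain ⟨b, hb⟩ := R.R.surjective (pd 0 N x)
  obtain ⟨c, hc⟩ := R.R.surjective (pd 1 N x)
  have hj : jp (fun y => gn R (N y)) x = ⟪a, cr b c⟫ / a 2 ^ 3 := by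
    simp only [jp, jac, gn]
    rw [hp, hp, hp, hp, ← ha, ← hb, ← hc]
    rw [← ha, gauss_in] at h2
    simp only [gauss_in]
    rw [inner_eq]
    simp [cr]
    field_simp
    ring
  rw [hj, kap, ← ha, ← hb, ← hc, R.cr_eq, LinearIsometryEquiv.inner_map_map, gauss_gn]
  rw [← ha, gauss_in] at h2
  rw [← ha, LinearIsometryEquiv.norm_map] at h1
  have h3 : a 0 * a 0 + a 1 * a 1 + a 2 * a 2 = 1 := by
    rw [← inner_eq, real_inner_self_eq_norm_sq, h1]; norm_num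
  have h4 : 1 + (a 0 / a 2) ^ 2 + (a 1 / a 2) ^ 2 = (1 / a 2) ^ 2 := by
    field_simp; linarith
  simp only [lam]
  rw [h4, Real.sqrt_sq (by positivity)]
  field_simp

end Pool.Agent.Bor
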