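import Pool.Agent.P.MP_26ecb7_gt.Imm

noncomputable section
open Set Filter Topology MeasureTheory Metric
open scoped RealInnerProductSpace ContDiff ENNReal

namespace Pool.Agent.Bor

/-- derivative of a constant inner product -/
theorem gauss0_const {f g : P → E} (hf : ContDiff ℝ ∞ f) (hg : ContDiff ℝ ∞ g) {c : ℝ}
    (h : ∀ y, ⟪f y, g y⟫ = c) (i : Fin 2) (x : P) : ⟪pd i f x, g x⟫ = - ⟪f x, pd i g x⟫ := by
  have h1 := pd_inner (hf.differentiable (by simp) x) (hg.differentiable (by simp) x) i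
  have h2 : (fun y => ⟪f y, g y⟫) = fun _ => c := funext h
  rw [h2] at h1
  have h3 : pd i (fun _ : P => c) x = 0 := by simp [pd]
  linarith

/-- the curvature of a moving frame -/
theorem gauss0_frame {e f N : P → E} (he : ContDiff ℝ ∞ e) (hf : ContDiff ℝ ∞ f)
    (hN : ContDiff ℝ ∞ N) (hee : ∀ y, ⟪e y, e y⟫ = 1) (hff : ∀ y, ⟪f y, f y⟫ = 1)
    (hef : ∀ y, ⟪e y, f y⟫ = 0) (hc : ∀ y, cr (e y) (f y) = N y) (x : P) :
    kap N x = pd 1 (fun y => ⟪pd 0 e y, f y⟫) x - pd 0 (fun y => ⟪pd 1 e y, f y⟫) x := by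
  have hd : ∀ i, DifferentiableAt ℝ (pd i e) x :=
    fun i => (contDiff_pd he i).differentiable (by simp) x
  have hdf : DifferentiableAt ℝ f x := hf.differentiable (by simp) x
  rw [pd_inner (hd 0) hdf, pd_inner (hd 1) hdf, pd_comm he 1 0]
  have e1 : ∀ i, ⟪pd i e x, e x⟫ = 0 := fun i => by
    have := gauss0_const he he hee i x
    rw [real_inner_comm (pd i e x) (e x)] at this
    linarith
  have f1 : ∀ i, ⟪pd i f x, f x⟫ = 0 := fun i => by
    have := gauss0_const hf hf hff i x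
    rw [real_inner_comm (pd i f x) (f x)] at this
    linarith
  have hn : ‖cr (e x) (f x)‖ ^ 2 = 1 := by rw [norm_cr_sq, hee, hff, hef]; norm_num
  have key : ∀ i j, ⟪pd i e x, pd j f x⟫ = ⟪pd i e x, N x⟫ * ⟪pd j f x, N x⟫ := fun i j => by
    have := parseval (e x) (f x) (pd i e x) (pd j f x)
    rw [hn, hc, hee, hff, hef, e1, f1] at this
    linarith
  have eN : ∀ i, ⟪pd i e x, N x⟫ = - ⟪e x, pd i N x⟫ := fun i =>
    gauss0_const he hN (c := 0) (fun y => by rw [← hc, inner_cr_left]) i x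
  have fN : ∀ i, ⟪pd i f x, N x⟫ = - ⟪f x, pd i N x⟫ := fun i =>
    gauss0_const hf hN (c := 0) (fun y => by rw [← hc, inner_cr_right]) i x
  have k1 : kap N x = ⟪cr (e x) (f x), cr (pd 0 N x) (pd 1 N x)⟫ := by rw [hc]; rfl
  rw [k1, binet, key, key, eN, eN, fN, fN]
  ring

/-- Theorema egregium in divergence form -/
theorem Imm.gauss {w : P → E} (hw : Imm w) (x : P) :
    kap (un w) x = pd 1 (om w 0) x - pd 0 (om w 1) x := by
  have ha : ContDiff ℝ ∞ (pd 0 w) := contDiff_pd hw.1 0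
  have ha0 : ∀ y, pd 0 w y ≠ 0 := fun y h => by
    have := hw.gm_pos 0 y
    simp [gm, h] at this
  obtain ⟨e, hed⟩ : ∃ e : P → E, e = fun y => nrm (pd 0 w y) := ⟨_, rfl⟩
  obtain ⟨f, hfd⟩ : ∃ f : P → E, f = fun y => cr (un w y) (e y) := ⟨_, rfl⟩
  have he : ContDiff ℝ ∞ e := by
    rw [hed]
    exact contDiff_iff_contDiffAt.2 fun y => (contDiffAt_nrm (ha0 y)).comp y ha.contDiffAt
  have hf : ContDiff ℝ ∞ f := by
    rw [hfd]
    exact contDiff_iff_contDiffAt.2 fun y => contDiff_cr hw.sm_un.contDiffAt he.contDiffAt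
  have ey : ∀ y, e y = ‖pd 0 w y‖⁻¹ • pd 0 w y := fun y => by rw [hed]; rfl
  have fy : ∀ y, f y = cr (un w y) (e y) := fun y => by rw [hfd]
  have hee : ∀ y, ⟪e y, e y⟫ = 1 := fun y => by
    have : ‖e y‖ = 1 := by rw [hed]; exact norm_nrm (ha0 y)
    rw [real_inner_self_eq_norm_sq, this]; norm_num
  have hNN : ∀ y, ⟪un w y, un w y⟫ = 1 := fun y => by
    rw [real_inner_self_eq_norm_sq, hw.norm_un]; norm_num
  have hNe : ∀ y, ⟪un w y, e y⟫ = 0 := fun y => by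
    rw [ey, inner_smul_right, un_pd, mul_zero]
  have hff : ∀ y, ⟪f y, f y⟫ = 1 := fun y => by
    rw [real_inner_self_eq_norm_sq, fy, norm_cr_sq, hNN, hee, hNe]; norm_num
  have hef : ∀ y, ⟪e y, f y⟫ = 0 := fun y => by rw [fy, inner_cr_right]
  have hc : ∀ y, cr (e y) (f y) = un w y := fun y => by
    rw [fy, cr_cr, hee, real_inner_comm, hNe]; simp
  have haf : ∀ y, ⟪pd 0 w y, f y⟫ = 0 := fun y => by
    have h1 := hef y
    rw [ey, real_inner_smul_left] at h1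
    exact (mul_eq_zero.1 h1).resolve_left (inv_ne_zero (norm_ne_zero_iff.2 (ha0 y)))
  have hom : ∀ i, om w i = fun y => ⟪pd i e y, f y⟫ := fun i => by
    funext y
    have hs := (hw.sq_pos y).ne'
    have hn : ‖pd 0 w y‖ ≠ 0 := norm_ne_zero_iff.2 (ha0 y)
    have hg : gm w 0 0 y = ‖pd 0 w y‖ ^ 2 := real_inner_self_eq_norm_sq _
    have h1 : ⟪pd i e y, f y⟫ = ‖pd 0 w y‖⁻¹ * ⟪pd i (pd 0 w) y, f y⟫ := by
      rw [gauss0_const he hf hef, gauss0_const ha hf haf, ey, real_inner_smul_left]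
      ring
    have h2 : f y = ((sq w y)⁻¹ * ‖pd 0 w y‖⁻¹) •
        (gm w 0 0 y • pd 1 w y - gm w 0 1 y • pd 0 w y) := by
      have h3 : un w y = (sq w y)⁻¹ • cr (pd 0 w y) (pd 1 w y) := rfl
      rw [fy, ey, h3, cr_smul_left, cr_smul_right, cr_swap, cr_cr, smul_smul, neg_sub]
      rfl
    rw [h1, h2, real_inner_smul_right, inner_sub_right, real_inner_smul_right,
      real_inner_smul_right]
    change (gm w 0 0 y * ch w i 0 1 y - gm w 0 1 y * ch w i 0 0 y) / (gm w 0 0 y * sq w y) =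
      ‖pd 0 w y‖⁻¹ * ((sq w y)⁻¹ * ‖pd 0 w y‖⁻¹ *
        (gm w 0 0 y * ch w i 0 1 y - gm w 0 1 y * ch w i 0 0 y))
    rw [hg]
    field_simp
  rw [hom, hom]
  exact gauss0_frame he hf hw.sm_un hee hff hef hc x


end Pool.Agent.Bor
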