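import Pool.Agent.P.MP_26ecb7_gt.Defs

noncomputable section
open Set Filter Topology MeasureTheory Metric
open scoped RealInnerProductSpace ContDiff ENNReal

namespace Pool.Agent.Bor

theorem goodL0_small {a η : ℝ} (ha : 1 / 2 < a) (hη : 0 < η) :
    ∃ s > 0, ∀ r, 0 < r → r < s → r * r ^ (2 * a) ≤ η * r ^ 2 := by
  have hb : 0 < 2 * a - 1 := by linarith
  refine ⟨η ^ (2 * a - 1)⁻¹, Real.rpow_pos_of_pos hη _, fun r hr hs => ?_⟩
  have h1 : r ^ (2 * a - 1) ≤ η := by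
    have := Real.rpow_le_rpow hr.le hs.le hb.le
    rwa [Real.rpow_inv_rpow hη.le hb.ne'] at this
  have h2 : r ^ (2 * a) = r ^ (2 * a - 1) * r := by
    rw [← Real.rpow_add_one hr.ne']; congr 1; ring
  rw [h2]
  nlinarith [mul_pos hr hr]

theorem goodL0_num {K M M0 O r η s u : ℝ} (hK : 0 ≤ K) (hO : 0 ≤ O) (hOη : O ≤ η)
    (hM : 0 ≤ M) (hM0 : M ≤ M0) (hr : 0 < r) (hrη : r ≤ η) (hu : 0 ≤ u)
    (h1 : O * M ^ 2 * u ≤ η * ((K + 1) * r) ^ 2) (h2 : r * u ≤ η * r ^ 2)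
    (h3 : s ^ 2 * u ≤ 4 * r ^ 2) :
    K * (O + 2 * r) * (K * (M * (K + 1) + s)) ^ 2 * u ≤
      η * (2 * (K + 1) ^ 3 * ((K + 1) ^ 4 + 12 + 2 * (K + 1) ^ 2 * M0 ^ 2)) * r ^ 2 := by
  set c := K + 1 with hc
  have c0 : 0 ≤ c := by linarith
  have hη : 0 ≤ η := hO.trans hOη
  have k3 : K ^ 3 ≤ c ^ 3 := pow_le_pow_left₀ hK (by linarith) 3
  have m2 : M ^ 2 ≤ M0 ^ 2 := pow_le_pow_left₀ hM hM0 2
  have e1 : (M * c + s) ^ 2 * u ≤ 2 * (c ^ 2 * (M ^ 2 * u) + 4 * r ^ 2) := by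
    have : (M * c + s) ^ 2 ≤ 2 * (c ^ 2 * M ^ 2 + s ^ 2) := by nlinarith [sq_nonneg (M * c - s)]
    nlinarith [mul_le_mul_of_nonneg_right this hu]
  have e2 : (O + 2 * r) * (c ^ 2 * (M ^ 2 * u) + 4 * r ^ 2) ≤
      η * (c ^ 4 + 12 + 2 * c ^ 2 * M0 ^ 2) * r ^ 2 := by
    have a1 : c ^ 2 * (O * M ^ 2 * u) ≤ c ^ 2 * (η * (c * r) ^ 2) :=
      mul_le_mul_of_nonneg_left h1 (by positivity)
    have a2 : M ^ 2 * (r * u) ≤ M0 ^ 2 * (η * r ^ 2) :=
      mul_le_mul m2 h2 (by positivity) (by positivity)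
    have a3 : c ^ 2 * (M ^ 2 * (r * u)) ≤ c ^ 2 * (M0 ^ 2 * (η * r ^ 2)) :=
      mul_le_mul_of_nonneg_left a2 (by positivity)
    have a4 : O * r ^ 2 ≤ η * r ^ 2 := mul_le_mul_of_nonneg_right hOη (by positivity)
    have a5 : r * r ^ 2 ≤ η * r ^ 2 := mul_le_mul_of_nonneg_right hrη (by positivity)
    nlinarith
  have e3 : (O + 2 * r) * ((M * c + s) ^ 2 * u) ≤
      2 * (η * (c ^ 4 + 12 + 2 * c ^ 2 * M0 ^ 2) * r ^ 2) := by
    have := mul_le_mul_of_nonneg_left e1 (show 0 ≤ O + 2 * r by positivity)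
    linarith
  calc K * (O + 2 * r) * (K * (M * c + s)) ^ 2 * u
      = K ^ 3 * ((O + 2 * r) * ((M * c + s) ^ 2 * u)) := by ring
    _ ≤ c ^ 3 * (2 * (η * (c ^ 4 + 12 + 2 * c ^ 2 * M0 ^ 2) * r ^ 2)) :=
        mul_le_mul k3 e3 (by positivity) (by positivity)
    _ = _ := by ring

/-- transfer of the scale condition -/
theorem GoodS.transfer {Z Y Z' Y' : Type} [PseudoMetricSpace Z] [PseudoMetricSpace Y]
    [PseudoMetricSpace Z'] [PseudoMetricSpace Y'] {f : ℕ → Z → Y} {T : Set Z} {x : Z}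
    (h : GoodS f T x) {g : ℕ → Z' → Y'} {T' : Set Z'} {x' : Z'} {φ : Z' → Z} {K ρ : ℝ}
    (hK : 0 ≤ K) (hρ : 0 < ρ) (h0 : φ x' = x) (h1 : ∀ y ∈ T' ∩ ball x' ρ, φ y ∈ T)
    (hx : x' ∈ T')
    (h2 : ∀ y ∈ T' ∩ ball x' ρ, ∀ z ∈ T' ∩ ball x' ρ, dist (φ y) (φ z) ≤ K * dist y z)
    (h3 : ∀ᶠ n in atTop, ∀ y ∈ T' ∩ ball x' ρ, ∀ z ∈ T' ∩ ball x' ρ,
      dist (g n y) (g n z) ≤ K * (dist (f n (φ y)) (f n (φ z)) + dist y z)) :
    GoodS g T' x' := by
  obtain ⟨a, M0, ha, ha1, H⟩ := h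
  refine ⟨a, K * (M0 * (K + 1) + 1), ha, ha1, fun η hη => ?_⟩
  set C : ℝ := 2 * (K + 1) ^ 3 * ((K + 1) ^ 4 + 12 + 2 * (K + 1) ^ 2 * M0 ^ 2) with hC
  have c1 : 1 ≤ K + 1 := by linarith
  have c0 : 0 < K + 1 := by linarith
  have C0 : 0 < C := by positivity
  have C3 : 3 * K ≤ C := by
    have a1 : K + 1 ≤ (K + 1) ^ 3 := le_self_pow₀ c1 (by norm_num)
    have a2 : (12 : ℝ) ≤ (K + 1) ^ 4 + 12 + 2 * (K + 1) ^ 2 * M0 ^ 2 := by
      have : 0 ≤ (K + 1) ^ 4 := by positivity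
      have : 0 ≤ 2 * (K + 1) ^ 2 * M0 ^ 2 := by positivity
      linarith
    have := mul_le_mul a1 a2 (by norm_num) (by positivity)
    rw [hC]; nlinarith
  have hη' : 0 < η / C := div_pos hη C0
  have eη : η / C * C = η := div_mul_cancel₀ _ C0.ne'
  obtain ⟨r0, hr0, H⟩ := H (η / C) hη'
  obtain ⟨s, hs, Hs⟩ := goodL0_small ha hη'
  refine ⟨min (min (r0 / (K + 1)) s) (min (min ρ (1 / 2)) (η / C)), by positivity,
    fun r hr hlt => ?_⟩
  simp only [lt_min_iff] at hlt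
  obtain ⟨⟨l1, l2⟩, ⟨l3, l4⟩, l5⟩ := hlt
  have rr : r ≤ (K + 1) * r := le_mul_of_one_le_left hr.le c1
  obtain ⟨O, M, hO, hOη, hM, hM0, hOM, Hn⟩ := H ((K + 1) * r) (by positivity)
    (by rw [lt_div_iff₀ c0] at l1; linarith)
  have s0 : 0 ≤ (2 * r) ^ (1 - a) := by positivity
  have s1 : (2 * r) ^ (1 - a) ≤ 1 := Real.rpow_le_one (by positivity) (by linarith) (by linarith)
  refine ⟨K * (O + 2 * r), K * (M * (K + 1) + (2 * r) ^ (1 - a)), by positivity, ?_,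
    by positivity, ?_, ?_, ?_⟩
  · calc K * (O + 2 * r) ≤ K * (3 * (η / C)) := mul_le_mul_of_nonneg_left (by linarith) hK
      _ = η / C * (3 * K) := by ring
      _ ≤ η / C * C := mul_le_mul_of_nonneg_left C3 hη'.le
      _ = η := eη
  · exact mul_le_mul_of_nonneg_left
      (add_le_add (mul_le_mul_of_nonneg_right hM0 c0.le) s1) hK
  · have u1 : r ^ (2 * a) ≤ ((K + 1) * r) ^ (2 * a) := Real.rpow_le_rpow hr.le rr (by linarith)
    have u2 : r ^ (2 * a) ≤ (2 * r) ^ (2 * a) :=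
      Real.rpow_le_rpow hr.le (by linarith) (by linarith)
    have u3 : ((2 * r) ^ (1 - a)) ^ 2 * (2 * r) ^ (2 * a) = 4 * r ^ 2 := by
      rw [← Real.rpow_natCast, ← Real.rpow_mul (by positivity), ← Real.rpow_add (by positivity)]
      have : (1 - a) * ((2 : ℕ) : ℝ) + 2 * a = ((2 : ℕ) : ℝ) := by push_cast; ring
      rw [this, Real.rpow_natCast]; ring
    have := goodL0_num (s := (2 * r) ^ (1 - a)) (u := r ^ (2 * a)) hK hO hOη hM hM0 hr l5.le
      (by positivity) ((mul_le_mul_of_nonneg_left u1 (by positivity)).trans hOM) (Hs r hr l2)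
      (u3 ▸ mul_le_mul_of_nonneg_left u2 (by positivity))
    rwa [← hC, eη] at this
  · filter_upwards [h3, Hn] with n g3 fn y hy z hz
    have sub : ∀ w ∈ T' ∩ ball x' r, w ∈ T' ∩ ball x' ρ := fun w hw =>
      ⟨hw.1, ball_subset_ball l3.le hw.2⟩
    have mem : ∀ w ∈ T' ∩ ball x' r, φ w ∈ T ∩ ball x ((K + 1) * r) := fun w hw => by
      refine ⟨h1 w (sub w hw), ?_⟩
      have b1 := h2 w (sub w hw) x' ⟨hx, mem_ball_self hρ⟩
      have b2 : dist w x' < r := hw.2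
      rw [mem_ball, ← h0]
      nlinarith [mul_le_mul_of_nonneg_left b2.le hK]
    have d1 : dist y z ≤ 2 * r := by
      have b1 : dist y x' < r := hy.2
      have b2 : dist z x' < r := hz.2
      linarith [dist_triangle_right y z x']
    obtain ⟨f1, f2⟩ := fn _ (mem y hy) _ (mem z hz)
    have g1 := g3 y (sub y hy) z (sub z hz)
    refine ⟨g1.trans (mul_le_mul_of_nonneg_left (add_le_add f1 d1) hK), g1.trans ?_⟩
    have d0 : 0 ≤ dist y z := dist_nonneg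
    have p1 : dist (φ y) (φ z) ^ a ≤ (K + 1) * dist y z ^ a := by
      have b1 : dist (φ y) (φ z) ≤ (K + 1) * dist y z := by
        have := h2 y (sub y hy) z (sub z hz)
        linarith
      refine (Real.rpow_le_rpow dist_nonneg b1 (by linarith)).trans ?_
      rw [Real.mul_rpow c0.le d0]
      refine mul_le_mul_of_nonneg_right ?_ (by positivity)
      simpa using Real.rpow_le_rpow_of_exponent_le c1 ha1
    have p2 : dist y z ≤ (2 * r) ^ (1 - a) * dist y z ^ a := by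
      calc dist y z = dist y z ^ (1 - a) * dist y z ^ a := by
            rw [← Real.rpow_add' d0 (by simp)]; simp
        _ ≤ _ := mul_le_mul_of_nonneg_right (Real.rpow_le_rpow d0 d1 (by linarith))
            (by positivity)
    rw [mul_assoc]
    refine mul_le_mul_of_nonneg_left ?_ hK
    have := mul_le_mul_of_nonneg_left p1 hM
    nlinarith

/-- transfer to averages of translates -/
theorem GoodS.avg {Y : Type} [PseudoMetricSpace Y] {f : E → Y} {x : E}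
    (h : GoodS (fun _ => f) univ x) {g : ℕ → E → Y} {ρ : ℝ} (hρ : 0 < ρ)
    (h1 : ∀ δ > 0, ∀ᶠ n in atTop, ∀ y ∈ ball x ρ, ∀ z ∈ ball x ρ, ∀ k : ℝ,
      (∀ u : E, ‖u‖ ≤ δ → dist (f (y - u)) (f (z - u)) ≤ k) → dist (g n y) (g n z) ≤ k) :
    GoodS g univ x := by
  obtain ⟨a, M0, ha, ha1, H⟩ := h
  refine ⟨a, M0, ha, ha1, fun η hη => ?_⟩
  obtain ⟨r0, hr0, H⟩ := H (η / 4) (by positivity)
  refine ⟨min (r0 / 2) ρ, by positivity, fun r hr hlt => ?_⟩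
  rw [lt_min_iff] at hlt
  obtain ⟨O, M, hO, hOη, hM, hM0, hOM, Hn⟩ := H (2 * r) (by positivity) (by linarith [hlt.1])
  obtain ⟨_, Hn⟩ := Hn.exists
  refine ⟨O, M, hO, by linarith, hM, hM0, ?_, ?_⟩
  · have u2 : r ^ (2 * a) ≤ (2 * r) ^ (2 * a) :=
      Real.rpow_le_rpow hr.le (by linarith) (by linarith)
    have := (mul_le_mul_of_nonneg_left u2 (show 0 ≤ O * M ^ 2 by positivity)).trans hOM
    linarith
  · filter_upwards [h1 r hr] with n gn y hy z hz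
    have mem : ∀ w ∈ univ ∩ ball x r, ∀ u : E, ‖u‖ ≤ r → w - u ∈ univ ∩ ball x (2 * r) :=
      fun w hw u hu => by
        refine ⟨trivial, ?_⟩
        have b1 : dist w x < r := hw.2
        have b2 : dist (w - u) w = ‖u‖ := by simp
        rw [mem_ball]
        linarith [dist_triangle (w - u) w x]
    have G := gn y (ball_subset_ball hlt.2.le hy.2) z (ball_subset_ball hlt.2.le hz.2)
    refine ⟨G _ fun u hu => (Hn _ (mem y hy u hu) _ (mem z hz u hu)).1, G _ fun u hu => ?_⟩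
    have := (Hn _ (mem y hy u hu) _ (mem z hz u hu)).2
    rwa [dist_sub_right] at this

end Pool.Agent.Bor
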