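import Pool.Agent.P.MP_26ecb7_gt.HergA0

noncomputable section
open Set Filter Topology MeasureTheory Metric
open scoped RealInnerProductSpace ContDiff ENNReal

namespace Pool.Agent.Bor

/-- half the gradient of the squared norm -/
def hergaX (W : E → E) (q : E) : E := ∑ k : Fin 3, ⟪W q, fderiv ℝ W q (ee k)⟫ • ee k

/-- its tangential part -/
def hergaT (X : Surf) (W : E → E) (q : E) : E :=
  hergaX W q - ⟪hergaX W q, X.nu q⟫ • X.nu q

theorem herga_exp (a : E) : a = ∑ k : Fin 3, a k • ee k := by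
  ext j
  fin_cases j <;> simp [ee, Fin.sum_univ_three]

theorem herga_ee (k : Fin 3) (a : E) : ⟪ee k, a⟫ = a k := by
  simp [ee, EuclideanSpace.inner_single_left]

theorem herga_inner (W : E → E) (q a : E) : ⟪hergaX W q, a⟫ = ⟪W q, fderiv ℝ W q a⟫ := by
  have h : fderiv ℝ W q a = ∑ k : Fin 3, a k • fderiv ℝ W q (ee k) := by
    conv_lhs => rw [herga_exp a]
    simp only [map_sum, map_smul]
  rw [h, hergaX, sum_inner, inner_sum]
  refine Finset.sum_congr rfl fun k _ => ?_
  rw [real_inner_smul_left, real_inner_smul_right, herga_ee, mul_comm]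

theorem herga_smX {W : E → E} (hW : ContDiff ℝ ∞ W) : ContDiff ℝ ∞ (hergaX W) := by
  unfold hergaX
  refine ContDiff.sum fun k _ => ?_
  have h1 : ContDiff ℝ ∞ (fun q => fderiv ℝ W q (ee k)) :=
    (hW.fderiv_right (m := ∞) (by simp)).clm_apply contDiff_const
  exact (hW.inner ℝ h1).smul contDiff_const

theorem herga_smT (X : Surf) {W : E → E} (hW : ContDiff ℝ ∞ W) : X.Sm (hergaT X W) := by
  intro q hq
  have h1 : ContDiffAt ℝ ∞ (hergaX W) q := (herga_smX hW).contDiffAt
  have h2 := X.nu_smooth q hq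
  exact h1.sub ((h1.inner ℝ h2).smul h2)

theorem herga_nu (X : Surf) (W : E → E) {q : E} (hq : q ∈ X.S) :
    ⟪hergaT X W q, X.nu q⟫ = 0 := by
  rw [hergaT, inner_sub_left, real_inner_smul_left, real_inner_self_eq_norm_sq, X.nu_unit q hq]
  ring

theorem herga_tang (X : Surf) (W : E → E) {q a : E} (ha : ⟪X.nu q, a⟫ = 0) :
    ⟪hergaT X W q, a⟫ = ⟪W q, fderiv ℝ W q a⟫ := by
  rw [hergaT, inner_sub_left, real_inner_smul_left, ha, herga_inner]
  ring

variable {X : Surf} {I : Iso X} (U : Pou X)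

/-- the error term -/
def hergaE (w v : P → E) (i j : Fin 2) (x : P) : ℝ :=
  gm w i j x - gm v i j x + ∑ k, ∑ l, (gi w k l x * ⟪w x, pd k w x⟫ * ch w i j l x
    - gi v k l x * ⟪w x, pd k w x⟫ * ch v i j l x)

theorem herga_r (A : Appr I) (R : Rot) (n : ℕ) (j : Fin 2) (x : P) :
    ⟪hergaT X (A.W n) (X.psi R x), pd j (X.psi R) x⟫ = ⟪A.w R n x, pd j (A.w R n) x⟫ := by
  rw [herga_tang X _ (X.tang_psi R j x), A.pd_w]
  rfl

theorem herga_T (A : Appr I) (R : Rot) (n : ℕ) (i j : Fin 2) (x : P) :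
    ⟪pd i (fun y => hergaT X (A.W n) (X.psi R y)) x, pd j (X.psi R) x⟫ =
      gm (X.psi R) i j x - hs (A.w R n) x * sf (A.w R n) i j x
        + hergaE (A.w R n) (X.psi R) i j x := by
  have hw := A.imm_w R n
  have hp := X.imm_psi R
  have hT : ContDiff ℝ ∞ (fun y => hergaT X (A.W n) (X.psi R y)) :=
    (herga_smT X (A.smooth n)).comp R
  have d1 : DifferentiableAt ℝ (fun y => hergaT X (A.W n) (X.psi R y)) x :=
    hT.differentiable (by simp) x
  have d2 : DifferentiableAt ℝ (pd j (X.psi R)) x :=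
    (contDiff_pd hp.1 j).differentiable (by simp) x
  have d3 : DifferentiableAt ℝ (A.w R n) x := hw.1.differentiable (by simp) x
  have d4 : DifferentiableAt ℝ (pd j (A.w R n)) x :=
    (contDiff_pd hw.1 j).differentiable (by simp) x
  have e1 := pd_inner d1 d2 i
  have e2 := pd_inner d3 d4 i
  have e3 : (fun y => ⟪hergaT X (A.W n) (X.psi R y), pd j (X.psi R) y⟫) =
      fun y => ⟪A.w R n y, pd j (A.w R n) y⟫ := funext fun y => herga_r A R n j y
  rw [e3, e2] at e1
  have e4 := hw.inner_exp x (A.w R n x) (pd i (pd j (A.w R n)) x)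
  have e5 := hp.inner_exp x (hergaT X (A.W n) (X.psi R x)) (pd i (pd j (X.psi R)) x)
  have e6 : ⟪hergaT X (A.W n) (X.psi R x), un (X.psi R) x⟫ = 0 := by
    rw [X.un_psi]
    exact herga_nu X _ (X.psi_mem R x)
  have e7 : ⟪pd i (pd j (A.w R n)) x, un (A.w R n) x⟫ = - sf (A.w R n) i j x := by
    rw [hw.sf_eq, real_inner_comm, neg_neg]
  rw [e6, zero_mul, zero_add] at e5
  simp only [herga_r] at e5
  rw [e7] at e4
  simp only [hergaE, hs, gm, ch, Fin.sum_univ_two] at e4 e5 ⊢
  linarith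

theorem herga_cont {w v : P → E} (hw : Imm w) (hv : Imm v) (i j : Fin 2) :
    Continuous (hergaE w v i j) := by
  unfold hergaE
  have hr : ∀ k, Continuous (fun x => ⟪w x, pd k w x⟫) := fun k =>
    hw.1.continuous.inner (contDiff_pd hw.1 k).continuous
  refine ((hw.sm_gm i j).continuous.sub (hv.sm_gm i j).continuous).add ?_
  refine continuous_finsetSum _ fun k _ => continuous_finsetSum _ fun l _ => ?_
  exact (((hw.sm_gi k l).continuous.mul (hr k)).mul (hw.sm_ch i j l).continuous).sub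
    (((hv.sm_gi k l).continuous.mul (hr k)).mul (hv.sm_ch i j l).continuous)

theorem herga_conv (A : Appr I) (R : Rot) {K : Set P} (hK : IsCompact K) (i j : Fin 2) :
    TendstoUniformlyOn (fun n => hergaE (A.w R n) (X.psi R) i j) (fun _ => 0) atTop K := by
  have hp := X.imm_psi R
  have cw : Continuous (I.w R) := (I.w_c1 R).continuous
  have cp : ∀ k, Continuous (pd k (I.w R)) := fun k =>
    ((I.w_c1 R).continuous_fderiv (by simp)).clm_apply continuous_const
  have cr0 : ∀ k, Continuous (fun x => ⟪I.w R x, pd k (I.w R) x⟫) := fun k => cw.inner (cp k)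
  have hr : ∀ k, TendstoUniformlyOn (fun n x => ⟪A.w R n x, pd k (A.w R n) x⟫)
      (fun x => ⟪I.w R x, pd k (I.w R) x⟫) atTop K := fun k =>
    tu_inner hK (A.w_conv R).tendstoUniformlyOn (A.pd_conv R hK k) cw.continuousOn
      (cp k).continuousOn
  have ht : ∀ k l, TendstoUniformlyOn (fun n x =>
      gi (A.w R n) k l x * ⟪A.w R n x, pd k (A.w R n) x⟫ * ch (A.w R n) i j l x
        - gi (X.psi R) k l x * ⟪A.w R n x, pd k (A.w R n) x⟫ * ch (X.psi R) i j l x)
      (fun _ => 0) atTop K := by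
    intro k l
    have cg := (hp.sm_gi k l).continuous
    have cc := (hp.sm_ch i j l).continuous
    have h1 := tu_mul hK (tu_mul hK (A.gi_conv R hK k l) (hr k) cg.continuousOn
      (cr0 k).continuousOn) (A.ch_conv R hK i j l) (cg.mul (cr0 k)).continuousOn cc.continuousOn
    have h2 := tu_mul hK (tu_mul hK (tu_const (gi (X.psi R) k l)) (hr k) cg.continuousOn
      (cr0 k).continuousOn) (tu_const (ch (X.psi R) i j l)) (cg.mul (cr0 k)).continuousOn
      cc.continuousOn
    have h3 := tu_sub h1 h2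
    simpa only [sub_self] using h3
  have h0 := tu_sub (A.gm_conv R hK i j) (tu_const (gm (X.psi R) i j))
  have h4 := tu_add h0 (tu_add (tu_add (ht 0 0) (ht 0 1)) (tu_add (ht 1 0) (ht 1 1)))
  simp only [sub_self, add_zero] at h4
  unfold hergaE
  simpa only [Fin.sum_univ_two] using h4

/-- first Herglotz identity: Codazzi for the surface, tested with the approximation -/
theorem Pou.herg1 (A : Appr I) : ∃ e : ℕ → Fin U.k → Fin 2 → Fin 2 → P → ℝ,
    (∀ n a i j, Continuous (e n a i j)) ∧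
    (∀ a i j, TendstoUniformlyOn (fun n => e n a i j) (fun _ => 0) atTop (closedBall 0 U.rho)) ∧
    ∀ n, U.II (fun a x => mx (fun i j => gm (X.psi (U.R a)) i j x
      - hs (A.w (U.R a) n) x * sf (A.w (U.R a) n) i j x + e n a i j x)
        (at2 (sf (X.psi (U.R a))) x) / sq (X.psi (U.R a)) x) = 0 := by
  refine ⟨fun n a => hergaE (A.w (U.R a) n) (X.psi (U.R a)),
    fun n a i j => herga_cont (A.imm_w _ n) (X.imm_psi _) i j,
    fun a i j => herga_conv A _ (isCompact_closedBall _ _) i j, fun n => ?_⟩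
  have hT := herga_smT X (A.smooth n)
  have hf : X.Sm (fun q => cr (hergaT X (A.W n) q) (X.nu q)) := fun q hq =>
    contDiff_cr (hT q hq) (X.nu_smooth q hq)
  have hg : X.Sm X.nu := X.nu_smooth
  have hst := U.stokes hf hg
  have key : (fun a x => mx (fun i j => gm (X.psi (U.R a)) i j x
      - hs (A.w (U.R a) n) x * sf (A.w (U.R a) n) i j x
        + hergaE (A.w (U.R a) n) (X.psi (U.R a)) i j x)
        (at2 (sf (X.psi (U.R a))) x) / sq (X.psi (U.R a)) x) =
      fun a x => (-1 : ℝ) * JJ (fun y => cr (hergaT X (A.W n) (X.psi (U.R a) y))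
        (X.nu (X.psi (U.R a) y))) (fun y => X.nu (X.psi (U.R a) y)) x := by
    funext a x
    have hu : (fun y => X.nu (X.psi (U.R a) y)) = un (X.psi (U.R a)) :=
      funext fun y => (X.un_psi _ y).symm
    have hc : (fun y => cr (hergaT X (A.W n) (X.psi (U.R a) y)) (X.nu (X.psi (U.R a) y))) =
        fun y => cr (hergaT X (A.W n) (X.psi (U.R a) y)) (un (X.psi (U.R a)) y) :=
      funext fun y => by rw [X.un_psi]
    have d1 : DifferentiableAt ℝ (fun y => hergaT X (A.W n) (X.psi (U.R a) y)) x :=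
      (hT.comp (U.R a)).differentiable (by simp) x
    have e6 : ⟪hergaT X (A.W n) (X.psi (U.R a) x), un (X.psi (U.R a)) x⟫ = 0 := by
      rw [X.un_psi]
      exact herga_nu X _ (X.psi_mem _ x)
    rw [hu, hc, (X.imm_psi (U.R a)).JJ_cr d1, e6]
    simp only [herga_T]
    ring
  rw [key, U.II_mul, hst, mul_zero]

end Pool.Agent.Bor
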