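import Pool.Agent.P.MP_26ecb7_gt.Chart

noncomputable section
open Set Filter Topology MeasureTheory Metric
open scoped RealInnerProductSpace ContDiff ENNReal

namespace Pool.Agent.Bor

theorem Surf.exists_pou (X : Surf) : Nonempty (Pou X) := by
  have h1 : ∀ q : X.S, ∃ (R : Rot) (b : ContDiffBump q.1),
      ∀ z ∈ X.S, b z ≠ 0 → ∃ x ∈ closedBall (0 : P) 1, z = X.psi R x := by
    rintro ⟨q, hq⟩
    obtain ⟨R, hR⟩ := X.exists_chart hq
    have h2 := X.psi_nhds R (x := 0) (closedBall_mem_nhds 0 one_pos)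
    rw [hR] at h2
    obtain ⟨δ, hδ, h3⟩ := Metric.mem_nhdsWithin_iff.1 h2
    refine ⟨R, ⟨δ / 2, δ, by positivity, by linarith⟩, fun z hz hb => ?_⟩
    have h4 : z ∈ Function.support
        (⟨δ / 2, δ, by positivity, by linarith⟩ : ContDiffBump q) := hb
    rw [ContDiffBump.support_eq] at h4
    obtain ⟨x, hx, e⟩ := h3 ⟨h4, hz⟩
    exact ⟨x, hx, e.symm⟩
  choose R b hb using h1
  obtain ⟨t, ht⟩ := X.cpt.elim_nhds_subcover' (fun q hq => closedBall q (b ⟨q, hq⟩).rIn)
    fun q hq => closedBall_mem_nhds q (b ⟨q, hq⟩).rIn_pos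
  let e := t.equivFin.symm
  let σ : E → ℝ := fun z => ∑ a, b (e a).1 z
  have s0 : ∀ z, 0 ≤ σ z := fun z => Finset.sum_nonneg fun a _ => (b _).nonneg
  have s1 : ∀ z ∈ X.S, 1 ≤ σ z := by
    intro z hz
    obtain ⟨q, hq, h⟩ := mem_iUnion₂.1 (ht hz)
    obtain ⟨a, ha⟩ := e.surjective ⟨q, hq⟩
    have h2 : b (e a).1 z = 1 := by
      rw [ha]
      exact (b q).one_of_mem_closedBall h
    rw [← h2]
    exact Finset.single_le_sum (f := fun a => b (e a).1 z) (fun a _ => (b _).nonneg)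
      (Finset.mem_univ a)
  have s2 : ContDiff ℝ ∞ σ := ContDiff.sum fun a _ => (b _).contDiff
  have d0 : ∀ z, 0 < σ z + Real.smoothTransition (1 - σ z) := by
    intro z
    rcases lt_or_ge (σ z) 1 with h | h
    · exact add_pos_of_nonneg_of_pos (s0 z) (Real.smoothTransition.pos_of_pos (sub_pos.2 h))
    · exact add_pos_of_pos_of_nonneg (one_pos.trans_le h) (Real.smoothTransition.nonneg _)
  refine ⟨⟨t.card, fun a => R (e a).1,
    fun a z => b (e a).1 z / (σ z + Real.smoothTransition (1 - σ z)), 1, fun a => ?_,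
    fun a z => div_nonneg (b _).nonneg (d0 z).le, fun z hz => ?_,
    fun a z hz h => hb _ z hz fun e' => h (by rw [e', zero_div])⟩⟩
  · exact (b _).contDiff.div (s2.add (Real.smoothTransition.contDiff.comp (contDiff_const.sub s2)))
      fun z => (d0 z).ne'
  · rw [← Finset.sum_div, Real.smoothTransition.zero_of_nonpos (sub_nonpos.2 (s1 z hz)), add_zero]
    exact div_self (one_pos.trans_le (s1 z hz)).ne'

namespace Pou
variable {X : Surf} (U : Pou X)

theorem eq_zero (a : Fin U.k) {x : P} (hx : x ∉ closedBall (0 : P) U.rho) :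
    U.chi a (X.psi (U.R a) x) = 0 := by
  by_contra h
  obtain ⟨y, hy, e⟩ := U.supp a _ (X.psi_mem _ x) h
  exact hx (X.psi_inj _ e ▸ hy)
theorem cs (a : Fin U.k) : HasCompactSupport (fun x => U.chi a (X.psi (U.R a) x)) :=
  HasCompactSupport.intro (isCompact_closedBall 0 U.rho) fun _ hx => U.eq_zero a hx
theorem sm (a : Fin U.k) : ContDiff ℝ ∞ (fun x => U.chi a (X.psi (U.R a) x)) :=
  (U.smooth a).comp (X.sm_psi _)
theorem exists_pos {q : E} (hq : q ∈ X.S) : ∃ a x, X.psi (U.R a) x = q ∧ 0 < U.chi a q := by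
  obtain ⟨a, -, ha⟩ := Finset.exists_ne_zero_of_sum_ne_zero ((U.sum_eq q hq).trans_ne one_ne_zero)
  obtain ⟨x, -, e⟩ := U.supp a q hq ha
  exact ⟨a, x, e.symm, (U.nonneg a q).lt_of_ne' ha⟩
theorem integrable (a : Fin U.k) {f : P → ℝ} (hf : Continuous f) :
    Integrable (fun x => U.chi a (X.psi (U.R a) x) * f x) :=
  ((U.sm a).continuous.mul hf).integrable_of_hasCompactSupport (U.cs a).mul_right
theorem II_add {f g : Fin U.k → P → ℝ} (hf : ∀ a, Continuous (f a)) (hg : ∀ a, Continuous (g a)) :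
    U.II (fun a x => f a x + g a x) = U.II f + U.II g := by
  simp only [II, mul_add, ← Finset.sum_add_distrib]
  exact Finset.sum_congr rfl fun a _ => integral_add (U.integrable a (hf a)) (U.integrable a (hg a))
theorem II_sub {f g : Fin U.k → P → ℝ} (hf : ∀ a, Continuous (f a)) (hg : ∀ a, Continuous (g a)) :
    U.II (fun a x => f a x - g a x) = U.II f - U.II g := by
  simp only [II, mul_sub, ← Finset.sum_sub_distrib]
  exact Finset.sum_congr rfl fun a _ => integral_sub (U.integrable a (hf a)) (U.integrable a (hg a))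
theorem II_mul (t : ℝ) (f : Fin U.k → P → ℝ) : U.II (fun a x => t * f a x) = t * U.II f := by
  simp only [II, Finset.mul_sum, ← integral_const_mul, mul_left_comm t]
theorem II_mono {f g : Fin U.k → P → ℝ} (hf : ∀ a, Continuous (f a)) (hg : ∀ a, Continuous (g a))
    (h : ∀ a, ∀ x ∈ closedBall (0 : P) U.rho, f a x ≤ g a x) : U.II f ≤ U.II g := by
  refine Finset.sum_le_sum fun a _ =>
    integral_mono (U.integrable a (hf a)) (U.integrable a (hg a)) fun x => ?_
  by_cases hx : x ∈ closedBall (0 : P) U.rho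
  · exact mul_le_mul_of_nonneg_left (h a x hx) (U.nonneg _ _)
  · simp [U.eq_zero a hx]
theorem II_nonneg {f : Fin U.k → P → ℝ} (h : ∀ a, ∀ x ∈ closedBall (0 : P) U.rho, 0 ≤ f a x) :
    0 ≤ U.II f := by
  refine Finset.sum_nonneg fun a _ => integral_nonneg fun x => ?_
  by_cases hx : x ∈ closedBall (0 : P) U.rho
  · exact mul_nonneg (U.nonneg _ _) (h a x hx)
  · simp [U.eq_zero a hx]
theorem abs_II_le {f g : Fin U.k → P → ℝ} (hf : ∀ a, Continuous (f a)) (hg : ∀ a, Continuous (g a))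
    (h : ∀ a, ∀ x ∈ closedBall (0 : P) U.rho, |f a x| ≤ g a x) : |U.II f| ≤ U.II g := by
  refine abs_le.2 ⟨?_, U.II_mono hf hg fun a x hx => (abs_le.1 (h a x hx)).2⟩
  rw [← neg_one_mul, ← U.II_mul]
  exact U.II_mono (fun a => continuous_const.mul (hg a)) hf fun a x hx => by
    simpa using (abs_le.1 (h a x hx)).1
/-- a family that is uniformly small relative to a family with bounded integrals -/
theorem II_small {f g : ℕ → Fin U.k → P → ℝ} (hf : ∀ n a, Continuous (f n a))
    (hg : ∀ n a, Continuous (g n a)) {C : ℝ} (hC : ∀ᶠ n in atTop, U.II (g n) ≤ C)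
    (h : ∀ θ > 0, ∀ᶠ n in atTop, ∀ a, ∀ x ∈ closedBall (0 : P) U.rho, |f n a x| ≤ θ * g n a x) :
    Tendsto (fun n => U.II (f n)) atTop (𝓝 0) := by
  refine Metric.tendsto_nhds.2 fun ε hε => ?_
  have hθ : 0 < ε / (|C| + 1) := by positivity
  filter_upwards [hC, h _ hθ] with n h1 h2
  rw [Real.dist_0_eq_abs]
  refine (U.abs_II_le (g := fun a x => ε / (|C| + 1) * g n a x) (hf n)
    (fun a => continuous_const.mul (hg n a)) h2).trans_lt ?_
  rw [U.II_mul, div_mul_eq_mul_div, div_lt_iff₀ (by positivity)]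
  exact mul_lt_mul_of_pos_left ((h1.trans (le_abs_self C)).trans_lt (lt_add_one _)) hε

end Pou

end Pool.Agent.Bor
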