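import Pool.Agent.P.MP_26ecb7_gt.Mu
import Pool.Agent.P.MP_26ecb7_gt.Pou
import Pool.Agent.P.MP_26ecb7_gt.Green

noncomputable section
open Set Filter Topology MeasureTheory Metric
open scoped RealInnerProductSpace ContDiff ENNReal

namespace Pool.Agent.Bor

/-- the alternating form attached to two linear maps -/
def stokes_om (L M : E →L[ℝ] E) (a b : E) : ℝ := ⟪L a, M b⟫ - ⟪L b, M a⟫

/-- the same form read on the cross product -/
def stokes_w (L M : E →L[ℝ] E) (c : E) : ℝ :=
  c 0 * stokes_om L M (ee 1) (ee 2) + c 1 * stokes_om L M (ee 2) (ee 0)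
    + c 2 * stokes_om L M (ee 0) (ee 1)

theorem stokes_basis (a : E) : a = a 0 • ee 0 + a 1 • ee 1 + a 2 • ee 2 := by
  ext k
  fin_cases k <;> simp [ee]

theorem stokes_inner (L M : E →L[ℝ] E) (a b : E) :
    ⟪L a, M b⟫ = a 0 * b 0 * ⟪L (ee 0), M (ee 0)⟫ + a 0 * b 1 * ⟪L (ee 0), M (ee 1)⟫
      + a 0 * b 2 * ⟪L (ee 0), M (ee 2)⟫ + a 1 * b 0 * ⟪L (ee 1), M (ee 0)⟫
      + a 1 * b 1 * ⟪L (ee 1), M (ee 1)⟫ + a 1 * b 2 * ⟪L (ee 1), M (ee 2)⟫
      + a 2 * b 0 * ⟪L (ee 2), M (ee 0)⟫ + a 2 * b 1 * ⟪L (ee 2), M (ee 1)⟫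
      + a 2 * b 2 * ⟪L (ee 2), M (ee 2)⟫ := by
  have ha : L a = a 0 • L (ee 0) + a 1 • L (ee 1) + a 2 • L (ee 2) := by
    conv_lhs => rw [stokes_basis a]
    simp only [map_add, map_smul]
  have hb : M b = b 0 • M (ee 0) + b 1 • M (ee 1) + b 2 • M (ee 2) := by
    conv_lhs => rw [stokes_basis b]
    simp only [map_add, map_smul]
  rw [ha, hb]
  simp only [inner_add_left, inner_add_right, real_inner_smul_left, real_inner_smul_right]
  ring

theorem stokes_w_cr (L M : E →L[ℝ] E) (a b : E) : stokes_w L M (cr a b) = stokes_om L M a b := by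
  have h0 : cr a b 0 = a 1 * b 2 - a 2 * b 1 := rfl
  have h1 : cr a b 1 = a 2 * b 0 - a 0 * b 2 := rfl
  have h2 : cr a b 2 = a 0 * b 1 - a 1 * b 0 := rfl
  unfold stokes_w stokes_om
  rw [h0, h1, h2, stokes_inner L M a b, stokes_inner L M b a]
  ring

theorem stokes_w_smul (L M : E →L[ℝ] E) (t : ℝ) (c : E) :
    stokes_w L M (t • c) = t * stokes_w L M c := by
  unfold stokes_w
  simp only [PiLp.smul_apply, smul_eq_mul]
  ring

/-- Gauss curvature -/
def Surf.stokes_K (X : Surf) (q : E) : ℝ := ⟪X.nu q, cof (fderiv ℝ X.nu q) (X.nu q)⟫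

/-- density with respect to the curvature measure -/
def Surf.stokes_j (X : Surf) (f g : E → E) (q : E) : ℝ :=
  stokes_w (fderiv ℝ f q) (fderiv ℝ g q) (X.nu q) / X.stokes_K q

theorem stokes_pd {X : Surf} {f : E → E} (hf : X.Sm f) (R : Rot) (i : Fin 2) (x : P) :
    pd i (fun y => f (X.psi R y)) x = fderiv ℝ f (X.psi R x) (pd i (X.psi R) x) := by
  have h1 : DifferentiableAt ℝ f (X.psi R x) :=
    (hf _ (X.psi_mem R x)).differentiableAt (by simp)
  have h2 : DifferentiableAt ℝ (X.psi R) x := ((X.sm_psi R).differentiable (by simp)) x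
  unfold pd
  have h3 : fderiv ℝ (fun y => f (X.psi R y)) x
      = (fderiv ℝ f (X.psi R x)).comp (fderiv ℝ (X.psi R) x) :=
    (h1.hasFDerivAt.comp x h2.hasFDerivAt).fderiv
  rw [h3]
  rfl

theorem stokes_nv (X : Surf) (R : Rot) (x : P) :
    cr (pd 0 (X.psi R) x) (pd 1 (X.psi R) x) = sq (X.psi R) x • X.nu (X.psi R x) := by
  rw [← X.un_psi R x]
  exact (X.imm_psi R).nv_eq x

theorem stokes_ka (X : Surf) (R : Rot) (x : P) :
    X.ka R x = sq (X.psi R) x * X.stokes_K (X.psi R x) := by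
  have hu : un (X.psi R) = fun y => X.nu (X.psi R y) := funext (X.un_psi R)
  have hs : X.Sm X.nu := X.nu_smooth
  unfold Surf.ka kap Surf.stokes_K
  rw [hu, stokes_pd hs R 0 x, stokes_pd hs R 1 x, ← cof_cr, stokes_nv, cof_smul,
    real_inner_smul_right]

theorem stokes_K_pos (X : Surf) {q : E} (hq : q ∈ X.S) : 0 < X.stokes_K q := by
  obtain ⟨R, hR⟩ := X.exists_chart hq
  have h1 := X.ka_pos R 0
  rw [stokes_ka, hR] at h1
  exact (mul_pos_iff_of_pos_left ((X.imm_psi R).sq_pos 0)).1 h1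

theorem stokes_JJ {X : Surf} {f g : E → E} (hf : X.Sm f) (hg : X.Sm g) (R : Rot) (x : P) :
    JJ (fun y => f (X.psi R y)) (fun y => g (X.psi R y)) x
      = X.stokes_j f g (X.psi R x) * X.ka R x := by
  have hK := (stokes_K_pos X (X.psi_mem R x)).ne'
  have h1 : JJ (fun y => f (X.psi R y)) (fun y => g (X.psi R y)) x
      = stokes_om (fderiv ℝ f (X.psi R x)) (fderiv ℝ g (X.psi R x))
        (pd 0 (X.psi R) x) (pd 1 (X.psi R) x) := by
    unfold JJ stokes_om
    rw [stokes_pd hf, stokes_pd hf, stokes_pd hg, stokes_pd hg]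
  rw [h1, ← stokes_w_cr, stokes_nv, stokes_w_smul, stokes_ka]
  unfold Surf.stokes_j
  field_simp

theorem stokes_cont_fderiv {X : Surf} {f : E → E} (hf : X.Sm f) {q : E} (hq : q ∈ X.S) :
    ContinuousAt (fderiv ℝ f) q :=
  ((hf q hq).fderiv_right (m := 0) (by simp)).continuousAt

theorem stokes_cont_j {X : Surf} {f g : E → E} (hf : X.Sm f) (hg : X.Sm g) :
    ContinuousOn (X.stokes_j f g) X.S := by
  intro q hq
  apply ContinuousAt.continuousWithinAt
  have hn : ContinuousAt X.nu q := (X.nu_smooth q hq).continuousAt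
  have hDn : ContinuousAt (fderiv ℝ X.nu) q := stokes_cont_fderiv (f := X.nu) X.nu_smooth hq
  have hDf := stokes_cont_fderiv hf hq
  have hDg := stokes_cont_fderiv hg hq
  have hc : ContinuousAt (fun z => cof (fderiv ℝ X.nu z) (X.nu z)) q :=
    ContinuousAt.comp (g := fun x : (E →L[ℝ] E) × E => cof x.1 x.2)
      (f := fun z => (fderiv ℝ X.nu z, X.nu z)) contDiff_cof.continuous.continuousAt
      (hDn.prodMk hn)
  have hK : ContinuousAt X.stokes_K q := hn.inner hc
  have hom : ∀ a b : E,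
      ContinuousAt (fun z => stokes_om (fderiv ℝ f z) (fderiv ℝ g z) a b) q := fun a b =>
    ((hDf.clm_apply continuousAt_const).inner (hDg.clm_apply continuousAt_const)).sub
      ((hDf.clm_apply continuousAt_const).inner (hDg.clm_apply continuousAt_const))
  have hk : ∀ k : Fin 3, ContinuousAt (fun z => X.nu z k) q := fun k =>
    ContinuousAt.comp (g := fun y : E => y k) (f := X.nu)
      (EuclideanSpace.proj (𝕜 := ℝ) k).continuous.continuousAt hn
  have hw : ContinuousAt (fun z => stokes_w (fderiv ℝ f z) (fderiv ℝ g z) (X.nu z)) q :=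
    (((hk 0).mul (hom _ _)).add ((hk 1).mul (hom _ _))).add ((hk 2).mul (hom _ _))
  exact hw.div hK (stokes_K_pos X hq).ne'

theorem stokes_sm {X : Surf} (U : Pou X) {f : E → E} (hf : X.Sm f) (a : Fin U.k) :
    X.Sm (fun q => U.chi a q • f q) := fun q hq => (U.smooth a).contDiffAt.smul (hf q hq)

theorem stokes_split {X : Surf} (U : Pou X) {f g : E → E} (hf : X.Sm f) (hg : X.Sm g) {q : E}
    (hq : q ∈ X.S) : X.stokes_j f g q = ∑ a, X.stokes_j (fun z => U.chi a z • f z) g q := by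
  obtain ⟨R, hR⟩ := X.exists_chart hq
  have hka := (X.ka_pos R 0).ne'
  have hsum : (fun y => f (X.psi R y)) = fun y => ∑ a, U.chi a (X.psi R y) • f (X.psi R y) := by
    funext y
    rw [← Finset.sum_smul, U.sum_eq _ (X.psi_mem R y), one_smul]
  have hpd : ∀ i, pd i (fun y => f (X.psi R y)) 0
      = ∑ a, pd i (fun y => U.chi a (X.psi R y) • f (X.psi R y)) 0 := by
    intro i
    have hd : ∀ a ∈ (Finset.univ : Finset (Fin U.k)),
        DifferentiableAt ℝ (fun y => U.chi a (X.psi R y) • f (X.psi R y)) 0 := fun a _ =>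
      (((stokes_sm U hf a).comp R).differentiable (by simp)) 0
    unfold pd
    conv_lhs => rw [hsum]
    rw [fderiv_fun_sum hd, _root_.sum_apply]
  apply mul_right_cancel₀ hka
  rw [Finset.sum_mul, ← hR, ← stokes_JJ hf hg R 0]
  have h2 : ∀ a ∈ (Finset.univ : Finset (Fin U.k)),
      X.stokes_j (fun z => U.chi a z • f z) g (X.psi R 0) * X.ka R 0
        = ⟪pd 0 (fun y => U.chi a (X.psi R y) • f (X.psi R y)) 0, pd 1 (fun y => g (X.psi R y)) 0⟫
          - ⟪pd 1 (fun y => U.chi a (X.psi R y) • f (X.psi R y)) 0,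
            pd 0 (fun y => g (X.psi R y)) 0⟫ := fun a _ =>
    (stokes_JJ (stokes_sm U hf a) hg R 0).symm
  rw [Finset.sum_congr rfl h2, Finset.sum_sub_distrib, ← sum_inner, ← sum_inner, ← hpd, ← hpd]
  rfl

theorem stokes_off {X : Surf} (U : Pou X) {f g : E → E} (hf : X.Sm f) (hg : X.Sm g) (a : Fin U.k)
    {q : E} (hq : q ∈ X.S) (hn : q ∉ range (X.psi (U.R a))) :
    X.stokes_j (fun z => U.chi a z • f z) g q = 0 := by
  obtain ⟨R, hR⟩ := X.exists_chart hq
  have hka := (X.ka_pos R 0).ne'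
  have hC : IsClosed (X.psi (U.R a) '' closedBall (0 : P) U.rho) :=
    ((isCompact_closedBall _ _).image (X.sm_psi _).continuous).isClosed
  have hq' : X.psi R 0 ∈ (X.psi (U.R a) '' closedBall (0 : P) U.rho)ᶜ := by
    rw [hR]
    exact fun h => hn (image_subset_range _ _ h)
  have hev : ∀ᶠ y in 𝓝 (0 : P), X.psi R y ∈ (X.psi (U.R a) '' closedBall (0 : P) U.rho)ᶜ :=
    (X.sm_psi R).continuous.continuousAt.eventually_mem (hC.isOpen_compl.mem_nhds hq')
  have h0 : (fun y => U.chi a (X.psi R y) • f (X.psi R y)) =ᶠ[𝓝 (0 : P)] fun _ => (0 : E) := by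
    filter_upwards [hev] with y hy
    have : U.chi a (X.psi R y) = 0 := by
      by_contra h
      obtain ⟨x, hx, hxe⟩ := U.supp a _ (X.psi_mem R y) h
      exact hy ⟨x, hx, hxe.symm⟩
    rw [this, zero_smul]
  have hpd : ∀ i, pd i (fun y => U.chi a (X.psi R y) • f (X.psi R y)) 0 = 0 := by
    intro i
    unfold pd
    rw [h0.fderiv_eq]
    simp
  have h1 := stokes_JJ (stokes_sm U hf a) hg R 0
  have h2 : JJ (fun y => U.chi a (X.psi R y) • f (X.psi R y)) (fun y => g (X.psi R y)) 0 = 0 := by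
    unfold JJ
    rw [hpd, hpd, inner_zero_left, inner_zero_left, sub_zero]
  rw [hR] at h1
  exact (mul_eq_zero.1 (h1.symm.trans h2)).resolve_right hka

theorem stokes_piece {X : Surf} (U : Pou X) {f g : E → E} (hf : X.Sm f) (hg : X.Sm g)
    (a : Fin U.k) : ∫ q, X.stokes_j (fun z => U.chi a z • f z) g q ∂X.mu = 0 := by
  rw [X.integral_mu (U.R a) (stokes_cont_j (stokes_sm U hf a) hg)
    (fun q hq hn => stokes_off U hf hg a hq hn)]
  have hc : HasCompactSupport
      (fun x => U.chi a (X.psi (U.R a) x) • f (X.psi (U.R a) x)) :=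
    (U.cs a).smul_right
  rw [← integral_JJ ((stokes_sm U hf a).comp (U.R a)) hc (hg.comp (U.R a))]
  exact integral_congr_ae (Eventually.of_forall fun x =>
    (stokes_JJ (stokes_sm U hf a) hg (U.R a) x).symm)

/-- Stokes theorem on the closed surface -/
theorem Pou.stokes {X : Surf} (U : Pou X) {f g : E → E} (hf : X.Sm f) (hg : X.Sm g) :
    U.II (fun a => JJ (fun x => f (X.psi (U.R a) x)) (fun x => g (X.psi (U.R a) x))) = 0 := by
  have hj := stokes_cont_j hf hg
  have hS : ∀ᵐ q ∂X.mu, q ∈ X.S := mem_ae_iff.2 X.mu_compl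
  have hcj : ∀ a, ContinuousOn (fun q => U.chi a q * X.stokes_j f g q) X.S := fun a =>
    (U.smooth a).continuous.continuousOn.mul hj
  have h1 : ∀ a ∈ (Finset.univ : Finset (Fin U.k)),
      ∫ x, U.chi a (X.psi (U.R a) x)
          * JJ (fun x => f (X.psi (U.R a) x)) (fun x => g (X.psi (U.R a) x)) x
        = ∫ q, U.chi a q * X.stokes_j f g q ∂X.mu := by
    intro a _
    rw [X.integral_mu (U.R a) (hcj a)]
    · refine integral_congr_ae (Eventually.of_forall fun x => ?_)
      simp only []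
      rw [stokes_JJ hf hg, mul_assoc]
    · intro q hq hn
      have : U.chi a q = 0 := by
        by_contra h
        obtain ⟨x, _, hxe⟩ := U.supp a _ hq h
        exact hn ⟨x, hxe.symm⟩
      simp only [this, zero_mul]
  unfold Pou.II
  rw [Finset.sum_congr rfl h1, ← integral_finsetSum _ (fun a _ => X.integrable_mu (hcj a))]
  have h2 : ∫ q, ∑ a, U.chi a q * X.stokes_j f g q ∂X.mu
      = ∫ q, ∑ a, X.stokes_j (fun z => U.chi a z • f z) g q ∂X.mu := by
    refine integral_congr_ae ?_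
    filter_upwards [hS] with q hq
    rw [← Finset.sum_mul, U.sum_eq q hq, one_mul, stokes_split U hf hg hq]
  rw [h2, integral_finsetSum _
    (fun a _ => X.integrable_mu (stokes_cont_j (stokes_sm U hf a) hg))]
  exact Finset.sum_eq_zero fun a _ => stokes_piece U hf hg a

end Pool.Agent.Bor
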