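import Pool.Agent.P.MP_26ecb7_gt.CConv
import Pool.Agent.P.MP_26ecb7_gt.Stokes

noncomputable section
open Set Filter Topology MeasureTheory Metric
open scoped RealInnerProductSpace ContDiff ENNReal

namespace Pool.Agent.Bor

/-- support functions in a chart -/
def Surf.hu (X : Surf) (R : Rot) (x : P) : ℝ := ⟪X.psi R x - X.o, un (X.psi R) x⟫
def hs (w : P → E) (x : P) : ℝ := ⟪w x, un w x⟫

variable {X : Surf} {I : Iso X} (U : Pou X)

theorem Surf.hu_pos (X : Surf) (R : Rot) (x : P) : 0 < X.hu R x := by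
  unfold Surf.hu
  rw [X.un_psi, real_inner_comm]
  exact X.pos _ (X.psi_mem R x)
theorem Surf.continuous_hu (X : Surf) (R : Rot) : Continuous (X.hu R) :=
  ((X.sm_psi R).continuous.sub continuous_const).inner (X.imm_psi R).sm_un.continuous
theorem Imm.sm_hs {w : P → E} (hw : Imm w) : ContDiff ℝ ∞ (hs w) :=
  hw.1.inner ℝ hw.sm_un

theorem hergA0_cont {w : P → E} (hw : Imm w) :
    Continuous (fun x => mx (at2 (gm w) x) (at2 (sf w) x) / sq w x) := by
  have hg := fun i j => (hw.sm_gm i j).continuous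
  have hf := fun i j => (hw.sm_sf i j).continuous
  refine Continuous.div ?_ hw.sm_sq.continuous (fun x => (hw.sq_pos x).ne')
  exact ((((hg 0 0).mul (hf 1 1)).add ((hg 1 1).mul (hf 0 0))).sub ((hg 0 1).mul (hf 1 0))).sub
    ((hg 1 0).mul (hf 0 1))

theorem hergA0_gen (w : Fin U.k → P → E) (hw : ∀ a, Imm (w a)) (c : E)
    (h : U.II (fun a => JJ (fun y => cr (w a y - c) (un (w a) y)) (un (w a))) = 0) :
    U.II (fun a x => mx (at2 (gm (w a)) x) (at2 (sf (w a)) x) / sq (w a) x) =
      U.II (fun a x => 2 * ⟪w a x - c, un (w a) x⟫ * kap (un (w a)) x) := by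
  have h1 : (fun a => JJ (fun y => cr (w a y - c) (un (w a) y)) (un (w a))) =
      fun a x => 2 * ⟪w a x - c, un (w a) x⟫ * kap (un (w a)) x
        - mx (at2 (gm (w a)) x) (at2 (sf (w a)) x) / sq (w a) x := by
    funext a x
    have hd : DifferentiableAt ℝ (fun y => w a y - c) x :=
      (((hw a).1.differentiable (by simp)) x).sub_const c
    rw [(hw a).JJ_cr hd]
    have h2 : (fun i j => ⟪pd i (fun y => w a y - c) x, pd j (w a) x⟫) = at2 (gm (w a)) x := by
      funext i j
      simp only [at2, gm, pd, fderiv_sub_const]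
    rw [h2]
    ring
  have hc : ∀ a, Continuous (fun x => 2 * ⟪w a x - c, un (w a) x⟫ * kap (un (w a)) x) := fun a =>
    (continuous_const.mul (((hw a).1.continuous.sub continuous_const).inner
      (hw a).sm_un.continuous)).mul (hw a).sm_kap.continuous
  rw [h1, U.II_sub hc (fun a => hergA0_cont (hw a))] at h
  exact (sub_eq_zero.mp h).symm

/-- Minkowski formula for the surface -/
theorem Pou.mink0 : U.II (fun a x => mx (at2 (gm (X.psi (U.R a))) x) (at2 (sf (X.psi (U.R a))) x)
    / sq (X.psi (U.R a)) x) = U.II (fun a x => 2 * X.hu (U.R a) x * X.ka (U.R a) x) := by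
  refine hergA0_gen U (fun a => X.psi (U.R a)) (fun a => X.imm_psi _) X.o ?_
  have hf : X.Sm (fun q => cr (q - X.o) (X.nu q)) := fun q hq =>
    contDiff_cr (contDiffAt_id.sub contDiffAt_const) (X.nu_smooth q hq)
  have h := U.stokes hf X.nu_smooth
  have hu : ∀ a, un (X.psi (U.R a)) = fun x => X.nu (X.psi (U.R a) x) := fun a =>
    funext (X.un_psi _)
  simp only [hu]
  exact h

/-- Minkowski formula for the approximations -/
theorem Pou.mink (A : Appr I) (n : ℕ) :
    U.II (fun a x => mx (at2 (gm (A.w (U.R a) n)) x) (at2 (sf (A.w (U.R a) n)) x)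
      / sq (A.w (U.R a) n) x) =
    U.II (fun a x => 2 * hs (A.w (U.R a) n) x * kap (un (A.w (U.R a) n)) x) := by
  have hf : X.Sm (fun q => cr (A.W n q - 0) (X.NW (A.W n) q)) := fun q hq =>
    contDiff_cr ((A.sm_W n q hq).sub contDiffAt_const) (A.sm_NW n q hq)
  have h := U.stokes hf (A.sm_NW n)
  have hu : ∀ a, un (A.w (U.R a) n) = fun x => X.NW (A.W n) (X.psi (U.R a) x) := fun a =>
    funext (A.un_w _ n)
  have h2 := hergA0_gen U (fun a => A.w (U.R a) n) (fun a => A.imm_w _ n) 0
    (by simp only [hu]; exact h)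
  simpa only [sub_zero, hs] using h2


end Pool.Agent.Bor
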