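import Pool.Agent.P.MP_26ecb7_gt.HergB0

noncomputable section
open Set Filter Topology MeasureTheory Metric
open scoped RealInnerProductSpace ContDiff ENNReal

namespace Pool.Agent.Bor

variable {X : Surf} {I : Iso X} (U : Pou X)

theorem hergb_pd_hs {w : P → E} (hw : Imm w) (i : Fin 2) (x : P) :
    pd i (hs w) x = ∑ k, ∑ l, gi w k l x * ⟪w x, pd k w x⟫ * sf w i l x := by
  have d1 : DifferentiableAt ℝ w x := (hw.1.differentiable (by simp)) x
  have d2 : DifferentiableAt ℝ (un w) x := (hw.sm_un.differentiable (by simp)) x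
  have h := pd_inner d1 d2 i
  have e1 : ⟪pd i w x, un w x⟫ = 0 := by rw [real_inner_comm]; exact un_pd w i x
  have e2 : ⟪pd i (un w) x, un w x⟫ = 0 := by rw [real_inner_comm]; exact hw.un_pd_un i x
  rw [e1, zero_add, hw.inner_exp x (w x) (pd i (un w) x), e2, mul_zero, zero_add] at h
  exact h

theorem hergb_bound {K : Set P} (hK : IsCompact K) {f : ℕ → P → ℝ} {f0 : P → ℝ}
    (hf : TendstoUniformlyOn f f0 atTop K) (c : Continuous f0) :
    ∃ G : ℝ, 0 ≤ G ∧ ∀ᶠ n in atTop, ∀ x ∈ K, |f n x| ≤ G := by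
  obtain ⟨B, hB⟩ := hK.exists_bound_of_continuousOn c.continuousOn
  refine ⟨|B| + 1, by positivity, ?_⟩
  filter_upwards [Metric.tendstoUniformlyOn_iff.1 hf 1 one_pos] with n hn x hx
  have h1 := hn x hx
  have h2 := hB x hx
  rw [Real.dist_eq] at h1
  rw [Real.norm_eq_abs] at h2
  have h3 := le_abs_self B
  have h4 := abs_sub_abs_le_abs_sub (f n x) (f0 x)
  rw [abs_sub_comm] at h4
  linarith

theorem hergb_hs (A : Appr I) (R : Rot) {K : Set P} (hK : IsCompact K) :
    ∃ M : ℝ, 0 ≤ M ∧ ∀ᶠ n in atTop, ∀ x ∈ K, |hs (A.w R n) x| ≤ M ∧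
      |pd 0 (hs (A.w R n)) x| + |pd 1 (hs (A.w R n)) x| ≤ M * ab (at2 (sf (A.w R n)) x) := by
  obtain ⟨C0, hC0, hW⟩ := A.bound_W
  have hG := fun i j => hergb_bound hK (A.gi_conv R hK i j) ((X.imm_psi R).sm_gi i j).continuous
  choose G hG0 hG using hG
  have hP := fun i => hK.exists_bound_of_continuousOn
    (contDiff_pd (X.sm_psi R) i).continuous.continuousOn
  choose Q hQ using hP
  set G' := ∑ i, ∑ j, G i j with hG'
  set Q' := ∑ i, |Q i| with hQ'
  have hGle : ∀ i j, G i j ≤ G' := fun i j =>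
    (Finset.single_le_sum (f := G i) (fun j _ => hG0 i j) (Finset.mem_univ j)).trans
      (Finset.single_le_sum (f := fun i => ∑ j, G i j)
        (fun i _ => Finset.sum_nonneg fun j _ => hG0 i j) (Finset.mem_univ i))
  have hQle : ∀ i, Q i ≤ Q' := fun i => (le_abs_self _).trans
    (Finset.single_le_sum (f := fun i => |Q i|) (fun i _ => abs_nonneg _) (Finset.mem_univ i))
  have hG'0 : 0 ≤ G' := (hG0 0 0).trans (hGle 0 0)
  have hQ'0 : 0 ≤ Q' := Finset.sum_nonneg fun i _ => abs_nonneg _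
  refine ⟨C0 + 2 * (G' * (C0 * (C0 * Q'))), by positivity, ?_⟩
  have hGa : ∀ᶠ n in atTop, ∀ i j, ∀ x ∈ K, |gi (A.w R n) i j x| ≤ G i j :=
    eventually_all.2 fun i => eventually_all.2 fun j => hG i j
  filter_upwards [hW, hGa] with n hn hg x hx
  have hw := A.imm_w R n
  have hm : X.psi R x ∈ thickening A.tau X.S := self_subset_thickening A.tau_pos _ (X.psi_mem R x)
  have b1 : ‖A.w R n x‖ ≤ C0 := (hn _ hm).1
  have b2 : ∀ k, ‖pd k (A.w R n) x‖ ≤ C0 * Q' := fun k => by
    rw [A.pd_w]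
    exact (ContinuousLinearMap.le_opNorm _ _).trans
      (mul_le_mul (hn _ hm).2 ((hQ k x hx).trans (hQle k)) (norm_nonneg _) hC0)
  have b3 : ∀ k l, |gi (A.w R n) k l x * ⟪A.w R n x, pd k (A.w R n) x⟫| ≤
      G' * (C0 * (C0 * Q')) := fun k l => by
    rw [abs_mul]
    refine mul_le_mul ((hg k l x hx).trans (hGle k l)) ?_ (abs_nonneg _) hG'0
    exact (abs_real_inner_le_norm _ _).trans (mul_le_mul b1 (b2 k) (norm_nonneg _) hC0)
  set T := G' * (C0 * (C0 * Q')) with hT
  have hT0 : 0 ≤ T := by positivity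
  have b4 : ∀ i, |pd i (hs (A.w R n)) x| ≤
      2 * T * (|sf (A.w R n) i 0 x| + |sf (A.w R n) i 1 x|) := fun i => by
    have b5 : ∀ k l, |gi (A.w R n) k l x * ⟪A.w R n x, pd k (A.w R n) x⟫ * sf (A.w R n) i l x| ≤
        T * |sf (A.w R n) i l x| := fun k l => by
      rw [abs_mul]
      exact mul_le_mul_of_nonneg_right (b3 k l) (abs_nonneg _)
    rw [hergb_pd_hs hw]
    simp only [Fin.sum_univ_two]
    have := abs_le.1 (b5 0 0)
    have := abs_le.1 (b5 0 1)
    have := abs_le.1 (b5 1 0)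
    have := abs_le.1 (b5 1 1)
    rw [abs_le]
    constructor <;> linarith
  constructor
  · have := abs_real_inner_le_norm (A.w R n x) (un (A.w R n) x)
    rw [hw.norm_un, mul_one] at this
    unfold hs
    linarith
  · have h0 := b4 0
    have h1 := b4 1
    have h2 : 0 ≤ C0 * ab (at2 (sf (A.w R n)) x) := by unfold ab; positivity
    simp only [ab, at2] at h2 ⊢
    linarith

theorem hergb_pd_mul {f g : P → ℝ} {x : P} (hf : DifferentiableAt ℝ f x)
    (hg : DifferentiableAt ℝ g x) (i : Fin 2) :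
    pd i (fun y => f y * g y) x = pd i f x * g x + f x * pd i g x := by
  unfold pd
  rw [fderiv_fun_mul hf hg]
  simp only [ContinuousLinearMap.add_apply, ContinuousLinearMap.smul_apply, smul_eq_mul]
  ring

theorem hergb_pd_sub {f g : P → ℝ} {x : P} (hf : DifferentiableAt ℝ f x)
    (hg : DifferentiableAt ℝ g x) (i : Fin 2) :
    pd i (fun y => f y - g y) x = pd i f x - pd i g x := by
  unfold pd
  rw [fderiv_fun_sub hf hg]
  rfl

theorem hergb_ab {w : P → E} (hw : Imm w) : Continuous fun x => ab (at2 (sf w) x) := by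
  have := fun i j => (hw.sm_sf i j).continuous
  unfold ab at2
  exact ((((this 0 0).abs.add (this 0 1).abs).add (this 1 0).abs).add (this 1 1).abs)

theorem hergb_chart (A : Appr I) (a : Fin U.k) {C : ℝ}
    (hC : ∀ᶠ n in atTop, ∫ x, U.chi a (X.psi (U.R a) x) * ab (at2 (sf (A.w (U.R a) n)) x) ≤ C) :
    Tendsto (fun n => ∫ x, U.chi a (X.psi (U.R a) x) * (hs (A.w (U.R a) n) x *
      (kap (un (A.w (U.R a) n)) x - X.ka (U.R a) x))) atTop (𝓝 0) := by
  set R := U.R a with hR
  set χ : P → ℝ := fun x => U.chi a (X.psi R x) with hχ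
  have hK : IsCompact (closedBall (0 : P) U.rho) := isCompact_closedBall _ _
  have sχ : ContDiff ℝ ∞ χ := U.sm a
  have cχ : HasCompactSupport χ := U.cs a
  have dχ : Differentiable ℝ χ := sχ.differentiable (by simp)
  have zχ : ∀ x, x ∉ closedBall (0 : P) U.rho → χ x = 0 := fun x hx => U.eq_zero a hx
  have zd : ∀ i x, x ∉ closedBall (0 : P) U.rho → pd i χ x = 0 := fun i x hx => by
    have h : χ =ᶠ[𝓝 x] fun _ => 0 := by
      filter_upwards [isClosed_closedBall.isOpen_compl.mem_nhds hx] with y hy using zχ y hy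
    unfold pd
    rw [h.fderiv_eq]
    simp
  have iχ : ∀ i, Integrable fun x => |pd i χ x| := fun i =>
    ((contDiff_pd sχ i).continuous.integrable_of_hasCompactSupport
      (HasCompactSupport.intro hK (zd i))).abs
  obtain ⟨M, hM0, hM⟩ := hergb_hs A R hK
  set J := ∫ x, (|pd 0 χ x| + |pd 1 χ x|) with hJ
  have hJ0 : 0 ≤ J := integral_nonneg fun x => by positivity
  have hψ := X.imm_psi R
  rw [Metric.tendsto_nhds]
  intro ε hε
  set θ := ε / (M * J + M * |C| + 1) with hθ
  have hD : 0 < M * J + M * |C| + 1 := by positivity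
  have hθ0 : 0 < θ := div_pos hε hD
  have ho : ∀ᶠ n in atTop, ∀ i, ∀ x ∈ closedBall (0 : P) U.rho,
      dist (om (X.psi R) i x) (om (A.w R n) i x) < θ :=
    eventually_all.2 fun i => Metric.tendstoUniformlyOn_iff.1 (A.om_conv R hK i) θ hθ0
  filter_upwards [hM, hC, ho] with n hn hc ho
  have hw := A.imm_w R n
  have sh := hw.sm_hs
  have dh : Differentiable ℝ (hs (A.w R n)) := sh.differentiable (by simp)
  have so : ∀ i, ContDiff ℝ ∞ fun x => om (A.w R n) i x - om (X.psi R) i x := fun i =>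
    (hw.sm_om i).sub (hψ.sm_om i)
  have bp := by_parts (f := fun x => χ x * hs (A.w R n) x) ((sχ.mul sh).of_le (by simp))
    cχ.mul_right ((so 0).of_le (by simp)) ((so 1).of_le (by simp))
  have e : ∀ x, χ x * (hs (A.w R n) x * (kap (un (A.w R n)) x - X.ka R x)) =
      χ x * hs (A.w R n) x * (pd 1 (fun x => om (A.w R n) 0 x - om (X.psi R) 0 x) x
        - pd 0 (fun x => om (A.w R n) 1 x - om (X.psi R) 1 x) x) := fun x => by
    rw [hergb_pd_sub ((hw.sm_om 0).differentiable (by simp) x)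
        ((hψ.sm_om 0).differentiable (by simp) x),
      hergb_pd_sub ((hw.sm_om 1).differentiable (by simp) x)
        ((hψ.sm_om 1).differentiable (by simp) x), Surf.ka, hw.gauss, hψ.gauss]
    ring
  have i2 : Integrable fun x => χ x * ab (at2 (sf (A.w R n)) x) := U.integrable a (hergb_ab hw)
  have i1 : Integrable fun x => |pd 0 χ x| + |pd 1 χ x| := (iχ 0).add (iχ 1)
  have key : ‖∫ x, (pd 0 (fun x => χ x * hs (A.w R n) x) x *
        (om (A.w R n) 1 x - om (X.psi R) 1 x) -
      pd 1 (fun x => χ x * hs (A.w R n) x) x * (om (A.w R n) 0 x - om (X.psi R) 0 x))‖ ≤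
      ∫ x, θ * (M * (|pd 0 χ x| + |pd 1 χ x|) + M * (χ x * ab (at2 (sf (A.w R n)) x))) := by
    refine norm_integral_le_of_norm_le (((i1.const_mul M).add (i2.const_mul M)).const_mul θ)
      (Eventually.of_forall fun x => ?_)
    rw [hergb_pd_mul (dχ x) (dh x), hergb_pd_mul (dχ x) (dh x), Real.norm_eq_abs]
    by_cases hx : x ∈ closedBall (0 : P) U.rho
    swap
    · simp [zχ x hx, zd _ x hx]
    have hχ0 : 0 ≤ χ x := U.nonneg a _
    have t : ∀ i j, |(pd i χ x * hs (A.w R n) x + χ x * pd i (hs (A.w R n)) x) *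
        (om (A.w R n) j x - om (X.psi R) j x)| ≤
        θ * (M * |pd i χ x| + χ x * |pd i (hs (A.w R n)) x|) := fun i j => by
      have o1 := ho j x hx
      rw [Real.dist_eq, abs_sub_comm] at o1
      rw [abs_mul, mul_comm]
      refine mul_le_mul o1.le ((abs_add_le _ _).trans ?_) (abs_nonneg _) hθ0.le
      rw [abs_mul, abs_mul, abs_of_nonneg hχ0, mul_comm]
      exact add_le_add (mul_le_mul_of_nonneg_right (hn x hx).1 (abs_nonneg _)) le_rfl
    have t2 := mul_le_mul_of_nonneg_left (mul_le_mul_of_nonneg_left (hn x hx).2 hχ0) hθ0.le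
    have t3 := (abs_sub _ _).trans (add_le_add (t 0 1) (t 1 0))
    linarith
  rw [integral_const_mul, integral_add (i1.const_mul M) (i2.const_mul M), integral_const_mul,
    integral_const_mul, ← bp] at key
  rw [dist_zero_right]
  change ‖∫ x, χ x * (hs (A.w R n) x * (kap (un (A.w R n)) x - X.ka R x))‖ < ε
  simp only [e]
  refine key.trans_lt ?_
  have c1 : M * ∫ x, χ x * ab (at2 (sf (A.w R n)) x) ≤ M * |C| :=
    mul_le_mul_of_nonneg_left (le_trans hc (le_abs_self C)) hM0
  have c2 : θ * (M * J + M * |C| + 1) = ε := div_mul_cancel₀ _ hD.ne'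
  have c3 := mul_le_mul_of_nonneg_left c1 hθ0.le
  rw [← hJ]
  linarith

/-- weak Gauss equation tested with the support function -/
theorem Pou.gauss_lim (A : Appr I) {C : ℝ}
    (hC : ∀ᶠ n in atTop, U.II (fun a x => ab (at2 (sf (A.w (U.R a) n)) x)) ≤ C) :
    Tendsto (fun n => U.II (fun a x => hs (A.w (U.R a) n) x *
      (kap (un (A.w (U.R a) n)) x - X.ka (U.R a) x))) atTop (𝓝 0) := by
  have h := tendsto_finset_sum (Finset.univ : Finset (Fin U.k)) fun a _ =>
    hergb_chart U A a (C := C) (by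
      filter_upwards [hC] with n hn
      refine le_trans ?_ hn
      exact Finset.single_le_sum (f := fun a => ∫ x, U.chi a (X.psi (U.R a) x) *
        ab (at2 (sf (A.w (U.R a) n)) x)) (fun b _ => integral_nonneg fun x =>
          mul_nonneg (U.nonneg b _) (by unfold ab; positivity)) (Finset.mem_univ a))
  simpa [Pou.II] using h

end Pool.Agent.Bor
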