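import Pool.Agent.P.MP_26ecb7_gt.HergA

noncomputable section
open Set Filter Topology MeasureTheory Metric
open scoped RealInnerProductSpace ContDiff ENNReal

namespace Pool.Agent.Bor

/-- tangential part of the position vector -/
def hergb0_tau (X : Surf) (q : E) : E := (q - X.o) - ⟪q - X.o, X.nu q⟫ • X.nu q

theorem hergb0_sm_tau (X : Surf) : X.Sm (hergb0_tau X) := by
  intro q hq
  have h1 : ContDiffAt ℝ ∞ (fun z : E => z - X.o) q := contDiffAt_id.sub contDiffAt_const
  exact h1.sub ((h1.inner ℝ (X.nu_smooth q hq)).smul (X.nu_smooth q hq))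

theorem hergb0_tang (X : Surf) {q : E} (hq : q ∈ X.S) : ⟪X.nu q, hergb0_tau X q⟫ = 0 := by
  unfold hergb0_tau
  rw [inner_sub_right, real_inner_smul_right, real_inner_self_eq_norm_sq, X.nu_unit q hq,
    real_inner_comm]
  ring

theorem hergb0_pd_comp {W : E → E} {p t : P → E} {x : P} (hW : ContDiffAt ℝ ∞ W (p x))
    (hp : DifferentiableAt ℝ p x) (ht : DifferentiableAt ℝ t x) (i : Fin 2) :
    pd i (fun y => fderiv ℝ W (p y) (t y)) x =
      fderiv ℝ (fderiv ℝ W) (p x) (pd i p x) (t x) + fderiv ℝ W (p x) (pd i t x) := by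
  have h1 : DifferentiableAt ℝ (fderiv ℝ W) (p x) :=
    (hW.fderiv_right (m := ∞) (by simp)).differentiableAt (by simp)
  have h2 : HasFDerivAt (fun y => fderiv ℝ W (p y))
      ((fderiv ℝ (fderiv ℝ W) (p x)).comp (fderiv ℝ p x)) x :=
    h1.hasFDerivAt.comp x hp.hasFDerivAt
  have h3 := h2.clm_apply ht.hasFDerivAt
  unfold pd
  rw [h3.fderiv]
  simp [add_comm]

theorem hergb0_t_eq (X : Surf) (R : Rot) :
    (fun x => hergb0_tau X (X.psi R x)) =
      fun x => (X.psi R x - X.o) - X.hu R x • un (X.psi R) x := by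
  funext x
  unfold hergb0_tau Surf.hu
  rw [X.un_psi]

theorem hergb0_sm_hu (X : Surf) (R : Rot) : ContDiff ℝ ∞ (X.hu R) :=
  ((X.sm_psi R).sub contDiff_const).inner ℝ (X.imm_psi R).sm_un

/-- covariant derivative of the tangential position field -/
theorem hergb0_pd_t (X : Surf) (R : Rot) (i j : Fin 2) (x : P) :
    ⟪pd i (fun y => hergb0_tau X (X.psi R y)) x, pd j (X.psi R) x⟫ =
      gm (X.psi R) i j x - X.hu R x * sf (X.psi R) i j x := by
  rw [hergb0_t_eq]
  have h1 : DifferentiableAt ℝ (X.psi R) x := (X.sm_psi R).differentiable (by simp) x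
  have h2 : DifferentiableAt ℝ (X.hu R) x := (hergb0_sm_hu X R).differentiable (by simp) x
  have h3 : DifferentiableAt ℝ (un (X.psi R)) x :=
    (X.imm_psi R).sm_un.differentiable (by simp) x
  have h4 := (h1.hasFDerivAt.sub_const X.o).sub (h2.hasFDerivAt.smul h3.hasFDerivAt)
  have h5 : pd i (fun y => (X.psi R y - X.o) - X.hu R y • un (X.psi R) y) x =
      pd i (X.psi R) x - (X.hu R x • pd i (un (X.psi R)) x
        + pd i (X.hu R) x • un (X.psi R) x) := by
    unfold pd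
    have h6 : fderiv ℝ (fun y => (X.psi R y - X.o) - X.hu R y • un (X.psi R) y) x = _ :=
      h4.fderiv
    rw [h6]
    simp
  rw [h5, inner_sub_left, inner_add_left, real_inner_smul_left, real_inner_smul_left, un_pd]
  unfold gm sf
  ring

/-- the same quantity through the radial projection -/
theorem hergb0_pr (X : Surf) (R : Rot) (i j : Fin 2) (x : P) :
    gm (X.psi R) i j x - X.hu R x * sf (X.psi R) i j x =
      chr X.pr (X.psi R x) (pd i (X.psi R) x) (hergb0_tau X (X.psi R x)) (pd j (X.psi R) x)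
        + ⟪fderiv ℝ X.pr (X.psi R x) (pd i (fun y => hergb0_tau X (X.psi R y)) x),
            fderiv ℝ X.pr (X.psi R x) (pd j (X.psi R) x)⟫ := by
  have h1 : DifferentiableAt ℝ (X.psi R) x := (X.sm_psi R).differentiable (by simp) x
  have h2 : DifferentiableAt ℝ (fun y => hergb0_tau X (X.psi R y)) x :=
    ((hergb0_sm_tau X).comp R).differentiable (by simp) x
  have h3 := hergb0_pd_comp (X.pr_smooth _ (X.ne_o (X.psi_mem R x))) h1 h2 i
  have h4 : (fun y => fderiv ℝ X.pr (X.psi R y) (hergb0_tau X (X.psi R y))) =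
      fun y => hergb0_tau X (X.psi R y) := by
    funext y
    exact X.fderiv_pr (X.psi_mem R y) (hergb0_tang X (X.psi_mem R y))
  rw [h4] at h3
  have h5 : fderiv ℝ X.pr (X.psi R x) (pd j (X.psi R) x) = pd j (X.psi R) x :=
    X.fderiv_pr (X.psi_mem R x) (X.tang_psi R j x)
  rw [← hergb0_pd_t]
  unfold chr
  rw [← inner_add_left, ← h3, h5]

variable {X : Surf} {I : Iso X}

theorem hergb0_sm_Y (A : Appr I) (n : ℕ) :
    X.Sm (fun q => fderiv ℝ (A.W n) q (hergb0_tau X q)) := by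
  intro q hq
  have h1 : ContDiff ℝ ∞ (fderiv ℝ (A.W n)) := (A.smooth n).fderiv_right (by simp)
  exact h1.contDiffAt.clm_apply (hergb0_sm_tau X q hq)

theorem hergb0_orth (A : Appr I) (R : Rot) (n : ℕ) (x : P) :
    ⟪fderiv ℝ (A.W n) (X.psi R x) (hergb0_tau X (X.psi R x)), un (A.w R n) x⟫ = 0 := by
  have h0 : ⟪hergb0_tau X (X.psi R x), un (X.psi R) x⟫ = 0 := by
    rw [X.un_psi, real_inner_comm]
    exact hergb0_tang X (X.psi_mem R x)
  have h1 := (X.imm_psi R).vec_exp x (hergb0_tau X (X.psi R x))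
  rw [h0, zero_smul, zero_add] at h1
  rw [h1, map_sum, sum_inner]
  refine Finset.sum_eq_zero fun k _ => ?_
  rw [map_smul, real_inner_smul_left, ← A.pd_w, real_inner_comm, un_pd, mul_zero]

theorem hergb0_T (A : Appr I) (R : Rot) (n : ℕ) (i j : Fin 2) (x : P) :
    ⟪pd i (fun y => fderiv ℝ (A.W n) (X.psi R y) (hergb0_tau X (X.psi R y))) x,
        pd j (A.w R n) x⟫ =
      chr (A.W n) (X.psi R x) (pd i (X.psi R) x) (hergb0_tau X (X.psi R x)) (pd j (X.psi R) x)
        + ⟪fderiv ℝ (A.W n) (X.psi R x) (pd i (fun y => hergb0_tau X (X.psi R y)) x),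
            fderiv ℝ (A.W n) (X.psi R x) (pd j (X.psi R) x)⟫ := by
  have h1 : DifferentiableAt ℝ (X.psi R) x := (X.sm_psi R).differentiable (by simp) x
  have h2 : DifferentiableAt ℝ (fun y => hergb0_tau X (X.psi R y)) x :=
    ((hergb0_sm_tau X).comp R).differentiable (by simp) x
  rw [hergb0_pd_comp (A.smooth n).contDiffAt h1 h2 i, A.pd_w, inner_add_left]
  rfl

theorem hergb0_bound {K : Set P} (hK : IsCompact K) {b : P → E} (hb : Continuous b) :
    ∃ C : ℝ, 0 < C ∧ ∀ x ∈ K, ‖b x‖ ≤ C := by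
  obtain ⟨C, hC⟩ := hK.exists_bound_of_continuousOn hb.continuousOn
  exact ⟨max C 1, lt_of_lt_of_le one_pos (le_max_right _ _),
    fun x hx => (hC x hx).trans (le_max_left _ _)⟩

theorem hergb0_thick (A : Appr I) (R : Rot) (x : P) : X.psi R x ∈ thickening A.tau X.S :=
  self_subset_thickening A.tau_pos _ (X.psi_mem R x)

theorem hergb0_conv1 (A : Appr I) (R : Rot) {K : Set P} (hK : IsCompact K) {b : P → E}
    (hb : Continuous b) :
    TendstoUniformlyOn (fun n x => fderiv ℝ (A.W n) (X.psi R x) (b x))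
      (fun x => fderiv ℝ I.V (X.psi R x) (b x)) atTop K := by
  obtain ⟨C, hC0, hC⟩ := hergb0_bound hK hb
  rw [Metric.tendstoUniformlyOn_iff]
  intro ε hε
  have h1 := Metric.tendstoUniformlyOn_iff.1 A.c1 (ε / C) (div_pos hε hC0)
  filter_upwards [h1] with n hn x hx
  have h2 := hn _ (hergb0_thick A R x)
  rw [dist_eq_norm] at h2 ⊢
  rw [← sub_apply]
  calc _ ≤ ‖fderiv ℝ I.V (X.psi R x) - fderiv ℝ (A.W n) (X.psi R x)‖ * ‖b x‖ :=
        ContinuousLinearMap.le_opNorm _ _
    _ ≤ ‖fderiv ℝ I.V (X.psi R x) - fderiv ℝ (A.W n) (X.psi R x)‖ * C :=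
        mul_le_mul_of_nonneg_left (hC x hx) (norm_nonneg _)
    _ < ε / C * C := mul_lt_mul_of_pos_right h2 hC0
    _ = ε := div_mul_cancel₀ _ hC0.ne'

theorem hergb0_cont (I : Iso X) (R : Rot) {b : P → E} (hb : Continuous b) :
    Continuous (fun x => fderiv ℝ I.V (X.psi R x) (b x)) := by
  refine Continuous.clm_apply ?_ hb
  refine continuous_iff_continuousAt.2 fun x => ?_
  have h1 : ContinuousAt (fderiv ℝ I.V) (X.psi R x) :=
    (I.V_c1 (X.ne_o (X.psi_mem R x))).continuousAt_fderiv (by simp)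
  exact h1.comp (X.sm_psi R).continuous.continuousAt

theorem hergb0_conv2 (A : Appr I) (R : Rot) {K : Set P} (hK : IsCompact K) {a b c : P → E}
    (ha : Continuous a) (hb : Continuous b) (hc : Continuous c) :
    TendstoUniformlyOn (fun n x => chr (A.W n) (X.psi R x) (a x) (b x) (c x))
      (fun x => chr X.pr (X.psi R x) (a x) (b x) (c x)) atTop K := by
  obtain ⟨Ca, hCa0, hCa⟩ := hergb0_bound hK ha
  obtain ⟨Cb, hCb0, hCb⟩ := hergb0_bound hK hb
  obtain ⟨Cc, hCc0, hCc⟩ := hergb0_bound hK hc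
  rw [Metric.tendstoUniformlyOn_iff]
  intro ε hε
  have hM : 0 < Ca * Cb * Cc := by positivity
  have hθ : 0 < ε / 2 / (Ca * Cb * Cc) := by positivity
  filter_upwards [A.c2 _ hθ] with n hn x hx
  have h2 := hn _ (hergb0_thick A R x) (a x) (b x) (c x)
  rw [dist_comm, Real.dist_eq]
  have h3 : ‖a x‖ * ‖b x‖ * ‖c x‖ ≤ Ca * Cb * Cc :=
    mul_le_mul (mul_le_mul (hCa x hx) (hCb x hx) (norm_nonneg _) hCa0.le) (hCc x hx)
      (norm_nonneg _) (by positivity)
  calc _ ≤ ε / 2 / (Ca * Cb * Cc) * ‖a x‖ * ‖b x‖ * ‖c x‖ := h2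
    _ = ε / 2 / (Ca * Cb * Cc) * (‖a x‖ * ‖b x‖ * ‖c x‖) := by ring
    _ ≤ ε / 2 / (Ca * Cb * Cc) * (Ca * Cb * Cc) := mul_le_mul_of_nonneg_left h3 hθ.le
    _ = ε / 2 := div_mul_cancel₀ _ hM.ne'
    _ < ε := by linarith

/-- the error term -/
def hergb0_e (A : Appr I) (R : Rot) (n : ℕ) (i j : Fin 2) (x : P) : ℝ :=
  ⟪pd i (fun y => fderiv ℝ (A.W n) (X.psi R y) (hergb0_tau X (X.psi R y))) x, pd j (A.w R n) x⟫
    - (gm (X.psi R) i j x - X.hu R x * sf (X.psi R) i j x)

theorem hergb0_e_cont (A : Appr I) (R : Rot) (n : ℕ) (i j : Fin 2) :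
    Continuous (hergb0_e A R n i j) := by
  have h1 := (contDiff_pd ((hergb0_sm_Y A n).comp R) i).continuous
  have h2 := (contDiff_pd (A.imm_w R n).1 j).continuous
  exact (h1.inner h2).sub (((X.imm_psi R).sm_gm i j).continuous.sub
    ((X.continuous_hu R).mul ((X.imm_psi R).sm_sf i j).continuous))

theorem hergb0_e_conv (A : Appr I) (R : Rot) {K : Set P} (hK : IsCompact K) (i j : Fin 2) :
    TendstoUniformlyOn (fun n => hergb0_e A R n i j) (fun _ => 0) atTop K := by
  have ca : ∀ k, Continuous (pd k (X.psi R)) := fun k => (contDiff_pd (X.sm_psi R) k).continuous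
  have st := (hergb0_sm_tau X).comp R
  have cb := (contDiff_pd st i).continuous
  have h1 := hergb0_conv2 A R hK (ca i) st.continuous (ca j)
  have h2 := tu_inner hK (hergb0_conv1 A R hK cb) (hergb0_conv1 A R hK (ca j))
    (hergb0_cont I R cb).continuousOn (hergb0_cont I R (ca j)).continuousOn
  have h3 := tu_sub (tu_add h1 h2)
    (tu_const (K := K) (fun x => gm (X.psi R) i j x - X.hu R x * sf (X.psi R) i j x))
  have e1 : (fun n => hergb0_e A R n i j) = fun n x =>
      chr (A.W n) (X.psi R x) (pd i (X.psi R) x) (hergb0_tau X (X.psi R x)) (pd j (X.psi R) x)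
        + ⟪fderiv ℝ (A.W n) (X.psi R x) (pd i (fun y => hergb0_tau X (X.psi R y)) x),
            fderiv ℝ (A.W n) (X.psi R x) (pd j (X.psi R) x)⟫
        - (gm (X.psi R) i j x - X.hu R x * sf (X.psi R) i j x) := by
    funext n x
    unfold hergb0_e
    rw [hergb0_T]
  rw [e1]
  refine h3.congr_right fun x _ => ?_
  show chr X.pr (X.psi R x) (pd i (X.psi R) x) (hergb0_tau X (X.psi R x)) (pd j (X.psi R) x)
        + ⟪fderiv ℝ I.V (X.psi R x) (pd i (fun y => hergb0_tau X (X.psi R y)) x),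
            fderiv ℝ I.V (X.psi R x) (pd j (X.psi R) x)⟫
        - (gm (X.psi R) i j x - X.hu R x * sf (X.psi R) i j x) = 0
  rw [I.inner_V (X.ne_o (X.psi_mem R x)), ← hergb0_pr, sub_self]

variable (U : Pou X)

/-- second Herglotz identity: Codazzi for the approximation, tested with the surface -/
theorem Pou.herg2 (A : Appr I) : ∃ e : ℕ → Fin U.k → Fin 2 → Fin 2 → P → ℝ,
    (∀ n a i j, Continuous (e n a i j)) ∧
    (∀ a i j, TendstoUniformlyOn (fun n => e n a i j) (fun _ => 0) atTop (closedBall 0 U.rho)) ∧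
    ∀ n, U.II (fun a x => mx (fun i j => gm (X.psi (U.R a)) i j x
      - X.hu (U.R a) x * sf (X.psi (U.R a)) i j x + e n a i j x)
        (at2 (sf (A.w (U.R a) n)) x) / sq (A.w (U.R a) n) x) = 0 := by
  refine ⟨fun n a i j => hergb0_e A (U.R a) n i j, fun n a i j => hergb0_e_cont A _ n i j,
    fun a i j => hergb0_e_conv A _ (isCompact_closedBall _ _) i j, fun n => ?_⟩
  have hf : X.Sm (fun q => cr (fderiv ℝ (A.W n) q (hergb0_tau X q)) (X.NW (A.W n) q)) :=
    fun q hq => contDiff_cr (hergb0_sm_Y A n q hq) (A.sm_NW n q hq)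
  have h1 := U.stokes hf (A.sm_NW n)
  have h2 := U.II_mul (-1) (fun a => JJ
    (fun x => cr (fderiv ℝ (A.W n) (X.psi (U.R a) x) (hergb0_tau X (X.psi (U.R a) x)))
      (X.NW (A.W n) (X.psi (U.R a) x))) (fun x => X.NW (A.W n) (X.psi (U.R a) x)))
  rw [h1, mul_zero] at h2
  rw [← h2]
  refine congrArg U.II (funext fun a => funext fun x => ?_)
  have e1 : (fun x => X.NW (A.W n) (X.psi (U.R a) x)) = un (A.w (U.R a) n) :=
    funext fun y => (A.un_w _ n y).symm
  have e2 : (fun x => cr (fderiv ℝ (A.W n) (X.psi (U.R a) x) (hergb0_tau X (X.psi (U.R a) x)))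
      (X.NW (A.W n) (X.psi (U.R a) x))) =
      fun x => cr (fderiv ℝ (A.W n) (X.psi (U.R a) x) (hergb0_tau X (X.psi (U.R a) x)))
        (un (A.w (U.R a) n) x) := funext fun y => by rw [A.un_w]
  have hd : DifferentiableAt ℝ
      (fun y => fderiv ℝ (A.W n) (X.psi (U.R a) y) (hergb0_tau X (X.psi (U.R a) y))) x :=
    ((hergb0_sm_Y A n).comp (U.R a)).differentiable (by simp) x
  have h3 := (A.imm_w (U.R a) n).JJ_cr hd
  rw [e1, e2, h3, hergb0_orth]
  have e3 : (fun i j => gm (X.psi (U.R a)) i j x - X.hu (U.R a) x * sf (X.psi (U.R a)) i j x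
      + hergb0_e A (U.R a) n i j x) = fun i j => ⟪pd i (fun y =>
        fderiv ℝ (A.W n) (X.psi (U.R a) y) (hergb0_tau X (X.psi (U.R a) y))) x,
          pd j (A.w (U.R a) n) x⟫ := by
    funext i j
    unfold hergb0_e
    ring
  rw [e3]
  ring

end Pool.Agent.Bor
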