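import Pool.Agent.P.MP_26ecb7_gt.HergC0

noncomputable section
open Set Filter Topology MeasureTheory Metric
open scoped RealInnerProductSpace ContDiff ENNReal

namespace Pool.Agent.Bor

variable {X : Surf} {I : Iso X} (U : Pou X)

theorem hergc_cmx {T B : Fin 2 → Fin 2 → P → ℝ} (hT : ∀ i j, Continuous (T i j))
    (hB : ∀ i j, Continuous (B i j)) :
    Continuous fun x => mx (fun i j => T i j x) (fun i j => B i j x) := by
  unfold mx
  exact ((((hT 0 0).mul (hB 1 1)).add ((hT 1 1).mul (hB 0 0))).sub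
    ((hT 0 1).mul (hB 1 0))).sub ((hT 1 0).mul (hB 0 1))

theorem hergc_cab {B : Fin 2 → Fin 2 → P → ℝ} (hB : ∀ i j, Continuous (B i j)) :
    Continuous fun x => ab (fun i j => B i j x) := by
  unfold ab
  exact ((((hB 0 0).abs.add (hB 0 1).abs).add (hB 1 0).abs).add (hB 1 1).abs)

theorem hergc_mul0 {K : Set P} (hK : IsCompact K) {f g : ℕ → P → ℝ} {g0 : P → ℝ}
    (hf : TendstoUniformlyOn f (fun _ => 0) atTop K) (hg : TendstoUniformlyOn g g0 atTop K)
    (cg : Continuous g0) :
    TendstoUniformlyOn (fun n x => f n x * g n x) (fun _ => 0) atTop K := by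
  have h := tu_mul hK hf hg continuousOn_const cg.continuousOn
  simpa using h

theorem hergc_add0 {K : Set P} {f g : ℕ → P → ℝ}
    (hf : TendstoUniformlyOn f (fun _ => 0) atTop K)
    (hg : TendstoUniformlyOn g (fun _ => 0) atTop K) :
    TendstoUniformlyOn (fun n x => f n x + g n x) (fun _ => 0) atTop K := by
  have h := tu_add hf hg
  simpa using h

theorem hergc_sub0 {K : Set P} {f : ℕ → P → ℝ} {f0 : P → ℝ}
    (hf : TendstoUniformlyOn f f0 atTop K) :
    TendstoUniformlyOn (fun n x => f0 x - f n x) (fun _ => 0) atTop K := by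
  have h := tu_sub (tu_const (K := K) f0) hf
  simpa using h

theorem hergc_D {K : Set P} (hK : IsCompact K) {h sN e gN : ℕ → P → ℝ} {hv hu A s g : P → ℝ}
    (chu : Continuous hu) (cA : Continuous A) (cs : Continuous s) (s0 : ∀ x, s x ≠ 0)
    (th : TendstoUniformlyOn h hv atTop K) (ts : TendstoUniformlyOn sN s atTop K)
    (te : TendstoUniformlyOn e (fun _ => 0) atTop K) (tg : TendstoUniformlyOn gN g atTop K) :
    TendstoUniformlyOn (fun n x => (hv x - h n x) * (A x * (s x)⁻¹)
      + ((s x)⁻¹ - (sN n x)⁻¹) * (hu x * A x) + e n x * (sN n x)⁻¹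
      + (g x - gN n x) * (sN n x)⁻¹) (fun _ => 0) atTop K := by
  have ci : Continuous fun x => (s x)⁻¹ := cs.inv₀ s0
  have ti := tu_inv hK ts cs.continuousOn (fun x _ => s0 x)
  refine hergc_add0 (hergc_add0 (hergc_add0 ?_ ?_) ?_) ?_
  · exact hergc_mul0 hK (hergc_sub0 th) (tu_const _) (cA.mul ci)
  · exact hergc_mul0 hK (hergc_sub0 ti) (tu_const _) (chu.mul cA)
  · exact hergc_mul0 hK te ti ci
  · exact hergc_mul0 hK (hergc_sub0 tg) ti ci

theorem hergc_c {K : Set P} (hK : IsCompact K) {h : ℕ → P → ℝ}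
    {e : ℕ → Fin 2 → Fin 2 → P → ℝ} {A : Fin 2 → Fin 2 → P → ℝ} {hv s ka : P → ℝ}
    (cA : ∀ i j, Continuous (A i j)) (cs : Continuous s) (s0 : ∀ x, s x ≠ 0) (ck : Continuous ka)
    (th : TendstoUniformlyOn h hv atTop K)
    (te : ∀ i j, TendstoUniformlyOn (fun n => e n i j) (fun _ => 0) atTop K) :
    TendstoUniformlyOn (fun n x => mx (fun i j => e n i j x) (fun i j => A i j x * (s x)⁻¹)
      + (hv x - h n x) * (-2 * ka x)) (fun _ => 0) atTop K := by
  have ci : Continuous fun x => (s x)⁻¹ := cs.inv₀ s0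
  refine hergc_add0 ?_ (hergc_mul0 hK (hergc_sub0 th) (tu_const _) (continuous_const.mul ck))
  have t : ∀ i j k l, TendstoUniformlyOn (fun n x => e n i j x * (A k l x * (s x)⁻¹))
      (fun _ => 0) atTop K := fun i j k l =>
    hergc_mul0 hK (te i j) (tu_const _) ((cA k l).mul ci)
  have h := tu_sub (tu_sub (tu_add (t 0 0 1 1) (t 1 1 0 0)) (t 0 1 1 0)) (t 1 0 0 1)
  simpa [mx] using h

theorem hergc_small {c : ℕ → Fin U.k → P → ℝ} {D B : ℕ → Fin U.k → Fin 2 → Fin 2 → P → ℝ}
    (cc : ∀ n a, Continuous (c n a)) (cD : ∀ n a i j, Continuous (D n a i j))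
    (cB : ∀ n a i j, Continuous (B n a i j)) {C : ℝ}
    (hC : ∀ᶠ n in atTop, U.II (fun a x => ab (fun i j => B n a i j x)) ≤ C)
    (tc : ∀ a, TendstoUniformlyOn (fun n => c n a) (fun _ => 0) atTop (closedBall 0 U.rho))
    (tD : ∀ a i j, TendstoUniformlyOn (fun n => D n a i j) (fun _ => 0) atTop
      (closedBall 0 U.rho)) :
    Tendsto (fun n => U.II (fun a x => c n a x
      + mx (fun i j => D n a i j x) (fun i j => B n a i j x))) atTop (𝓝 0) := by
  refine U.II_small (g := fun n a x => 1 + ab (fun i j => B n a i j x))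
    (C := U.II (fun _ _ => 1) + C)
    (fun n a => (cc n a).add (hergc_cmx (cD n a) (cB n a)))
    (fun n a => continuous_const.add (hergc_cab (cB n a))) ?_ ?_
  · filter_upwards [hC] with n hn
    have h := U.II_add (f := fun _ _ => (1 : ℝ)) (g := fun a x => ab (fun i j => B n a i j x))
      (fun _ => continuous_const) (fun a => hergc_cab (cB n a))
    rw [h]
    linarith
  · intro θ hθ
    have h1 : ∀ᶠ n in atTop, ∀ a, ∀ x ∈ closedBall (0 : P) U.rho, |c n a x| ≤ θ := by
      refine eventually_all.2 fun a => ?_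
      filter_upwards [Metric.tendstoUniformlyOn_iff.1 (tc a) θ hθ] with n hn x hx
      have := hn x hx
      rw [dist_comm, Real.dist_eq, sub_zero] at this
      exact this.le
    have h2 : ∀ᶠ n in atTop, ∀ a i j, ∀ x ∈ closedBall (0 : P) U.rho, |D n a i j x| ≤ θ / 4 := by
      refine eventually_all.2 fun a => eventually_all.2 fun i => eventually_all.2 fun j => ?_
      filter_upwards [Metric.tendstoUniformlyOn_iff.1 (tD a i j) (θ / 4) (by positivity)]
        with n hn x hx
      have := hn x hx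
      rw [dist_comm, Real.dist_eq, sub_zero] at this
      exact this.le
    filter_upwards [h1, h2] with n hn1 hn2 a x hx
    have hD : ab (fun i j => D n a i j x) ≤ θ := by
      have := hn2 a 0 0 x hx
      have := hn2 a 0 1 x hx
      have := hn2 a 1 0 x hx
      have := hn2 a 1 1 x hx
      unfold ab
      linarith
    have hB : 0 ≤ ab (fun i j => B n a i j x) := by
      unfold ab
      positivity
    have h3 := abs_mx_le (fun i j => D n a i j x) (fun i j => B n a i j x)
    have h4 := mul_le_mul_of_nonneg_right hD hB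
    have h5 := abs_add_le (c n a x) (mx (fun i j => D n a i j x) (fun i j => B n a i j x))
    have h6 := hn1 a x hx
    nlinarith

theorem hergc_lin {t r f1 f2 m0 m p0 p G T : Fin U.k → P → ℝ}
    (cr' : ∀ a, Continuous (r a)) (c1 : ∀ a, Continuous (f1 a)) (c2 : ∀ a, Continuous (f2 a))
    (cm0 : ∀ a, Continuous (m0 a)) (cm : ∀ a, Continuous (m a))
    (cp0 : ∀ a, Continuous (p0 a)) (cp : ∀ a, Continuous (p a))
    (cG : ∀ a, Continuous (G a)) (cT : ∀ a, Continuous (T a))
    (h : ∀ a x, t a x = (r a x + 2 * G a x + T a x)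
      + ((m0 a x - p0 a x) + (m a x - p a x) - (f1 a x + f2 a x)))
    (h1 : U.II f1 = 0) (h2 : U.II f2 = 0) (h3 : U.II m0 = U.II p0) (h4 : U.II m = U.II p) :
    U.II t = U.II r + 2 * U.II G + U.II T := by
  have cG2 : ∀ a, Continuous fun x => 2 * G a x := fun a => continuous_const.mul (cG a)
  have e0 := U.II_mul 2 G
  have e1 := U.II_add cr' cG2
  have e2 := U.II_add (f := fun a x => r a x + 2 * G a x) (fun a => (cr' a).add (cG2 a)) cT
  have e3 := U.II_sub cm0 cp0
  have e4 := U.II_sub cm cp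
  have e5 := U.II_add c1 c2
  have e6 := U.II_add (f := fun a x => m0 a x - p0 a x) (g := fun a x => m a x - p a x)
    (fun a => (cm0 a).sub (cp0 a)) (fun a => (cm a).sub (cp a))
  have e7 := U.II_sub (f := fun a x => (m0 a x - p0 a x) + (m a x - p a x))
    (g := fun a x => f1 a x + f2 a x)
    (fun a => ((cm0 a).sub (cp0 a)).add ((cm a).sub (cp a))) (fun a => (c1 a).add (c2 a))
  have e8 := U.II_add (f := fun a x => r a x + 2 * G a x + T a x)
    (g := fun a x => (m0 a x - p0 a x) + (m a x - p a x) - (f1 a x + f2 a x))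
    (fun a => ((cr' a).add (cG2 a)).add (cT a))
    (fun a => (((cm0 a).sub (cp0 a)).add ((cm a).sub (cp a))).sub ((c1 a).add (c2 a)))
  have e : t = fun a x => (r a x + 2 * G a x + T a x)
      + ((m0 a x - p0 a x) + (m a x - p a x) - (f1 a x + f2 a x)) :=
    funext fun a => funext fun x => h a x
  rw [e, e8, e7, e6, e5, e4, e3, e2, e1, e0, h1, h2, h3, h4]
  ring

theorem hergc_alg (g gN A B e1 e2 : Fin 2 → Fin 2 → ℝ) (hu hv h s sN ka kN : ℝ)
    (hk : ka = dt A / s) :
    (hu + hv) * mx A B / s =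
      ((mx e1 (fun i j => A i j * s⁻¹) + (hv - h) * (-2 * ka))
        + mx (fun i j => (hv - h) * (A i j * s⁻¹) + (s⁻¹ - sN⁻¹) * (hu * A i j) + e2 i j * sN⁻¹
          + (g i j - gN i j) * sN⁻¹) B
        + 2 * (h * (kN - ka)) + (hu + hv) * (2 * dt A) / s)
      + ((mx g A / s - 2 * hu * ka) + (mx gN B / sN - 2 * h * kN)
        - (mx (fun i j => g i j - h * B i j + e1 i j) A / s
          + mx (fun i j => g i j - hu * A i j + e2 i j) B / sN)) := by
  rw [hk]
  simp only [mx, dt, div_eq_mul_inv]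
  ring

/-- the Herglotz limit -/
theorem Pou.herg_lim (A : Appr I) (hI : Cvx I) :
    Tendsto (fun n => U.II (fun a x => (X.hu (U.R a) x + I.hv (U.R a) x) *
      mx (at2 (sf (X.psi (U.R a))) x) (at2 (sf (A.w (U.R a) n)) x) / sq (X.psi (U.R a)) x)) atTop
      (𝓝 (U.II (fun a x => (X.hu (U.R a) x + I.hv (U.R a) x) *
        (2 * dt (at2 (sf (X.psi (U.R a))) x)) / sq (X.psi (U.R a)) x))) := by
  obtain ⟨C, hC⟩ := U.bound_sf A hI
  obtain ⟨e1, ce1, te1, h1⟩ := U.herg1 A
  obtain ⟨e2, ce2, te2, h2⟩ := U.herg2 A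
  have hG := U.gauss_lim A hC
  have hK : IsCompact (closedBall (0 : P) U.rho) := isCompact_closedBall _ _
  have ip : ∀ a, Imm (X.psi (U.R a)) := fun a => X.imm_psi _
  have iw : ∀ a n, Imm (A.w (U.R a) n) := fun a n => A.imm_w _ n
  have cA : ∀ a i j, Continuous (sf (X.psi (U.R a)) i j) := fun a i j =>
    ((ip a).sm_sf i j).continuous
  have cB : ∀ n a i j, Continuous (sf (A.w (U.R a) n) i j) := fun n a i j =>
    ((iw a n).sm_sf i j).continuous
  have cg : ∀ a i j, Continuous (gm (X.psi (U.R a)) i j) := fun a i j =>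
    ((ip a).sm_gm i j).continuous
  have cgN : ∀ n a i j, Continuous (gm (A.w (U.R a) n) i j) := fun n a i j =>
    ((iw a n).sm_gm i j).continuous
  have cs : ∀ a, Continuous (sq (X.psi (U.R a))) := fun a => (ip a).sm_sq.continuous
  have csN : ∀ n a, Continuous (sq (A.w (U.R a) n)) := fun n a => (iw a n).sm_sq.continuous
  have s0 : ∀ a x, sq (X.psi (U.R a)) x ≠ 0 := fun a x => ((ip a).sq_pos x).ne'
  have sN0 : ∀ n a x, sq (A.w (U.R a) n) x ≠ 0 := fun n a x => ((iw a n).sq_pos x).ne'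
  have ci : ∀ a, Continuous fun x => (sq (X.psi (U.R a)) x)⁻¹ := fun a => (cs a).inv₀ (s0 a)
  have ciN : ∀ n a, Continuous fun x => (sq (A.w (U.R a) n) x)⁻¹ := fun n a =>
    (csN n a).inv₀ (sN0 n a)
  have chu : ∀ a, Continuous (X.hu (U.R a)) := fun a => X.continuous_hu _
  have chv : ∀ a, Continuous (I.hv (U.R a)) := fun a => I.continuous_hv _
  have ch : ∀ n a, Continuous (hs (A.w (U.R a) n)) := fun n a => (iw a n).sm_hs.continuous
  have ck : ∀ a, Continuous (X.ka (U.R a)) := fun a => X.continuous_ka _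
  have ckN : ∀ n a, Continuous (kap (un (A.w (U.R a) n))) := fun n a =>
    (iw a n).sm_kap.continuous
  have th : ∀ a, TendstoUniformlyOn (fun n => hs (A.w (U.R a) n)) (I.hv (U.R a)) atTop
      (closedBall (0 : P) U.rho) := fun a => (A.hs_conv (U.R a)).tendstoUniformlyOn
  have cc : ∀ n a, Continuous fun x => mx (fun i j => e1 n a i j x)
      (fun i j => sf (X.psi (U.R a)) i j x * (sq (X.psi (U.R a)) x)⁻¹)
      + (I.hv (U.R a) x - hs (A.w (U.R a) n) x) * (-2 * X.ka (U.R a) x) := fun n a =>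
    (hergc_cmx (ce1 n a) (fun i j => (cA a i j).mul (ci a))).add
      (((chv a).sub (ch n a)).mul (continuous_const.mul (ck a)))
  have cD : ∀ n a i j, Continuous fun x => (I.hv (U.R a) x - hs (A.w (U.R a) n) x)
      * (sf (X.psi (U.R a)) i j x * (sq (X.psi (U.R a)) x)⁻¹)
      + ((sq (X.psi (U.R a)) x)⁻¹ - (sq (A.w (U.R a) n) x)⁻¹)
        * (X.hu (U.R a) x * sf (X.psi (U.R a)) i j x)
      + e2 n a i j x * (sq (A.w (U.R a) n) x)⁻¹
      + (gm (X.psi (U.R a)) i j x - gm (A.w (U.R a) n) i j x) * (sq (A.w (U.R a) n) x)⁻¹ :=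
    fun n a i j =>
      ((((((chv a).sub (ch n a)).mul ((cA a i j).mul (ci a))).add
        (((ci a).sub (ciN n a)).mul ((chu a).mul (cA a i j)))).add
        ((ce2 n a i j).mul (ciN n a))).add (((cg a i j).sub (cgN n a i j)).mul (ciN n a)))
  have hS := hergc_small U cc cD cB hC
    (fun a => hergc_c hK (cA a) (cs a) (s0 a) (ck a) (th a) (te1 a))
    (fun a i j => hergc_D hK (chu a) (cA a i j) (cs a) (s0 a) (th a) (A.sq_conv (U.R a) hK)
      (te2 a i j) (A.gm_conv (U.R a) hK i j))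
  have cdt : ∀ a, Continuous fun x => dt (at2 (sf (X.psi (U.R a))) x) := fun a =>
    ((cA a 0 0).mul (cA a 1 1)).sub ((cA a 0 1).mul (cA a 1 0))
  have hL := (hS.add (hG.const_mul 2)).add_const (U.II (fun a x =>
    (X.hu (U.R a) x + I.hv (U.R a) x) *
      (2 * dt (at2 (sf (X.psi (U.R a))) x)) / sq (X.psi (U.R a)) x))
  rw [mul_zero, add_zero, zero_add] at hL
  refine hL.congr fun n => (hergc_lin U ?_ ?_ ?_ ?_ ?_ ?_ ?_ ?_ ?_ ?_ (h1 n) (h2 n) U.mink0
    (U.mink A n)).symm
  · exact fun a => (cc n a).add (hergc_cmx (cD n a) (cB n a))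
  · exact fun a => (hergc_cmx (fun i j => ((cg a i j).sub ((ch n a).mul (cB n a i j))).add
      (ce1 n a i j)) (cA a)).div (cs a) (s0 a)
  · exact fun a => (hergc_cmx (fun i j => ((cg a i j).sub ((chu a).mul (cA a i j))).add
      (ce2 n a i j)) (cB n a)).div (csN n a) (sN0 n a)
  · exact fun a => (hergc_cmx (cg a) (cA a)).div (cs a) (s0 a)
  · exact fun a => (hergc_cmx (cgN n a) (cB n a)).div (csN n a) (sN0 n a)
  · exact fun a => (continuous_const.mul (chu a)).mul (ck a)
  · exact fun a => (continuous_const.mul (ch n a)).mul (ckN n a)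
  · exact fun a => (ch n a).mul ((ckN n a).sub (ck a))
  · exact fun a => (((chu a).add (chv a)).mul (continuous_const.mul (cdt a))).div (cs a) (s0 a)
  · exact fun a x => hergc_alg (at2 (gm (X.psi (U.R a))) x) (at2 (gm (A.w (U.R a) n)) x)
      (at2 (sf (X.psi (U.R a))) x) (at2 (sf (A.w (U.R a) n)) x) (fun i j => e1 n a i j x)
      (fun i j => e2 n a i j x) _ _ _ _ _ _ _ ((ip a).kap_eq x)

end Pool.Agent.Bor
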