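import Pool.Agent.P.MP_26ecb7_gt.Tang

noncomputable section
open Set Filter Topology MeasureTheory Metric
open scoped RealInnerProductSpace ContDiff ENNReal

namespace Pool.Agent.Bor

theorem second_le {f : ℝ → ℝ} (hf : ContDiff ℝ ∞ f) {k : ℝ}
    (h : ∀ᶠ t in 𝓝[>] (0 : ℝ), f t + f (-t) - 2 * f 0 ≤ k * t ^ 2) : deriv (deriv f) 0 ≤ k := by
  by_contra hk
  obtain ⟨k', h1, h2⟩ := exists_between (not_le.1 hk)
  have d1 : Differentiable ℝ f := hf.differentiable (by simp)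
  have d2 : Differentiable ℝ (deriv f) :=
    (contDiff_infty_iff_deriv.1 hf).2.differentiable (by simp)
  have hg : ∀ t, HasDerivAt (fun t => f t + f (-t) - 2 * f 0 - k' * t ^ 2)
      (deriv f t - deriv f (-t) - k' * (2 * t)) t := fun t => by
    have e := ((((d1 t).hasDerivAt.add ((d1 (-t)).hasDerivAt.comp t (hasDerivAt_neg t))).sub_const
      (2 * f 0)).sub ((hasDerivAt_pow 2 t).const_mul k'))
    refine e.congr_deriv ?_
    simp [sub_eq_add_neg]
  have hd : deriv (fun t => f t + f (-t) - 2 * f 0 - k' * t ^ 2) =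
      fun t => deriv f t - deriv f (-t) - k' * (2 * t) := funext fun t => (hg t).deriv
  have hg2 : HasDerivAt (fun t => deriv f t - deriv f (-t) - k' * (2 * t))
      (2 * deriv (deriv f) 0 - 2 * k') 0 := by
    have e0 : HasDerivAt (deriv f) (deriv (deriv f) 0) (-0) := by
      rw [neg_zero]; exact (d2 0).hasDerivAt
    have e := (((d2 0).hasDerivAt.sub (e0.comp 0 (hasDerivAt_neg 0))).sub
      (((hasDerivAt_id (0 : ℝ)).const_mul 2).const_mul k'))
    refine e.congr_deriv ?_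
    ring
  have hm : IsLocalMin (fun t => f t + f (-t) - 2 * f 0 - k' * t ^ 2) 0 :=
    isLocalMin_of_deriv_deriv_pos (by rw [hd, hg2.deriv]; linarith) (by rw [hd]; simp)
      (hg 0).continuousAt
  have hm' : ∀ᶠ t in 𝓝[>] (0 : ℝ), f 0 + f (-0) - 2 * f 0 - k' * 0 ^ 2 ≤
      f t + f (-t) - 2 * f 0 - k' * t ^ 2 := Filter.Eventually.filter_mono nhdsWithin_le_nhds hm
  obtain ⟨t, ⟨a1, a2⟩, a3⟩ := ((h.and hm').and self_mem_nhdsWithin).exists
  have a4 : 0 < t ^ 2 := pow_pos a3 2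
  rw [neg_zero] at a2
  nlinarith

theorem lower_deriv {W : E → E} (hW : ContDiff ℝ ∞ W) (Y q a : E) :
    deriv (deriv fun t : ℝ => ⟪Y, W (q + t • a)⟫) 0 = ⟪Y, fderiv ℝ (fderiv ℝ W) q a a⟫ := by
  have d1 : Differentiable ℝ W := hW.differentiable (by simp)
  have d2 : Differentiable ℝ (fderiv ℝ W) :=
    (contDiff_infty_iff_fderiv.1 hW).2.differentiable (by simp)
  have hl : ∀ t : ℝ, HasDerivAt (fun t : ℝ => q + t • a) a t := fun t => by
    simpa using ((hasDerivAt_id t).smul_const a).const_add q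
  have h1 : deriv (fun t : ℝ => ⟪Y, W (q + t • a)⟫) =
      fun t : ℝ => ⟪Y, fderiv ℝ W (q + t • a) a⟫ := funext fun t =>
    ((innerSL ℝ Y).hasFDerivAt.comp_hasDerivAt t
      ((d1 _).hasFDerivAt.comp_hasDerivAt t (hl t))).deriv
  have h2 : HasDerivAt (fun t : ℝ => fderiv ℝ W (q + t • a)) (fderiv ℝ (fderiv ℝ W) q a) 0 := by
    have e := (d2 (q + (0 : ℝ) • a)).hasFDerivAt.comp_hasDerivAt (0 : ℝ) (hl 0)
    rw [zero_smul, add_zero] at e
    exact e
  rw [h1]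
  exact ((innerSL ℝ Y).hasFDerivAt.comp_hasDerivAt (0 : ℝ)
    ((ContinuousLinearMap.apply ℝ E a).hasFDerivAt.comp_hasDerivAt (0 : ℝ) h2)).deriv

variable {X : Surf} {I : Iso X}

theorem lower_ne (A : Appr I) {q z : E} (hq : q ∈ X.S) (hz : dist z q ≤ A.tau) : z ≠ X.o :=
  fun e => A.o_not (e ▸ mem_cthickening_of_dist_le z q A.tau X.S hq hz)

theorem lower_supp (hI : Cvx I) {z z' : E} (hz : z ≠ X.o) (hz' : z' ≠ X.o) :
    ⟪I.N z, I.V z' - I.V z⟫ ≤ 0 := by
  rw [← I.N_pr hz]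
  exact hI.supp _ (X.pr_mem z hz) _ (X.pr_mem z' hz')

theorem Appr.lower3 (A : Appr I) (hI : Cvx I) : ∀ θ > 0, ∀ᶠ n in atTop, ∀ q ∈ X.S, ∀ a : E,
    ⟪X.NW (A.W n) q, fderiv ℝ (fderiv ℝ (A.W n)) q a a⟫ ≤ θ * ‖a‖ ^ 2 := by
  intro θ hθ
  have hτ := A.tau_pos
  obtain ⟨K, hK, hsec⟩ := A.sec_tang
  have hcp : IsCompact (cthickening A.tau X.S) := X.cpt.cthickening
  obtain ⟨C, hC, hsp⟩ := I.split hcp A.o_not
  obtain ⟨ε, hε, hε1, hε2⟩ : ∃ ε > 0, ε ≤ 1 ∧ K * (C * (2 * ε)) ≤ θ := by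
    have hp : 0 < 2 * K * C + 1 := by positivity
    refine ⟨min 1 (θ / (2 * K * C + 1)), by positivity, min_le_left _ _, ?_⟩
    have h1 : min 1 (θ / (2 * K * C + 1)) * (2 * K * C + 1) ≤ θ :=
      (le_div_iff₀ hp).1 (min_le_right _ _)
    have h2 : 0 < min 1 (θ / (2 * K * C + 1)) := by positivity
    nlinarith
  have huc : UniformContinuousOn I.N (cthickening A.tau X.S) :=
    hcp.uniformContinuousOn_of_continuous fun z hz =>
      (I.continuousAt_N fun e => A.o_not (e ▸ hz)).continuousWithinAt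
  obtain ⟨δ1, hδ1, hδ⟩ := Metric.uniformContinuousOn_iff.1 huc (ε / 2) (by positivity)
  filter_upwards [Metric.tendstoUniformlyOn_iff.1 A.NW_conv (ε / 2) (by positivity),
    A.sec (min δ1 (A.tau / 2)) (by positivity)] with n hn1 hn2 q hq a
  set Y := X.NW (A.W n) q with hY
  have key : ∀ b : E, ‖b‖ < A.tau / 2 →
      ⟪Y, A.W n (q + b) + A.W n (q - b) - (2 : ℝ) • A.W n q⟫ ≤ θ * ‖b‖ ^ 2 := fun b hb => by
    refine hn2 q hq b Y _ (by linarith) fun z hz => ?_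
    have hz1 : dist z q < δ1 := (mem_ball.1 hz).trans_le (min_le_left _ _)
    have hz2 : dist z q < A.tau / 2 := (mem_ball.1 hz).trans_le (min_le_right _ _)
    have hzK : z ∈ cthickening A.tau X.S := mem_cthickening_of_dist_le z q _ _ hq (by linarith)
    have hz0 : z ≠ X.o := lower_ne A hq (by linarith)
    have hp : z + b ≠ X.o := lower_ne A hq (by
      have := dist_triangle (z + b) z q
      rw [dist_self_add_left] at this
      linarith)
    have hm : z - b ≠ X.o := lower_ne A hq (by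
      have := dist_triangle (z - b) z q
      rw [dist_self_sub_left] at this
      linarith)
    have h1 : ‖Y - I.N z‖ ≤ ε := by
      have a1 := hδ z hzK q (self_subset_cthickening _ hq) hz1
      have a2 := hn1 q hq
      have a3 := dist_triangle (I.N z) (I.N q) Y
      rw [← dist_eq_norm, dist_comm]
      linarith
    have hN := I.norm_N hz0
    have h2 : |⟪Y, I.N z⟫ - 1| ≤ ε := by
      have a1 := abs_real_inner_le_norm (Y - I.N z) (I.N z)
      rw [inner_sub_left, real_inner_self_eq_norm_sq, hN, one_pow, mul_one] at a1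
      exact a1.trans h1
    have h3 : ‖Y - ⟪Y, I.N z⟫ • I.N z‖ ≤ 2 * ε := by
      have a1 : Y - ⟪Y, I.N z⟫ • I.N z = (Y - I.N z) - (⟪Y, I.N z⟫ - 1) • I.N z := by
        rw [sub_smul, one_smul]; abel
      have a2 := norm_sub_le (Y - I.N z) ((⟪Y, I.N z⟫ - 1) • I.N z)
      rw [norm_smul, hN, mul_one, Real.norm_eq_abs] at a2
      rw [a1]; linarith
    obtain ⟨c, hc1, hc2⟩ := hsp z hzK Y
    have h4 : ⟪I.N z, I.V (z + b) + I.V (z - b) - (2 : ℝ) • I.V z⟫ ≤ 0 := by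
      have a1 : I.V (z + b) + I.V (z - b) - (2 : ℝ) • I.V z =
          (I.V (z + b) - I.V z) + (I.V (z - b) - I.V z) := by rw [two_smul]; abel
      rw [a1, inner_add_right]
      linarith [lower_supp hI hz0 hp, lower_supp hI hz0 hm]
    have h5 := (le_abs_self _).trans (hsec q hq z (mem_ball.2 hz2) b c hb)
    have h6 : K * ‖b‖ ^ 2 * ‖c‖ ≤ θ * ‖b‖ ^ 2 := by
      have a1 : K * ‖c‖ ≤ θ :=
        (mul_le_mul_of_nonneg_left (hc2.trans (mul_le_mul_of_nonneg_left h3 hC)) hK).trans hε2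
      have a2 := mul_le_mul_of_nonneg_right a1 (sq_nonneg ‖b‖)
      linarith
    have h7 : 0 ≤ ⟪Y, I.N z⟫ := by linarith [(abs_le.1 h2).1]
    have h8 := mul_nonpos_of_nonneg_of_nonpos h7 h4
    generalize I.V (z + b) + I.V (z - b) - (2 : ℝ) • I.V z = D at h5 h8 ⊢
    have h9 : ⟪Y, D⟫ = ⟪⟪Y, I.N z⟫ • I.N z + fderiv ℝ I.V z c, D⟫ := by rw [← hc1]
    rw [h9, inner_add_left, real_inner_smul_left]
    linarith
  rw [← lower_deriv (A.smooth n) Y q a]
  refine second_le (contDiff_const.inner ℝ ((A.smooth n).comp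
    (contDiff_const.add (contDiff_id.smul contDiff_const)))) ?_
  have hc : Continuous fun t : ℝ => ‖t • a‖ := by fun_prop
  have hev : ∀ᶠ t in 𝓝 (0 : ℝ), ‖t • a‖ < A.tau / 2 :=
    hc.continuousAt.eventually_lt continuousAt_const (by simpa using hτ)
  filter_upwards [hev.filter_mono nhdsWithin_le_nhds] with t ht
  have h1 := key _ ht
  rw [inner_sub_right, inner_add_right, real_inner_smul_right, norm_smul, mul_pow,
    Real.norm_eq_abs, sq_abs] at h1
  show ⟪Y, A.W n (q + t • a)⟫ + ⟪Y, A.W n (q + (-t) • a)⟫ - 2 * ⟪Y, A.W n (q + (0 : ℝ) • a)⟫ ≤ _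
  rw [neg_smul, ← sub_eq_add_neg, zero_smul, add_zero]
  linarith

/-- the normal of the approximation is almost orthogonal to the range of its derivative -/
theorem Appr.NW_orth (A : Appr I) : ∀ θ > 0, ∀ᶠ n in atTop, ∀ q ∈ X.S, ∀ c : E,
    |⟪X.NW (A.W n) q, fderiv ℝ (A.W n) q c⟫| ≤ θ * ‖c‖ := by
  intro θ hθ
  obtain ⟨C, hC, hb⟩ := A.bound_W
  have hε : 0 < θ / (C + 1) := by positivity
  filter_upwards [hb, Metric.tendstoUniformlyOn_iff.1 A.NW_conv _ hε,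
    Metric.tendstoUniformlyOn_iff.1 A.c1 _ hε] with n h1 h2 h3 q hq c
  have hq' : q ∈ thickening A.tau X.S := self_subset_thickening A.tau_pos _ hq
  have ho := X.ne_o hq
  have e : ⟪X.NW (A.W n) q, fderiv ℝ (A.W n) q c⟫ =
      -⟪I.N q - X.NW (A.W n) q, fderiv ℝ (A.W n) q c⟫
        - ⟪I.N q, (fderiv ℝ I.V q - fderiv ℝ (A.W n) q) c⟫ := by
    rw [sub_apply, inner_sub_left, inner_sub_right, I.N_orth ho]
    ring
  have a1 : |⟪I.N q - X.NW (A.W n) q, fderiv ℝ (A.W n) q c⟫| ≤ θ / (C + 1) * (C * ‖c‖) := by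
    refine (abs_real_inner_le_norm _ _).trans (mul_le_mul ?_ ?_ (norm_nonneg _) hε.le)
    · rw [← dist_eq_norm]; exact (h2 q hq).le
    · exact ContinuousLinearMap.le_of_opNorm_le _ (h1 q hq').2 c
  have a2 : |⟪I.N q, (fderiv ℝ I.V q - fderiv ℝ (A.W n) q) c⟫| ≤ θ / (C + 1) * ‖c‖ := by
    refine (abs_real_inner_le_norm _ _).trans ?_
    rw [I.norm_N ho, one_mul]
    refine ContinuousLinearMap.le_of_opNorm_le _ ?_ c
    rw [← dist_eq_norm]; exact (h3 q hq').le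
  have a3 : θ / (C + 1) * (C * ‖c‖) + θ / (C + 1) * ‖c‖ = θ * ‖c‖ := by field_simp
  rw [e]
  obtain ⟨b1, b2⟩ := abs_le.1 a1
  obtain ⟨b3, b4⟩ := abs_le.1 a2
  exact abs_le.2 ⟨by linarith, by linarith⟩

theorem lower_bound (R : Rot) {K : Set P} (hK : IsCompact K) : ∃ M : ℝ, 0 ≤ M ∧ ∀ x ∈ K,
    (∀ i, ‖pd i (X.psi R) x‖ ≤ M) ∧ ∀ i j, ‖pd i (pd j (X.psi R)) x‖ ≤ M := by
  have h1 := fun i => contDiff_pd (X.sm_psi R) i
  have hc : Continuous fun x => ((fun i => pd i (X.psi R) x,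
      fun i j => pd i (pd j (X.psi R)) x) : (Fin 2 → E) × (Fin 2 → Fin 2 → E)) :=
    (continuous_pi fun i => (h1 i).continuous).prodMk
      (continuous_pi fun i => continuous_pi fun j => (contDiff_pd (h1 j) i).continuous)
  obtain ⟨M, hM⟩ := hK.exists_bound_of_continuousOn hc.continuousOn
  refine ⟨max M 0, le_max_right _ _, fun x hx => ⟨fun i => ?_, fun i j => ?_⟩⟩
  · exact (((norm_le_pi_norm _ i).trans (norm_fst_le _)).trans (hM x hx)).trans (le_max_left _ _)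
  · have e1 := norm_le_pi_norm (fun j => pd i (pd j (X.psi R)) x) j
    have e2 := norm_le_pi_norm (fun i j => pd i (pd j (X.psi R)) x) i
    have e3 := norm_snd_le ((fun i => pd i (X.psi R) x,
      fun i j => pd i (pd j (X.psi R)) x) : (Fin 2 → E) × (Fin 2 → Fin 2 → E))
    exact (((e1.trans e2).trans e3).trans (hM x hx)).trans (le_max_left _ _)

/-- the second fundamental forms of the approximations are almost nonnegative -/
theorem Appr.lower (A : Appr I) (hI : Cvx I) (R : Rot) {K : Set P} (hK : IsCompact K) :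
    ∀ θ > 0, ∀ᶠ n in atTop, ∀ x ∈ K, ∀ a b : ℝ,
      - (θ * (a ^ 2 + b ^ 2)) ≤ qf (at2 (sf (A.w R n)) x) a b := by
  intro θ hθ
  obtain ⟨M, hM, hb⟩ := lower_bound (X := X) R hK
  have hε : 0 < θ / (2 * M ^ 2 + 2 * M + 1) := by positivity
  filter_upwards [A.lower3 hI _ hε, A.NW_orth _ hε] with n h1 h2 x hx a b
  obtain ⟨b1, b2⟩ := hb x hx
  have hq := X.psi_mem R x
  have c1 := h1 _ hq (a • pd 0 (X.psi R) x + b • pd 1 (X.psi R) x)
  have c2 := (le_abs_self _).trans (h2 _ hq (a ^ 2 • pd 0 (pd 0 (X.psi R)) x +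
    (a * b) • pd 0 (pd 1 (X.psi R)) x + (a * b) • pd 1 (pd 0 (X.psi R)) x +
    b ^ 2 • pd 1 (pd 1 (X.psi R)) x))
  have hab : 2 * (|a| * |b|) ≤ a ^ 2 + b ^ 2 := by
    nlinarith [sq_nonneg (|a| - |b|), sq_abs a, sq_abs b]
  have n1 : ‖a • pd 0 (X.psi R) x + b • pd 1 (X.psi R) x‖ ^ 2 ≤ 2 * M ^ 2 * (a ^ 2 + b ^ 2) := by
    have e : ‖a • pd 0 (X.psi R) x + b • pd 1 (X.psi R) x‖ ≤ (|a| + |b|) * M := by
      refine (norm_add_le _ _).trans ?_
      rw [norm_smul, norm_smul, Real.norm_eq_abs, Real.norm_eq_abs, add_mul]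
      exact add_le_add (mul_le_mul_of_nonneg_left (b1 0) (abs_nonneg _))
        (mul_le_mul_of_nonneg_left (b1 1) (abs_nonneg _))
    refine (pow_le_pow_left₀ (norm_nonneg _) e 2).trans ?_
    have e2 : (|a| + |b|) ^ 2 ≤ 2 * (a ^ 2 + b ^ 2) := by nlinarith [sq_abs a, sq_abs b]
    rw [mul_pow]
    nlinarith [mul_le_mul_of_nonneg_right e2 (sq_nonneg M)]
  have n2 : ‖a ^ 2 • pd 0 (pd 0 (X.psi R)) x + (a * b) • pd 0 (pd 1 (X.psi R)) x +
      (a * b) • pd 1 (pd 0 (X.psi R)) x + b ^ 2 • pd 1 (pd 1 (X.psi R)) x‖ ≤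
      2 * M * (a ^ 2 + b ^ 2) := by
    have e : ∀ (s : ℝ) i j, ‖s • pd i (pd j (X.psi R)) x‖ ≤ |s| * M := fun s i j => by
      rw [norm_smul, Real.norm_eq_abs]
      exact mul_le_mul_of_nonneg_left (b2 i j) (abs_nonneg _)
    refine (norm_add_le_of_le (norm_add_le_of_le (norm_add_le_of_le (e _ _ _) (e _ _ _))
      (e _ _ _)) (e _ _ _)).trans ?_
    rw [abs_sq, abs_sq, abs_mul]
    nlinarith [mul_le_mul_of_nonneg_right hab hM]
  have e1 : θ / (2 * M ^ 2 + 2 * M + 1) * (2 * M ^ 2 * (a ^ 2 + b ^ 2)) +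
      θ / (2 * M ^ 2 + 2 * M + 1) * (2 * M * (a ^ 2 + b ^ 2)) +
      θ / (2 * M ^ 2 + 2 * M + 1) * (a ^ 2 + b ^ 2) = θ * (a ^ 2 + b ^ 2) := by field_simp
  have e2 : 0 ≤ θ / (2 * M ^ 2 + 2 * M + 1) * (a ^ 2 + b ^ 2) := by positivity
  have c3 := c1.trans (mul_le_mul_of_nonneg_left n1 hε.le)
  have c4 := c2.trans (mul_le_mul_of_nonneg_left n2 hε.le)
  simp only [map_add, map_smul, add_apply, smul_apply,
    inner_add_right, real_inner_smul_right] at c3 c4
  simp only [qf, at2, (A.imm_w R n).sf_eq, A.pd_pd_w, A.un_w, inner_add_right]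
  linarith

end Pool.Agent.Bor
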