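import Pool.Agent.P.MP_26ecb7_gt.HergB
import Pool.Agent.P.MP_26ecb7_gt.Lower

noncomputable section
open Set Filter Topology MeasureTheory Metric
open scoped RealInnerProductSpace ContDiff ENNReal

namespace Pool.Agent.Bor

variable {X : Surf} {I : Iso X} (U : Pou X)

/-- limit support function -/
def Iso.hv (I : Iso X) (R : Rot) (x : P) : ℝ := ⟪I.w R x, I.n R x⟫

theorem Iso.continuous_hv (I : Iso X) (R : Rot) : Continuous (I.hv R) :=
  (I.w_c1 R).continuous.inner (I.continuous_n R)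
theorem Cvx.hv_pos (hI : Cvx I) (R : Rot) (x : P) : 0 < I.hv R x := by
  rw [Iso.hv, real_inner_comm]
  exact hI.pos _ (X.psi_mem R x)
theorem Appr.hs_conv (A : Appr I) (R : Rot) :
    TendstoUniformly (fun n => hs (A.w R n)) (I.hv R) atTop := by
  obtain ⟨M, hM⟩ := X.cpt.exists_bound_of_continuousOn (f := I.v)
    fun q hq => (I.c1 q hq).continuousAt.continuousWithinAt
  have hM0 : 0 ≤ M := (norm_nonneg _).trans (hM _ (X.psi_mem R 0))
  refine Metric.tendstoUniformly_iff.2 fun ε hε => ?_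
  have hδ : 0 < ε / (M + 2) := by positivity
  filter_upwards [Metric.tendstoUniformly_iff.1 (A.w_conv R) _ hδ,
    Metric.tendstoUniformly_iff.1 (A.un_conv R) _ hδ] with n h1 h2 x
  have h3 := h1 x
  have h4 := h2 x
  rw [dist_eq_norm] at h3 h4
  have h5 : I.hv R x - hs (A.w R n) x = ⟪I.w R x, I.n R x - un (A.w R n) x⟫
      + ⟪I.w R x - A.w R n x, un (A.w R n) x⟫ := by
    simp only [Iso.hv, hs, inner_sub_left, inner_sub_right]
    ring
  have h6 := abs_real_inner_le_norm (I.w R x) (I.n R x - un (A.w R n) x)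
  have h7 := abs_real_inner_le_norm (I.w R x - A.w R n x) (un (A.w R n) x)
  rw [(A.imm_w R n).norm_un, mul_one] at h7
  have h8 : ‖I.w R x‖ * ‖I.n R x - un (A.w R n) x‖ ≤ M * (ε / (M + 2)) :=
    mul_le_mul (hM _ (X.psi_mem R x)) h4.le (norm_nonneg _) hM0
  have h9 : M * (ε / (M + 2)) + ε / (M + 2) + ε / (M + 2) = ε := by
    field_simp
    ring
  rw [Real.dist_eq, h5]
  refine (abs_add_le _ _).trans_lt ?_
  linarith

theorem hergc0_alg {m C h c s S t T H b : ℝ} (hC : 0 < C) (hc : 0 < c) (hs : 0 < s)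
    (h1 : -(C * 1) ≤ m) (h2 : b ≤ C * (m + C * 1)) (h3 : c ≤ h) (h4 : h ≤ H) (h5 : s ≤ S)
    (h6 : t ≤ T) : b ≤ C * S / c * ((H * C + T) / s - (t - h * m) / s) := by
  have h7 : 0 ≤ m + C := by linarith
  have h8 : c * (m + C) ≤ H * C + T - (t - h * m) := by
    nlinarith [mul_le_mul_of_nonneg_right h3 h7, mul_le_mul_of_nonneg_right h4 hC.le]
  have h9 : c * (m + C) / S ≤ (H * C + T) / s - (t - h * m) / s := by
    rw [← sub_div]
    exact div_le_div₀ ((mul_nonneg hc.le h7).trans h8) h8 hs h5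
  have hS : 0 < S := hs.trans_le h5
  refine le_trans ?_ (mul_le_mul_of_nonneg_left h9 (by positivity))
  rw [show C * S / c * (c * (m + C) / S) = C * (m + C * 1) by field_simp]
  exact h2

theorem hergc0_ab {g e : Fin 2 → Fin 2 → ℝ} (h : ∀ i j, |e i j| ≤ 1) :
    ab (fun i j => g i j + e i j) ≤ ab g + 4 := by
  simp only [ab]
  linarith [abs_add_le (g 0 0) (e 0 0), abs_add_le (g 0 1) (e 0 1), abs_add_le (g 1 0) (e 1 0),
    abs_add_le (g 1 1) (e 1 1), h 0 0, h 0 1, h 1 0, h 1 1]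

theorem hergc0_nn (B : Fin 2 → Fin 2 → ℝ) : 0 ≤ ab B := by
  unfold ab
  positivity

theorem hergc0_cab {B : Fin 2 → Fin 2 → P → ℝ} (h : ∀ i j, Continuous (B i j)) :
    Continuous fun x => ab (at2 B x) :=
  (((h 0 0).abs.add (h 0 1).abs).add (h 1 0).abs).add (h 1 1).abs

theorem hergc0_cmx {T B : Fin 2 → Fin 2 → P → ℝ} (h : ∀ i j, Continuous (T i j))
    (h' : ∀ i j, Continuous (B i j)) : Continuous fun x => mx (fun i j => T i j x) (at2 B x) :=
  ((((h 0 0).mul (h' 1 1)).add ((h 1 1).mul (h' 0 0))).sub ((h 0 1).mul (h' 1 0))).sub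
    ((h 1 0).mul (h' 0 1))

theorem hergc0_chart (A : Appr I) (hI : Cvx I) (R : Rot) {K : Set P} (hK : IsCompact K)
    {e : ℕ → Fin 2 → Fin 2 → P → ℝ}
    (he : ∀ i j, TendstoUniformlyOn (fun n => e n i j) (fun _ => 0) atTop K) :
    ∃ c : ℝ, 0 < c ∧ ∃ D : P → ℝ, Continuous D ∧ ∀ᶠ n in atTop, ∀ x ∈ K,
      ab (at2 (sf (A.w R n)) x) ≤ c * (D x - mx (fun i j => gm (X.psi R) i j x
        - hs (A.w R n) x * sf (A.w R n) i j x + e n i j x) (at2 (sf (X.psi R)) x)
          / sq (X.psi R) x) := by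
  have hp := X.imm_psi R
  obtain ⟨C, hC, h1⟩ := ab_le_mx hK (fun i j => (hp.sm_sf i j).continuous) (hp.sf_symm 0 1)
    fun x a b h => X.qf_pos R x h
  obtain ⟨c, hc, h2⟩ := hK.exists_forall_le' (I.continuous_hv R).continuousOn
    fun x _ => hI.hv_pos R x
  obtain ⟨S, hS⟩ := hK.exists_bound_of_continuousOn hp.sm_sq.continuous.continuousOn
  have hS' : ∀ x ∈ K, sq (X.psi R) x ≤ |S| + 1 := fun x hx => by
    linarith [le_abs_self S, hS x hx, Real.le_norm_self (sq (X.psi R) x)]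
  refine ⟨C * (|S| + 1) / (c / 2), by positivity, fun x => ((I.hv R x + c) * C +
    (ab (at2 (gm (X.psi R)) x) + 4) * ab (at2 (sf (X.psi R)) x)) / sq (X.psi R) x, ?_, ?_⟩
  · exact ((((I.continuous_hv R).add continuous_const).mul continuous_const).add
      (((hergc0_cab fun i j => (hp.sm_gm i j).continuous).add continuous_const).mul
        (hergc0_cab fun i j => (hp.sm_sf i j).continuous))).div hp.sm_sq.continuous
      fun x => (hp.sq_pos x).ne'
  have h3 : ∀ᶠ n in atTop, ∀ i j, ∀ x ∈ K, |e n i j x| ≤ 1 := by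
    simp only [eventually_all]
    intro i j
    filter_upwards [Metric.tendstoUniformlyOn_iff.1 (he i j) 1 one_pos] with n h x hx
    simpa using (h x hx).le
  filter_upwards [h3, A.lower hI R hK 1 one_pos,
    Metric.tendstoUniformly_iff.1 (A.hs_conv R) (c / 2) (by positivity)] with n h4 h5 h6 x hx
  obtain ⟨h7, h8⟩ := h1 x hx (at2 (sf (A.w R n)) x) 1 zero_le_one ((A.imm_w R n).sf_symm 0 1 x)
    (h5 x hx)
  have h9 := abs_lt.1 (Real.dist_eq _ _ ▸ h6 x)
  have h10 : mx (fun i j => gm (X.psi R) i j x + e n i j x) (at2 (sf (X.psi R)) x) ≤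
      (ab (at2 (gm (X.psi R)) x) + 4) * ab (at2 (sf (X.psi R)) x) :=
    (le_abs_self _).trans ((abs_mx_le _ _).trans (mul_le_mul_of_nonneg_right
      (hergc0_ab (g := at2 (gm (X.psi R)) x) fun i j => h4 i j x hx) (hergc0_nn _)))
  have h11 := hergc0_alg (h := hs (A.w R n) x) (H := I.hv R x + c) hC (half_pos hc) (hp.sq_pos x)
    h7 h8 (by linarith [h2 x hx, h9.2]) (by linarith [h9.1]) (hS' x hx) h10
  refine h11.trans_eq ?_
  congr 3
  simp only [mx, at2]
  ring

theorem Pou.bound_sf (A : Appr I) (hI : Cvx I) : ∃ C : ℝ,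
    ∀ᶠ n in atTop, U.II (fun a x => ab (at2 (sf (A.w (U.R a) n)) x)) ≤ C := by
  obtain ⟨e, he1, he2, he3⟩ := U.herg1 A
  choose c hc D hD h using fun a => hergc0_chart A hI (U.R a) (isCompact_closedBall 0 U.rho)
    (e := fun n => e n a) (he2 a)
  refine ⟨(∑ a, c a) * U.II D, ?_⟩
  filter_upwards [eventually_all.2 h] with n hn
  have hF : ∀ a, Continuous fun x => mx (fun i j => gm (X.psi (U.R a)) i j x
      - hs (A.w (U.R a) n) x * sf (A.w (U.R a) n) i j x + e n a i j x)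
        (at2 (sf (X.psi (U.R a))) x) / sq (X.psi (U.R a)) x := fun a =>
    (hergc0_cmx (fun i j => (((X.imm_psi _).sm_gm i j).continuous.sub
      ((A.imm_w _ n).sm_hs.continuous.mul ((A.imm_w _ n).sm_sf i j).continuous)).add (he1 n a i j))
      fun i j => ((X.imm_psi _).sm_sf i j).continuous).div (X.imm_psi _).sm_sq.continuous
      fun x => ((X.imm_psi _).sq_pos x).ne'
  have h1 := U.II_sub hD hF
  rw [he3 n, sub_zero] at h1
  rw [← h1, ← U.II_mul]
  refine U.II_mono (fun a => hergc0_cab fun i j => ((A.imm_w _ n).sm_sf i j).continuous)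
    (fun a => continuous_const.mul ((hD a).sub (hF a))) fun a x hx => ?_
  have h2 := hn a x hx
  exact h2.trans (mul_le_mul_of_nonneg_right
    (Finset.single_le_sum (fun b _ => (hc b).le) (Finset.mem_univ a))
    ((mul_nonneg_iff_of_pos_left (hc a)).1 ((hergc0_nn _).trans h2)))


end Pool.Agent.Bor
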