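import Pool.Agent.P.MP_26ecb7_gt.Imm0

noncomputable section
open Set Filter Topology MeasureTheory Metric
open scoped RealInnerProductSpace ContDiff ENNReal

namespace Pool.Agent.Bor

variable {w : P → E}

theorem imm_inner_un (w : P → E) (x : P) (y : E) :
    ⟪y, un w x⟫ = (sq w x)⁻¹ * ⟪y, cr (pd 0 w x) (pd 1 w x)⟫ := by
  show ⟪y, ‖nv w x‖⁻¹ • nv w x⟫ = _
  rw [real_inner_smul_right]
  rfl

/-- expansion of an inner product in the frame -/
theorem Imm.inner_exp (hw : Imm w) (x : P) (y z : E) :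
    ⟪y, z⟫ = ⟪y, un w x⟫ * ⟪z, un w x⟫
      + ∑ k, ∑ l, gi w k l x * ⟪y, pd k w x⟫ * ⟪z, pd l w x⟫ := by
  have hs : sq w x ≠ 0 := (hw.sq_pos x).ne'
  have h := parseval (pd 0 w x) (pd 1 w x) y z
  have e : ‖cr (pd 0 w x) (pd 1 w x)‖ = sq w x := rfl
  rw [e] at h
  rw [imm_inner_un, imm_inner_un]
  simp only [Fin.sum_univ_two, gi, gm]
  simp only [Fin.isValue, ↓reduceIte, sub_zero, sub_self, zero_ne_one, one_ne_zero]
  field_simp
  linear_combination h

theorem Imm.vec_exp (hw : Imm w) (x : P) (y : E) :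
    y = ⟪y, un w x⟫ • un w x + ∑ k, (∑ l, gi w k l x * ⟪y, pd l w x⟫) • pd k w x := by
  refine ext_inner_left ℝ fun z => ?_
  rw [hw.inner_exp x z y]
  simp only [Fin.sum_univ_two, inner_add_right, real_inner_smul_right]
  ring

/-- pointwise version for a normal field that is only differentiable at the point -/
theorem kap_eq_of {N : P → E} {x : P} {a b : E} (h : cr a b ≠ 0) (hN : N x = nrm (cr a b)) :
    kap N x = (⟪pd 0 N x, a⟫ * ⟪pd 1 N x, b⟫ - ⟪pd 0 N x, b⟫ * ⟪pd 1 N x, a⟫) / ‖cr a b‖ := by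
  have hs : ‖cr a b‖ ≠ 0 := norm_ne_zero_iff.2 h
  unfold kap
  rw [hN, nrm, real_inner_smul_left, binet, real_inner_comm a (pd 0 N x),
    real_inner_comm b (pd 1 N x), real_inner_comm b (pd 0 N x), real_inner_comm a (pd 1 N x)]
  field_simp

theorem Imm.kap_eq (hw : Imm w) (x : P) : kap (un w) x = dt (at2 (sf w) x) / sq w x :=
  kap_eq_of (N := un w) (a := pd 0 w x) (b := pd 1 w x) (hw.2 x) rfl

theorem imm_par {n u v : E} (hn : ‖n‖ = 1) (hu : ⟪n, u⟫ = 0) (hv : ⟪n, v⟫ = 0) (X : E) :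
    ⟪X, cr u v⟫ = ⟪X, n⟫ * ⟪n, cr u v⟫ := by
  have h1 : cr n (cr u v) = 0 := by rw [cr_cr, hu, hv, zero_smul, zero_smul, sub_zero]
  have h0 : cr n 0 = 0 := by
    have := cr_smul_right 0 n n
    rwa [zero_smul, zero_smul] at this
  have h2 := cr_cr n n (cr u v)
  rw [h1, h0, real_inner_self_eq_norm_sq, hn, one_pow, one_smul] at h2
  have h3 : cr u v = ⟪n, cr u v⟫ • n := (sub_eq_zero.1 h2.symm).symm
  calc ⟪X, cr u v⟫ = ⟪X, ⟪n, cr u v⟫ • n⟫ := congrArg _ h3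
    _ = _ := by rw [real_inner_smul_right, mul_comm]

theorem imm_tri (w : P → E) (x : P) (y z : E) :
    ⟪cr y (un w x), z⟫ = -((sq w x)⁻¹ *
      (⟪y, pd 0 w x⟫ * ⟪z, pd 1 w x⟫ - ⟪y, pd 1 w x⟫ * ⟪z, pd 0 w x⟫)) := by
  rw [cr_swap, inner_neg_left, ← inner_cr_cyc, real_inner_comm, imm_inner_un, binet]

/-- the basic formula behind the integral identities -/
theorem Imm.JJ_cr (hw : Imm w) {X : P → E} {x : P} (hX : DifferentiableAt ℝ X x) :
    JJ (fun y => cr (X y) (un w y)) (un w) x =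
      - mx (fun i j => ⟪pd i X x, pd j w x⟫) (at2 (sf w) x) / sq w x
        + 2 * ⟪X x, un w x⟫ * kap (un w) x := by
  have hs : sq w x ≠ 0 := (hw.sq_pos x).ne'
  have hN : DifferentiableAt ℝ (un w) x := (hw.sm_un.differentiable (by simp)) x
  have h1 := imm_par (hw.norm_un x) (hw.un_pd_un 0 x) (hw.un_pd_un 1 x) (X x)
  have h2 : ⟪cr (X x) (pd 1 (un w) x), pd 0 (un w) x⟫ =
      -⟪X x, cr (pd 0 (un w) x) (pd 1 (un w) x)⟫ := by
    rw [← inner_cr_cyc, cr_swap, inner_neg_right]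
  unfold JJ
  rw [pd_cr hX hN, pd_cr hX hN, inner_add_left, inner_add_left, imm_tri, imm_tri, h2,
    ← inner_cr_cyc, h1]
  simp only [mx, at2, sf, kap]
  field_simp
  ring

end Pool.Agent.Bor
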