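import Pool.Agent.P.MP_26ecb7_gt.Alg

noncomputable section
open Set Filter Topology MeasureTheory Metric
open scoped RealInnerProductSpace ContDiff ENNReal

namespace Pool.Agent.Bor

variable {w : P → E}

theorem Imm.sq_pos (hw : Imm w) (x : P) : 0 < sq w x := norm_pos_iff.2 (hw.2 x)

theorem sq_sq (w : P → E) (x : P) : sq w x ^ 2 = gm w 0 0 x * gm w 1 1 x - gm w 0 1 x ^ 2 :=
  norm_cr_sq _ _

theorem gm_symm (w : P → E) (i j : Fin 2) (x : P) : gm w i j x = gm w j i x :=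
  real_inner_comm _ _

theorem Imm.gm_pos (hw : Imm w) (i : Fin 2) (x : P) : 0 < gm w i i x := by
  have h1 := sq_sq w x
  have h2 : 0 < sq w x ^ 2 := pow_pos (hw.sq_pos x) 2
  have h3 : 0 ≤ gm w 0 0 x := real_inner_self_nonneg
  have h4 : 0 ≤ gm w 1 1 x := real_inner_self_nonneg
  have h5 : 0 < gm w 0 0 x * gm w 1 1 x := by nlinarith [sq_nonneg (gm w 0 1 x)]
  have h6 : 0 < gm w 0 0 x :=
    lt_of_le_of_ne h3 fun h => by rw [← h, zero_mul] at h5; exact lt_irrefl _ h5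
  have h7 : 0 < gm w 1 1 x :=
    lt_of_le_of_ne h4 fun h => by rw [← h, mul_zero] at h5; exact lt_irrefl _ h5
  fin_cases i
  · exact h6
  · exact h7

theorem Imm.nv_eq (hw : Imm w) (x : P) : nv w x = sq w x • un w x := by
  have h := (hw.sq_pos x).ne'
  unfold un nrm
  rw [smul_smul]
  unfold sq at h ⊢
  rw [mul_inv_cancel₀ h, one_smul]

theorem Imm.norm_un (hw : Imm w) (x : P) : ‖un w x‖ = 1 := norm_nrm (hw.2 x)

theorem un_pd (w : P → E) (i : Fin 2) (x : P) : ⟪un w x, pd i w x⟫ = 0 := by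
  unfold un nrm nv
  rw [real_inner_smul_left, real_inner_comm]
  fin_cases i
  · exact mul_eq_zero_of_right _ (inner_cr_left _ _)
  · exact mul_eq_zero_of_right _ (inner_cr_right _ _)

theorem imm0_nv (hw : Imm w) : ContDiff ℝ ∞ (nv w) :=
  contDiff_iff_contDiffAt.2 fun _ =>
    contDiff_cr (contDiff_pd hw.1 0).contDiffAt (contDiff_pd hw.1 1).contDiffAt

theorem Imm.sm_un (hw : Imm w) : ContDiff ℝ ∞ (un w) :=
  contDiff_iff_contDiffAt.2 fun x =>
    (contDiffAt_nrm (hw.2 x)).comp x (imm0_nv hw).contDiffAt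

theorem Imm.sm_sq (hw : Imm w) : ContDiff ℝ ∞ (sq w) := (imm0_nv hw).norm ℝ hw.2

theorem Imm.sm_gm (hw : Imm w) (i j : Fin 2) : ContDiff ℝ ∞ (gm w i j) :=
  (contDiff_pd hw.1 i).inner ℝ (contDiff_pd hw.1 j)

theorem Imm.sm_gi (hw : Imm w) (i j : Fin 2) : ContDiff ℝ ∞ (gi w i j) := by
  unfold gi
  refine ContDiff.div ?_ (hw.sm_sq.pow 2) fun x => pow_ne_zero 2 (hw.sq_pos x).ne'
  by_cases h : i = j
  · simp only [if_pos h]
    exact hw.sm_gm _ _
  · simp only [if_neg h]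
    exact (hw.sm_gm 0 1).neg

theorem Imm.sm_sf (hw : Imm w) (i j : Fin 2) : ContDiff ℝ ∞ (sf w i j) :=
  (contDiff_pd hw.sm_un i).inner ℝ (contDiff_pd hw.1 j)

theorem Imm.sm_ch (hw : Imm w) (i j k : Fin 2) : ContDiff ℝ ∞ (ch w i j k) :=
  (contDiff_pd (contDiff_pd hw.1 j) i).inner ℝ (contDiff_pd hw.1 k)

theorem Imm.sm_om (hw : Imm w) (i : Fin 2) : ContDiff ℝ ∞ (om w i) :=
  (((hw.sm_gm 0 0).mul (hw.sm_ch i 0 1)).sub ((hw.sm_gm 0 1).mul (hw.sm_ch i 0 0))).div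
    ((hw.sm_gm 0 0).mul hw.sm_sq) fun x => (mul_pos (hw.gm_pos 0 x) (hw.sq_pos x)).ne'

theorem Imm.sm_kap (hw : Imm w) : ContDiff ℝ ∞ (kap (un w)) :=
  hw.sm_un.inner ℝ (contDiff_iff_contDiffAt.2 fun _ =>
    contDiff_cr (contDiff_pd hw.sm_un 0).contDiffAt (contDiff_pd hw.sm_un 1).contDiffAt)

theorem imm0_pd_const (i : Fin 2) (c : ℝ) (x : P) : pd i (fun _ : P => c) x = 0 := by
  simp [pd]

theorem Imm.un_pd_un (hw : Imm w) (i : Fin 2) (x : P) : ⟪un w x, pd i (un w) x⟫ = 0 := by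
  have hd : DifferentiableAt ℝ (un w) x := hw.sm_un.differentiable (by simp) x
  have h1 := pd_inner hd hd i
  have h2 : (fun y => ⟪un w y, un w y⟫) = fun _ => (1 : ℝ) := by
    funext y
    rw [real_inner_self_eq_norm_sq, hw.norm_un, one_pow]
  rw [h2, imm0_pd_const, real_inner_comm (un w x)] at h1
  linarith

theorem Imm.sf_eq (hw : Imm w) (i j : Fin 2) (x : P) :
    sf w i j x = - ⟪un w x, pd i (pd j w) x⟫ := by
  have hd : DifferentiableAt ℝ (un w) x := hw.sm_un.differentiable (by simp) x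
  have hd' : DifferentiableAt ℝ (pd j w) x := (contDiff_pd hw.1 j).differentiable (by simp) x
  have h1 := pd_inner hd hd' i
  have h2 : (fun y => ⟪un w y, pd j w y⟫) = fun _ => (0 : ℝ) := funext (un_pd w j)
  rw [h2, imm0_pd_const] at h1
  unfold sf
  linarith

theorem Imm.sf_symm (hw : Imm w) (i j : Fin 2) (x : P) : sf w i j x = sf w j i x := by
  rw [hw.sf_eq, hw.sf_eq, pd_comm hw.1]

end Pool.Agent.Bor
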