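import Pool.Agent.P.MP_26ecb7_gt.Chart

noncomputable section
open Set Filter Topology MeasureTheory Metric
open scoped RealInnerProductSpace ContDiff ENNReal

namespace Pool.Agent.Bor

theorem isob0_frame (X : Surf) {q : E} (hq : q ∈ X.S) : ∃ a b : E, ⟪a, a⟫ = (1 : ℝ) ∧
    ⟪b, b⟫ = (1 : ℝ) ∧ ⟪a, b⟫ = (0 : ℝ) ∧ cr a b = X.nu q ∧ ⟪X.nu q, a⟫ = (0 : ℝ) ∧
    ⟪X.nu q, b⟫ = (0 : ℝ) := by
  obtain ⟨a, b, h1, h2, h3, h4⟩ := exists_frame (X.nu_unit q hq)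
  refine ⟨a, b, ?_, ?_, h3, h4, ?_, ?_⟩
  · rw [real_inner_self_eq_norm_sq, h1, one_pow]
  · rw [real_inner_self_eq_norm_sq, h2, one_pow]
  · rw [← h4, real_inner_comm]; exact inner_cr_left a b
  · rw [← h4, real_inner_comm]; exact inner_cr_right a b

theorem isob0_pr (X : Surf) {z : E} (hz : z ≠ X.o) : ContDiffAt ℝ 1 X.pr z :=
  (X.pr_smooth z hz).of_le (by exact_mod_cast le_top)

namespace Iso
variable {X : Surf} (I : Iso X)

theorem inner_iso {q : E} (hq : q ∈ X.S) {a b : E} (ha : ⟪X.nu q, a⟫ = 0) (hb : ⟪X.nu q, b⟫ = 0) :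
    ⟪fderiv ℝ I.v q a, fderiv ℝ I.v q b⟫ = ⟪a, b⟫ := by
  have h : ⟪X.nu q, a + b⟫ = 0 := by rw [inner_add_right, ha, hb, add_zero]
  rw [real_inner_eq_norm_add_mul_self_sub_norm_mul_self_sub_norm_mul_self_div_two,
    real_inner_eq_norm_add_mul_self_sub_norm_mul_self_sub_norm_mul_self_div_two a b, ← map_add,
    I.iso q hq _ h, I.iso q hq _ ha, I.iso q hq _ hb]
theorem V_c1 {z : E} (hz : z ≠ X.o) : ContDiffAt ℝ 1 I.V z :=
  (I.c1 _ (X.pr_mem z hz)).comp z (isob0_pr X hz)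
theorem fderiv_V {z : E} (hz : z ≠ X.o) :
    fderiv ℝ I.V z = (fderiv ℝ I.v (X.pr z)).comp (fderiv ℝ X.pr z) :=
  fderiv_comp z ((I.c1 _ (X.pr_mem z hz)).differentiableAt one_ne_zero)
    ((isob0_pr X hz).differentiableAt one_ne_zero)
theorem V_self {q : E} (hq : q ∈ X.S) : I.V q = I.v q := by rw [Iso.V, X.pr_self hq]
theorem fderiv_V_tang {q : E} (hq : q ∈ X.S) {a : E} (ha : ⟪X.nu q, a⟫ = 0) :
    fderiv ℝ I.V q a = fderiv ℝ I.v q a := by
  rw [I.fderiv_V (X.ne_o hq), ContinuousLinearMap.comp_apply, X.fderiv_pr hq ha, X.pr_self hq]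
theorem inner_V {z : E} (hz : z ≠ X.o) (a b : E) :
    ⟪fderiv ℝ I.V z a, fderiv ℝ I.V z b⟫ = ⟪fderiv ℝ X.pr z a, fderiv ℝ X.pr z b⟫ := by
  rw [I.fderiv_V hz, ContinuousLinearMap.comp_apply, ContinuousLinearMap.comp_apply]
  exact I.inner_iso (X.pr_mem z hz) (X.tang z hz a) (X.tang z hz b)
theorem N_pr {z : E} (hz : z ≠ X.o) : I.N (X.pr z) = I.N z := by
  rw [Iso.N, Iso.N, X.pr_self (X.pr_mem z hz)]
theorem N_self {q : E} (hq : q ∈ X.S) : I.N q = cof (fderiv ℝ I.v q) (X.nu q) := by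
  rw [Iso.N, X.pr_self hq]
theorem N_eq_cof_V {q : E} (hq : q ∈ X.S) : I.N q = cof (fderiv ℝ I.V q) (X.nu q) := by
  obtain ⟨a, b, -, -, -, h4, h5, h6⟩ := isob0_frame X hq
  rw [I.N_self hq, ← h4, cof_cr, cof_cr, I.fderiv_V_tang hq h5, I.fderiv_V_tang hq h6]
theorem norm_N {z : E} (hz : z ≠ X.o) : ‖I.N z‖ = 1 := by
  have hq := X.pr_mem z hz
  obtain ⟨a, b, h1, h2, h3, h4, h5, h6⟩ := isob0_frame X hq
  have h : ‖I.N z‖ ^ 2 = 1 := by
    rw [Iso.N, ← h4, cof_cr, norm_cr_sq, I.inner_iso hq h5 h5, I.inner_iso hq h6 h6,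
      I.inner_iso hq h5 h6, h1, h2, h3]
    norm_num
  exact (pow_eq_one_iff_of_nonneg (norm_nonneg _) two_ne_zero).1 h
theorem N_orth {z : E} (hz : z ≠ X.o) (a : E) : ⟪I.N z, fderiv ℝ I.V z a⟫ = 0 := by
  have hq := X.pr_mem z hz
  obtain ⟨u, w, -, -, -, h4, -, -⟩ := isob0_frame X hq
  have h := expand u w (fderiv ℝ X.pr z a)
  have h0 : ⟪fderiv ℝ X.pr z a, X.nu (X.pr z)⟫ = 0 := by
    rw [real_inner_comm]; exact X.tang z hz a
  rw [h4, X.nu_unit _ hq, one_pow, one_smul, h0, zero_smul, zero_add] at h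
  rw [I.fderiv_V hz, ContinuousLinearMap.comp_apply, h, map_add, map_smul, map_smul, Iso.N, ← h4,
    cof_cr, real_inner_comm, inner_add_left, real_inner_smul_left, real_inner_smul_left,
    inner_cr_left, inner_cr_right, mul_zero, mul_zero, add_zero]
theorem continuousAt_N {z : E} (hz : z ≠ X.o) : ContinuousAt I.N z := by
  have hq := X.pr_mem z hz
  have h1 := (isob0_pr X hz).continuousAt
  have h2 : ContinuousAt (fun y => fderiv ℝ I.v (X.pr y)) z :=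
    ((I.c1 _ hq).continuousAt_fderiv one_ne_zero).comp h1
  have h3 : ContinuousAt (fun y => X.nu (X.pr y)) z := (X.nu_smooth _ hq).continuousAt.comp h1
  exact contDiff_cof.continuous.continuousAt.comp (f := fun y => (fderiv ℝ I.v (X.pr y),
    X.nu (X.pr y))) (h2.prodMk h3)
theorem measurable_N : Measurable I.N :=
  measurable_of_continuousOn_compl_singleton X.o fun _ hz =>
    (I.continuousAt_N hz).continuousWithinAt

end Iso

end Pool.Agent.Bor
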