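import Pool.Agent.P.MP_26ecb7_gt.BesI

noncomputable section
open Set Filter Topology MeasureTheory Metric
open scoped RealInnerProductSpace ContDiff ENNReal

namespace Pool.Agent.Bor

/-- the data of a small square in a chart -/
theorem Appr.dat {X : Surf} {I : Iso X} (A : Appr I) {B : Set E} (hB : μH[3 * I.al] B = 0)
    {ε : ℕ → ℝ} {V : E → E} (M : Mo A ε V) (hg : ∀ q ∈ X.S, q ∉ B →
      GoodS (fun _ => fderiv ℝ I.v) X.S q ∨ BesS (fderiv ℝ I.v) X.S q) (R R' : Rot) {c : P} {r : ℝ}
    (hr : 0 < r) (hr1 : r ≤ 1) (hc : ∀ x ∈ sqr c r, 1 / 2 < ⟪I.n R x, R'.R (ee 2)⟫) :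
    ∃ p : ℕ → P → P,
      Dat p (fun x => gn R' (I.n R x)) (X.ka R) c r I.al (sqr c r ∩ X.psi R ⁻¹' B) := by
  have hal : 0 < I.al := by linarith [I.al_gt]
  obtain ⟨K, hK, hk⟩ := loca_key A R R' hc
  obtain ⟨L, hL, hl⟩ := loca_lip (X.sm_psi R) c r
  have m : ∀ z, X.psi R z ∈ thickening A.tau X.S := fun z =>
    self_subset_thickening A.tau_pos _ (X.psi_mem R z)
  refine ⟨fun n x => locaG R' (un (A.w R n) x), hr, hr1, I.al_gt, I.al_le,
    fun n => (loca_G_smooth R').comp (A.imm_w R n).sm_un, fun x hx => ?_, X.continuous_ka R,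
    ?_, fun c' r' hr' hs => ?_, ?_,
    X.null_preimage R (by linarith) hB (sqr_compact c r), fun x hx hS => ?_⟩
  · exact (ContinuousAt.comp (f := I.n R)
      (contDiffAt_gn R' (by linarith [hc x hx])).continuousAt
      (I.continuous_n R).continuousAt).continuousWithinAt
  · rw [Metric.tendstoUniformlyOn_iff]
    intro ε hε
    filter_upwards [loca_ev A R R' hc, Metric.tendstoUniformly_iff.1 (A.un_conv R) (ε / 20)
      (by positivity)] with n h1 h2 x hx
    rw [loca_G_eq R' (h1 x hx).le]
    refine (loca_dist R' (by linarith [hc x hx]) (h1 x hx).le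
      ((A.imm_w R n).norm_un x)).trans_lt ?_
    have h3 := h2 x
    rw [dist_eq_norm] at h3
    linarith
  · refine (loca_gauss A R c' hr').congr' ?_
    filter_upwards [loca_ev A R R' hc] with n h1
    refine setIntegral_congr_fun (sqr_compact c' r').measurableSet fun x hx => ?_
    simp only [loca_kap R' (A.imm_w R n) (h1 x (hs hx))]
  · refine ⟨K * (A.H * L ^ I.al + 1), by have := A.H_nonneg; positivity, ?_⟩
    filter_upwards [hk] with n h1 x hx y hy
    refine (h1 x hx y hy).trans ?_
    rw [mul_assoc]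
    refine mul_le_mul_of_nonneg_left ?_ hK
    have h2 := A.hol n _ (m x) _ (m y)
    have h3 : ‖X.psi R x - X.psi R y‖ ^ I.al ≤ L ^ I.al * dist x y ^ I.al := by
      rw [← Real.mul_rpow hL dist_nonneg]
      exact Real.rpow_le_rpow (norm_nonneg _) (hl x hx y hy) hal.le
    have h4 : dist x y ≤ dist x y ^ I.al := by
      have h5 := Real.rpow_le_rpow_of_exponent_ge' (x := dist x y) dist_nonneg
        ((dist_le_of_sqr hx hy).trans hr1) hal.le I.al_le
      rwa [Real.rpow_one] at h5
    have h6 := mul_le_mul_of_nonneg_left h3 A.H_nonneg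
    nlinarith
  · rcases hg _ (X.psi_mem R x) (fun h => hS ⟨hx, h⟩) with h0 | h0
    swap
    · exact Or.inr (M.van R R' hc h0)
    left
    have h1 := A.good _ (X.psi_mem R x) h0
    refine h1.transfer (φ := X.psi R) (K := K + L) (ρ := 1) (by positivity) one_pos rfl
      (fun _ _ => trivial) hx (fun y hy z hz => ?_) ?_
    · rw [dist_eq_norm]
      exact (hl y hy.1 z hz.1).trans (mul_le_mul_of_nonneg_right (by linarith) dist_nonneg)
    · filter_upwards [hk] with n h2 y hy z hz
      rw [dist_eq_norm (fderiv ℝ (A.W n) _)]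
      exact (h2 y hy.1 z hz.1).trans (mul_le_mul_of_nonneg_right (by linarith) (by positivity))

end Pool.Agent.Bor
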