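import Pool.Agent.P.MP_26ecb7_gt.CConv
import Pool.Agent.P.MP_26ecb7_gt.Anom
import Pool.Agent.P.MP_26ecb7_gt.GoodL

noncomputable section
open Set Filter Topology MeasureTheory Metric
open scoped RealInnerProductSpace ContDiff ENNReal

namespace Pool.Agent.Bor

/-- a positive smooth function equal to the identity from one quarter on -/
def locaS (t : ℝ) : ℝ :=
  t * Real.smoothTransition (8 * t - 1) + (1 - Real.smoothTransition (8 * t - 1))

theorem loca_S_pos (t : ℝ) : 0 < locaS t := by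
  unfold locaS
  rcases le_or_gt (8 * t - 1) 0 with h | h
  · rw [Real.smoothTransition.zero_of_nonpos h]; norm_num
  · have h1 := Real.smoothTransition.pos_of_pos h
    have h2 := Real.smoothTransition.le_one (8 * t - 1)
    have h3 : 0 < t * Real.smoothTransition (8 * t - 1) := mul_pos (by linarith) h1
    linarith

theorem loca_S_eq {t : ℝ} (ht : 1 / 4 ≤ t) : locaS t = t := by
  unfold locaS
  rw [Real.smoothTransition.one_of_one_le (by linarith)]; ring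

theorem loca_S_smooth : ContDiff ℝ ∞ locaS := by
  have h : ContDiff ℝ ∞ fun t : ℝ => Real.smoothTransition (8 * t - 1) :=
    Real.smoothTransition.contDiff.comp ((contDiff_const.mul contDiff_id).sub contDiff_const)
  exact (contDiff_id.mul h).add (contDiff_const.sub h)

/-- a globally smooth version of the gnomonic coordinates -/
def locaG (R : Rot) (y : E) : P :=
  (⟪y, R.R (ee 0)⟫ / locaS ⟪y, R.R (ee 2)⟫, ⟪y, R.R (ee 1)⟫ / locaS ⟪y, R.R (ee 2)⟫)

theorem loca_G_smooth (R : Rot) : ContDiff ℝ ∞ (locaG R) := by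
  have h : ∀ k, ContDiff ℝ ∞ fun y : E => ⟪y, R.R (ee k)⟫ := fun k =>
    contDiff_id.inner ℝ contDiff_const
  have h2 : ContDiff ℝ ∞ fun y : E => locaS ⟪y, R.R (ee 2)⟫ := loca_S_smooth.comp (h 2)
  exact ((h 0).div h2 fun y => (loca_S_pos _).ne').prodMk
    ((h 1).div h2 fun y => (loca_S_pos _).ne')

theorem loca_G_eq (R : Rot) {y : E} (hy : 1 / 4 ≤ ⟪y, R.R (ee 2)⟫) : locaG R y = gn R y := by
  unfold locaG gn
  rw [loca_S_eq hy]

theorem loca_norm (R : Rot) : ‖R.R (ee 2)‖ = 1 := by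
  rw [R.R.norm_map]; simp [ee]

theorem loca_lip {f : P → E} (hf : ContDiff ℝ ∞ f) (c : P) (r : ℝ) :
    ∃ L : ℝ, 0 ≤ L ∧ ∀ x ∈ sqr c r, ∀ y ∈ sqr c r, ‖f x - f y‖ ≤ L * dist x y := by
  obtain ⟨K, hK⟩ := hf.contDiffOn.exists_lipschitzOnWith (s := sqr c r) (by simp)
    (convex_Icc _ _) (sqr_compact c r)
  exact ⟨K, K.2, fun x hx y hy => by
    rw [← dist_eq_norm]; exact hK.dist_le_mul x hx y hy⟩

theorem loca_jp_congr {p q : P → P} {x : P} (h : p =ᶠ[𝓝 x] q) : jp p x = jp q x := by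
  have h1 : (fun y => (p y).1) =ᶠ[𝓝 x] fun y => (q y).1 := h.mono fun y hy => by
    simp only [hy]
  have h2 : (fun y => (p y).2) =ᶠ[𝓝 x] fun y => (q y).2 := h.mono fun y hy => by
    simp only [hy]
  simp only [jp, jac, pd, h1.fderiv_eq, h2.fderiv_eq]

theorem loca_pd_sub {f g : P → ℝ} (hf : ContDiff ℝ ∞ f) (hg : ContDiff ℝ ∞ g) (i : Fin 2) (x : P) :
    pd i (fun y => f y - g y) x = pd i f x - pd i g x := by
  unfold pd
  rw [fderiv_fun_sub (hf.differentiable (by simp) x) (hg.differentiable (by simp) x)]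
  rfl

theorem loca_kap (R : Rot) {w : P → E} (hw : Imm w) {x : P} (hx : 1 / 4 < ⟪un w x, R.R (ee 2)⟫) :
    lam (locaG R (un w x)) * jp (fun y => locaG R (un w y)) x = kap (un w) x := by
  have hc : Continuous fun y => ⟪un w y, R.R (ee 2)⟫ :=
    hw.sm_un.continuous.inner continuous_const
  have h1 : (fun y => locaG R (un w y)) =ᶠ[𝓝 x] fun y => gn R (un w y) :=
    (hc.continuousAt.eventually (lt_mem_nhds hx)).mono fun y hy => loca_G_eq R (le_of_lt hy)
  rw [loca_jp_congr h1, loca_G_eq R hx.le,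
    kap_gn R (hw.sm_un.differentiable (by simp) x) (hw.norm_un x) (by linarith)]

theorem loca_dist (R : Rot) {y z : E} (hy : 1 / 4 ≤ ⟪y, R.R (ee 2)⟫) (hz : 1 / 4 ≤ ⟪z, R.R (ee 2)⟫)
    (h1 : ‖z‖ = 1) : dist (gn R y) (gn R z) ≤ 20 * ‖y - z‖ := by
  have h := dist_gn_le R (c := 1 / 4) (K := 1) (by norm_num) hy hz h1.le
  norm_num at h
  exact h

theorem loca_nrm {L L' : E →L[ℝ] E} {v v' : E} {C : ℝ} (hL : ‖L‖ ≤ C) (hL' : ‖L'‖ ≤ C)
    (hv : ‖v‖ = 1) (h : 1 / 2 ≤ ‖cof L v‖) (h' : 1 / 2 ≤ ‖cof L' v'‖) :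
    ‖nrm (cof L v) - nrm (cof L' v')‖ ≤ 24 * C * ‖L - L'‖ + 12 * C ^ 2 * ‖v - v'‖ := by
  have hC : 0 ≤ C := (norm_nonneg _).trans hL
  have n1 : cof L v ≠ 0 := fun e => by rw [e, norm_zero] at h; norm_num at h
  have n2 : cof L' v' ≠ 0 := fun e => by rw [e, norm_zero] at h'; norm_num at h'
  have e1 : cof L v - cof L' v' = (cof L v - cof L' v) + cof L' (v - v') := by
    rw [cof_sub]; abel
  have e2 : ‖cof L v - cof L' v‖ ≤ 6 * C * ‖L - L'‖ := by
    refine (norm_cof_sub L L' v).trans ?_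
    rw [hv, mul_one]
    exact mul_le_mul_of_nonneg_right (by linarith) (norm_nonneg _)
  have e3 : ‖cof L' (v - v')‖ ≤ 3 * C ^ 2 * ‖v - v'‖ := by
    refine (norm_cof_le L' _).trans (mul_le_mul_of_nonneg_right ?_ (norm_nonneg _))
    have := pow_le_pow_left₀ (norm_nonneg L') hL' 2
    linarith
  have e4 : ‖cof L v - cof L' v'‖ ≤ 6 * C * ‖L - L'‖ + 3 * C ^ 2 * ‖v - v'‖ := by
    rw [e1]; exact (norm_add_le _ _).trans (add_le_add e2 e3)
  refine (norm_nrm_sub n1 n2).trans ?_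
  rw [div_le_iff₀ (by linarith)]
  have e5 : 0 ≤ 24 * C * ‖L - L'‖ + 12 * C ^ 2 * ‖v - v'‖ := by positivity
  nlinarith [mul_le_mul_of_nonneg_left h e5]

theorem loca_ev {X : Surf} {I : Iso X} (A : Appr I) (R R' : Rot) {c : P} {r : ℝ}
    (hc : ∀ x ∈ sqr c r, 1 / 2 < ⟪I.n R x, R'.R (ee 2)⟫) :
    ∀ᶠ n in atTop, ∀ x ∈ sqr c r, 1 / 4 < ⟪un (A.w R n) x, R'.R (ee 2)⟫ := by
  filter_upwards [Metric.tendstoUniformly_iff.1 (A.un_conv R) (1 / 4) (by norm_num)] with n hn x hx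
  have h1 := hn x
  rw [dist_eq_norm] at h1
  have h2 := real_inner_le_norm (I.n R x - un (A.w R n) x) (R'.R (ee 2))
  rw [loca_norm, mul_one, inner_sub_left] at h2
  have h3 := hc x hx
  linarith

theorem loca_key {X : Surf} {I : Iso X} (A : Appr I) (R R' : Rot) {c : P} {r : ℝ}
    (hc : ∀ x ∈ sqr c r, 1 / 2 < ⟪I.n R x, R'.R (ee 2)⟫) :
    ∃ K : ℝ, 0 ≤ K ∧ ∀ᶠ n in atTop, ∀ x ∈ sqr c r, ∀ y ∈ sqr c r,
      dist (locaG R' (un (A.w R n) x)) (locaG R' (un (A.w R n) y)) ≤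
        K * (‖fderiv ℝ (A.W n) (X.psi R x) - fderiv ℝ (A.W n) (X.psi R y)‖ + dist x y) := by
  obtain ⟨C, hC, hW⟩ := A.bound_W
  obtain ⟨L, hL, hl⟩ := loca_lip (X.imm_psi R).sm_un c r
  refine ⟨20 * (24 * C + 12 * C ^ 2 * L), by positivity, ?_⟩
  filter_upwards [hW, loca_ev A R R' hc] with n h1 h2 x hx y hy
  have m : ∀ z, X.psi R z ∈ thickening A.tau X.S := fun z =>
    self_subset_thickening A.tau_pos _ (X.psi_mem R z)
  rw [loca_G_eq R' (h2 x hx).le, loca_G_eq R' (h2 y hy).le]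
  refine (loca_dist R' (h2 x hx).le (h2 y hy).le ((A.imm_w R n).norm_un y)).trans ?_
  rw [A.un_w, A.un_w]
  have h3 := loca_nrm (h1 _ (m x)).2 (h1 _ (m y)).2 (X.nu_unit _ (X.psi_mem R x))
    (A.half n _ (X.psi_mem R x)) (A.half n _ (X.psi_mem R y))
  have h4 := hl x hx y hy
  rw [X.un_psi, X.un_psi] at h4
  have h5 : 12 * C ^ 2 * ‖X.nu (X.psi R x) - X.nu (X.psi R y)‖ ≤ 12 * C ^ 2 * (L * dist x y) :=
    mul_le_mul_of_nonneg_left h4 (by positivity)
  have h6 : 0 ≤ 24 * C * dist x y := by positivity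
  have h7 : 0 ≤ 12 * C ^ 2 * L * ‖fderiv ℝ (A.W n) (X.psi R x) - fderiv ℝ (A.W n) (X.psi R y)‖ := by
    positivity
  unfold Surf.NW
  nlinarith

theorem loca_gauss {X : Surf} {I : Iso X} (A : Appr I) (R : Rot) (c : P) {r : ℝ} (hr : 0 < r) :
    Tendsto (fun n => ∫ x in sqr c r, (kap (un (A.w R n)) x - X.ka R x)) atTop (𝓝 0) := by
  rw [Metric.tendsto_nhds]
  intro ε hε
  have hθ : 0 < ε / (8 * r) := by positivity
  filter_upwards [Metric.tendstoUniformlyOn_iff.1 (A.om_conv R (sqr_compact c r) 0) _ hθ,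
    Metric.tendstoUniformlyOn_iff.1 (A.om_conv R (sqr_compact c r) 1) _ hθ] with n h0 h1
  have s1 := (X.imm_psi R).sm_om
  have s2 := (A.imm_w R n).sm_om
  have e1 : ∀ x, kap (un (A.w R n)) x - X.ka R x =
      pd 0 (fun y => om (X.psi R) 1 y - om (A.w R n) 1 y) x
        - pd 1 (fun y => om (X.psi R) 0 y - om (A.w R n) 0 y) x := fun x => by
    rw [loca_pd_sub (s1 1) (s2 1), loca_pd_sub (s1 0) (s2 0), Surf.ka, (X.imm_psi R).gauss,
      (A.imm_w R n).gauss]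
    ring
  simp only [e1]
  rw [green (((s1 0).sub (s2 0)).of_le (by exact_mod_cast le_top))
    (((s1 1).sub (s2 1)).of_le (by exact_mod_cast le_top)) c hr.le, Real.dist_eq, sub_zero]
  refine (abs_loop_le (K := ε / (8 * r)) hr.le (fun x hx => (h0 x hx).le)
    fun x hx => (h1 x hx).le).trans_lt ?_
  have e2 : 4 * r * (ε / (8 * r)) = ε / 2 := by field_simp; ring
  rw [e2]; linarith

end Pool.Agent.Bor
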