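import Pool.Agent.P.MP_26ecb7_gt.LocA
import Pool.Agent.P.MP_26ecb7_gt.Dens
import Pool.Agent.P.MP_26ecb7_gt.Mu
import Pool.Agent.P.MP_26ecb7_gt.Pou
import Pool.Agent.P.MP_26ecb7_gt.ApprE

noncomputable section
open Set Filter Topology MeasureTheory Metric
open scoped RealInnerProductSpace ContDiff ENNReal

namespace Pool.Agent.Bor

theorem locb_meas (R : Rot) : Measurable (gn R) := by
  unfold gn
  fun_prop

theorem locb_open (z : E) : IsOpen {y : E | 0 < ⟪y, z⟫} :=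
  isOpen_lt continuous_const (by fun_prop)

theorem locb_nrm (R : Rot) {y : E} (h1 : ‖y‖ = 1) (hy : 0 < ⟪y, R.R (ee 2)⟫) :
    nrm (lift R (gn R y)) = y := by
  rw [← nrm_smul hy, lift_gn R hy.ne', nrm_unit h1]

theorem locb_cap {y z : E} (hz : ‖z‖ = 1) (h : dist y z < 1 / 2) : 1 / 2 < ⟪y, z⟫ := by
  have h1 := abs_real_inner_le_norm (y - z) z
  rw [inner_sub_left, real_inner_self_eq_norm_sq, hz, ← dist_eq_norm] at h1
  linarith [(abs_le.1 h1).1]

theorem locb_main {X : Surf} (I : Iso X) {R R' : Rot} {p : ℕ → P → P} {c : P} {r : ℝ} {S : Set P}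
    (D : Dat p (fun x => gn R' (I.n R x)) (X.ka R) c r I.al S)
    (hc : ∀ x ∈ sqr c r, 1 / 2 < ⟪I.n R x, R'.R (ee 2)⟫) {x0 : P} (hx : x0 ∈ interior (sqr c r))
    (hy : gn R' (I.n R x0) ∉ (fun x => gn R' (I.n R x)) '' frontier (sqr c r)) {U : Set E}
    (hU : ∀ x ∈ sqr c r, X.psi R x ∈ U) : ∃ δ > 0, ∀ B : Set E, MeasurableSet B →
      B ⊆ ball (I.n R x0) δ → sig B ≤ X.mu (U ∩ I.N ⁻¹' B) := by
  obtain ⟨δ', h1, h2⟩ := D.dens (X.ka_pos R) hx hy
  have h3 : ∀ x ∈ sqr c r, 0 < ⟪I.n R x, R'.R (ee 2)⟫ := fun x hx => one_half_pos.trans (hc x hx)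
  have h4 := h3 x0 (interior_subset hx)
  have h5 : ∀ᶠ y in 𝓝 (I.n R x0), 0 < ⟪y, R'.R (ee 2)⟫ ∧ gn R' y ∈ ball (gn R' (I.n R x0)) δ' :=
    Eventually.and ((locb_open _).mem_nhds h4)
      ((contDiffAt_gn R' h4.ne').continuousAt.eventually (ball_mem_nhds _ h1))
  obtain ⟨δ, h6, h7⟩ := Metric.eventually_nhds_iff_ball.1 h5
  refine ⟨δ, h6, fun B hB hs => ?_⟩
  have h8 : MeasurableSet ((fun x => nrm (lift R' x)) ⁻¹' B ∩ ball (gn R' (I.n R x0)) δ') :=
    ((measurable_nrm.comp (contDiff_lift R').continuous.measurable) hB).inter measurableSet_ball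
  generalize hB' : (fun x => nrm (lift R' x)) ⁻¹' B ∩ ball (gn R' (I.n R x0)) δ' = B' at h8
  have h9 : MeasurableSet (sqr c r ∩ (fun x => gn R' (I.n R x)) ⁻¹' B') :=
    (sqr_compact c r).measurableSet.inter
      (((locb_meas R').comp (I.continuous_n R).measurable) h8)
  calc sig B ≤ sig ({y | 0 < ⟪y, R'.R (ee 2)⟫ ∧ gn R' y ∈ B'} ∪ (sphere (0 : E) 1)ᶜ) := by
        refine measure_mono fun y hy => or_iff_not_imp_right.2 fun h => ?_
        have k1 := h7 y (hs hy)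
        refine ⟨k1.1, hB' ▸ ⟨?_, k1.2⟩⟩
        rw [mem_preimage, locb_nrm R' (mem_sphere_zero_iff_norm.1 (not_not.1 h)) k1.1]
        exact hy
    _ ≤ sig {y | 0 < ⟪y, R'.R (ee 2)⟫ ∧ gn R' y ∈ B'} := by
        refine (measure_union_le _ _).trans ?_
        rw [sig_compl_sphere, add_zero]
    _ ≤ X.mu (X.psi R '' (sqr c r ∩ (fun x => gn R' (I.n R x)) ⁻¹' B')) := by
        rw [sig_gn R' h8, X.mu_image R h9]
        exact h2 B' h8 (hB' ▸ inter_subset_right)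
    _ ≤ _ := by
        refine measure_mono ?_
        rintro _ ⟨x, ⟨k1, k2⟩, rfl⟩
        have k3 : nrm (lift R' (gn R' (I.n R x))) ∈ B := (hB' ▸ k2 :).1
        rw [locb_nrm R' (I.norm_n R x) (h3 x k1)] at k3
        exact ⟨hU x k1, k3⟩

theorem Iso.lp {X : Surf} (I : Iso X) {B : Set E} (hB : μH[3 * I.al] B = 0)
    (hg : ∀ q ∈ X.S, q ∉ B →
      GoodS (fun _ => fderiv ℝ I.v) X.S q ∨ BesS (fderiv ℝ I.v) X.S q) : LP I := by
  obtain ⟨W⟩ := X.exists_pou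
  obtain ⟨A, ε, V, M⟩ := I.exists_mo
  choose R' hR' using fun (R : Rot) (c : P) => exists_rot (I.norm_n R c)
  let ct : ℕ → P := TopologicalSpace.denseSeq P
  let ρ : ℕ → ℝ := fun m => 1 / ((m : ℝ) + 1) / 2
  have hρ : ∀ m, 0 < 2 * ρ m ∧ 2 * ρ m ≤ 1 := fun m => by
    rw [mul_div_cancel₀ _ two_ne_zero]
    exact ⟨Nat.one_div_pos_of_nat, div_le_one_of_le₀ (by linarith [m.cast_nonneg (α := ℝ)])
      (by positivity)⟩
  let Q : ℕ → ℕ → Set P := fun j m => sqr ((ct j).1 - ρ m, (ct j).2 - ρ m) (2 * ρ m)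
  let Ok : Fin W.k × ℕ × ℕ → Prop := fun i => ∀ x ∈ Q i.2.1 i.2.2,
    1 / 2 < ⟪I.n (W.R i.1) x, (R' (W.R i.1) (ct i.2.1)).R (ee 2)⟫
  let F : Fin W.k × ℕ × ℕ → Set P := fun i =>
    (fun x => gn (R' (W.R i.1) (ct i.2.1)) (I.n (W.R i.1) x)) '' frontier (Q i.2.1 i.2.2)
  have hD := fun i (h : Ok i) => A.dat hB M hg (W.R i.1) _ (hρ _).1 (hρ _).2 h
  have hF : ∀ i, Ok i → MeasurableSet (F i) ∧ volume (F i) = 0 := fun i h => by
    obtain ⟨p, D⟩ := hD i h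
    obtain ⟨M, hM⟩ := D.hol_lim
    have k1 := (sqr_compact _ _).isClosed.frontier_subset (s := Q i.2.1 i.2.2)
    exact ⟨(((sqr_compact _ _).of_isClosed_subset isClosed_frontier k1).image_of_continuousOn
      (D.cont.mono k1)).measurableSet, null_frontier (hρ _).1 I.al_gt hM⟩
  refine ⟨⋃ i, ⋃ _ : Ok i, {y | 0 < ⟪y, (R' (W.R i.1) (ct i.2.1)).R (ee 2)⟫ ∧
    gn (R' (W.R i.1) (ct i.2.1)) y ∈ F i}, ?_, ?_, fun q hq hZ U hU => ?_⟩
  · exact MeasurableSet.iUnion fun i => MeasurableSet.iUnion fun h =>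
      (locb_open _).measurableSet.inter (locb_meas _ (hF i h).1)
  · refine measure_iUnion_null fun i => measure_iUnion_null fun h => ?_
    rw [sig_gn _ (hF i h).1, setLIntegral_measure_zero _ _ (hF i h).2]
  · obtain ⟨a, x0, rfl, -⟩ := W.exists_pos hq
    have k1 : ∀ᶠ x in 𝓝 x0, X.psi (W.R a) x ∈ U ∧ I.n (W.R a) x ∈ ball (I.n (W.R a) x0) (1 / 4) :=
      ((X.sm_psi _).continuous.continuousAt.eventually hU).and
        ((I.continuous_n _).continuousAt.eventually (ball_mem_nhds _ (by norm_num)))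
    obtain ⟨ε, k2, k3⟩ := Metric.eventually_nhds_iff_ball.1 k1
    obtain ⟨m, hm⟩ := exists_nat_one_div_lt k2
    have k4 : 0 < ρ m := by linarith [(hρ m).1]
    obtain ⟨j, hj⟩ := (TopologicalSpace.denseRange_denseSeq P).exists_dist_lt x0 k4
    have k5 : Q j m = closedBall (ct j) (ρ m) := (closedBall_eq_sqr _ _).symm
    have k6 : ∀ x ∈ Q j m, x ∈ ball x0 ε := fun x hx => by
      rw [k5, mem_closedBall] at hx
      have k7 := dist_triangle_right x x0 (ct j)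
      have k8 : ρ m = 1 / ((m : ℝ) + 1) / 2 := rfl
      rw [mem_ball]
      linarith
    have k7 : Ok (a, j, m) := fun x hx => by
      have k8 := (k3 x (k6 x hx)).2
      have k9 := (k3 _ (k6 _ (k5 ▸ mem_closedBall_self k4.le))).2
      have k10 := dist_triangle_right (I.n (W.R a) x) (I.n (W.R a) (ct j)) (I.n (W.R a) x0)
      rw [mem_ball] at k8 k9
      rw [hR']
      exact locb_cap (I.norm_n _ _) (by linarith)
    have k8 : x0 ∈ interior (Q j m) := k5 ▸ ball_subset_interior_closedBall hj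
    obtain ⟨p, D⟩ := hD _ k7
    exact locb_main I D k7 k8 (fun h => hZ (mem_iUnion₂.2
      ⟨(a, j, m), k7, one_half_pos.trans (k7 x0 (interior_subset k8)), h⟩))
      fun x hx => (k3 x (k6 x hx)).1

end Pool.Agent.Bor
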