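import Pool.Agent.P.MP_26ecb7_gt.Conv

noncomputable section
open Set Filter Topology MeasureTheory Metric
open scoped RealInnerProductSpace ContDiff ENNReal

namespace Pool.Agent.Bor

theorem radial_riesz : ∃ J : (E →L[ℝ] ℝ) →L[ℝ] E, ∀ L a, ⟪J L, a⟫ = L a := by
  refine ⟨∑ k : Fin 3, (ContinuousLinearMap.apply ℝ ℝ (ee k)).smulRight (ee k), fun L a => ?_⟩
  have ha : a = ∑ k : Fin 3, a k • ee k := by
    ext k; fin_cases k <;> simp [ee, Fin.sum_univ_three]
  have hL : L a = ∑ k : Fin 3, a k * L (ee k) := by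
    conv_lhs => rw [ha]
    simp [map_sum]
  rw [hL]
  simp only [sum_apply, ContinuousLinearMap.smulRight_apply,
    ContinuousLinearMap.apply_apply, sum_inner, real_inner_smul_left]
  refine Finset.sum_congr rfl fun k _ => ?_
  rw [mul_comm]
  congr 1
  simp [ee, EuclideanSpace.inner_single_left]

theorem radial_uniq {F : E → ℝ} {o : E}
    (h1 : ∀ q ∈ F ⁻¹' {0}, 0 < fderiv ℝ F q (q - o))
    (h2 : ∀ q ∈ F ⁻¹' {0}, ∀ q' ∈ F ⁻¹' {0}, q ≠ q' → fderiv ℝ F q (q' - q) < 0)
    {d : E} (hd : d ≠ 0) {s t : ℝ} (hs : 0 < s) (ht : 0 < t)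
    (es : F (o + s • d) = 0) (et : F (o + t • d) = 0) : s = t := by
  have key : ∀ s t : ℝ, 0 < s → F (o + s • d) = 0 → F (o + t • d) = 0 → s ≠ t → t < s := by
    intro s t hs es et hne
    have a1 := h1 (o + s • d) es
    have a2 := h2 (o + s • d) es (o + t • d) et (by
      intro e
      have : (s - t) • d = 0 := by
        rw [sub_smul, sub_eq_zero]; exact add_left_cancel e
      rcases smul_eq_zero.1 this with h | h
      · exact hne (sub_eq_zero.1 h)
      · exact hd h)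
    have e1 : o + s • d - o = s • d := by abel
    have e2 : o + t • d - (o + s • d) = (t - s) • d := by rw [sub_smul]; abel
    rw [e1, map_smul, smul_eq_mul] at a1
    rw [e2, map_smul, smul_eq_mul] at a2
    have b1 : 0 < fderiv ℝ F (o + s • d) d := (mul_pos_iff_of_pos_left hs).1 a1
    by_contra hc
    have : 0 ≤ (t - s) * fderiv ℝ F (o + s • d) d := mul_nonneg (by linarith [not_lt.1 hc]) b1.le
    linarith
  by_contra hne
  have := key s t hs es et hne
  have := key t s ht et es (Ne.symm hne)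
  linarith

theorem radial_smooth {F : E → ℝ} {o : E} (hF : ContDiff ℝ ∞ F)
    (h1 : ∀ q ∈ F ⁻¹' {0}, 0 < fderiv ℝ F q (q - o))
    (h2 : ∀ q ∈ F ⁻¹' {0}, ∀ q' ∈ F ⁻¹' {0}, q ≠ q' → fderiv ℝ F q (q' - q) < 0)
    {t : E → ℝ} (ht : ∀ d : E, d ≠ 0 → 0 < t d ∧ F (o + t d • d) = 0)
    {d : E} (hd : d ≠ 0) : ContDiffAt ℝ ∞ t d := by
  let f : E × ℝ → ℝ := fun p => F (o + p.2 • p.1)
  have hg : ContDiff ℝ ∞ (fun p : E × ℝ => o + p.2 • p.1) :=
    contDiff_const.add (contDiff_snd.smul contDiff_fst)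
  have hf : ContDiff ℝ ∞ f := hF.comp hg
  have cdf : ContDiffAt ℝ ∞ f (d, t d) := hf.contDiffAt
  obtain ⟨tp, tz⟩ := ht d hd
  have a1 := h1 (o + t d • d) tz
  have e1 : o + t d • d - o = t d • d := by abel
  rw [e1, map_smul, smul_eq_mul] at a1
  have b1 : 0 < fderiv ℝ F (o + t d • d) d := (mul_pos_iff_of_pos_left tp).1 a1
  set c := fderiv ℝ F (o + t d • d) d with hc
  have hder : HasDerivAt (fun s : ℝ => f (d, s)) c (t d) := by
    have i1 : HasDerivAt (fun s : ℝ => o + s • d) d (t d) := by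
      simpa using ((hasDerivAt_id (t d)).smul_const d).const_add o
    exact ((hF.differentiable (by simp)) (o + t d • d)).hasFDerivAt.comp_hasDerivAt (t d) i1
  have hder2 : HasFDerivAt (fun s : ℝ => f (d, s))
      (fderiv ℝ f (d, t d) ∘L ContinuousLinearMap.inr ℝ E ℝ) (t d) :=
    ((hf.differentiable (by simp)) (d, t d)).hasFDerivAt.comp (t d) (hasFDerivAt_prodMk_right d (t d))
  have heq := hder2.unique hder.hasFDerivAt
  have if2 : (fderiv ℝ f (d, t d) ∘L ContinuousLinearMap.inr ℝ E ℝ).IsInvertible := by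
    rw [heq]
    refine ⟨ContinuousLinearEquiv.unitsEquivAut ℝ (Units.mk0 c b1.ne'), ?_⟩
    ext
    simp
  have pn : (∞ : WithTop ℕ∞) ≠ 0 := by simp
  have s1 := cdf.contDiffAt_implicitFunction pn if2
  have s2 := cdf.eventually_apply_implicitFunction pn if2
  have s3 := cdf.implicitFunction_apply_self pn if2
  set ψ := cdf.implicitFunction pn if2
  simp only at s1 s2 s3
  refine s1.congr_of_eventuallyEq ?_
  have s4 : ∀ᶠ x in 𝓝 d, 0 < ψ x := s1.continuousAt.eventually (lt_mem_nhds (by rw [s3]; exact tp))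
  have s5 : ∀ᶠ x in 𝓝 d, x ≠ 0 := eventually_ne_nhds hd
  filter_upwards [s2, s4, s5] with x x2 x4 x5
  exact radial_uniq h1 h2 x5 (ht x x5).1 x4 (ht x x5).2 (x2.trans tz)

theorem Lev.exists_surf {F : E → ℝ} (h : Lev F) : ∃ X : Surf, X.S = F ⁻¹' {0} ∧
    ∀ q ∈ X.S, ∀ a, ⟪X.nu q, a⟫ = 0 ↔ fderiv ℝ F q a = 0 := by
  obtain ⟨o, h1, h2, h3⟩ := h.convex
  obtain ⟨J, hJ⟩ := radial_riesz
  choose! t ht using h3
  have hF := h.smooth
  have hD : ContDiff ℝ ∞ (fderiv ℝ F) := hF.fderiv_right (by simp)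
  let G : E → E := fun x => J (fderiv ℝ F x)
  have hG : ContDiff ℝ ∞ G := J.contDiff.comp hD
  have G0 : ∀ q ∈ F ⁻¹' {0}, G q ≠ 0 := by
    intro q hq e
    apply h.reg q hq
    ext a
    rw [← hJ]
    change ⟪G q, a⟫ = _
    rw [e]; simp
  have Gp : ∀ q ∈ F ⁻¹' {0}, 0 < ‖G q‖⁻¹ := fun q hq => inv_pos.2 (norm_pos_iff.2 (G0 q hq))
  have nuin : ∀ q a, ⟪nrm (G q), a⟫ = ‖G q‖⁻¹ * fderiv ℝ F q a := by
    intro q a
    rw [nrm, real_inner_smul_left, hJ]
  have hn : ∀ q ∈ F ⁻¹' {0}, ContDiffAt ℝ ∞ (fun x => ‖G x‖⁻¹) q := fun q hq =>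
    (hG.contDiffAt.norm ℝ (G0 q hq)).inv (norm_ne_zero_iff.2 (G0 q hq))
  have onot : o ∉ F ⁻¹' {0} := by
    intro ho
    have := h1 o ho
    simp at this
  have prs : ∀ z, z ≠ o → ContDiffAt ℝ ∞ (fun z => o + t (z - o) • (z - o)) z := by
    intro z hz
    have i1 : ContDiffAt ℝ ∞ (fun z : E => z - o) z := contDiffAt_id.sub contDiffAt_const
    have i2 : ContDiffAt ℝ ∞ (fun z : E => t (z - o)) z :=
      (radial_smooth hF h1 h2 ht (sub_ne_zero.2 hz)).comp z i1
    exact contDiffAt_const.add (i2.smul i1)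
  have iff0 : ∀ q ∈ F ⁻¹' {0}, ∀ a, ⟪nrm (G q), a⟫ = 0 ↔ fderiv ℝ F q a = 0 := by
    intro q hq a
    rw [nuin, mul_eq_zero]
    exact ⟨fun e => e.resolve_left (Gp q hq).ne', Or.inr⟩
  refine ⟨⟨F ⁻¹' {0}, o, fun x => nrm (G x), fun z => o + t (z - o) • (z - o), h.cpt, h.conn, onot,
    ?_, ?_, prs, ?_, ?_, ?_, ?_, ?_, ?_, ?_, ?_⟩, rfl, iff0⟩
  · intro q hq
    exact (hn q hq).smul hG.contDiffAt
  · intro q hq
    rw [nrm, norm_smul, norm_inv, norm_norm]
    exact inv_mul_cancel₀ (norm_ne_zero_iff.2 (G0 q hq))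
  · intro z hz
    exact (ht _ (sub_ne_zero.2 hz)).2
  · intro z hz
    exact ⟨t (z - o), (ht _ (sub_ne_zero.2 hz)).1, rfl⟩
  · intro q hq s hs
    have hd : q - o ≠ 0 := sub_ne_zero.2 fun e => onot (e ▸ hq)
    have e1 : o + s • (q - o) - o = s • (q - o) := by abel
    have hd' : s • (q - o) ≠ 0 := smul_ne_zero hs.ne' hd
    obtain ⟨tp, tz⟩ := ht _ hd'
    rw [smul_smul] at tz
    have := radial_uniq h1 h2 hd (mul_pos tp hs) one_pos tz (by simpa using hq)
    show o + t (o + s • (q - o) - o) • (o + s • (q - o) - o) = q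
    rw [e1, smul_smul, this]
    simp
  · intro z hz a
    have hq : o + t (z - o) • (z - o) ∈ F ⁻¹' {0} := (ht _ (sub_ne_zero.2 hz)).2
    refine (iff0 _ hq _).2 ?_
    have d1 := ((prs z hz).differentiableAt (by simp)).hasFDerivAt
    have d2 := ((hF.differentiable (by simp)) (o + t (z - o) • (z - o))).hasFDerivAt.comp z d1
    have d3 : HasFDerivAt (F ∘ fun z => o + t (z - o) • (z - o)) (0 : E →L[ℝ] ℝ) z := by
      refine (hasFDerivAt_const (0 : ℝ) z).congr_of_eventuallyEq ?_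
      filter_upwards [eventually_ne_nhds hz] with x hx
      exact (ht _ (sub_ne_zero.2 hx)).2
    have := congrArg (fun L => L a) (d2.unique d3)
    simpa using this
  · intro q hq
    show 0 < ⟪nrm (G q), q - o⟫
    rw [nuin]
    exact mul_pos (Gp q hq) (h1 q hq)
  · intro q hq a ha a0
    have ha' := (iff0 q hq a).1 ha
    have d1 := ((hn q hq).differentiableAt (by simp)).hasFDerivAt
    have d0 := ((hD.differentiable (by simp)) q).hasFDerivAt
    have d2 : HasFDerivAt G (J ∘L fderiv ℝ (fderiv ℝ F) q) q := J.hasFDerivAt.comp q d0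
    have d3 : HasFDerivAt (fun x => nrm (G x)) _ q := d1.smul d2
    rw [d3.fderiv]
    simp only [add_apply, smul_apply,
      ContinuousLinearMap.smulRight_apply, ContinuousLinearMap.comp_apply, inner_add_left,
      real_inner_smul_left]
    have e : ⟪G q, a⟫ = 0 := (hJ _ _).trans ha'
    rw [e, hJ, mul_zero, add_zero]
    exact mul_pos (Gp q hq) (h.curv q hq a ha' a0)
  · intro q hq q' hq' e
    by_contra hne
    have a1 := mul_neg_of_pos_of_neg (Gp q hq) (h2 q hq q' hq' hne)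
    have a2 := mul_neg_of_pos_of_neg (Gp q' hq') (h2 q' hq' q hq (Ne.symm hne))
    rw [← nuin] at a1 a2
    have e' : nrm (G q) = nrm (G q') := e
    rw [← e', ← neg_sub q' q, inner_neg_right] at a2
    linarith
  · intro y hy
    have y1 : ‖y‖ = 1 := by simpa using hy
    have y0 : y ≠ 0 := by
      intro e; rw [e] at y1; simp at y1
    obtain ⟨q, hq, hmax⟩ := h.cpt.exists_isMaxOn h.conn.nonempty
      (innerSL ℝ y).continuous.continuousOn
    have hq0 : F q = 0 := hq
    have ext : IsLocalExtrOn (innerSL ℝ y) {x | F x = F q} q := by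
      rw [hq0]
      exact (hmax.localize).isExtr
    obtain ⟨α, β, hab, hz⟩ := ext.exists_multipliers_of_hasStrictFDerivAt_1d
      (hF.contDiffAt.hasStrictFDerivAt (by simp)) (innerSL ℝ y).hasStrictFDerivAt
    have hz' : ∀ a, α * fderiv ℝ F q a + β * ⟪y, a⟫ = 0 := by
      intro a
      have := congrArg (fun L => L a) hz
      simpa using this
    have b0 : β ≠ 0 := by
      intro e
      have a0 : α ≠ 0 := fun e' => hab (by rw [e, e']; rfl)
      apply h.reg q hq
      ext a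
      have := hz' a
      rw [e, zero_mul, add_zero] at this
      simpa using (mul_eq_zero.1 this).resolve_left a0
    set c := -α / β with hc
    have hy' : ∀ a, ⟪y, a⟫ = c * fderiv ℝ F q a := by
      intro a
      have := hz' a
      rw [hc]
      field_simp
      linarith
    have ey : y = c • G q := by
      refine ext_inner_right ℝ fun a => ?_
      rw [hy', real_inner_smul_left, hJ]
    have cp : 0 < c := by
      obtain ⟨tp, tz⟩ := ht y y0
      have m : ⟪y, o + t y • y⟫ ≤ ⟪y, q⟫ := hmax tz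
      rw [inner_add_right, real_inner_smul_right, real_inner_self_eq_norm_sq, y1] at m
      have m2 : 0 < ⟪y, q - o⟫ := by
        rw [inner_sub_right]; nlinarith
      rw [hy'] at m2
      exact (mul_pos_iff_of_pos_right (h1 q hq)).1 m2
    refine ⟨q, hq, ?_⟩
    have e2 : c * ‖G q‖ = 1 := by
      rw [← y1, ey, norm_smul, Real.norm_of_nonneg cp.le]
    show nrm (G q) = y
    rw [nrm, ey, eq_inv_of_mul_eq_one_left e2]

end Pool.Agent.Bor
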