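import Pool.Agent.P.MP_26ecb7_gt.Fin
import Pool.Agent.P.MP_26ecb7_gt.LocB
import Pool.Agent.P.MP_26ecb7_gt.Count2
import Pool.Agent.P.MP_26ecb7_gt.Radial
import Pool.Agent.P.MP_26ecb7_gt.GoodL

noncomputable section
open Set Filter Topology MeasureTheory Metric
open scoped RealInnerProductSpace ContDiff ENNReal

namespace Pool.Agent.Bor

theorem Iso.rigid {X : Surf} (I : Iso X) {B : Set E} (hB : μH[3 * I.al] B = 0)
    (hg : ∀ q ∈ X.S, q ∉ B →
      GoodS (fun _ => fderiv ℝ I.v) X.S q ∨ BesS (fderiv ℝ I.v) X.S q) :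
    ∃ A : E ≃ᵢ E, ∀ q ∈ X.S, I.v q = A q := by
  obtain ⟨J, s, c, hs, hJ, hc⟩ := (I.lp hB hg).cvx
  obtain ⟨A, hA⟩ := J.rigid_of_frame (fun y => hc.frame y)
  rcases hs with rfl | rfl
  · refine ⟨A.trans (IsometryEquiv.addRight c), fun q hq => ?_⟩
    have h1 := hA q hq
    rw [hJ, one_smul] at h1
    simp [← h1]
  · refine ⟨A.trans ((LinearIsometryEquiv.neg ℝ (E := E)).toIsometryEquiv.trans
      (IsometryEquiv.addRight c)), fun q hq => ?_⟩
    have h1 := hA q hq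
    rw [hJ, neg_one_smul] at h1
    simp [← h1]

end Pool.Agent.Bor
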