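import Pool.Agent.P.MP_26ecb7_gt.Alg

noncomputable section
open Set Filter Topology MeasureTheory Metric
open scoped RealInnerProductSpace ContDiff ENNReal

namespace Pool.Agent.Bor

lemma mat0_comp {Y Z : Type} [UniformSpace Y] [UniformSpace Z] {K : Set P} (hK : IsCompact K)
    {F : ℕ → P → Y} {F0 : P → Y} (hF : TendstoUniformlyOn F F0 atTop K) (c : ContinuousOn F0 K)
    {φ : Y → Z} (hφ : ∀ x ∈ K, ContinuousAt φ (F0 x)) :
    TendstoUniformlyOn (fun n x => φ (F n x)) (fun x => φ (F0 x)) atTop K := fun u hu => by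
  have := (hK.image_of_continuousOn c).uniformContinuousAt_of_continuousAt φ
    (by rintro _ ⟨x, hx, rfl⟩; exact hφ x hx) hu
  filter_upwards [hF _ this] with n hn x hx using hn x hx (mem_image_of_mem _ hx)

lemma mat0_pair {Y : Type} [PseudoMetricSpace Y] {K : Set P} {f g : ℕ → P → Y} {f0 g0 : P → Y}
    (hf : TendstoUniformlyOn f f0 atTop K) (hg : TendstoUniformlyOn g g0 atTop K) :
    TendstoUniformlyOn (fun n x => (f n x, g n x)) (fun x => (f0 x, g0 x)) atTop K := by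
  rw [Metric.tendstoUniformlyOn_iff] at hf hg ⊢
  intro ε hε
  filter_upwards [hf ε hε, hg ε hε] with n h1 h2 x hx
  rw [Prod.dist_eq]
  exact max_lt (h1 x hx) (h2 x hx)

/-- products and quotients of uniformly convergent real sequences on a compact set -/
theorem tu_mul {K : Set P} (hK : IsCompact K) {f g : ℕ → P → ℝ} {f0 g0 : P → ℝ}
    (hf : TendstoUniformlyOn f f0 atTop K) (hg : TendstoUniformlyOn g g0 atTop K)
    (cf : ContinuousOn f0 K) (cg : ContinuousOn g0 K) :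
    TendstoUniformlyOn (fun n x => f n x * g n x) (fun x => f0 x * g0 x) atTop K :=
  mat0_comp hK (mat0_pair hf hg) (cf.prodMk cg) (φ := fun p : ℝ × ℝ => p.1 * p.2)
    fun _ _ => continuous_mul.continuousAt
theorem tu_inv {K : Set P} (hK : IsCompact K) {f : ℕ → P → ℝ} {f0 : P → ℝ}
    (hf : TendstoUniformlyOn f f0 atTop K) (cf : ContinuousOn f0 K) (h0 : ∀ x ∈ K, f0 x ≠ 0) :
    TendstoUniformlyOn (fun n x => (f n x)⁻¹) (fun x => (f0 x)⁻¹) atTop K :=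
  mat0_comp hK hf cf (φ := fun p : ℝ => p⁻¹) fun x hx => continuousAt_inv₀ (h0 x hx)
theorem tu_inner {K : Set P} (hK : IsCompact K) {f g : ℕ → P → E} {f0 g0 : P → E}
    (hf : TendstoUniformlyOn f f0 atTop K) (hg : TendstoUniformlyOn g g0 atTop K)
    (cf : ContinuousOn f0 K) (cg : ContinuousOn g0 K) :
    TendstoUniformlyOn (fun n x => ⟪f n x, g n x⟫) (fun x => ⟪f0 x, g0 x⟫) atTop K :=
  mat0_comp hK (mat0_pair hf hg) (cf.prodMk cg) (φ := fun p : E × E => ⟪p.1, p.2⟫)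
    fun _ _ => continuous_inner.continuousAt
theorem tu_add {K : Set P} {f g : ℕ → P → ℝ} {f0 g0 : P → ℝ}
    (hf : TendstoUniformlyOn f f0 atTop K) (hg : TendstoUniformlyOn g g0 atTop K) :
    TendstoUniformlyOn (fun n x => f n x + g n x) (fun x => f0 x + g0 x) atTop K := hf.add hg
theorem tu_sub {K : Set P} {f g : ℕ → P → ℝ} {f0 g0 : P → ℝ}
    (hf : TendstoUniformlyOn f f0 atTop K) (hg : TendstoUniformlyOn g g0 atTop K) :
    TendstoUniformlyOn (fun n x => f n x - g n x) (fun x => f0 x - g0 x) atTop K := hf.sub hg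
theorem tu_const {K : Set P} (f0 : P → ℝ) : TendstoUniformlyOn (fun _ : ℕ => f0) f0 atTop K :=
  fun _ hu => Eventually.of_forall fun _ _ _ => refl_mem_uniformity hu

/-- two by two inequalities -/
theorem abs_mx_le (T B : Fin 2 → Fin 2 → ℝ) : |mx T B| ≤ ab T * ab B := by
  have h : |mx T B| ≤ |T 0 0| * |B 1 1| + |T 1 1| * |B 0 0| + |T 0 1| * |B 1 0| +
      |T 1 0| * |B 0 1| := by
    simp only [← abs_mul]
    exact (abs_sub _ _).trans (add_le_add_left ((abs_sub _ _).trans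
      (add_le_add_left (abs_add_le _ _) _)) _)
  refine h.trans ?_
  unfold ab
  have e : ∀ a b c d p q r s : ℝ, 0 ≤ a → 0 ≤ b → 0 ≤ c → 0 ≤ d → 0 ≤ p → 0 ≤ q → 0 ≤ r → 0 ≤ s →
      a * s + d * p + b * r + c * q ≤ (a + b + c + d) * (p + q + r + s) := by
    intro a b c d p q r s _ _ _ _ _ _ _ _
    have : (a + b + c + d) * (p + q + r + s) = a * s + d * p + b * r + c * q +
      (a * (p + q + r) + b * (p + q + s) + c * (p + r + s) + d * (q + r + s)) := by ring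
    rw [this]
    exact le_add_of_nonneg_right (by positivity)
  exact e _ _ _ _ _ _ _ _ (abs_nonneg _) (abs_nonneg _) (abs_nonneg _) (abs_nonneg _)
    (abs_nonneg _) (abs_nonneg _) (abs_nonneg _) (abs_nonneg _)
theorem mx_comm (T B : Fin 2 → Fin 2 → ℝ) : mx T B = mx B T := by unfold mx; ring
theorem mx_self (A : Fin 2 → Fin 2 → ℝ) : mx A A = 2 * dt A := by unfold mx dt; ring
theorem dt_nonneg {B : Fin 2 → Fin 2 → ℝ} (hs : B 0 1 = B 1 0) (h : ∀ a b, 0 ≤ qf B a b) :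
    0 ≤ dt B := by
  have := discrim_le_zero (a := B 0 0) (b := B 0 1 + B 1 0) (c := B 1 1) fun x => by
    have := h x 1
    unfold qf at this
    linarith
  unfold discrim at this
  unfold dt
  rw [← hs] at this ⊢
  linarith

lemma mat0_pos {A : Fin 2 → Fin 2 → ℝ} (sA : A 0 1 = A 1 0)
    (hA : ∀ a b, a ≠ 0 ∨ b ≠ 0 → 0 < qf A a b) : 0 < A 0 0 ∧ 0 < A 1 1 ∧ 0 < dt A := by
  have h0 : 0 < A 0 0 := by simpa [qf] using hA 1 0 (Or.inl one_ne_zero)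
  have h1 : 0 < A 1 1 := by simpa [qf] using hA 0 1 (Or.inr one_ne_zero)
  refine ⟨h0, h1, (mul_pos_iff_of_pos_left h0).1 ?_⟩
  have := hA (-A 0 1) (A 0 0) (Or.inr h0.ne')
  unfold qf at this
  unfold dt
  rw [← sA] at this ⊢
  linarith

lemma mat0_key {A B : Fin 2 → Fin 2 → ℝ} (sA : A 0 1 = A 1 0) (sB : B 0 1 = B 1 0)
    (hA : ∀ a b, a ≠ 0 ∨ b ≠ 0 → 0 < qf A a b) (hB : ∀ a b, 0 ≤ qf B a b) (hd : dt A ≤ dt B) :
    0 < B 0 0 ∧ A 0 0 * B 0 0 * (mx A B - 2 * dt A) = dt A * (B 0 0 - A 0 0) ^ 2 +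
      (dt B - dt A) * A 0 0 ^ 2 + (A 0 0 * B 0 1 - A 0 1 * B 0 0) ^ 2 := by
  refine ⟨?_, by unfold mx dt; rw [← sA, ← sB]; ring⟩
  have h0 : 0 ≤ B 0 0 := by simpa [qf] using hB 1 0
  refine lt_of_le_of_ne h0 fun h => ?_
  have h1 := (mat0_pos sA hA).2.2.trans_le hd
  unfold dt at h1
  rw [← h, ← sB] at h1
  nlinarith [sq_nonneg (B 0 1)]

theorem mx_ge {A B : Fin 2 → Fin 2 → ℝ} (sA : A 0 1 = A 1 0) (sB : B 0 1 = B 1 0)
    (hA : ∀ a b, a ≠ 0 ∨ b ≠ 0 → 0 < qf A a b) (hB : ∀ a b, 0 ≤ qf B a b) (hd : dt A ≤ dt B) :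
    2 * dt A ≤ mx A B := by
  obtain ⟨h0, -, h2⟩ := mat0_pos sA hA
  obtain ⟨h3, e⟩ := mat0_key sA sB hA hB hd
  have h4 := sub_nonneg.2 hd
  have h5 : 0 ≤ A 0 0 * B 0 0 * (mx A B - 2 * dt A) := by rw [e]; positivity
  exact sub_nonneg.1 (nonneg_of_mul_nonneg_right h5 (mul_pos h0 h3))
theorem eq_of_mx {A B : Fin 2 → Fin 2 → ℝ} (sA : A 0 1 = A 1 0) (sB : B 0 1 = B 1 0)
    (hA : ∀ a b, a ≠ 0 ∨ b ≠ 0 → 0 < qf A a b) (hB : ∀ a b, 0 ≤ qf B a b) (hd : dt A ≤ dt B)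
    (he : mx A B = 2 * dt A) : B = A := by
  obtain ⟨h0, -, h2⟩ := mat0_pos sA hA
  obtain ⟨h3, e⟩ := mat0_key sA sB hA hB hd
  have h4 := sub_nonneg.2 hd
  rw [he, sub_self, mul_zero] at e
  have p1 : 0 ≤ dt A * (B 0 0 - A 0 0) ^ 2 := by positivity
  have p2 : 0 ≤ (dt B - dt A) * A 0 0 ^ 2 := by positivity
  have p3 : 0 ≤ (A 0 0 * B 0 1 - A 0 1 * B 0 0) ^ 2 := sq_nonneg _
  have q1 : B 0 0 = A 0 0 := by
    have : dt A * (B 0 0 - A 0 0) ^ 2 = 0 := by linarith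
    exact sub_eq_zero.1 (pow_eq_zero_iff two_ne_zero |>.1 ((mul_eq_zero.1 this).resolve_left h2.ne'))
  have q2 : dt B = dt A := by
    have : (dt B - dt A) * A 0 0 ^ 2 = 0 := by linarith
    exact sub_eq_zero.1 ((mul_eq_zero.1 this).resolve_right (pow_ne_zero _ h0.ne'))
  have q3 : B 0 1 = A 0 1 := by
    have : (A 0 0 * B 0 1 - A 0 1 * B 0 0) ^ 2 = 0 := by linarith
    have := pow_eq_zero_iff two_ne_zero |>.1 this
    rw [q1] at this
    exact mul_left_cancel₀ h0.ne' (by linarith)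
  have q4 : B 1 1 = A 1 1 := by
    unfold dt at q2
    rw [← sA, ← sB, q1, q3] at q2
    exact mul_left_cancel₀ h0.ne' (by linarith)
  funext i j
  fin_cases i <;> fin_cases j
  · exact q1
  · exact q3
  · exact sB.symm.trans (q3.trans sA)
  · exact q4

lemma mat0_est {A B : Fin 2 → Fin 2 → ℝ} {θ T d : ℝ} (sA : A 0 1 = A 1 0) (sB : B 0 1 = B 1 0)
    (hA : ∀ a b, a ≠ 0 ∨ b ≠ 0 → 0 < qf A a b) (hθ : 0 ≤ θ)
    (hB : ∀ a b, - (θ * (a ^ 2 + b ^ 2)) ≤ qf B a b) (hT : A 0 0 + A 1 1 ≤ T) (hd : 0 < d)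
    (hd' : d ≤ dt A) :
    0 ≤ mx A B + T * θ ∧ ab B ≤ 2 * T / d * (mx A B + T * θ) + 2 * θ := by
  obtain ⟨h0, h1, h2⟩ := mat0_pos sA hA
  have b0 : -θ ≤ B 0 0 := by simpa [qf] using hB 1 0
  have b1 : -θ ≤ B 1 1 := by simpa [qf] using hB 0 1
  have b2 := hB 1 1
  have b3 := hB 1 (-1)
  have k1 := hB (A 1 1) (-A 0 1)
  have k2 := hB (-A 0 1) (A 0 0)
  have key : dt A * (B 0 0 + B 1 1 + 2 * θ) ≤
      (A 0 0 + A 1 1) * (mx A B + (A 0 0 + A 1 1) * θ) := by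
    unfold qf at k1 k2
    unfold dt mx
    rw [← sA, ← sB] at *
    linarith
  have t0 : 0 ≤ B 0 0 + B 1 1 + 2 * θ := by linarith
  have m0 : 0 ≤ mx A B + (A 0 0 + A 1 1) * θ :=
    nonneg_of_mul_nonneg_right ((mul_nonneg h2.le t0).trans key) (add_pos h0 h1)
  have m1 : mx A B + (A 0 0 + A 1 1) * θ ≤ mx A B + T * θ := by gcongr
  refine ⟨m0.trans m1, ?_⟩
  have m2 : d * (B 0 0 + B 1 1 + 2 * θ) ≤ T * (mx A B + T * θ) :=
    (mul_le_mul_of_nonneg_right hd' t0).trans (key.trans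
      (mul_le_mul hT m1 m0 ((add_pos h0 h1).le.trans hT)))
  have m3 : 2 * (B 0 0 + B 1 1 + 2 * θ) ≤ 2 * T / d * (mx A B + T * θ) := by
    rw [div_mul_eq_mul_div, le_div_iff₀ hd]
    linarith
  have a0 : |B 0 0| ≤ B 0 0 + 2 * θ := abs_le.2 ⟨by linarith, by linarith⟩
  have a1 : |B 1 1| ≤ B 1 1 + 2 * θ := abs_le.2 ⟨by linarith, by linarith⟩
  have a2 : |B 0 1| ≤ (B 0 0 + B 1 1 + 2 * θ) / 2 := by
    unfold qf at b2 b3
    rw [← sB] at b2 b3
    exact abs_le.2 ⟨by linarith, by linarith⟩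
  unfold ab
  rw [← sB]
  linarith

/-- an almost nonnegative array is controlled by its mixed determinant with a positive one -/
theorem ab_le_mx {K : Set P} (hK : IsCompact K) {A : Fin 2 → Fin 2 → P → ℝ}
    (cA : ∀ i j, Continuous (A i j)) (sA : ∀ x, A 0 1 x = A 1 0 x)
    (hA : ∀ x a b, a ≠ 0 ∨ b ≠ 0 → 0 < qf (at2 A x) a b) : ∃ C : ℝ, 0 < C ∧ ∀ x ∈ K,
      ∀ (B : Fin 2 → Fin 2 → ℝ) (θ : ℝ), 0 ≤ θ → B 0 1 = B 1 0 →
        (∀ a b, - (θ * (a ^ 2 + b ^ 2)) ≤ qf B a b) →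
        - (C * θ) ≤ mx (at2 A x) B ∧ ab B ≤ C * (mx (at2 A x) B + C * θ) := by
  obtain ⟨T0, hT0⟩ := hK.exists_bound_of_continuousOn ((cA 0 0).add (cA 1 1)).continuousOn
  obtain ⟨d, hd, hd'⟩ := hK.exists_forall_le' (f := fun x => dt (at2 A x)) (a := 0)
    (((cA 0 0).mul (cA 1 1)).sub ((cA 0 1).mul (cA 1 0))).continuousOn
    fun x _ => (mat0_pos (sA x) (hA x)).2.2
  obtain ⟨T, hT, hT'⟩ : ∃ T : ℝ, 0 ≤ T ∧ ∀ x ∈ K, A 0 0 x + A 1 1 x ≤ T :=
    ⟨max T0 0, le_max_right _ _, fun x hx =>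
      ((le_abs_self _).trans (hT0 x hx)).trans (le_max_left _ _)⟩
  have hq : 0 ≤ 2 * T / d := by positivity
  refine ⟨T + 2 * T / d + 2, by positivity, fun x hx B θ hθ sB hB => ?_⟩
  obtain ⟨h1, h2⟩ := mat0_est (A := at2 A x) (sA x) sB (hA x) hθ hB (hT' x hx) hd (hd' x hx)
  generalize 2 * T / d = q at *
  generalize mx (at2 A x) B = m at *
  have h3 := mul_nonneg hq hθ
  refine ⟨by nlinarith, h2.trans ?_⟩
  have e : (T + q + 2) * (m + (T + q + 2) * θ) = q * (m + T * θ) + 2 * θ +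
      ((T + 2) * (m + T * θ) + (T + q) * (q + 2) * θ + 2 * (q + 1) * θ) := by ring
  rw [e]
  exact le_add_of_nonneg_right (by positivity)


end Pool.Agent.Bor
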