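import Pool.Agent.P.MP_26ecb7_gt.Defs

noncomputable section
open Set Filter Topology MeasureTheory Metric
open scoped RealInnerProductSpace ContDiff ENNReal

namespace Pool.Agent.Bor

variable {Y : Type} [NormedAddCommGroup Y] [NormedSpace ℝ Y] [CompleteSpace Y] {ε : ℝ}

theorem mol0_nonneg (u : E) : 0 ≤ eta u := bump.nonneg_normed u
theorem mol0_integral : ∫ u, eta u = 1 := bump.integral_normed
theorem mol0_smooth : ContDiff ℝ ∞ eta := bump.contDiff_normed
theorem mol0_cont : Continuous eta := bump.continuous_normed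
theorem mol0_cs : HasCompactSupport eta := bump.hasCompactSupport_normed
theorem mol0_integrable : Integrable eta := bump.integrable_normed
theorem mol0_norm_lt {u : E} (h : eta u ≠ 0) : ‖u‖ < 1 := by
  have h1 : u ∈ Function.support (bump.normed (volume : Measure E)) := h
  rw [bump.support_normed_eq] at h1
  simpa [bump] using h1

omit [CompleteSpace Y] in
theorem mol0_int {H : E → Y} (hH : Continuous H) (ε : ℝ) (x : E) :
    Integrable (fun u => eta u • H (x - ε • u)) := by
  refine Continuous.integrable_of_hasCompactSupport (mol0_cont.smul (by fun_prop)) ?_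
  exact mol0_cs.smul_right

theorem mol0_smul_le (hε : 0 < ε) {u : E} (h : eta u ≠ 0) : ‖ε • u‖ ≤ ε := by
  rw [norm_smul, Real.norm_of_nonneg hε.le]
  exact mul_le_of_le_one_right hε.le (mol0_norm_lt h).le

theorem mol0_mem (hε : 0 < ε) (x : E) {u : E} (h : eta u ≠ 0) : x - ε • u ∈ closedBall x ε := by
  rw [mem_closedBall, dist_eq_norm, sub_sub_cancel_left, norm_neg]
  exact mol0_smul_le hε h

omit [CompleteSpace Y] in
theorem mol0_norm_le {F : E → Y} {k : ℝ} (h : ∀ u, eta u ≠ 0 → ‖F u‖ ≤ k) :
    ‖∫ u, eta u • F u‖ ≤ k := by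
  have h1 : ∫ u, eta u * k = k := by rw [integral_mul_const, mol0_integral, one_mul]
  rw [← h1]
  refine norm_integral_le_of_norm_le (mol0_integrable.mul_const k) (ae_of_all _ fun u => ?_)
  rw [norm_smul, Real.norm_of_nonneg (mol0_nonneg u)]
  by_cases hu : eta u = 0
  · simp [hu]
  · exact mul_le_mul_of_nonneg_left (h u hu) (mol0_nonneg u)

theorem mol_smooth (hε : 0 < ε) {H : E → Y} (hH : Continuous H) : ContDiff ℝ ∞ (mol ε H) := by
  have hs : ContDiff ℝ ∞ fun t : E => eta (ε⁻¹ • t) :=
    mol0_smooth.comp (contDiff_id.const_smul ε⁻¹)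
  have hc : HasCompactSupport fun t : E => eta (ε⁻¹ • t) :=
    mol0_cs.comp_homeomorph (Homeomorph.smulOfNeZero ε⁻¹ (inv_ne_zero hε.ne'))
  have h1 := (hc.contDiff_convolution_left (ContinuousLinearMap.lsmul ℝ ℝ) (μ := volume) hs
    hH.locallyIntegrable).const_smul |(ε ^ Module.finrank ℝ E)⁻¹|
  have h2 : mol ε H = fun x => |(ε ^ Module.finrank ℝ E)⁻¹| •
      convolution (fun t : E => eta (ε⁻¹ • t)) H (ContinuousLinearMap.lsmul ℝ ℝ) volume x := by
    funext x
    have := Measure.integral_comp_smul (volume : Measure E)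
      (fun t => eta (ε⁻¹ • t) • H (x - t)) ε
    simp only [smul_smul, inv_mul_cancel₀ hε.ne', one_smul] at this
    exact this
  rw [h2]
  exact h1

theorem fderiv_mol (hε : 0 < ε) {H : E → Y} (hH : ContDiff ℝ 1 H) :
    fderiv ℝ (mol ε H) = mol ε (fderiv ℝ H) := by
  funext x
  have hc : Continuous (fderiv ℝ H) := hH.continuous_fderiv (by simp)
  obtain ⟨M, hM⟩ := (isCompact_closedBall x (1 + ε)).exists_bound_of_continuousOn hc.continuousOn
  refine HasFDerivAt.fderiv ?_
  refine hasFDerivAt_integral_of_dominated_of_fderiv_le (s := ball x 1)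
    (F := fun y u => eta u • H (y - ε • u)) (F' := fun y u => eta u • fderiv ℝ H (y - ε • u))
    (bound := fun u => eta u * M) (ball_mem_nhds x one_pos)
    (Eventually.of_forall fun y => (mol0_int hH.continuous ε y).aestronglyMeasurable)
    (mol0_int hH.continuous ε x) (mol0_int hc ε x).aestronglyMeasurable
    (ae_of_all _ fun u y hy => ?_) (mol0_integrable.mul_const M) (ae_of_all _ fun u y _ => ?_)
  · rw [norm_smul, Real.norm_of_nonneg (mol0_nonneg u)]
    by_cases hu : eta u = 0
    · simp [hu]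
    · refine mul_le_mul_of_nonneg_left (hM _ ?_) (mol0_nonneg u)
      have h1 := mem_closedBall.1 (mol0_mem hε y hu)
      have h2 := mem_ball.1 hy
      rw [mem_closedBall]
      linarith [dist_triangle (y - ε • u) y x]
  · have h1 : HasFDerivAt H (fderiv ℝ H (y - ε • u)) (y - ε • u) :=
      (hH.differentiable (by simp) _).hasFDerivAt
    have h2 : HasFDerivAt (fun y : E => H (y - ε • u)) (fderiv ℝ H (y - ε • u)) y := by
      have h3 := h1.comp y ((hasFDerivAt_id y).sub_const (ε • u))
      rw [ContinuousLinearMap.comp_id] at h3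
      exact h3
    exact h2.const_smul (eta u)

theorem mol_clm {Z : Type} [NormedAddCommGroup Z] [NormedSpace ℝ Z] [CompleteSpace Z]
    (A : Y →L[ℝ] Z) {H : E → Y} (hH : Continuous H) (x : E) :
    A (mol ε H x) = mol ε (fun z => A (H z)) x := by
  unfold mol
  rw [← A.integral_comp_comm (mol0_int hH ε x)]
  simp only [map_smul]

theorem mol_congr (hε : 0 < ε) {H G : E → Y} {x : E} (h : ∀ z ∈ closedBall x ε, H z = G z) :
    mol ε H x = mol ε G x := by
  unfold mol
  refine integral_congr_ae (ae_of_all _ fun u => ?_)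
  by_cases hu : eta u = 0
  · simp [hu]
  · simp only [h _ (mol0_mem hε x hu)]

theorem mol_const (y : Y) (x : E) : mol ε (fun _ => y) x = y := by
  unfold mol
  rw [integral_smul_const, mol0_integral, one_smul]

theorem mol_add {H G : E → Y} (hH : Continuous H) (hG : Continuous G) (x : E) :
    mol ε (fun z => H z + G z) x = mol ε H x + mol ε G x := by
  unfold mol
  rw [← integral_add (mol0_int hH ε x) (mol0_int hG ε x)]
  simp only [smul_add]

theorem mol_sub {H G : E → Y} (hH : Continuous H) (hG : Continuous G) (x : E) :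
    mol ε (fun z => H z - G z) x = mol ε H x - mol ε G x := by
  unfold mol
  rw [← integral_sub (mol0_int hH ε x) (mol0_int hG ε x)]
  simp only [smul_sub]

theorem mol_shift (H : E → Y) (x b : E) : mol ε H (x + b) = mol ε (fun z => H (z + b)) x := by
  unfold mol
  simp only [add_sub_right_comm]

theorem mol_le (hε : 0 < ε) {H : E → ℝ} (hH : Continuous H) {x : E} {k : ℝ}
    (h : ∀ z ∈ closedBall x ε, H z ≤ k) : mol ε H x ≤ k := by
  have h1 : ∫ u, eta u * k = k := by rw [integral_mul_const, mol0_integral, one_mul]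
  rw [← h1]
  refine integral_mono (mol0_int hH ε x) (mol0_integrable.mul_const k) fun u => ?_
  by_cases hu : eta u = 0
  · simp [hu]
  · exact mul_le_mul_of_nonneg_left (h _ (mol0_mem hε x hu)) (mol0_nonneg u)

theorem norm_mol_sub (hε : 0 < ε) {H : E → Y} (hH : Continuous H) {x : E} {y : Y} {k : ℝ}
    (h : ∀ z ∈ closedBall x ε, ‖H z - y‖ ≤ k) : ‖mol ε H x - y‖ ≤ k := by
  have h1 := mol_sub (ε := ε) hH (continuous_const (y := y)) x
  rw [mol_const] at h1
  rw [← h1]
  exact mol0_norm_le fun u hu => h _ (mol0_mem hε x hu)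

theorem norm_mol_sub_mol (hε : 0 < ε) {H : E → Y} (hH : Continuous H) {x x' : E} {k : ℝ}
    (h : ∀ u : E, ‖u‖ ≤ ε → ‖H (x - u) - H (x' - u)‖ ≤ k) : ‖mol ε H x - mol ε H x'‖ ≤ k := by
  unfold mol
  rw [← integral_sub (mol0_int hH ε x) (mol0_int hH ε x')]
  simp only [← smul_sub]
  exact mol0_norm_le fun u hu => h _ (mol0_smul_le hε hu)

end Pool.Agent.Bor
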