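import Mathlib

namespace Pool.Agent.Bor

/-- the zero set of `F` is a smooth compact connected regular level set of positive curvature -/
structure Ovaloid {X : Type} [NormedAddCommGroup X] [NormedSpace ℝ X] (F : X → ℝ) : Prop where
  smooth : ContDiff ℝ ((⊤ : ℕ∞) : WithTop ℕ∞) F
  compact : IsCompact (F ⁻¹' {0})
  connected : IsConnected (F ⁻¹' {0})
  regular : ∀ x ∈ F ⁻¹' {0}, fderiv ℝ F x ≠ 0
  curved : ∀ x ∈ F ⁻¹' {0}, ∀ w : X,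
    fderiv ℝ F x w = 0 → w ≠ 0 → 0 < fderiv ℝ (fderiv ℝ F) x w w

/-- `v` is an isometric map of the zero set of `F` with `α`-Hoelder derivative -/
structure HolderIsometric {X : Type} [NormedAddCommGroup X] [NormedSpace ℝ X] (F : X → ℝ)
    (v : X → X) (α : NNReal) : Prop where
  c1 : ∃ U : Set X, IsOpen U ∧ F ⁻¹' {0} ⊆ U ∧ ContDiffOn ℝ 1 v U
  holder : ∃ C : NNReal, HolderOnWith C α (fderiv ℝ v) (F ⁻¹' {0})
  isometric : ∀ x ∈ F ⁻¹' {0}, ∀ w : X, fderiv ℝ F x w = 0 → ‖fderiv ℝ v x w‖ = ‖w‖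

/-- `D` restricted to `T` is regular at `x`: near `x` either `D` is Hoelder with exponent `β` and
pointwise Hoelder at `x` with exponent `γ`, where `β < γ (3 β - 1)`, or `D` is Hoelder with
exponent `2/3` and `D y - D x` is little o of `‖y - x‖ ^ (2/3)`, or the critical Besov defect of
`D` has density zero at `x`, or `D` has bounded variation near `x`. -/
def RegularAt {X Y : Type} [NormedAddCommGroup X] [MeasurableSpace X] [BorelSpace X]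
    [NormedAddCommGroup Y] (D : X → Y) (T : Set X) (x : X) : Prop :=
  (∃ r L β γ : ℝ, 0 < r ∧ 1 / 2 < β ∧ β ≤ 1 ∧ β < γ * (3 * β - 1) ∧
    (∀ y ∈ T ∩ Metric.ball x r, ∀ z ∈ T ∩ Metric.ball x r, ‖D y - D z‖ ≤ L * ‖y - z‖ ^ β) ∧
    (∀ y ∈ T ∩ Metric.ball x r, ‖D y - D x‖ ≤ L * ‖y - x‖ ^ γ)) ∨
  (∃ r L : ℝ, 0 < r ∧
    (∀ y ∈ T ∩ Metric.ball x r, ∀ z ∈ T ∩ Metric.ball x r,
      ‖D y - D z‖ ≤ L * ‖y - z‖ ^ (2 / 3 : ℝ)) ∧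
    (fun y => D y - D x) =o[nhdsWithin x T] (fun y => ‖y - x‖ ^ (2 / 3 : ℝ))) ∨
  (∀ η : ℝ, 0 < η → ∀ᶠ r in nhdsWithin (0 : ℝ) (Set.Ioi 0), ∀ᶠ ε in nhdsWithin (0 : ℝ) (Set.Ioi 0),
    ∫⁻ y in T ∩ Metric.ball x r, ∫⁻ z in T ∩ Metric.ball y ε, ‖D y - D z‖ₑ ^ 3
      ∂(MeasureTheory.Measure.hausdorffMeasure 2) ∂(MeasureTheory.Measure.hausdorffMeasure 2)
      ≤ ENNReal.ofReal (η * r ^ 2 * ε ^ 4)) ∨
  (∃ r M : ℝ, 0 < r ∧ ∀ᶠ ε in nhdsWithin (0 : ℝ) (Set.Ioi 0),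
    ∫⁻ y in T ∩ Metric.ball x r, ∫⁻ z in T ∩ Metric.ball y ε, ‖D y - D z‖ₑ
      ∂(MeasureTheory.Measure.hausdorffMeasure 2) ∂(MeasureTheory.Measure.hausdorffMeasure 2)
      ≤ ENNReal.ofReal (M * ε ^ 3))

end Pool.Agent.Bor
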