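import Pool.Agent.P.MP_26ecb7_gt.Tang0

noncomputable section
open Set Filter Topology MeasureTheory Metric
open scoped RealInnerProductSpace ContDiff ENNReal

namespace Pool.Agent.Bor

/-- bound for the Christoffel expression of the projection -/
theorem Appr.chr_le {X : Surf} {I : Iso X} (A : Appr I) : ∃ K : ℝ, 0 ≤ K ∧
    ∀ z ∈ thickening A.tau X.S, ∀ a b c : E, |chr X.pr z a b c| ≤ K * ‖a‖ * ‖b‖ * ‖c‖ := by
  have hK : IsCompact (cthickening A.tau X.S) := X.cpt.cthickening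
  have hne : ∀ z ∈ cthickening A.tau X.S, z ≠ X.o := fun z hz e => A.o_not (e ▸ hz)
  have h1 : ∀ z ∈ cthickening A.tau X.S, ContDiffAt ℝ 1 (fderiv ℝ X.pr) z := fun z hz =>
    (X.pr_smooth z (hne z hz)).fderiv_right (m := 1)
      (WithTop.coe_le_coe.2 (le_top : ((1 + 1 : ℕ∞)) ≤ ⊤))
  have c1 : ContinuousOn (fderiv ℝ X.pr) (cthickening A.tau X.S) := fun z hz =>
    (h1 z hz).continuousAt.continuousWithinAt
  have c2 : ContinuousOn (fderiv ℝ (fderiv ℝ X.pr)) (cthickening A.tau X.S) := fun z hz =>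
    ((h1 z hz).fderiv_right (m := 0) (by simp)).continuousAt.continuousWithinAt
  obtain ⟨M1, hM1⟩ := hK.exists_bound_of_continuousOn c1
  obtain ⟨M2, hM2⟩ := hK.exists_bound_of_continuousOn (E := E →L[ℝ] E →L[ℝ] E)
    (f := fderiv ℝ (fderiv ℝ X.pr)) c2
  refine ⟨max M2 0 * max M1 0, by positivity, fun z hz a b c => ?_⟩
  have hz' := thickening_subset_cthickening _ _ hz
  have b1 : ‖fderiv ℝ X.pr z c‖ ≤ max M1 0 * ‖c‖ :=
    (ContinuousLinearMap.le_opNorm _ _).trans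
      (mul_le_mul_of_nonneg_right ((hM1 z hz').trans (le_max_left _ _)) (norm_nonneg _))
  have b2 : ‖fderiv ℝ (fderiv ℝ X.pr) z a b‖ ≤ max M2 0 * ‖a‖ * ‖b‖ :=
    (ContinuousLinearMap.le_opNorm₂ _ _ _).trans (mul_le_mul_of_nonneg_right
      (mul_le_mul_of_nonneg_right ((hM2 z hz').trans (le_max_left _ _)) (norm_nonneg _))
      (norm_nonneg _))
  refine (abs_real_inner_le_norm _ _).trans
    ((mul_le_mul b2 b1 (norm_nonneg _) (by positivity)).trans (le_of_eq (by ring)))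

theorem tang_one {X : Surf} {I : Iso X} (A : Appr I) : ∃ K : ℝ, 0 ≤ K ∧ ∀ q ∈ X.S,
    ∀ z ∈ ball q (A.tau / 2), ∀ u b c : E, ‖u‖ ≤ ‖b‖ → ‖b‖ < A.tau / 2 →
      |⟪fderiv ℝ I.V z c, fderiv ℝ I.V (z + u) b - fderiv ℝ I.V z b⟫| ≤ K * ‖b‖ ^ 2 * ‖c‖ := by
  obtain ⟨K, hK, h⟩ := A.tang
  obtain ⟨K', hK', h'⟩ := A.chr_le
  refine ⟨K + K', by positivity, fun q hq z hz u b c hu hb => ?_⟩
  have ht := A.tau_pos
  have ht1 := A.tau_le
  have hz1 : z ∈ ball q A.tau := ball_subset_ball (by linarith) hz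
  have hz2 : z + u ∈ ball q A.tau := by
    rw [mem_ball] at hz ⊢
    have := dist_triangle (z + u) z q
    rw [dist_self_add_left] at this
    linarith
  have h1 := h q hq z hz1 (z + u) hz2 b c
  rw [add_sub_cancel_left] at h1
  have h2 := h' z (ball_subset_thickening hq _ hz1) u b c
  have h3 : ‖u‖ ^ (2 * I.al) ≤ ‖b‖ :=
    (Real.rpow_le_self_of_le_one (norm_nonneg _) (by linarith) (by linarith [I.al_gt])).trans hu
  have h4 : K * ‖u‖ ^ (2 * I.al) * ‖b‖ * ‖c‖ ≤ K * ‖b‖ * ‖b‖ * ‖c‖ := by gcongr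
  have h5 : K' * ‖u‖ * ‖b‖ * ‖c‖ ≤ K' * ‖b‖ * ‖b‖ * ‖c‖ := by gcongr
  have h6 := abs_sub_abs_le_abs_sub
    ⟪fderiv ℝ I.V z c, fderiv ℝ I.V (z + u) b - fderiv ℝ I.V z b⟫ (chr X.pr z u b c)
  have e : (K + K') * ‖b‖ ^ 2 * ‖c‖ = K * ‖b‖ * ‖b‖ * ‖c‖ + K' * ‖b‖ * ‖b‖ * ‖c‖ := by ring
  linarith

theorem tang_deriv {X : Surf} {I : Iso X} (A : Appr I) {q : E} (hq : q ∈ X.S) {z : E}
    (hz : z ∈ ball q (A.tau / 2)) {b : E} (hb : ‖b‖ < A.tau / 2) {s : ℝ} (hs : s ∈ Icc (0 : ℝ) 1) :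
    HasDerivAt (fun t : ℝ => I.V (z + t • b)) (fderiv ℝ I.V (z + s • b) b) s := by
  have hu : ‖s • b‖ ≤ ‖b‖ := by
    rw [norm_smul, Real.norm_of_nonneg hs.1]
    exact mul_le_of_le_one_left (norm_nonneg _) hs.2
  have hz2 : z + s • b ∈ ball q A.tau := by
    rw [mem_ball] at hz ⊢
    have := dist_triangle (z + s • b) z q
    rw [dist_self_add_left] at this
    linarith
  have hne : z + s • b ≠ X.o := fun e =>
    A.o_not (e ▸ thickening_subset_cthickening _ _ (ball_subset_thickening hq _ hz2))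
  have h1 : HasFDerivAt I.V (fderiv ℝ I.V (z + s • b)) (z + s • b) :=
    ((I.V_c1 hne).differentiableAt (by simp)).hasFDerivAt
  have h2 : HasDerivAt (fun t : ℝ => z + t • b) b s := by
    have := ((hasDerivAt_id s).smul_const b).const_add z
    rwa [one_smul] at this
  exact HasFDerivAt.comp_hasDerivAt (l := I.V) (f := fun t : ℝ => z + t • b) s h1 h2

/-- tangential second differences are quadratic -/
theorem Appr.sec_tang {X : Surf} {I : Iso X} (A : Appr I) : ∃ K : ℝ, 0 ≤ K ∧ ∀ q ∈ X.S,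
    ∀ z ∈ ball q (A.tau / 2), ∀ b c : E, ‖b‖ < A.tau / 2 →
      |⟪fderiv ℝ I.V z c, I.V (z + b) + I.V (z - b) - (2 : ℝ) • I.V z⟫| ≤ K * ‖b‖ ^ 2 * ‖c‖ := by
  obtain ⟨K, hK, h⟩ := tang_one A
  refine ⟨2 * K, by positivity, fun q hq z hz b c hb => ?_⟩
  have hb' : ‖-b‖ < A.tau / 2 := by rwa [norm_neg]
  have hd : ∀ s ∈ Icc (0 : ℝ) 1, HasDerivWithinAt
      (fun t : ℝ => ⟪fderiv ℝ I.V z c, I.V (z + t • b) + I.V (z + t • -b)⟫)
      ⟪fderiv ℝ I.V z c, fderiv ℝ I.V (z + s • b) b + fderiv ℝ I.V (z + s • -b) (-b)⟫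
      (Icc (0 : ℝ) 1) s := fun s hs => by
    have h1 := (tang_deriv A hq hz hb hs).add (tang_deriv A hq hz hb' hs)
    exact ((innerSL ℝ (fderiv ℝ I.V z c)).hasFDerivAt.comp_hasDerivAt s h1).hasDerivWithinAt
  have hbd : ∀ s ∈ Ico (0 : ℝ) 1,
      ‖⟪fderiv ℝ I.V z c, fderiv ℝ I.V (z + s • b) b + fderiv ℝ I.V (z + s • -b) (-b)⟫‖ ≤
        2 * K * ‖b‖ ^ 2 * ‖c‖ := fun s hs => by
    have hu : ∀ w : E, ‖s • w‖ ≤ ‖w‖ := fun w => by
      rw [norm_smul, Real.norm_of_nonneg hs.1]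
      exact mul_le_of_le_one_left (norm_nonneg _) hs.2.le
    have h1 := h q hq z hz (s • b) b c (hu b) hb
    have h2 := h q hq z hz (s • -b) (-b) c (hu (-b)) hb'
    rw [norm_neg] at h2
    have e : fderiv ℝ I.V (z + s • b) b + fderiv ℝ I.V (z + s • -b) (-b) =
        (fderiv ℝ I.V (z + s • b) b - fderiv ℝ I.V z b) +
          (fderiv ℝ I.V (z + s • -b) (-b) - fderiv ℝ I.V z (-b)) := by
      rw [map_neg (fderiv ℝ I.V z) b]
      abel
    rw [e, inner_add_right, Real.norm_eq_abs]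
    refine (abs_add_le _ _).trans ?_
    linarith
  have h3 := norm_image_sub_le_of_norm_deriv_le_segment_01' hd hbd
  simp only [one_smul, zero_smul, add_zero] at h3
  rw [← inner_sub_right, Real.norm_eq_abs, ← sub_eq_add_neg, ← two_smul ℝ (I.V z)] at h3
  exact h3

end Pool.Agent.Bor
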