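import Pool.Agent.P.MP_26ecb7_gt.CConv
import Pool.Agent.P.MP_26ecb7_gt.Young

noncomputable section
open Set Filter Topology MeasureTheory Metric
open scoped RealInnerProductSpace ContDiff ENNReal

namespace Pool.Agent.Bor

theorem tang0_hol {D : E → E →L[ℝ] E} {U : Set E} (hU : Convex ℝ U) {al H : ℝ}
    (hol : ∀ y ∈ U, ∀ z ∈ U, ‖D y - D z‖ ≤ H * ‖y - z‖ ^ al) {z z' : E} (hz : z ∈ U)
    (hz' : z' ∈ U) (a : E) : ∀ x ∈ Icc (0 : ℝ) 1, ∀ y ∈ Icc (0 : ℝ) 1,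
      ‖D (z + x • (z' - z)) a - D (z + y • (z' - z)) a‖
        ≤ H * ‖z' - z‖ ^ al * ‖a‖ * |x - y| ^ al := by
  intro x hx y hy
  have h1 := hol _ (hU.add_smul_sub_mem hz hz' hx) _ (hU.add_smul_sub_mem hz hz' hy)
  have h2 : z + x • (z' - z) - (z + y • (z' - z)) = (x - y) • (z' - z) := by
    rw [sub_smul]
    abel
  rw [h2, norm_smul, Real.norm_eq_abs, Real.mul_rpow (abs_nonneg _) (norm_nonneg _)] at h1
  rw [← sub_apply]
  refine (ContinuousLinearMap.le_opNorm _ _).trans ?_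
  refine (mul_le_mul_of_nonneg_right h1 (norm_nonneg a)).trans (le_of_eq ?_)
  ring

theorem tang0_core {W : E → E} (hW : ContDiff ℝ ∞ W) {U : Set E} (hU : Convex ℝ U) {al H : ℝ}
    (hal : 1 / 2 < al) (hH : 0 ≤ H)
    (hol : ∀ y ∈ U, ∀ z ∈ U, ‖fderiv ℝ W y - fderiv ℝ W z‖ ≤ H * ‖y - z‖ ^ al) {z z' : E}
    (hz : z ∈ U) (hz' : z' ∈ U) (a c : E) {p B : ℝ}
    (hB : ∀ t ∈ Icc (0 : ℝ) 1, |chr W (z + t • (z' - z)) (z' - z) a c - p| ≤ B) :
    |⟪fderiv ℝ W z c, fderiv ℝ W z' a - fderiv ℝ W z a⟫ - p|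
      ≤ B + yc al * H ^ 2 * ‖z' - z‖ ^ (2 * al) * ‖a‖ * ‖c‖ := by
  set b := z' - z with hb
  have hD : ContDiff ℝ ∞ (fderiv ℝ W) := hW.fderiv_right (by simp)
  have hD2 : Continuous (fderiv ℝ (fderiv ℝ W)) := hD.continuous_fderiv (by simp)
  have hl : ∀ t : ℝ, HasDerivAt (fun t : ℝ => z + t • b) b t := fun t => by
    simpa using ((hasDerivAt_id t).smul_const b).const_add z
  have hlc : Continuous fun t : ℝ => z + t • b := by fun_prop
  set f : ℝ → E := fun t => fderiv ℝ W (z + t • b) c with hf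
  set g : ℝ → E := fun t => fderiv ℝ W (z + t • b) a with hg
  set g' : ℝ → E := fun t => fderiv ℝ (fderiv ℝ W) (z + t • b) b a with hg'
  have hfc : Continuous f := (hD.continuous.comp hlc).clm_apply continuous_const
  have hg'c : Continuous g' :=
    ((hD2.comp hlc).clm_apply continuous_const).clm_apply continuous_const
  have hgd : ∀ t, HasDerivAt g (g' t) t := fun t => by
    have h1 := (hD.differentiable (by simp) (z + t • b)).hasFDerivAt.comp_hasDerivAt t (hl t)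
    have h2 := h1.clm_apply (hasDerivAt_const t a)
    simpa using h2
  have hbp : 0 ≤ ‖b‖ ^ al := Real.rpow_nonneg (norm_nonneg _) _
  have hY := young hal (f := f) (g := g) (g' := g') zero_le_one
    (mul_nonneg (mul_nonneg hH hbp) (norm_nonneg c))
    (mul_nonneg (mul_nonneg hH hbp) (norm_nonneg a)) hfc.continuousOn (fun t _ => hgd t)
    hg'c.continuousOn (tang0_hol hU hol hz hz' c) (tang0_hol hU hol hz hz' a)
  have hF : ∫ t in (0 : ℝ)..1, ⟪f 0, g' t⟫ = ⟪f 0, g 1⟫ - ⟪f 0, g 0⟫ := by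
    refine intervalIntegral.integral_eq_sub_of_hasDerivAt (f := fun t => ⟪f 0, g t⟫)
      (fun t _ => ?_) ((continuous_const.inner hg'c).intervalIntegrable _ _)
    simpa using (hasDerivAt_const t (f 0)).inner ℝ (hgd t)
  have hi1 : IntervalIntegrable (fun t => ⟪f t, g' t⟫ - p) volume (0 : ℝ) 1 :=
    ((hfc.inner hg'c).sub continuous_const).intervalIntegrable _ _
  have hi2 : IntervalIntegrable (fun t => ⟪f t - f 0, g' t⟫) volume (0 : ℝ) 1 :=
    ((hfc.sub continuous_const).inner hg'c).intervalIntegrable _ _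
  have hi3 : IntervalIntegrable (fun t => ⟪f 0, g' t⟫) volume (0 : ℝ) 1 :=
    (continuous_const.inner hg'c).intervalIntegrable _ _
  have hE : ⟪f 0, g 1⟫ - ⟪f 0, g 0⟫ - p =
      (∫ t in (0 : ℝ)..1, (⟪f t, g' t⟫ - p)) - ∫ t in (0 : ℝ)..1, ⟪f t - f 0, g' t⟫ := by
    rw [← intervalIntegral.integral_sub hi1 hi2, ← hF]
    have h3 : ∫ t in (0 : ℝ)..1, (⟪f 0, g' t⟫ - p) = (∫ t in (0 : ℝ)..1, ⟪f 0, g' t⟫) - p := by
      rw [intervalIntegral.integral_sub hi3 intervalIntegrable_const]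
      simp
    rw [← h3]
    refine intervalIntegral.integral_congr fun t _ => ?_
    simp only [inner_sub_left]
    ring
  have hI : |∫ t in (0 : ℝ)..1, (⟪f t, g' t⟫ - p)| ≤ B := by
    have h4 := intervalIntegral.norm_integral_le_of_norm_le_const (a := (0 : ℝ)) (b := 1) (C := B)
      (f := fun t => ⟪f t, g' t⟫ - p) (fun t ht => by
        rw [uIoc_of_le zero_le_one] at ht
        have h5 := hB t (Ioc_subset_Icc_self ht)
        rw [Real.norm_eq_abs, real_inner_comm]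
        exact h5)
    simpa using h4
  have h0 : f 0 = fderiv ℝ W z c := by simp [hf]
  have h1 : g 0 = fderiv ℝ W z a := by simp [hg]
  have h2 : g 1 = fderiv ℝ W z' a := by simp [hg, hb]
  rw [inner_sub_right, ← h0, ← h1, ← h2, hE]
  refine (abs_sub _ _).trans (add_le_add hI (hY.trans (le_of_eq ?_)))
  have h6 : ‖b‖ ^ (2 * al) = ‖b‖ ^ al * ‖b‖ ^ al := by
    rw [two_mul, Real.rpow_add_of_nonneg (norm_nonneg _) (by linarith) (by linarith)]
  rw [h6, sub_zero, Real.one_rpow]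
  ring

theorem tang0_bd {Y : Type} [NormedAddCommGroup Y] [NormedSpace ℝ Y] {f : E → Y} {K : Set E}
    (hK : IsCompact K) (h : ∀ z ∈ K, ContDiffAt ℝ ∞ f z) : ∃ C : ℝ, 0 ≤ C ∧ (∀ z ∈ K, ‖f z‖ ≤ C) ∧
      ∀ U ⊆ K, Convex ℝ U → ∀ z ∈ U, ∀ y ∈ U, ‖f y - f z‖ ≤ C * ‖y - z‖ := by
  have h1 : ∀ z ∈ K, ContDiffAt ℝ ∞ (fderiv ℝ f) z := fun z hz => (h z hz).fderiv_right (by simp)
  obtain ⟨C0, hC0⟩ := hK.exists_bound_of_continuousOn (f := f)
    (fun z hz => (h z hz).continuousAt.continuousWithinAt)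
  obtain ⟨C1, hC1⟩ := hK.exists_bound_of_continuousOn (f := fderiv ℝ f)
    (fun z hz => (h1 z hz).continuousAt.continuousWithinAt)
  refine ⟨|C0| + |C1|, by positivity, fun z hz => ?_, fun U hU hc z hz y hy => ?_⟩
  · linarith [hC0 z hz, le_abs_self C0, abs_nonneg C1]
  · refine hc.norm_image_sub_le_of_norm_fderiv_le (𝕜 := ℝ)
      (fun x hx => (h x (hU hx)).differentiableAt (by simp)) (fun x hx => ?_) hz hy
    linarith [hC1 x (hU hx), le_abs_self C1, abs_nonneg C0]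

theorem tang0_lip {X : Surf} {I : Iso X} (A : Appr I) : ∃ C : ℝ, 0 ≤ C ∧ ∀ q ∈ X.S,
    ∀ z ∈ ball q A.tau, ∀ y ∈ ball q A.tau, ∀ b a c : E,
      |chr X.pr y b a c - chr X.pr z b a c| ≤ C * ‖y - z‖ * ‖b‖ * ‖a‖ * ‖c‖ := by
  have hK : IsCompact (cthickening A.tau X.S) := X.cpt.cthickening
  have h0 : ∀ z ∈ cthickening A.tau X.S, ContDiffAt ℝ ∞ X.pr z := fun z hz =>
    X.pr_smooth z (fun h => A.o_not (h ▸ hz))
  have h1 : ∀ z ∈ cthickening A.tau X.S, ContDiffAt ℝ ∞ (fderiv ℝ X.pr) z := fun z hz =>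
    (h0 z hz).fderiv_right (by simp)
  have h2 : ∀ z ∈ cthickening A.tau X.S, ContDiffAt ℝ ∞ (fderiv ℝ (fderiv ℝ X.pr)) z :=
    fun z hz => (h1 z hz).fderiv_right (by simp)
  obtain ⟨C1, p1, hC1, hL1⟩ := tang0_bd hK h1
  obtain ⟨C2, p2, hC2, hL2⟩ := tang0_bd hK h2
  refine ⟨C2 * C1 + C2 * C1, by positivity, fun q hq z hz y hy b a c => ?_⟩
  have hs : ball q A.tau ⊆ cthickening A.tau X.S :=
    (ball_subset_thickening hq _).trans (thickening_subset_cthickening _ _)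
  have l1 := hL1 _ hs (convex_ball q A.tau) z hz y hy
  have l2 := hL2 _ hs (convex_ball q A.tau) z hz y hy
  have b1 := hC1 y (hs hy)
  have b2 := hC2 z (hs hz)
  have e : chr X.pr y b a c - chr X.pr z b a c =
      ⟪(fderiv ℝ (fderiv ℝ X.pr) y - fderiv ℝ (fderiv ℝ X.pr) z) b a, fderiv ℝ X.pr y c⟫
        + ⟪fderiv ℝ (fderiv ℝ X.pr) z b a, (fderiv ℝ X.pr y - fderiv ℝ X.pr z) c⟫ := by
    simp only [chr, sub_apply, inner_sub_left, inner_sub_right]
    ring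
  have t1 : |⟪(fderiv ℝ (fderiv ℝ X.pr) y - fderiv ℝ (fderiv ℝ X.pr) z) b a, fderiv ℝ X.pr y c⟫|
      ≤ (C2 * ‖y - z‖ * ‖b‖ * ‖a‖) * (C1 * ‖c‖) := by
    refine (abs_real_inner_le_norm _ _).trans (mul_le_mul ?_ ?_ (norm_nonneg _) (by positivity))
    · exact (ContinuousLinearMap.le_opNorm₂ _ _ _).trans (by gcongr)
    · exact (ContinuousLinearMap.le_opNorm _ _).trans (by gcongr)
  have t2 : |⟪fderiv ℝ (fderiv ℝ X.pr) z b a, (fderiv ℝ X.pr y - fderiv ℝ X.pr z) c⟫|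
      ≤ (C2 * ‖b‖ * ‖a‖) * (C1 * ‖y - z‖ * ‖c‖) := by
    refine (abs_real_inner_le_norm _ _).trans (mul_le_mul ?_ ?_ (norm_nonneg _) (by positivity))
    · exact (ContinuousLinearMap.le_opNorm₂ _ _ _).trans (by gcongr)
    · exact (ContinuousLinearMap.le_opNorm _ _).trans (by gcongr)
  rw [e]
  refine (abs_add_le _ _).trans ((add_le_add t1 t2).trans (le_of_eq ?_))
  ring

/-- tangential increments of the derivative are smooth up to order `2 al` -/
theorem Appr.tang {X : Surf} {I : Iso X} (A : Appr I) : ∃ K : ℝ, 0 ≤ K ∧ ∀ q ∈ X.S,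
    ∀ z ∈ ball q A.tau, ∀ z' ∈ ball q A.tau, ∀ a c : E,
      |⟪fderiv ℝ I.V z c, fderiv ℝ I.V z' a - fderiv ℝ I.V z a⟫ - chr X.pr z (z' - z) a c|
        ≤ K * ‖z' - z‖ ^ (2 * I.al) * ‖a‖ * ‖c‖ := by
  obtain ⟨C, hC, hL⟩ := tang0_lip A
  have hy := yc_pos I.al_gt
  refine ⟨C + yc I.al * A.H ^ 2, by positivity, fun q hq z hz z' hz' a c => ?_⟩
  have hs : ball q A.tau ⊆ thickening A.tau X.S := ball_subset_thickening hq _
  have hb1 : ‖z' - z‖ ≤ 1 := by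
    have h1 := dist_triangle_right z' z q
    rw [dist_eq_norm] at h1
    have h2 := mem_ball.1 hz
    have h3 := mem_ball.1 hz'
    linarith [A.tau_le]
  have hb2 : ‖z' - z‖ * ‖z' - z‖ ≤ ‖z' - z‖ ^ (2 * I.al) := by
    have h1 := Real.rpow_le_rpow_of_exponent_ge' (norm_nonneg (z' - z)) hb1
      (z := 2 * I.al) (y := 2) (by linarith [I.al_gt]) (by linarith [I.al_le])
    rw [Real.rpow_two, pow_two] at h1
    exact h1
  have c1 := A.c1.tendsto_at (hs hz)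
  have c2 := A.c1.tendsto_at (hs hz')
  have ev : ∀ u : E, Continuous fun L : E →L[ℝ] E => L u := fun u =>
    continuous_id.clm_apply continuous_const
  have hlim : Tendsto (fun n => |⟪fderiv ℝ (A.W n) z c, fderiv ℝ (A.W n) z' a
      - fderiv ℝ (A.W n) z a⟫ - chr X.pr z (z' - z) a c|) atTop
      (𝓝 |⟪fderiv ℝ I.V z c, fderiv ℝ I.V z' a - fderiv ℝ I.V z a⟫ - chr X.pr z (z' - z) a c|) :=
    (((((ev c).tendsto _).comp c1).inner ((((ev a).tendsto _).comp c2).sub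
      (((ev a).tendsto _).comp c1))).sub_const _).abs
  refine le_of_forall_pos_le_add fun ε hε => le_of_tendsto hlim ?_
  have hp : 0 < ‖z' - z‖ * ‖a‖ * ‖c‖ + 1 := by positivity
  filter_upwards [A.c2 (ε / (‖z' - z‖ * ‖a‖ * ‖c‖ + 1)) (div_pos hε hp)] with n hn
  have hθ : ε / (‖z' - z‖ * ‖a‖ * ‖c‖ + 1) * ‖z' - z‖ * ‖a‖ * ‖c‖ ≤ ε := by
    rw [mul_assoc, mul_assoc, ← mul_assoc ‖z' - z‖, div_mul_eq_mul_div, div_le_iff₀ hp]
    exact mul_le_mul_of_nonneg_left (by linarith) hε.le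
  have key := tang0_core (A.smooth n) (convex_ball q A.tau) I.al_gt A.H_nonneg
    (fun y hy z hz => A.hol n y (hs hy) z (hs hz)) hz hz' a c (p := chr X.pr z (z' - z) a c)
    (B := ε + C * ‖z' - z‖ ^ (2 * I.al) * ‖a‖ * ‖c‖) (fun t ht => by
      have hm := (convex_ball q A.tau).add_smul_sub_mem hz hz' ht
      have h1 := (hn _ (hs hm) (z' - z) a c).trans hθ
      have h2 := hL q hq z hz _ hm (z' - z) a c
      have h3 : ‖z + t • (z' - z) - z‖ ≤ ‖z' - z‖ := by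
        rw [add_sub_cancel_left, norm_smul, Real.norm_eq_abs, abs_of_nonneg ht.1]
        exact mul_le_of_le_one_left (norm_nonneg _) ht.2
      have h4 : C * ‖z + t • (z' - z) - z‖ * ‖z' - z‖ * ‖a‖ * ‖c‖
          ≤ C * ‖z' - z‖ ^ (2 * I.al) * ‖a‖ * ‖c‖ := by
        have h5 : ‖z + t • (z' - z) - z‖ * ‖z' - z‖ ≤ ‖z' - z‖ ^ (2 * I.al) :=
          (mul_le_mul_of_nonneg_right h3 (norm_nonneg _)).trans hb2
        rw [mul_assoc C]
        gcongr
      exact (abs_sub_le _ _ _).trans (add_le_add h1 (h2.trans h4)))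
  refine key.trans (le_of_eq ?_)
  ring


end Pool.Agent.Bor
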