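import Pool.Agent.P.MP_26ecb7_gt.Green

noncomputable section
open Set Filter Topology MeasureTheory Metric
open scoped RealInnerProductSpace ContDiff ENNReal

namespace Pool.Agent.Bor

/-- the two components of the angular form with centre `z`, cut off at scale `δ` -/
def t1 (δ : ℝ) (z y : P) : ℝ := kk δ ((y.1 - z.1) ^ 2 + (y.2 - z.2) ^ 2) * (y.1 - z.1)
def t2 (δ : ℝ) (z y : P) : ℝ := - (kk δ ((y.1 - z.1) ^ 2 + (y.2 - z.2) ^ 2) * (y.2 - z.2))
def wind (δ : ℝ) (z c : P) (r : ℝ) (p : P → P) : ℝ :=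
  lp c r (fun x => t1 δ z (p x)) (fun x => (p x).2) + lp c r (fun x => t2 δ z (p x)) (fun x => (p x).1)

theorem wind0_contDiff_chi (δ : ℝ) :
    ContDiff ℝ ∞ fun s : ℝ => Real.smoothTransition (2 * (s / δ ^ 2) - 1) :=
  Real.smoothTransition.contDiff.comp
    ((contDiff_const.mul (contDiff_id.div_const _)).sub contDiff_const)

theorem wind0_contDiff_kk {δ : ℝ} (hδ : 0 < δ) : ContDiff ℝ ∞ (kk δ) := by
  refine contDiff_iff_contDiffAt.2 fun s => ?_
  have h2 : 0 < δ ^ 2 := by positivity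
  by_cases hs : s = 0
  · subst hs
    refine (contDiffAt_const (c := (0 : ℝ))).congr_of_eventuallyEq ?_
    filter_upwards [gt_mem_nhds (half_pos h2)] with u hu
    have : 2 * (u / δ ^ 2) - 1 ≤ 0 := by
      have : u / δ ^ 2 ≤ 1 / 2 := by
        rw [div_le_iff₀ h2]
        linarith
      linarith
    rw [kk, Real.smoothTransition.zero_of_nonpos this, zero_div]
  · exact (wind0_contDiff_chi δ).contDiffAt.div (contDiffAt_const.mul contDiffAt_id)
      (mul_ne_zero (mul_ne_zero two_ne_zero Real.pi_ne_zero) hs)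

theorem wind0_mul_kk (δ s : ℝ) :
    s * kk δ s = Real.smoothTransition (2 * (s / δ ^ 2) - 1) / (2 * Real.pi) := by
  by_cases hs : s = 0
  · subst hs
    rw [Real.smoothTransition.zero_of_nonpos (by simp), zero_mul, zero_div]
  · have := Real.pi_ne_zero
    rw [kk]
    field_simp

theorem wind0_deriv {δ : ℝ} (hδ : 0 < δ) (s : ℝ) :
    2 * kk δ s + 2 * s * deriv (kk δ) s =
      2 * deriv Real.smoothTransition (2 * (s / δ ^ 2) - 1) / (Real.pi * δ ^ 2) := by
  have hk := (((wind0_contDiff_kk hδ).differentiable (by simp)) s).hasDerivAt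
  have h1 : HasDerivAt (fun u : ℝ => u * kk δ u) (1 * kk δ s + s * deriv (kk δ) s) s :=
    (hasDerivAt_id s).mul hk
  have hl : HasDerivAt (fun u : ℝ => 2 * (u / δ ^ 2) - 1) (2 * (1 / δ ^ 2)) s :=
    (((hasDerivAt_id s).div_const _).const_mul 2).sub_const 1
  have hT := (((Real.smoothTransition.contDiff (n := 1)).differentiable (by simp))
    (2 * (s / δ ^ 2) - 1)).hasDerivAt
  have h2 := (hT.comp s hl).div_const (2 * Real.pi)
  have e : (fun u : ℝ => u * kk δ u) =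
      fun u => (Real.smoothTransition ∘ fun u : ℝ => 2 * (u / δ ^ 2) - 1) u / (2 * Real.pi) :=
    funext fun u => wind0_mul_kk δ u
  rw [e] at h1
  have h3 := h1.unique h2
  have hπ := Real.pi_ne_zero
  have hδ' := hδ.ne'
  have h4 : 2 * kk δ s + 2 * s * deriv (kk δ) s = 2 * (1 * kk δ s + s * deriv (kk δ) s) := by ring
  rw [h4, h3]
  field_simp

theorem wind0_contDiff_S (z : P) :
    ContDiff ℝ ∞ fun y : P => (y.1 - z.1) ^ 2 + (y.2 - z.2) ^ 2 :=
  ((contDiff_fst.sub contDiff_const).pow 2).add ((contDiff_snd.sub contDiff_const).pow 2)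

theorem contDiff_t1 {δ : ℝ} (hδ : 0 < δ) (z : P) : ContDiff ℝ ∞ (t1 δ z) :=
  ((wind0_contDiff_kk hδ).comp (wind0_contDiff_S z)).mul (contDiff_fst.sub contDiff_const)

theorem contDiff_t2 {δ : ℝ} (hδ : 0 < δ) (z : P) : ContDiff ℝ ∞ (t2 δ z) :=
  (((wind0_contDiff_kk hδ).comp (wind0_contDiff_S z)).mul (contDiff_snd.sub contDiff_const)).neg

theorem div_t {δ : ℝ} (hδ : 0 < δ) (z y : P) :
    pd 0 (t1 δ z) y - pd 1 (t2 δ z) y = th δ (y - z) := by
  have ha : HasFDerivAt (fun y : P => y.1 - z.1) (ContinuousLinearMap.fst ℝ ℝ ℝ) y :=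
    hasFDerivAt_fst.sub_const _
  have hb : HasFDerivAt (fun y : P => y.2 - z.2) (ContinuousLinearMap.snd ℝ ℝ ℝ) y :=
    hasFDerivAt_snd.sub_const _
  have hS := (ha.pow 2).add (hb.pow 2)
  have hk := (((wind0_contDiff_kk hδ).differentiable (by simp))
    ((y.1 - z.1) ^ 2 + (y.2 - z.2) ^ 2)).hasDerivAt
  have hK := hk.comp_hasFDerivAt y hS
  have h1 : HasFDerivAt (t1 δ z) _ y := hK.mul ha
  have h2 : HasFDerivAt (t2 δ z) _ y := (hK.mul hb).neg
  rw [pd, pd, h1.fderiv, h2.fderiv, th, Prod.fst_sub, Prod.snd_sub, ← wind0_deriv hδ]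
  simp [e2]
  ring

end Pool.Agent.Bor
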